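import Mathlib
import Pool.Agent.Work.MP_8b6acb_co.Defs

section

/-!
# Labelled cubes: forward and backward weights (definitions)

A *type* is a labelling `τ : Finset α → Lab` of the subsets of a finite set `D`.  Random orders of
`D` are never used: all quantities are finite sums over subsets.
-/

namespace R5

open Finset

/-- The labels of a cut: source side, sink side, cut vertex. -/
inductive Lab where
  | A | B | X
deriving DecidableEq

/-- Exchange of the two sides. -/
def Lab.flip : Lab → Lab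
  | .A => .B
  | .B => .A
  | .X => .X

variable {α : Type} [DecidableEq α]

/-- Auxiliary recursion for `fw`. -/
noncomputable def fwn (τ : Finset α → Lab) : ℕ → Finset α → ℝ
  | 0, V => if τ V = Lab.A then 1 else 0
  | n + 1, V => if τ V = Lab.A then (∑ x ∈ V, fwn τ n (V.erase x)) / ((n : ℝ) + 1) else 0

/-- Probability that all prefixes of a random order of `V` (with `∅` and `V`) have label `A`. -/
noncomputable def fw (τ : Finset α → Lab) (V : Finset α) : ℝ := fwn τ V.card V

/-- The dual labelling on the subsets of `D`. -/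
def dual (τ : Finset α → Lab) (D : Finset α) : Finset α → Lab := fun U => (τ (D \ U)).flip

/-- Probability that all sets of a random chain from `V` to `D` have label `B`. -/
noncomputable def bw (τ : Finset α → Lab) (D V : Finset α) : ℝ := fw (dual τ D) (D \ V)

/-- Average of `fw` over the lower neighbours. -/
noncomputable def fwb (τ : Finset α → Lab) (V : Finset α) : ℝ :=
  (∑ x ∈ V, fw τ (V.erase x)) / (V.card : ℝ)

/-- Average of `bw` over the upper neighbours. -/
noncomputable def bwb (τ : Finset α → Lab) (D V : Finset α) : ℝ :=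
  (∑ x ∈ D \ V, bw τ D (insert x V)) / ((D \ V).card : ℝ)

/-- Expected number of prefixes of a random order of `V` all of whose prefixes are in `A`. -/
noncomputable def aw (τ : Finset α → Lab) (V : Finset α) : ℝ :=
  ∑ X ∈ V.powerset, fw τ X / (V.card.choose X.card : ℝ)

/-- Mirror of `aw`. -/
noncomputable def ab (τ : Finset α → Lab) (D V : Finset α) : ℝ := aw (dual τ D) (D \ V)

/-- The total mass. -/
noncomputable def Zt (τ : Finset α → Lab) (D : Finset α) : ℝ :=
  (aw τ D + ab τ D ∅) / ((D.card : ℝ) + 1)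

/-- `(V, V + x)` is a cut edge of the type. -/
def isE (τ : Finset α → Lab) (V : Finset α) (x : α) : Prop := τ V = Lab.A ∧ τ (insert x V) = Lab.B

instance (τ : Finset α → Lab) (V : Finset α) (x : α) : Decidable (isE τ V x) := by
  unfold isE; infer_instance

/-- Mass of (star at `X`, colour L, last object = edge `(V, V + x)`). -/
noncomputable def pe (τ : Finset α → Lab) (D X V : Finset α) (x : α) : ℝ :=
  if X ⊆ V ∧ isE τ V x then
    fw τ X * bw τ D (insert x V) / (((D.card : ℝ) + 1) * (D.card.choose X.card : ℝ) *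
      ((D.card - X.card).choose (V.card - X.card) : ℝ) * ((D.card : ℝ) - (V.card : ℝ)))
  else 0

/-- Mass of (star at `X`, colour L, last object = vertex `V`). -/
noncomputable def pv (τ : Finset α → Lab) (D X V : Finset α) : ℝ :=
  if X ⊆ V ∧ τ V = Lab.X then
    fw τ X * bwb τ D V / (((D.card : ℝ) + 1) * (D.card.choose X.card : ℝ) *
      ((D.card - X.card).choose (V.card - X.card) : ℝ))
  else 0

/-- Mass of (colour L, last object = edge `(V, V + x)`). -/
noncomputable def yLe (τ : Finset α → Lab) (D V : Finset α) (x : α) : ℝ :=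
  if isE τ V x then
    aw τ V * bw τ D (insert x V) /
      (((D.card : ℝ) + 1) * (D.card.choose V.card : ℝ) * ((D.card : ℝ) - (V.card : ℝ)))
  else 0

/-- Mass of (colour L, last object = vertex `V`). -/
noncomputable def yLv (τ : Finset α → Lab) (D V : Finset α) : ℝ :=
  if τ V = Lab.X then aw τ V * bwb τ D V / (((D.card : ℝ) + 1) * (D.card.choose V.card : ℝ)) else 0

/-- Mass of (colour F, first object = edge `(V, V + x)`). -/
noncomputable def yFe (τ : Finset α → Lab) (D V : Finset α) (x : α) : ℝ :=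
  if isE τ V x then
    fw τ V * ab τ D (insert x V) /
      (((D.card : ℝ) + 1) * (D.card.choose V.card : ℝ) * ((D.card : ℝ) - (V.card : ℝ)))
  else 0

/-- Mass of (colour F, first object = vertex `V`). -/
noncomputable def yFv (τ : Finset α → Lab) (D V : Finset α) : ℝ :=
  if τ V = Lab.X then fwb τ V * ab τ D V / (((D.card : ℝ) + 1) * (D.card.choose V.card : ℝ)) else 0

/-- Mass of (star at `X`, colour L, last object = edge with crossing element `g`). -/
noncomputable def PP1 (τ : Finset α → Lab) (D X : Finset α) (g : α) : ℝ :=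
  ∑ V ∈ (D.erase g).powerset, pe τ D X V g

/-- `λ_n = log (n/(n-1))`. -/
noncomputable def lamn (n : ℕ) : ℝ := Real.log ((n : ℝ) / ((n : ℝ) - 1))

/-- Mass of the colour L configurations paying an edge. -/
noncomputable def PEL (τ : Finset α → Lab) (D : Finset α) : ℝ :=
  ∑ V ∈ D.powerset, ∑ x ∈ D \ V, yLe τ D V x

/-! Base quantities of a type. -/

/-- Expected number of slots with the own slot of a first vertex counted `π`. -/
noncomputable def A1 (τ : Finset α → Lab) (π : Finset α → ℝ) (V : Finset α) : ℝ :=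
  ∑ U ∈ V.powerset, (match τ U with
    | .A => fw τ U
    | .X => fwb τ U * π U
    | .B => 0) / (V.card.choose U.card : ℝ)

/-- Mirror of `A1`, with weight `1 - π`. -/
noncomputable def B1 (τ : Finset α → Lab) (D : Finset α) (π : Finset α → ℝ) (V : Finset α) : ℝ :=
  A1 (dual τ D) (fun U => 1 - π (D \ U)) (D \ V)

end R5

end

section

/-! Basic facts on the forward and backward weights. -/

namespace R5

open Finset

variable {α : Type} [DecidableEq α]

/-! ### forward weights -/

theorem fw_empty (τ : Finset α → Lab) : fw τ ∅ = if τ ∅ = Lab.A then 1 else 0 := by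
  simp [fw, fwn]

theorem fw_of_ne {τ : Finset α → Lab} {V : Finset α} (h : τ V ≠ Lab.A) : fw τ V = 0 := by
  unfold fw
  cases hn : V.card with
  | zero => simp [fwn, h]
  | succ n => simp [fwn, h]

theorem fw_rec {τ : Finset α → Lab} {V : Finset α} (hV : V ≠ ∅) :
    fw τ V = if τ V = Lab.A then fwb τ V else 0 := by
  unfold fw fwb
  have hc : V.card ≠ 0 := by rwa [Ne, card_eq_zero]
  obtain ⟨n, hn⟩ := Nat.exists_eq_succ_of_ne_zero hc
  rw [hn]
  simp only [fwn]
  split_ifs with h
  · push_cast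
    congr 1
    refine sum_congr rfl fun x hx => ?_
    unfold fw
    rw [card_erase_of_mem hx, hn]
    rfl
  · rfl

theorem fw_nonneg (τ : Finset α → Lab) (V : Finset α) : 0 ≤ fw τ V := by
  induction hn : V.card using Nat.strong_induction_on generalizing V with
  | _ n ih =>
    by_cases hV : V = ∅
    · subst hV; rw [fw_empty]; split_ifs <;> norm_num
    · rw [fw_rec hV]
      split_ifs with h
      · unfold fwb
        apply div_nonneg _ (Nat.cast_nonneg _)
        refine sum_nonneg fun x hx => ?_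
        exact ih _ (by rw [← hn]; exact card_erase_lt_of_mem hx) _ rfl
      · exact le_refl _

theorem fw_le_one (τ : Finset α → Lab) (V : Finset α) : fw τ V ≤ 1 := by
  induction hn : V.card using Nat.strong_induction_on generalizing V with
  | _ n ih =>
    by_cases hV : V = ∅
    · subst hV; rw [fw_empty]; split_ifs <;> norm_num
    · rw [fw_rec hV]
      split_ifs with h
      · unfold fwb
        have hc : (0 : ℝ) < V.card := by
          rw [Nat.cast_pos, card_pos]; exact nonempty_iff_ne_empty.2 hV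
        rw [div_le_one hc]
        calc ∑ x ∈ V, fw τ (V.erase x) ≤ ∑ x ∈ V, (1 : ℝ) := by
              refine sum_le_sum fun x hx => ?_
              exact ih _ (by rw [← hn]; exact card_erase_lt_of_mem hx) _ rfl
          _ = V.card := by simp
      · norm_num

theorem fwb_nonneg (τ : Finset α → Lab) (V : Finset α) : 0 ≤ fwb τ V :=
  div_nonneg (sum_nonneg fun _ _ => fw_nonneg _ _) (Nat.cast_nonneg _)

theorem fwb_le_one (τ : Finset α → Lab) (V : Finset α) : fwb τ V ≤ 1 := by
  unfold fwb
  by_cases hV : V = ∅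
  · subst hV; simp
  have hc : (0 : ℝ) < V.card := by
    rw [Nat.cast_pos, card_pos]; exact nonempty_iff_ne_empty.2 hV
  rw [div_le_one hc]
  calc ∑ x ∈ V, fw τ (V.erase x) ≤ ∑ x ∈ V, (1 : ℝ) := sum_le_sum fun x _ => fw_le_one _ _
    _ = V.card := by simp

theorem fw_congr {τ τ' : Finset α → Lab} {V : Finset α} (h : ∀ U ⊆ V, τ U = τ' U) :
    fw τ V = fw τ' V := by
  induction hn : V.card using Nat.strong_induction_on generalizing V with
  | _ n ih =>
    by_cases hV : V = ∅
    · subst hV; rw [fw_empty, fw_empty, h _ (Subset.refl _)]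
    · rw [fw_rec hV, fw_rec hV, h _ (Subset.refl _)]
      have : fwb τ V = fwb τ' V := by
        unfold fwb
        congr 1
        refine sum_congr rfl fun x hx => ?_
        exact ih _ (by rw [← hn]; exact card_erase_lt_of_mem hx)
          (fun U hU => h U (hU.trans (erase_subset _ _))) rfl
      rw [this]

theorem fwb_congr {τ τ' : Finset α → Lab} {V : Finset α} (h : ∀ U ⊂ V, τ U = τ' U) :
    fwb τ V = fwb τ' V := by
  unfold fwb
  congr 1
  refine sum_congr rfl fun x hx => ?_
  exact fw_congr fun U hU => h U (lt_of_le_of_lt hU (erase_ssubset hx))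

theorem aw_congr {τ τ' : Finset α → Lab} {V : Finset α} (h : ∀ U ⊆ V, τ U = τ' U) :
    aw τ V = aw τ' V := by
  unfold aw
  refine sum_congr rfl fun X hX => ?_
  rw [fw_congr fun U hU => h U (hU.trans (mem_powerset.1 hX))]

/-! ### reindexing -/

theorem sum_powerset_compl (D : Finset α) (F : Finset α → ℝ) :
    ∑ V ∈ D.powerset, F (D \ V) = ∑ V ∈ D.powerset, F V := by
  refine sum_bij' (fun V _ => D \ V) (fun V _ => D \ V) ?_ ?_ ?_ ?_ ?_
  · intro V _; exact mem_powerset.2 sdiff_subset
  · intro V _; exact mem_powerset.2 sdiff_subset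
  · intro V hV; exact Finset.sdiff_sdiff_eq_self (mem_powerset.1 hV)
  · intro V hV; exact Finset.sdiff_sdiff_eq_self (mem_powerset.1 hV)
  · intro V _; rfl

/-- Reindexing `(V, x) ↔ (V + x, x)`. -/
theorem sum_up_down (D : Finset α) (F : Finset α → α → ℝ) :
    ∑ V ∈ D.powerset, ∑ x ∈ D \ V, F V x = ∑ U ∈ D.powerset, ∑ x ∈ U, F (U.erase x) x := by
  rw [sum_sigma', sum_sigma']
  refine sum_bij' (fun p _ => (⟨insert p.2 p.1, p.2⟩ : (_ : Finset α) × α))
    (fun p _ => (⟨p.1.erase p.2, p.2⟩ : (_ : Finset α) × α)) ?_ ?_ ?_ ?_ ?_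
  · rintro ⟨V, x⟩ h
    simp only [mem_sigma, mem_powerset, mem_sdiff] at h ⊢
    exact ⟨insert_subset h.2.1 h.1, mem_insert_self _ _⟩
  · rintro ⟨U, x⟩ h
    simp only [mem_sigma, mem_powerset, mem_sdiff] at h ⊢
    exact ⟨(erase_subset _ _).trans h.1, h.1 h.2, notMem_erase _ _⟩
  · rintro ⟨V, x⟩ h
    simp only [mem_sigma, mem_powerset, mem_sdiff] at h
    simp only [erase_insert h.2.2]
  · rintro ⟨U, x⟩ h
    simp only [mem_sigma, mem_powerset] at h
    simp only [insert_erase h.2]
  · rintro ⟨V, x⟩ h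
    simp only [mem_sigma, mem_powerset, mem_sdiff] at h
    simp only [erase_insert h.2.2]

/-- Reindexing `(V, x) ↔ (D - (V + x), x)`. -/
theorem sum_edge_compl (D : Finset α) (F : Finset α → α → ℝ) :
    ∑ V ∈ D.powerset, ∑ x ∈ D \ V, F (D \ insert x V) x =
      ∑ V ∈ D.powerset, ∑ x ∈ D \ V, F V x := by
  rw [sum_sigma', sum_sigma']
  refine sum_bij' (fun p _ => (⟨D \ insert p.2 p.1, p.2⟩ : (_ : Finset α) × α))
    (fun p _ => (⟨D \ insert p.2 p.1, p.2⟩ : (_ : Finset α) × α)) ?_ ?_ ?_ ?_ ?_
  · rintro ⟨V, x⟩ h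
    simp only [mem_sigma, mem_powerset, mem_sdiff] at h ⊢
    exact ⟨sdiff_subset, h.2.1, fun hh => hh.2 (mem_insert_self _ _)⟩
  · rintro ⟨V, x⟩ h
    simp only [mem_sigma, mem_powerset, mem_sdiff] at h ⊢
    exact ⟨sdiff_subset, h.2.1, fun hh => hh.2 (mem_insert_self _ _)⟩
  · rintro ⟨V, x⟩ h
    simp only [mem_sigma, mem_powerset, mem_sdiff] at h
    have : D \ insert x (D \ insert x V) = V := by
      ext y
      simp only [mem_sdiff, mem_insert, not_or, not_and, not_not]
      constructor
      · rintro ⟨hy, hyx, hy2⟩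
        exact hy2 hy hyx
      · intro hy
        refine ⟨h.1 hy, ?_, fun _ _ => hy⟩
        rintro rfl
        exact h.2.2 hy
    simp only [this]
  · rintro ⟨V, x⟩ h
    simp only [mem_sigma, mem_powerset, mem_sdiff] at h
    have : D \ insert x (D \ insert x V) = V := by
      ext y
      simp only [mem_sdiff, mem_insert, not_or, not_and, not_not]
      constructor
      · rintro ⟨hy, hyx, hy2⟩
        exact hy2 hy hyx
      · intro hy
        refine ⟨h.1 hy, ?_, fun _ _ => hy⟩
        rintro rfl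
        exact h.2.2 hy
    simp only [this]
  · rintro ⟨V, x⟩ h
    rfl

/-! ### duality -/

theorem dual_dual {τ : Finset α → Lab} {D U : Finset α} (h : U ⊆ D) :
    dual (dual τ D) D U = τ U := by
  unfold dual
  rw [Finset.sdiff_sdiff_eq_self h]
  cases τ U <;> rfl

theorem dual_apply {τ : Finset α → Lab} {D U : Finset α} (h : U ⊆ D) :
    dual τ D (D \ U) = (τ U).flip := by
  unfold dual
  rw [Finset.sdiff_sdiff_eq_self h]

theorem flip_eq_A {a : Lab} : a.flip = Lab.A ↔ a = Lab.B := by cases a <;> simp [Lab.flip]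
theorem flip_eq_B {a : Lab} : a.flip = Lab.B ↔ a = Lab.A := by cases a <;> simp [Lab.flip]
theorem flip_eq_X {a : Lab} : a.flip = Lab.X ↔ a = Lab.X := by cases a <;> simp [Lab.flip]

theorem bw_nonneg (τ : Finset α → Lab) (D V : Finset α) : 0 ≤ bw τ D V := fw_nonneg _ _
theorem bw_le_one (τ : Finset α → Lab) (D V : Finset α) : bw τ D V ≤ 1 := fw_le_one _ _

theorem bwb_nonneg (τ : Finset α → Lab) (D V : Finset α) : 0 ≤ bwb τ D V :=
  div_nonneg (sum_nonneg fun _ _ => bw_nonneg _ _ _) (Nat.cast_nonneg _)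

theorem bw_of_ne {τ : Finset α → Lab} {D V : Finset α} (hV : V ⊆ D) (h : τ V ≠ Lab.B) :
    bw τ D V = 0 := by
  unfold bw
  apply fw_of_ne
  rw [dual_apply hV, Ne, flip_eq_A]
  exact h

theorem bw_top (τ : Finset α → Lab) (D : Finset α) :
    bw τ D D = if τ D = Lab.B then 1 else 0 := by
  unfold bw
  rw [sdiff_self, bot_eq_empty, fw_empty]
  simp only [dual, sdiff_empty, flip_eq_A]

theorem sdiff_erase_eq {D V : Finset α} {x : α} :
    (D \ V).erase x = D \ insert x V := by
  ext y; simp only [mem_erase, mem_sdiff, mem_insert, not_or]; tauto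

theorem fwb_dual (τ : Finset α → Lab) (D V : Finset α) : fwb (dual τ D) (D \ V) = bwb τ D V := by
  unfold fwb bwb bw
  congr 1
  refine sum_congr rfl fun x _ => ?_
  rw [sdiff_erase_eq]

theorem bw_rec {τ : Finset α → Lab} {D V : Finset α} (hV : V ⊆ D) (hne : V ≠ D) :
    bw τ D V = if τ V = Lab.B then bwb τ D V else 0 := by
  unfold bw
  have h1 : D \ V ≠ ∅ := by
    rw [Ne, sdiff_eq_empty_iff_subset]
    intro h
    exact hne (Subset.antisymm hV h)
  rw [fw_rec h1, fwb_dual, dual_apply hV]
  simp only [flip_eq_A]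

theorem bw_dual {τ : Finset α → Lab} {D V : Finset α} : bw (dual τ D) D V = fw τ (D \ V) := by
  unfold bw
  exact fw_congr fun U hU => dual_dual (hU.trans sdiff_subset)

theorem bwb_dual {τ : Finset α → Lab} {D V : Finset α} :
    bwb (dual τ D) D V = fwb τ (D \ V) := by
  rw [← fwb_dual]
  exact fwb_congr fun U hU => dual_dual (hU.1.trans sdiff_subset)

theorem fw_dual {τ : Finset α → Lab} {D V : Finset α} (hV : V ⊆ D) :
    fw (dual τ D) V = bw τ D (D \ V) := by
  unfold bw
  rw [Finset.sdiff_sdiff_eq_self hV]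

theorem ab_dual {τ : Finset α → Lab} {D V : Finset α} : ab (dual τ D) D V = aw τ (D \ V) := by
  unfold ab
  exact aw_congr fun U hU => dual_dual (hU.trans sdiff_subset)

theorem aw_dual {τ : Finset α → Lab} {D V : Finset α} (hV : V ⊆ D) :
    aw (dual τ D) V = ab τ D (D \ V) := by
  unfold ab
  rw [Finset.sdiff_sdiff_eq_self hV]

theorem Zt_dual (τ : Finset α → Lab) (D : Finset α) : Zt (dual τ D) D = Zt τ D := by
  unfold Zt
  rw [ab_dual, aw_dual (Subset.refl _)]
  simp only [sdiff_empty, sdiff_self, bot_eq_empty]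
  rw [add_comm]

theorem isE_dual {τ : Finset α → Lab} {D V : Finset α} {x : α} (hV : V ⊆ D) (hx : x ∈ D \ V) :
    isE (dual τ D) (D \ insert x V) x ↔ isE τ V x := by
  unfold isE
  rw [mem_sdiff] at hx
  have h1 : insert x V ⊆ D := insert_subset hx.1 hV
  have h2 : insert x (D \ insert x V) = D \ V := by
    ext y
    simp only [mem_sdiff, mem_insert, not_or]
    by_cases hy : y = x
    · subst hy; simp [hx.1, hx.2]
    · simp [hy]
  rw [dual_apply h1, h2, dual_apply hV, flip_eq_A, flip_eq_B]
  tauto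

/-! ### binomials -/

theorem card_sdiff_cast {D V : Finset α} (hV : V ⊆ D) :
    ((D \ V).card : ℝ) = (D.card : ℝ) - V.card := by
  rw [card_sdiff_of_subset hV, Nat.cast_sub (card_le_card hV)]

theorem choose_up {l k : ℕ} (hk : k < l) :
    (l.choose k : ℝ) * ((l : ℝ) - k) = (l.choose (k + 1) : ℝ) * ((k : ℝ) + 1) := by
  have h := Nat.choose_succ_right_eq l k
  have h2 : ((l - k : ℕ) : ℝ) = (l : ℝ) - k := Nat.cast_sub hk.le
  rw [← h2]
  exact_mod_cast h.symm

theorem choose_pos_real {l k : ℕ} (hk : k ≤ l) : (0 : ℝ) < (l.choose k : ℝ) := by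
  exact_mod_cast Nat.choose_pos hk

theorem choose_mul_real {l k i : ℕ} (hi : i ≤ k) :
    (l.choose i : ℝ) * ((l - i).choose (k - i) : ℝ) = (l.choose k : ℝ) * (k.choose i : ℝ) := by
  have h := Nat.choose_mul (n := l) (k := k) (s := i) hi
  exact_mod_cast h.symm

theorem yLe_dual {τ : Finset α → Lab} {D V : Finset α} {x : α} (hV : V ⊆ D) (hx : x ∈ D \ V) :
    yLe (dual τ D) D (D \ insert x V) x = yFe τ D V x := by
  unfold yLe yFe
  have hx' := mem_sdiff.1 hx
  have h1 : insert x V ⊆ D := insert_subset hx'.1 hV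
  have h2 : insert x (D \ insert x V) = D \ V := by
    ext y
    simp only [mem_sdiff, mem_insert, not_or]
    by_cases hy : y = x
    · subst hy; simp [hx'.1, hx'.2]
    · simp [hy]
  have hlt : V.card < D.card := by
    have := card_le_card h1
    rw [card_insert_of_notMem hx'.2] at this
    omega
  have h3 : (D \ insert x V).card = D.card - (V.card + 1) := by
    rw [card_sdiff_of_subset h1, card_insert_of_notMem hx'.2]
  simp only [isE_dual hV hx]
  split_ifs with h
  · rw [aw_dual sdiff_subset, Finset.sdiff_sdiff_eq_self h1, h2, bw_dual, Finset.sdiff_sdiff_eq_self hV, h3]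
    rw [mul_comm (ab τ D (insert x V))]
    congr 1
    rw [mul_assoc, mul_assoc, choose_up hlt, Nat.choose_symm (by omega), Nat.cast_sub (by omega)]
    push_cast
    ring
  · rfl

theorem yLv_dual {τ : Finset α → Lab} {D V : Finset α} (hV : V ⊆ D) :
    yLv (dual τ D) D (D \ V) = yFv τ D V := by
  unfold yLv yFv
  simp only [dual_apply hV, flip_eq_X]
  split_ifs with h
  · rw [aw_dual sdiff_subset, Finset.sdiff_sdiff_eq_self hV, bwb_dual, Finset.sdiff_sdiff_eq_self hV,
      card_sdiff_of_subset hV, Nat.choose_symm (card_le_card hV), mul_comm (ab τ D V)]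
  · rfl

/-! ### expected numbers of slots -/

theorem aw_nonneg (τ : Finset α → Lab) (V : Finset α) : 0 ≤ aw τ V :=
  sum_nonneg fun _ _ => div_nonneg (fw_nonneg _ _) (Nat.cast_nonneg _)

theorem ab_nonneg (τ : Finset α → Lab) (D V : Finset α) : 0 ≤ ab τ D V := aw_nonneg _ _

theorem one_le_aw {τ : Finset α → Lab} (h : τ ∅ = Lab.A) (V : Finset α) : 1 ≤ aw τ V := by
  unfold aw
  have h1 : fw τ ∅ / (V.card.choose (∅ : Finset α).card : ℝ) = 1 := by
    rw [fw_empty, if_pos h]; simp
  rw [← h1]
  exact single_le_sum (f := fun X => fw τ X / (V.card.choose X.card : ℝ))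
    (fun _ _ => div_nonneg (fw_nonneg _ _) (Nat.cast_nonneg _)) (empty_mem_powerset V)

/-- `ab` as a sum over the sets above `V`. -/
theorem ab_eq_sum {τ : Finset α → Lab} {D V : Finset α} (hV : V ⊆ D) :
    ab τ D V = ∑ U ∈ (D \ V).powerset, bw τ D (V ∪ U) / ((D \ V).card.choose U.card : ℝ) := by
  unfold ab aw
  rw [← sum_powerset_compl (D \ V)]
  refine sum_congr rfl fun U hU => ?_
  rw [mem_powerset] at hU
  have h1 : (D \ V) \ U ⊆ D := sdiff_subset.trans sdiff_subset
  rw [fw_dual h1]
  have h2 : D \ ((D \ V) \ U) = V ∪ U := by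
    ext y
    simp only [mem_sdiff, mem_union, not_and, not_not]
    constructor
    · rintro ⟨hy, h⟩
      by_cases hyV : y ∈ V
      · exact Or.inl hyV
      · exact Or.inr (h ⟨hy, hyV⟩)
    · rintro (h | h)
      · exact ⟨hV h, fun h' => absurd h h'.2⟩
      · exact ⟨(mem_sdiff.1 (hU h)).1, fun _ => h⟩
  rw [h2, card_sdiff_of_subset hU, Nat.choose_symm (card_le_card hU)]

/-- Recursion for `aw`. -/
theorem aw_rec {τ : Finset α → Lab} {V : Finset α} (hV : V ≠ ∅) :
    aw τ V = fw τ V + (∑ x ∈ V, aw τ (V.erase x)) / (V.card : ℝ) := by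
  have hc : (0 : ℝ) < V.card := by
    rw [Nat.cast_pos, card_pos]; exact nonempty_iff_ne_empty.2 hV
  have h1 : ∑ x ∈ V, aw τ (V.erase x) =
      ∑ X ∈ V.powerset, ∑ x ∈ V \ X, fw τ X / ((V.card - 1).choose X.card : ℝ) := by
    unfold aw
    rw [sum_sigma', sum_sigma']
    refine sum_bij' (fun p _ => (⟨p.2, p.1⟩ : (_ : Finset α) × α))
      (fun p _ => (⟨p.2, p.1⟩ : (_ : α) × Finset α)) ?_ ?_ ?_ ?_ ?_
    · rintro ⟨x, X⟩ h
      simp only [mem_sigma, mem_powerset, mem_sdiff] at h ⊢
      exact ⟨h.2.trans (erase_subset _ _), h.1, fun hx => notMem_erase x V (h.2 hx)⟩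
    · rintro ⟨X, x⟩ h
      simp only [mem_sigma, mem_powerset, mem_sdiff] at h ⊢
      exact ⟨h.2.1, subset_erase.2 ⟨h.1, h.2.2⟩⟩
    · rintro ⟨x, X⟩ _; rfl
    · rintro ⟨X, x⟩ _; rfl
    · rintro ⟨x, X⟩ h
      simp only [mem_sigma, mem_powerset] at h
      rw [card_erase_of_mem h.1]
  rw [h1]
  unfold aw
  rw [← add_sum_erase _ _ (mem_powerset_self V), Nat.choose_self, Nat.cast_one, div_one,
    ← add_sum_erase _ (fun X => ∑ x ∈ V \ X, fw τ X / ((V.card - 1).choose X.card : ℝ))
      (mem_powerset_self V)]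
  simp only [sdiff_self, bot_eq_empty, sum_empty, zero_add]
  congr 1
  rw [sum_div]
  refine sum_congr rfl fun X hX => ?_
  rw [mem_erase, mem_powerset] at hX
  have hlt : X.card < V.card := card_lt_card (ssubset_of_subset_of_ne hX.2 hX.1)
  rw [sum_const, nsmul_eq_mul, card_sdiff_cast hX.2]
  have hp := choose_pos_real hlt.le
  have hp2 : (0 : ℝ) < ((V.card - 1).choose X.card : ℝ) := choose_pos_real (by omega)
  have hid : (V.card.choose X.card : ℝ) * ((V.card : ℝ) - X.card) =
      (V.card : ℝ) * ((V.card - 1).choose X.card : ℝ) := by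
    obtain ⟨n, hn⟩ : ∃ n, V.card = n + 1 := ⟨V.card - 1, by omega⟩
    rw [hn] at hlt ⊢
    have h3 : (((n + 1) - X.card : ℕ) : ℝ) = ((n + 1 : ℕ) : ℝ) - X.card := Nat.cast_sub hlt.le
    rw [← h3, Nat.add_sub_cancel]
    have h4 : (n + 1).choose X.card * (n + 1 - X.card) = (n + 1) * n.choose X.card := by
      rw [← Nat.choose_mul_succ_eq, mul_comm]
    exact_mod_cast h4
  rw [div_eq_div_iff hp.ne' hc.ne']
  have : ((V.card : ℝ) - X.card) * (fw τ X / ((V.card - 1).choose X.card : ℝ)) *
      (V.card.choose X.card : ℝ) = fw τ X * ((V.card.choose X.card : ℝ) *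
        ((V.card : ℝ) - X.card)) / ((V.card - 1).choose X.card : ℝ) := by ring
  rw [this, hid]
  field_simp

end R5

end

section

/-!
# The quadratic inequality (Q^pi)

First and last exits of uniform chains in a labelled cube.
-/

namespace R5.QP

open Finset

variable {α : Type} [DecidableEq α]

/-- Probability that the first set without label `A` of a uniform chain `∅ → U` is `W`. -/
noncomputable def P1 (c : Finset α → Lab) (U W : Finset α) : ℝ :=
  fwb c W / (U.card.choose W.card : ℝ)

lemma P1_nonneg (c : Finset α → Lab) (U W : Finset α) : 0 ≤ P1 c U W :=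
  div_nonneg (fwb_nonneg _ _) (by positivity)

lemma P1_self (c : Finset α → Lab) (U : Finset α) : P1 c U U = fwb c U := by simp [P1]

lemma P1_erase (c : Finset α → Lab) {U W : Finset α} {x : α} (hx : x ∈ U) (hW : W ⊆ U.erase x) :
    P1 c U W / ((U \ W).card : ℝ) = P1 c (U.erase x) W / (U.card : ℝ) := by
  have hxW : x ∉ W := fun h => by simpa using hW h
  have hWU : W ⊆ U := hW.trans (Finset.erase_subset _ _)
  have hlt : W.card < U.card := Finset.card_lt_card ⟨hWU, fun h => hxW (h hx)⟩
  obtain ⟨m, hm⟩ : ∃ m, U.card = m + 1 := ⟨U.card - 1, by omega⟩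
  have hk : W.card ≤ m := by omega
  have h1 : (U \ W).card = m + 1 - W.card := by
    rw [Finset.card_sdiff_of_subset hWU, hm]
  have h2 : (U.erase x).card = m := by rw [Finset.card_erase_of_mem hx, hm]; rfl
  unfold P1
  rw [h1, h2, hm]
  have h3 : (m.choose W.card : ℝ) * ((m : ℝ) + 1) =
      ((m + 1).choose W.card : ℝ) * ((m + 1 - W.card : ℕ) : ℝ) := by
    have := Nat.choose_mul_succ_eq m W.card
    exact_mod_cast this
  have h4 : (0 : ℝ) < (m.choose W.card : ℝ) := by exact_mod_cast Nat.choose_pos hk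
  have h5 : (0 : ℝ) < ((m + 1).choose W.card : ℝ) := by
    exact_mod_cast Nat.choose_pos (by omega)
  have h6 : (0 : ℝ) < ((m + 1 - W.card : ℕ) : ℝ) := by
    exact_mod_cast (by omega : 0 < m + 1 - W.card)
  rw [div_div, div_div, ← h3]
  push_cast
  ring

/-! ### Exchange of sums -/

lemma sum_pairs (c : Finset α → Lab) (U : Finset α) (F : Finset α → α → ℝ) :
    ∑ W ∈ U.powerset with c W ≠ Lab.A, ∑ x ∈ U \ W, F W x =
      ∑ x ∈ U, ∑ W ∈ (U.erase x).powerset with c W ≠ Lab.A, F W x := by
  refine Finset.sum_comm' ?_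
  intro W x
  simp only [Finset.mem_filter, Finset.mem_powerset, Finset.mem_sdiff, Finset.subset_erase]
  tauto

/-- The key averaging identity over the last element. -/
lemma P1_avg (c : Finset α → Lab) (U : Finset α) (F : Finset α → α → ℝ) :
    ∑ W ∈ U.powerset with c W ≠ Lab.A,
        P1 c U W * ((∑ x ∈ U \ W, F W x) / ((U \ W).card : ℝ)) =
      (∑ x ∈ U, ∑ W ∈ (U.erase x).powerset with c W ≠ Lab.A, P1 c (U.erase x) W * F W x) /
        (U.card : ℝ) := by
  have h1 : ∀ W ∈ U.powerset.filter (fun W => c W ≠ Lab.A),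
      P1 c U W * ((∑ x ∈ U \ W, F W x) / ((U \ W).card : ℝ)) =
        ∑ x ∈ U \ W, P1 c U W / ((U \ W).card : ℝ) * F W x := by
    intro W _
    rw [← Finset.mul_sum]
    ring
  rw [Finset.sum_congr rfl h1, sum_pairs, Finset.sum_div]
  refine Finset.sum_congr rfl fun x hx => ?_
  rw [Finset.sum_div]
  refine Finset.sum_congr rfl fun W hW => ?_
  rw [P1_erase c hx (Finset.mem_powerset.1 (Finset.mem_filter.1 hW).1)]
  ring

/-! ### Levels -/

lemma sum_levels (U : Finset α) (j : ℕ) (F : Finset α → α → ℝ) :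
    ∑ W ∈ U.powersetCard (j + 1), ∑ x ∈ W, F (W.erase x) x =
      ∑ V ∈ U.powersetCard j, ∑ x ∈ U \ V, F V x := by
  rw [Finset.sum_sigma', Finset.sum_sigma']
  refine Finset.sum_bij' (fun p _ => ⟨p.1.erase p.2, p.2⟩) (fun p _ => ⟨insert p.2 p.1, p.2⟩)
    ?_ ?_ ?_ ?_ ?_
  · rintro ⟨W, x⟩ h
    simp only [Finset.mem_sigma, Finset.mem_powersetCard, Finset.mem_sdiff] at h ⊢
    refine ⟨⟨(Finset.erase_subset _ _).trans h.1.1, ?_⟩, h.1.1 h.2, by simp⟩
    rw [Finset.card_erase_of_mem h.2, h.1.2]; rfl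
  · rintro ⟨V, x⟩ h
    simp only [Finset.mem_sigma, Finset.mem_powersetCard, Finset.mem_sdiff] at h ⊢
    refine ⟨⟨Finset.insert_subset h.2.1 h.1.1, ?_⟩, by simp⟩
    rw [Finset.card_insert_of_notMem h.2.2, h.1.2]
  · rintro ⟨W, x⟩ h
    simp only [Finset.mem_sigma] at h
    simp only [Finset.insert_erase h.2]
  · rintro ⟨V, x⟩ h
    simp only [Finset.mem_sigma, Finset.mem_sdiff] at h
    simp only [Finset.erase_insert h.2.2]
  · rintro ⟨W, x⟩ h
    rfl

lemma level_step (c : Finset α → Lab) (U : Finset α) (j : ℕ)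
    (Q : Finset α → ℝ) :
    ∑ W ∈ U.powersetCard (j + 1), P1 c U W * Q W =
      ∑ V ∈ U.powersetCard j, fw c V / (U.card.choose j : ℝ) *
        ((∑ x ∈ U \ V, Q (insert x V)) / ((U.card - j : ℕ) : ℝ)) := by
  have h1 : ∀ W ∈ U.powersetCard (j + 1), P1 c U W * Q W =
      ∑ x ∈ W, fw c (W.erase x) / ((U.card.choose j : ℝ) * ((U.card - j : ℕ) : ℝ)) *
        Q (insert x (W.erase x)) := by
    intro W hW
    have hc := (Finset.mem_powersetCard.1 hW).2
    have h2 : ((U.card.choose (j + 1) : ℕ) : ℝ) * ((j : ℝ) + 1) =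
        (U.card.choose j : ℝ) * ((U.card - j : ℕ) : ℝ) := by
      have := Nat.choose_succ_right_eq U.card j
      exact_mod_cast this
    have h3 : ∑ x ∈ W, fw c (W.erase x) / ((U.card.choose j : ℝ) * ((U.card - j : ℕ) : ℝ)) *
        Q (insert x (W.erase x)) =
        ∑ x ∈ W, fw c (W.erase x) / ((U.card.choose j : ℝ) * ((U.card - j : ℕ) : ℝ)) * Q W :=
      Finset.sum_congr rfl fun x hx => by rw [Finset.insert_erase hx]
    rw [h3, ← Finset.sum_mul, ← Finset.sum_div, ← h2]
    unfold P1 fwb
    rw [hc, div_div]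
    push_cast
    ring
  rw [Finset.sum_congr rfl h1,
    sum_levels U j (fun V x => fw c V / ((U.card.choose j : ℝ) * ((U.card - j : ℕ) : ℝ)) *
      Q (insert x V))]
  refine Finset.sum_congr rfl fun V _ => ?_
  rw [← Finset.mul_sum]
  rw [div_mul_eq_mul_div, div_mul_div_comm]

/-- Optional stopping for supermartingales: first set without label `A`. -/
lemma stopping_le (c : Finset α → Lab) (hc : c ∅ = Lab.A) (U : Finset α) (Q : Finset α → ℝ)
    (hQ0 : ∀ V ⊆ U, 0 ≤ Q V)
    (hQ : ∀ V ⊂ U, (∑ x ∈ U \ V, Q (insert x V)) / ((U.card - V.card : ℕ) : ℝ) ≤ Q V) :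
    ∑ W ∈ U.powerset with c W ≠ Lab.A, P1 c U W * Q W ≤ Q ∅ := by
  have key : ∀ j ≤ U.card,
      (∑ i ∈ Finset.range (j + 1), ∑ W ∈ U.powersetCard i,
        if c W ≠ Lab.A then P1 c U W * Q W else 0) +
        ∑ V ∈ U.powersetCard j, fw c V / (U.card.choose j : ℝ) * Q V ≤ Q ∅ := by
    intro j
    induction j with
    | zero =>
      intro _
      simp [hc, fw_empty]
    | succ j ih =>
      intro hj
      have ih' := ih (by omega)
      rw [Finset.sum_range_succ]
      have e1 : (∑ W ∈ U.powersetCard (j + 1), if c W ≠ Lab.A then P1 c U W * Q W else 0) +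
          ∑ V ∈ U.powersetCard (j + 1), fw c V / (U.card.choose (j + 1) : ℝ) * Q V =
          ∑ W ∈ U.powersetCard (j + 1), P1 c U W * Q W := by
        rw [← Finset.sum_add_distrib]
        refine Finset.sum_congr rfl fun W hW => ?_
        have hcard := (Finset.mem_powersetCard.1 hW).2
        have hne : W.Nonempty := by
          rw [← Finset.card_pos, hcard]; omega
        rw [fw_rec (nonempty_iff_ne_empty.1 hne)]
        unfold P1
        rw [hcard]
        by_cases h : c W = Lab.A
        · simp [h]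
        · simp [h]
      have e2 := level_step c U j Q
      have e3 : ∑ V ∈ U.powersetCard j, fw c V / (U.card.choose j : ℝ) *
          ((∑ x ∈ U \ V, Q (insert x V)) / ((U.card - j : ℕ) : ℝ)) ≤
          ∑ V ∈ U.powersetCard j, fw c V / (U.card.choose j : ℝ) * Q V := by
        refine Finset.sum_le_sum fun V hV => ?_
        obtain ⟨hVU, hVc⟩ := Finset.mem_powersetCard.1 hV
        refine mul_le_mul_of_nonneg_left ?_ (div_nonneg (fw_nonneg _ _) (by positivity))
        have hss : V ⊂ U := by
          refine ⟨hVU, fun h => ?_⟩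
          have := Finset.card_le_card h
          omega
        have := hQ V hss
        rwa [hVc] at this
      linarith
  have hfin := key U.card le_rfl
  have h0 : 0 ≤ ∑ V ∈ U.powersetCard U.card, fw c V / (U.card.choose U.card : ℝ) * Q V := by
    refine Finset.sum_nonneg fun V hV => ?_
    exact mul_nonneg (div_nonneg (fw_nonneg _ _) (by positivity))
      (hQ0 V (Finset.mem_powersetCard.1 hV).1)
  have h1 : ∑ W ∈ U.powerset with c W ≠ Lab.A, P1 c U W * Q W =
      ∑ i ∈ Finset.range (U.card + 1), ∑ W ∈ U.powersetCard i,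
        if c W ≠ Lab.A then P1 c U W * Q W else 0 := by
    rw [Finset.sum_filter, Finset.sum_powerset]
  rw [h1]
  linarith

/-- Optional stopping, exact form, for complete families. -/
lemma stopping_eq (c : Finset α → Lab) (hc : c ∅ = Lab.A) (U : Finset α) (hU : c U ≠ Lab.A)
    (Q : Finset α → ℝ)
    (hQ : ∀ V ⊂ U, c V = Lab.A →
      (∑ x ∈ U \ V, Q (insert x V)) / ((U.card - V.card : ℕ) : ℝ) = Q V) :
    ∑ W ∈ U.powerset with c W ≠ Lab.A, P1 c U W * Q W = Q ∅ := by
  have key : ∀ j ≤ U.card,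
      (∑ i ∈ Finset.range (j + 1), ∑ W ∈ U.powersetCard i,
        if c W ≠ Lab.A then P1 c U W * Q W else 0) +
        ∑ V ∈ U.powersetCard j, fw c V / (U.card.choose j : ℝ) * Q V = Q ∅ := by
    intro j
    induction j with
    | zero =>
      intro _
      simp [hc, fw_empty]
    | succ j ih =>
      intro hj
      have ih' := ih (by omega)
      rw [Finset.sum_range_succ]
      have e1 : (∑ W ∈ U.powersetCard (j + 1), if c W ≠ Lab.A then P1 c U W * Q W else 0) +
          ∑ V ∈ U.powersetCard (j + 1), fw c V / (U.card.choose (j + 1) : ℝ) * Q V =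
          ∑ W ∈ U.powersetCard (j + 1), P1 c U W * Q W := by
        rw [← Finset.sum_add_distrib]
        refine Finset.sum_congr rfl fun W hW => ?_
        have hcard := (Finset.mem_powersetCard.1 hW).2
        have hne : W.Nonempty := by
          rw [← Finset.card_pos, hcard]; omega
        rw [fw_rec (nonempty_iff_ne_empty.1 hne)]
        unfold P1
        rw [hcard]
        by_cases h : c W = Lab.A
        · simp [h]
        · simp [h]
      have e2 := level_step c U j Q
      have e3 : ∑ V ∈ U.powersetCard j, fw c V / (U.card.choose j : ℝ) *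
          ((∑ x ∈ U \ V, Q (insert x V)) / ((U.card - j : ℕ) : ℝ)) =
          ∑ V ∈ U.powersetCard j, fw c V / (U.card.choose j : ℝ) * Q V := by
        refine Finset.sum_congr rfl fun V hV => ?_
        obtain ⟨hVU, hVc⟩ := Finset.mem_powersetCard.1 hV
        have hss : V ⊂ U := by
          refine ⟨hVU, fun h => ?_⟩
          have := Finset.card_le_card h
          omega
        by_cases hA : c V = Lab.A
        · have := hQ V hss hA
          rw [hVc] at this
          rw [this]
        · have hz : fw c V = 0 := by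
            by_cases hne : V.Nonempty
            · rw [fw_rec (nonempty_iff_ne_empty.1 hne), if_neg hA]
            · rw [Finset.not_nonempty_iff_eq_empty] at hne
              subst hne
              exact absurd hc hA
          rw [hz]; simp
      linarith
  have hfin := key U.card le_rfl
  have h0 : ∑ V ∈ U.powersetCard U.card, fw c V / (U.card.choose U.card : ℝ) * Q V = 0 := by
    rw [Finset.powersetCard_self, Finset.sum_singleton]
    have hz : fw c U = 0 := by
      by_cases hne : U.Nonempty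
      · rw [fw_rec (nonempty_iff_ne_empty.1 hne), if_neg hU]
      · rw [Finset.not_nonempty_iff_eq_empty] at hne
        subst hne
        exact absurd hc hU
    rw [hz]; simp
  have h1 : ∑ W ∈ U.powerset with c W ≠ Lab.A, P1 c U W * Q W =
      ∑ i ∈ Finset.range (U.card + 1), ∑ W ∈ U.powersetCard i,
        if c W ≠ Lab.A then P1 c U W * Q W else 0 := by
    rw [Finset.sum_filter, Finset.sum_powerset]
  rw [h1]
  linarith

/-! ### The vector inequality -/

lemma vec_ineq (s : Finset α) (c h : α → ℝ) {L : ℝ} (hL0 : 0 < L) (hL1 : L ≤ 1)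
    (hs : 0 < s.card) :
    2 * ∑ x ∈ s, c x * h x ≤ (∑ x ∈ s, h x ^ 2) / L - (∑ x ∈ s, h x) ^ 2 / (L * s.card + 1) +
      ((∑ x ∈ s, c x ^ 2) + (∑ x ∈ s, c x) ^ 2) := by
  have hn : (0 : ℝ) < s.card := by exact_mod_cast hs
  set n : ℝ := (s.card : ℝ) with hnd
  set C1 := ∑ x ∈ s, c x with hC1
  set C2 := ∑ x ∈ s, c x ^ 2 with hC2
  set H := ∑ x ∈ s, h x with hH
  set H2 := ∑ x ∈ s, h x ^ 2 with hH2
  set CH := ∑ x ∈ s, c x * h x with hCH
  have hv : ∑ x ∈ s, (h x - L * c x) = H - L * C1 := by
    rw [Finset.sum_sub_distrib, ← Finset.mul_sum]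
  have hv2 : ∑ x ∈ s, (h x - L * c x) ^ 2 = H2 - 2 * L * CH + L ^ 2 * C2 := by
    rw [hH2, hCH, hC2, Finset.mul_sum, Finset.mul_sum, ← Finset.sum_sub_distrib,
      ← Finset.sum_add_distrib]
    refine Finset.sum_congr rfl fun x _ => ?_
    ring
  have hcs : (H - L * C1) ^ 2 ≤ n * (H2 - 2 * L * CH + L ^ 2 * C2) := by
    rw [← hv, ← hv2]
    exact sq_sum_le_card_mul_sum_sq
  have hC2' : 0 ≤ C2 := Finset.sum_nonneg fun x _ => sq_nonneg _
  have h1 : (H - L * C1) ^ 2 / (L * n) ≤ H2 / L - 2 * CH + L * C2 := by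
    rw [div_le_iff₀ (by positivity)]
    have : (H2 / L - 2 * CH + L * C2) * (L * n) = n * (H2 - 2 * L * CH + L ^ 2 * C2) := by
      field_simp
    rw [this]; exact hcs
  have h2 : H ^ 2 / (L * n + 1) ≤ (H - L * C1) ^ 2 / (L * n) + (L * C1) ^ 2 := by
    rw [div_le_iff₀ (by positivity)]
    have hp : 0 < L * n := by positivity
    set u := H - L * C1 with hu
    have hHu : H = u + L * C1 := by rw [hu]; ring
    rw [hHu]
    have e : (u ^ 2 / (L * n) + (L * C1) ^ 2) * (L * n + 1) =
        u ^ 2 + u ^ 2 / (L * n) + (L * C1) ^ 2 * (L * n) + (L * C1) ^ 2 := by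
      field_simp
      ring
    rw [e]
    have e2 : 2 * (u * (L * C1)) ≤ u ^ 2 / (L * n) + (L * C1) ^ 2 * (L * n) := by
      have e3 : 0 ≤ (u / Real.sqrt (L * n) - (L * C1) * Real.sqrt (L * n)) ^ 2 := sq_nonneg _
      have e4 : (u / Real.sqrt (L * n) - (L * C1) * Real.sqrt (L * n)) ^ 2 =
          u ^ 2 / (L * n) - 2 * (u * (L * C1)) + (L * C1) ^ 2 * (L * n) := by
        have hsq : Real.sqrt (L * n) ^ 2 = L * n := Real.sq_sqrt hp.le
        have hne : Real.sqrt (L * n) ≠ 0 := (Real.sqrt_pos.2 hp).ne'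
        have : (u / Real.sqrt (L * n) - (L * C1) * Real.sqrt (L * n)) ^ 2 =
          u ^ 2 / (Real.sqrt (L * n) ^ 2) - 2 * (u * (L * C1)) +
            (L * C1) ^ 2 * (Real.sqrt (L * n) ^ 2) := by
          field_simp
          ring
        rw [this, hsq]
      linarith
    nlinarith [e2]
  have h3 : L * C2 ≤ C2 := by nlinarith
  have h4 : (L * C1) ^ 2 ≤ C1 ^ 2 := by
    rw [mul_pow]
    have : L ^ 2 ≤ 1 := by nlinarith
    nlinarith [sq_nonneg C1]
  linarith

/-- The function `C2 + C1 ^ 2` of the remaining elements. -/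
def Qf (c : α → ℝ) (s : Finset α) : ℝ := (∑ x ∈ s, c x ^ 2) + (∑ x ∈ s, c x) ^ 2

lemma Qf_nonneg (c : α → ℝ) (s : Finset α) : 0 ≤ Qf c s :=
  add_nonneg (Finset.sum_nonneg fun _ _ => sq_nonneg _) (sq_nonneg _)

lemma Qf_super (c : α → ℝ) (s : Finset α) :
    ∑ x ∈ s, Qf c (s.erase x) ≤ (s.card : ℝ) * Qf c s := by
  have h1 : ∀ x ∈ s, Qf c (s.erase x) =
      (∑ x ∈ s, c x ^ 2) - c x ^ 2 + ((∑ x ∈ s, c x) - c x) ^ 2 := by
    intro x hx
    unfold Qf
    rw [← Finset.add_sum_erase s (fun x => c x ^ 2) hx, ← Finset.add_sum_erase s c hx]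
    ring
  rw [Finset.sum_congr rfl h1]
  have h2 : ∑ x ∈ s, ((∑ x ∈ s, c x ^ 2) - c x ^ 2 + ((∑ x ∈ s, c x) - c x) ^ 2) =
      (s.card : ℝ) * (∑ x ∈ s, c x ^ 2) + (s.card : ℝ) * (∑ x ∈ s, c x) ^ 2 -
        2 * (∑ x ∈ s, c x) ^ 2 := by
    have h3 : ∀ x ∈ s, ((∑ x ∈ s, c x ^ 2) - c x ^ 2 + ((∑ x ∈ s, c x) - c x) ^ 2) =
        ((∑ x ∈ s, c x ^ 2) + (∑ x ∈ s, c x) ^ 2) - (2 * (∑ x ∈ s, c x)) * c x := by
      intro x _; ring
    rw [Finset.sum_congr rfl h3, Finset.sum_sub_distrib, Finset.sum_const, ← Finset.mul_sum]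
    simp only [nsmul_eq_mul]
    ring
  rw [h2]
  unfold Qf
  nlinarith [sq_nonneg (∑ x ∈ s, c x)]

/-! ### The statistics -/

/-- Number of slots before an object at `W`. -/
noncomputable def aF (c : Finset α → Lab) (p : Finset α → ℝ) (W : Finset α) : ℝ :=
  (W.card : ℝ) + if c W = Lab.X then p W else 0

/-- Fuel version of `bet`. -/
noncomputable def betn (c : Finset α → Lab) (p : Finset α → ℝ) :
    ℕ → Finset α → Finset α → ℝ
  | 0, U, _ => if c U = Lab.A then 0 else if c U = Lab.X then 1 - p U else 1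
  | n + 1, U, W => if c U = Lab.A then 0 else if c U = Lab.X then 1 - p U else
      1 + (∑ x ∈ U \ W, betn c p n (U.erase x) W) / ((n : ℝ) + 1)

/-- Expected number of slots after the last object, top set `U`, first object at `W`. -/
noncomputable def bet (c : Finset α → Lab) (p : Finset α → ℝ) (U W : Finset α) : ℝ :=
  betn c p (U \ W).card U W

lemma bet_A {c : Finset α → Lab} (p : Finset α → ℝ) {U : Finset α} (W : Finset α)
    (h : c U = Lab.A) : bet c p U W = 0 := by
  unfold bet
  cases (U \ W).card <;> simp [betn, h]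

lemma bet_X {c : Finset α → Lab} (p : Finset α → ℝ) {U : Finset α} (W : Finset α)
    (h : c U = Lab.X) : bet c p U W = 1 - p U := by
  unfold bet
  cases (U \ W).card <;> simp [betn, h]

lemma bet_B {c : Finset α → Lab} (p : Finset α → ℝ) {U : Finset α} (W : Finset α)
    (h : c U = Lab.B) :
    bet c p U W = 1 + (∑ x ∈ U \ W, bet c p (U.erase x) W) / ((U \ W).card : ℝ) := by
  rcases Nat.eq_zero_or_pos (U \ W).card with h0 | h0
  · have : U \ W = ∅ := Finset.card_eq_zero.1 h0
    unfold bet
    rw [h0, this]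
    simp [betn, h]
  · obtain ⟨n, hn⟩ : ∃ n, (U \ W).card = n + 1 := ⟨(U \ W).card - 1, by omega⟩
    have h1 : bet c p U W = betn c p (n + 1) U W := by unfold bet; rw [hn]
    rw [h1]
    simp only [betn, h]
    rw [hn]
    simp only [reduceCtorEq, if_false]
    congr 2
    · refine Finset.sum_congr rfl fun x hx => ?_
      unfold bet
      have hx' := Finset.mem_sdiff.1 hx
      have : (U.erase x \ W).card = n := by
        have e : U.erase x \ W = (U \ W).erase x := by
          ext y; simp only [Finset.mem_sdiff, Finset.mem_erase]; tauto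
        rw [e, Finset.card_erase_of_mem hx, hn]; rfl
      rw [this]
    · push_cast; ring

/-- Slots after the object at `W`, top `U`. -/
noncomputable def bF (c : Finset α → Lab) (p : Finset α → ℝ) (U W : Finset α) : ℝ :=
  (U.card : ℝ) + 1 - aF c p W

/-- Expected number of slots between first and last object. -/
noncomputable def dF (c : Finset α → Lab) (p : Finset α → ℝ) (U W : Finset α) : ℝ :=
  bF c p U W - bet c p U W

lemma dF_self {c : Finset α → Lab} (p : Finset α → ℝ) {U : Finset α} (h : c U ≠ Lab.A) :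
    dF c p U U = 0 := by
  unfold dF bF aF
  cases hc : c U with
  | A => exact absurd hc h
  | X => rw [bet_X p U hc]; simp
  | B => rw [bet_B p U hc]; simp

lemma bF_erase (c : Finset α → Lab) (p : Finset α → ℝ) {U : Finset α} (W : Finset α) {x : α}
    (hx : x ∈ U) : bF c p (U.erase x) W = bF c p U W - 1 := by
  unfold bF
  rw [Finset.card_erase_of_mem hx, Nat.cast_sub (Finset.card_pos.2 ⟨x, hx⟩)]
  push_cast; ring

lemma dF_B {c : Finset α → Lab} (p : Finset α → ℝ) {U W : Finset α} (hW : W ⊆ U)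
    (h : c U = Lab.B) :
    dF c p U W = (∑ x ∈ U \ W, dF c p (U.erase x) W) / ((U \ W).card : ℝ) := by
  rcases Nat.eq_zero_or_pos (U \ W).card with h0 | h0
  · have h1 : U \ W = ∅ := Finset.card_eq_zero.1 h0
    have h2 : W = U := Finset.Subset.antisymm hW (Finset.sdiff_eq_empty_iff_subset.1 h1)
    rw [h1]
    subst h2
    rw [dF_self p (by rw [h]; decide)]
    simp
  · have hn : (0 : ℝ) < ((U \ W).card : ℝ) := by exact_mod_cast h0
    have h1 : ∀ x ∈ U \ W, dF c p (U.erase x) W = (bF c p U W - 1) - bet c p (U.erase x) W := by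
      intro x hx
      unfold dF
      rw [bF_erase c p W (Finset.mem_sdiff.1 hx).1]
    rw [Finset.sum_congr rfl h1, Finset.sum_sub_distrib, Finset.sum_const]
    unfold dF
    rw [bet_B p W h]
    simp only [nsmul_eq_mul]
    field_simp
    ring

/-- `Y U` is the mean number of slots between the first and the last object. -/
noncomputable def YF (c : Finset α → Lab) (p : Finset α → ℝ) (U : Finset α) : ℝ :=
  ∑ W ∈ U.powerset with c W ≠ Lab.A, P1 c U W * dF c p U W

noncomputable def RF (c : Finset α → Lab) (p : Finset α → ℝ) (U : Finset α) : ℝ :=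
  ∑ W ∈ U.powerset with c W ≠ Lab.A, P1 c U W * (dF c p U W ^ 2 / bF c p U W)

lemma YF_B {c : Finset α → Lab} (p : Finset α → ℝ) {U : Finset α} (h : c U = Lab.B) :
    YF c p U = (∑ x ∈ U, YF c p (U.erase x)) / (U.card : ℝ) := by
  unfold YF
  rw [← P1_avg c U (fun W x => dF c p (U.erase x) W)]
  refine Finset.sum_congr rfl fun W hW => ?_
  rw [dF_B p (Finset.mem_powerset.1 (Finset.mem_filter.1 hW).1) h]

/-- Fuel version of `Lst`. -/
noncomputable def Lstn (c : Finset α → Lab) (f : Finset α → ℝ) : ℕ → Finset α → ℝ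
  | 0, U => if c U = Lab.B then 0 else f U
  | n + 1, U => if c U = Lab.B then (∑ x ∈ U, Lstn c f n (U.erase x)) / ((n : ℝ) + 1) else f U

/-- Mean value of `f` at the last set without label `B` of a uniform chain `∅ → U`. -/
noncomputable def Lst (c : Finset α → Lab) (f : Finset α → ℝ) (U : Finset α) : ℝ :=
  Lstn c f U.card U

lemma Lst_ne {c : Finset α → Lab} (f : Finset α → ℝ) {U : Finset α} (h : c U ≠ Lab.B) :
    Lst c f U = f U := by
  unfold Lst
  cases U.card <;> simp [Lstn, h]

lemma Lst_B {c : Finset α → Lab} (f : Finset α → ℝ) {U : Finset α} (h : c U = Lab.B) :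
    Lst c f U = (∑ x ∈ U, Lst c f (U.erase x)) / (U.card : ℝ) := by
  rcases Nat.eq_zero_or_pos U.card with h0 | h0
  · have : U = ∅ := Finset.card_eq_zero.1 h0
    subst this
    simp [Lst, Lstn, h]
  · obtain ⟨n, hn⟩ : ∃ n, U.card = n + 1 := ⟨U.card - 1, by omega⟩
    have h1 : Lst c f U = Lstn c f (n + 1) U := by unfold Lst; rw [hn]
    rw [h1]
    simp only [Lstn, h, if_true]
    rw [hn]
    congr 1
    · refine Finset.sum_congr rfl fun x hx => ?_
      unfold Lst
      rw [Finset.card_erase_of_mem hx, hn]; rfl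
    · push_cast; ring

/-- Slots before an object with lower end `V`. -/
noncomputable def aL (c : Finset α → Lab) (p : Finset α → ℝ) (V : Finset α) : ℝ :=
  (V.card : ℝ) + if c V = Lab.X then p V else 1

lemma P1_sum_le_one (c : Finset α → Lab) (hc : c ∅ = Lab.A) (U : Finset α) :
    ∑ W ∈ U.powerset with c W ≠ Lab.A, P1 c U W ≤ 1 := by
  have h := stopping_le c hc U (fun _ => 1) (fun _ _ => zero_le_one) (by
    intro V hV
    simp only [Finset.sum_const, nsmul_eq_mul, mul_one]
    rw [Finset.card_sdiff_of_subset hV.1]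
    exact div_self_le_one _)
  simpa using h

/-- The step inequality. -/
lemma step_ineq {c : Finset α → Lab} {p : Finset α → ℝ} (hc : c ∅ = Lab.A)
    (hp0 : ∀ V, 0 ≤ p V) (hp1 : ∀ V, p V ≤ 1) {U : Finset α} (h : c U = Lab.B) :
    RF c p U - YF c p U ^ 2 / ((U.card : ℝ) + 1) ≤
      (∑ x ∈ U, (RF c p (U.erase x) - YF c p (U.erase x) ^ 2 / (U.card : ℝ))) /
        (U.card : ℝ) := by
  have hUne : U.Nonempty := by
    by_contra hne
    rw [Finset.not_nonempty_iff_eq_empty] at hne
    subst hne
    rw [hc] at h; exact absurd h (by decide)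
  have hm : (0 : ℝ) < (U.card : ℝ) := by exact_mod_cast hUne.card_pos
  set m : ℝ := (U.card : ℝ) with hmd
  set y : α → ℝ := fun x => YF c p (U.erase x) / m with hy
  set sg := ∑ x ∈ U, y x with hsg
  set cc : α → ℝ := fun x => y x - sg / (m + 1) with hcc
  have hsigma : YF c p U = sg := by
    rw [YF_B p h, hsg, hy, Finset.sum_div]
  -- pointwise inequality
  have hpt : ∀ W ∈ U.powerset.filter (fun W => c W ≠ Lab.A),
      2 * ((∑ x ∈ U \ W, cc x * dF c p (U.erase x) W) / ((U \ W).card : ℝ)) ≤
        (∑ x ∈ U \ W, dF c p (U.erase x) W ^ 2 / bF c p (U.erase x) W) / ((U \ W).card : ℝ) -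
          dF c p U W ^ 2 / bF c p U W + Qf cc (U \ W) := by
    intro W hW
    have hWU := Finset.mem_powerset.1 (Finset.mem_filter.1 hW).1
    have hWA := (Finset.mem_filter.1 hW).2
    rcases Nat.eq_zero_or_pos (U \ W).card with h0 | h0
    · have h1 : U \ W = ∅ := Finset.card_eq_zero.1 h0
      have h2 : W = U := Finset.Subset.antisymm hWU (Finset.sdiff_eq_empty_iff_subset.1 h1)
      rw [dF_B p hWU h, h1]
      simp [Qf]
    · have hn : (0 : ℝ) < ((U \ W).card : ℝ) := by exact_mod_cast h0
      set n : ℝ := ((U \ W).card : ℝ) with hnd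
      set pw : ℝ := if c W = Lab.X then p W else 0 with hpw
      have hpw0 : 0 ≤ pw := by rw [hpw]; split_ifs; exacts [hp0 W, le_rfl]
      have hpw1 : pw ≤ 1 := by rw [hpw]; split_ifs; exacts [hp1 W, zero_le_one]
      have hb : bF c p U W = n - pw + 1 := by
        unfold bF aF
        rw [hnd, Finset.card_sdiff_of_subset hWU, Nat.cast_sub (Finset.card_le_card hWU)]
        ring
      have hbe : ∀ x ∈ U \ W, bF c p (U.erase x) W = n - pw := by
        intro x hx
        rw [bF_erase c p W (Finset.mem_sdiff.1 hx).1, hb]; ring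
      have hdU := dF_B p hWU h
      by_cases hnp : n - pw = 0
      · -- n = 1, p = 1
        have hn1 : n = 1 := by
          have h1 : n ≤ 1 := by linarith
          have h2 : (1 : ℝ) ≤ n := by rw [hnd]; exact_mod_cast h0
          linarith
        have hc1 : (U \ W).card = 1 := by
          have : ((U \ W).card : ℝ) = 1 := by rw [← hnd]; exact hn1
          exact_mod_cast this
        obtain ⟨x, hx⟩ := Finset.card_eq_one.1 hc1
        have hxU : x ∈ U \ W := by rw [hx]; simp
        have hWe : U.erase x = W := by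
          ext z
          simp only [Finset.mem_erase]
          constructor
          · rintro ⟨hz1, hz2⟩
            by_contra hzW
            have : z ∈ U \ W := Finset.mem_sdiff.2 ⟨hz2, hzW⟩
            rw [hx] at this
            exact hz1 (Finset.mem_singleton.1 this)
          · intro hz
            refine ⟨?_, hWU hz⟩
            rintro rfl
            exact (Finset.mem_sdiff.1 hxU).2 hz
        have hd0 : dF c p (U.erase x) W = 0 := by
          rw [hWe]; exact dF_self p hWA
        rw [hdU, hx]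
        simp only [Finset.sum_singleton, hd0]
        simp only [mul_zero, zero_div, ne_eq, OfNat.ofNat_ne_zero, not_false_eq_true, zero_pow,
          sub_zero, zero_add]
        exact Qf_nonneg _ _
      · have hpos : 0 < n - pw := by
          have h2 : (1 : ℝ) ≤ n := by rw [hnd]; exact_mod_cast h0
          exact lt_of_le_of_ne (by linarith) (Ne.symm hnp)
        have hv := vec_ineq (U \ W) cc (fun x => dF c p (U.erase x) W / n)
          (L := (n - pw) / n) (by positivity) (by rw [div_le_one hn]; linarith) h0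
        rw [← hnd] at hv
        have e1 : ∑ x ∈ U \ W, cc x * (dF c p (U.erase x) W / n) =
            (∑ x ∈ U \ W, cc x * dF c p (U.erase x) W) / n := by
          rw [Finset.sum_div]
          refine Finset.sum_congr rfl fun x _ => ?_
          ring
        have e2 : (∑ x ∈ U \ W, (dF c p (U.erase x) W / n) ^ 2) / ((n - pw) / n) =
            (∑ x ∈ U \ W, dF c p (U.erase x) W ^ 2 / bF c p (U.erase x) W) / n := by
          rw [Finset.sum_div, Finset.sum_div]
          refine Finset.sum_congr rfl fun x hx => ?_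
          rw [hbe x hx]
          field_simp
        have e3 : ∑ x ∈ U \ W, dF c p (U.erase x) W / n = dF c p U W := by
          rw [hdU, Finset.sum_div]
        have e4 : (n - pw) / n * n + 1 = bF c p U W := by
          rw [hb]; field_simp
        rw [e1, e2, e3, e4] at hv
        unfold Qf
        linarith
  -- sum with weights P1
  have hsum : ∑ W ∈ U.powerset with c W ≠ Lab.A, P1 c U W *
      (2 * ((∑ x ∈ U \ W, cc x * dF c p (U.erase x) W) / ((U \ W).card : ℝ))) ≤
      ∑ W ∈ U.powerset with c W ≠ Lab.A, P1 c U W *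
        ((∑ x ∈ U \ W, dF c p (U.erase x) W ^ 2 / bF c p (U.erase x) W) /
          ((U \ W).card : ℝ) - dF c p U W ^ 2 / bF c p U W + Qf cc (U \ W)) :=
    Finset.sum_le_sum fun W hW => mul_le_mul_of_nonneg_left (hpt W hW) (P1_nonneg _ _ _)
  have hl : ∑ W ∈ U.powerset with c W ≠ Lab.A, P1 c U W *
      (2 * ((∑ x ∈ U \ W, cc x * dF c p (U.erase x) W) / ((U \ W).card : ℝ))) =
      2 * ∑ x ∈ U, cc x * y x := by
    have h1 : ∀ W ∈ U.powerset.filter (fun W => c W ≠ Lab.A), P1 c U W *
      (2 * ((∑ x ∈ U \ W, cc x * dF c p (U.erase x) W) / ((U \ W).card : ℝ))) =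
      2 * (P1 c U W * ((∑ x ∈ U \ W, cc x * dF c p (U.erase x) W) /
        ((U \ W).card : ℝ))) := fun W _ => by ring
    rw [Finset.sum_congr rfl h1, ← Finset.mul_sum,
      P1_avg c U (fun W x => cc x * dF c p (U.erase x) W), Finset.sum_div]
    congr 1
    refine Finset.sum_congr rfl fun x _ => ?_
    rw [hy]
    simp only
    unfold YF
    rw [← mul_div_assoc, Finset.mul_sum]
    congr 1
    refine Finset.sum_congr rfl fun W _ => ?_
    ring
  have hr : ∑ W ∈ U.powerset with c W ≠ Lab.A, P1 c U W *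
        ((∑ x ∈ U \ W, dF c p (U.erase x) W ^ 2 / bF c p (U.erase x) W) /
          ((U \ W).card : ℝ) - dF c p U W ^ 2 / bF c p U W + Qf cc (U \ W)) =
      (∑ x ∈ U, RF c p (U.erase x)) / m - RF c p U +
        ∑ W ∈ U.powerset with c W ≠ Lab.A, P1 c U W * Qf cc (U \ W) := by
    have h1 : ∀ W ∈ U.powerset.filter (fun W => c W ≠ Lab.A), P1 c U W *
        ((∑ x ∈ U \ W, dF c p (U.erase x) W ^ 2 / bF c p (U.erase x) W) /
          ((U \ W).card : ℝ) - dF c p U W ^ 2 / bF c p U W + Qf cc (U \ W)) =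
        P1 c U W * ((∑ x ∈ U \ W, dF c p (U.erase x) W ^ 2 / bF c p (U.erase x) W) /
          ((U \ W).card : ℝ)) - P1 c U W * (dF c p U W ^ 2 / bF c p U W) +
          P1 c U W * Qf cc (U \ W) := fun W _ => by ring
    rw [Finset.sum_congr rfl h1, Finset.sum_add_distrib, Finset.sum_sub_distrib,
      P1_avg c U (fun W x => dF c p (U.erase x) W ^ 2 / bF c p (U.erase x) W)]
    rfl
  have hQ : ∑ W ∈ U.powerset with c W ≠ Lab.A, P1 c U W * Qf cc (U \ W) ≤ Qf cc U := by
    have := stopping_le c hc U (fun W => Qf cc (U \ W)) (fun _ _ => Qf_nonneg _ _) (by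
      intro V hV
      have h1 : ∀ x ∈ U \ V, Qf cc (U \ insert x V) = Qf cc ((U \ V).erase x) := by
        intro x _
        congr 1
        ext z
        simp only [Finset.mem_sdiff, Finset.mem_insert, Finset.mem_erase]
        tauto
      have hcard : ((U.card - V.card : ℕ) : ℝ) = ((U \ V).card : ℝ) := by
        rw [Finset.card_sdiff_of_subset hV.1]
      have hpos : (0 : ℝ) < ((U \ V).card : ℝ) := by
        have : (U \ V).Nonempty := by
          rw [Finset.sdiff_nonempty]; exact hV.2
        exact_mod_cast this.card_pos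
      rw [Finset.sum_congr rfl h1, hcard, div_le_iff₀ hpos, mul_comm]
      exact Qf_super cc (U \ V))
    simpa using this
  rw [hl, hr] at hsum
  -- algebra
  have hsq : ∑ x ∈ U, y x ^ 2 = (∑ x ∈ U, YF c p (U.erase x) ^ 2 / m) / m := by
    rw [Finset.sum_div]
    refine Finset.sum_congr rfl fun x _ => ?_
    rw [hy]
    simp only
    rw [div_pow, div_div, sq m]
  have hcy : ∑ x ∈ U, cc x * y x = (∑ x ∈ U, y x ^ 2) - sg ^ 2 / (m + 1) := by
    have : ∀ x ∈ U, cc x * y x = y x ^ 2 - sg / (m + 1) * y x := by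
      intro x _; rw [hcc]; ring
    rw [Finset.sum_congr rfl this, Finset.sum_sub_distrib, ← Finset.mul_sum, ← hsg]
    ring
  have hc1 : ∑ x ∈ U, cc x = sg / (m + 1) := by
    rw [hcc]
    rw [Finset.sum_sub_distrib, Finset.sum_const, ← hsg, nsmul_eq_mul, ← hmd]
    field_simp
    ring
  have hc2 : ∑ x ∈ U, cc x ^ 2 =
      (∑ x ∈ U, y x ^ 2) - 2 * sg ^ 2 / (m + 1) + m * sg ^ 2 / (m + 1) ^ 2 := by
    have : ∀ x ∈ U, cc x ^ 2 = y x ^ 2 - 2 * (sg / (m + 1)) * y x + (sg / (m + 1)) ^ 2 := by
      intro x _; rw [hcc]; ring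
    rw [Finset.sum_congr rfl this, Finset.sum_add_distrib, Finset.sum_sub_distrib,
      ← Finset.mul_sum, ← hsg, Finset.sum_const, nsmul_eq_mul, ← hmd]
    field_simp
  have hQU : Qf cc U = (∑ x ∈ U, y x ^ 2) - sg ^ 2 / (m + 1) := by
    unfold Qf
    rw [hc1, hc2]
    field_simp
    ring
  have hgoal : (∑ x ∈ U, (RF c p (U.erase x) - YF c p (U.erase x) ^ 2 / m)) / m =
      (∑ x ∈ U, RF c p (U.erase x)) / m - ∑ x ∈ U, y x ^ 2 := by
    rw [Finset.sum_sub_distrib, sub_div, hsq]
  rw [hgoal, hsigma]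
  rw [hcy] at hsum
  rw [hQU] at hQ
  linarith

/-! ### The induction -/

lemma aL_pos (c : Finset α → Lab) (p : Finset α → ℝ) (hp0 : ∀ V, 0 ≤ p V) (hc : c ∅ = Lab.A)
    (V : Finset α) : 0 < aL c p V := by
  unfold aL
  split_ifs with h
  · have : V.Nonempty := by
      by_contra hne
      rw [Finset.not_nonempty_iff_eq_empty] at hne
      subst hne
      rw [hc] at h; exact absurd h (by decide)
    have h1 : (0 : ℝ) < (V.card : ℝ) := by exact_mod_cast this.card_pos
    have := hp0 V
    linarith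
  · positivity

end R5.QP

end

section

/-!
# (Q^pi), second part: first-step decompositions and closed forms
-/

namespace R5.QP

open Finset

variable {α : Type} [DecidableEq α]

/-! ### First-step decompositions -/

theorem sum_offdiag (U : Finset α) (F : α → α → ℝ) :
    ∑ y ∈ U, ∑ x ∈ U.erase y, F y x = ∑ x ∈ U, ∑ y ∈ U.erase x, F y x := by
  refine Finset.sum_comm' ?_
  intro y x
  simp only [Finset.mem_erase]
  constructor
  · rintro ⟨h1, h2, h3⟩
    exact ⟨⟨fun h => h2 h.symm, h1⟩, h3⟩
  · rintro ⟨⟨h1, h2⟩, h3⟩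
    exact ⟨h2, fun h => h1 h.symm, h3⟩

/-- The labelling above `{x}`. -/
def up (σ : Finset α → Lab) (x : α) : Finset α → Lab := fun Z => σ (insert x Z)

theorem up_erase {σ : Finset α → Lab} {x : α} {U : Finset α} (hx : x ∈ U) :
    up σ x (U.erase x) = σ U := by
  unfold up; rw [Finset.insert_erase hx]

theorem fw_first {σ : Finset α → Lab} (h0 : σ ∅ = Lab.A) {U : Finset α} (hU : U ≠ ∅) :
    fw σ U = (∑ x ∈ U, fw (up σ x) (U.erase x)) / (U.card : ℝ) := by
  induction U using Finset.strongInduction with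
  | H U ih =>
  have hne : U.Nonempty := Finset.nonempty_iff_ne_empty.2 hU
  have hm : (0 : ℝ) < (U.card : ℝ) := by exact_mod_cast hne.card_pos
  rw [fw_rec hU]
  by_cases h1 : U.card = 1
  · obtain ⟨x, rfl⟩ := Finset.card_eq_one.1 h1
    have e1 : ({x} : Finset α).erase x = ∅ := by simp
    unfold fwb
    simp only [Finset.sum_singleton, e1, fw_empty, h0, if_true, Finset.card_singleton,
      Nat.cast_one, div_one]
    have : up σ x ∅ = σ {x} := by simp [up]
    rw [this]
  · have h2 : 2 ≤ U.card := by have := hne.card_pos; omega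
    have hne2 : ∀ y ∈ U, U.erase y ≠ ∅ := by
      intro y hy h
      have := Finset.card_erase_of_mem hy
      rw [h, Finset.card_empty] at this
      omega
    by_cases hA : σ U = Lab.A
    · rw [if_pos hA]
      unfold fwb
      have e1 : ∀ y ∈ U, fw σ (U.erase y) =
          ∑ x ∈ U.erase y, fw (up σ x) ((U.erase y).erase x) / ((U.card : ℝ) - 1) := by
        intro y hy
        rw [ih _ (Finset.erase_ssubset hy) (hne2 y hy), Finset.sum_div]
        refine Finset.sum_congr rfl fun x _ => ?_
        rw [Finset.card_erase_of_mem hy, Nat.cast_sub hne.card_pos]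
        simp
      have e2 : ∀ x ∈ U, fw (up σ x) (U.erase x) =
          ∑ y ∈ U.erase x, fw (up σ x) ((U.erase y).erase x) / ((U.card : ℝ) - 1) := by
        intro x hx
        rw [fw_rec (hne2 x hx), up_erase hx, if_pos hA]
        unfold fwb
        rw [Finset.sum_div]
        refine Finset.sum_congr rfl fun y _ => ?_
        rw [Finset.card_erase_of_mem hx, Nat.cast_sub hne.card_pos, Finset.erase_right_comm]
        simp
      rw [Finset.sum_congr rfl e1, Finset.sum_congr rfl e2,
        sum_offdiag U (fun y x => fw (up σ x) ((U.erase y).erase x) / ((U.card : ℝ) - 1))]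
    · rw [if_neg hA]
      have e2 : ∀ x ∈ U, fw (up σ x) (U.erase x) = 0 := by
        intro x hx
        apply fw_of_ne
        rw [up_erase hx]; exact hA
      rw [Finset.sum_congr rfl e2]
      simp

theorem fwb_first {σ : Finset α → Lab} (h0 : σ ∅ = Lab.A) {U : Finset α} (h2 : 2 ≤ U.card) :
    fwb σ U = (∑ x ∈ U, fwb (up σ x) (U.erase x)) / (U.card : ℝ) := by
  have hne : U.Nonempty := by rw [← Finset.card_pos]; omega
  have hne2 : ∀ y ∈ U, U.erase y ≠ ∅ := by
    intro y hy h
    have := Finset.card_erase_of_mem hy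
    rw [h, Finset.card_empty] at this
    omega
  have e1 : ∀ y ∈ U, fw σ (U.erase y) =
      ∑ x ∈ U.erase y, fw (up σ x) ((U.erase y).erase x) / ((U.card : ℝ) - 1) := by
    intro y hy
    rw [fw_first h0 (hne2 y hy), Finset.sum_div]
    refine Finset.sum_congr rfl fun x _ => ?_
    rw [Finset.card_erase_of_mem hy, Nat.cast_sub hne.card_pos]
    simp
  have e2 : ∀ x ∈ U, fwb (up σ x) (U.erase x) =
      ∑ y ∈ U.erase x, fw (up σ x) ((U.erase y).erase x) / ((U.card : ℝ) - 1) := by
    intro x hx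
    unfold fwb
    rw [Finset.sum_div]
    refine Finset.sum_congr rfl fun y _ => ?_
    rw [Finset.card_erase_of_mem hx, Nat.cast_sub hne.card_pos, Finset.erase_right_comm]
    simp
  have e3 : fwb σ U = (∑ y ∈ U, fw σ (U.erase y)) / (U.card : ℝ) := rfl
  rw [e3, Finset.sum_congr rfl e1, Finset.sum_congr rfl e2,
    sum_offdiag U (fun y x => fw (up σ x) ((U.erase y).erase x) / ((U.card : ℝ) - 1))]

/-! ### Sums over subsets with binomial weights -/

/-- `∑ φ(U) / C(|V|,|U|)`. -/
noncomputable def GS (φ : Finset α → ℝ) (V : Finset α) : ℝ :=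
  ∑ U ∈ V.powerset, φ U / (V.card.choose U.card : ℝ)

theorem GS_empty (φ : Finset α → ℝ) : GS φ ∅ = φ ∅ := by
  simp [GS]

theorem sum_pairs' (V : Finset α) (F : Finset α → α → ℝ) :
    ∑ Z ∈ V.powerset, ∑ x ∈ V \ Z, F Z x = ∑ x ∈ V, ∑ Z ∈ (V.erase x).powerset, F Z x := by
  refine Finset.sum_comm' ?_
  intro W x
  simp only [Finset.mem_powerset, Finset.mem_sdiff, Finset.subset_erase]
  tauto

theorem GS_rec (φ : Finset α → ℝ) {V : Finset α} (hV : V ≠ ∅) :
    GS φ V = φ V + (∑ x ∈ V, GS φ (V.erase x)) / (V.card : ℝ) := by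
  have hc : (0 : ℝ) < V.card := by
    rw [Nat.cast_pos, card_pos]; exact nonempty_iff_ne_empty.2 hV
  have h1 : ∑ x ∈ V, GS φ (V.erase x) =
      ∑ X ∈ V.powerset, ∑ x ∈ V \ X, φ X / ((V.card - 1).choose X.card : ℝ) := by
    rw [sum_pairs']
    unfold GS
    refine Finset.sum_congr rfl fun x hx => ?_
    rw [Finset.card_erase_of_mem hx]
  rw [h1]
  unfold GS
  rw [← add_sum_erase _ _ (mem_powerset_self V), Nat.choose_self, Nat.cast_one, div_one,
    ← add_sum_erase _ (fun X => ∑ x ∈ V \ X, φ X / ((V.card - 1).choose X.card : ℝ))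
      (mem_powerset_self V)]
  simp only [sdiff_self, bot_eq_empty, sum_empty, zero_add]
  congr 1
  rw [sum_div]
  refine sum_congr rfl fun X hX => ?_
  rw [mem_erase, mem_powerset] at hX
  have hlt : X.card < V.card := card_lt_card (ssubset_of_subset_of_ne hX.2 hX.1)
  rw [sum_const, nsmul_eq_mul, card_sdiff_cast hX.2]
  have hp := choose_pos_real hlt.le
  have hp2 : (0 : ℝ) < ((V.card - 1).choose X.card : ℝ) := choose_pos_real (by omega)
  have hid : (V.card.choose X.card : ℝ) * ((V.card : ℝ) - X.card) =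
      (V.card : ℝ) * ((V.card - 1).choose X.card : ℝ) := by
    obtain ⟨n, hn⟩ : ∃ n, V.card = n + 1 := ⟨V.card - 1, by omega⟩
    rw [hn] at hlt ⊢
    have h3 : (((n + 1) - X.card : ℕ) : ℝ) = ((n + 1 : ℕ) : ℝ) - X.card := Nat.cast_sub hlt.le
    rw [← h3, Nat.add_sub_cancel]
    have h4 : (n + 1).choose X.card * (n + 1 - X.card) = (n + 1) * n.choose X.card := by
      rw [← Nat.choose_mul_succ_eq, mul_comm]
    exact_mod_cast h4
  rw [div_eq_div_iff hp.ne' hc.ne']
  have : ((V.card : ℝ) - X.card) * (φ X / ((V.card - 1).choose X.card : ℝ)) *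
      (V.card.choose X.card : ℝ) = φ X * ((V.card.choose X.card : ℝ) *
        ((V.card : ℝ) - X.card)) / ((V.card - 1).choose X.card : ℝ) := by ring
  rw [this, hid]
  field_simp

theorem GS_first (φ : Finset α → ℝ) (ψ : α → Finset α → ℝ) (V : Finset α)
    (h : ∀ U ⊆ V, U ≠ ∅ → φ U = (∑ x ∈ U, ψ x (U.erase x)) / (U.card : ℝ)) :
    GS φ V = φ ∅ + (∑ x ∈ V, GS (ψ x) (V.erase x)) / (V.card : ℝ) := by
  have h1 : ∑ x ∈ V, GS (ψ x) (V.erase x) =
      ∑ U ∈ V.powerset, ∑ x ∈ U, ψ x (U.erase x) /
        ((V.card - 1).choose (U.erase x).card : ℝ) := by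
    rw [← sum_up_down V (fun Z x => ψ x Z / ((V.card - 1).choose Z.card : ℝ)), sum_pairs']
    unfold GS
    refine Finset.sum_congr rfl fun x hx => ?_
    rw [Finset.card_erase_of_mem hx]
  rw [h1]
  unfold GS
  rw [← add_sum_erase _ _ (empty_mem_powerset V),
    ← add_sum_erase _ (fun U => ∑ x ∈ U, ψ x (U.erase x) /
        ((V.card - 1).choose (U.erase x).card : ℝ)) (empty_mem_powerset V)]
  simp only [card_empty, Nat.choose_zero_right, Nat.cast_one, div_one, sum_empty, zero_add]
  congr 1
  rw [sum_div]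
  refine sum_congr rfl fun U hU => ?_
  rw [mem_erase, mem_powerset] at hU
  have hUne : U.Nonempty := nonempty_iff_ne_empty.2 hU.1
  rw [h U hU.2 hU.1]
  obtain ⟨k, hk⟩ : ∃ k, U.card = k + 1 := ⟨U.card - 1, by have := hUne.card_pos; omega⟩
  have hle := card_le_card hU.2
  obtain ⟨m, hm⟩ : ∃ m, V.card = m + 1 := ⟨V.card - 1, by omega⟩
  have e1 : ∑ x ∈ U, ψ x (U.erase x) / ((V.card - 1).choose (U.erase x).card : ℝ) =
      (∑ x ∈ U, ψ x (U.erase x)) / (m.choose k : ℝ) := by
    rw [sum_div]
    refine sum_congr rfl fun x hx => ?_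
    rw [card_erase_of_mem hx, hk, hm]
    rfl
  rw [e1, hk, hm]
  have h3 : ((m : ℝ) + 1) * (m.choose k : ℝ) = ((m + 1).choose (k + 1) : ℝ) * ((k : ℝ) + 1) := by
    have := Nat.add_one_mul_choose_eq m k
    exact_mod_cast this
  have h4 : (0 : ℝ) < (m.choose k : ℝ) := by exact_mod_cast Nat.choose_pos (by omega)
  have h5 : (0 : ℝ) < ((m + 1).choose (k + 1) : ℝ) := by
    exact_mod_cast Nat.choose_pos (by omega)
  rw [div_div, div_div]
  push_cast
  rw [show ((m.choose k : ℝ)) * ((m : ℝ) + 1) = ((m : ℝ) + 1) * (m.choose k : ℝ) by ring, h3]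
  congr 1
  ring

/-! ### The function `A1` -/

/-- The summand of `A1`. -/
noncomputable def ph (τ : Finset α → Lab) (π : Finset α → ℝ) (U : Finset α) : ℝ :=
  match τ U with
    | .A => fw τ U
    | .X => fwb τ U * π U
    | .B => 0

theorem A1_eq (τ : Finset α → Lab) (π : Finset α → ℝ) (V : Finset α) :
    A1 τ π V = GS (ph τ π) V := rfl

theorem ph_A {τ : Finset α → Lab} (π : Finset α → ℝ) {U : Finset α} (h : τ U = Lab.A) :
    ph τ π U = fw τ U := by unfold ph; rw [h]

theorem ph_X {τ : Finset α → Lab} (π : Finset α → ℝ) {U : Finset α} (h : τ U = Lab.X) :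
    ph τ π U = fwb τ U * π U := by unfold ph; rw [h]

theorem ph_B {τ : Finset α → Lab} (π : Finset α → ℝ) {U : Finset α} (h : τ U = Lab.B) :
    ph τ π U = 0 := by unfold ph; rw [h]

theorem A1_rec (τ : Finset α → Lab) (π : Finset α → ℝ) {V : Finset α} (hV : V ≠ ∅) :
    A1 τ π V = ph τ π V + (∑ x ∈ V, A1 τ π (V.erase x)) / (V.card : ℝ) := GS_rec _ hV

theorem A1_empty {τ : Finset α → Lab} (π : Finset α → ℝ) (h : τ ∅ = Lab.A) :
    A1 τ π ∅ = 1 := by
  rw [A1_eq, GS_empty, ph_A π h, fw_empty, if_pos h]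

theorem fw_zero_of_bot {σ : Finset α → Lab} (h0 : σ ∅ ≠ Lab.A) (U : Finset α) : fw σ U = 0 := by
  induction U using Finset.strongInduction with
  | H U ih =>
  by_cases hU : U = ∅
  · subst hU; rw [fw_empty, if_neg h0]
  · rw [fw_rec hU]
    split_ifs
    · unfold fwb
      rw [Finset.sum_congr rfl fun x hx => ih _ (Finset.erase_ssubset hx)]
      simp
    · rfl

theorem fwb_zero_of_bot {σ : Finset α → Lab} (h0 : σ ∅ ≠ Lab.A) (U : Finset α) :
    fwb σ U = 0 := by
  unfold fwb
  rw [Finset.sum_congr rfl fun x _ => fw_zero_of_bot h0 (U.erase x)]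
  simp

theorem A1_zero_of_bot {σ : Finset α → Lab} (π : Finset α → ℝ) (h0 : σ ∅ ≠ Lab.A)
    (U : Finset α) : A1 σ π U = 0 := by
  rw [A1_eq]
  unfold GS
  refine Finset.sum_eq_zero fun V _ => ?_
  have : ph σ π V = 0 := by
    unfold ph
    rcases σ V with _ | _ | _
    · exact fw_zero_of_bot h0 V
    · rfl
    · simp only; rw [fwb_zero_of_bot h0 V, zero_mul]
  rw [this, zero_div]

/-- First-step decomposition of `A1`. -/
theorem A1_first {σ : Finset α → Lab} (π : Finset α → ℝ) (h0 : σ ∅ = Lab.A) (V : Finset α) :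
    A1 σ π V = 1 + (∑ x ∈ V, (if σ {x} = Lab.X then π {x} else
      A1 (up σ x) (fun Z => π (insert x Z)) (V.erase x))) / (V.card : ℝ) := by
  rw [A1_eq]
  have key := GS_first (ph σ π) (fun x Z => if σ {x} = Lab.X then (if Z = ∅ then π {x} else 0)
    else ph (up σ x) (fun Z => π (insert x Z)) Z) V (by
    intro U _ hU
    have hne : U.Nonempty := Finset.nonempty_iff_ne_empty.2 hU
    have hm : (0 : ℝ) < (U.card : ℝ) := by exact_mod_cast hne.card_pos
    by_cases h1 : U.card = 1
    · obtain ⟨x, rfl⟩ := Finset.card_eq_one.1 h1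
      have e1 : ({x} : Finset α).erase x = ∅ := by simp
      simp only [Finset.sum_singleton, e1, if_true, Finset.card_singleton, Nat.cast_one, div_one]
      cases hx : σ {x} with
      | A =>
        have hx' : up σ x ∅ = Lab.A := by simpa [up] using hx
        rw [ph_A π hx, ph_A _ hx', fw_rec hU, if_pos hx, fw_empty, if_pos hx']
        unfold fwb
        simp [e1, fw_empty, h0]
      | X =>
        rw [ph_X π hx]
        unfold fwb
        simp [e1, fw_empty, h0]
      | B =>
        have hx' : up σ x ∅ = Lab.B := by simpa [up] using hx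
        rw [ph_B π hx, ph_B _ hx']
        simp
    · have h2 : 2 ≤ U.card := by have := hne.card_pos; omega
      have hne2 : ∀ y ∈ U, U.erase y ≠ ∅ := by
        intro y hy h
        have := Finset.card_erase_of_mem hy
        rw [h, Finset.card_empty] at this
        omega
      have hups : ∀ x, up σ x ∅ = σ {x} := by intro x; simp [up]
      cases hUc : σ U with
      | A =>
        rw [ph_A π hUc, fw_first h0 hU]
        congr 1
        refine Finset.sum_congr rfl fun x hx => ?_
        split_ifs with hX hE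
        · exact absurd hE (hne2 x hx)
        · apply fw_zero_of_bot
          rw [hups, hX]; decide
        · rw [ph_A]
          rw [up_erase hx]; exact hUc
      | X =>
        rw [ph_X π hUc, fwb_first h0 h2, div_mul_eq_mul_div, Finset.sum_mul]
        congr 1
        refine Finset.sum_congr rfl fun x hx => ?_
        split_ifs with hX hE
        · exact absurd hE (hne2 x hx)
        · rw [fwb_zero_of_bot, zero_mul]
          rw [hups, hX]; decide
        · rw [ph_X]
          · simp only [Finset.insert_erase hx]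
          · rw [up_erase hx]; exact hUc
      | B =>
        rw [ph_B π hUc]
        symm
        rw [div_eq_zero_iff]
        left
        refine Finset.sum_eq_zero fun x hx => ?_
        split_ifs with hX hE
        · exact absurd hE (hne2 x hx)
        · rfl
        · rw [ph_B]
          rw [up_erase hx]; exact hUc)
  rw [key, ph_A π h0, fw_empty, if_pos h0]
  congr 2
  refine Finset.sum_congr rfl fun x _ => ?_
  by_cases hX : σ {x} = Lab.X
  · simp only [hX, if_true]
    unfold GS
    rw [← add_sum_erase _ _ (empty_mem_powerset (V.erase x))]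
    simp only [if_true, card_empty, Nat.choose_zero_right, Nat.cast_one, div_one]
    rw [Finset.sum_eq_zero, add_zero]
    intro Z hZ
    rw [if_neg (Finset.mem_erase.1 hZ).1, zero_div]
  · simp only [hX, if_false]
    rfl

end R5.QP

end

section

/-!
# (Q^pi), third part: conclusion
-/

namespace R5.QP

open Finset

variable {α : Type} [DecidableEq α]

theorem erase_sdiff_eq (U Z : Finset α) (x : α) : (U.erase x) \ Z = U \ insert x Z := by
  ext y; simp only [mem_erase, mem_sdiff, mem_insert, not_or]; tauto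

theorem erase_sdiff_eq' (U W : Finset α) (x : α) : (U.erase x) \ W = (U \ W).erase x := by
  ext y; simp only [mem_erase, mem_sdiff]; tauto

theorem dual_erase (τ : Finset α → Lab) (U : Finset α) (x : α) :
    dual τ (U.erase x) = up (dual τ U) x := by
  funext Z
  unfold dual up
  rw [erase_sdiff_eq]

/-- The backward recursion `bet` agrees with `B1`. -/
theorem bet_eq {τ : Finset α → Lab} (π : Finset α → ℝ) {U : Finset α} (h : τ U = Lab.B)
    {W : Finset α} (hW : W ⊆ U) : bet τ π U W = B1 τ U π W := by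
  induction U using Finset.strongInduction generalizing W with
  | H U ih =>
  have hσ : dual τ U ∅ = Lab.A := by
    unfold dual; rw [sdiff_empty, flip_eq_A]; exact h
  unfold B1
  rw [bet_B π W h, A1_first _ hσ]
  congr 2
  refine Finset.sum_congr rfl fun x hx => ?_
  have hx' := mem_sdiff.1 hx
  have hσx : dual τ U {x} = (τ (U.erase x)).flip := by
    unfold dual; rw [sdiff_singleton_eq_erase]
  rw [hσx]
  cases hc : τ (U.erase x) with
  | A =>
    rw [bet_A π W hc]
    rw [if_neg (by simp [Lab.flip])]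
    rw [A1_zero_of_bot]
    have : up (dual τ U) x ∅ = dual τ U {x} := by simp [up]
    rw [this, hσx, hc]
    simp [Lab.flip]
  | X =>
    rw [bet_X π W hc]
    rw [if_pos (by simp [Lab.flip])]
    rw [sdiff_singleton_eq_erase]
  | B =>
    rw [if_neg (by simp [Lab.flip])]
    have hWe : W ⊆ U.erase x := subset_erase.2 ⟨hW, hx'.2⟩
    rw [ih _ (erase_ssubset hx'.1) hc hWe]
    unfold B1
    rw [dual_erase, erase_sdiff_eq']
    congr 1
    funext Z
    rw [erase_sdiff_eq]

/-- Splitting off the last step. -/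
theorem top_split (c : Finset α → Lab) {V : Finset α} (g : Finset α → ℝ) :
    ∑ W ∈ V.powerset with c W ≠ Lab.A, P1 c V W * g W =
      (∑ x ∈ V, ∑ W ∈ (V.erase x).powerset with c W ≠ Lab.A, P1 c (V.erase x) W * g W) /
        (V.card : ℝ) + (if c V = Lab.A then 0 else fwb c V * g V) := by
  rw [← P1_avg c V (fun W _ => g W)]
  have h1 : ∀ W ∈ V.powerset.filter (fun W => c W ≠ Lab.A),
      P1 c V W * ((∑ _x ∈ V \ W, g W) / ((V \ W).card : ℝ)) =
        P1 c V W * g W - (if W = V then P1 c V W * g W else 0) := by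
    intro W hW
    have hWV := mem_powerset.1 (mem_filter.1 hW).1
    rw [sum_const, nsmul_eq_mul]
    by_cases h : W = V
    · subst h; simp
    · have hpos : (0 : ℝ) < ((V \ W).card : ℝ) := by
        have : (V \ W).Nonempty := by
          rw [sdiff_nonempty]; intro h2; exact h (Subset.antisymm hWV h2)
        exact_mod_cast this.card_pos
      rw [if_neg h]
      field_simp
      ring
  rw [sum_congr rfl h1, sum_sub_distrib, sum_ite_eq']
  by_cases hA : c V = Lab.A
  · rw [if_pos hA, if_neg (by simp [hA])]; ring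
  · rw [if_neg hA, if_pos (by simp [hA]), P1_self]; ring

theorem mass {c : Finset α → Lab} (hc : c ∅ = Lab.A) (V : Finset α) :
    ∑ W ∈ V.powerset with c W ≠ Lab.A, P1 c V W = 1 - fw c V := by
  induction V using Finset.strongInduction with
  | H V ih =>
  by_cases hV : V = ∅
  · subst hV
    have : (∅ : Finset α).powerset.filter (fun W => c W ≠ Lab.A) = ∅ := by
      ext W
      simp only [powerset_empty, mem_filter, mem_singleton, notMem_empty, iff_false, not_and,
        not_not]
      rintro rfl; exact hc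
    rw [this, sum_empty, fw_empty, if_pos hc]; ring
  · have hne : V.Nonempty := nonempty_iff_ne_empty.2 hV
    have hm : (0 : ℝ) < (V.card : ℝ) := by exact_mod_cast hne.card_pos
    have h := top_split c (V := V) (fun _ => 1)
    simp only [mul_one] at h
    rw [h, sum_congr rfl fun x hx => ih _ (erase_ssubset hx), sum_sub_distrib, sum_const,
      nsmul_eq_mul, mul_one, sub_div, div_self hm.ne', fw_rec hV]
    have : (∑ x ∈ V, fw c (V.erase x)) / (V.card : ℝ) = fwb c V := rfl
    rw [this]
    split_ifs <;> ring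

theorem sum_bF {c : Finset α → Lab} (π : Finset α → ℝ) (hc : c ∅ = Lab.A) (V : Finset α) :
    ∑ W ∈ V.powerset with c W ≠ Lab.A, P1 c V W * bF c π V W =
      (V.card : ℝ) + 1 - A1 c π V := by
  induction V using Finset.strongInduction with
  | H V ih =>
  by_cases hV : V = ∅
  · subst hV
    have : (∅ : Finset α).powerset.filter (fun W => c W ≠ Lab.A) = ∅ := by
      ext W
      simp only [powerset_empty, mem_filter, mem_singleton, notMem_empty, iff_false, not_and,
        not_not]
      rintro rfl; exact hc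
    rw [this, sum_empty, A1_empty π hc]; simp
  · have hne : V.Nonempty := nonempty_iff_ne_empty.2 hV
    have hm : (0 : ℝ) < (V.card : ℝ) := by exact_mod_cast hne.card_pos
    rw [top_split c (V := V) (fun W => bF c π V W)]
    have e1 : ∀ x ∈ V, ∑ W ∈ (V.erase x).powerset with c W ≠ Lab.A,
        P1 c (V.erase x) W * bF c π V W =
        ((V.card : ℝ) + 1) - A1 c π (V.erase x) - fw c (V.erase x) := by
      intro x hx
      have e2 : ∀ W ∈ (V.erase x).powerset.filter (fun W => c W ≠ Lab.A),
          P1 c (V.erase x) W * bF c π V W =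
          P1 c (V.erase x) W * bF c π (V.erase x) W + P1 c (V.erase x) W := by
        intro W _
        rw [bF_erase c π W hx]; ring
      rw [sum_congr rfl e2, sum_add_distrib, ih _ (erase_ssubset hx), mass hc,
        card_erase_of_mem hx, Nat.cast_sub hne.card_pos]
      push_cast; ring
    rw [sum_congr rfl e1, sum_sub_distrib, sum_sub_distrib, sum_const, nsmul_eq_mul,
      A1_rec c π hV]
    have e3 : (∑ x ∈ V, fw c (V.erase x)) / (V.card : ℝ) = fwb c V := rfl
    rw [sub_div, sub_div, e3]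
    have e4 : (V.card : ℝ) * ((V.card : ℝ) + 1) / (V.card : ℝ) = (V.card : ℝ) + 1 := by
      field_simp
    rw [e4]
    have e5 : (if c V = Lab.A then 0 else fwb c V * bF c π V V) = fwb c V - ph c π V := by
      unfold bF aF
      cases hcV : c V with
      | A => rw [ph_A π hcV, fw_rec hV, if_pos hcV]; simp
      | X => rw [ph_X π hcV]; simp; ring
      | B => rw [ph_B π hcV]; simp
    rw [e5]; ring

theorem YF_ne {c : Finset α → Lab} (π : Finset α → ℝ) (hc : c ∅ = Lab.A) {V : Finset α}
    (h : c V ≠ Lab.B) : YF c π V = aL c π V - A1 c π V := by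
  cases hcV : c V with
  | A =>
    have h1 : YF c π V = ∑ W ∈ V.powerset with c W ≠ Lab.A, P1 c V W * bF c π V W := by
      unfold YF
      refine sum_congr rfl fun W _ => ?_
      unfold dF; rw [bet_A π W hcV]; ring
    rw [h1, sum_bF π hc]
    unfold aL; rw [hcV]; simp
  | X =>
    have hne : V ≠ ∅ := by
      rintro rfl; rw [hc] at hcV; exact absurd hcV (by decide)
    have h1 : YF c π V = ∑ W ∈ V.powerset with c W ≠ Lab.A,
        (P1 c V W * bF c π V W - P1 c V W * (1 - π V)) := by
      unfold YF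
      refine sum_congr rfl fun W _ => ?_
      unfold dF; rw [bet_X π W hcV]; ring
    rw [h1, sum_sub_distrib, sum_bF π hc, ← sum_mul, mass hc, fw_rec hne, if_neg (by
      rw [hcV]; decide)]
    unfold aL; rw [hcV]; simp; ring
  | B => exact absurd hcV h

theorem YF_eq {c : Finset α → Lab} (π : Finset α → ℝ) (hc : c ∅ = Lab.A) (U : Finset α) :
    YF c π U = Lst c (aL c π) U - A1 c π U := by
  induction U using Finset.strongInduction with
  | H U ih =>
  by_cases h : c U = Lab.B
  · have hne : U ≠ ∅ := by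
      rintro rfl; rw [hc] at h; exact absurd h (by decide)
    rw [YF_B π h, Lst_B _ h, sum_congr rfl fun x hx => ih _ (erase_ssubset hx),
      sum_sub_distrib, A1_rec c π hne, ph_B π h]
    ring
  · rw [YF_ne π hc h, Lst_ne _ h]

theorem Lst_sq {c : Finset α → Lab} {π : Finset α → ℝ} (hc : c ∅ = Lab.A)
    (hp0 : ∀ V, 0 ≤ π V) (U : Finset α) :
    Lst c (fun V => YF c π V ^ 2 / aL c π V) U =
      Lst c (aL c π) U - 2 * A1 c π U + Lst c (fun V => A1 c π V ^ 2 / aL c π V) U := by
  induction U using Finset.strongInduction with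
  | H U ih =>
  by_cases h : c U = Lab.B
  · have hne : U ≠ ∅ := by
      rintro rfl; rw [hc] at h; exact absurd h (by decide)
    rw [Lst_B _ h, Lst_B _ h, Lst_B _ h, sum_congr rfl fun x hx => ih _ (erase_ssubset hx),
      sum_add_distrib, sum_sub_distrib, A1_rec c π hne, ph_B π h, ← mul_sum]
    ring
  · rw [Lst_ne _ h, Lst_ne _ h, Lst_ne _ h, YF_ne π hc h]
    have := aL_pos c π hp0 hc U
    field_simp
    ring

/-- Law of the last set without label `B`. -/
theorem Lst_explicit {τ : Finset α → Lab} (h0 : τ ∅ = Lab.A) {D : Finset α} (hD : τ D = Lab.B)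
    (f : Finset α → ℝ) :
    Lst τ f D = ∑ V ∈ D.powerset, if τ V = Lab.B then 0 else
      bwb τ D V / (D.card.choose V.card : ℝ) * f V := by
  have hσ : dual τ D ∅ = Lab.A := by
    unfold dual; rw [sdiff_empty, flip_eq_A]; exact hD
  have hσD : dual τ D D ≠ Lab.A := by
    unfold dual; rw [sdiff_self, bot_eq_empty, h0]; simp [Lab.flip]
  have key := stopping_eq (dual τ D) hσ D hσD (fun Z => Lst τ f (D \ Z)) (by
    intro Z hZ hA
    have hB : τ (D \ Z) = Lab.B := by
      unfold dual at hA; rwa [flip_eq_A] at hA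
    have hcard : ((D.card - Z.card : ℕ) : ℝ) = ((D \ Z).card : ℝ) := by
      rw [card_sdiff_of_subset hZ.1]
    rw [hcard, Lst_B f hB]
    congr 1
    refine sum_congr rfl fun x _ => ?_
    rw [sdiff_erase_eq])
  simp only [sdiff_empty] at key
  rw [← key, sum_filter, ← sum_powerset_compl]
  refine sum_congr rfl fun V hV => ?_
  have hVD := mem_powerset.1 hV
  rw [dual_apply hVD, Finset.sdiff_sdiff_eq_self hVD]
  by_cases hB : τ V = Lab.B
  · rw [if_pos hB, if_neg]
    simp [hB, Lab.flip]
  · rw [if_neg hB, if_pos (by rw [Ne, flip_eq_A]; exact hB), Lst_ne f hB]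
    unfold P1
    rw [fwb_dual, card_sdiff_of_subset hVD, Nat.choose_symm (card_le_card hVD)]

theorem sum_B1 {τ : Finset α → Lab} (π : Finset α → ℝ) (h0 : τ ∅ = Lab.A) {D : Finset α}
    (hD : τ D = Lab.B) :
    ∑ W ∈ D.powerset with τ W ≠ Lab.A, P1 τ D W * B1 τ D π W = B1 τ D π ∅ := by
  refine stopping_eq τ h0 D (by rw [hD]; decide) (fun W => B1 τ D π W) ?_
  intro V hV hA
  have hne : D \ V ≠ ∅ := by
    rw [Ne, sdiff_eq_empty_iff_subset]; exact hV.2
  have hcard : ((D.card - V.card : ℕ) : ℝ) = ((D \ V).card : ℝ) := by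
    rw [card_sdiff_of_subset hV.1]
  rw [hcard]
  unfold B1
  rw [A1_rec _ _ hne, ph_B _ (by rw [dual_apply hV.1, hA]; rfl), zero_add]
  congr 1
  refine sum_congr rfl fun x _ => ?_
  rw [sdiff_erase_eq]

end R5.QP

end

section

/-!
# One LR solution between consecutive layers
-/

namespace MP_8b6acb_co

open Finset

/-- `x ≺ y` between consecutive layers is an edge. -/
theorem dedge_of_prec {d : ℕ} {x y : Vtx d} (h : Prec x y) (hw : wt y = wt x + 1) :
    DEdge x y := by
  have hsub : univ.filter (fun k => x k = true) ⊆ univ.filter (fun k => y k = true) := by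
    intro k hk
    rw [mem_filter] at hk ⊢
    refine ⟨mem_univ k, ?_⟩
    have h1 := h.1 k
    rw [hk.2] at h1
    exact top_le_iff.1 h1
  have hc : (univ.filter (fun k => y k = true) \ univ.filter (fun k => x k = true)).card = 1 := by
    rw [card_sdiff_of_subset hsub]
    unfold wt at hw
    omega
  obtain ⟨k, hk⟩ := card_eq_one.1 hc
  have hmem : ∀ l, l ∈ univ.filter (fun k => y k = true) \ univ.filter (fun k => x k = true) ↔
      x l ≠ y l := by
    intro l
    rw [mem_sdiff, mem_filter, mem_filter]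
    have h1 := h.1 l
    revert h1
    cases x l <;> cases y l <;> simp
  refine ⟨⟨k, ?_, ?_⟩, hw⟩
  · exact (hmem k).1 (by rw [hk]; exact mem_singleton_self k)
  · intro l hl
    have := (hmem l).2 hl
    rw [hk] at this
    exact mem_singleton.1 this

/-- One LR solution between consecutive layers. -/
theorem one_system {d i : ℕ} (S T : Finset (Vtx d)) (hS : ∀ s ∈ S, wt s = i)
    (hT : ∀ t ∈ T, wt t = i + 1) (hST : Matched S T) : HasEdgeDisjointLR 1 S T := by
  obtain ⟨φ, hφ⟩ := hST
  refine ⟨fun _ => S.attach.image (fun s => [s.1, (φ s).1]), ?_, ?_⟩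
  · intro _
    constructor
    · rw [card_image_of_injective, card_attach]
      intro a b hab
      simp only [List.cons.injEq, and_true] at hab
      exact Subtype.ext hab.1
    · intro p hp
      obtain ⟨s, -, rfl⟩ := mem_image.1 hp
      refine ⟨by simp, ?_⟩
      have hw : wt (φ s).1 = wt s.1 + 1 := by rw [hT _ (φ s).2, hS _ s.2]
      simpa using dedge_of_prec (hφ s) hw
    · intro p hp
      obtain ⟨s, -, rfl⟩ := mem_image.1 hp
      exact ⟨s.1, s.2, rfl⟩
    · intro p hp
      obtain ⟨s, -, rfl⟩ := mem_image.1 hp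
      exact ⟨(φ s).1, (φ s).2, rfl⟩
    · intro p hp p' hp' hne v hv hv'
      obtain ⟨s, -, rfl⟩ := mem_image.1 hp
      obtain ⟨s', -, rfl⟩ := mem_image.1 hp'
      have hss : s ≠ s' := by
        rintro rfl
        exact hne rfl
      simp only [List.mem_cons, List.not_mem_nil, or_false] at hv hv'
      have w1 := hS _ s.2
      have w2 := hS _ s'.2
      have w3 := hT _ (φ s).2
      have w4 := hT _ (φ s').2
      rcases hv with hv | hv <;> rcases hv' with hv' | hv'
      · exact hss (Subtype.ext (hv.symm.trans hv'))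
      · have : s.1 = (φ s').1 := hv.symm.trans hv'
        rw [this] at w1
        omega
      · have : (φ s).1 = s'.1 := hv.symm.trans hv'
        rw [this] at w3
        omega
      · exact hss (φ.injective (Subtype.ext (hv.symm.trans hv')))
  · intro c c' hcc
    exact absurd (Subsingleton.elim c c') hcc

end MP_8b6acb_co

end

section

/-!
# Approximate matrix scaling (Sinkhorn)

`R5.sinkhorn_approx`: a nonnegative matrix with positive entries on a perfect matching `φ` can be
scaled by positive `α`, `β` so that the marginals are as close as we want to `lam` on the rows and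
`lam ∘ φ.symm` on the columns.
-/

namespace R5

open Finset

section Sink

variable {S T : Type*} [Fintype S] [Fintype T]

/-- The (regularised) convex functional. -/
noncomputable def sinkF (φ : S ≃ T) (z : S → T → ℝ) (lam : S → ℝ) (x : S → ℝ) (y : T → ℝ) : ℝ :=
  (∑ s, ∑ t, z s t * Real.exp (x s + y t)) - ∑ s, lam s * (x s + y (φ s))

lemma exp_lower {a l u : ℝ} (ha : 0 < a) (hl : 0 < l) :
    l * (1 + Real.log (a / l)) ≤ a * Real.exp u - l * u := by
  have h1 : u + Real.log (a / l) + 1 ≤ Real.exp (u + Real.log (a / l)) := Real.add_one_le_exp _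
  have h2 : Real.exp (u + Real.log (a / l)) = Real.exp u * (a / l) := by
    rw [Real.exp_add, Real.exp_log (div_pos ha hl)]
  rw [h2] at h1
  have h3 : l * (u + Real.log (a / l) + 1) ≤ l * (Real.exp u * (a / l)) :=
    mul_le_mul_of_nonneg_left h1 hl.le
  have h4 : l * (Real.exp u * (a / l)) = a * Real.exp u := by
    field_simp
  rw [h4] at h3
  nlinarith [h3]

lemma sinkF_lower (φ : S ≃ T) (z : S → T → ℝ) (hz : ∀ s t, 0 ≤ z s t)
    (hφ : ∀ s, 0 < z s (φ s)) (lam : S → ℝ) (hlam : ∀ s, 0 < lam s) (x : S → ℝ) (y : T → ℝ) :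
    ∑ s, lam s * (1 + Real.log (z s (φ s) / lam s)) ≤ sinkF φ z lam x y := by
  unfold sinkF
  have h1 : ∑ s, z s (φ s) * Real.exp (x s + y (φ s)) ≤
      ∑ s, ∑ t, z s t * Real.exp (x s + y t) := by
    refine Finset.sum_le_sum fun s _ => ?_
    exact Finset.single_le_sum (f := fun t => z s t * Real.exp (x s + y t))
      (fun t _ => mul_nonneg (hz s t) (Real.exp_pos _).le) (Finset.mem_univ (φ s))
  have h2 : ∑ s, lam s * (1 + Real.log (z s (φ s) / lam s)) ≤
      ∑ s, (z s (φ s) * Real.exp (x s + y (φ s)) - lam s * (x s + y (φ s))) :=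
    Finset.sum_le_sum fun s _ => exp_lower (hφ s) (hlam s)
  rw [Finset.sum_sub_distrib] at h2
  linarith

lemma sinkF_continuous (φ : S ≃ T) (z : S → T → ℝ) (lam : S → ℝ) :
    Continuous fun p : (S → ℝ) × (T → ℝ) => sinkF φ z lam p.1 p.2 := by
  unfold sinkF
  fun_prop

/-- If `(e^r - 1) A - l r + d (2 r c + r^2) ≥ 0` for all `r` then `A - l + 2 d c = 0`. -/
lemma first_order {A l d c : ℝ}
    (h : ∀ r : ℝ, 0 ≤ (Real.exp r - 1) * A - l * r + d * (2 * r * c + r ^ 2)) :
    A - l + 2 * d * c = 0 := by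
  have hd : HasDerivAt (fun r : ℝ => (Real.exp r - 1) * A - l * r + d * (2 * r * c + r ^ 2))
      ((Real.exp 0) * A - l * 1 + d * (2 * 1 * c + 2 * (0:ℝ) ^ (2 - 1) * 1)) 0 := by
    have e1 : HasDerivAt (fun r : ℝ => (Real.exp r - 1) * A) (Real.exp 0 * A) 0 :=
      ((Real.hasDerivAt_exp 0).sub_const 1).mul_const A
    have e2 : HasDerivAt (fun r : ℝ => l * r) (l * 1) 0 := (hasDerivAt_id (0:ℝ)).const_mul l
    have e3 : HasDerivAt (fun r : ℝ => 2 * r * c) (2 * 1 * c) 0 :=
      ((hasDerivAt_id (0:ℝ)).const_mul 2).mul_const c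
    have e4 : HasDerivAt (fun r : ℝ => r ^ 2) (2 * (0:ℝ) ^ (2 - 1) * 1) 0 := by
      have := hasDerivAt_pow 2 (0:ℝ)
      simpa using this
    exact (e1.sub e2).add ((e3.add e4).const_mul d)
  have hm : IsLocalMin
      (fun r : ℝ => (Real.exp r - 1) * A - l * r + d * (2 * r * c + r ^ 2)) 0 := by
    refine Filter.Eventually.of_forall fun r => ?_
    have := h r
    simpa using this
  have h0 := hm.hasDerivAt_eq_zero hd
  simp at h0
  linarith

open Classical in
lemma sinkF_shift_left (φ : S ≃ T) (z : S → T → ℝ) (lam : S → ℝ) (x : S → ℝ) (y : T → ℝ)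
    (a : S) (r : ℝ) :
    sinkF φ z lam (Function.update x a (x a + r)) y =
      sinkF φ z lam x y + (Real.exp r - 1) * (∑ t, z a t * Real.exp (x a + y t)) - lam a * r := by
  unfold sinkF
  have h1 : ∑ s, ∑ t, z s t * Real.exp (Function.update x a (x a + r) s + y t) =
      (∑ s, ∑ t, z s t * Real.exp (x s + y t)) +
        (Real.exp r - 1) * (∑ t, z a t * Real.exp (x a + y t)) := by
    rw [← Finset.add_sum_erase Finset.univ _ (Finset.mem_univ a),
      ← Finset.add_sum_erase Finset.univ (fun s => ∑ t, z s t * Real.exp (x s + y t))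
        (Finset.mem_univ a)]
    have e1 : ∑ s ∈ Finset.univ.erase a, ∑ t, z s t *
        Real.exp (Function.update x a (x a + r) s + y t) =
        ∑ s ∈ Finset.univ.erase a, ∑ t, z s t * Real.exp (x s + y t) := by
      refine Finset.sum_congr rfl fun s hs => ?_
      rw [Function.update_of_ne (Finset.ne_of_mem_erase hs)]
    have e2 : ∑ t, z a t * Real.exp (Function.update x a (x a + r) a + y t) =
        Real.exp r * ∑ t, z a t * Real.exp (x a + y t) := by
      rw [Function.update_self, Finset.mul_sum]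
      refine Finset.sum_congr rfl fun t _ => ?_
      rw [show x a + r + y t = r + (x a + y t) by ring, Real.exp_add]
      ring
    rw [e1, e2]
    ring
  have h2 : ∑ s, lam s * (Function.update x a (x a + r) s + y (φ s)) =
      (∑ s, lam s * (x s + y (φ s))) + lam a * r := by
    rw [← Finset.add_sum_erase Finset.univ _ (Finset.mem_univ a),
      ← Finset.add_sum_erase Finset.univ (fun s => lam s * (x s + y (φ s)))
        (Finset.mem_univ a)]
    have e1 : ∑ s ∈ Finset.univ.erase a, lam s *
        (Function.update x a (x a + r) s + y (φ s)) =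
        ∑ s ∈ Finset.univ.erase a, lam s * (x s + y (φ s)) := by
      refine Finset.sum_congr rfl fun s hs => ?_
      rw [Function.update_of_ne (Finset.ne_of_mem_erase hs)]
    rw [e1, Function.update_self]
    ring
  rw [h1, h2]
  ring

lemma sinkF_swap (φ : S ≃ T) (z : S → T → ℝ) (lam : S → ℝ) (x : S → ℝ) (y : T → ℝ) :
    sinkF φ z lam x y = sinkF φ.symm (fun t s => z s t) (fun t => lam (φ.symm t)) y x := by
  unfold sinkF
  rw [Finset.sum_comm]
  congr 1
  · refine Finset.sum_congr rfl fun t _ => Finset.sum_congr rfl fun s _ => ?_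
    rw [add_comm (x s) (y t)]
  · rw [← Equiv.sum_comp φ]
    refine Finset.sum_congr rfl fun s _ => ?_
    simp [add_comm]

open Classical in
lemma sq_shift (x : S → ℝ) (a : S) (r : ℝ) :
    ∑ s, (Function.update x a (x a + r) s) ^ 2 = (∑ s, x s ^ 2) + (2 * r * x a + r ^ 2) := by
  rw [← Finset.add_sum_erase Finset.univ _ (Finset.mem_univ a),
    ← Finset.add_sum_erase Finset.univ (fun s => x s ^ 2) (Finset.mem_univ a)]
  have e1 : ∑ s ∈ Finset.univ.erase a, (Function.update x a (x a + r) s) ^ 2 =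
      ∑ s ∈ Finset.univ.erase a, x s ^ 2 := by
    refine Finset.sum_congr rfl fun s hs => ?_
    rw [Function.update_of_ne (Finset.ne_of_mem_erase hs)]
  rw [e1, Function.update_self]
  ring

/-- Existence of a minimiser of the regularised functional. -/
lemma exists_min (φ : S ≃ T) (z : S → T → ℝ) (hz : ∀ s t, 0 ≤ z s t)
    (hφ : ∀ s, 0 < z s (φ s)) (lam : S → ℝ) (hlam : ∀ s, 0 < lam s) {d : ℝ} (hd : 0 < d) :
    ∃ p : (S → ℝ) × (T → ℝ), ∀ q : (S → ℝ) × (T → ℝ),
      sinkF φ z lam p.1 p.2 + d * ((∑ s, p.1 s ^ 2) + ∑ t, p.2 t ^ 2) ≤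
        sinkF φ z lam q.1 q.2 + d * ((∑ s, q.1 s ^ 2) + ∑ t, q.2 t ^ 2) := by
  have hc : Continuous fun p : (S → ℝ) × (T → ℝ) =>
      sinkF φ z lam p.1 p.2 + d * ((∑ s, p.1 s ^ 2) + ∑ t, p.2 t ^ 2) := by
    refine (sinkF_continuous φ z lam).add ?_
    fun_prop
  obtain ⟨p, hp⟩ := hc.exists_forall_le' (0 : (S → ℝ) × (T → ℝ)) (by
    set LB := ∑ s, lam s * (1 + Real.log (z s (φ s) / lam s)) with hLB
    set G0 := sinkF φ z lam (0 : (S → ℝ) × (T → ℝ)).1 (0 : (S → ℝ) × (T → ℝ)).2 +
      d * ((∑ s, (0 : (S → ℝ) × (T → ℝ)).1 s ^ 2) + ∑ t, (0 : (S → ℝ) × (T → ℝ)).2 t ^ 2) with hG0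
    set R := Real.sqrt (|G0 - LB| / d) with hR
    have hR0 : 0 ≤ R := Real.sqrt_nonneg _
    have hmem : (Metric.closedBall (0 : (S → ℝ) × (T → ℝ)) R)ᶜ ∈
        Filter.cocompact ((S → ℝ) × (T → ℝ)) :=
      (isCompact_closedBall _ _).compl_mem_cocompact
    filter_upwards [hmem] with q hq
    have hq' : R < ‖q‖ := by
      simpa [Metric.mem_closedBall, dist_zero_right, not_le] using hq
    have hsum : R ^ 2 ≤ (∑ s, q.1 s ^ 2) + ∑ t, q.2 t ^ 2 := by
      have hn1 : 0 ≤ ∑ s, q.1 s ^ 2 := Finset.sum_nonneg fun s _ => sq_nonneg _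
      have hn2 : 0 ≤ ∑ t, q.2 t ^ 2 := Finset.sum_nonneg fun s _ => sq_nonneg _
      rcases le_total ‖q.1‖ ‖q.2‖ with h | h
      · have : ‖q‖ = ‖q.2‖ := by rw [Prod.norm_def, max_eq_right h]
        rw [this] at hq'
        have : ∃ t, R < ‖q.2 t‖ := by
          by_contra hcon
          push Not at hcon
          exact absurd ((pi_norm_le_iff_of_nonneg hR0).2 hcon) (not_le.2 hq')
        obtain ⟨t, ht⟩ := this
        have h1 : q.2 t ^ 2 ≤ ∑ t, q.2 t ^ 2 :=
          Finset.single_le_sum (f := fun t => q.2 t ^ 2) (fun t _ => sq_nonneg _)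
            (Finset.mem_univ t)
        have h2 : R ^ 2 ≤ q.2 t ^ 2 := by
          rw [← sq_abs (q.2 t)]
          exact pow_le_pow_left₀ hR0 (by rw [Real.norm_eq_abs] at ht; exact ht.le) 2
        linarith
      · have : ‖q‖ = ‖q.1‖ := by rw [Prod.norm_def, max_eq_left h]
        rw [this] at hq'
        have : ∃ t, R < ‖q.1 t‖ := by
          by_contra hcon
          push Not at hcon
          exact absurd ((pi_norm_le_iff_of_nonneg hR0).2 hcon) (not_le.2 hq')
        obtain ⟨t, ht⟩ := this
        have h1 : q.1 t ^ 2 ≤ ∑ t, q.1 t ^ 2 :=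
          Finset.single_le_sum (f := fun t => q.1 t ^ 2) (fun t _ => sq_nonneg _)
            (Finset.mem_univ t)
        have h2 : R ^ 2 ≤ q.1 t ^ 2 := by
          rw [← sq_abs (q.1 t)]
          exact pow_le_pow_left₀ hR0 (by rw [Real.norm_eq_abs] at ht; exact ht.le) 2
        linarith
    have hR2 : R ^ 2 = |G0 - LB| / d := by
      rw [hR, Real.sq_sqrt (by positivity)]
    have hdR : d * R ^ 2 = |G0 - LB| := by
      rw [hR2]; field_simp
    have h3 := sinkF_lower φ z hz hφ lam hlam q.1 q.2
    have h4 : d * R ^ 2 ≤ d * ((∑ s, q.1 s ^ 2) + ∑ t, q.2 t ^ 2) :=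
      mul_le_mul_of_nonneg_left hsum hd.le
    have h5 : G0 - LB ≤ |G0 - LB| := le_abs_self _
    linarith)
  exact ⟨p, hp⟩

/-- **Approximate Sinkhorn scaling.** -/
theorem sinkhorn_approx (φ : S ≃ T) (z : S → T → ℝ) (hz : ∀ s t, 0 ≤ z s t)
    (hφ : ∀ s, 0 < z s (φ s)) (lam : S → ℝ) (hlam : ∀ s, 0 < lam s) {ε : ℝ} (hε : 0 < ε) :
    ∃ (α : S → ℝ) (β : T → ℝ), (∀ s, 0 < α s) ∧ (∀ t, 0 < β t) ∧
      (∀ s, |(∑ t, α s * β t * z s t) - lam s| ≤ ε) ∧
      (∀ t, |(∑ s, α s * β t * z s t) - lam (φ.symm t)| ≤ ε) := by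
  classical
  set LB := ∑ s, lam s * (1 + Real.log (z s (φ s) / lam s)) with hLB
  set F0 := sinkF φ z lam (0 : S → ℝ) (0 : T → ℝ) with hF0
  have hM : 0 ≤ F0 - LB := by
    have := sinkF_lower φ z hz hφ lam hlam 0 0
    linarith
  set d := ε ^ 2 / (4 * (F0 - LB + 1)) with hd
  have hd0 : 0 < d := by positivity
  obtain ⟨p, hp⟩ := exists_min φ z hz hφ lam hlam hd0
  have hnn1 : 0 ≤ ∑ s, p.1 s ^ 2 := Finset.sum_nonneg fun s _ => sq_nonneg _
  have hnn2 : 0 ≤ ∑ t, p.2 t ^ 2 := Finset.sum_nonneg fun s _ => sq_nonneg _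
  -- the norm bound
  have hbound : d * ((∑ s, p.1 s ^ 2) + ∑ t, p.2 t ^ 2) ≤ F0 - LB := by
    have h1 := hp (0, 0)
    have h2 := sinkF_lower φ z hz hφ lam hlam p.1 p.2
    simp only [Pi.zero_apply, ne_eq, OfNat.ofNat_ne_zero, not_false_eq_true, zero_pow,
      Finset.sum_const_zero, add_zero, mul_zero] at h1
    linarith
  have hkey : ∀ c : ℝ, c ^ 2 ≤ (∑ s, p.1 s ^ 2) + ∑ t, p.2 t ^ 2 → |2 * d * c| ≤ ε := by
    intro c hc
    have h1 : d * c ^ 2 ≤ F0 - LB := (mul_le_mul_of_nonneg_left hc hd0.le).trans hbound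
    have h2 : (2 * d * c) ^ 2 ≤ ε ^ 2 := by
      have e1 : (2 * d * c) ^ 2 = 4 * d * (d * c ^ 2) := by ring
      have e2 : 4 * d * (d * c ^ 2) ≤ 4 * d * (F0 - LB + 1) := by
        apply mul_le_mul_of_nonneg_left _ (by positivity)
        linarith
      have e3 : 4 * d * (F0 - LB + 1) = ε ^ 2 := by
        rw [hd]
        have : F0 - LB + 1 ≠ 0 := by positivity
        field_simp
      rw [e1]; linarith
    exact abs_le_of_sq_le_sq h2 hε.le
  refine ⟨fun s => Real.exp (p.1 s), fun t => Real.exp (p.2 t), fun s => Real.exp_pos _,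
    fun t => Real.exp_pos _, ?_, ?_⟩
  · intro a
    have hfo := first_order (A := ∑ t, z a t * Real.exp (p.1 a + p.2 t)) (l := lam a) (d := d)
      (c := p.1 a) (by
        intro r
        have h1 := hp (Function.update p.1 a (p.1 a + r), p.2)
        simp only at h1
        rw [sinkF_shift_left, sq_shift] at h1
        linarith)
    have he : ∑ t, Real.exp (p.1 a) * Real.exp (p.2 t) * z a t =
        ∑ t, z a t * Real.exp (p.1 a + p.2 t) := by
      refine Finset.sum_congr rfl fun t _ => ?_
      rw [Real.exp_add]; ring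
    rw [he]
    have h2 : (∑ t, z a t * Real.exp (p.1 a + p.2 t)) - lam a = -(2 * d * p.1 a) := by linarith
    rw [h2, abs_neg]
    apply hkey
    have := Finset.single_le_sum (f := fun s => p.1 s ^ 2) (fun t _ => sq_nonneg _)
      (Finset.mem_univ a)
    linarith
  · intro b
    have hfo := first_order (A := ∑ s, z s b * Real.exp (p.2 b + p.1 s)) (l := lam (φ.symm b))
      (d := d) (c := p.2 b) (by
        intro r
        have h1 := hp (p.1, Function.update p.2 b (p.2 b + r))
        simp only at h1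
        rw [sinkF_swap φ z lam p.1 p.2, sinkF_swap φ z lam p.1 (Function.update _ _ _),
          sinkF_shift_left, sq_shift] at h1
        linarith)
    have he : ∑ s, Real.exp (p.1 s) * Real.exp (p.2 b) * z s b =
        ∑ s, z s b * Real.exp (p.2 b + p.1 s) := by
      refine Finset.sum_congr rfl fun t _ => ?_
      rw [Real.exp_add]; ring
    rw [he]
    have h2 : (∑ s, z s b * Real.exp (p.2 b + p.1 s)) - lam (φ.symm b) = -(2 * d * p.2 b) := by
      linarith
    rw [h2, abs_neg]
    apply hkey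
    have := Finset.single_le_sum (f := fun s => p.2 s ^ 2) (fun t _ => sq_nonneg _)
      (Finset.mem_univ b)
    linarith

end Sink

end R5

end
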