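import Mathlib
import Pool.Agent.Work.MP_8b6acb_co.Defs
import Pool.Agent.Work.MP_8b6acb_full.P01

section

/-! Integral bipartite transportation with edge capacities (from Hall's theorem) and the
decomposition of regular bipartite multigraphs into perfect matchings. -/

namespace MP_8b6acb_co

open Finset

variable {L R : Type*} [Fintype L] [Fintype R] [DecidableEq L] [DecidableEq R]

/-- Transportation theorem: if `∑_{x ∈ X} a x ≤ ∑_{y ∈ Y} b y + κ(X, Yᶜ)` for all `X, Y`, there is an
integral `f ≤ κ` with row sums `a` and column sums at most `b`. -/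
theorem transport (a : L → ℕ) (b : R → ℕ) (κ : L → R → ℕ)
    (h : ∀ (X : Finset L) (Y : Finset R),
      ∑ x ∈ X, a x ≤ ∑ y ∈ Y, b y + ∑ x ∈ X, ∑ y ∈ Yᶜ, κ x y) :
    ∃ f : L → R → ℕ, (∀ x y, f x y ≤ κ x y) ∧ (∀ x, ∑ y, f x y = a x) ∧
      ∀ y, ∑ x, f x y ≤ b y := by
  classical
  -- edge copies
  let E := (x : L) × (y : R) × Fin (κ x y)
  let Lt := ((x : L) × Fin (a x)) ⊕ E
  let Rt := ((y : R) × Fin (b y)) ⊕ E
  let t : Lt → Finset Rt := fun l => match l with
    | Sum.inl p => univ.filter (fun r => ∃ e : E, r = Sum.inr e ∧ e.1 = p.1)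
    | Sum.inr e => univ.filter (fun r => r = Sum.inr e ∨ ∃ p : (y : R) × Fin (b y), r = Sum.inl p ∧ p.1 = e.2.1)
  have hall : ∀ s : Finset Lt, s.card ≤ (s.biUnion t).card := by
    intro s
    let Xs : Finset L := univ.filter (fun x => ∃ i, Sum.inl ⟨x, i⟩ ∈ s)
    let Es : Finset E := univ.filter (fun e => Sum.inr e ∈ s)
    let Ys : Finset R := univ.filter (fun y => ∃ e ∈ Es, e.2.1 = y)
    let Eo : Finset E := univ.filter (fun e => e.1 ∈ Xs)
    have h1 : s.card ≤ ∑ x ∈ Xs, a x + Es.card := by
      have hsub : s ⊆ (Xs.sigma (fun x => (univ : Finset (Fin (a x))))).image Sum.inl ∪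
          Es.image Sum.inr := by
        intro l hl
        rcases l with p | e
        · simp only [mem_union, mem_image, mem_sigma, mem_univ, and_true]
          left
          refine ⟨p, ?_, rfl⟩
          simp only [Xs, mem_filter, mem_univ, true_and]
          exact ⟨p.2, hl⟩
        · simp only [mem_union, mem_image]
          right
          exact ⟨e, by simp only [Es, mem_filter, mem_univ, true_and]; exact hl, rfl⟩
      refine (card_le_card hsub).trans ((card_union_le _ _).trans ?_)
      refine Nat.add_le_add (card_image_le.trans ?_) card_image_le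
      rw [card_sigma]
      simp
    have h2 : ∑ y ∈ Ys, b y + (Eo ∪ Es).card ≤ (s.biUnion t).card := by
      have hsub : (Ys.sigma (fun y => (univ : Finset (Fin (b y))))).image Sum.inl ∪
          (Eo ∪ Es).image Sum.inr ⊆ s.biUnion t := by
        intro r hr
        simp only [mem_union, mem_image, mem_sigma, mem_univ, and_true] at hr
        rw [mem_biUnion]
        rcases hr with ⟨p, hp, rfl⟩ | ⟨e, he | he, rfl⟩
        · simp only [Ys, mem_filter, mem_univ, true_and] at hp
          obtain ⟨e, he, hey⟩ := hp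
          simp only [Es, mem_filter, mem_univ, true_and] at he
          refine ⟨Sum.inr e, he, ?_⟩
          simp only [t, mem_filter, mem_univ, true_and]
          right
          exact ⟨p, rfl, hey.symm⟩
        · simp only [Eo, Xs, mem_filter, mem_univ, true_and] at he
          obtain ⟨i, hi⟩ := he
          refine ⟨Sum.inl ⟨e.1, i⟩, hi, ?_⟩
          simp only [t, mem_filter, mem_univ, true_and]
          exact ⟨e, rfl, rfl⟩
        · simp only [Es, mem_filter, mem_univ, true_and] at he
          refine ⟨Sum.inr e, he, ?_⟩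
          simp only [t, mem_filter, mem_univ, true_and]
          left
          trivial
      have hd : Disjoint ((Ys.sigma (fun y => (univ : Finset (Fin (b y))))).image
          (Sum.inl : _ → Rt)) ((Eo ∪ Es).image (Sum.inr : _ → Rt)) := by
        rw [Finset.disjoint_left]
        intro r hr hr'
        simp only [mem_image] at hr hr'
        obtain ⟨p, _, rfl⟩ := hr
        obtain ⟨e, _, he⟩ := hr'
        exact absurd he (by simp)
      refine le_trans (le_of_eq ?_) (card_le_card hsub)
      rw [card_union_of_disjoint hd, card_image_of_injective _ Sum.inl_injective,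
        card_image_of_injective _ Sum.inr_injective, card_sigma]
      simp
    have h3 : ∑ x ∈ Xs, ∑ y ∈ Ysᶜ, κ x y ≤ (Eo \ Es).card := by
      have hsub : Xs.sigma (fun x => (Ysᶜ).sigma (fun y => (univ : Finset (Fin (κ x y))))) ⊆
          Eo \ Es := by
        rintro ⟨x, y, k⟩ he
        simp only [mem_sigma, mem_univ, and_true, mem_compl] at he
        rw [mem_sdiff]
        refine ⟨?_, ?_⟩
        · simp only [Eo, mem_filter, mem_univ, true_and]
          exact he.1
        · intro hes
          apply he.2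
          simp only [Ys, mem_filter, mem_univ, true_and]
          exact ⟨_, hes, rfl⟩
      refine le_trans (le_of_eq ?_) (card_le_card hsub)
      rw [card_sigma]
      refine sum_congr rfl (fun x _ => ?_)
      rw [card_sigma]
      simp
    have h4 := h Xs Ys
    have h5 : (Eo ∪ Es).card = (Eo \ Es).card + Es.card := by
      rw [card_sdiff_add_card]
    omega
  obtain ⟨F, hF, hFt⟩ := (Finset.all_card_le_biUnion_card_iff_exists_injective t).1 hall
  -- matched edge copies
  let U : Finset E := univ.filter (fun e => ∃ p : (x : L) × Fin (a x), F (Sum.inl p) = Sum.inr e)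
  have hinl : ∀ p : (x : L) × Fin (a x), ∃ e : E, F (Sum.inl p) = Sum.inr e ∧ e.1 = p.1 := by
    intro p
    have := hFt (Sum.inl p)
    simp only [t, mem_filter, mem_univ, true_and] at this
    exact this
  have hinr : ∀ e ∈ U, ∃ p : (y : R) × Fin (b y), F (Sum.inr e) = Sum.inl p ∧ p.1 = e.2.1 := by
    intro e he
    have := hFt (Sum.inr e)
    simp only [t, mem_filter, mem_univ, true_and] at this
    rcases this with h1 | h1
    · simp only [U, mem_filter, mem_univ, true_and] at he
      obtain ⟨p, hp⟩ := he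
      have := hF (hp.trans h1.symm)
      exact absurd this (by simp)
    · exact h1
  have hU : ∀ e, e ∈ U ↔ ∃ p : (x : L) × Fin (a x), F (Sum.inl p) = Sum.inr e := by
    intro e
    simp only [U, mem_filter, mem_univ, true_and]
  clear_value U
  refine ⟨fun x y => (U.filter (fun e => e.1 = x ∧ e.2.1 = y)).card, ?_, ?_, ?_⟩
  · intro x y
    have hinj : (U.filter (fun e => e.1 = x ∧ e.2.1 = y)).card ≤
        ((univ : Finset (Fin (κ x y))).image (fun k => (⟨x, y, k⟩ : E))).card := by
      apply card_le_card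
      rintro ⟨x', y', k⟩ he
      simp only [mem_filter] at he
      obtain ⟨_, rfl, rfl⟩ := he
      exact mem_image_of_mem _ (mem_univ _)
    exact hinj.trans (card_image_le.trans (by simp))
  · intro x
    have h1 : ∑ y, (U.filter (fun e => e.1 = x ∧ e.2.1 = y)).card =
        (U.filter (fun e => e.1 = x)).card := by
      rw [card_eq_sum_card_fiberwise (f := fun e : E => e.2.1) (t := univ) (fun _ _ => mem_coe.2 (mem_univ _))]
      refine sum_congr rfl (fun y _ => ?_)
      rw [filter_filter]
    rw [h1]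
    choose g hg hg1 using hinl
    have h2 : U.filter (fun e => e.1 = x) = (univ : Finset (Fin (a x))).image (fun i => g ⟨x, i⟩) := by
      ext e
      simp only [mem_filter, hU, mem_univ, true_and, mem_image]
      constructor
      · rintro ⟨⟨p, hp⟩, rfl⟩
        have h3 : g p = e := by
          have := (hg p).symm.trans hp
          exact Sum.inr_injective this
        subst h3
        obtain ⟨x', i⟩ := p
        have h4 : (g ⟨x', i⟩).1 = x' := hg1 ⟨x', i⟩
        rw [h4]
        exact ⟨i, rfl⟩
      · rintro ⟨i, rfl⟩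
        exact ⟨⟨_, hg _⟩, hg1 _⟩
    rw [h2, card_image_of_injective, card_univ, Fintype.card_fin]
    intro i i' hii
    have h3 : F (Sum.inl ⟨x, i⟩) = F (Sum.inl ⟨x, i'⟩) := by
      rw [hg, hg]
      exact congrArg Sum.inr hii
    have h4 := Sum.inl_injective (hF h3)
    exact eq_of_heq (Sigma.mk.inj_iff.1 h4).2
  · intro y
    have h1 : ∑ x, (U.filter (fun e => e.1 = x ∧ e.2.1 = y)).card =
        (U.filter (fun e => e.2.1 = y)).card := by
      rw [card_eq_sum_card_fiberwise (f := fun e : E => e.1) (t := univ) (fun _ _ => mem_coe.2 (mem_univ _))]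
      refine sum_congr rfl (fun x _ => ?_)
      rw [filter_filter]
      congr 1
      ext e
      simp only [mem_filter]
      tauto
    rw [h1]
    have h2 : ((U.filter (fun e => e.2.1 = y)).image (fun e => F (Sum.inr e))).card ≤
        ((univ : Finset (Fin (b y))).image (fun i => (Sum.inl ⟨y, i⟩ : Rt))).card := by
      apply card_le_card
      intro r hr
      simp only [mem_image, mem_filter] at hr
      obtain ⟨e, ⟨he, rfl⟩, rfl⟩ := hr
      obtain ⟨⟨y', i⟩, hp, hpy⟩ := hinr e he
      simp only at hpy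
      subst hpy
      rw [hp]
      exact mem_image_of_mem _ (mem_univ _)
    rw [card_image_of_injective] at h2
    · exact h2.trans (card_image_le.trans (by simp))
    · intro e e' hee
      exact Sum.inr_injective (hF hee)

omit [DecidableEq L] in
/-- A `q`-regular bipartite multigraph decomposes into `q` perfect matchings. -/
theorem decompose (q : ℕ) (hLR : Fintype.card L = Fintype.card R) (f : L → R → ℕ)
    (hrow : ∀ x, ∑ y, f x y = q) (hcol : ∀ y, ∑ x, f x y ≤ q) :
    ∃ g : Fin q → L → R, (∀ c, Function.Bijective (g c)) ∧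
      ∀ x y, (univ.filter (fun c => g c x = y)).card = f x y := by
  classical
  induction q generalizing f with
  | zero =>
    refine ⟨fun c => c.elim0, fun c => c.elim0, fun x y => ?_⟩
    have h1 := hrow x
    rw [sum_eq_zero_iff] at h1
    rw [h1 y (mem_univ _)]
    simp
  | succ q ih =>
    -- a perfect matching in the support
    have hall : ∀ s : Finset L, s.card ≤ (s.biUnion (fun x => univ.filter (fun y => f x y ≠ 0))).card := by
      intro s
      have h1 : s.card * (q + 1) = ∑ x ∈ s, ∑ y, f x y := by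
        rw [sum_congr rfl (fun x _ => hrow x)]
        simp
      have h2 : ∑ x ∈ s, ∑ y, f x y =
          ∑ x ∈ s, ∑ y ∈ s.biUnion (fun x => univ.filter (fun y => f x y ≠ 0)), f x y := by
        refine sum_congr rfl (fun x hx => ?_)
        symm
        apply sum_subset (subset_univ _)
        intro y _ hy
        by_contra hne
        apply hy
        rw [mem_biUnion]
        exact ⟨x, hx, by simp [hne]⟩
      rw [h2, sum_comm] at h1
      have h3 : ∑ y ∈ s.biUnion (fun x => univ.filter (fun y => f x y ≠ 0)), ∑ x ∈ s, f x y ≤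
          ∑ y ∈ s.biUnion (fun x => univ.filter (fun y => f x y ≠ 0)), (q + 1) := by
        refine sum_le_sum (fun y _ => le_trans ?_ (hcol y))
        exact sum_le_sum_of_subset (subset_univ _)
      rw [sum_const, smul_eq_mul] at h3
      rw [← h1] at h3
      exact Nat.le_of_mul_le_mul_right h3 (Nat.succ_pos q)
    obtain ⟨p, hp, hpt⟩ := (Finset.all_card_le_biUnion_card_iff_exists_injective _).1 hall
    have hpb : Function.Bijective p := (Fintype.bijective_iff_injective_and_card p).2 ⟨hp, hLR⟩
    have hp1 : ∀ x, 1 ≤ f x (p x) := by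
      intro x
      have := hpt x
      simp only [mem_filter, mem_univ, true_and] at this
      omega
    let f' : L → R → ℕ := fun x y => if p x = y then f x y - 1 else f x y
    have hf' : ∀ x y, f' x y + (if p x = y then 1 else 0) = f x y := by
      intro x y
      simp only [f']
      split_ifs with h
      · subst h; have := hp1 x; omega
      · rfl
    have hrow' : ∀ x, ∑ y, f' x y = q := by
      intro x
      have h1 : ∑ y, f' x y + ∑ y, (if p x = y then 1 else 0) = q + 1 := by
        rw [← sum_add_distrib, ← hrow x]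
        exact sum_congr rfl (fun y _ => hf' x y)
      rw [sum_ite_eq] at h1
      simp only [mem_univ, if_true] at h1
      omega
    have hcol' : ∀ y, ∑ x, f' x y ≤ q := by
      intro y
      have h1 : ∑ x, f' x y + ∑ x, (if p x = y then 1 else 0) ≤ q + 1 := by
        rw [← sum_add_distrib]
        refine le_trans (le_of_eq ?_) (hcol y)
        exact sum_congr rfl (fun x _ => hf' x y)
      obtain ⟨x0, hx0⟩ := hpb.2 y
      have h2 : 1 ≤ ∑ x, (if p x = y then 1 else 0) := by
        refine le_trans ?_ (single_le_sum (f := fun x => if p x = y then 1 else 0)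
          (fun _ _ => Nat.zero_le _) (mem_univ x0))
        simp [hx0]
      omega
    obtain ⟨g, hg, hgf⟩ := ih f' hrow' hcol'
    refine ⟨Fin.cons p g, ?_, ?_⟩
    · intro c
      refine Fin.cases ?_ (fun c => ?_) c
      · simpa using hpb
      · simpa using hg c
    · intro x y
      rw [← hf' x y, ← hgf x y]
      rw [card_filter, card_filter, Fin.sum_univ_succ]
      simp only [Fin.cons_zero, Fin.cons_succ]
      rw [add_comm]

end MP_8b6acb_co

end

section

/-! Flows in the middle layers of the directed hypercube. -/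

set_option linter.unusedSectionVars false

namespace MP_8b6acb_co

open Finset

variable {α : Type*} [Fintype α] [DecidableEq α]

/-- The layers strictly between `i` and `j`. -/
def Mid (i j : ℕ) : Finset (Finset α) := univ.filter fun v => i < v.card ∧ v.card < j

theorem mem_Mid {i j : ℕ} {v : Finset α} : v ∈ Mid i j ↔ i < v.card ∧ v.card < j := by
  simp [Mid]

/-- The number of lower covers of `v` in `A`. -/
def dg (A : Finset (Finset α)) (v : Finset α) : ℕ := (v.filter fun a => v.erase a ∈ A).card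

theorem dg_eq_sum (A : Finset (Finset α)) (v : Finset α) :
    dg A v = ∑ a, if a ∈ v then (if v.erase a ∈ A then 1 else 0) else 0 := by
  unfold dg
  rw [card_filter, ← Finset.sum_filter (s := univ) (p := fun a => a ∈ v)]
  refine sum_congr ?_ (fun _ _ => rfl)
  ext a
  simp

theorem dg_mono {A A' : Finset (Finset α)} {v : Finset α}
    (h : ∀ a ∈ v, v.erase a ∈ A → v.erase a ∈ A') : dg A v ≤ dg A' v := by
  unfold dg
  apply card_le_card
  intro a ha
  rw [mem_filter] at ha ⊢
  exact ⟨ha.1, h a ha.1 ha.2⟩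

theorem sum_mem {β : Type*} [AddCommMonoid β] (D : Finset (Finset α)) (F : Finset α → β) :
    ∑ v, (if v ∈ D then F v else 0) = ∑ v ∈ D, F v := by
  rw [← sum_filter]
  refine sum_congr ?_ (fun _ _ => rfl)
  ext; simp

/-- Inflow. -/
def inf (M : Finset α → α → ℕ) (v : Finset α) : ℕ := ∑ a, if a ∈ v then M (v.erase a) a else 0

/-- An integral flow with vertex capacity `q` and edge capacity `1`. -/
structure IsFlow (q i j : ℕ) (S T : Finset (Finset α)) (a b : Finset α → ℕ)
    (M : Finset α → α → ℕ) : Prop where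
  le_one : ∀ u x, M u x ≤ 1
  val : ∀ u x, x ∈ u → M u x = 0
  tail : ∀ u x, M u x ≠ 0 → u ∈ S ∨ u ∈ Mid i j
  head : ∀ u x, M u x ≠ 0 → insert x u ∈ Mid i j ∨ insert x u ∈ T
  src : ∀ s ∈ S, ∑ x, M s x = a s
  mid : ∀ v ∈ Mid i j, ∑ x, M v x = inf M v
  mid_le : ∀ v ∈ Mid i j, ∑ x, M v x ≤ q
  snk : ∀ t ∈ T, inf M t = b t

/-- `v` covers `u`. -/
def Cov (u v : Finset α) : Prop := ∃ a, a ∉ u ∧ insert a u = v

instance (u v : Finset α) : Decidable (Cov u v) := by unfold Cov; infer_instance

theorem sum_cov {β : Type*} [AddCommMonoid β] (u : Finset α) (F : Finset α → β) :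
    ∑ v, (if Cov u v then F v else 0) = ∑ a, if a ∉ u then F (insert a u) else 0 := by
  rw [← sum_filter, ← sum_filter]
  symm
  refine sum_bij (fun a _ => insert a u) ?_ ?_ ?_ ?_
  · intro a ha
    simp only [mem_filter, mem_univ, true_and] at ha ⊢
    exact ⟨a, ha, rfl⟩
  · intro a ha b hb h
    simp only [mem_filter, mem_univ, true_and] at ha hb
    have : a ∈ insert b u := by rw [← h]; exact mem_insert_self _ _
    rw [mem_insert] at this
    rcases this with h | h
    · exact h
    · exact absurd h ha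
  · intro v hv
    simp only [mem_filter, mem_univ, true_and] at hv
    obtain ⟨a, ha, rfl⟩ := hv
    exact ⟨a, by simpa using ha, rfl⟩
  · intro a _; rfl

theorem sum_cov' {β : Type*} [AddCommMonoid β] (v : Finset α) (F : Finset α → β) :
    ∑ u, (if Cov u v then F u else 0) = ∑ a, if a ∈ v then F (v.erase a) else 0 := by
  rw [← sum_filter, ← sum_filter]
  symm
  refine sum_bij (fun a _ => v.erase a) ?_ ?_ ?_ ?_
  · intro a ha
    simp only [mem_filter, mem_univ, true_and] at ha ⊢
    exact ⟨a, by simp, insert_erase ha⟩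
  · intro a ha b hb h
    simp only [mem_filter, mem_univ, true_and] at ha hb
    by_contra hne
    have : a ∈ v.erase b := mem_erase.2 ⟨hne, ha⟩
    rw [← h] at this
    simp at this
  · intro u hu
    simp only [mem_filter, mem_univ, true_and] at hu
    obtain ⟨a, ha, rfl⟩ := hu
    exact ⟨a, by simp, erase_insert ha⟩
  · intro a _; rfl

theorem Cov.ne {u v : Finset α} (h : Cov u v) : u ≠ v := by
  obtain ⟨a, ha, rfl⟩ := h
  intro h
  rw [h] at ha
  exact ha (mem_insert_self _ _)

/-- Existence of flows from the cut condition. -/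
theorem exists_flow (q i j : ℕ) (S T : Finset (Finset α)) (hS : ∀ s ∈ S, s.card = i)
    (hT : ∀ t ∈ T, t.card = j) (hij : i < j) (a b : Finset α → ℕ)
    (hab : ∑ s ∈ S, a s = ∑ t ∈ T, b t)
    (hcut : ∀ A : Finset (Finset α), (∀ u ∈ A, u ∈ S ∨ u ∈ Mid i j) →
      ∑ s ∈ S, (if s ∈ A then a s else 0) ≤
        ∑ v ∈ Mid i j, (if v ∈ A then 0 else min q (dg A v)) + ∑ t ∈ T, min (b t) (dg A t)) :
    ∃ M, IsFlow q i j S T a b M := by
  classical
  have hSM : ∀ s ∈ S, s ∉ Mid i j := by
    intro s hs hm
    rw [mem_Mid, hS s hs] at hm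
    omega
  have hTM : ∀ t ∈ T, t ∉ Mid i j := by
    intro t ht hm
    rw [mem_Mid, hT t ht] at hm
    omega
  have hTS : ∀ t ∈ T, t ∉ S := by
    intro t ht hm
    have h1 := hS t hm
    have h2 := hT t ht
    omega
  let a' : Finset α → ℕ := fun u => (if u ∈ S then a u else 0) + (if u ∈ Mid i j then q else 0)
  let b' : Finset α → ℕ := fun u => (if u ∈ T then b u else 0) + (if u ∈ Mid i j then q else 0)
  let κ : Finset α → Finset α → ℕ := fun u v => (if u = v then (if u ∈ Mid i j then q else 0) else 0)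
    + if Cov u v then (if (u ∈ S ∨ u ∈ Mid i j) ∧ (v ∈ Mid i j ∨ v ∈ T) then 1 else 0) else 0
  have hall : ∀ (X Y : Finset (Finset α)),
      ∑ x ∈ X, a' x ≤ ∑ y ∈ Y, b' y + ∑ x ∈ X, ∑ y ∈ Yᶜ, κ x y := by
    intro X Y
    let A := X.filter (fun u => u ∈ S ∨ u ∈ Mid i j)
    have hA : ∀ u ∈ A, u ∈ S ∨ u ∈ Mid i j := fun u hu => (mem_filter.1 hu).2
    have h1 := hcut A hA
    have h2 : ∑ x ∈ X, a' x = ∑ s ∈ S, (if s ∈ A then a s else 0) +
        ∑ v ∈ Mid i j, (if v ∈ A then q else 0) := by
      simp only [a']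
      rw [sum_add_distrib]
      congr 1
      · rw [← sum_filter, ← sum_filter]
        refine sum_congr ?_ (fun _ _ => rfl)
        ext u
        simp only [A, mem_filter]
        tauto
      · rw [← sum_filter, ← sum_filter]
        refine sum_congr ?_ (fun _ _ => rfl)
        ext u
        simp only [A, mem_filter]
        tauto
    have h3 : ∑ y ∈ Y, b' y + ∑ x ∈ X, ∑ y ∈ Yᶜ, κ x y =
        ∑ v, (if v ∈ Y then b' v else ∑ x ∈ X, κ x v) := by
      rw [sum_comm (s := X), ← sum_add_sum_compl Y]
      congr 1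
      · refine sum_congr rfl (fun v hv => ?_)
        rw [if_pos hv]
      · refine sum_congr rfl (fun v hv => ?_)
        rw [if_neg (mem_compl.1 hv)]
    have h4 : ∀ v : Finset α, (if v ∈ Mid i j then (if v ∈ A then q else 0) else 0) +
        (if v ∈ Mid i j then (if v ∈ A then 0 else min q (dg A v)) else 0) +
        (if v ∈ T then min (b v) (dg A v) else 0) ≤ (if v ∈ Y then b' v else ∑ x ∈ X, κ x v) := by
      intro v
      have hκ : v ∈ Mid i j ∨ v ∈ T → dg A v ≤ ∑ x ∈ X, (if Cov x v then
          (if (x ∈ S ∨ x ∈ Mid i j) ∧ (v ∈ Mid i j ∨ v ∈ T) then 1 else 0) else 0) := by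
        intro hv
        have e1 : dg A v = ∑ u, (if Cov u v then (if u ∈ A then 1 else 0) else 0) := by
          rw [dg_eq_sum, sum_cov' v (fun u => if u ∈ A then 1 else 0)]
        rw [e1]
        have e2 : ∑ x ∈ X, (if Cov x v then
          (if (x ∈ S ∨ x ∈ Mid i j) ∧ (v ∈ Mid i j ∨ v ∈ T) then 1 else 0) else 0) =
            ∑ x, (if x ∈ X then (if Cov x v then
          (if (x ∈ S ∨ x ∈ Mid i j) ∧ (v ∈ Mid i j ∨ v ∈ T) then 1 else 0) else 0) else 0) := by
          exact (sum_mem X _).symm
        rw [e2]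
        refine sum_le_sum (fun u _ => ?_)
        by_cases hc : Cov u v
        · by_cases hu : u ∈ A
          · have := mem_filter.1 hu
            simp only [hc, hu, if_true, this.1]
            rw [if_pos ⟨this.2, hv⟩]
          · simp [hu]
        · simp [hc]
      have hκ2 : ∑ x ∈ X, κ x v = (if v ∈ X then (if v ∈ Mid i j then q else 0) else 0) +
          ∑ x ∈ X, (if Cov x v then
          (if (x ∈ S ∨ x ∈ Mid i j) ∧ (v ∈ Mid i j ∨ v ∈ T) then 1 else 0) else 0) := by
        simp only [κ]
        rw [sum_add_distrib]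
        congr 1
        rw [sum_ite_eq' X v (fun x => if x ∈ Mid i j then q else 0)]
      by_cases hY : v ∈ Y
      · rw [if_pos hY]
        simp only [b']
        by_cases hM : v ∈ Mid i j
        · have hT' : v ∉ T := fun ht => hTM v ht hM
          simp only [hM, if_true, hT', if_false]
          by_cases hvA : v ∈ A <;> simp [hvA]
        · by_cases hT' : v ∈ T
          · simp [hM, hT']
          · simp [hM, hT']
      · rw [if_neg hY, hκ2]
        by_cases hM : v ∈ Mid i j
        · have hT' : v ∉ T := fun ht => hTM v ht hM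
          simp only [hM, if_true, hT', if_false]
          by_cases hvA : v ∈ A
          · have hvX : v ∈ X := (mem_filter.1 hvA).1
            simp [hvA, hvX]
          · have := hκ (Or.inl hM)
            simp only [hM, hT', and_true, or_false] at this ⊢
            simp only [hvA, if_false]
            omega
        · by_cases hT' : v ∈ T
          · have := hκ (Or.inr hT')
            simp only [hM, hT', or_true, and_true] at this ⊢
            simp only [if_true, if_false]
            omega
          · simp [hM, hT']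
    have h5 := sum_le_sum (fun v (_ : v ∈ (univ : Finset (Finset α))) => h4 v)
    rw [sum_add_distrib, sum_add_distrib] at h5
    have e3 : ∀ (D : Finset (Finset α)) (F : Finset α → ℕ),
        ∑ v, (if v ∈ D then F v else 0) = ∑ v ∈ D, F v := fun D F => sum_mem D F
    rw [e3, e3, e3] at h5
    rw [h2, h3]
    omega
  obtain ⟨f, hf1, hf2, hf3⟩ := transport a' b' κ hall
  have hsum : ∑ v, ∑ u, f u v = ∑ v, b' v := by
    rw [sum_comm]
    rw [sum_congr rfl (fun u _ => hf2 u)]
    simp only [a', b']
    rw [sum_add_distrib, sum_add_distrib]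
    congr 1
    have e3 : ∀ (D : Finset (Finset α)) (F : Finset α → ℕ),
        ∑ v, (if v ∈ D then F v else 0) = ∑ v ∈ D, F v := fun D F => sum_mem D F
    rw [e3, e3, hab]
  have hcol : ∀ v, ∑ u, f u v = b' v := by
    have := (sum_eq_sum_iff_of_le (fun v _ => hf3 v)).1 hsum
    exact fun v => this v (mem_univ _)
  have hoff : ∀ u v, u ≠ v → ¬ Cov u v → f u v = 0 := by
    intro u v h1 h2
    have := hf1 u v
    simp only [κ, h1, h2, if_false] at this
    omega
  have hrow' : ∀ u, ∑ v, f u v = f u u + ∑ x, (if x ∉ u then f u (insert x u) else 0) := by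
    intro u
    rw [← sum_cov u (fun v => f u v)]
    have : f u u = ∑ v, (if v = u then f u v else 0) := by simp
    rw [this, ← sum_add_distrib]
    refine sum_congr rfl (fun v _ => ?_)
    by_cases h1 : v = u
    · subst h1
      have : ¬ Cov v v := fun h => h.ne rfl
      simp [this]
    · by_cases h2 : Cov u v
      · simp [h1, h2]
      · simp [h1, h2, hoff u v (Ne.symm h1) h2]
  have hcol' : ∀ v, ∑ u, f u v = f v v + ∑ x, (if x ∈ v then f (v.erase x) v else 0) := by
    intro v
    rw [← sum_cov' v (fun u => f u v)]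
    have : f v v = ∑ u, (if u = v then f u v else 0) := by simp
    rw [this, ← sum_add_distrib]
    refine sum_congr rfl (fun u _ => ?_)
    by_cases h1 : u = v
    · subst h1
      have : ¬ Cov u u := fun h => h.ne rfl
      simp [this]
    · by_cases h2 : Cov u v
      · simp [h1, h2]
      · simp [h1, h2, hoff u v h1 h2]
  have hκ1 : ∀ u x, x ∉ u → f u (insert x u) ≤
      if (u ∈ S ∨ u ∈ Mid i j) ∧ (insert x u ∈ Mid i j ∨ insert x u ∈ T) then 1 else 0 := by
    intro u x hx
    have h1 := hf1 u (insert x u)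
    have h2 : Cov u (insert x u) := ⟨x, hx, rfl⟩
    simp only [κ, h2, h2.ne, if_true, if_false] at h1
    omega
  have hinf : ∀ v, inf (fun u x => if x ∉ u then f u (insert x u) else 0) v =
      ∑ x, (if x ∈ v then f (v.erase x) v else 0) := by
    intro v
    unfold inf
    refine sum_congr rfl (fun x _ => ?_)
    by_cases hx : x ∈ v
    · simp [hx, insert_erase hx]
    · simp [hx]
  refine ⟨fun u x => if x ∉ u then f u (insert x u) else 0, ?_, ?_, ?_, ?_, ?_, ?_, ?_, ?_⟩
  · intro u x
    by_cases hx : x ∉ u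
    · simp only [hx, not_false_eq_true, if_true]
      have := hκ1 u x hx
      split_ifs at this <;> omega
    · simp only [hx, if_false]
      omega
  · intro u x hx
    simp [hx]
  · intro u x h
    by_cases hx : x ∉ u
    · simp only [hx, not_false_eq_true, if_true] at h
      have := hκ1 u x hx
      split_ifs at this with hc
      · exact hc.1
      · omega
    · simp only [hx, if_false] at h
      exact absurd rfl h
  · intro u x h
    by_cases hx : x ∉ u
    · simp only [hx, not_false_eq_true, if_true] at h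
      have := hκ1 u x hx
      split_ifs at this with hc
      · exact hc.2
      · omega
    · simp only [hx, if_false] at h
      exact absurd rfl h
  · intro s hs
    have h1 := hf2 s
    rw [hrow' s] at h1
    have h2 := hf1 s s
    have h3 : ¬ Cov s s := fun h => h.ne rfl
    simp only [κ, hSM s hs, h3, if_true, if_false] at h2
    simp only [a', hs, hSM s hs, if_true, if_false] at h1
    omega
  · intro v hv
    have h1 := hf2 v
    rw [hrow' v] at h1
    have h2 := hcol v
    rw [hcol' v] at h2
    have h3 : v ∉ S := fun h => hSM v h hv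
    have h4 : v ∉ T := fun h => hTM v h hv
    simp only [a', b', hv, h3, h4, if_true, if_false] at h1 h2
    rw [hinf]
    omega
  · intro v hv
    have h1 := hf2 v
    rw [hrow' v] at h1
    have h3 : v ∉ S := fun h => hSM v h hv
    simp only [a', hv, h3, if_true, if_false] at h1
    omega
  · intro t ht
    have h1 := hcol t
    rw [hcol' t] at h1
    have h2 := hf1 t t
    have h3 : ¬ Cov t t := fun h => h.ne rfl
    simp only [κ, hTM t ht, h3, if_true, if_false] at h2
    simp only [b', ht, hTM t ht, if_true, if_false] at h1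
    rw [hinf]
    omega

end MP_8b6acb_co

end

section

/-! Cuts of the middle layers, and flows saturating them. -/

set_option linter.unusedSectionVars false

namespace MP_8b6acb_co

open Finset

variable {α : Type*} [Fintype α] [DecidableEq α]

/-- The cost of the cut `A`. -/
def cost (q i j : ℕ) (T A : Finset (Finset α)) : ℕ :=
  ∑ v : Finset α, if (v ∈ Mid i j ∨ v ∈ T) ∧ v ∉ A then min q (dg A v) else 0

/-- Vertices outside `A` all of whose edges from `A` are cut. -/
def Bset (q i j : ℕ) (T A : Finset (Finset α)) : Finset (Finset α) :=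
  univ.filter fun v => (v ∈ Mid i j ∨ v ∈ T) ∧ v ∉ A ∧ dg A v ≤ q

theorem mem_B {q i j : ℕ} {T A : Finset (Finset α)} {v : Finset α} :
    v ∈ Bset q i j T A ↔ (v ∈ Mid i j ∨ v ∈ T) ∧ v ∉ A ∧ dg A v ≤ q := by simp [Bset]

end MP_8b6acb_co

end

section

/-! Minimal counterexamples to the cut condition. -/

set_option linter.unusedSectionVars false

namespace MP_8b6acb_co

open Finset

variable {α : Type*} [Fintype α] [DecidableEq α]

/-- A matched pair `S`, `T = S.image φ`. -/
structure Mat (i j : ℕ) (S : Finset (Finset α)) (φ : Finset α → Finset α) : Prop where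
  cS : ∀ s ∈ S, s.card = i
  cT : ∀ s ∈ S, (φ s).card = j
  inj : Set.InjOn φ S
  sub : ∀ s ∈ S, s ⊆ φ s

variable (α) in
/-- The cut condition for all matched pairs between layers `i` and `j`. -/
def PP (q i j : ℕ) : Prop :=
  ∀ (S : Finset (Finset α)) (φ : Finset α → Finset α), Mat i j S φ →
    ∀ A : Finset (Finset α), S ⊆ A → (∀ u ∈ A, u ∈ S ∨ u ∈ Mid i j) →
      q * S.card ≤ cost q i j (S.image φ) A

/-- A minimal counterexample together with a maximally violating cut. -/
structure MinCex (q i j : ℕ) (S : Finset (Finset α)) (φ : Finset α → Finset α)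
    (A : Finset (Finset α)) : Prop where
  mat : Mat i j S φ
  SA : S ⊆ A
  Amem : ∀ u ∈ A, u ∈ S ∨ u ∈ Mid i j
  viol : cost q i j (S.image φ) A < q * S.card
  minS : ∀ S' ⊂ S, ∀ A' : Finset (Finset α), S' ⊆ A' → (∀ u ∈ A', u ∈ S' ∨ u ∈ Mid i j) →
    q * S'.card ≤ cost q i j (S'.image φ) A'
  minA : ∀ A' : Finset (Finset α), S ⊆ A' → (∀ u ∈ A', u ∈ S ∨ u ∈ Mid i j) →
    cost q i j (S.image φ) A ≤ cost q i j (S.image φ) A'

theorem Mat.mono {i j : ℕ} {S S' : Finset (Finset α)} {φ : Finset α → Finset α}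
    (h : Mat i j S φ) (hS : S' ⊆ S) : Mat i j S' φ :=
  ⟨fun s hs => h.cS s (hS hs), fun s hs => h.cT s (hS hs),
    h.inj.mono (by exact_mod_cast hS), fun s hs => h.sub s (hS hs)⟩

/-- Number of upper covers of `s` in `B`. -/
def ub (B : Finset (Finset α)) (s : Finset α) : ℕ := (univ.filter (fun b => b ∉ s ∧ insert b s ∈ B)).card

theorem ub_eq_sum (B : Finset (Finset α)) (s : Finset α) :
    ub B s = ∑ v, (if Cov s v then (if v ∈ B then 1 else 0) else 0) := by
  rw [sum_cov s (fun v => if v ∈ B then 1 else 0)]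
  unfold ub
  rw [card_filter]
  refine sum_congr rfl (fun a _ => ?_)
  by_cases h1 : a ∈ s <;> by_cases h2 : insert a s ∈ B <;> simp [h1, h2]

theorem dg_erase {A : Finset (Finset α)} {s v : Finset α} (hs : s ∈ A) (hc : Cov s v) :
    dg (A.erase s) v + 1 ≤ dg A v := by
  obtain ⟨a, ha, rfl⟩ := hc
  unfold dg
  have h1 : (insert a s).filter (fun x => (insert a s).erase x ∈ A.erase s) ⊆
      ((insert a s).filter (fun x => (insert a s).erase x ∈ A)).erase a := by
    intro x hx
    simp only [mem_filter, mem_erase] at hx ⊢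
    refine ⟨?_, hx.1, hx.2.2⟩
    rintro rfl
    apply hx.2.1
    rw [erase_insert ha]
  have h2 : a ∈ (insert a s).filter (fun x => (insert a s).erase x ∈ A) := by
    simp only [mem_filter, mem_insert_self, true_and]
    rw [erase_insert ha]
    exact hs
  have h3 := card_le_card h1
  have h4 := card_erase_add_one h2
  omega

theorem cost_eq {q i j : ℕ} {T A : Finset (Finset α)} (hT : ∀ t ∈ T, t.card = j)
    (hA : ∀ u ∈ A, u.card < j) :
    cost q i j T A = ∑ v ∈ Mid i j, (if v ∈ A then 0 else min q (dg A v)) +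
      ∑ t ∈ T, min q (dg A t) := by
  unfold cost
  rw [← sum_mem (Mid i j), ← sum_mem T, ← sum_add_distrib]
  refine sum_congr rfl (fun v _ => ?_)
  by_cases h1 : v ∈ Mid i j
  · have h2 : v ∉ T := by
      intro h
      have := hT v h
      rw [mem_Mid] at h1
      omega
    by_cases h3 : v ∈ A <;> simp [h1, h2, h3]
  · by_cases h2 : v ∈ T
    · have h3 : v ∉ A := by
        intro h
        have h4 := hA v h
        have h5 := hT v h2
        omega
      simp [h1, h2, h3]
    · simp [h1, h2]

variable {q i j : ℕ} {S A : Finset (Finset α)} {φ : Finset α → Finset α}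

theorem MinCex.cardA (h : MinCex q i j S φ A) (hij : i < j) : ∀ u ∈ A, u.card < j := by
  intro u hu
  rcases h.Amem u hu with h1 | h1
  · rw [h.mat.cS u h1]; exact hij
  · rw [mem_Mid] at h1; exact h1.2

theorem MinCex.cardT (h : MinCex q i j S φ A) : ∀ t ∈ S.image φ, t.card = j := by
  intro t ht
  rw [mem_image] at ht
  obtain ⟨s, hs, rfl⟩ := ht
  exact h.mat.cT s hs

theorem MinCex.own (h : MinCex q i j S φ A) (h2 : i + 2 ≤ j) {s : Finset α} (hs : s ∈ S) :
    ub (Bset q i j (S.image φ) A) s + min q (dg A (φ s)) + q * S.card ≤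
      cost q i j (S.image φ) A + q := by
  have hss : S.erase s ⊂ S := erase_ssubset hs
  have h3 := h.minS _ hss (A.erase s) (erase_subset_erase s h.SA) (by
    intro u hu
    rw [mem_erase] at hu
    rcases h.Amem u hu.2 with h4 | h4
    · exact Or.inl (mem_erase.2 ⟨hu.1, h4⟩)
    · exact Or.inr h4)
  rw [card_erase_of_mem hs] at h3
  have hpos : 0 < S.card := card_pos.2 ⟨s, hs⟩
  have h5 : cost q i j ((S.erase s).image φ) (A.erase s) + ub (Bset q i j (S.image φ) A) s +
      min q (dg A (φ s)) ≤ cost q i j (S.image φ) A := by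
    rw [ub_eq_sum]
    have e1 : min q (dg A (φ s)) = ∑ v, (if v = φ s then min q (dg A v) else 0) := by simp
    rw [e1]
    unfold cost
    rw [← sum_add_distrib, ← sum_add_distrib]
    refine sum_le_sum (fun v _ => ?_)
    have hsc := h.mat.cS s hs
    have htc := h.mat.cT s hs
    by_cases hv1 : v = s
    · subst hv1
      have a1 : v ∉ Mid i j := by rw [mem_Mid]; omega
      have a2 : v ∉ (S.erase v).image φ := by
        intro hm
        rw [mem_image] at hm
        obtain ⟨s', hs', he⟩ := hm
        have := h.mat.cT s' (mem_of_mem_erase hs')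
        rw [he] at this
        omega
      have a3 : ¬ Cov v v := fun hc => hc.ne rfl
      have a4 : v ≠ φ v := by
        intro he
        rw [← he] at htc
        omega
      simp [a1, a2, a3, a4]
    · by_cases hv2 : v = φ s
      · have a1 : v ∉ Mid i j := by rw [mem_Mid, hv2]; omega
        have a2 : v ∉ (S.erase s).image φ := by
          intro hm
          rw [mem_image] at hm
          obtain ⟨s', hs', he⟩ := hm
          rw [hv2] at he
          have := h.mat.inj (mem_coe.2 (mem_of_mem_erase hs')) (mem_coe.2 hs) he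
          exact (mem_erase.1 hs').1 this
        have a3 : ¬ Cov s v := by
          rintro ⟨a, ha, he⟩
          have := card_insert_of_notMem ha
          rw [he, hv2] at this
          omega
        have a4 : v ∈ S.image φ := by rw [hv2]; exact mem_image_of_mem _ hs
        have a5 : v ∉ A := by
          intro hA
          have := h.cardA (by omega) v hA
          rw [hv2] at this
          omega
        rw [if_neg (fun hh => hh.1.elim a1 a2), if_neg a3, if_pos hv2, if_pos ⟨Or.inr a4, a5⟩]
        simp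
      · have b1 : v ∉ A.erase s ↔ v ∉ A := by
          rw [mem_erase]; tauto
        have b2 : v ∈ (S.erase s).image φ → v ∈ S.image φ := by
          intro hm
          exact image_subset_image (erase_subset _ _) hm
        have b3 : v ∈ S.image φ → v ∈ (S.erase s).image φ := by
          intro hm
          rw [mem_image] at hm ⊢
          obtain ⟨s', hs', he⟩ := hm
          refine ⟨s', mem_erase.2 ⟨?_, hs'⟩, he⟩
          rintro rfl
          exact hv2 he.symm
        have b4 : v ∈ (S.erase s).image φ ↔ v ∈ S.image φ := ⟨b2, b3⟩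
        simp only [b1, b4, if_neg hv2, add_zero]
        by_cases hc : (v ∈ Mid i j ∨ v ∈ S.image φ) ∧ v ∉ A
        · rw [if_pos hc, if_pos hc]
          by_cases hcov : Cov s v
          · have hd := dg_erase (h.SA hs) hcov
            rw [if_pos hcov]
            by_cases hB : v ∈ Bset q i j (S.image φ) A
            · rw [if_pos hB]
              rw [mem_B] at hB
              omega
            · rw [if_neg hB]
              omega
          · rw [if_neg hcov, add_zero]
            apply min_le_min_left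
            exact dg_mono (fun a _ ha => mem_of_mem_erase ha)
        · rw [if_neg hc, if_neg hc]
          have hB : v ∉ Bset q i j (S.image φ) A := by
            intro hB
            rw [mem_B] at hB
            exact hc ⟨hB.1, hB.2.1⟩
          simp [hB]
  have h6 : q * (S.card - 1) + q = q * S.card := by
    rw [← Nat.mul_succ]
    congr 1
    omega
  omega

theorem MinCex.dgT (h : MinCex q i j S φ A) (h2 : i + 2 ≤ j) {s : Finset α} (hs : s ∈ S) :
    dg A (φ s) < q := by
  have h1 := h.own h2 hs
  have h3 := h.viol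
  omega

end MP_8b6acb_co

end

section

/-! From the cut condition to edge-disjoint families of path systems. -/

set_option linter.unusedSectionVars false

namespace MP_8b6acb_co

open Finset

variable {α : Type*} [Fintype α] [DecidableEq α]

/-- If the cut condition holds, there are `q` successor functions. -/
theorem exists_successors {q i j : ℕ} (hP : PP α q i j) (hij : i < j) {S : Finset (Finset α)}
    {φ : Finset α → Finset α} (hm : Mat i j S φ) :
    ∃ G : Fin q → Finset α → Finset α,
      (∀ c, ∀ u, u ∈ S ∨ u ∈ Mid i j → (G c u ∈ Mid i j ∨ G c u ∈ S.image φ) ∧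
        (G c u = u ∨ Cov u (G c u))) ∧
      (∀ c, ∀ u v, (u ∈ S ∨ u ∈ Mid i j) → (v ∈ S ∨ v ∈ Mid i j) → G c u = G c v → u = v) ∧
      (∀ c c', ∀ u, (u ∈ S ∨ u ∈ Mid i j) → Cov u (G c u) → G c u = G c' u → c = c') := by
  classical
  obtain ⟨T, hTd⟩ : ∃ T, T = S.image φ := ⟨_, rfl⟩
  have hTc : ∀ t ∈ T, t.card = j := by
    intro t ht
    rw [hTd, mem_image] at ht
    obtain ⟨s, hs, rfl⟩ := ht
    exact hm.cT s hs
  have hflow : ∃ M, IsFlow q i j S T (fun _ => q) (fun _ => q) M := by
    apply exists_flow q i j S T hm.cS hTc hij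
    · rw [sum_const, sum_const, hTd, card_image_of_injOn hm.inj]
    · intro A hA
      have hAc : ∀ u ∈ A, u.card < j := by
        intro u hu
        rcases hA u hu with h1 | h1
        · rw [hm.cS u h1]; exact hij
        · rw [mem_Mid] at h1; exact h1.2
      have h1 := hP (S.filter (fun s => s ∈ A)) φ (hm.mono (filter_subset _ _)) A
        (fun s hs => (mem_filter.1 hs).2) (by
          intro u hu
          rcases hA u hu with h4 | h4
          · exact Or.inl (mem_filter.2 ⟨h4, hu⟩)
          · exact Or.inr h4)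
      have hsub : (S.filter (fun s => s ∈ A)).image φ ⊆ T := by
        rw [hTd]
        exact image_subset_image (filter_subset _ _)
      rw [cost_eq (fun t ht => hTc t (hsub ht)) hAc] at h1
      have h2 : ∑ t ∈ (S.filter (fun s => s ∈ A)).image φ, min q (dg A t) ≤
          ∑ t ∈ T, min q (dg A t) := sum_le_sum_of_subset hsub
      have h3 : ∑ s ∈ S, (if s ∈ A then q else 0) = q * (S.filter (fun s => s ∈ A)).card := by
        rw [← sum_filter, sum_const, smul_eq_mul, mul_comm]
      rw [h3]
      omega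
  obtain ⟨M, hM⟩ := hflow
  have hSM : ∀ s ∈ S, s ∉ Mid i j := by
    intro s hs h
    rw [mem_Mid, hm.cS s hs] at h
    omega
  have hTM : ∀ t ∈ T, t ∉ Mid i j := by
    intro t ht h
    rw [mem_Mid, hTc t ht] at h
    omega
  have hST : ∀ s ∈ S, s ∉ T := by
    intro s hs h
    have h1 := hm.cS s hs
    have h2 := hTc s h
    omega
  -- edge multiplicities
  let F : Finset α → Finset α → ℕ := fun u v => ∑ x, if x ∉ u ∧ insert x u = v then M u x else 0
  have hF1 : ∀ u v, F u v ≤ 1 := by
    intro u v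
    by_cases hc : ∃ x, x ∉ u ∧ insert x u = v
    · obtain ⟨x, hx, he⟩ := hc
      have : F u v = M u x := by
        simp only [F]
        rw [sum_eq_single x]
        · rw [if_pos ⟨hx, he⟩]
        · intro y _ hy
          rw [if_neg]
          rintro ⟨h1, h2⟩
          apply hy
          have : y ∈ insert x u := by rw [he, ← h2]; exact mem_insert_self _ _
          rw [mem_insert] at this
          exact this.resolve_right h1
        · intro h; exact absurd (mem_univ _) h
      rw [this]
      exact hM.le_one u x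
    · have : F u v = 0 := by
        simp only [F]
        apply sum_eq_zero
        intro x _
        rw [if_neg]
        exact fun h => hc ⟨x, h⟩
      omega
  have hFcov : ∀ u v, F u v ≠ 0 → Cov u v := by
    intro u v h
    by_contra hc
    apply h
    simp only [F]
    apply sum_eq_zero
    intro x _
    rw [if_neg]
    exact fun h => hc ⟨x, h⟩
  have hFself : ∀ u, F u u = 0 := by
    intro u
    by_contra h
    exact (hFcov u u h).ne rfl
  have hFrow : ∀ u, ∑ v, F u v = ∑ x, M u x := by
    intro u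
    simp only [F]
    rw [sum_comm]
    refine sum_congr rfl (fun x _ => ?_)
    by_cases hx : x ∈ u
    · simp [hx, hM.val u x hx]
    · simp [hx]
  have hFcol : ∀ v, ∑ u, F u v = inf M v := by
    intro v
    simp only [F, inf]
    rw [sum_comm]
    refine sum_congr rfl (fun x _ => ?_)
    by_cases hx : x ∈ v
    · rw [if_pos hx, sum_eq_single (v.erase x)]
      · rw [if_pos ⟨by simp, insert_erase hx⟩]
      · intro u _ hu
        rw [if_neg]
        rintro ⟨h1, h2⟩
        apply hu
        rw [← h2, erase_insert h1]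
      · intro h; exact absurd (mem_univ _) h
    · rw [if_neg hx]
      apply sum_eq_zero
      intro u _
      rw [if_neg]
      rintro ⟨h1, h2⟩
      apply hx
      rw [← h2]
      exact mem_insert_self _ _
  let L := {u : Finset α // u ∈ S ∪ Mid i j}
  let R := {v : Finset α // v ∈ Mid i j ∪ T}
  let f : L → R → ℕ := fun u v =>
    (if u.1 = v.1 then q - ∑ x, M u.1 x else 0) + F u.1 v.1
  have hcard : Fintype.card L = Fintype.card R := by
    simp only [L, R, Fintype.card_coe]
    rw [card_union_of_disjoint, card_union_of_disjoint, hTd, card_image_of_injOn hm.inj]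
    · ring
    · rw [Finset.disjoint_left]; exact fun v h1 h2 => hTM v h2 h1
    · rw [Finset.disjoint_left]; exact fun v h1 h2 => hSM v h1 h2
  have hFR : ∀ u v, F u v ≠ 0 → v ∈ Mid i j ∪ T := by
    intro u v h
    simp only [F] at h
    obtain ⟨x, _, hx⟩ := Finset.exists_ne_zero_of_sum_ne_zero h
    by_cases hc : x ∉ u ∧ insert x u = v
    · rw [if_pos hc] at hx
      have := hM.head u x hx
      rw [hc.2] at this
      exact mem_union.2 this
    · rw [if_neg hc] at hx
      exact absurd rfl hx
  have hFL : ∀ u v, F u v ≠ 0 → u ∈ S ∪ Mid i j := by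
    intro u v h
    simp only [F] at h
    obtain ⟨x, _, hx⟩ := Finset.exists_ne_zero_of_sum_ne_zero h
    by_cases hc : x ∉ u ∧ insert x u = v
    · rw [if_pos hc] at hx
      exact mem_union.2 (hM.tail u x hx)
    · rw [if_neg hc] at hx
      exact absurd rfl hx
  have hrow : ∀ u : L, ∑ v : R, f u v = q := by
    intro u
    simp only [f]
    rw [sum_add_distrib]
    have e1 : ∑ v : R, F u.1 v.1 = ∑ v, F u.1 v := by
      refine (Finset.sum_subtype (Mid i j ∪ T) (fun _ => Iff.rfl) (fun v => F u.1 v)).symm.trans ?_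
      apply sum_subset (subset_univ _)
      intro v _ hv
      by_contra hne
      exact hv (hFR _ _ hne)
    rw [e1, hFrow]
    have hu := u.2
    rw [mem_union] at hu
    rcases hu with hu | hu
    · have e2 : ∑ v : R, (if u.1 = v.1 then q - ∑ x, M u.1 x else 0) = 0 := by
        apply sum_eq_zero
        intro v _
        rw [if_neg]
        intro he
        have hv := v.2
        rw [← he, mem_union] at hv
        rcases hv with h1 | h1
        · exact hSM _ hu h1
        · exact hST _ hu h1
      rw [e2, hM.src _ hu]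
      simp
    · have e2 : ∑ v : R, (if u.1 = v.1 then q - ∑ x, M u.1 x else 0) = q - ∑ x, M u.1 x := by
        rw [sum_eq_single ⟨u.1, mem_union_left _ hu⟩]
        · simp
        · intro v _ hv
          rw [if_neg]
          intro he
          apply hv
          exact Subtype.ext he.symm
        · intro h; exact absurd (mem_univ _) h
      rw [e2]
      have := hM.mid_le _ hu
      omega
  have hcol : ∀ v : R, ∑ u : L, f u v ≤ q := by
    intro v
    simp only [f]
    rw [sum_add_distrib]
    have e1 : ∑ u : L, F u.1 v.1 = ∑ u, F u v.1 := by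
      refine (Finset.sum_subtype (S ∪ Mid i j) (fun _ => Iff.rfl) (fun u => F u v.1)).symm.trans ?_
      apply sum_subset (subset_univ _)
      intro u _ hu
      by_contra hne
      exact hu (hFL _ _ hne)
    rw [e1, hFcol]
    have hv := v.2
    rw [mem_union] at hv
    rcases hv with hv | hv
    · have e2 : ∑ u : L, (if u.1 = v.1 then q - ∑ x, M u.1 x else 0) = q - ∑ x, M v.1 x := by
        rw [sum_eq_single ⟨v.1, mem_union_right _ hv⟩]
        · simp
        · intro u _ hu
          rw [if_neg]
          intro he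
          apply hu
          exact Subtype.ext he
        · intro h; exact absurd (mem_univ _) h
      rw [e2, ← hM.mid _ hv]
      have := hM.mid_le _ hv
      omega
    · have e2 : ∑ u : L, (if u.1 = v.1 then q - ∑ x, M u.1 x else 0) = 0 := by
        apply sum_eq_zero
        intro u _
        rw [if_neg]
        intro he
        have hu := u.2
        rw [he, mem_union] at hu
        rcases hu with h1 | h1
        · exact hST _ h1 hv
        · exact hTM _ hv h1
      rw [e2, hM.snk _ hv]
      simp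
  obtain ⟨g, hg, hgf⟩ := decompose q hcard f hrow hcol
  refine ⟨fun c u => if h : u ∈ S ∪ Mid i j then (g c ⟨u, h⟩).1 else u, ?_, ?_, ?_⟩
  · intro c u hu
    have hu' : u ∈ S ∪ Mid i j := mem_union.2 hu
    simp only [hu', dif_pos]
    constructor
    · rw [← hTd]
      exact mem_union.1 (g c ⟨u, hu'⟩).2
    · by_cases he : (g c ⟨u, hu'⟩).1 = u
      · exact Or.inl he
      · right
        have h1 := hgf ⟨u, hu'⟩ (g c ⟨u, hu'⟩)
        have h2 : f ⟨u, hu'⟩ (g c ⟨u, hu'⟩) ≠ 0 := by
          rw [← h1, card_ne_zero]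
          exact ⟨c, by simp⟩
        simp only [f] at h2
        rw [if_neg (fun h => he h.symm), zero_add] at h2
        exact hFcov _ _ h2
  · intro c u v hu hv he
    have hu' : u ∈ S ∪ Mid i j := mem_union.2 hu
    have hv' : v ∈ S ∪ Mid i j := mem_union.2 hv
    simp only [hu', hv', dif_pos] at he
    have := (hg c).1 (Subtype.ext he)
    exact congrArg Subtype.val this
  · intro c c' u hu hcov he
    have hu' : u ∈ S ∪ Mid i j := mem_union.2 hu
    simp only [hu', dif_pos] at hcov he
    by_contra hne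
    have h1 := hgf ⟨u, hu'⟩ (g c ⟨u, hu'⟩)
    have h2 : f ⟨u, hu'⟩ (g c ⟨u, hu'⟩) ≤ 1 := by
      simp only [f]
      rw [if_neg hcov.ne, zero_add]
      exact hF1 _ _
    have h3 : ({c, c'} : Finset (Fin q)) ⊆
        univ.filter (fun d => g d ⟨u, hu'⟩ = g c ⟨u, hu'⟩) := by
      intro d hd
      rw [mem_insert, mem_singleton] at hd
      rw [mem_filter]
      refine ⟨mem_univ _, ?_⟩
      rcases hd with rfl | rfl
      · rfl
      · exact (Subtype.ext he).symm
    have h4 := card_le_card h3
    rw [card_pair hne] at h4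
    omega

/-- Iterating the successor functions gives the paths. -/
theorem exists_paths {q i j : ℕ} (hP : PP α q i j) (hij : i < j) {S : Finset (Finset α)}
    {φ : Finset α → Finset α} (hm : Mat i j S φ) :
    ∃ p : Fin q → Finset α → ℕ → Finset α,
      (∀ c, ∀ s ∈ S, p c s 0 = s) ∧
      (∀ c, ∀ s ∈ S, ∀ k < j - i, Cov (p c s k) (p c s (k + 1))) ∧
      (∀ c, ∀ s ∈ S, p c s (j - i) ∈ S.image φ) ∧
      (∀ c, ∀ s ∈ S, ∀ s' ∈ S, ∀ k ≤ j - i, ∀ k' ≤ j - i, p c s k = p c s' k' → s = s') ∧
      (∀ c c', ∀ s ∈ S, ∀ s' ∈ S, ∀ k < j - i, ∀ k' < j - i, p c s k = p c' s' k' →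
        p c s (k + 1) = p c' s' (k' + 1) → c = c') := by
  obtain ⟨G, hG1, hG2, hG3⟩ := exists_successors hP hij hm
  have hcardT : ∀ t ∈ S.image φ, t.card = j := by
    intro t ht
    rw [mem_image] at ht
    obtain ⟨s, hs, rfl⟩ := ht
    exact hm.cT s hs
  have hnS : ∀ v, (v ∈ Mid i j ∨ v ∈ S.image φ) → i < v.card := by
    intro v hv
    rcases hv with h | h
    · rw [mem_Mid] at h; exact h.1
    · rw [hcardT v h]; exact hij
  -- the main induction
  have hmain : ∀ c, ∀ s ∈ S, ∀ k < j - i, ((G c)^[k] s ∈ S ∨ (G c)^[k] s ∈ Mid i j) ∧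
      ((G c)^[k] s).card = i + k ∧ Cov ((G c)^[k] s) ((G c)^[k + 1] s) := by
    intro c s hs k
    induction k with
    | zero =>
      intro hk
      simp only [Function.iterate_zero, id, zero_add, Function.iterate_one]
      refine ⟨Or.inl hs, hm.cS s hs, ?_⟩
      have h1 := hG1 c s (Or.inl hs)
      rcases h1.2 with h2 | h2
      · exfalso
        have h3 := hnS _ h1.1
        rw [h2, hm.cS s hs] at h3
        omega
      · exact h2
    | succ k ih =>
      intro hk
      obtain ⟨h1, h2, h3⟩ := ih (by omega)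
      have h4 := hG1 c _ h1
      have h5 : (G c)^[k + 1] s = G c ((G c)^[k] s) := Function.iterate_succ_apply' _ _ _
      have h6 : ((G c)^[k + 1] s).card = i + (k + 1) := by
        obtain ⟨a, ha, he⟩ := h3
        rw [← he, card_insert_of_notMem ha, h2]
        ring
      have h7 : (G c)^[k + 1] s ∈ Mid i j := by
        rw [mem_Mid, h6]
        omega
      have h8 := hG1 c _ (Or.inr h7)
      have h9 : (G c)^[k + 1 + 1] s = G c ((G c)^[k + 1] s) := Function.iterate_succ_apply' _ _ _
      refine ⟨Or.inr h7, h6, ?_⟩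
      rw [h9]
      rcases h8.2 with h10 | h10
      · exfalso
        have h11 : G c ((G c)^[k + 1] s) = G c ((G c)^[k] s) := by rw [h10, h5]
        have h12 := hG2 c _ _ (Or.inr h7) h1 h11
        exact h3.ne h12.symm
      · exact h10
  have hcard : ∀ c, ∀ s ∈ S, ∀ k ≤ j - i, ((G c)^[k] s).card = i + k := by
    intro c s hs k hk
    rcases Nat.lt_or_ge k (j - i) with h | h
    · exact (hmain c s hs k h).2.1
    · have hk' : k = (j - i - 1) + 1 := by omega
      obtain ⟨h1, h2, h3⟩ := hmain c s hs (j - i - 1) (by omega)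
      obtain ⟨a, ha, he⟩ := h3
      rw [hk', ← he, card_insert_of_notMem ha, h2]
      ring
  refine ⟨fun c s k => (G c)^[k] s, ?_, ?_, ?_, ?_, ?_⟩
  · intro c s hs; rfl
  · intro c s hs k hk; exact (hmain c s hs k hk).2.2
  · intro c s hs
    obtain ⟨h1, h2, h3⟩ := hmain c s hs (j - i - 1) (by omega)
    have h4 := (hG1 c _ h1).1
    have h5 : (G c)^[j - i - 1 + 1] s = G c ((G c)^[j - i - 1] s) := Function.iterate_succ_apply' _ _ _
    rw [← h5] at h4
    have h6 : j - i - 1 + 1 = j - i := by omega
    rw [h6] at h4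
    rcases h4 with h7 | h7
    · exfalso
      have h8 := hcard c s hs (j - i) (le_refl _)
      rw [mem_Mid, h8] at h7
      omega
    · exact h7
  · intro c s hs s' hs' k hk k' hk' he
    have hkk : k = k' := by
      have h1 := hcard c s hs k hk
      have h2 := hcard c s' hs' k' hk'
      simp only at he
      rw [he] at h1
      omega
    subst hkk
    clear hk'
    induction k with
    | zero => exact he
    | succ k ih =>
      simp only [Function.iterate_succ_apply'] at he
      exact ih (by omega) (hG2 c _ _ (hmain c s hs k (by omega)).1 (hmain c s' hs' k (by omega)).1 he)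
  · intro c c' s hs s' hs' k hk k' hk' he1 he2
    simp only [Function.iterate_succ_apply'] at he1 he2
    obtain ⟨h1, h2, h3⟩ := hmain c s hs k hk
    rw [Function.iterate_succ_apply'] at h3
    rw [← he1] at he2
    exact hG3 c c' _ h1 h3 he2

end MP_8b6acb_co

end

section

/-! From the cut condition to LR solutions. -/

namespace MP_8b6acb_co

open Finset

variable {d : ℕ}

/-- The support of a vertex. -/
def toS (x : Vtx d) : Finset (Fin d) := univ.filter (fun k => x k = true)

/-- The vertex with a given support. -/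
def ofS (u : Finset (Fin d)) : Vtx d := fun k => decide (k ∈ u)

theorem ofS_toS (x : Vtx d) : ofS (toS x) = x := by
  funext k
  unfold ofS toS
  cases h : x k <;> simp [h]

theorem toS_ofS (u : Finset (Fin d)) : toS (ofS u) = u := by
  ext k
  simp [toS, ofS]

theorem ofS_inj {u v : Finset (Fin d)} (h : ofS u = ofS v) : u = v := by
  rw [← toS_ofS u, ← toS_ofS v, h]

theorem toS_inj {x y : Vtx d} (h : toS x = toS y) : x = y := by
  rw [← ofS_toS x, ← ofS_toS y, h]

theorem card_toS (x : Vtx d) : (toS x).card = wt x := rfl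

theorem wt_ofS (u : Finset (Fin d)) : wt (ofS u) = u.card := by
  rw [← card_toS, toS_ofS]

theorem dedge_of_cov {u v : Finset (Fin d)} (h : Cov u v) : DEdge (ofS u) (ofS v) := by
  obtain ⟨a, ha, rfl⟩ := h
  constructor
  · refine ⟨a, ?_, ?_⟩
    · simp [ofS, ha]
    · intro k hk
      by_contra hne
      apply hk
      simp only [ofS, mem_insert, hne, false_or]
  · rw [wt_ofS, wt_ofS, card_insert_of_notMem ha]

theorem mem_edges (n : ℕ) (f : ℕ → Vtx d) (e : Vtx d × Vtx d)
    (h : e ∈ edgesOf ((List.range (n + 1)).map f)) : ∃ k < n, e = (f k, f (k + 1)) := by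
  unfold edgesOf at h
  rw [List.mem_iff_getElem] at h
  obtain ⟨k, hk, he⟩ := h
  have hk' : k < n := by
    simp at hk
    exact hk
  refine ⟨k, hk', ?_⟩
  rw [← he]
  simp

/-- The cut condition gives edge-disjoint LR solutions. -/
theorem hasEdgeDisjointLR {q i j : ℕ} (hP : PP (Fin d) q i j) (hij : i < j)
    (S T : Finset (Vtx d)) (hS : ∀ s ∈ S, wt s = i) (hT : ∀ t ∈ T, wt t = j)
    (hST : Matched S T) : HasEdgeDisjointLR q S T := by
  classical
  obtain ⟨φ, hφ⟩ := hST
  obtain ⟨S', hS'⟩ : ∃ S', S' = S.image toS := ⟨_, rfl⟩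
  let φ' : Finset (Fin d) → Finset (Fin d) := fun u =>
    if h : ofS u ∈ S then toS (φ ⟨ofS u, h⟩).1 else ∅
  have hmem : ∀ u, u ∈ S' ↔ ofS u ∈ S := by
    intro u
    rw [hS', mem_image]
    constructor
    · rintro ⟨x, hx, rfl⟩
      rw [ofS_toS]; exact hx
    · intro h
      exact ⟨ofS u, h, toS_ofS u⟩
  have hm : Mat i j S' φ' := by
    refine ⟨?_, ?_, ?_, ?_⟩
    · intro u hu
      rw [← hS _ ((hmem u).1 hu), wt_ofS]
    · intro u hu
      have h := (hmem u).1 hu
      simp only [φ', h, dif_pos]
      rw [card_toS]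
      exact hT _ (φ ⟨ofS u, h⟩).2
    · intro u hu v hv he
      have h := (hmem u).1 (mem_coe.1 hu)
      have h' := (hmem v).1 (mem_coe.1 hv)
      simp only [φ', h, h', dif_pos] at he
      have h1 := φ.injective (Subtype.ext (toS_inj he))
      exact ofS_inj (congrArg Subtype.val h1)
    · intro u hu k hk
      have h := (hmem u).1 hu
      simp only [φ', h, dif_pos]
      have h1 := (hφ ⟨ofS u, h⟩).1 k
      simp only [toS, mem_filter, mem_univ, true_and]
      have h2 : ofS u k = true := by simp [ofS, hk]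
      simp only [h2] at h1
      exact top_le_iff.1 h1
  have himg : S'.image φ' ⊆ T.image toS := by
    intro v hv
    rw [mem_image] at hv
    obtain ⟨u, hu, rfl⟩ := hv
    have h := (hmem u).1 hu
    simp only [φ', h, dif_pos]
    exact mem_image_of_mem _ (φ ⟨ofS u, h⟩).2
  obtain ⟨p, hp0, hp1, hp2, hp3, hp4⟩ := exists_paths hP hij hm
  let lst : Fin q → Finset (Fin d) → List (Vtx d) := fun c s =>
    (List.range (j - i + 1)).map (fun k => ofS (p c s k))
  have hmemlst : ∀ c s v, v ∈ lst c s → ∃ k ≤ j - i, v = ofS (p c s k) := by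
    intro c s v hv
    simp only [lst, List.mem_map, List.mem_range] at hv
    obtain ⟨k, hk, rfl⟩ := hv
    exact ⟨k, by omega, rfl⟩
  have hhead : ∀ c s, (lst c s).head? = some (ofS (p c s 0)) := by
    intro c s
    simp [lst, List.head?_range]
  have hlast : ∀ c s, (lst c s).getLast? = some (ofS (p c s (j - i))) := by
    intro c s
    simp [lst, List.getLast?_range]
  have hinj : ∀ c, ∀ s ∈ S', ∀ s' ∈ S', lst c s = lst c s' → s = s' := by
    intro c s hs s' hs' he
    have h1 := hhead c s
    rw [he, hhead c s', hp0 c s hs, hp0 c s' hs'] at h1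
    exact (ofS_inj (Option.some_injective _ h1)).symm
  refine ⟨fun c => S'.image (lst c), ?_, ?_⟩
  · intro c
    refine ⟨?_, ?_, ?_, ?_, ?_⟩
    · rw [card_image_of_injOn, hS', card_image_of_injective]
      · intro x y h; exact toS_inj h
      · intro s hs s' hs' he
        exact hinj c s (mem_coe.1 hs) s' (mem_coe.1 hs') he
    · intro l hl
      rw [mem_image] at hl
      obtain ⟨s, hs, rfl⟩ := hl
      constructor
      · simp [lst]
      · simp only [lst]
        rw [List.isChain_map]
        exact (List.isChain_range_succ _ _).2 (fun m hm => dedge_of_cov (hp1 c s hs m hm))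
    · intro l hl
      rw [mem_image] at hl
      obtain ⟨s, hs, rfl⟩ := hl
      refine ⟨ofS s, (hmem s).1 hs, ?_⟩
      rw [hhead, hp0 c s hs]
    · intro l hl
      rw [mem_image] at hl
      obtain ⟨s, hs, rfl⟩ := hl
      have h1 := himg (hp2 c s hs)
      rw [mem_image] at h1
      obtain ⟨t, ht, he⟩ := h1
      refine ⟨t, ht, ?_⟩
      rw [hlast, ← he, ofS_toS]
    · intro l hl l' hl' hne v hv hv'
      rw [mem_image] at hl hl'
      obtain ⟨s, hs, rfl⟩ := hl
      obtain ⟨s', hs', rfl⟩ := hl'
      obtain ⟨k, hk, he⟩ := hmemlst _ _ _ hv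
      obtain ⟨k', hk', he'⟩ := hmemlst _ _ _ hv'
      apply hne
      rw [he] at he'
      rw [hp3 c s hs s' hs' k hk k' hk' (ofS_inj he')]
  · intro c c' hcc l hl l' hl' e he he'
    rw [mem_image] at hl hl'
    obtain ⟨s, hs, rfl⟩ := hl
    obtain ⟨s', hs', rfl⟩ := hl'
    obtain ⟨k, hk, h1⟩ := mem_edges _ _ _ he
    obtain ⟨k', hk', h2⟩ := mem_edges _ _ _ he'
    rw [h1, Prod.mk.injEq] at h2
    exact hcc (hp4 c c' s hs s' hs' k hk k' hk' (ofS_inj h2.1) (ofS_inj h2.2))

end MP_8b6acb_co

end

section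

/-!
# Interface: the statements of the blocks

All `Stmt_X` are propositions; block `X` proves `theorem stmt_X : Stmt_X α` (with the hypotheses
named in the blueprint).
-/

namespace R5

open Finset MP_8b6acb_co

/-! ## Part I: types -/

section Types

variable (α : Type) [DecidableEq α]

/-- `aw` through the first set that is not in `A`. -/
def Stmt_AWID : Prop := ∀ (τ : Finset α → Lab) (V : Finset α), τ ∅ = Lab.A →
  (1 = fw τ V + ∑ U ∈ V.powerset, if τ U = Lab.A then 0 else
    fwb τ U / (V.card.choose U.card : ℝ)) ∧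
  (aw τ V = ((V.card : ℝ) + 1) * fw τ V + ∑ U ∈ V.powerset, if τ U = Lab.A then 0 else
    (U.card : ℝ) * fwb τ U / (V.card.choose U.card : ℝ))

/-- Summing over the position of the star. -/
def Stmt_YSUM : Prop := ∀ (τ : Finset α → Lab) (D V : Finset α), V ⊆ D →
  (∀ x ∈ D \ V, ∑ X ∈ D.powerset, pe τ D X V x = yLe τ D V x) ∧
  ∑ X ∈ D.powerset, pv τ D X V = yLv τ D V

/-- Decomposition by the last object. -/
def Stmt_GMASS : Prop := ∀ (τ : Finset α → Lab) (D : Finset α) (G : Finset α → ℝ),
  τ ∅ = Lab.A → τ D = Lab.B →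
  (∀ Y ⊆ D, Y ≠ ∅ → τ Y = Lab.B → G Y = (∑ x ∈ Y, G (Y.erase x)) / (Y.card : ℝ)) →
  (∑ V ∈ D.powerset, ∑ x ∈ D \ V, if isE τ V x then
      G V * bw τ D (insert x V) / ((D.card.choose V.card : ℝ) * ((D.card : ℝ) - V.card)) else 0) +
    (∑ V ∈ D.powerset, if τ V = Lab.X then G V * bwb τ D V / (D.card.choose V.card : ℝ) else 0) =
  G D

/-- Total mass of the colour L. -/
def Stmt_MASS : Prop := ∀ (τ : Finset α → Lab) (D : Finset α), τ ∅ = Lab.A → τ D = Lab.B →
  PEL τ D + ∑ V ∈ D.powerset, yLv τ D V = aw τ D / ((D.card : ℝ) + 1)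

/-- The swap, colour L. -/
def Stmt_SWL : Prop := ∀ (τ : Finset α → Lab) (D X : Finset α) (g : α), X ⊆ D → g ∈ D \ X →
  ∑ V ∈ (D.erase g).powerset, ((∑ x ∈ D \ V, pe τ D X V x) + pv τ D X V) =
    fw τ X * ab τ D (insert g X) /
      (((D.card : ℝ) + 1) * (D.card.choose X.card : ℝ) * ((D.card : ℝ) - X.card))

/-- The swap, colour F. -/
def Stmt_SWF : Prop := ∀ (τ : Finset α → Lab) (D : Finset α) (F : Finset α → ℝ),
  τ ∅ = Lab.A → τ D = Lab.B →
  (∑ V ∈ D.powerset, ∑ x ∈ D \ V, yFe τ D V x * F (insert x V)) +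
      ∑ V ∈ D.powerset, yFv τ D V * F V =
    ab τ D ∅ / ((D.card : ℝ) + 1) * F ∅ +
    ∑ X ∈ D.powerset, ∑ g ∈ D \ X, fw τ X * ab τ D (insert g X) /
      (((D.card : ℝ) + 1) * (D.card.choose X.card : ℝ) * ((D.card : ℝ) - X.card)) *
        (F (insert g X) - F X)

/-- The constants of the colour L. -/
noncomputable def KL {α : Type} [DecidableEq α] (τ : Finset α → Lab) (D : Finset α) : ℝ :=
  ∑ X ∈ D.powerset, ∑ V ∈ D.powerset, ((∑ x ∈ D \ V, pe τ D X V x) + pv τ D X V) *
    (Real.log (D.card.factorial : ℝ) - Real.log (V.card.factorial : ℝ) -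
      ((D.card : ℝ) - V.card) * Real.log ((D.card : ℝ) - X.card))

/-- The constants cancel. -/
def Stmt_CONST : Prop := ∀ (τ : Finset α → Lab) (D : Finset α), τ ∅ = Lab.A → τ D = Lab.B →
  KL τ D + KL (dual τ D) D = 0

/-- Minimisation over the density. -/
def Stmt_INF : Prop := ∀ (n : ℕ) (p q ρ : ℝ), 1 ≤ n → 0 ≤ p → 0 ≤ q → (n = 1 → q = 0) → 0 < ρ →
  ρ ≤ 1 → lamn n * min (((n : ℝ) - 1) * p) q ≤
    p * (-Real.log ρ) + q * (-Real.log (1 - ρ / (n : ℝ)))

/-- Mass of the configurations whose unpaid end is an edge. -/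
noncomputable def UEL {α : Type} [DecidableEq α] (τ : Finset α → Lab) (D : Finset α) : ℝ :=
  ∑ V ∈ D.powerset, ∑ x ∈ D \ V, if isE τ V x then
    ((V.card : ℝ) + 1) * fw τ V /
      (((D.card : ℝ) + 1) * (D.card.choose V.card : ℝ) * ((D.card : ℝ) - V.card)) else 0

end Types

/-! ## Part II: entropy -/

/-- Gibbs inequality. -/
def Stmt_GIBBS : Prop := ∀ (ι : Type) (K : Finset ι) (w c : ι → ℝ), (∀ k ∈ K, 0 ≤ w k) →
  (∀ k ∈ K, 0 ≤ c k) → (∀ k ∈ K, 0 < w k → 0 < c k) →
  ∑ k ∈ K, w k * Real.log (c k / w k) ≤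
    (∑ k ∈ K, w k) * Real.log ((∑ k ∈ K, c k) / ∑ k ∈ K, w k)

/-- One object: the entropy of a product measure against kernels. -/
def Stmt_ONE : Prop := ∀ (ι σ θ : Type) [DecidableEq σ] (P : Finset ι) (S : Finset σ) (T : Finset θ)
  (pr : ι → σ) (F : ι → ℝ) (G : θ → ℝ) (qS : ι → θ → ℝ) (qT : θ → σ → ℝ),
  (∀ p ∈ P, pr p ∈ S) → (∀ p ∈ P, 0 ≤ F p) → (∀ t ∈ T, 0 ≤ G t) →
  (∀ p ∈ P, ∀ t ∈ T, 0 < F p → 0 < G t → 0 < qS p t) →
  (∀ p ∈ P, ∀ t ∈ T, 0 < F p → 0 < G t → 0 < qT t (pr p)) →
  (∀ p ∈ P, ∀ t ∈ T, 0 ≤ qS p t) → (∀ t ∈ T, ∀ s ∈ S, 0 ≤ qT t s) →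
  (∀ p ∈ P, ∑ t ∈ T, qS p t ≤ 1) → (∀ t ∈ T, ∑ s ∈ S, qT t s ≤ 1) →
  ∑ p ∈ P, ∑ t ∈ T, F p * G t * (Real.log (qS p t) + Real.log (qT t (pr p)) -
      Real.log (∑ p' ∈ P.filter (fun p' => pr p' = pr p), F p') - Real.log (G t)) ≤
    -((∑ p ∈ P, F p) * (∑ t ∈ T, G t)) * Real.log ((∑ p ∈ P, F p) * (∑ t ∈ T, G t))

section Kernel

variable (α : Type) [DecidableEq α]

end Kernel

/-! ## Part III: the network -/

section Network

variable {α : Type} [Fintype α] [DecidableEq α]

/-- The type seen from `s`. -/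
def ty (c : Finset α → Lab) (s : Finset α) : Finset α → Lab := fun V => c (s ∪ V)

/-- `μ_s(v)`. -/
noncomputable def MU (c : Finset α → Lab) (T : Finset (Finset α)) (a b : Finset α → ℝ)
    (s v : Finset α) : ℝ := ∑ t ∈ T.filter (fun t => v ⊆ t), a s * b t * Zt (ty c s) (t \ s)

/-- `μ*_t(v)`. -/
noncomputable def NU (c : Finset α → Lab) (S : Finset (Finset α)) (a b : Finset α → ℝ)
    (t v : Finset α) : ℝ := ∑ s ∈ S.filter (fun s => s ⊆ v), a s * b t * Zt (ty c s) (t \ s)

/-- The cut edges of the network. -/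
def netE (c : Finset α → Lab) (i j : ℕ) (S T : Finset (Finset α)) : Finset (Finset α × α) :=
  univ.filter fun p => p.2 ∉ p.1 ∧ (p.1 ∈ S ∨ p.1 ∈ Mid i j) ∧ c p.1 = Lab.A ∧
    (insert p.2 p.1 ∈ Mid i j ∨ insert p.2 p.1 ∈ T) ∧ c (insert p.2 p.1) = Lab.B

/-- The cut vertices of the network. -/
def netX (c : Finset α → Lab) (i j : ℕ) : Finset (Finset α) := (Mid i j).filter fun v => c v = Lab.X

/-- Mass of (colour L, edge `(v, v + x)`). -/
noncomputable def WE (c : Finset α → Lab) (S T : Finset (Finset α)) (a b : Finset α → ℝ)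
    (v : Finset α) (x : α) : ℝ :=
  ∑ s ∈ S.filter (fun s => s ⊆ v), ∑ t ∈ T.filter (fun t => insert x v ⊆ t),
    a s * b t * yLe (ty c s) (t \ s) (v \ s) x

/-- Mass of (colour L, vertex `v`). -/
noncomputable def WX (c : Finset α → Lab) (S T : Finset (Finset α)) (a b : Finset α → ℝ)
    (v : Finset α) : ℝ :=
  ∑ s ∈ S.filter (fun s => s ⊆ v), ∑ t ∈ T.filter (fun t => v ⊆ t),
    a s * b t * yLv (ty c s) (t \ s) (v \ s)

/-- Mass of (colour F, edge `(v, v + x)`). -/
noncomputable def WFE (c : Finset α → Lab) (S T : Finset (Finset α)) (a b : Finset α → ℝ)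
    (v : Finset α) (x : α) : ℝ :=
  ∑ s ∈ S.filter (fun s => s ⊆ v), ∑ t ∈ T.filter (fun t => insert x v ⊆ t),
    a s * b t * yFe (ty c s) (t \ s) (v \ s) x

/-- Mass of (colour F, vertex `v`). -/
noncomputable def WFX (c : Finset α → Lab) (S T : Finset (Finset α)) (a b : Finset α → ℝ)
    (v : Finset α) : ℝ :=
  ∑ s ∈ S.filter (fun s => s ⊆ v), ∑ t ∈ T.filter (fun t => v ⊆ t),
    a s * b t * yFv (ty c s) (t \ s) (v \ s)

/-- The hypotheses on the data. -/
structure Net (c : Finset α → Lab) (i j : ℕ) (S T : Finset (Finset α)) (a b : Finset α → ℝ) :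
    Prop where
  hij : i < j
  cS : ∀ s ∈ S, s.card = i
  cT : ∀ t ∈ T, t.card = j
  lS : ∀ s ∈ S, c s = Lab.A
  lT : ∀ t ∈ T, c t = Lab.B
  pa : ∀ s ∈ S, 0 < a s
  pb : ∀ t ∈ T, 0 < b t

variable (α)

/-- Reindexing of the pairs (object, comparable pair). -/
def Stmt_NETE : Prop := ∀ (c : Finset α → Lab) (i j : ℕ) (S T : Finset (Finset α))
  (a b : Finset α → ℝ), Net c i j S T a b →
  ∀ Φ : Finset α → Finset α → Finset α → α → ℝ,
  ∑ e ∈ netE c i j S T, ∑ s ∈ S.filter (fun s => s ⊆ e.1),
      ∑ t ∈ T.filter (fun t => insert e.2 e.1 ⊆ t), Φ s t (e.1 \ s) e.2 =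
    ∑ s ∈ S, ∑ t ∈ T.filter (fun t => s ⊆ t), ∑ V ∈ (t \ s).powerset, ∑ x ∈ (t \ s) \ V,
      if isE (ty c s) V x then Φ s t V x else 0

def Stmt_NETX : Prop := ∀ (c : Finset α → Lab) (i j : ℕ) (S T : Finset (Finset α))
  (a b : Finset α → ℝ), Net c i j S T a b →
  ∀ Φ : Finset α → Finset α → Finset α → ℝ,
  ∑ v ∈ netX c i j, ∑ s ∈ S.filter (fun s => s ⊆ v),
      ∑ t ∈ T.filter (fun t => v ⊆ t), Φ s t (v \ s) =
    ∑ s ∈ S, ∑ t ∈ T.filter (fun t => s ⊆ t), ∑ V ∈ (t \ s).powerset,
      if ty c s V = Lab.X then Φ s t V else 0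

end Network

end R5

end

section

/-! Block AWID. -/

namespace R5

open Finset

theorem stmt_AWID (α : Type) [DecidableEq α] : Stmt_AWID α := by
  intro τ V h0
  have h1 := QP.mass h0 V
  have h2 := QP.sum_bF (fun _ => (0 : ℝ)) h0 V
  have hA1 : A1 τ (fun _ => (0 : ℝ)) V = aw τ V := by
    unfold A1 aw
    refine sum_congr rfl fun U _ => ?_
    congr 1
    cases hc : τ U with
    | A => rfl
    | B => simp only; rw [fw_of_ne (by rw [hc]; decide)]
    | X => simp only; rw [fw_of_ne (by rw [hc]; decide), mul_zero]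
  rw [hA1] at h2
  rw [sum_filter] at h1 h2
  have e1 : (∑ U ∈ V.powerset, if τ U = Lab.A then 0 else
      fwb τ U / (V.card.choose U.card : ℝ)) =
      ∑ U ∈ V.powerset, if τ U ≠ Lab.A then QP.P1 τ V U else 0 := by
    refine sum_congr rfl fun U _ => ?_
    unfold QP.P1
    split_ifs with h <;> simp_all
  have e2 : (∑ U ∈ V.powerset, if τ U = Lab.A then 0 else
      (U.card : ℝ) * fwb τ U / (V.card.choose U.card : ℝ)) =
      ((V.card : ℝ) + 1) * (∑ U ∈ V.powerset, if τ U ≠ Lab.A then QP.P1 τ V U else 0) -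
      ∑ U ∈ V.powerset, if τ U ≠ Lab.A then
        QP.P1 τ V U * QP.bF τ (fun _ => (0 : ℝ)) V U else 0 := by
    rw [mul_sum, ← sum_sub_distrib]
    refine sum_congr rfl fun U _ => ?_
    unfold QP.P1 QP.bF QP.aF
    by_cases h : τ U = Lab.A
    · simp [h]
    · simp only [h, if_false, ne_eq, not_false_eq_true, if_true, ite_self, add_zero]
      ring
  constructor
  · rw [e1, h1]; ring
  · rw [e2, h1, h2]; ring

end R5

end

section

/-! Block CUT3. -/

namespace R5

open Finset MP_8b6acb_co

namespace C3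

/-- Sinkhorn scaling for a matched pair of finite sets. -/
theorem sink_finset {σ θ : Type} [DecidableEq σ] [DecidableEq θ] (S : Finset σ) (φ : σ → θ)
    (hφ : Set.InjOn φ S) (z : σ → θ → ℝ) (hz : ∀ s ∈ S, ∀ t ∈ S.image φ, 0 ≤ z s t)
    (hzφ : ∀ s ∈ S, 0 < z s (φ s)) {ε : ℝ} (hε : 0 < ε) :
    ∃ (a : σ → ℝ) (b : θ → ℝ), (∀ s, 0 < a s) ∧ (∀ t, 0 < b t) ∧
      (∀ s ∈ S, |(∑ t ∈ S.image φ, a s * b t * z s t) - 1| ≤ ε) ∧
      (∀ t ∈ S.image φ, |(∑ s ∈ S, a s * b t * z s t) - 1| ≤ ε) := by
  classical
  set T := S.image φ with hT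
  let e : S ≃ T := Equiv.ofBijective (fun s => ⟨φ s.1, mem_image_of_mem φ s.2⟩) (by
    constructor
    · rintro ⟨s, hs⟩ ⟨s', hs'⟩ h
      simp only [Subtype.mk.injEq] at h
      exact Subtype.ext (hφ hs hs' h)
    · rintro ⟨t, ht⟩
      obtain ⟨s, hs, rfl⟩ := mem_image.1 ht
      exact ⟨⟨s, hs⟩, rfl⟩)
  obtain ⟨a, b, ha, hb, h1, h2⟩ := sinkhorn_approx e (fun s t => z s.1 t.1)
    (fun s t => hz _ s.2 _ t.2) (fun s => hzφ _ s.2) (fun _ => 1) (fun _ => one_pos) hε
  refine ⟨fun s => if h : s ∈ S then a ⟨s, h⟩ else 1, fun t => if h : t ∈ T then b ⟨t, h⟩ else 1,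
    ?_, ?_, ?_, ?_⟩
  · intro s; simp only; split_ifs; exacts [ha _, one_pos]
  · intro t; simp only; split_ifs; exacts [hb _, one_pos]
  · intro s hs
    have h := h1 ⟨s, hs⟩
    have e1 : ∑ t ∈ T, (if h : s ∈ S then a ⟨s, h⟩ else 1) * (if h : t ∈ T then b ⟨t, h⟩ else 1) *
        z s t = ∑ t : T, a ⟨s, hs⟩ * b t * z s t.1 := by
      rw [← sum_attach, dif_pos hs]
      refine sum_congr rfl fun t _ => ?_
      rw [dif_pos t.2]
    rw [e1]; exact h
  · intro t ht
    have h := h2 ⟨t, ht⟩
    have e1 : ∑ s ∈ S, (if h : s ∈ S then a ⟨s, h⟩ else 1) * (if h : t ∈ T then b ⟨t, h⟩ else 1) *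
        z s t = ∑ s : S, a s * b ⟨t, ht⟩ * z s.1 t := by
      rw [← sum_attach, dif_pos ht]
      refine sum_congr rfl fun s _ => ?_
      rw [dif_pos s.2]
    rw [e1]; exact h

variable {α : Type} [Fintype α] [DecidableEq α]

theorem Zt_pos {τ : Finset α → Lab} {D : Finset α} (h0 : τ ∅ = Lab.A) : 0 < Zt τ D := by
  unfold Zt
  have h1 := one_le_aw h0 D
  have h2 := ab_nonneg τ D ∅
  positivity

/-- There is at least one cut object. -/
theorem exists_object {c : Finset α → Lab} {i j : ℕ} {S T : Finset (Finset α)}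
    {s t : Finset α} (hs : s ∈ S) (ht : t ∈ T) (hst : s ⊆ t) (hsi : s.card = i) (htj : t.card = j)
    (hcs : c s = Lab.A) (hct : c t = Lab.B) (hij : i < j) :
    0 < (netE c i j S T).card + (netX c i j).card := by
  -- minimal set not labelled A
  have hex : ∃ V : Finset α, V ⊆ t \ s ∧ c (s ∪ V) ≠ Lab.A := by
    refine ⟨t \ s, Subset.refl _, ?_⟩
    rw [union_sdiff_of_subset hst, hct]; decide
  obtain ⟨V, hV, hmin⟩ := exists_min_image
    ((t \ s).powerset.filter fun V => c (s ∪ V) ≠ Lab.A) card (by
      obtain ⟨V, hV1, hV2⟩ := hex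
      exact ⟨V, mem_filter.2 ⟨mem_powerset.2 hV1, hV2⟩⟩)
  rw [mem_filter, mem_powerset] at hV
  have hVne : V.Nonempty := by
    by_contra h
    rw [not_nonempty_iff_eq_empty] at h
    subst h
    exact hV.2 (by simpa using hcs)
  obtain ⟨x, hx⟩ := hVne
  have hxts := mem_sdiff.1 (hV.1 hx)
  have hdisj : Disjoint s V := by
    rw [Finset.disjoint_left]
    intro y h1 h2
    exact (mem_sdiff.1 (hV.1 h2)).2 h1
  have hA : c (s ∪ V.erase x) = Lab.A := by
    by_contra h
    have := hmin (V.erase x) (mem_filter.2 ⟨mem_powerset.2 ((erase_subset _ _).trans hV.1), h⟩)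
    have h2 := card_erase_lt_of_mem hx
    omega
  have hins : insert x (s ∪ V.erase x) = s ∪ V := by
    rw [← union_insert, insert_erase hx]
  have hcard : (s ∪ V).card = i + V.card := by
    rw [card_union_of_disjoint hdisj, hsi]
  have hVt : s ∪ V ⊆ t := union_subset hst (hV.1.trans sdiff_subset)
  have hle : (s ∪ V).card ≤ j := by rw [← htj]; exact card_le_card hVt
  have hVpos : 0 < V.card := card_pos.2 ⟨x, hx⟩
  cases hc : c (s ∪ V) with
  | A => exact absurd hc hV.2
  | B =>
    have : (s ∪ V.erase x, x) ∈ netE c i j S T := by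
      unfold netE
      rw [mem_filter]
      refine ⟨mem_univ _, ?_, ?_, hA, ?_, ?_⟩
      · simp only [mem_union, mem_erase, not_or]
        exact ⟨hxts.2, fun h => h.1 rfl⟩
      · by_cases h1 : V.card = 1
        · left
          have : V.erase x = ∅ := by
            rw [← card_eq_zero, card_erase_of_mem hx, h1]
          simp only [this, union_empty]
          exact hs
        · right
          rw [mem_Mid]
          have h3 : (s ∪ V.erase x).card = i + (V.card - 1) := by
            rw [card_union_of_disjoint (hdisj.mono_right (erase_subset _ _)), hsi,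
              card_erase_of_mem hx]
          rw [h3]
          omega
      · simp only [hins]
        by_cases h1 : (s ∪ V).card = j
        · right
          have : s ∪ V = t := eq_of_subset_of_card_le hVt (by rw [htj, h1])
          rw [this]; exact ht
        · left
          rw [mem_Mid]; omega
      · simp only [hins]; exact hc
    have := card_pos.2 ⟨_, this⟩
    omega
  | X =>
    have : s ∪ V ∈ netX c i j := by
      unfold netX
      rw [mem_filter, mem_Mid]
      refine ⟨⟨by omega, ?_⟩, hc⟩
      by_contra h1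
      have h2 : (s ∪ V).card = j := by omega
      have h3 : s ∪ V = t := eq_of_subset_of_card_le hVt (by rw [htj, h2])
      rw [h3, hct] at hc
      exact absurd hc (by decide)
    have := card_pos.2 ⟨_, this⟩
    omega

end C3

end R5

end

section

/-! Block QPI. -/

namespace R5

open Finset

namespace QP

variable {α : Type} [DecidableEq α]

theorem A1_congr_pi (τ : Finset α → Lab) {π π' : Finset α → ℝ} {V : Finset α}
    (h : ∀ U ⊆ V, π U = π' U) : A1 τ π V = A1 τ π' V := by
  unfold A1
  refine sum_congr rfl fun U hU => ?_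
  rw [h U (mem_powerset.1 hU)]

theorem qpi_edges_L {τ : Finset α → Lab} (π : Finset α → ℝ) {D V : Finset α} (hV : V ⊆ D) :
    (∑ x ∈ D \ V, if isE τ V x then
      1 / ((D.card.choose V.card : ℝ) * ((D.card : ℝ) - V.card)) *
        (bw τ D (insert x V) * A1 τ π V ^ 2 / ((V.card : ℝ) + 1)) else 0) =
    if τ V = Lab.A then
      bwb τ D V / (D.card.choose V.card : ℝ) * (A1 τ π V ^ 2 / ((V.card : ℝ) + 1)) else 0 := by
  by_cases hA : τ V = Lab.A
  · rw [if_pos hA]
    have e1 : ∀ x ∈ D \ V, (if isE τ V x then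
      1 / ((D.card.choose V.card : ℝ) * ((D.card : ℝ) - V.card)) *
        (bw τ D (insert x V) * A1 τ π V ^ 2 / ((V.card : ℝ) + 1)) else 0) =
        bw τ D (insert x V) * (1 / ((D.card.choose V.card : ℝ) * ((D.card : ℝ) - V.card)) *
        (A1 τ π V ^ 2 / ((V.card : ℝ) + 1))) := by
      intro x hx
      have hx' := mem_sdiff.1 hx
      by_cases hB : τ (insert x V) = Lab.B
      · rw [if_pos ⟨hA, hB⟩]; ring
      · rw [if_neg (fun h => hB h.2), bw_of_ne (insert_subset hx'.1 hV) hB, zero_mul]
    rw [sum_congr rfl e1, ← sum_mul]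
    unfold bwb
    rw [card_sdiff_cast hV]
    simp only [div_eq_mul_inv, mul_inv, one_mul]
    ring
  · rw [if_neg hA]
    refine sum_eq_zero fun x _ => ?_
    rw [if_neg (fun h => hA h.1)]

theorem qpi_edges_F {τ : Finset α → Lab} (π : Finset α → ℝ) {D U : Finset α} (hU : U ⊆ D) :
    (∑ x ∈ U, if isE τ (U.erase x) x then
      1 / ((D.card.choose (U.erase x).card : ℝ) * ((D.card : ℝ) - (U.erase x).card)) *
        (fw τ (U.erase x) * B1 τ D π (insert x (U.erase x)) ^ 2 /
          ((D.card : ℝ) - (U.erase x).card)) else 0) =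
    if τ U = Lab.B then P1 τ D U * (B1 τ D π U ^ 2 / bF τ π D U) else 0 := by
  by_cases hB : τ U = Lab.B
  · rw [if_pos hB]
    have e1 : ∀ x ∈ U, (if isE τ (U.erase x) x then
      1 / ((D.card.choose (U.erase x).card : ℝ) * ((D.card : ℝ) - (U.erase x).card)) *
        (fw τ (U.erase x) * B1 τ D π (insert x (U.erase x)) ^ 2 /
          ((D.card : ℝ) - (U.erase x).card)) else 0) =
        fw τ (U.erase x) * (1 / ((D.card.choose U.card : ℝ) * (U.card : ℝ)) *
          (B1 τ D π U ^ 2 / ((D.card : ℝ) + 1 - U.card))) := by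
      intro x hx
      have hle := card_le_card hU
      obtain ⟨k, hk⟩ : ∃ k, U.card = k + 1 :=
        ⟨U.card - 1, by have := card_pos.2 ⟨x, hx⟩; omega⟩
      have hke : (U.erase x).card = k := by rw [card_erase_of_mem hx, hk]; rfl
      by_cases hA : τ (U.erase x) = Lab.A
      · rw [if_pos ⟨hA, by rw [insert_erase hx]; exact hB⟩, insert_erase hx, hke, hk]
        rw [choose_up (show k < D.card by omega)]
        push_cast
        rw [show (D.card : ℝ) + 1 - ((k : ℝ) + 1) = (D.card : ℝ) - k by ring]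
        ring
      · rw [if_neg (fun h => hA h.1), fw_of_ne hA, zero_mul]
    rw [sum_congr rfl e1, ← sum_mul]
    unfold P1 fwb bF aF
    rw [hB]
    simp only [reduceCtorEq, if_false, add_zero, div_eq_mul_inv, mul_inv, one_mul]
    ring
  · rw [if_neg hB]
    refine sum_eq_zero fun x hx => ?_
    rw [if_neg]
    rintro ⟨_, h⟩
    rw [insert_erase hx] at h
    exact hB h

end QP

end R5

end

section

namespace R5

open Finset

/-- `log (1 + x) ≤ x / (1 + x) + x ^ 2 / 2`. -/
theorem log_one_add_le (x : ℝ) (hx : 0 ≤ x) : Real.log (1 + x) ≤ x / (1 + x) + x ^ 2 / 2 := by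
  let h : ℝ → ℝ := fun t => t / (1 + t) + t ^ 2 / 2 - Real.log (1 + t)
  have hd : ∀ t : ℝ, 0 ≤ t → HasDerivAt h ((1 * (1 + t) - t * 1) / (1 + t) ^ 2 + (2 * t) / 2 - 1 / (1 + t)) t := by
    intro t ht
    have ht1 : (1 + t) ≠ 0 := by positivity
    have d1 : HasDerivAt (fun t : ℝ => 1 + t) 1 t := by
      simpa using (hasDerivAt_id t).const_add (1 : ℝ)
    have d2 : HasDerivAt (fun t : ℝ => t / (1 + t)) ((1 * (1 + t) - t * 1) / (1 + t) ^ 2) t :=
      (hasDerivAt_id t).div d1 ht1
    have d3 : HasDerivAt (fun t : ℝ => t ^ 2 / 2) ((2 * t) / 2) t := by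
      have := (hasDerivAt_pow 2 t).div_const 2
      simpa using this
    have d4 : HasDerivAt (fun t : ℝ => Real.log (1 + t)) (1 / (1 + t)) t := by
      have := d1.log ht1
      simpa using this
    exact (d2.add d3).sub d4
  have hmono : MonotoneOn h (Set.Ici 0) := by
    apply monotoneOn_of_deriv_nonneg (convex_Ici 0)
    · intro t ht
      exact (hd t ht).continuousAt.continuousWithinAt
    · intro t ht
      rw [interior_Ici] at ht
      exact (hd t (le_of_lt ht)).differentiableAt.differentiableWithinAt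
    · intro t ht
      rw [interior_Ici] at ht
      have ht0 : (0 : ℝ) < t := ht
      rw [(hd t ht0.le).deriv]
      have ht1 : (0 : ℝ) < 1 + t := by linarith
      have : (1 * (1 + t) - t * 1) / (1 + t) ^ 2 + (2 * t) / 2 - 1 / (1 + t) =
          t * ((1 + t) ^ 2 - 1) / (1 + t) ^ 2 := by
        field_simp
        ring
      rw [this]
      apply div_nonneg _ (by positivity)
      apply mul_nonneg ht0.le
      nlinarith
  have := hmono (Set.mem_Ici.2 le_rfl) (Set.mem_Ici.2 hx) hx
  simp only [h] at this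
  norm_num at this
  linarith

theorem abs_const (l : ℝ) (hl : 1 ≤ l) :
    Real.log (1 + 1 / l) - 1 / (l + 1) ≤ 1 / (2 * l ^ 2) := by
  have hl0 : (0 : ℝ) < l := by linarith
  have h := log_one_add_le (1 / l) (by positivity)
  have e : 1 / l / (1 + 1 / l) + (1 / l) ^ 2 / 2 = 1 / (l + 1) + 1 / (2 * l ^ 2) := by
    field_simp
  rw [e] at h
  linarith

/-- The concavity bound. -/
theorem abs_conc (l ν : ℝ) (hl : 1 ≤ l) (h0 : 0 ≤ ν) (h1 : ν ≤ 1) :
    -Real.log (1 - ν / (l + 1)) ≤ ν * Real.log (1 + 1 / l) := by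
  have hl0 : (0 : ℝ) < l := by linarith
  have hl1 : (0 : ℝ) < l + 1 := by linarith
  have hc := strictConcaveOn_log_Ioi.concaveOn.2 (x := l / (l + 1)) (y := 1)
    (Set.mem_Ioi.2 (by positivity)) (Set.mem_Ioi.2 one_pos) h0 (by linarith : (0 : ℝ) ≤ 1 - ν)
    (by ring)
  simp only [smul_eq_mul, Real.log_one, mul_zero, add_zero, mul_one] at hc
  have e1 : ν * (l / (l + 1)) + (1 - ν) = 1 - ν / (l + 1) := by
    field_simp
    ring
  have e2 : Real.log (l / (l + 1)) = -Real.log (1 + 1 / l) := by
    rw [← Real.log_inv]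
    congr 1
    field_simp
  rw [e1, e2] at hc
  linarith

end R5

end

section

/-!
# COSTB: the bound for `COST`

The quadratic inequality QPI with `π U = |U| / l` and the entropy inequality ABS.
-/

namespace R5
namespace COSTB

open Finset

variable {α : Type} [DecidableEq α]

/-- weighted count of the subsets -/
noncomputable def AW (w : Finset α → ℝ) (V : Finset α) : ℝ :=
  ∑ X ∈ V.powerset, w X / (V.card.choose X.card : ℝ)

theorem AW_rec {w : Finset α → ℝ} {V : Finset α} (hV : V ≠ ∅) :
    AW w V = w V + (∑ x ∈ V, AW w (V.erase x)) / (V.card : ℝ) := by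
  have hc : (0 : ℝ) < V.card := by
    rw [Nat.cast_pos, card_pos]; exact nonempty_iff_ne_empty.2 hV
  have h1 : ∑ x ∈ V, AW w (V.erase x) =
      ∑ X ∈ V.powerset, ∑ x ∈ V \ X, w X / ((V.card - 1).choose X.card : ℝ) := by
    unfold AW
    rw [sum_sigma', sum_sigma']
    refine sum_bij' (fun p _ => (⟨p.2, p.1⟩ : (_ : Finset α) × α))
      (fun p _ => (⟨p.2, p.1⟩ : (_ : α) × Finset α)) ?_ ?_ ?_ ?_ ?_
    · rintro ⟨x, X⟩ h
      simp only [mem_sigma, mem_powerset, mem_sdiff] at h ⊢
      exact ⟨h.2.trans (erase_subset _ _), h.1, fun hx => notMem_erase x V (h.2 hx)⟩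
    · rintro ⟨X, x⟩ h
      simp only [mem_sigma, mem_powerset, mem_sdiff] at h ⊢
      exact ⟨h.2.1, subset_erase.2 ⟨h.1, h.2.2⟩⟩
    · rintro ⟨x, X⟩ _; rfl
    · rintro ⟨X, x⟩ _; rfl
    · rintro ⟨x, X⟩ h
      simp only [mem_sigma, mem_powerset] at h
      rw [card_erase_of_mem h.1]
  rw [h1]
  unfold AW
  rw [← add_sum_erase _ _ (mem_powerset_self V), Nat.choose_self, Nat.cast_one, div_one,
    ← add_sum_erase _ (fun X => ∑ x ∈ V \ X, w X / ((V.card - 1).choose X.card : ℝ))
      (mem_powerset_self V)]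
  simp only [sdiff_self, bot_eq_empty, sum_empty, zero_add]
  congr 1
  rw [sum_div]
  refine sum_congr rfl fun X hX => ?_
  rw [mem_erase, mem_powerset] at hX
  have hlt : X.card < V.card := card_lt_card (ssubset_of_subset_of_ne hX.2 hX.1)
  rw [sum_const, nsmul_eq_mul, card_sdiff_cast hX.2]
  have hp := choose_pos_real hlt.le
  have hp2 : (0 : ℝ) < ((V.card - 1).choose X.card : ℝ) := choose_pos_real (by omega)
  have hid : (V.card.choose X.card : ℝ) * ((V.card : ℝ) - X.card) =
      (V.card : ℝ) * ((V.card - 1).choose X.card : ℝ) := by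
    obtain ⟨n, hn⟩ : ∃ n, V.card = n + 1 := ⟨V.card - 1, by omega⟩
    rw [hn] at hlt ⊢
    have h3 : (((n + 1) - X.card : ℕ) : ℝ) = ((n + 1 : ℕ) : ℝ) - X.card := Nat.cast_sub hlt.le
    rw [← h3, Nat.add_sub_cancel]
    have h4 : (n + 1).choose X.card * (n + 1 - X.card) = (n + 1) * n.choose X.card := by
      rw [← Nat.choose_mul_succ_eq, mul_comm]
    exact_mod_cast h4
  rw [div_eq_div_iff hp.ne' hc.ne']
  have : ((V.card : ℝ) - X.card) * (w X / ((V.card - 1).choose X.card : ℝ)) *
      (V.card.choose X.card : ℝ) = w X * ((V.card.choose X.card : ℝ) *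
        ((V.card : ℝ) - X.card)) / ((V.card - 1).choose X.card : ℝ) := by ring
  rw [this, hid]
  field_simp

/-- weights of the sets with label `X` -/
noncomputable def xw (σ : Finset α → Lab) (U : Finset α) : ℝ :=
  if σ U = Lab.X then (U.card : ℝ) * fwb σ U else 0

/-- weights of the sets with label `B` -/
noncomputable def bwt (σ : Finset α → Lab) (U : Finset α) : ℝ :=
  if σ U = Lab.B then (U.card : ℝ) * fwb σ U else 0

theorem xw_nonneg (σ : Finset α → Lab) (U : Finset α) : 0 ≤ xw σ U := by
  unfold xw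
  split_ifs
  · exact mul_nonneg (Nat.cast_nonneg _) (fwb_nonneg _ _)
  · exact le_rfl

theorem bwt_nonneg (σ : Finset α → Lab) (U : Finset α) : 0 ≤ bwt σ U := by
  unfold bwt
  split_ifs
  · exact mul_nonneg (Nat.cast_nonneg _) (fwb_nonneg _ _)
  · exact le_rfl

omit [DecidableEq α] in
theorem AW_nonneg {w : Finset α → ℝ} (h : ∀ U, 0 ≤ w U) (V : Finset α) : 0 ≤ AW w V :=
  sum_nonneg fun _ _ => div_nonneg (h _) (Nat.cast_nonneg _)

theorem aw_eq (σ : Finset α → Lab) (V : Finset α) : aw σ V = AW (fw σ) V := rfl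

theorem A1_eq (σ : Finset α → Lab) (l : ℝ) (V : Finset α) :
    A1 σ (fun U => (U.card : ℝ) / l) V = aw σ V + AW (xw σ) V / l := by
  unfold A1 aw AW
  rw [sum_div, ← sum_add_distrib]
  refine sum_congr rfl fun U _ => ?_
  unfold xw
  cases h : σ U with
  | A => simp
  | B => rw [fw_of_ne (by rw [h]; simp)]; simp
  | X =>
    rw [fw_of_ne (by rw [h]; simp)]
    simp only [if_true, zero_div, zero_add]
    ring

theorem awid (hW : Stmt_AWID α) {σ : Finset α → Lab} (h0 : σ ∅ = Lab.A) (V : Finset α) :
    aw σ V = ((V.card : ℝ) + 1) * fw σ V + AW (xw σ) V + AW (bwt σ) V := by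
  rw [(hW σ V h0).2, add_assoc]
  congr 1
  unfold AW
  rw [← sum_add_distrib]
  refine sum_congr rfl fun U _ => ?_
  unfold xw bwt
  cases h : σ U <;> simp

/-- the mass of the colour L with a weight `G` -/
noncomputable def LM (σ : Finset α → Lab) (D : Finset α) (G : Finset α → ℝ) : ℝ :=
  (∑ V ∈ D.powerset, ∑ x ∈ D \ V, if isE σ V x then
      G V * bw σ D (insert x V) / ((D.card.choose V.card : ℝ) * ((D.card : ℝ) - V.card)) else 0) +
    (∑ V ∈ D.powerset, if σ V = Lab.X then G V * bwb σ D V / (D.card.choose V.card : ℝ) else 0)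

theorem LM_AW (hG : Stmt_GMASS α) {σ : Finset α → Lab} {D : Finset α} (hA : σ ∅ = Lab.A)
    (hB : σ D = Lab.B) {w : Finset α → ℝ} (hw : ∀ U, σ U = Lab.B → w U = 0) :
    LM σ D (AW w) = AW w D := by
  apply hG σ D (AW w) hA hB
  intro Y _ hY hYB
  rw [AW_rec hY, hw Y hYB, zero_add]

theorem UEL_eq (σ : Finset α → Lab) (D : Finset α) :
    UEL σ D = AW (bwt σ) D / ((D.card : ℝ) + 1) := by
  unfold UEL
  rw [sum_up_down D (fun V x => if isE σ V x then
    ((V.card : ℝ) + 1) * fw σ V /
      (((D.card : ℝ) + 1) * (D.card.choose V.card : ℝ) * ((D.card : ℝ) - V.card)) else 0)]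
  unfold AW
  rw [sum_div]
  refine sum_congr rfl fun U hU => ?_
  rw [mem_powerset] at hU
  have hcU := card_le_card hU
  have hl : (0 : ℝ) < (D.card : ℝ) + 1 := by positivity
  have hCU := choose_pos_real hcU
  have h1 : ∀ x ∈ U, (if isE σ (U.erase x) x then
      (((U.erase x).card : ℝ) + 1) * fw σ (U.erase x) /
      (((D.card : ℝ) + 1) * (D.card.choose (U.erase x).card : ℝ) *
        ((D.card : ℝ) - (U.erase x).card)) else 0) =
      if σ U = Lab.B then fw σ (U.erase x) / (((D.card : ℝ) + 1) * (D.card.choose U.card : ℝ))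
        else 0 := by
    intro x hx
    have hUpos : 0 < U.card := card_pos.2 ⟨x, hx⟩
    obtain ⟨n, hn⟩ : ∃ n, U.card = n + 1 := ⟨U.card - 1, by omega⟩
    have hce : (U.erase x).card = n := by rw [card_erase_of_mem hx, hn]; rfl
    have hins : insert x (U.erase x) = U := insert_erase hx
    have hiff : isE σ (U.erase x) x ↔ σ (U.erase x) = Lab.A ∧ σ U = Lab.B := by
      unfold isE; rw [hins]
    rw [hce, hn]
    have hnl : n < D.card := by omega
    have hup := choose_up hnl
    have hCn := choose_pos_real hnl.le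
    have hCn1 : (0 : ℝ) < (D.card.choose (n + 1) : ℝ) := choose_pos_real (by omega)
    have hd : (0 : ℝ) < (D.card : ℝ) - n := by
      rw [sub_pos]; exact_mod_cast hnl
    by_cases hB : σ U = Lab.B
    · by_cases hA : σ (U.erase x) = Lab.A
      · rw [if_pos (hiff.2 ⟨hA, hB⟩), if_pos hB, mul_assoc, hup]
        field_simp
      · rw [if_neg (fun h => hA (hiff.1 h).1), if_pos hB, fw_of_ne hA]
        simp
    · rw [if_neg (fun h => hB (hiff.1 h).2), if_neg hB]
  rw [sum_congr rfl h1]
  unfold bwt
  by_cases hB : σ U = Lab.B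
  · simp only [if_pos hB]
    rw [← sum_div]
    unfold fwb
    by_cases hUe : U = ∅
    · subst hUe; simp
    · have hc : (0 : ℝ) < U.card := by
        rw [Nat.cast_pos, card_pos]; exact nonempty_iff_ne_empty.2 hUe
      field_simp
  · simp only [if_neg hB]
    simp

/-- sums over the objects -/
noncomputable def LS (D : Finset α) (f : Finset α → Option α → ℝ) : ℝ :=
  (∑ V ∈ D.powerset, ∑ x ∈ D \ V, f V (some x)) + ∑ V ∈ D.powerset, f V none

/-- the index set -/
def KK (D : Finset α) : Finset (Bool × ((_ : Finset α) × Option α)) :=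
  (univ : Finset Bool) ×ˢ (D.powerset.sigma fun V => insertNone (D \ V))

theorem sum_KK (D : Finset α) (F : Bool → Finset α → Option α → ℝ) :
    ∑ p ∈ KK D, F p.1 p.2.1 p.2.2 = LS D (F true) + LS D (F false) := by
  unfold KK LS
  rw [sum_product, Fintype.sum_bool]
  have h : ∀ b : Bool, ∑ y ∈ D.powerset.sigma fun V => insertNone (D \ V), F b y.1 y.2 =
      (∑ V ∈ D.powerset, ∑ x ∈ D \ V, F b V (some x)) + ∑ V ∈ D.powerset, F b V none := by
    intro b
    rw [sum_sigma, ← sum_add_distrib]
    refine sum_congr rfl fun V _ => ?_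
    rw [sum_insertNone, add_comm]
  rw [h true, h false]

theorem mem_KK {D : Finset α} {b : Bool} {V : Finset α} {o : Option α}
    (h : (⟨b, ⟨V, o⟩⟩ : Bool × ((_ : Finset α) × Option α)) ∈ KK D) :
    V ⊆ D ∧ ∀ x, o = some x → x ∈ D \ V := by
  unfold KK at h
  rw [mem_product, mem_sigma] at h
  refine ⟨mem_powerset.1 h.2.1, ?_⟩
  rintro x rfl
  exact (some_mem_insertNone.1 h.2.2)

/-- masses -/
noncomputable def yy (σ : Finset α → Lab) (D V : Finset α) : Option α → ℝ
  | none => yLv σ D V
  | some x => yLe σ D V x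

/-- the gain -/
noncomputable def ee (σ : Finset α → Lab) (D V : Finset α) : Option α → ℝ
  | none => if σ V = Lab.X then
      AW (xw σ) V * bwb σ D V / (((D.card : ℝ) + 1) * (D.card.choose V.card : ℝ)) else 0
  | some x => if isE σ V x then AW (xw σ) V * bw σ D (insert x V) /
      (((D.card : ℝ) + 1) * (D.card.choose V.card : ℝ) * ((D.card : ℝ) - (V.card : ℝ))) else 0

/-- the reference masses -/
noncomputable def uu (D V : Finset α) : Option α → ℝ
  | none => if V.card = 0 then 1 else ((V.card : ℝ) / D.card) / (D.card.choose V.card : ℝ)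
  | some _ => ((V.card : ℝ) + 1) /
      (((D.card : ℝ) + 1) * (D.card.choose V.card : ℝ) * ((D.card : ℝ) - (V.card : ℝ)))

theorem LS_yy (σ : Finset α → Lab) (D : Finset α) :
    LS D (yy σ D) = LM σ D (AW (fw σ)) / ((D.card : ℝ) + 1) := by
  unfold LS LM
  have hl : (0 : ℝ) < (D.card : ℝ) + 1 := by positivity
  rw [add_div, sum_div, sum_div]
  congr 1
  · refine sum_congr rfl fun V _ => ?_
    rw [sum_div]
    refine sum_congr rfl fun x _ => ?_
    show yLe σ D V x = _
    unfold yLe
    split_ifs
    · rw [aw_eq, div_div]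
      congr 1
      ring
    · simp
  · refine sum_congr rfl fun V _ => ?_
    show yLv σ D V = _
    unfold yLv
    split_ifs
    · rw [aw_eq, div_div]
      congr 1
      ring
    · simp

theorem LS_ee (σ : Finset α → Lab) (D : Finset α) :
    LS D (ee σ D) = LM σ D (AW (xw σ)) / ((D.card : ℝ) + 1) := by
  unfold LS LM
  have hl : (0 : ℝ) < (D.card : ℝ) + 1 := by positivity
  rw [add_div, sum_div, sum_div]
  congr 1
  · refine sum_congr rfl fun V _ => ?_
    rw [sum_div]
    refine sum_congr rfl fun x _ => ?_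
    simp only [ee]
    split_ifs
    · rw [div_div]
      congr 1
      ring
    · simp
  · refine sum_congr rfl fun V _ => ?_
    simp only [ee]
    split_ifs
    · rw [div_div]
      congr 1
      ring
    · simp

theorem LS_add (D : Finset α) (f g : Finset α → Option α → ℝ) :
    LS D (fun V o => f V o + g V o) = LS D f + LS D g := by
  unfold LS
  simp only [sum_add_distrib]
  ring

theorem LS_div (D : Finset α) (f : Finset α → Option α → ℝ) (c : ℝ) :
    LS D (fun V o => f V o / c) = LS D f / c := by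
  unfold LS
  simp only [← sum_div, ← add_div]

theorem LM_xw (hG : Stmt_GMASS α) {σ : Finset α → Lab} {D : Finset α} (hA : σ ∅ = Lab.A)
    (hB : σ D = Lab.B) : LM σ D (AW (xw σ)) = AW (xw σ) D := by
  apply LM_AW hG hA hB
  intro U hU
  unfold xw
  rw [if_neg (by rw [hU]; simp)]

theorem LM_fw (hG : Stmt_GMASS α) {σ : Finset α → Lab} {D : Finset α} (hA : σ ∅ = Lab.A)
    (hB : σ D = Lab.B) : LM σ D (AW (fw σ)) = aw σ D := by
  rw [LM_AW hG hA hB, aw_eq]
  intro U hU
  exact fw_of_ne (by rw [hU]; simp)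

/-- the total mass of the colour L -/
theorem LS_yy' (hG : Stmt_GMASS α) {σ : Finset α → Lab} {D : Finset α} (hA : σ ∅ = Lab.A)
    (hB : σ D = Lab.B) : LS D (yy σ D) = aw σ D / ((D.card : ℝ) + 1) := by
  rw [LS_yy, LM_fw hG hA hB]

/-- the sum of `y - e` -/
theorem LS_ye (hW : Stmt_AWID α) (hG : Stmt_GMASS α) {σ : Finset α → Lab} {D : Finset α}
    (hA : σ ∅ = Lab.A) (hB : σ D = Lab.B) : LS D (yy σ D) - LS D (ee σ D) = UEL σ D := by
  rw [LS_yy' hG hA hB, LS_ee, LM_xw hG hA hB, UEL_eq, awid hW hA,
    fw_of_ne (by rw [hB]; simp), ← sub_div]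
  congr 1
  ring

/-- the sum of `q = y + e / l` -/
theorem LS_q (hG : Stmt_GMASS α) {σ : Finset α → Lab} {D : Finset α} (hA : σ ∅ = Lab.A)
    (hB : σ D = Lab.B) : LS D (yy σ D) + LS D (ee σ D) / (D.card : ℝ) =
      A1 σ (fun U => (U.card : ℝ) / D.card) D / ((D.card : ℝ) + 1) := by
  rw [LS_yy' hG hA hB, LS_ee, LM_xw hG hA hB, A1_eq]
  ring

theorem A1_nonneg (σ : Finset α → Lab) (D V : Finset α) :
    0 ≤ A1 σ (fun U => (U.card : ℝ) / D.card) V := by
  rw [A1_eq]
  exact add_nonneg (aw_nonneg _ _) (div_nonneg (AW_nonneg (xw_nonneg σ) _) (Nat.cast_nonneg _))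

/-- the colour L part of QPI -/
noncomputable def LQ (σ : Finset α → Lab) (D : Finset α) : ℝ :=
  (∑ V ∈ D.powerset, ∑ x ∈ D \ V, if isE σ V x then
      1 / ((D.card.choose V.card : ℝ) * ((D.card : ℝ) - V.card)) *
      (bw σ D (insert x V) * A1 σ (fun U => (U.card : ℝ) / D.card) V ^ 2 / ((V.card : ℝ) + 1))
        else 0) +
  (∑ V ∈ D.powerset, if σ V = Lab.X then
      1 / (D.card.choose V.card : ℝ) *
      (bwb σ D V * A1 σ (fun U => (U.card : ℝ) / D.card) V ^ 2 /
        ((V.card : ℝ) + (V.card : ℝ) / D.card)) else 0)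

/-- `B1` through `A1` of the dual type -/
theorem B1_eq (τ : Finset α → Lab) {D V : Finset α} (hD : D.Nonempty) :
    B1 τ D (fun U => (U.card : ℝ) / D.card) V =
      A1 (dual τ D) (fun U => (U.card : ℝ) / D.card) (D \ V) := by
  have hl0 : (0 : ℝ) < (D.card : ℝ) := by exact_mod_cast card_pos.2 hD
  unfold B1 A1
  refine sum_congr rfl fun U hU => ?_
  rw [mem_powerset] at hU
  have hUD : U ⊆ D := hU.trans sdiff_subset
  have h1 : 1 - ((D \ U).card : ℝ) / D.card = (U.card : ℝ) / D.card := by
    rw [card_sdiff_cast hUD]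
    field_simp
    ring
  cases h : dual τ D U <;> simp only [h1]

/-- QPI, split into the two colours -/
theorem qpi_split (τ : Finset α → Lab) (D : Finset α) (hD : D.Nonempty) :
    (∑ V ∈ D.powerset, ∑ x ∈ D \ V, if isE τ V x then
      1 / ((D.card.choose V.card : ℝ) * ((D.card : ℝ) - V.card)) *
      (bw τ D (insert x V) * A1 τ (fun U => (U.card : ℝ) / D.card) V ^ 2 / ((V.card : ℝ) + 1) +
       fw τ V * B1 τ D (fun U => (U.card : ℝ) / D.card) (insert x V) ^ 2 /
        ((D.card : ℝ) - V.card)) else 0) +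
  (∑ V ∈ D.powerset, if τ V = Lab.X then
      1 / (D.card.choose V.card : ℝ) *
      (bwb τ D V * A1 τ (fun U => (U.card : ℝ) / D.card) V ^ 2 /
        ((V.card : ℝ) + (V.card : ℝ) / D.card) +
       fwb τ V * B1 τ D (fun U => (U.card : ℝ) / D.card) V ^ 2 /
        ((D.card : ℝ) - V.card + 1 - (V.card : ℝ) / D.card)) else 0) =
    LQ τ D + LQ (dual τ D) D := by
  have hl0 : (0 : ℝ) < (D.card : ℝ) := by exact_mod_cast card_pos.2 hD
  -- the dual sums
  have hdE : (∑ V ∈ D.powerset, ∑ x ∈ D \ V, if isE (dual τ D) V x then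
      1 / ((D.card.choose V.card : ℝ) * ((D.card : ℝ) - V.card)) *
      (bw (dual τ D) D (insert x V) * A1 (dual τ D) (fun U => (U.card : ℝ) / D.card) V ^ 2 /
        ((V.card : ℝ) + 1)) else 0) =
      ∑ V ∈ D.powerset, ∑ x ∈ D \ V, if isE τ V x then
      1 / ((D.card.choose V.card : ℝ) * ((D.card : ℝ) - V.card)) *
      (fw τ V * B1 τ D (fun U => (U.card : ℝ) / D.card) (insert x V) ^ 2 /
        ((D.card : ℝ) - V.card)) else 0 := by
    rw [← sum_edge_compl D (fun V x => if isE (dual τ D) V x then
      1 / ((D.card.choose V.card : ℝ) * ((D.card : ℝ) - V.card)) *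
      (bw (dual τ D) D (insert x V) * A1 (dual τ D) (fun U => (U.card : ℝ) / D.card) V ^ 2 /
        ((V.card : ℝ) + 1)) else 0)]
    refine sum_congr rfl fun V hV => sum_congr rfl fun x hx => ?_
    rw [mem_powerset] at hV
    have hx' := mem_sdiff.1 hx
    have hins : insert x V ⊆ D := insert_subset hx'.1 hV
    have h2 : insert x (D \ insert x V) = D \ V := by
      ext y
      simp only [mem_insert, mem_sdiff, not_or]
      constructor
      · rintro (rfl | ⟨h3, h4, h5⟩)
        · exact hx'
        · exact ⟨h3, h5⟩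
      · rintro ⟨h3, h4⟩
        by_cases hy : y = x
        · exact Or.inl hy
        · exact Or.inr ⟨h3, hy, h4⟩
    have hlt : V.card < D.card := card_lt_card ⟨hV, fun h => hx'.2 (h hx'.1)⟩
    have hci : (insert x V).card = V.card + 1 := card_insert_of_notMem hx'.2
    have hc1 : (D \ insert x V).card = D.card - (V.card + 1) := by
      rw [card_sdiff_of_subset hins, hci]
    have hc2 : ((D \ insert x V).card : ℝ) = (D.card : ℝ) - (V.card + 1) := by
      rw [card_sdiff_cast hins, hci]; push_cast; ring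
    by_cases hE : isE τ V x
    · rw [if_pos ((isE_dual hV hx).2 hE), if_pos hE, h2, bw_dual,
        Finset.sdiff_sdiff_eq_self hV, ← B1_eq τ hD, hc2, hc1,
        Nat.choose_symm (by omega : V.card + 1 ≤ D.card)]
      have hup := choose_up hlt
      have e1 : (D.card.choose (V.card + 1) : ℝ) * ((D.card : ℝ) - ((D.card : ℝ) -
          ((V.card : ℝ) + 1))) = (D.card.choose V.card : ℝ) * ((D.card : ℝ) - V.card) := by
        rw [hup]; ring
      have e2 : (D.card : ℝ) - ((V.card : ℝ) + 1) + 1 = (D.card : ℝ) - V.card := by ring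
      rw [e1, e2]
    · rw [if_neg (fun h => hE ((isE_dual hV hx).1 h)), if_neg hE]
  have hdX : (∑ V ∈ D.powerset, if (dual τ D) V = Lab.X then
      1 / (D.card.choose V.card : ℝ) *
      (bwb (dual τ D) D V * A1 (dual τ D) (fun U => (U.card : ℝ) / D.card) V ^ 2 /
        ((V.card : ℝ) + (V.card : ℝ) / D.card)) else 0) =
      ∑ V ∈ D.powerset, if τ V = Lab.X then
      1 / (D.card.choose V.card : ℝ) *
      (fwb τ V * B1 τ D (fun U => (U.card : ℝ) / D.card) V ^ 2 /
        ((D.card : ℝ) - V.card + 1 - (V.card : ℝ) / D.card)) else 0 := by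
    rw [← sum_powerset_compl D (fun V => if (dual τ D) V = Lab.X then
      1 / (D.card.choose V.card : ℝ) *
      (bwb (dual τ D) D V * A1 (dual τ D) (fun U => (U.card : ℝ) / D.card) V ^ 2 /
        ((V.card : ℝ) + (V.card : ℝ) / D.card)) else 0)]
    refine sum_congr rfl fun V hV => ?_
    rw [mem_powerset] at hV
    simp only [dual_apply hV, flip_eq_X]
    split_ifs with hE
    · rw [bwb_dual, Finset.sdiff_sdiff_eq_self hV, ← B1_eq τ hD, card_sdiff_cast hV,
        card_sdiff_of_subset hV, Nat.choose_symm (card_le_card hV)]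
      have e1 : (D.card : ℝ) - V.card + ((D.card : ℝ) - V.card) / D.card =
          (D.card : ℝ) - V.card + 1 - (V.card : ℝ) / D.card := by
        field_simp
        ring
      rw [e1]
    · rfl
  unfold LQ
  rw [hdE, hdX]
  have hE : ∀ V x, (if isE τ V x then
      1 / ((D.card.choose V.card : ℝ) * ((D.card : ℝ) - V.card)) *
      (bw τ D (insert x V) * A1 τ (fun U => (U.card : ℝ) / D.card) V ^ 2 / ((V.card : ℝ) + 1) +
       fw τ V * B1 τ D (fun U => (U.card : ℝ) / D.card) (insert x V) ^ 2 /
        ((D.card : ℝ) - V.card)) else 0) =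
      (if isE τ V x then
      1 / ((D.card.choose V.card : ℝ) * ((D.card : ℝ) - V.card)) *
      (bw τ D (insert x V) * A1 τ (fun U => (U.card : ℝ) / D.card) V ^ 2 /
        ((V.card : ℝ) + 1)) else 0) +
      if isE τ V x then
      1 / ((D.card.choose V.card : ℝ) * ((D.card : ℝ) - V.card)) *
      (fw τ V * B1 τ D (fun U => (U.card : ℝ) / D.card) (insert x V) ^ 2 /
        ((D.card : ℝ) - V.card)) else 0 := by
    intro V x
    split_ifs
    · ring
    · simp
  have hX : ∀ V, (if τ V = Lab.X then
      1 / (D.card.choose V.card : ℝ) *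
      (bwb τ D V * A1 τ (fun U => (U.card : ℝ) / D.card) V ^ 2 /
        ((V.card : ℝ) + (V.card : ℝ) / D.card) +
       fwb τ V * B1 τ D (fun U => (U.card : ℝ) / D.card) V ^ 2 /
        ((D.card : ℝ) - V.card + 1 - (V.card : ℝ) / D.card)) else 0) =
      (if τ V = Lab.X then
      1 / (D.card.choose V.card : ℝ) *
      (bwb τ D V * A1 τ (fun U => (U.card : ℝ) / D.card) V ^ 2 /
        ((V.card : ℝ) + (V.card : ℝ) / D.card)) else 0) +
      if τ V = Lab.X then
      1 / (D.card.choose V.card : ℝ) *
      (fwb τ V * B1 τ D (fun U => (U.card : ℝ) / D.card) V ^ 2 /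
        ((D.card : ℝ) - V.card + 1 - (V.card : ℝ) / D.card)) else 0 := by
    intro V
    split_ifs
    · ring
    · simp
  simp only [hE, hX, sum_add_distrib]
  ring

theorem ee_bd (hW : Stmt_AWID α) (σ : Finset α → Lab) {D V : Finset α} (hA : σ ∅ = Lab.A)
    (hV : V ⊆ D) (o : Option α) : 0 ≤ ee σ D V o ∧ ee σ D V o ≤ yy σ D V o := by
  have hd : (0 : ℝ) ≤ (D.card : ℝ) - V.card := by
    rw [sub_nonneg]; exact_mod_cast card_le_card hV
  have hx := AW_nonneg (xw_nonneg σ) V
  have hle : AW (xw σ) V ≤ aw σ V := by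
    rw [awid hW hA V]
    have h1 : 0 ≤ ((V.card : ℝ) + 1) * fw σ V := mul_nonneg (by positivity) (fw_nonneg _ _)
    have h2 := AW_nonneg (bwt_nonneg σ) V
    linarith
  cases o with
  | none =>
    simp only [ee, yy, yLv]
    split_ifs
    · refine ⟨div_nonneg (mul_nonneg hx (bwb_nonneg _ _ _)) (by positivity), ?_⟩
      exact div_le_div_of_nonneg_right (mul_le_mul_of_nonneg_right hle (bwb_nonneg _ _ _))
        (by positivity)
    · exact ⟨le_rfl, le_rfl⟩
  | some x =>
    simp only [ee, yy, yLe]
    split_ifs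
    · refine ⟨div_nonneg (mul_nonneg hx (bw_nonneg _ _ _)) (by positivity), ?_⟩
      exact div_le_div_of_nonneg_right (mul_le_mul_of_nonneg_right hle (bw_nonneg _ _ _))
        (by positivity)
    · exact ⟨le_rfl, le_rfl⟩

theorem uu_pos {D V : Finset α} (hD : D.Nonempty) (hV : V ⊆ D) {o : Option α}
    (ho : ∀ x, o = some x → x ∈ D \ V) : 0 < uu D V o := by
  have hl0 : (0 : ℝ) < (D.card : ℝ) := by exact_mod_cast card_pos.2 hD
  have hC := choose_pos_real (card_le_card hV)
  cases o with
  | none =>
    simp only [uu]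
    split_ifs with h
    · exact one_pos
    · have hk : (0 : ℝ) < (V.card : ℝ) := by
        rw [Nat.cast_pos]; exact Nat.pos_of_ne_zero h
      positivity
  | some x =>
    have hx := mem_sdiff.1 (ho x rfl)
    have hlt : V.card < D.card := card_lt_card ⟨hV, fun h => hx.2 (h hx.1)⟩
    have hd : (0 : ℝ) < (D.card : ℝ) - V.card := by rw [sub_pos]; exact_mod_cast hlt
    simp only [uu]
    positivity

/-- the two types -/
def sg (τ : Finset α → Lab) (D : Finset α) (b : Bool) : Finset α → Lab :=
  if b then τ else dual τ D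

end COSTB

open Finset COSTB

end R5

end

section

/-! Block GIBBS: the Gibbs inequality. -/

namespace R5

open Finset

theorem stmt_GIBBS : Stmt_GIBBS := by
  intro ι K w c hw hc hwc
  have hW0 : 0 ≤ ∑ k ∈ K, w k := sum_nonneg hw
  have hC0 : 0 ≤ ∑ k ∈ K, c k := sum_nonneg hc
  rcases eq_or_lt_of_le hW0 with hW | hW
  · have h0 : ∀ k ∈ K, w k = 0 := (sum_eq_zero_iff_of_nonneg hw).1 hW.symm
    rw [← hW, zero_mul]
    refine le_of_eq (sum_eq_zero fun k hk => ?_)
    rw [h0 k hk, zero_mul]
  · obtain ⟨k0, hk0, hk0'⟩ : ∃ k ∈ K, 0 < w k := by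
      by_contra h
      push Not at h
      exact absurd (sum_nonpos h) (not_le.2 hW)
    have hC : 0 < ∑ k ∈ K, c k :=
      lt_of_lt_of_le (hwc k0 hk0 hk0') (single_le_sum hc hk0)
    set W := ∑ k ∈ K, w k with hWd
    set C := ∑ k ∈ K, c k with hCd
    have hterm : ∀ k ∈ K, w k * Real.log (c k / w k) ≤ w k * Real.log (C / W) +
        (c k * (W / C) - w k) := by
      intro k hk
      rcases eq_or_lt_of_le (hw k hk) with h | h
      · rw [← h, zero_mul, zero_mul, zero_add, sub_zero]
        exact mul_nonneg (hc k hk) (div_nonneg hW0 hC0)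
      · have hck := hwc k hk h
        have h1 : Real.log (c k / w k) - Real.log (C / W) =
            Real.log (c k / w k / (C / W)) := by
          rw [Real.log_div (div_pos hck h).ne' (div_pos hC hW).ne']
        have h2 : Real.log (c k / w k / (C / W)) ≤ c k / w k / (C / W) - 1 :=
          Real.log_le_sub_one_of_pos (div_pos (div_pos hck h) (div_pos hC hW))
        have h3 : w k * (c k / w k / (C / W) - 1) = c k * (W / C) - w k := by
          field_simp
        have h4 := mul_le_mul_of_nonneg_left (h1 ▸ h2) h.le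
        rw [h3] at h4
        linarith
    calc ∑ k ∈ K, w k * Real.log (c k / w k)
        ≤ ∑ k ∈ K, (w k * Real.log (C / W) + (c k * (W / C) - w k)) := sum_le_sum hterm
      _ = W * Real.log (C / W) + (C * (W / C) - W) := by
          rw [sum_add_distrib, sum_sub_distrib, ← sum_mul, ← sum_mul]
      _ = W * Real.log (C / W) := by
          field_simp
          ring

end R5

end

section

/-! Block LPART: the colour L part of the network inequality. -/

namespace R5

open Finset MP_8b6acb_co

end R5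

end

section

/-! Block NETX: reindexing of the pairs (cut vertex, comparable pair). -/

namespace R5

open Finset MP_8b6acb_co

theorem netX_aux_sd {α : Type} [DecidableEq α] {s t V : Finset α} (h : V ⊆ t \ s) :
    (s ∪ V) \ s = V := by
  ext y
  simp only [mem_sdiff, mem_union]
  constructor
  · rintro ⟨h1 | h1, h2⟩
    · exact absurd h1 h2
    · exact h1
  · intro hy
    exact ⟨Or.inr hy, (mem_sdiff.1 (h hy)).2⟩

theorem netX_aux_card {α : Type} [DecidableEq α] {s t V : Finset α} (h : V ⊆ t \ s) :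
    (s ∪ V).card = s.card + V.card := by
  apply card_union_of_disjoint
  rw [Finset.disjoint_left]
  intro y h1 h2
  exact (mem_sdiff.1 (h h2)).2 h1

theorem stmt_NETX (α : Type) [Fintype α] [DecidableEq α] : Stmt_NETX α := by
  intro c i j S T a b hN Φ
  have hR : ∀ s ∈ S, ∀ t ∈ T.filter (fun t => s ⊆ t),
      (∑ V ∈ (t \ s).powerset, if ty c s V = Lab.X then Φ s t V else 0) =
      ∑ V ∈ (t \ s).powerset.filter (fun V => ty c s V = Lab.X), Φ s t V := by
    intro s _ t _
    rw [sum_filter]
  rw [sum_congr rfl fun s hs => sum_congr rfl fun t ht => hR s hs t ht]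
  simp only [sum_sigma']
  refine sum_bij'
    (fun p _ => (⟨p.2.1, p.2.2, p.1 \ p.2.1⟩ :
      (_ : Finset α) × (_ : Finset α) × Finset α))
    (fun q _ => (⟨q.1 ∪ q.2.2, q.1, q.2.1⟩ :
      (_ : Finset α) × (_ : Finset α) × Finset α)) ?_ ?_ ?_ ?_ ?_
  · rintro ⟨v, s, t⟩ h
    simp only [mem_sigma, mem_filter, netX, mem_powerset] at h ⊢
    obtain ⟨⟨_, hcX⟩, ⟨hs, hsv⟩, ht, hvt⟩ := h
    refine ⟨hs, ⟨ht, hsv.trans hvt⟩, ?_, ?_⟩
    · exact sdiff_subset_sdiff hvt (Subset.refl _)
    · unfold ty
      rw [union_sdiff_of_subset hsv]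
      exact hcX
  · rintro ⟨s, t, V⟩ h
    simp only [mem_sigma, mem_filter, netX, mem_powerset] at h ⊢
    obtain ⟨hs, ⟨ht, hst⟩, hV, hX⟩ := h
    unfold ty at hX
    have hsub : s ∪ V ⊆ t := union_subset hst (hV.trans sdiff_subset)
    have hc1 : (s ∪ V).card = s.card + V.card := netX_aux_card hV
    have hc3 := card_le_card hsub
    have hcs := hN.cS s hs
    have hct := hN.cT t ht
    have hlS := hN.lS s hs
    have hlT := hN.lT t ht
    refine ⟨⟨?_, hX⟩, ⟨hs, subset_union_left⟩, ht, hsub⟩
    rw [mem_Mid]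
    constructor
    · by_contra hc
      have h0 : V.card = 0 := by omega
      rw [card_eq_zero] at h0
      rw [h0, union_empty, hlS] at hX
      exact absurd hX (by decide)
    · by_contra hc
      have he : s ∪ V = t := eq_of_subset_of_card_le hsub (by omega)
      rw [he, hlT] at hX
      exact absurd hX (by decide)
  · rintro ⟨v, s, t⟩ h
    simp only [mem_sigma, mem_filter] at h
    simp only [union_sdiff_of_subset h.2.1.2]
  · rintro ⟨s, t, V⟩ h
    simp only [mem_sigma, mem_filter, mem_powerset] at h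
    simp only [netX_aux_sd h.2.2.1]
  · rintro ⟨v, s, t⟩ h
    rfl

end R5

end

section

/-! Block TYPEFIN: the final typewise inequality. -/

namespace R5

open Finset

namespace TypeFin

variable {α : Type} [DecidableEq α]

theorem dual_empty {τ : Finset α → Lab} {D : Finset α} (h : τ D = Lab.B) :
    dual τ D ∅ = Lab.A := by
  unfold dual
  rw [sdiff_empty, flip_eq_A]
  exact h

theorem dual_full {τ : Finset α → Lab} {D : Finset α} (h : τ ∅ = Lab.A) :
    dual τ D D = Lab.B := by
  unfold dual
  rw [sdiff_self, bot_eq_empty, flip_eq_B]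
  exact h

end TypeFin

open TypeFin

variable {α : Type} [DecidableEq α]

end R5

end
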