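import Mathlib
import Pool.Agent.Work.MP_8b6acb_full.P03

section

/-! Block FPART: the colour F part, by complementation. -/

namespace R5

open Finset MP_8b6acb_co

namespace FPARTAux

section congr

variable {α : Type} [DecidableEq α] {τ τ' : Finset α → Lab} {D : Finset α}

theorem dual_congr (h : ∀ U ⊆ D, τ U = τ' U) : dual τ D = dual τ' D := by
  funext U
  unfold dual
  rw [h _ sdiff_subset]

theorem bw_congr (h : ∀ U ⊆ D, τ U = τ' U) : bw τ D = bw τ' D := by
  funext V
  unfold bw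
  rw [dual_congr h]

theorem bwb_congr (h : ∀ U ⊆ D, τ U = τ' U) : bwb τ D = bwb τ' D := by
  funext V
  unfold bwb
  rw [bw_congr h]

theorem ab_congr (h : ∀ U ⊆ D, τ U = τ' U) : ab τ D = ab τ' D := by
  funext V
  unfold ab
  rw [dual_congr h]

theorem Zt_congr (h : ∀ U ⊆ D, τ U = τ' U) : Zt τ D = Zt τ' D := by
  unfold Zt
  rw [ab_congr h, aw_congr h]

theorem isE_congr (h : ∀ U ⊆ D, τ U = τ' U) {V : Finset α} {x : α} (hV : V ⊆ D) (hx : x ∈ D) :
    isE τ V x ↔ isE τ' V x := by
  unfold isE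
  rw [h V hV, h _ (insert_subset hx hV)]

theorem pe_congr (h : ∀ U ⊆ D, τ U = τ' U) {X V : Finset α} {x : α} (hX : X ⊆ D) (hV : V ⊆ D)
    (hx : x ∈ D) : pe τ D X V x = pe τ' D X V x := by
  unfold pe
  simp only [isE_congr h hV hx, bw_congr h]
  rw [fw_congr fun U hU => h U (hU.trans hX)]

theorem pv_congr (h : ∀ U ⊆ D, τ U = τ' U) {X V : Finset α} (hX : X ⊆ D) (hV : V ⊆ D) :
    pv τ D X V = pv τ' D X V := by
  unfold pv
  rw [h V hV, bwb_congr h, fw_congr fun U hU => h U (hU.trans hX)]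

theorem yLe_congr (h : ∀ U ⊆ D, τ U = τ' U) {V : Finset α} {x : α} (hV : V ⊆ D)
    (hx : x ∈ D) : yLe τ D V x = yLe τ' D V x := by
  unfold yLe
  simp only [isE_congr h hV hx, bw_congr h]
  rw [aw_congr fun U hU => h U (hU.trans hV)]

theorem yLv_congr (h : ∀ U ⊆ D, τ U = τ' U) {V : Finset α} (hV : V ⊆ D) :
    yLv τ D V = yLv τ' D V := by
  unfold yLv
  rw [h V hV, bwb_congr h, aw_congr fun U hU => h U (hU.trans hV)]

end congr

section network

variable {α : Type} [Fintype α] [DecidableEq α]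

/-- The complemented labelling. -/
def cc (c : Finset α → Lab) : Finset α → Lab := fun v => (c vᶜ).flip

theorem compl_un {s t V : Finset α} (hst : s ⊆ t) (hV : V ⊆ t \ s) :
    (tᶜ ∪ V)ᶜ = s ∪ ((t \ s) \ V) := by
  ext y
  simp only [mem_compl, mem_union, mem_sdiff, not_or, not_not]
  constructor
  · rintro ⟨h1, h2⟩
    by_cases hs : y ∈ s
    · exact Or.inl hs
    · exact Or.inr ⟨⟨h1, hs⟩, h2⟩
  · rintro (h1 | h1)
    · exact ⟨hst h1, fun h2 => (mem_sdiff.1 (hV h2)).2 h1⟩
    · exact ⟨h1.1.1, h1.2⟩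

theorem ty_compl (c : Finset α → Lab) {s t : Finset α} (hst : s ⊆ t) :
    ∀ V ⊆ t \ s, ty (cc c) tᶜ V = dual (ty c s) (t \ s) V := by
  intro V hV
  unfold ty cc dual
  rw [compl_un hst hV]

theorem sum_filter_compl (T : Finset (Finset α)) (p : Finset α → Prop) [DecidablePred p]
    (F : Finset α → ℝ) :
    ∑ t ∈ (T.image compl).filter p, F t = ∑ t ∈ T.filter (fun t => p tᶜ), F tᶜ := by
  rw [filter_image, sum_image compl_injective.injOn]

theorem Zt_compl (c : Finset α → Lab) {s t : Finset α} (hst : s ⊆ t) :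
    Zt (ty (cc c) tᶜ) (sᶜ \ tᶜ) = Zt (ty c s) (t \ s) := by
  rw [compl_sdiff_compl, Zt_congr (ty_compl c hst), Zt_dual]

theorem MU_compl (c : Finset α → Lab) (S : Finset (Finset α)) (a b : Finset α → ℝ)
    {t v : Finset α} (hv : tᶜ ⊆ v) :
    MU (cc c) (S.image compl) (fun u => b uᶜ) (fun u => a uᶜ) tᶜ v = NU c S a b t vᶜ := by
  unfold MU NU
  rw [sum_filter_compl S (fun t => v ⊆ t)]
  have hf : S.filter (fun s => v ⊆ sᶜ) = S.filter (fun s => s ⊆ vᶜ) := by
    refine filter_congr fun s _ => ?_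
    exact le_compl_comm
  rw [hf]
  refine sum_congr rfl fun s hs => ?_
  rw [mem_filter] at hs
  have hst : s ⊆ t := by
    have : vᶜ ⊆ t := by
      intro y hy
      rw [mem_compl] at hy
      by_contra hyt
      exact hy (hv (mem_compl.2 hyt))
    exact hs.2.trans this
  rw [Zt_compl c hst]
  simp only [compl_compl]
  ring

theorem NU_compl (c : Finset α → Lab) (T : Finset (Finset α)) (a b : Finset α → ℝ)
    {s v : Finset α} (hv : v ⊆ sᶜ) :
    NU (cc c) (T.image compl) (fun u => b uᶜ) (fun u => a uᶜ) sᶜ v = MU c T a b s vᶜ := by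
  unfold MU NU
  rw [sum_filter_compl T (fun t => t ⊆ v)]
  have hf : T.filter (fun t => tᶜ ⊆ v) = T.filter (fun t => vᶜ ⊆ t) := by
    refine filter_congr fun s _ => ?_
    exact compl_le_iff_compl_le
  rw [hf]
  refine sum_congr rfl fun t ht => ?_
  rw [mem_filter] at ht
  have hst : s ⊆ t := by
    have : s ⊆ vᶜ := by
      intro y hy
      rw [mem_compl]
      intro hyv
      exact (mem_compl.1 (hv hyv)) hy
    exact this.trans ht.2
  rw [Zt_compl c hst]
  simp only [compl_compl]
  ring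

theorem sum_pairs_compl (S T : Finset (Finset α)) (F : Finset α → Finset α → ℝ) :
    ∑ s ∈ T.image compl, ∑ t ∈ (S.image compl).filter (fun t => s ⊆ t), F s t =
      ∑ s ∈ S, ∑ t ∈ T.filter (fun t => s ⊆ t), F tᶜ sᶜ := by
  rw [sum_image compl_injective.injOn]
  have h1 : ∀ t ∈ T, (∑ s ∈ (S.image compl).filter (fun s => tᶜ ⊆ s), F tᶜ s) =
      ∑ s ∈ S, if s ⊆ t then F tᶜ sᶜ else 0 := by
    intro t _
    rw [sum_filter_compl S (fun s => tᶜ ⊆ s), ← sum_filter]
    refine sum_congr (filter_congr fun s _ => ?_) fun _ _ => rfl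
    exact compl_le_compl_iff_le
  rw [sum_congr rfl h1, sum_comm]
  refine sum_congr rfl fun s _ => ?_
  rw [sum_filter]

theorem net_compl {c : Finset α → Lab} {i j : ℕ} {S T : Finset (Finset α)} {a b : Finset α → ℝ}
    (hN : Net c i j S T a b) (hj : j ≤ Fintype.card α) :
    Net (cc c) (Fintype.card α - j) (Fintype.card α - i) (T.image compl) (S.image compl)
      (fun u => b uᶜ) (fun u => a uᶜ) := by
  have hij := hN.hij
  refine ⟨by omega, ?_, ?_, ?_, ?_, ?_, ?_⟩
  · intro s hs
    obtain ⟨t, ht, rfl⟩ := mem_image.1 hs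
    rw [card_compl, hN.cT t ht]
  · intro s hs
    obtain ⟨t, ht, rfl⟩ := mem_image.1 hs
    rw [card_compl, hN.cS t ht]
  · intro s hs
    obtain ⟨t, ht, rfl⟩ := mem_image.1 hs
    unfold cc
    rw [compl_compl, hN.lT t ht]
    rfl
  · intro s hs
    obtain ⟨t, ht, rfl⟩ := mem_image.1 hs
    unfold cc
    rw [compl_compl, hN.lS t ht]
    rfl
  · intro s hs
    obtain ⟨t, ht, rfl⟩ := mem_image.1 hs
    simp only [compl_compl]
    exact hN.pb t ht
  · intro s hs
    obtain ⟨t, ht, rfl⟩ := mem_image.1 hs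
    simp only [compl_compl]
    exact hN.pa t ht

theorem ins_compl {v : Finset α} {x : α} (hx : x ∉ v) : insert x (insert x v)ᶜ = vᶜ := by
  ext y
  simp only [mem_insert, mem_compl, not_or]
  by_cases h : y = x
  · subst h; simp [hx]
  · simp [h]

theorem mem_Mid_compl {i j : ℕ} (hij : i < j) (hj : j ≤ Fintype.card α) (v : Finset α) :
    vᶜ ∈ Mid (Fintype.card α - j) (Fintype.card α - i) ↔ v ∈ Mid i j := by
  rw [mem_Mid, mem_Mid, card_compl]
  have := card_le_univ v
  omega

theorem mem_im_compl {S : Finset (Finset α)} {v : Finset α} : vᶜ ∈ S.image compl ↔ v ∈ S := by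
  constructor
  · intro h
    obtain ⟨t, ht, he⟩ := mem_image.1 h
    rw [compl_inj_iff] at he
    rwa [← he]
  · exact fun h => mem_image_of_mem _ h

/-- Reindexing of the cut edges. -/
theorem sum_netE_compl {c : Finset α → Lab} {i j : ℕ} {S T : Finset (Finset α)}
    (hij : i < j) (hj : j ≤ Fintype.card α) (F : Finset α → α → ℝ) :
    ∑ e ∈ netE (cc c) (Fintype.card α - j) (Fintype.card α - i) (T.image compl) (S.image compl),
      F e.1 e.2 =
    ∑ e ∈ netE c i j S T, F (insert e.2 e.1)ᶜ e.2 := by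
  have hmem : ∀ (v : Finset α) (x : α), x ∉ v →
      (((insert x v)ᶜ, x) ∈ netE (cc c) (Fintype.card α - j) (Fintype.card α - i)
        (T.image compl) (S.image compl) ↔ (v, x) ∈ netE c i j S T) := by
    intro v x hx
    simp only [netE, mem_filter, mem_univ, true_and]
    rw [ins_compl hx, mem_im_compl, mem_im_compl, mem_Mid_compl hij hj, mem_Mid_compl hij hj]
    unfold cc
    rw [compl_compl, compl_compl, flip_eq_A, flip_eq_B]
    have hx2 : x ∉ (insert x v)ᶜ := by
      rw [mem_compl, not_not]; exact mem_insert_self _ _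
    tauto
  symm
  refine sum_bij' (fun e _ => ((insert e.2 e.1)ᶜ, e.2)) (fun e _ => ((insert e.2 e.1)ᶜ, e.2))
    ?_ ?_ ?_ ?_ ?_
  · rintro ⟨v, x⟩ h
    have hx : x ∉ v := by
      simp only [netE, mem_filter] at h; exact h.2.1
    exact (hmem v x hx).2 h
  · rintro ⟨v, x⟩ h
    have hx : x ∉ v := by
      simp only [netE, mem_filter] at h; exact h.2.1
    have hx2 : x ∉ (insert x v)ᶜ := by
      rw [mem_compl, not_not]; exact mem_insert_self _ _
    rw [← hmem _ x hx2]
    simp only [ins_compl hx, compl_compl]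
    exact h
  · rintro ⟨v, x⟩ h
    have hx : x ∉ v := by
      simp only [netE, mem_filter] at h; exact h.2.1
    simp only [ins_compl hx, compl_compl]
  · rintro ⟨v, x⟩ h
    have hx : x ∉ v := by
      simp only [netE, mem_filter] at h; exact h.2.1
    simp only [ins_compl hx, compl_compl]
  · rintro ⟨v, x⟩ h
    rfl

theorem sum_netX_compl {c : Finset α → Lab} {i j : ℕ}
    (hij : i < j) (hj : j ≤ Fintype.card α) (F : Finset α → ℝ) :
    ∑ v ∈ netX (cc c) (Fintype.card α - j) (Fintype.card α - i), F v =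
    ∑ v ∈ netX c i j, F vᶜ := by
  have hmem : ∀ (v : Finset α),
      (vᶜ ∈ netX (cc c) (Fintype.card α - j) (Fintype.card α - i) ↔ v ∈ netX c i j) := by
    intro v
    simp only [netX, mem_filter]
    rw [mem_Mid_compl hij hj]
    unfold cc
    rw [compl_compl, flip_eq_X]
  symm
  refine sum_bij' (fun v _ => vᶜ) (fun v _ => vᶜ) ?_ ?_ ?_ ?_ ?_
  · intro v h
    exact (hmem v).2 h
  · intro v h
    rw [← hmem, compl_compl]
    exact h
  · intro v _; exact compl_compl v
  · intro v _; exact compl_compl v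
  · intro v _; rfl

theorem WE_compl (c : Finset α → Lab) (S T : Finset (Finset α)) (a b : Finset α → ℝ)
    {v : Finset α} {x : α} (hx : x ∉ v) :
    WE (cc c) (T.image compl) (S.image compl) (fun u => b uᶜ) (fun u => a uᶜ) (insert x v)ᶜ x =
      WFE c S T a b v x := by
  unfold WE WFE
  rw [sum_filter_compl T (fun s => s ⊆ (insert x v)ᶜ)]
  have h1 : ∀ t ∈ T.filter (fun t => tᶜ ⊆ (insert x v)ᶜ),
      (∑ s ∈ (S.image compl).filter (fun s => insert x (insert x v)ᶜ ⊆ s),
        b tᶜᶜ * a sᶜ * yLe (ty (cc c) tᶜ) (s \ tᶜ) ((insert x v)ᶜ \ tᶜ) x) =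
      ∑ s ∈ S.filter (fun s => s ⊆ v), a s * b t * yFe (ty c s) (t \ s) (v \ s) x := by
    intro t ht
    rw [mem_filter] at ht
    have ht2 : insert x v ⊆ t := compl_le_compl_iff_le.1 ht.2
    rw [sum_filter_compl S (fun s => insert x (insert x v)ᶜ ⊆ s)]
    have hf : S.filter (fun s => insert x (insert x v)ᶜ ⊆ sᶜ) = S.filter (fun s => s ⊆ v) := by
      refine filter_congr fun s _ => ?_
      rw [ins_compl hx]
      exact compl_le_compl_iff_le
    rw [hf]
    refine sum_congr rfl fun s hs => ?_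
    rw [mem_filter] at hs
    have hxv : x ∉ s := fun h => hx (hs.2 h)
    have hst : s ⊆ t := hs.2.trans ((subset_insert _ _).trans ht2)
    have hvt : v \ s ⊆ t \ s := sdiff_subset_sdiff ((subset_insert _ _).trans ht2) (Subset.refl _)
    have hxm : x ∈ (t \ s) \ (v \ s) := by
      simp only [mem_sdiff, not_and, not_not]
      exact ⟨⟨ht2 (mem_insert_self _ _), hxv⟩, fun h => absurd h hx⟩
    have hset : (insert x v)ᶜ \ tᶜ = (t \ s) \ insert x (v \ s) := by
      ext y
      simp only [mem_sdiff, mem_compl, mem_insert, not_or, not_not, not_and]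
      constructor
      · rintro ⟨⟨h1, h2⟩, h3⟩
        exact ⟨⟨h3, fun h => h2 (hs.2 h)⟩, h1, fun h => absurd h h2⟩
      · rintro ⟨⟨h1, h2⟩, h3, h4⟩
        exact ⟨⟨h3, fun h => h2 (h4 h)⟩, h1⟩
    rw [compl_sdiff_compl, hset, compl_compl, compl_compl,
      yLe_congr (ty_compl c hst) sdiff_subset (mem_sdiff.1 hxm).1,
      yLe_dual hvt hxm]
    ring
  rw [sum_congr rfl h1, sum_comm]
  refine sum_congr rfl fun s _ => ?_
  refine sum_congr (filter_congr fun t _ => ?_) fun _ _ => rfl
  exact compl_le_compl_iff_le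

theorem WX_compl (c : Finset α → Lab) (S T : Finset (Finset α)) (a b : Finset α → ℝ)
    {v : Finset α} :
    WX (cc c) (T.image compl) (S.image compl) (fun u => b uᶜ) (fun u => a uᶜ) vᶜ =
      WFX c S T a b v := by
  unfold WX WFX
  rw [sum_filter_compl T (fun s => s ⊆ vᶜ)]
  have h1 : ∀ t ∈ T.filter (fun t => tᶜ ⊆ vᶜ),
      (∑ s ∈ (S.image compl).filter (fun s => vᶜ ⊆ s),
        b tᶜᶜ * a sᶜ * yLv (ty (cc c) tᶜ) (s \ tᶜ) (vᶜ \ tᶜ)) =
      ∑ s ∈ S.filter (fun s => s ⊆ v), a s * b t * yFv (ty c s) (t \ s) (v \ s) := by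
    intro t ht
    rw [mem_filter] at ht
    have ht2 : v ⊆ t := compl_le_compl_iff_le.1 ht.2
    rw [sum_filter_compl S (fun s => vᶜ ⊆ s)]
    have hf : S.filter (fun s => vᶜ ⊆ sᶜ) = S.filter (fun s => s ⊆ v) := by
      refine filter_congr fun s _ => ?_
      exact compl_le_compl_iff_le
    rw [hf]
    refine sum_congr rfl fun s hs => ?_
    rw [mem_filter] at hs
    have hst : s ⊆ t := hs.2.trans ht2
    have hvt : v \ s ⊆ t \ s := sdiff_subset_sdiff ht2 (Subset.refl _)
    have hset : vᶜ \ tᶜ = (t \ s) \ (v \ s) := by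
      ext y
      simp only [mem_sdiff, mem_compl, not_not, not_and]
      constructor
      · rintro ⟨h1, h3⟩
        exact ⟨⟨h3, fun h => h1 (hs.2 h)⟩, fun h => absurd h h1⟩
      · rintro ⟨⟨h1, h2⟩, h4⟩
        exact ⟨fun h => h2 (h4 h), h1⟩
    rw [compl_sdiff_compl, hset, compl_compl, compl_compl,
      yLv_congr (ty_compl c hst) sdiff_subset, yLv_dual hvt]
    ring
  rw [sum_congr rfl h1, sum_comm]
  refine sum_congr rfl fun s _ => ?_
  refine sum_congr (filter_congr fun t _ => ?_) fun _ _ => rfl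
  exact compl_le_compl_iff_le

end network

end FPARTAux

end R5

end

section

namespace R5

open Finset

variable {α : Type} [DecidableEq α]

/-- The term of one set in `GMASS`. -/
theorem gmass_term (τ : Finset α → Lab) (D : Finset α) (G : Finset α → ℝ) {V : Finset α}
    (hV : V ⊆ D) (hne : V ≠ D) :
    (∑ x ∈ D \ V, if isE τ V x then
      G V * bw τ D (insert x V) / ((D.card.choose V.card : ℝ) * ((D.card : ℝ) - V.card)) else 0) +
    (if τ V = Lab.X then G V * bwb τ D V / (D.card.choose V.card : ℝ) else 0) =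
    G V * bwb τ D V / (D.card.choose V.card : ℝ) - G V * bw τ D V / (D.card.choose V.card : ℝ) := by
  have hlt : V.card < D.card := card_lt_card (ssubset_of_subset_of_ne hV hne)
  have hpos : (0 : ℝ) < (D.card : ℝ) - V.card := by
    have : (V.card : ℝ) < D.card := by exact_mod_cast hlt
    linarith
  by_cases hA : τ V = Lab.A
  · have hX : τ V ≠ Lab.X := by rw [hA]; exact fun h => Lab.noConfusion h
    have hB : τ V ≠ Lab.B := by rw [hA]; exact fun h => Lab.noConfusion h
    rw [if_neg hX, bw_of_ne hV hB, mul_zero, zero_div, sub_zero, add_zero]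
    unfold bwb
    rw [card_sdiff_cast hV, mul_div_assoc', div_div, mul_sum, sum_div]
    refine sum_congr rfl fun x hx => ?_
    have hx' := mem_sdiff.1 hx
    by_cases hE : isE τ V x
    · rw [if_pos hE, mul_comm (D.card.choose V.card : ℝ)]
    · rw [if_neg hE]
      have : τ (insert x V) ≠ Lab.B := fun h => hE ⟨hA, h⟩
      rw [bw_of_ne (insert_subset hx'.1 hV) this, mul_zero, zero_div]
  · have hE : ∀ x, ¬ isE τ V x := fun x h => hA h.1
    simp only [hE, if_false, sum_const_zero, zero_add]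
    by_cases hX : τ V = Lab.X
    · have hB : τ V ≠ Lab.B := by rw [hX]; exact fun h => Lab.noConfusion h
      rw [if_pos hX, bw_of_ne hV hB, mul_zero, zero_div, sub_zero]
    · have hB : τ V = Lab.B := by
        cases h : τ V with
        | A => exact absurd h hA
        | B => rfl
        | X => exact absurd h hX
      rw [if_neg hX, bw_rec hV hne, if_pos hB, sub_self]

theorem gmass_up (τ : Finset α → Lab) (D : Finset α) (G : Finset α → ℝ)
    (h0 : τ ∅ = Lab.A)
    (hG : ∀ Y ⊆ D, Y ≠ ∅ → τ Y = Lab.B → G Y = (∑ x ∈ Y, G (Y.erase x)) / (Y.card : ℝ)) :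
    ∑ V ∈ D.powerset.erase D, G V * bwb τ D V / (D.card.choose V.card : ℝ) =
    ∑ U ∈ D.powerset, G U * bw τ D U / (D.card.choose U.card : ℝ) := by
  have h1 : ∑ V ∈ D.powerset.erase D, G V * bwb τ D V / (D.card.choose V.card : ℝ) =
      ∑ V ∈ D.powerset, ∑ x ∈ D \ V,
        G V * bw τ D (insert x V) / ((D.card.choose V.card : ℝ) * ((D.card : ℝ) - V.card)) := by
    rw [← add_sum_erase D.powerset (fun V => ∑ x ∈ D \ V,
        G V * bw τ D (insert x V) / ((D.card.choose V.card : ℝ) * ((D.card : ℝ) - V.card)))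
        (mem_powerset_self D)]
    simp only [sdiff_self, bot_eq_empty, sum_empty, zero_add]
    refine sum_congr rfl fun V hV => ?_
    rw [mem_erase, mem_powerset] at hV
    unfold bwb
    rw [card_sdiff_cast hV.2, mul_div_assoc', div_div, mul_sum, sum_div]
    refine sum_congr rfl fun x _ => ?_
    rw [mul_comm (D.card.choose V.card : ℝ)]
  rw [h1, sum_up_down D (fun V x => G V * bw τ D (insert x V) /
    ((D.card.choose V.card : ℝ) * ((D.card : ℝ) - V.card)))]
  refine sum_congr rfl fun U hU => ?_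
  rw [mem_powerset] at hU
  by_cases hU0 : U = ∅
  · subst hU0
    rw [sum_empty, bw_of_ne (empty_subset D) (by rw [h0]; exact fun h => Lab.noConfusion h),
      mul_zero, zero_div]
  have hc : (0 : ℝ) < U.card := by
    rw [Nat.cast_pos, card_pos]; exact nonempty_iff_ne_empty.2 hU0
  have hcn : 0 < U.card := by rw [card_pos]; exact nonempty_iff_ne_empty.2 hU0
  by_cases hB : τ U = Lab.B
  · rw [hG U hU hU0 hB, sum_div, sum_mul, sum_div]
    refine sum_congr rfl fun x hx => ?_
    rw [insert_erase hx, card_erase_of_mem hx]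
    have hle : U.card ≤ D.card := card_le_card hU
    have h2 := choose_up (l := D.card) (k := U.card - 1) (by omega)
    rw [Nat.sub_add_cancel (by omega : 1 ≤ U.card)] at h2
    have h3 : ((U.card - 1 : ℕ) : ℝ) = (U.card : ℝ) - 1 := by
      rw [Nat.cast_sub (by omega)]; simp
    rw [h2, h3, sub_add_cancel, div_mul_eq_mul_div, div_div, mul_comm (U.card : ℝ)]
  · rw [bw_of_ne hU hB, mul_zero, zero_div]
    refine sum_eq_zero fun x hx => ?_
    rw [insert_erase hx, bw_of_ne hU hB, mul_zero, zero_div]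

theorem stmt_GMASS : Stmt_GMASS α := by
  intro τ D G h0 hD hG
  rw [← sum_add_distrib]
  rw [← add_sum_erase D.powerset (fun V => (∑ x ∈ D \ V, if isE τ V x then
      G V * bw τ D (insert x V) / ((D.card.choose V.card : ℝ) * ((D.card : ℝ) - V.card)) else 0) +
      (if τ V = Lab.X then G V * bwb τ D V / (D.card.choose V.card : ℝ) else 0))
      (mem_powerset_self D)]
  have hX : τ D ≠ Lab.X := by rw [hD]; exact fun h => Lab.noConfusion h
  simp only [sdiff_self, bot_eq_empty, sum_empty, zero_add, if_neg hX]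
  have e1 : ∑ V ∈ D.powerset.erase D, ((∑ x ∈ D \ V, if isE τ V x then
      G V * bw τ D (insert x V) / ((D.card.choose V.card : ℝ) * ((D.card : ℝ) - V.card)) else 0) +
      (if τ V = Lab.X then G V * bwb τ D V / (D.card.choose V.card : ℝ) else 0)) =
      ∑ V ∈ D.powerset.erase D, (G V * bwb τ D V / (D.card.choose V.card : ℝ) -
        G V * bw τ D V / (D.card.choose V.card : ℝ)) := by
    refine sum_congr rfl fun V hV => ?_
    rw [mem_erase, mem_powerset] at hV
    exact gmass_term τ D G hV.2 hV.1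
  rw [e1, sum_sub_distrib, gmass_up τ D G h0 hG,
    ← add_sum_erase D.powerset (fun U => G U * bw τ D U / (D.card.choose U.card : ℝ))
      (mem_powerset_self D), bw_top, if_pos hD, Nat.choose_self]
  simp

end R5

end

section

namespace R5

open Finset

theorem inf_key (n ρ : ℝ) (hn : 2 ≤ n) (h0 : 0 < ρ) (h1 : ρ ≤ 1) :
    (n - 1) * (Real.log (n - ρ) - Real.log (n - 1)) ≤ -Real.log ρ := by
  have hn1 : (0 : ℝ) < n - 1 := by linarith
  have hnr : (0 : ℝ) < n - ρ := by linarith
  have a1 : Real.log ρ ≤ ρ - 1 := Real.log_le_sub_one_of_pos h0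
  have a2 : Real.log ((n - ρ) / (n - 1)) ≤ (n - ρ) / (n - 1) - 1 :=
    Real.log_le_sub_one_of_pos (div_pos hnr hn1)
  rw [Real.log_div hnr.ne' hn1.ne'] at a2
  have a3 : (n - 1) * (Real.log (n - ρ) - Real.log (n - 1)) ≤ (n - 1) * ((n - ρ) / (n - 1) - 1) :=
    mul_le_mul_of_nonneg_left a2 hn1.le
  have a4 : (n - 1) * ((n - ρ) / (n - 1) - 1) = 1 - ρ := by
    field_simp
    ring
  linarith

theorem stmt_INF : Stmt_INF := by
  intro n p q ρ hn hp hq hq1 h0 h1
  have hlr : 0 ≤ -Real.log ρ := by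
    have := Real.log_nonpos h0.le h1
    linarith
  rcases Nat.lt_or_ge 1 n with h2 | h2
  · have hn2 : (2 : ℝ) ≤ (n : ℝ) := by exact_mod_cast h2
    have hnpos : (0 : ℝ) < n := by linarith
    have hn1 : (0 : ℝ) < (n : ℝ) - 1 := by linarith
    have hnr : (0 : ℝ) < (n : ℝ) - ρ := by linarith
    have key := inf_key n ρ hn2 h0 h1
    have e1 : Real.log (1 - ρ / (n : ℝ)) = Real.log ((n : ℝ) - ρ) - Real.log n := by
      rw [← Real.log_div hnr.ne' hnpos.ne']
      congr 1
      field_simp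
    have e2 : lamn n = Real.log n - Real.log ((n : ℝ) - 1) := by
      unfold lamn
      rw [Real.log_div hnpos.ne' hn1.ne']
    have hmono : 0 ≤ -Real.log (1 - ρ / (n : ℝ)) := by
      rw [e1]
      have := Real.log_le_log hnr (by linarith : (n : ℝ) - ρ ≤ n)
      linarith
    set m := min (((n : ℝ) - 1) * p) q with hm
    have hm0 : 0 ≤ m := le_min (mul_nonneg hn1.le hp) hq
    have hmp : m / ((n : ℝ) - 1) ≤ p := by
      rw [div_le_iff₀ hn1, mul_comm]
      exact min_le_left _ _
    have hmq : m ≤ q := min_le_right _ _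
    have b1 : m / ((n : ℝ) - 1) * (-Real.log ρ) ≤ p * (-Real.log ρ) :=
      mul_le_mul_of_nonneg_right hmp hlr
    have b2 : m * (-Real.log (1 - ρ / (n : ℝ))) ≤ q * (-Real.log (1 - ρ / (n : ℝ))) :=
      mul_le_mul_of_nonneg_right hmq hmono
    have b3 : m / ((n : ℝ) - 1) * (((n : ℝ) - 1) * (Real.log (n - ρ) - Real.log (n - 1))) ≤
        m / ((n : ℝ) - 1) * (-Real.log ρ) :=
      mul_le_mul_of_nonneg_left key (div_nonneg hm0 hn1.le)
    have b4 : m / ((n : ℝ) - 1) * (((n : ℝ) - 1) * (Real.log (n - ρ) - Real.log (n - 1))) =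
        m * (Real.log (n - ρ) - Real.log (n - 1)) := by
      field_simp
    rw [b4] at b3
    rw [e2]
    rw [e1] at b2 ⊢
    nlinarith [b1, b2, b3]
  · have hn1 : n = 1 := le_antisymm h2 hn
    have hq0 := hq1 hn1
    subst hn1
    subst hq0
    have : lamn 1 = 0 := by simp [lamn]
    rw [this, zero_mul, zero_mul, add_zero]
    exact mul_nonneg hp hlr

end R5

end

section

/-! Block MAINNET. -/

namespace R5

open Finset MP_8b6acb_co

namespace MN

section
variable {α : Type} [DecidableEq α]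

theorem yLe_nn (τ : Finset α → Lab) {D V : Finset α} (x : α) (hV : V ⊆ D) : 0 ≤ yLe τ D V x := by
  unfold yLe
  have h1 : (0 : ℝ) ≤ (D.card : ℝ) - V.card := by
    rw [sub_nonneg]; exact_mod_cast card_le_card hV
  split_ifs
  · exact div_nonneg (mul_nonneg (aw_nonneg _ _) (bw_nonneg _ _ _))
      (mul_nonneg (by positivity) h1)
  · exact le_rfl

theorem yFe_nn (τ : Finset α → Lab) {D V : Finset α} (x : α) (hV : V ⊆ D) : 0 ≤ yFe τ D V x := by
  unfold yFe
  have h1 : (0 : ℝ) ≤ (D.card : ℝ) - V.card := by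
    rw [sub_nonneg]; exact_mod_cast card_le_card hV
  split_ifs
  · exact div_nonneg (mul_nonneg (fw_nonneg _ _) (ab_nonneg _ _ _))
      (mul_nonneg (by positivity) h1)
  · exact le_rfl

theorem yLv_nn (τ : Finset α → Lab) (D V : Finset α) : 0 ≤ yLv τ D V := by
  unfold yLv
  split_ifs
  · exact div_nonneg (mul_nonneg (aw_nonneg _ _) (bwb_nonneg _ _ _)) (by positivity)
  · exact le_rfl

theorem yFv_nn (τ : Finset α → Lab) (D V : Finset α) : 0 ≤ yFv τ D V := by
  unfold yFv
  split_ifs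
  · exact div_nonneg (mul_nonneg (fwb_nonneg _ _) (ab_nonneg _ _ _)) (by positivity)
  · exact le_rfl

theorem Zt_pos {τ : Finset α → Lab} {D : Finset α} (h0 : τ ∅ = Lab.A) : 0 < Zt τ D := by
  unfold Zt
  have h1 := one_le_aw h0 D
  have h2 := ab_nonneg τ D ∅
  positivity

/-- Total mass of a type. -/
theorem tot (hMa : Stmt_MASS α) (τ : Finset α → Lab) (D : Finset α) (h0 : τ ∅ = Lab.A)
    (hD : τ D = Lab.B) :
    (∑ V ∈ D.powerset, ∑ x ∈ D \ V, yLe τ D V x) + (∑ V ∈ D.powerset, yLv τ D V) +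
      (∑ V ∈ D.powerset, ∑ x ∈ D \ V, yFe τ D V x) + (∑ V ∈ D.powerset, yFv τ D V) = Zt τ D := by
  have h1 := hMa τ D h0 hD
  have h2 := hMa (dual τ D) D (by unfold dual; rw [sdiff_empty, hD]; rfl)
    (by unfold dual; rw [Finset.sdiff_self, h0]; rfl)
  have e1 : PEL (dual τ D) D = ∑ V ∈ D.powerset, ∑ x ∈ D \ V, yFe τ D V x := by
    unfold PEL
    rw [← sum_edge_compl]
    refine sum_congr rfl fun V hV => sum_congr rfl fun x hx => ?_
    exact yLe_dual (mem_powerset.1 hV) hx
  have e2 : ∑ V ∈ D.powerset, yLv (dual τ D) D V = ∑ V ∈ D.powerset, yFv τ D V := by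
    rw [← sum_powerset_compl]
    refine sum_congr rfl fun V hV => yLv_dual (mem_powerset.1 hV)
  rw [e1, e2] at h2
  have e3 : aw (dual τ D) D = ab τ D ∅ := by unfold ab; rw [sdiff_empty]
  rw [e3] at h2
  unfold PEL at h1
  unfold Zt
  rw [add_div, ← h1, ← h2]
  ring

theorem mul_log_div {w c : ℝ} (hw : 0 ≤ w) (hc : 0 < c) :
    w * Real.log (c / w) = w * Real.log c - w * Real.log w := by
  rcases hw.eq_or_lt with h | h
  · rw [← h]; simp
  · rw [Real.log_div hc.ne' h.ne']; ring

end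

variable {α : Type} [Fintype α] [DecidableEq α]

theorem MU_pos {c : Finset α → Lab} {i j : ℕ} {S T : Finset (Finset α)} {a b : Finset α → ℝ}
    (h : Net c i j S T a b) {s t v : Finset α} (hs : s ∈ S) (ht : t ∈ T) (hv : v ⊆ t) :
    0 < MU c T a b s v := by
  unfold MU
  refine sum_pos (fun t' ht' => ?_) ⟨t, mem_filter.2 ⟨ht, hv⟩⟩
  have := (mem_filter.1 ht').1
  exact mul_pos (mul_pos (h.pa s hs) (h.pb t' this))
    (Zt_pos (by unfold ty; rw [union_empty]; exact h.lS s hs))

theorem NU_pos {c : Finset α → Lab} {i j : ℕ} {S T : Finset (Finset α)} {a b : Finset α → ℝ}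
    (h : Net c i j S T a b) {s t v : Finset α} (hs : s ∈ S) (ht : t ∈ T) (hv : s ⊆ v) :
    0 < NU c S a b t v := by
  unfold NU
  refine sum_pos (fun s' hs' => ?_) ⟨s, mem_filter.2 ⟨hs, hv⟩⟩
  have := (mem_filter.1 hs').1
  exact mul_pos (mul_pos (h.pa s' this) (h.pb t ht))
    (Zt_pos (by unfold ty; rw [union_empty]; exact h.lS s' this))

theorem MU_anti {c : Finset α → Lab} {i j : ℕ} {S T : Finset (Finset α)} {a b : Finset α → ℝ}
    (h : Net c i j S T a b) {s v w : Finset α} (hs : s ∈ S) (hv : v ⊆ w) :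
    MU c T a b s w ≤ MU c T a b s v := by
  unfold MU
  refine sum_le_sum_of_subset_of_nonneg ?_ ?_
  · intro t ht
    rw [mem_filter] at ht ⊢
    exact ⟨ht.1, hv.trans ht.2⟩
  · intro t ht _
    have := (mem_filter.1 ht).1
    exact (mul_pos (mul_pos (h.pa s hs) (h.pb t this))
      (Zt_pos (by unfold ty; rw [union_empty]; exact h.lS s hs))).le

theorem NU_mono {c : Finset α → Lab} {i j : ℕ} {S T : Finset (Finset α)} {a b : Finset α → ℝ}
    (h : Net c i j S T a b) {t v w : Finset α} (ht : t ∈ T) (hv : v ⊆ w) :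
    NU c S a b t v ≤ NU c S a b t w := by
  unfold NU
  refine sum_le_sum_of_subset_of_nonneg ?_ ?_
  · intro s hs
    rw [mem_filter] at hs ⊢
    exact ⟨hs.1, hs.2.trans hv⟩
  · intro s hs _
    have := (mem_filter.1 hs).1
    exact (mul_pos (mul_pos (h.pa s this) (h.pb t ht))
      (Zt_pos (by unfold ty; rw [union_empty]; exact h.lS s this))).le

end MN

end R5

end

section

namespace R5

open Finset

variable {α : Type} [DecidableEq α]

theorem stmt_MASS (hG : Stmt_GMASS α) : Stmt_MASS α := by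
  intro τ D h0 hD
  have h := hG τ D (fun V => aw τ V / ((D.card : ℝ) + 1)) h0 hD (by
    intro Y hY hY0 hB
    have h1 := aw_rec (τ := τ) hY0
    rw [fw_of_ne (by rw [hB]; exact fun h => Lab.noConfusion h), zero_add] at h1
    rw [h1, ← sum_div, div_div, div_div, mul_comm])
  rw [← h]
  congr 1
  · unfold PEL
    refine sum_congr rfl fun V _ => sum_congr rfl fun x _ => ?_
    unfold yLe
    split_ifs with hE
    · rw [div_mul_eq_mul_div, div_div]
      congr 1
      ring
    · rfl
  · refine sum_congr rfl fun V _ => ?_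
    unfold yLv
    split_ifs with hE
    · rw [div_mul_eq_mul_div, div_div]
    · rfl

end R5

end

section

/-! Block NETE: reindexing of the pairs (cut edge, comparable pair). -/

namespace R5

open Finset MP_8b6acb_co

theorem netE_aux_un {α : Type} [DecidableEq α] {s v : Finset α} (h : s ⊆ v) : s ∪ (v \ s) = v :=
  union_sdiff_of_subset h

theorem netE_aux_ins {α : Type} [DecidableEq α] {s v : Finset α} {x : α} (h : s ⊆ v) :
    s ∪ insert x (v \ s) = insert x v := by
  rw [union_insert, union_sdiff_of_subset h]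

theorem netE_aux_sd {α : Type} [DecidableEq α] {s t V : Finset α} (h : V ⊆ t \ s) :
    (s ∪ V) \ s = V := by
  ext y
  simp only [mem_sdiff, mem_union]
  constructor
  · rintro ⟨h1 | h1, h2⟩
    · exact absurd h1 h2
    · exact h1
  · intro hy
    exact ⟨Or.inr hy, (mem_sdiff.1 (h hy)).2⟩

theorem netE_aux_card {α : Type} [DecidableEq α] {s t V : Finset α} (h : V ⊆ t \ s) :
    (s ∪ V).card = s.card + V.card := by
  apply card_union_of_disjoint
  rw [Finset.disjoint_left]
  intro y h1 h2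
  exact (mem_sdiff.1 (h h2)).2 h1

theorem stmt_NETE (α : Type) [Fintype α] [DecidableEq α] : Stmt_NETE α := by
  intro c i j S T a b hN Φ
  have hR : ∀ s ∈ S, ∀ t ∈ T.filter (fun t => s ⊆ t),
      (∑ V ∈ (t \ s).powerset, ∑ x ∈ (t \ s) \ V, if isE (ty c s) V x then Φ s t V x else 0) =
      ∑ V ∈ (t \ s).powerset, ∑ x ∈ ((t \ s) \ V).filter (fun x => isE (ty c s) V x),
        Φ s t V x := by
    intro s _ t _
    refine sum_congr rfl fun V _ => ?_
    rw [sum_filter]
  rw [sum_congr rfl fun s hs => sum_congr rfl fun t ht => hR s hs t ht]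
  simp only [sum_sigma']
  refine sum_bij'
    (fun p _ => (⟨p.2.1, p.2.2, p.1.1 \ p.2.1, p.1.2⟩ :
      (_ : Finset α) × (_ : Finset α) × (_ : Finset α) × α))
    (fun q _ => (⟨(q.1 ∪ q.2.2.1, q.2.2.2), q.1, q.2.1⟩ :
      (_ : Finset α × α) × (_ : Finset α) × Finset α)) ?_ ?_ ?_ ?_ ?_
  · rintro ⟨⟨v, x⟩, s, t⟩ h
    simp only [mem_sigma, mem_filter, netE, mem_univ, true_and, mem_powerset, mem_sdiff] at h ⊢
    obtain ⟨⟨hxv, _, hcA, _, hcB⟩, ⟨hs, hsv⟩, ht, hvt⟩ := h
    refine ⟨hs, ⟨ht, hsv.trans ((subset_insert _ _).trans hvt)⟩, ?_, ⟨⟨?_, ?_⟩, ?_⟩, ?_, ?_⟩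
    · exact sdiff_subset_sdiff ((subset_insert _ _).trans hvt) (Subset.refl _)
    · exact hvt (mem_insert_self _ _)
    · exact fun hxs => hxv (hsv hxs)
    · exact fun hx => hxv hx.1
    · unfold ty
      rw [netE_aux_un hsv]
      exact hcA
    · unfold ty
      rw [netE_aux_ins hsv]
      exact hcB
  · rintro ⟨s, t, V, x⟩ h
    simp only [mem_sigma, mem_filter, netE, mem_univ, true_and, mem_powerset, mem_sdiff] at h ⊢
    obtain ⟨hs, ⟨ht, hst⟩, hV, ⟨⟨hxt, hxs⟩, hxV⟩, hA, hB⟩ := h
    unfold ty at hA hB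
    rw [union_insert] at hB
    have hxsV : x ∉ s ∪ V := by
      rw [mem_union]; rintro (h | h)
      · exact hxs h
      · exact hxV h
    have hsub : s ∪ V ⊆ t := union_subset hst (hV.trans sdiff_subset)
    have hsub2 : insert x (s ∪ V) ⊆ t := insert_subset hxt hsub
    have hc1 : (s ∪ V).card = s.card + V.card := netE_aux_card hV
    have hc2 : (insert x (s ∪ V)).card = (s ∪ V).card + 1 := card_insert_of_notMem hxsV
    have hc3 := card_le_card hsub2
    have hcs := hN.cS s hs
    have hct := hN.cT t ht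
    refine ⟨⟨hxsV, ?_, hA, ?_, hB⟩, ⟨hs, subset_union_left⟩, ht, hsub2⟩
    · by_cases hVe : V = ∅
      · left; rw [hVe, union_empty]; exact hs
      · right
        rw [mem_Mid]
        have : 0 < V.card := card_pos.2 (nonempty_iff_ne_empty.2 hVe)
        omega
    · by_cases he : (insert x (s ∪ V)).card = j
      · right
        rw [eq_of_subset_of_card_le hsub2 (by omega)]
        exact ht
      · left
        rw [mem_Mid]
        omega
  · rintro ⟨⟨v, x⟩, s, t⟩ h
    simp only [mem_sigma, mem_filter] at h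
    simp only [netE_aux_un h.2.1.2]
  · rintro ⟨s, t, V, x⟩ h
    simp only [mem_sigma, mem_powerset] at h
    simp only [netE_aux_sd h.2.2.1]
  · rintro ⟨⟨v, x⟩, s, t⟩ h
    rfl

end R5

end

section

/-! Blocks OBJE and OBJX: the entropy inequality of one object, common part (helper51). -/

namespace R5

open Finset MP_8b6acb_co

section net

variable {α : Type} [Fintype α] [DecidableEq α] {c : Finset α → Lab} {i j : ℕ}
  {S T : Finset (Finset α)} {a b : Finset α → ℝ}

theorem ty_empty (c : Finset α → Lab) (s : Finset α) : ty c s ∅ = c s := by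
  unfold ty
  rw [union_empty]

theorem Zt_pos_of {τ : Finset α → Lab} (h : τ ∅ = Lab.A) (D : Finset α) : 0 < Zt τ D := by
  unfold Zt
  have h1 := one_le_aw h D
  have h2 := ab_nonneg τ D ∅
  have h3 : (0 : ℝ) ≤ D.card := Nat.cast_nonneg _
  exact div_pos (by linarith) (by linarith)

theorem Net.Z (h : Net c i j S T a b) {s : Finset α} (hs : s ∈ S) (t : Finset α) :
    0 < Zt (ty c s) (t \ s) :=
  Zt_pos_of (by rw [ty_empty]; exact h.lS s hs) _

theorem Net.M (h : Net c i j S T a b) {s : Finset α} (hs : s ∈ S) {t : Finset α} (ht : t ∈ T) :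
    0 < a s * b t * Zt (ty c s) (t \ s) :=
  mul_pos (mul_pos (h.pa s hs) (h.pb t ht)) (h.Z hs t)

theorem Net.MU_nonneg (h : Net c i j S T a b) {s : Finset α} (hs : s ∈ S) (v : Finset α) :
    0 ≤ MU c T a b s v :=
  sum_nonneg fun t ht => (h.M hs (mem_filter.1 ht).1).le

theorem Net.MU_pos (h : Net c i j S T a b) {s : Finset α} (hs : s ∈ S) {v t : Finset α}
    (ht : t ∈ T) (hv : v ⊆ t) : 0 < MU c T a b s v := by
  unfold MU
  refine lt_of_lt_of_le (h.M hs ht) ?_
  exact single_le_sum (f := fun t => a s * b t * Zt (ty c s) (t \ s))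
    (fun t ht => (h.M hs (mem_filter.1 ht).1).le) (mem_filter.2 ⟨ht, hv⟩)

theorem Net.NU_pos (h : Net c i j S T a b) {s : Finset α} (hs : s ∈ S) {v t : Finset α}
    (ht : t ∈ T) (hv : s ⊆ v) : 0 < NU c S a b t v := by
  unfold NU
  refine lt_of_lt_of_le (h.M hs ht) ?_
  exact single_le_sum (f := fun s => a s * b t * Zt (ty c s) (t \ s))
    (fun s hs => (h.M (mem_filter.1 hs).1 ht).le) (mem_filter.2 ⟨hs, hv⟩)

theorem Net.rho_sum (h : Net c i j S T a b) {s : Finset α} (hs : s ∈ S) {X : Finset α}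
    (hd : Disjoint s X) (hpos : 0 < MU c T a b s (s ∪ X)) :
    ∑ g ∈ univ \ (s ∪ X), MU c T a b s (s ∪ insert g X) / MU c T a b s (s ∪ X) =
      (j : ℝ) - i - X.card := by
  rw [← sum_div, div_eq_iff hpos.ne']
  unfold MU
  simp only [sum_filter]
  rw [sum_comm, mul_sum]
  refine sum_congr rfl fun t ht => ?_
  by_cases hst : s ∪ X ⊆ t
  · rw [if_pos hst, ← sum_filter, sum_const, nsmul_eq_mul]
    congr 1
    have e1 : (univ \ (s ∪ X)).filter (fun g => s ∪ insert g X ⊆ t) = t \ (s ∪ X) := by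
      ext g
      simp only [mem_filter, mem_sdiff, mem_univ, true_and]
      constructor
      · rintro ⟨h1, h2⟩
        exact ⟨h2 (mem_union_right _ (mem_insert_self _ _)), h1⟩
      · rintro ⟨h1, h2⟩
        refine ⟨h2, ?_⟩
        intro y hy
        rw [mem_union, mem_insert] at hy
        rcases hy with h3 | h3 | h3
        · exact hst (mem_union_left _ h3)
        · exact h3 ▸ h1
        · exact hst (mem_union_right _ h3)
    rw [e1, card_sdiff_cast hst, card_union_of_disjoint hd, h.cS s hs, h.cT t ht]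
    push_cast
    ring
  · rw [if_neg hst, mul_zero]
    refine sum_eq_zero fun g _ => if_neg ?_
    intro h1
    apply hst
    intro y hy
    rw [mem_union] at hy
    rcases hy with h3 | h3
    · exact h1 (mem_union_left _ h3)
    · exact h1 (mem_union_right _ (mem_insert_of_mem h3))

/-- The backward weights depend on the upper end only. -/
theorem bw_ty (c : Finset α → Lab) {s w t : Finset α} (hsw : s ⊆ w) (hst : s ⊆ t) :
    bw (ty c s) (t \ s) (w \ s) = fw (fun U => (c (t \ U)).flip) (t \ w) := by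
  unfold bw
  have e1 : (t \ s) \ (w \ s) = t \ w := by
    ext y
    simp only [mem_sdiff, not_and, not_not]
    constructor
    · rintro ⟨⟨h1, h2⟩, h3⟩
      exact ⟨h1, fun h4 => h2 (h3 h4)⟩
    · rintro ⟨h1, h2⟩
      exact ⟨⟨h1, fun h3 => h2 (hsw h3)⟩, fun h3 => absurd h3 h2⟩
  rw [e1]
  refine fw_congr fun U hU => ?_
  unfold dual ty
  have e2 : s ∪ ((t \ s) \ U) = t \ U := by
    ext y
    simp only [mem_union, mem_sdiff]
    constructor
    · rintro (h1 | h1)
      · refine ⟨hst h1, fun h2 => ?_⟩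
        exact (mem_sdiff.1 (hU h2)).2 (hsw h1)
      · exact ⟨h1.1.1, h1.2⟩
    · rintro ⟨h1, h2⟩
      by_cases h3 : y ∈ s
      · exact Or.inl h3
      · exact Or.inr ⟨⟨h1, h3⟩, h2⟩
  rw [e2]

/-- The entropy inequality of one object for an arbitrary kernel `qS` of the `S`-side. -/
theorem obj_ker (hO : Stmt_ONE) (h : Net c i j S T a b) (v vp : Finset α) (hvp : v ⊆ vp)
    (F0 : Finset α → Finset α → ℝ) (G0 : Finset α → ℝ) (hF0 : ∀ s ∈ S, ∀ X, 0 ≤ F0 s X)
    (hG0 : ∀ t, 0 ≤ G0 t) (p : Finset α → Finset α → Finset α → ℝ) (y : Finset α → Finset α → ℝ)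
    (hp : ∀ s ∈ S, s ⊆ v → ∀ t ∈ T, vp ⊆ t → ∀ X, p s t X =
      if X ⊆ v \ s then F0 s X * G0 t else 0)
    (hy : ∀ s ∈ S, s ⊆ v → ∀ t ∈ T, vp ⊆ t → ∑ X ∈ (t \ s).powerset, p s t X = y s t)
    (qS : Finset α → Finset α → Finset α → ℝ)
    (hq : ∀ s ∈ S, s ⊆ v → ∀ X ⊆ v \ s, ∀ t ∈ T, vp ⊆ t → 0 < qS s X t)
    (hq1 : ∀ s ∈ S, s ⊆ v → ∀ X ⊆ v \ s, ∑ t ∈ T.filter (fun t => vp ⊆ t), qS s X t ≤ 1) :
    ∑ s ∈ S.filter (fun s => s ⊆ v), ∑ t ∈ T.filter (fun t => vp ⊆ t), a s * b t *
      ((∑ X ∈ (t \ s).powerset, p s t X * Real.log (qS s X t)) +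
      y s t * (-Real.log (NU c S a b t v) + Real.log (Zt (ty c s) (t \ s) / y s t))) ≤
    -((∑ s ∈ S.filter (fun s => s ⊆ v), ∑ t ∈ T.filter (fun t => vp ⊆ t), a s * b t * y s t) *
      Real.log (∑ s ∈ S.filter (fun s => s ⊆ v), ∑ t ∈ T.filter (fun t => vp ⊆ t),
        a s * b t * y s t)) := by
  obtain ⟨S', hS'⟩ : ∃ S', S' = S.filter (fun s => s ⊆ v) := ⟨_, rfl⟩
  obtain ⟨T', hT'⟩ : ∃ T', T' = T.filter (fun t => vp ⊆ t) := ⟨_, rfl⟩
  have mS : ∀ s, s ∈ S' ↔ s ∈ S ∧ s ⊆ v := fun s => by rw [hS', mem_filter]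
  have mT : ∀ t, t ∈ T' ↔ t ∈ T ∧ vp ⊆ t := fun t => by rw [hT', mem_filter]
  rw [← hS', ← hT']
  rw [← hT'] at hq1
  -- the data
  obtain ⟨P, hP⟩ : ∃ P : Finset ((_ : Finset α) × Finset α),
    P = S'.sigma (fun s => (v \ s).powerset) := ⟨_, rfl⟩
  have mP : ∀ q : (_ : Finset α) × Finset α, q ∈ P ↔ q.1 ∈ S' ∧ q.2 ⊆ v \ q.1 := by
    intro q
    rw [hP, mem_sigma, mem_powerset]
  obtain ⟨F, hF⟩ : ∃ F : ((_ : Finset α) × Finset α) → ℝ, F = fun q => a q.1 * F0 q.1 q.2 :=
    ⟨_, rfl⟩
  obtain ⟨G, hG⟩ : ∃ G : Finset α → ℝ, G = fun t => b t * G0 t := ⟨_, rfl⟩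
  obtain ⟨qT, hqT⟩ : ∃ qT : Finset α → Finset α → ℝ, qT = fun t s =>
    a s * b t * Zt (ty c s) (t \ s) / NU c S a b t v := ⟨_, rfl⟩
  -- sums over the pairs
  obtain ⟨Aq, hAq⟩ : ∃ Aq : Finset α → ℝ, Aq = fun s => ∑ X ∈ (v \ s).powerset, F0 s X :=
    ⟨_, rfl⟩
  have hys : ∀ s ∈ S', ∀ t ∈ T', y s t = Aq s * G0 t := by
    intro s hs t ht
    obtain ⟨hs1, hs2⟩ := (mS s).1 hs
    obtain ⟨ht1, ht2⟩ := (mT t).1 ht
    rw [← hy s hs1 hs2 t ht1 ht2, hAq]
    show _ = (∑ X ∈ (v \ s).powerset, F0 s X) * G0 t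
    rw [sum_mul]
    symm
    have hsub : (v \ s).powerset ⊆ (t \ s).powerset :=
      powerset_mono.2 (sdiff_subset_sdiff (hvp.trans ht2) (Subset.refl _))
    rw [← sum_subset hsub]
    · refine sum_congr rfl fun X hX => ?_
      rw [hp s hs1 hs2 t ht1 ht2, if_pos (mem_powerset.1 hX)]
    · intro X _ hX
      rw [hp s hs1 hs2 t ht1 ht2, if_neg (fun h1 => hX (mem_powerset.2 h1))]
  have hKs : ∀ s ∈ S', ∀ t ∈ T', ∀ K : Finset α → ℝ, ∑ X ∈ (t \ s).powerset, p s t X * K X =
      ∑ X ∈ (v \ s).powerset, F0 s X * G0 t * K X := by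
    intro s hs t ht K
    obtain ⟨hs1, hs2⟩ := (mS s).1 hs
    obtain ⟨ht1, ht2⟩ := (mT t).1 ht
    symm
    have hsub : (v \ s).powerset ⊆ (t \ s).powerset :=
      powerset_mono.2 (sdiff_subset_sdiff (hvp.trans ht2) (Subset.refl _))
    rw [← sum_subset hsub]
    · refine sum_congr rfl fun X hX => ?_
      rw [hp s hs1 hs2 t ht1 ht2, if_pos (mem_powerset.1 hX)]
    · intro X _ hX
      rw [hp s hs1 hs2 t ht1 ht2, if_neg (fun h1 => hX (mem_powerset.2 h1)), zero_mul]
  have hAq0 : ∀ s ∈ S', 0 ≤ Aq s := by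
    intro s hs
    rw [hAq]
    exact sum_nonneg fun X _ => hF0 s ((mS s).1 hs).1 X
  have hFs : ∀ s ∈ S', ∑ q ∈ P.filter (fun q => q.1 = s), F q = a s * Aq s := by
    intro s hs
    rw [sum_filter, hP, sum_sigma, sum_eq_single s]
    · simp only [if_true]
      rw [hF, hAq, mul_sum]
    · intro s' _ hne
      exact sum_eq_zero fun X _ => if_neg hne
    · intro hn
      exact absurd hs hn
  have hW : (∑ q ∈ P, F q) * (∑ t ∈ T', G t) = ∑ s ∈ S', ∑ t ∈ T', a s * b t * y s t := by
    rw [hP, sum_sigma, sum_mul]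
    refine sum_congr rfl fun s hs => ?_
    rw [mul_sum]
    refine sum_congr rfl fun t ht => ?_
    rw [hys s hs t ht, hF, hG, hAq]
    show (∑ X ∈ (v \ s).powerset, a s * F0 s X) * (b t * G0 t) =
      a s * b t * ((∑ X ∈ (v \ s).powerset, F0 s X) * G0 t)
    rw [← mul_sum]
    ring
  have hkey : ∀ q ∈ P, ∀ t ∈ T', 0 < qS q.1 q.2 t := by
    intro q hqP t ht
    have h1 := (mS q.1).1 ((mP q).1 hqP).1
    have h2 := (mT t).1 ht
    exact hq q.1 h1.1 h1.2 q.2 ((mP q).1 hqP).2 t h2.1 h2.2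
  have hmain := hO ((_ : Finset α) × Finset α) (Finset α) (Finset α) P S' T' (fun q => q.1) F G
    (fun q t => qS q.1 q.2 t) qT
    (fun q hq => ((mP q).1 hq).1)
    (fun q hq => by
      have h1 := ((mS q.1).1 ((mP q).1 hq).1).1
      rw [hF]
      exact mul_nonneg (h.pa _ h1).le (hF0 _ h1 _))
    (fun t ht => by
      rw [hG]
      exact mul_nonneg (h.pb t ((mT t).1 ht).1).le (hG0 t))
    (fun q hq t ht _ _ => hkey q hq t ht)
    (fun q hq t ht _ _ => by
      have h1 := (mS q.1).1 ((mP q).1 hq).1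
      have h2 := (mT t).1 ht
      rw [hqT]
      exact div_pos (h.M h1.1 h2.1) (h.NU_pos h1.1 h2.1 h1.2))
    (fun q hq t ht => (hkey q hq t ht).le)
    (fun t ht s hs => by
      have h1 := (mS s).1 hs
      have h2 := (mT t).1 ht
      rw [hqT]
      exact div_nonneg (h.M h1.1 h2.1).le (h.NU_pos h1.1 h2.1 h1.2).le)
    (fun q hqP => by
      have h1 := (mS q.1).1 ((mP q).1 hqP).1
      exact hq1 q.1 h1.1 h1.2 q.2 ((mP q).1 hqP).2)
    (fun t ht => by
      rw [hqT]
      show ∑ s ∈ S', a s * b t * Zt (ty c s) (t \ s) / NU c S a b t v ≤ 1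
      rw [← sum_div]
      have e1 : ∑ s ∈ S', a s * b t * Zt (ty c s) (t \ s) = NU c S a b t v := by
        unfold NU
        rw [hS']
      rw [e1]
      exact div_self_le_one _)
  rw [hW] at hmain
  rw [← neg_mul]
  refine le_trans ?_ hmain
  have e1 : ∑ q ∈ P, ∑ t ∈ T', F q * G t * (Real.log (qS q.1 q.2 t) + Real.log (qT t q.1) -
      Real.log (∑ q' ∈ P.filter (fun q' => q'.1 = q.1), F q') - Real.log (G t)) =
      ∑ s ∈ S', ∑ t ∈ T', ∑ X ∈ (v \ s).powerset, F ⟨s, X⟩ * G t *
        (Real.log (qS s X t) + Real.log (qT t s) -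
        Real.log (∑ q' ∈ P.filter (fun q' => q'.1 = s), F q') - Real.log (G t)) := by
    conv_lhs => rw [hP]
    rw [sum_sigma]
    refine sum_congr rfl fun s _ => ?_
    rw [sum_comm]
    rw [hP]
  rw [e1]
  refine sum_le_sum fun s hs => sum_le_sum fun t ht => ?_
  obtain ⟨hs1, hs2⟩ := (mS s).1 hs
  obtain ⟨ht1, ht2⟩ := (mT t).1 ht
  rw [hKs s hs t ht, hys s hs t ht, hFs s hs]
  have ha := h.pa s hs1
  have hb := h.pb t ht1
  by_cases hz : Aq s * G0 t = 0
  · have hz2 : ∀ X ∈ (v \ s).powerset, F0 s X * G0 t = 0 := by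
      intro X hX
      rcases mul_eq_zero.1 hz with h1 | h1
      · have h2 : F0 s X = 0 := by
          rw [hAq] at h1
          exact (sum_eq_zero_iff_of_nonneg (fun X _ => hF0 s hs1 X)).1 h1 X hX
        rw [h2, zero_mul]
      · rw [h1, mul_zero]
    have e2 : ∑ X ∈ (v \ s).powerset, F0 s X * G0 t * Real.log (qS s X t) = 0 :=
      sum_eq_zero fun X hX => by rw [hz2 X hX, zero_mul]
    rw [e2, hz]
    have e3 : ∑ X ∈ (v \ s).powerset, F ⟨s, X⟩ * G t * (Real.log (qS s X t) +
        Real.log (qT t s) - Real.log (a s * Aq s) - Real.log (G t)) = 0 := by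
      refine sum_eq_zero fun X hX => ?_
      have : F ⟨s, X⟩ * G t = a s * b t * (F0 s X * G0 t) := by
        rw [hF, hG]
        show a s * F0 s X * (b t * G0 t) = _
        ring
      rw [this, hz2 X hX, mul_zero, zero_mul]
    rw [e3]
    simp
  · have hA : 0 < Aq s := lt_of_le_of_ne (hAq0 s hs) (fun h1 => hz (by rw [← h1, zero_mul]))
    have hG' : 0 < G0 t := lt_of_le_of_ne (hG0 t) (fun h1 => hz (by rw [← h1, mul_zero]))
    have hZ := h.Z hs1 t
    have hN := h.NU_pos hs1 ht1 hs2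
    have e2 : Real.log (qT t s) = Real.log (a s) + Real.log (b t) +
        Real.log (Zt (ty c s) (t \ s)) - Real.log (NU c S a b t v) := by
      rw [hqT]
      show Real.log (a s * b t * Zt (ty c s) (t \ s) / NU c S a b t v) = _
      rw [Real.log_div (h.M hs1 ht1).ne' hN.ne', Real.log_mul (mul_pos ha hb).ne' hZ.ne',
        Real.log_mul ha.ne' hb.ne']
    have e3 : Real.log (Zt (ty c s) (t \ s) / (Aq s * G0 t)) =
        Real.log (Zt (ty c s) (t \ s)) - Real.log (Aq s) - Real.log (G0 t) := by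
      rw [Real.log_div hZ.ne' (mul_pos hA hG').ne', Real.log_mul hA.ne' hG'.ne']
      ring
    have e4 : Real.log (G t) = Real.log (b t) + Real.log (G0 t) := by
      rw [hG]
      exact Real.log_mul hb.ne' hG'.ne'
    rw [e2, e3, e4, Real.log_mul ha.ne' hA.ne']
    have e5 : Aq s * G0 t * (-Real.log (NU c S a b t v) + (Real.log (Zt (ty c s) (t \ s)) -
        Real.log (Aq s) - Real.log (G0 t))) = ∑ X ∈ (v \ s).powerset, F0 s X * G0 t *
        (-Real.log (NU c S a b t v) + (Real.log (Zt (ty c s) (t \ s)) -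
        Real.log (Aq s) - Real.log (G0 t))) := by
      rw [← sum_mul, ← sum_mul]
      congr 2
      rw [hAq]
    rw [e5, ← sum_add_distrib, mul_sum]
    refine le_of_eq (sum_congr rfl fun X _ => ?_)
    have h2 : F ⟨s, X⟩ * G t = a s * b t * (F0 s X * G0 t) := by
      rw [hF, hG]
      show a s * F0 s X * (b t * G0 t) = _
      ring
    rw [h2]
    ring

end net

end R5

end

section

/-! Block OBJE, and its version OBJEG for an arbitrary kernel (helper51). -/

namespace R5

open Finset MP_8b6acb_co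

section

variable {α : Type} [Fintype α] [DecidableEq α] {c : Finset α → Lab} {i j : ℕ}
  {S T : Finset (Finset α)} {a b : Finset α → ℝ}

/-- `pe` is a product of a function of `(s, X)` and a function of `t`. -/
theorem pe_split (h : Net c i j S T a b) (e : Finset α × α) (he : e ∈ netE c i j S T) :
    (∃ (F0 : Finset α → Finset α → ℝ) (G0 : Finset α → ℝ), (∀ s ∈ S, ∀ X, 0 ≤ F0 s X) ∧
      (∀ t, 0 ≤ G0 t) ∧ ∀ s ∈ S, s ⊆ e.1 → ∀ t ∈ T, insert e.2 e.1 ⊆ t → ∀ X,
        pe (ty c s) (t \ s) X (e.1 \ s) e.2 = if X ⊆ e.1 \ s then F0 s X * G0 t else 0) ∧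
    (∀ s : Finset α, s ⊆ e.1 → e.2 ∉ s) ∧
    (∀ s : Finset α, s ⊆ e.1 → insert e.2 (e.1 \ s) = insert e.2 e.1 \ s) ∧
    (∀ s : Finset α, s ⊆ e.1 → s ∪ (e.1 \ s) = e.1) := by
  obtain ⟨v, x⟩ := e
  unfold netE at he
  rw [mem_filter] at he
  obtain ⟨-, hxv, hv, hcv, hvx, hcx⟩ := he
  simp only at hxv hv hcv hvx hcx ⊢
  have hi1 : i ≤ v.card := by
    rcases hv with h1 | h1
    · exact (h.cS v h1).ge
    · unfold Mid at h1
      rw [mem_filter] at h1
      omega
  have hi2 : v.card + 1 ≤ j := by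
    rw [← card_insert_of_notMem hxv]
    rcases hvx with h1 | h1
    · unfold Mid at h1
      rw [mem_filter] at h1
      omega
    · exact (h.cT _ h1).le
  have hxs : ∀ s : Finset α, s ⊆ v → x ∉ s := fun s hs h1 => hxv (hs h1)
  have eI : ∀ s : Finset α, s ⊆ v → insert x (v \ s) = insert x v \ s := fun s hs =>
    (insert_sdiff_of_notMem v (hxs s hs)).symm
  have eU : ∀ s : Finset α, s ⊆ v → s ∪ (v \ s) = v := fun s hs => union_sdiff_of_subset hs
  have hisE : ∀ s : Finset α, s ⊆ v → isE (ty c s) (v \ s) x := by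
    intro s hs
    unfold isE ty
    rw [eU s hs, union_insert, eU s hs]
    exact ⟨hcv, hcx⟩
  have hden : (0 : ℝ) < (j : ℝ) - i - ((v.card : ℝ) - i) := by
    have : (v.card : ℝ) + 1 ≤ j := by exact_mod_cast hi2
    linarith
  have hl : (0 : ℝ) < (j : ℝ) - i + 1 := by
    have : (i : ℝ) < j := by exact_mod_cast h.hij
    linarith
  refine ⟨⟨fun s X => fw (ty c s) X / (((j : ℝ) - i + 1) * ((j - i).choose X.card : ℝ) *
      ((j - i - X.card).choose (v.card - i - X.card) : ℝ) * ((j : ℝ) - i - ((v.card : ℝ) - i))),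
    fun t => fw (fun U => (c (t \ U)).flip) (t \ insert x v),
    fun s _ X => div_nonneg (fw_nonneg _ _) (by positivity), fun t => fw_nonneg _ _, ?_⟩,
    hxs, eI, eU⟩
  intro s hs hsv t ht htv X
  have hvt : v ⊆ t := (subset_insert _ _).trans htv
  have hst : s ⊆ t := hsv.trans hvt
  have c1 : (t \ s).card = j - i := by
    rw [card_sdiff_of_subset hst, h.cS s hs, h.cT t ht]
  have c2 : ((t \ s).card : ℝ) = (j : ℝ) - i := by
    rw [card_sdiff_cast hst, h.cS s hs, h.cT t ht]
  have c3 : (v \ s).card = v.card - i := by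
    rw [card_sdiff_of_subset hsv, h.cS s hs]
  have c4 : ((v \ s).card : ℝ) = (v.card : ℝ) - i := by
    rw [card_sdiff_cast hsv, h.cS s hs]
  unfold pe
  have b1 : bw (ty c s) (t \ s) (insert x (v \ s)) =
      fw (fun U => (c (t \ U)).flip) (t \ insert x v) := by
    rw [eI s hsv]
    exact bw_ty c (hsv.trans (subset_insert _ _)) hst
  rw [b1, c2, c4, c1, c3]
  by_cases hX : X ⊆ v \ s
  · rw [if_pos ⟨hX, hisE s hsv⟩, if_pos hX]
    ring
  · rw [if_neg (fun g => hX g.1), if_neg hX]

theorem ysum_e (hY : Stmt_YSUM α) (e : Finset α × α)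
    (he : e.2 ∉ e.1) (s t : Finset α) (hsv : s ⊆ e.1)
    (htv : insert e.2 e.1 ⊆ t) :
    ∑ X ∈ (t \ s).powerset, pe (ty c s) (t \ s) X (e.1 \ s) e.2 =
      yLe (ty c s) (t \ s) (e.1 \ s) e.2 := by
  have hvt : e.1 ⊆ t := (subset_insert _ _).trans htv
  refine (hY (ty c s) (t \ s) (e.1 \ s) (sdiff_subset_sdiff hvt (Subset.refl _))).1 e.2 ?_
  simp only [mem_sdiff, not_and, not_not]
  exact ⟨⟨htv (mem_insert_self _ _), fun g => he (hsv g)⟩, fun g => absurd g he⟩

/-- OBJEG: the entropy inequality of one cut edge for an arbitrary kernel of the `S`-side. -/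
theorem objeg (hO : Stmt_ONE) (hY : Stmt_YSUM α) (h : Net c i j S T a b) (e : Finset α × α)
    (he : e ∈ netE c i j S T) (qS : Finset α → Finset α → Finset α → ℝ)
    (hq : ∀ s ∈ S, s ⊆ e.1 → ∀ X ⊆ e.1 \ s, ∀ t ∈ T, insert e.2 e.1 ⊆ t → 0 < qS s X t)
    (hq1 : ∀ s ∈ S, s ⊆ e.1 → ∀ X ⊆ e.1 \ s,
      ∑ t ∈ T.filter (fun t => insert e.2 e.1 ⊆ t), qS s X t ≤ 1) :
    ∑ s ∈ S.filter (fun s => s ⊆ e.1), ∑ t ∈ T.filter (fun t => insert e.2 e.1 ⊆ t), a s * b t *
      ((∑ X ∈ (t \ s).powerset, pe (ty c s) (t \ s) X (e.1 \ s) e.2 * Real.log (qS s X t)) +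
        yLe (ty c s) (t \ s) (e.1 \ s) e.2 * (-Real.log (NU c S a b t (s ∪ (e.1 \ s))) +
          Real.log (Zt (ty c s) (t \ s) / yLe (ty c s) (t \ s) (e.1 \ s) e.2))) ≤
      -(WE c S T a b e.1 e.2 * Real.log (WE c S T a b e.1 e.2)) := by
  obtain ⟨⟨F0, G0, hF0, hG0, hp⟩, hxs, eI, eU⟩ := pe_split h e he
  have hxv : e.2 ∉ e.1 := hxs e.1 (Subset.refl _)
  have hgen := obj_ker hO h e.1 (insert e.2 e.1) (subset_insert _ _) F0 G0 hF0 hG0
    (fun s t X => pe (ty c s) (t \ s) X (e.1 \ s) e.2)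
    (fun s t => yLe (ty c s) (t \ s) (e.1 \ s) e.2) hp
    (fun s _ hsv t _ htv => ysum_e hY e hxv s t hsv htv) qS hq hq1
  unfold WE
  refine le_trans (le_of_eq ?_) hgen
  refine sum_congr rfl fun s hs => sum_congr rfl fun t _ => ?_
  rw [eU s (mem_filter.1 hs).2]

end

end R5

end

section

/-! Block OBJX, and its version OBJXG for an arbitrary kernel (helper51). -/

namespace R5

open Finset MP_8b6acb_co

section

variable {α : Type} [Fintype α] [DecidableEq α] {c : Finset α → Lab} {i j : ℕ}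
  {S T : Finset (Finset α)} {a b : Finset α → ℝ}

/-- `pv` is a product of a function of `(s, X)` and a function of `t`. -/
theorem pv_split (h : Net c i j S T a b) (v : Finset α) (hv : v ∈ netX c i j) :
    ∃ (F0 : Finset α → Finset α → ℝ) (G0 : Finset α → ℝ), (∀ s ∈ S, ∀ X, 0 ≤ F0 s X) ∧
      (∀ t, 0 ≤ G0 t) ∧ ∀ s ∈ S, s ⊆ v → ∀ t ∈ T, v ⊆ t → ∀ X,
        pv (ty c s) (t \ s) X (v \ s) = if X ⊆ v \ s then F0 s X * G0 t else 0 := by
  unfold netX at hv
  rw [mem_filter] at hv
  obtain ⟨hv, hcv⟩ := hv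
  unfold Mid at hv
  rw [mem_filter] at hv
  have hi1 : i ≤ v.card := by omega
  have hi2 : v.card ≤ j := by omega
  have eU : ∀ s : Finset α, s ⊆ v → s ∪ (v \ s) = v := fun s hs => union_sdiff_of_subset hs
  have hl : (0 : ℝ) < (j : ℝ) - i + 1 := by
    have : (i : ℝ) < j := by exact_mod_cast h.hij
    linarith
  refine ⟨fun s X => fw (ty c s) X / (((j : ℝ) - i + 1) * ((j - i).choose X.card : ℝ) *
      ((j - i - X.card).choose (v.card - i - X.card) : ℝ)),
    fun t => (∑ x ∈ t \ v, fw (fun U => (c (t \ U)).flip) (t \ insert x v)) /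
      ((t \ v).card : ℝ),
    fun s _ X => div_nonneg (fw_nonneg _ _) (by positivity),
    fun t => div_nonneg (sum_nonneg fun _ _ => fw_nonneg _ _) (Nat.cast_nonneg _), ?_⟩
  intro s hs hsv t ht hvt X
  have hst : s ⊆ t := hsv.trans hvt
  have c1 : (t \ s).card = j - i := by
    rw [card_sdiff_of_subset hst, h.cS s hs, h.cT t ht]
  have c2 : ((t \ s).card : ℝ) = (j : ℝ) - i := by
    rw [card_sdiff_cast hst, h.cS s hs, h.cT t ht]
  have c3 : (v \ s).card = v.card - i := by
    rw [card_sdiff_of_subset hsv, h.cS s hs]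
  have eD : (t \ s) \ (v \ s) = t \ v := by
    ext z
    simp only [mem_sdiff, not_and, not_not]
    constructor
    · rintro ⟨⟨h1, h2⟩, h3⟩
      exact ⟨h1, fun h4 => h2 (h3 h4)⟩
    · rintro ⟨h1, h2⟩
      exact ⟨⟨h1, fun h3 => h2 (hsv h3)⟩, fun h3 => absurd h3 h2⟩
  unfold pv
  have b1 : bwb (ty c s) (t \ s) (v \ s) =
      (∑ x ∈ t \ v, fw (fun U => (c (t \ U)).flip) (t \ insert x v)) /
        ((t \ v).card : ℝ) := by
    unfold bwb
    rw [eD]
    congr 1
    refine sum_congr rfl fun x hx => ?_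
    have hxs : x ∉ s := fun g => (mem_sdiff.1 hx).2 (hsv g)
    rw [← insert_sdiff_of_notMem v hxs]
    exact bw_ty c (hsv.trans (subset_insert _ _)) hst
  rw [b1, c2, c1, c3]
  have hX0 : ty c s (v \ s) = Lab.X := by
    unfold ty
    rw [eU s hsv]
    exact hcv
  by_cases hX : X ⊆ v \ s
  · rw [if_pos ⟨hX, hX0⟩, if_pos hX]
    ring
  · rw [if_neg (fun g => hX g.1), if_neg hX]

/-- OBJXG: the entropy inequality of one cut vertex for an arbitrary kernel of the `S`-side. -/
theorem objxg (hO : Stmt_ONE) (hY : Stmt_YSUM α) (h : Net c i j S T a b) (v : Finset α)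
    (hv : v ∈ netX c i j) (qS : Finset α → Finset α → Finset α → ℝ)
    (hq : ∀ s ∈ S, s ⊆ v → ∀ X ⊆ v \ s, ∀ t ∈ T, v ⊆ t → 0 < qS s X t)
    (hq1 : ∀ s ∈ S, s ⊆ v → ∀ X ⊆ v \ s,
      ∑ t ∈ T.filter (fun t => v ⊆ t), qS s X t ≤ 1) :
    ∑ s ∈ S.filter (fun s => s ⊆ v), ∑ t ∈ T.filter (fun t => v ⊆ t), a s * b t *
      ((∑ X ∈ (t \ s).powerset, pv (ty c s) (t \ s) X (v \ s) * Real.log (qS s X t)) +
        yLv (ty c s) (t \ s) (v \ s) * (-Real.log (NU c S a b t (s ∪ (v \ s))) +
          Real.log (Zt (ty c s) (t \ s) / yLv (ty c s) (t \ s) (v \ s)))) ≤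
      -(WX c S T a b v * Real.log (WX c S T a b v)) := by
  obtain ⟨F0, G0, hF0, hG0, hp⟩ := pv_split h v hv
  have hgen := obj_ker hO h v v (Subset.refl _) F0 G0 hF0 hG0
    (fun s t X => pv (ty c s) (t \ s) X (v \ s))
    (fun s t => yLv (ty c s) (t \ s) (v \ s)) hp
    (fun s _ hsv t _ hvt =>
      (hY (ty c s) (t \ s) (v \ s) (sdiff_subset_sdiff hvt (Subset.refl _))).2) qS hq hq1
  unfold WX
  refine le_trans (le_of_eq ?_) hgen
  refine sum_congr rfl fun s hs => sum_congr rfl fun t _ => ?_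
  rw [union_sdiff_of_subset (mem_filter.1 hs).2]

end

end R5

end

section

/-! Block ONE: the entropy of a product measure against kernels. -/

namespace R5

open Finset

/-- Gibbs inequality against a sub-probability. -/
theorem one_gibbs (hG : Stmt_GIBBS) {ι : Type} (K : Finset ι) (w c : ι → ℝ)
    (hw : ∀ k ∈ K, 0 ≤ w k) (hc : ∀ k ∈ K, 0 ≤ c k) (hwc : ∀ k ∈ K, 0 < w k → 0 < c k)
    (h1 : ∑ k ∈ K, c k ≤ 1) :
    ∑ k ∈ K, w k * (Real.log (c k) - Real.log (w k)) ≤
      -((∑ k ∈ K, w k) * Real.log (∑ k ∈ K, w k)) := by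
  have hW0 : 0 ≤ ∑ k ∈ K, w k := sum_nonneg hw
  rcases eq_or_lt_of_le hW0 with hW | hW
  · have h0 : ∀ k ∈ K, w k = 0 := (sum_eq_zero_iff_of_nonneg hw).1 hW.symm
    rw [← hW, zero_mul, neg_zero]
    refine le_of_eq (sum_eq_zero fun k hk => ?_)
    rw [h0 k hk, zero_mul]
  · obtain ⟨k0, hk0, hk0'⟩ : ∃ k ∈ K, 0 < w k := by
      by_contra h
      push Not at h
      exact absurd (sum_nonpos h) (not_le.2 hW)
    have hC : 0 < ∑ k ∈ K, c k :=
      lt_of_lt_of_le (hwc k0 hk0 hk0') (single_le_sum hc hk0)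
    have h2 := hG ι K w c hw hc hwc
    have h3 : ∑ k ∈ K, w k * Real.log (c k / w k) =
        ∑ k ∈ K, w k * (Real.log (c k) - Real.log (w k)) := by
      refine sum_congr rfl fun k hk => ?_
      rcases eq_or_lt_of_le (hw k hk) with h | h
      · rw [← h, zero_mul, zero_mul]
      · rw [Real.log_div (hwc k hk h).ne' h.ne']
    rw [h3, Real.log_div hC.ne' hW.ne'] at h2
    have h4 : Real.log (∑ k ∈ K, c k) ≤ 0 := Real.log_nonpos hC.le h1
    have h5 : (∑ k ∈ K, w k) * Real.log (∑ k ∈ K, c k) ≤ 0 := mul_nonpos_of_nonneg_of_nonpos hW0 h4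
    linarith

theorem stmt_ONE (hGI : Stmt_GIBBS) : Stmt_ONE := by
  intro ι σ θ _ P S T pr F G qS qT hpr hF hG hqS hqT hqS0 hqT0 hqS1 hqT1
  set FS : σ → ℝ := fun s => ∑ p' ∈ P.filter (fun p' => pr p' = s), F p' with hFS
  have hFS0 : ∀ s, 0 ≤ FS s := fun s => sum_nonneg fun p hp => hF p (mem_filter.1 hp).1
  have hSum : ∀ h : σ → ℝ, ∑ p ∈ P, F p * h (pr p) = ∑ s ∈ S, FS s * h s := by
    intro h
    rw [← sum_fiberwise_of_maps_to hpr]
    refine sum_congr rfl fun s _ => ?_
    rw [hFS, sum_mul]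
    refine sum_congr rfl fun p hp => ?_
    rw [(mem_filter.1 hp).2]
  have hF0 : 0 ≤ ∑ p ∈ P, F p := sum_nonneg hF
  have hG0 : 0 ≤ ∑ t ∈ T, G t := sum_nonneg hG
  have hFSs : ∑ s ∈ S, FS s = ∑ p ∈ P, F p := by
    have := hSum (fun _ => 1)
    simp only [mul_one] at this
    exact this.symm
  set FF := ∑ p ∈ P, F p with hFF
  set GG := ∑ t ∈ T, G t with hGG
  -- splitting
  have hsplit : ∑ p ∈ P, ∑ t ∈ T, F p * G t * (Real.log (qS p t) + Real.log (qT t (pr p)) -
      Real.log (FS (pr p)) - Real.log (G t)) =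
      (∑ p ∈ P, F p * ∑ t ∈ T, G t * (Real.log (qS p t) - Real.log (G t))) +
      ∑ t ∈ T, G t * ∑ p ∈ P, F p * (Real.log (qT t (pr p)) - Real.log (FS (pr p))) := by
    have e1 : ∑ t ∈ T, G t * ∑ p ∈ P, F p * (Real.log (qT t (pr p)) - Real.log (FS (pr p))) =
        ∑ p ∈ P, ∑ t ∈ T, F p * G t * (Real.log (qT t (pr p)) - Real.log (FS (pr p))) := by
      rw [sum_comm]
      refine sum_congr rfl fun t _ => ?_
      rw [mul_sum]
      exact sum_congr rfl fun p _ => by ring
    have e2 : ∑ p ∈ P, F p * ∑ t ∈ T, G t * (Real.log (qS p t) - Real.log (G t)) =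
        ∑ p ∈ P, ∑ t ∈ T, F p * G t * (Real.log (qS p t) - Real.log (G t)) := by
      refine sum_congr rfl fun p _ => ?_
      rw [mul_sum]
      exact sum_congr rfl fun t _ => by ring
    rw [e1, e2, ← sum_add_distrib]
    refine sum_congr rfl fun p _ => ?_
    rw [← sum_add_distrib]
    exact sum_congr rfl fun t _ => by ring
  have hA : ∑ p ∈ P, F p * ∑ t ∈ T, G t * (Real.log (qS p t) - Real.log (G t)) ≤
      FF * -(GG * Real.log GG) := by
    rw [hFF, sum_mul]
    refine sum_le_sum fun p hp => ?_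
    rcases eq_or_lt_of_le (hF p hp) with h | h
    · rw [← h, zero_mul, zero_mul]
    · exact mul_le_mul_of_nonneg_left (one_gibbs hGI T G (qS p) hG (hqS0 p hp)
        (fun t ht hGt => hqS p hp t ht h hGt) (hqS1 p hp)) h.le
  have hB : ∑ t ∈ T, G t * ∑ p ∈ P, F p * (Real.log (qT t (pr p)) - Real.log (FS (pr p))) ≤
      GG * -(FF * Real.log FF) := by
    rw [hGG, sum_mul]
    refine sum_le_sum fun t ht => ?_
    rcases eq_or_lt_of_le (hG t ht) with h | h
    · rw [← h, zero_mul, zero_mul]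
    · rw [hSum (fun s => Real.log (qT t s) - Real.log (FS s)), ← hFSs]
      refine mul_le_mul_of_nonneg_left (one_gibbs hGI S FS (qT t) (fun s _ => hFS0 s) (hqT0 t ht)
        ?_ (hqT1 t ht)) h.le
      intro s _ hs
      obtain ⟨p, hp, hp'⟩ : ∃ p ∈ P.filter (fun p' => pr p' = s), 0 < F p := by
        by_contra hn
        push Not at hn
        exact absurd (sum_nonpos hn) (not_le.2 hs)
      rw [mem_filter] at hp
      rw [← hp.2]
      exact hqT p hp.1 t ht hp' h
  rw [hsplit]
  have hfin : FF * -(GG * Real.log GG) + GG * -(FF * Real.log FF) ≤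
      -(FF * GG) * Real.log (FF * GG) := by
    rcases eq_or_lt_of_le hF0 with h | h
    · rw [← h]; simp
    rcases eq_or_lt_of_le hG0 with h' | h'
    · rw [← h']; simp
    rw [Real.log_mul h.ne' h'.ne']
    apply le_of_eq
    ring
  linarith

end R5

end

section

/-! Block SWL: the swap, colour L. -/

namespace R5

open Finset

variable {α : Type} [DecidableEq α]

/-- Recursion for `ab`. -/
theorem ab_rec {τ : Finset α → Lab} {D V : Finset α} (hne : ¬ D ⊆ V) :
    ab τ D V = bw τ D V + (∑ x ∈ D \ V, ab τ D (insert x V)) / ((D \ V).card : ℝ) := by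
  unfold ab bw
  have h1 : D \ V ≠ ∅ := by
    rw [Ne, sdiff_eq_empty_iff_subset]
    exact hne
  rw [aw_rec h1]
  congr 2
  refine sum_congr rfl fun x _ => ?_
  rw [sdiff_erase_eq]

/-- Absorption of binomials. -/
theorem choose_absorb {n k : ℕ} (hk : k < n) :
    (n.choose k : ℝ) * ((n : ℝ) - k) = (n : ℝ) * ((n - 1).choose k : ℝ) := by
  obtain ⟨p, rfl⟩ : ∃ p, n = p + 1 := ⟨n - 1, by omega⟩
  have h3 : (((p + 1) - k : ℕ) : ℝ) = ((p + 1 : ℕ) : ℝ) - k := Nat.cast_sub hk.le
  rw [← h3, Nat.add_sub_cancel]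
  have h4 : (p + 1).choose k * (p + 1 - k) = (p + 1) * p.choose k := by
    rw [← Nat.choose_mul_succ_eq, mul_comm]
  exact_mod_cast h4

/-- The mass of the objects at the set `V`, star at `X`. -/
theorem obj_sum {τ : Finset α → Lab} {D X V : Finset α} (hV : V ⊆ D) (hne : V ≠ D) :
    (∑ x ∈ D \ V, pe τ D X V x) + pv τ D X V = if X ⊆ V then
      fw τ X * (bwb τ D V - bw τ D V) / (((D.card : ℝ) + 1) * (D.card.choose X.card : ℝ) *
        ((D.card - X.card).choose (V.card - X.card) : ℝ)) else 0 := by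
  by_cases hX : X ⊆ V
  · rw [if_pos hX]
    have hc : (0 : ℝ) < ((D \ V).card : ℝ) := by
      rw [Nat.cast_pos, card_pos, sdiff_nonempty]
      exact fun h => hne (Subset.antisymm hV h)
    have hc2 : ((D \ V).card : ℝ) = (D.card : ℝ) - V.card := card_sdiff_cast hV
    cases h : τ V with
    | A =>
      have h1 : ∀ x ∈ D \ V, pe τ D X V x = bw τ D (insert x V) *
          (fw τ X / (((D.card : ℝ) + 1) * (D.card.choose X.card : ℝ) *
            ((D.card - X.card).choose (V.card - X.card) : ℝ) * ((D.card : ℝ) - V.card))) := by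
        intro x hx
        unfold pe
        by_cases hB : τ (insert x V) = Lab.B
        · rw [if_pos ⟨hX, h, hB⟩]
          ring
        · rw [if_neg (fun hh => hB hh.2.2), bw_of_ne (insert_subset (mem_sdiff.1 hx).1 hV) hB,
            zero_mul]
      have h2 : pv τ D X V = 0 := by
        unfold pv
        rw [if_neg]
        rintro ⟨-, h3⟩
        rw [h] at h3
        exact absurd h3 (by simp)
      rw [sum_congr rfl h1, ← sum_mul, h2, add_zero, bw_of_ne hV (by rw [h]; simp), sub_zero]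
      unfold bwb
      rw [← hc2]
      field_simp
    | B =>
      have h1 : ∀ x ∈ D \ V, pe τ D X V x = 0 := by
        intro x hx
        unfold pe
        rw [if_neg]
        rintro ⟨-, h3, -⟩
        rw [h] at h3
        exact absurd h3 (by simp)
      have h2 : pv τ D X V = 0 := by
        unfold pv
        rw [if_neg]
        rintro ⟨-, h3⟩
        rw [h] at h3
        exact absurd h3 (by simp)
      rw [sum_congr rfl h1, sum_const_zero, h2, bw_rec hV hne, if_pos h, sub_self]
      simp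
    | X =>
      have h1 : ∀ x ∈ D \ V, pe τ D X V x = 0 := by
        intro x hx
        unfold pe
        rw [if_neg]
        rintro ⟨-, h3, -⟩
        rw [h] at h3
        exact absurd h3 (by simp)
      rw [sum_congr rfl h1, sum_const_zero, bw_of_ne hV (by rw [h]; simp), sub_zero, zero_add]
      unfold pv
      rw [if_pos ⟨hX, h⟩]
  · rw [if_neg hX]
    have h1 : ∀ x ∈ D \ V, pe τ D X V x = 0 := by
      intro x hx
      unfold pe
      rw [if_neg (fun hh => hX hh.1)]
    have h2 : pv τ D X V = 0 := by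
      unfold pv
      rw [if_neg (fun hh => hX hh.1)]
    rw [sum_congr rfl h1, sum_const_zero, h2, add_zero]

/-- The swap for a function on the subsets of `E`. -/
theorem swl_core (E : Finset α) (g : α) (hg : g ∈ E) (c : Finset α → ℝ) (h0 : c ∅ = 0) :
    ∑ W ∈ (E.erase g).powerset, ((∑ x ∈ E \ W, c (insert x W)) / ((E \ W).card : ℝ) - c W) /
        (E.card.choose W.card : ℝ) =
      (∑ U ∈ (E.erase g).powerset, c (insert g U) / ((E.card - 1).choose U.card : ℝ)) /
        (E.card : ℝ) := by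
  have hn : 0 < E.card := card_pos.2 ⟨g, hg⟩
  have hn' : (0 : ℝ) < E.card := by exact_mod_cast hn
  have hE1 : (E.erase g).card = E.card - 1 := card_erase_of_mem hg
  -- split off the element `g`
  have h1 : ∀ W ∈ (E.erase g).powerset,
      ((∑ x ∈ E \ W, c (insert x W)) / ((E \ W).card : ℝ) - c W) / (E.card.choose W.card : ℝ) =
      c (insert g W) / ((E.card - 1).choose W.card : ℝ) / (E.card : ℝ) +
      ((∑ x ∈ (E.erase g) \ W, c (insert x W) /
        ((E.card.choose W.card : ℝ) * ((E.card : ℝ) - W.card))) -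
        c W / (E.card.choose W.card : ℝ)) := by
    intro W hW
    rw [mem_powerset] at hW
    have hWE : W ⊆ E := hW.trans (erase_subset _ _)
    have hgW : g ∉ W := fun h => notMem_erase g E (hW h)
    have hlt : W.card < E.card := by
      have := card_le_card hW
      omega
    have e1 : E \ W = insert g ((E.erase g) \ W) := by
      ext y
      simp only [mem_sdiff, mem_insert, mem_erase]
      by_cases hy : y = g
      · subst hy
        simp [hg, hgW]
      · simp [hy]
    have e2 : g ∉ (E.erase g) \ W := by simp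
    have e3 : ((E \ W).card : ℝ) = (E.card : ℝ) - W.card := card_sdiff_cast hWE
    have e4 : (0 : ℝ) < (E.card : ℝ) - W.card := by
      have : (W.card : ℝ) < E.card := by exact_mod_cast hlt
      linarith
    have e5 := choose_absorb hlt
    have e6 : (0 : ℝ) < (E.card.choose W.card : ℝ) := choose_pos_real hlt.le
    have e7 : (0 : ℝ) < ((E.card - 1).choose W.card : ℝ) := choose_pos_real (by omega)
    rw [e3, e1, sum_insert e2, sub_div, add_div, add_div, div_div, div_div, ← sum_div,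
      mul_comm ((E.card : ℝ) - W.card), e5, mul_comm (E.card : ℝ), ← div_div]
    ring
  rw [sum_congr rfl h1, sum_add_distrib, ← sum_div, sum_sub_distrib]
  have h2 : ∑ W ∈ (E.erase g).powerset, ∑ x ∈ (E.erase g) \ W, c (insert x W) /
        ((E.card.choose W.card : ℝ) * ((E.card : ℝ) - W.card)) =
      ∑ W ∈ (E.erase g).powerset, c W / (E.card.choose W.card : ℝ) := by
    rw [sum_up_down (E.erase g) (fun W x => c (insert x W) /
        ((E.card.choose W.card : ℝ) * ((E.card : ℝ) - W.card)))]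
    refine sum_congr rfl fun Y hY => ?_
    rw [mem_powerset] at hY
    by_cases hY0 : Y = ∅
    · subst hY0
      simp [h0]
    have hYc : 0 < Y.card := card_pos.2 (nonempty_iff_ne_empty.2 hY0)
    have hlt : Y.card < E.card := by
      have := card_le_card hY
      omega
    have e1 : ∀ x ∈ Y, c (insert x (Y.erase x)) /
        ((E.card.choose (Y.erase x).card : ℝ) * ((E.card : ℝ) - (Y.erase x).card)) =
        c Y / ((E.card.choose Y.card : ℝ) * (Y.card : ℝ)) := by
      intro x hx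
      rw [insert_erase hx, card_erase_of_mem hx]
      have e2 := choose_up (l := E.card) (k := Y.card - 1) (by omega)
      have e3 : Y.card - 1 + 1 = Y.card := by omega
      have e4 : ((Y.card - 1 : ℕ) : ℝ) + 1 = Y.card := by
        have := congrArg (fun n : ℕ => (n : ℝ)) e3
        push_cast at this
        exact this
      rw [e2, e3, e4]
    rw [sum_congr rfl e1, sum_const, nsmul_eq_mul]
    have e5 : (0 : ℝ) < Y.card := by exact_mod_cast hYc
    have e6 : (0 : ℝ) < (E.card.choose Y.card : ℝ) := choose_pos_real hlt.le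
    field_simp
  rw [h2, sub_self, add_zero]

theorem stmt_SWL : Stmt_SWL α := by
  intro τ D X g hX hg
  have hgD : g ∈ D := (mem_sdiff.1 hg).1
  have hgX : g ∉ X := (mem_sdiff.1 hg).2
  by_cases hA : τ X = Lab.A
  swap
  · rw [fw_of_ne hA, zero_mul, zero_div]
    refine sum_eq_zero fun V hV => ?_
    rw [mem_powerset] at hV
    have hVD : V ⊆ D := hV.trans (erase_subset _ _)
    have hVne : V ≠ D := by
      rintro rfl
      exact notMem_erase g V (hV hgD)
    rw [obj_sum hVD hVne, fw_of_ne hA]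
    split_ifs <;> simp
  have hlt : X.card < D.card := card_lt_card ⟨hX, fun h => hgX (h hgD)⟩
  have hXc : (D \ X).card = D.card - X.card := card_sdiff_of_subset hX
  have hXc' : ((D \ X).card : ℝ) = (D.card : ℝ) - X.card := card_sdiff_cast hX
  have hcore := swl_core (D \ X) g hg (fun W => bw τ D (X ∪ W)) (by
    simp only [union_empty]
    exact bw_of_ne hX (by rw [hA]; simp))
  -- the right side
  have hab : ab τ D (insert g X) = ∑ U ∈ ((D \ X).erase g).powerset,
      bw τ D (X ∪ insert g U) / (((D \ X).card - 1).choose U.card : ℝ) := by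
    rw [ab_eq_sum (insert_subset hgD hX), ← sdiff_erase_eq, card_erase_of_mem hg]
    refine sum_congr rfl fun U _ => ?_
    rw [insert_union, union_insert]
  rw [← hab, hXc'] at hcore
  -- the left side
  have hL : ∑ V ∈ (D.erase g).powerset, ((∑ x ∈ D \ V, pe τ D X V x) + pv τ D X V) =
      fw τ X / (((D.card : ℝ) + 1) * (D.card.choose X.card : ℝ)) *
      ∑ W ∈ ((D \ X).erase g).powerset, ((∑ x ∈ (D \ X) \ W, bw τ D (X ∪ insert x W)) /
        (((D \ X) \ W).card : ℝ) - bw τ D (X ∪ W)) / ((D \ X).card.choose W.card : ℝ) := by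
    have h1 : ∀ V ∈ (D.erase g).powerset, (∑ x ∈ D \ V, pe τ D X V x) + pv τ D X V =
        if X ⊆ V then fw τ X * (bwb τ D V - bw τ D V) / (((D.card : ℝ) + 1) *
          (D.card.choose X.card : ℝ) * ((D.card - X.card).choose (V.card - X.card) : ℝ))
        else 0 := by
      intro V hV
      rw [mem_powerset] at hV
      refine obj_sum (hV.trans (erase_subset _ _)) ?_
      rintro rfl
      exact notMem_erase g V (hV hgD)
    rw [sum_congr rfl h1, ← sum_filter, mul_sum]
    refine sum_bij' (fun V _ => V \ X) (fun W _ => X ∪ W) ?_ ?_ ?_ ?_ ?_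
    · intro V hV
      rw [mem_filter, mem_powerset] at hV
      rw [mem_powerset]
      intro y hy
      rw [mem_sdiff] at hy
      have := mem_erase.1 (hV.1 hy.1)
      rw [mem_erase, mem_sdiff]
      exact ⟨this.1, this.2, hy.2⟩
    · intro W hW
      rw [mem_powerset] at hW
      rw [mem_filter, mem_powerset]
      refine ⟨?_, subset_union_left⟩
      intro y hy
      rw [mem_erase]
      rcases mem_union.1 hy with hy | hy
      · exact ⟨fun h => hgX (h ▸ hy), hX hy⟩
      · have := mem_erase.1 (hW hy)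
        exact ⟨this.1, (mem_sdiff.1 this.2).1⟩
    · intro V hV
      rw [mem_filter] at hV
      exact union_sdiff_of_subset hV.2
    · intro W hW
      rw [mem_powerset] at hW
      ext y
      rw [mem_sdiff, mem_union]
      constructor
      · rintro ⟨h1 | h1, h2⟩
        · exact absurd h1 h2
        · exact h1
      · intro h1
        exact ⟨Or.inr h1, (mem_sdiff.1 (mem_erase.1 (hW h1)).2).2⟩
    · intro V hV
      rw [mem_filter, mem_powerset] at hV
      have e1 : (D \ X) \ (V \ X) = D \ V := by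
        ext y
        simp only [mem_sdiff, not_and, not_not]
        constructor
        · rintro ⟨⟨h2, h3⟩, h4⟩
          exact ⟨h2, fun h5 => h3 (h4 h5)⟩
        · rintro ⟨h2, h3⟩
          exact ⟨⟨h2, fun h5 => h3 (hV.2 h5)⟩, fun h5 => absurd h5 h3⟩
      have e2 : ∀ x, X ∪ insert x (V \ X) = insert x V := by
        intro x
        rw [union_insert, union_sdiff_of_subset hV.2]
      have e3 : (V \ X).card = V.card - X.card := card_sdiff_of_subset hV.2
      simp only [e1, e2, e3, union_sdiff_of_subset hV.2, hXc]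
      unfold bwb
      rw [div_mul_div_comm]
  rw [hL, hcore]
  have e1 : (0 : ℝ) < (D.card : ℝ) - X.card := by
    have : (X.card : ℝ) < D.card := by exact_mod_cast hlt
    linarith
  have e2 : (0 : ℝ) < (D.card.choose X.card : ℝ) := choose_pos_real hlt.le
  field_simp

end R5

end

section

/-! Block SWF: the swap, colour F. -/

namespace R5

open Finset

variable {α : Type} [DecidableEq α]

theorem lower_binom {D Y : Finset α} {x : α} (hY : Y ⊆ D) (hx : x ∈ Y) :
    (D.card.choose (Y.erase x).card : ℝ) * ((D.card : ℝ) - (Y.erase x).card) =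
      (D.card.choose Y.card : ℝ) * (Y.card : ℝ) := by
  have hYc : 0 < Y.card := card_pos.2 ⟨x, hx⟩
  have hle : Y.card ≤ D.card := card_le_card hY
  rw [card_erase_of_mem hx]
  have e2 := choose_up (l := D.card) (k := Y.card - 1) (by omega)
  have e3 : Y.card - 1 + 1 = Y.card := by omega
  have e4 : ((Y.card - 1 : ℕ) : ℝ) + 1 = Y.card := by
    have := congrArg (fun n : ℕ => (n : ℝ)) e3
    push_cast at this
    exact this
  rw [e2, e3, e4]

theorem fwb_empty (τ : Finset α → Lab) : fwb τ ∅ = 0 := by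
  simp [fwb]

theorem stmt_SWF : Stmt_SWF α := by
  intro τ D F hA hB
  have hl0 : (0 : ℝ) < (D.card : ℝ) + 1 := by positivity
  -- the edges
  have h1 : ∑ V ∈ D.powerset, ∑ x ∈ D \ V, yFe τ D V x * F (insert x V) =
      ∑ Y ∈ D.powerset, (if τ Y = Lab.B then fwb τ Y else 0) *
        (ab τ D Y * F Y / (((D.card : ℝ) + 1) * (D.card.choose Y.card : ℝ))) := by
    rw [sum_up_down D (fun V x => yFe τ D V x * F (insert x V))]
    refine sum_congr rfl fun Y hY => ?_
    rw [mem_powerset] at hY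
    have e1 : ∀ x ∈ Y, yFe τ D (Y.erase x) x * F (insert x (Y.erase x)) =
        (if τ Y = Lab.B then fw τ (Y.erase x) else 0) *
          (ab τ D Y * F Y / (((D.card : ℝ) + 1) * (D.card.choose Y.card : ℝ) *
            (Y.card : ℝ))) := by
      intro x hx
      unfold yFe
      by_cases hE : isE τ (Y.erase x) x
      · rw [if_pos hE]
        obtain ⟨hXA, hYB⟩ := hE
        rw [insert_erase hx] at hYB ⊢
        rw [if_pos hYB, mul_assoc ((D.card : ℝ) + 1), lower_binom hY hx, ← mul_assoc]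
        ring
      · rw [if_neg hE, zero_mul]
        by_cases hYB : τ Y = Lab.B
        · rw [if_pos hYB]
          have hXA : τ (Y.erase x) ≠ Lab.A := fun h => hE ⟨h, by rw [insert_erase hx]; exact hYB⟩
          rw [fw_of_ne hXA, zero_mul]
        · rw [if_neg hYB, zero_mul]
    rw [sum_congr rfl e1, ← sum_mul]
    by_cases hY0 : Y = ∅
    · subst hY0
      rw [if_neg (by rw [hA]; simp)]
      simp
    have hYc : (0 : ℝ) < Y.card := by
      rw [Nat.cast_pos, card_pos]
      exact nonempty_iff_ne_empty.2 hY0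
    have hp : (0 : ℝ) < (D.card.choose Y.card : ℝ) := choose_pos_real (card_le_card hY)
    split_ifs with hYB
    · unfold fwb
      field_simp
    · simp
  -- the vertices
  have h2 : ∑ V ∈ D.powerset, yFv τ D V * F V =
      ∑ Y ∈ D.powerset, (if τ Y = Lab.X then fwb τ Y else 0) *
        (ab τ D Y * F Y / (((D.card : ℝ) + 1) * (D.card.choose Y.card : ℝ))) := by
    refine sum_congr rfl fun Y _ => ?_
    unfold yFv
    split_ifs with h
    · ring
    · simp
  -- first part of the right side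
  have h3 : ∑ X ∈ D.powerset, ∑ g ∈ D \ X, fw τ X * ab τ D (insert g X) /
      (((D.card : ℝ) + 1) * (D.card.choose X.card : ℝ) * ((D.card : ℝ) - X.card)) *
        F (insert g X) =
      ∑ Y ∈ D.powerset, fwb τ Y *
        (ab τ D Y * F Y / (((D.card : ℝ) + 1) * (D.card.choose Y.card : ℝ))) := by
    rw [sum_up_down D (fun X g => fw τ X * ab τ D (insert g X) /
      (((D.card : ℝ) + 1) * (D.card.choose X.card : ℝ) * ((D.card : ℝ) - X.card)) *
        F (insert g X))]
    refine sum_congr rfl fun Y hY => ?_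
    rw [mem_powerset] at hY
    have e1 : ∀ x ∈ Y, fw τ (Y.erase x) * ab τ D (insert x (Y.erase x)) /
        (((D.card : ℝ) + 1) * (D.card.choose (Y.erase x).card : ℝ) *
          ((D.card : ℝ) - (Y.erase x).card)) * F (insert x (Y.erase x)) =
        fw τ (Y.erase x) * (ab τ D Y * F Y / (((D.card : ℝ) + 1) *
          (D.card.choose Y.card : ℝ) * (Y.card : ℝ))) := by
      intro x hx
      rw [insert_erase hx, mul_assoc ((D.card : ℝ) + 1), lower_binom hY hx, ← mul_assoc]
      ring
    rw [sum_congr rfl e1, ← sum_mul]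
    by_cases hY0 : Y = ∅
    · subst hY0
      rw [fwb_empty]
      simp
    have hYc : (0 : ℝ) < Y.card := by
      rw [Nat.cast_pos, card_pos]
      exact nonempty_iff_ne_empty.2 hY0
    have hp : (0 : ℝ) < (D.card.choose Y.card : ℝ) := choose_pos_real (card_le_card hY)
    unfold fwb
    field_simp
  -- second part of the right side
  have h4 : ∑ X ∈ D.powerset, ∑ g ∈ D \ X, fw τ X * ab τ D (insert g X) /
      (((D.card : ℝ) + 1) * (D.card.choose X.card : ℝ) * ((D.card : ℝ) - X.card)) * F X =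
      ∑ Y ∈ D.powerset, fw τ Y *
        (ab τ D Y * F Y / (((D.card : ℝ) + 1) * (D.card.choose Y.card : ℝ))) := by
    refine sum_congr rfl fun Y hY => ?_
    rw [mem_powerset] at hY
    by_cases hYA : τ Y = Lab.A
    · have hYD : Y ≠ D := by
        rintro rfl
        rw [hYA] at hB
        exact absurd hB (by simp)
      have hnot : ¬ D ⊆ Y := fun h => hYD (Subset.antisymm hY h)
      have hc2 : ((D \ Y).card : ℝ) = (D.card : ℝ) - Y.card := card_sdiff_cast hY
      have hc : (0 : ℝ) < ((D \ Y).card : ℝ) := by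
        rw [Nat.cast_pos, card_pos, sdiff_nonempty]
        exact hnot
      have hp : (0 : ℝ) < (D.card.choose Y.card : ℝ) := choose_pos_real (card_le_card hY)
      rw [ab_rec hnot, bw_of_ne hY (by rw [hYA]; simp), zero_add, ← hc2, ← sum_mul,
        ← sum_div, ← mul_sum]
      field_simp
    · rw [fw_of_ne hYA]
      simp
  have hR : ∑ X ∈ D.powerset, ∑ g ∈ D \ X, fw τ X * ab τ D (insert g X) /
      (((D.card : ℝ) + 1) * (D.card.choose X.card : ℝ) * ((D.card : ℝ) - X.card)) *
        (F (insert g X) - F X) =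
      (∑ Y ∈ D.powerset, fwb τ Y *
        (ab τ D Y * F Y / (((D.card : ℝ) + 1) * (D.card.choose Y.card : ℝ)))) -
      ∑ Y ∈ D.powerset, fw τ Y *
        (ab τ D Y * F Y / (((D.card : ℝ) + 1) * (D.card.choose Y.card : ℝ))) := by
    rw [← h3, ← h4, ← sum_sub_distrib]
    refine sum_congr rfl fun X _ => ?_
    rw [← sum_sub_distrib]
    exact sum_congr rfl fun g _ => mul_sub _ _ _
  rw [h1, h2, hR, ← sum_add_distrib, ← sum_sub_distrib]
  -- compare term by term
  have h5 : ∀ Y ∈ D.powerset, (if τ Y = Lab.B then fwb τ Y else 0) *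
        (ab τ D Y * F Y / (((D.card : ℝ) + 1) * (D.card.choose Y.card : ℝ))) +
      (if τ Y = Lab.X then fwb τ Y else 0) *
        (ab τ D Y * F Y / (((D.card : ℝ) + 1) * (D.card.choose Y.card : ℝ))) =
      (fwb τ Y * (ab τ D Y * F Y / (((D.card : ℝ) + 1) * (D.card.choose Y.card : ℝ))) -
        fw τ Y * (ab τ D Y * F Y / (((D.card : ℝ) + 1) * (D.card.choose Y.card : ℝ)))) +
      if Y = ∅ then ab τ D ∅ / ((D.card : ℝ) + 1) * F ∅ else 0 := by
    intro Y _
    by_cases hY0 : Y = ∅
    · subst hY0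
      rw [if_pos rfl, hA, fwb_empty, fw_empty, if_pos hA]
      simp
      ring
    · rw [if_neg hY0, fw_rec hY0, add_zero, ← add_mul, ← sub_mul]
      congr 1
      cases h : τ Y <;> simp
  rw [sum_congr rfl h5, sum_add_distrib, sum_ite_eq' D.powerset ∅,
    if_pos (empty_mem_powerset D)]
  ring

end R5

end

section

/-! Block TYPE. -/

namespace R5

open Finset

variable {α : Type} [DecidableEq α]

namespace TypeAux

theorem Zt_pos {τ : Finset α → Lab} {D : Finset α} (h0 : τ ∅ = Lab.A) : 0 < Zt τ D := by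
  unfold Zt
  have h1 := one_le_aw h0 D
  have h2 := ab_nonneg τ D ∅
  positivity

theorem log_choose {l k : ℕ} (hk : k ≤ l) : Real.log (l.choose k : ℝ) =
    Real.log (l.factorial : ℝ) - Real.log (k.factorial : ℝ) - Real.log ((l - k).factorial : ℝ) := by
  have h := Nat.choose_mul_factorial_mul_factorial hk
  have h1 : (0 : ℝ) < (l.choose k : ℝ) := choose_pos_real hk
  have h2 : (0 : ℝ) < (k.factorial : ℝ) := by exact_mod_cast Nat.factorial_pos k
  have h3 : (0 : ℝ) < ((l - k).factorial : ℝ) := by exact_mod_cast Nat.factorial_pos _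
  have h4 : (l.factorial : ℝ) = (l.choose k : ℝ) * (k.factorial : ℝ) * ((l - k).factorial : ℝ) := by
    exact_mod_cast h.symm
  rw [h4, Real.log_mul (by positivity) (by positivity), Real.log_mul (by positivity) (by positivity)]
  ring

theorem log_choose' {l k : ℕ} (hk : k < l) : Real.log ((l.choose k : ℝ) * ((l : ℝ) - k)) =
    Real.log (l.factorial : ℝ) - Real.log (k.factorial : ℝ) -
      Real.log ((l - (k + 1)).factorial : ℝ) := by
  have h1 : (0 : ℝ) < (l.choose k : ℝ) := choose_pos_real hk.le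
  have h2 : (0 : ℝ) < (l : ℝ) - k := by
    have : (k : ℝ) < l := by exact_mod_cast hk
    linarith
  rw [Real.log_mul h1.ne' h2.ne', log_choose hk.le]
  have h3 : l - k = (l - (k + 1)) + 1 := by omega
  have h4 : ((l - k).factorial : ℝ) = ((l : ℝ) - k) * ((l - (k + 1)).factorial : ℝ) := by
    rw [h3, Nat.factorial_succ, ← h3]
    push_cast
    rw [Nat.cast_sub hk.le]
  have h5 : (0 : ℝ) < ((l - (k + 1)).factorial : ℝ) := by exact_mod_cast Nat.factorial_pos _
  rw [h4, Real.log_mul h2.ne' h5.ne']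
  ring

/-- Shortcut for the swap coefficient. -/
noncomputable def sw (τ : Finset α → Lab) (D X : Finset α) (g : α) : ℝ :=
  fw τ X * ab τ D (insert g X) /
      (((D.card : ℝ) + 1) * (D.card.choose X.card : ℝ) * ((D.card : ℝ) - X.card))

theorem pe_eq_zero {τ : Finset α → Lab} {D X V : Finset α} {x : α} (h : ¬ X ⊆ V) :
    pe τ D X V x = 0 := by
  unfold pe
  rw [if_neg]
  exact fun hh => h hh.1

theorem pv_eq_zero {τ : Finset α → Lab} {D X V : Finset α} (h : ¬ X ⊆ V) :
    pv τ D X V = 0 := by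
  unfold pv
  rw [if_neg]
  exact fun hh => h hh.1

theorem sum_swap (D : Finset α) (φ : Finset α → α → ℝ) :
    ∑ V ∈ D.powerset, ∑ x ∈ D \ V, φ V x = ∑ g ∈ D, ∑ V ∈ (D.erase g).powerset, φ V g := by
  rw [sum_sigma', sum_sigma']
  refine sum_bij' (fun p _ => (⟨p.2, p.1⟩ : (_ : α) × Finset α))
    (fun p _ => (⟨p.2, p.1⟩ : (_ : Finset α) × α)) ?_ ?_ ?_ ?_ ?_
  · rintro ⟨V, x⟩ h
    simp only [mem_sigma, mem_powerset, mem_sdiff] at h ⊢
    exact ⟨h.2.1, subset_erase.2 ⟨h.1, h.2.2⟩⟩
  · rintro ⟨x, V⟩ h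
    simp only [mem_sigma, mem_powerset, mem_sdiff] at h ⊢
    have h2 := subset_erase.1 h.2
    exact ⟨h2.1, h.1, h2.2⟩
  · rintro ⟨V, x⟩ _; rfl
  · rintro ⟨x, V⟩ _; rfl
  · rintro ⟨V, x⟩ _; rfl

theorem sum_notMem (D : Finset α) (g : α) (φ : Finset α → ℝ) :
    ∑ V ∈ D.powerset, (if g ∈ V then 0 else φ V) = ∑ V ∈ (D.erase g).powerset, φ V := by
  have e : (D.erase g).powerset = D.powerset.filter (fun V => g ∉ V) := by
    ext V
    simp only [mem_powerset, mem_filter, subset_erase]
  rw [e, sum_filter]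
  refine sum_congr rfl fun V _ => ?_
  rw [ite_not]

theorem sum_pe (τ : Finset α → Lab) (D X : Finset α) :
    ∑ V ∈ D.powerset, ∑ x ∈ D \ V, pe τ D X V x = ∑ g ∈ D \ X, PP1 τ D X g := by
  rw [sum_swap]
  unfold PP1
  symm
  apply sum_subset sdiff_subset
  intro g hg hgX
  have hgX' : g ∈ X := by
    by_contra h
    exact hgX (mem_sdiff.2 ⟨hg, h⟩)
  apply sum_eq_zero
  intro V hV
  apply pe_eq_zero
  intro h
  exact (subset_erase.1 (mem_powerset.1 hV)).2 (h hgX')

theorem yLe_dd {τ : Finset α → Lab} {D V : Finset α} {x : α} (hV : V ⊆ D) (hx : x ∈ D \ V) :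
    yLe (dual (dual τ D) D) D V x = yLe τ D V x := by
  have h1 : insert x V ⊆ D := insert_subset (mem_sdiff.1 hx).1 hV
  unfold yLe
  have e1 : isE (dual (dual τ D) D) V x ↔ isE τ V x := by
    unfold isE
    rw [dual_dual hV, dual_dual h1]
  have e2 : aw (dual (dual τ D) D) V = aw τ V := aw_congr fun U hU => dual_dual (hU.trans hV)
  have e3 : bw (dual (dual τ D) D) D (insert x V) = bw τ D (insert x V) := by
    rw [bw_dual, fw_dual sdiff_subset, Finset.sdiff_sdiff_eq_self h1]
  simp only [e1, e2, e3]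

theorem yLv_dd {τ : Finset α → Lab} {D V : Finset α} (hV : V ⊆ D) :
    yLv (dual (dual τ D) D) D V = yLv τ D V := by
  unfold yLv
  have e2 : aw (dual (dual τ D) D) V = aw τ V := aw_congr fun U hU => dual_dual (hU.trans hV)
  have e3 : bwb (dual (dual τ D) D) D V = bwb τ D V := by
    rw [bwb_dual, ← fwb_dual]
  rw [dual_dual hV, e2, e3]

end TypeAux

end R5

end

section

namespace R5

open Finset

variable {α : Type} [DecidableEq α]

theorem filter_subset_powerset {D V : Finset α} (hV : V ⊆ D) :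
    D.powerset.filter (fun X => X ⊆ V) = V.powerset := by
  ext X
  simp only [mem_filter, mem_powerset]
  exact ⟨fun h => h.2, fun h => ⟨h.trans hV, h⟩⟩

theorem stmt_YSUM : Stmt_YSUM α := by
  intro τ D V hV
  have hk : V.card ≤ D.card := card_le_card hV
  constructor
  · intro x hx
    unfold pe yLe
    by_cases hE : isE τ V x
    · simp only [hE, and_true, if_true]
      rw [← sum_filter, filter_subset_powerset hV]
      unfold aw
      rw [sum_mul, sum_div]
      refine sum_congr rfl fun X hX => ?_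
      rw [mem_powerset] at hX
      have hi : X.card ≤ V.card := card_le_card hX
      have h1 := choose_mul_real (l := D.card) hi
      have e1 : ((D.card : ℝ) + 1) * (D.card.choose X.card : ℝ) *
          ((D.card - X.card).choose (V.card - X.card) : ℝ) * ((D.card : ℝ) - (V.card : ℝ)) =
          ((D.card : ℝ) + 1) * ((D.card.choose V.card : ℝ) * (V.card.choose X.card : ℝ)) *
            ((D.card : ℝ) - (V.card : ℝ)) := by
        rw [← h1]; ring
      rw [e1]
      have hp : (0 : ℝ) < (V.card.choose X.card : ℝ) := choose_pos_real hi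
      rw [div_mul_eq_mul_div, div_div]
      congr 1
      ring
    · simp only [hE, and_false, if_false, sum_const_zero]
  · unfold pv yLv
    by_cases hE : τ V = Lab.X
    · simp only [hE, and_true, if_true]
      rw [← sum_filter, filter_subset_powerset hV]
      unfold aw
      rw [sum_mul, sum_div]
      refine sum_congr rfl fun X hX => ?_
      rw [mem_powerset] at hX
      have hi : X.card ≤ V.card := card_le_card hX
      have h1 := choose_mul_real (l := D.card) hi
      have e1 : ((D.card : ℝ) + 1) * (D.card.choose X.card : ℝ) *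
          ((D.card - X.card).choose (V.card - X.card) : ℝ) =
          ((D.card : ℝ) + 1) * ((D.card.choose V.card : ℝ) * (V.card.choose X.card : ℝ)) := by
        rw [← h1]; ring
      rw [e1]
      rw [div_mul_eq_mul_div, div_div]
      congr 1
      ring
    · simp only [hE, and_false, if_false, sum_const_zero]

end R5

end
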