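import Mathlib
import Pool.Agent.Work.MP_8b6acb_full.P05

section

/-!
# The chain-level value of a type (definitions)

Everything of `MP_8b6acb_cap` (namespace `R5`) is reused.  New: the kernels see the ACTUAL order of
the suffix, and the elements of a set of marks (the light elements outside the object) are not seen
while they are used; in exchange they give the gain `gg`.
-/

namespace R5

open Finset

section

variable {α : Type} [DecidableEq α]

/-! ## Orders -/

/-- The sequences of `r` distinct elements of `G`. -/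
def seqs : ℕ → Finset α → Finset (List α)
  | 0, _ => {[]}
  | r + 1, G => G.biUnion fun g => (seqs r (G.erase g)).image (List.cons g)

/-- `1` if the sets `U, U + π₁, U + π₁ + π₂, …` all have label `B`. -/
noncomputable def gd (τ : Finset α → Lab) : Finset α → List α → ℝ
  | U, [] => if τ U = Lab.B then 1 else 0
  | U, x :: π => if τ U = Lab.B then gd τ (insert x U) π else 0

/-- The sum of the costs of the sets `U, U + π₁, …` without the last one. -/
noncomputable def csum (c : Finset α → ℝ) : Finset α → List α → ℝ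
  | _, [] => 0
  | U, x :: π => c U + csum c (insert x U) π

/-! ## The kernel -/

/-- The kernel along a sequence: `M` = marks, `N` = total mass of the elements that are still
available, `W` = unmarked elements already used, `i` = number of marked elements already used. -/
noncomputable def kc (ρ : α → ℝ) (M : Finset α) (N : ℝ) : List α → Finset α → ℕ → ℝ
  | [], _, _ => 1
  | g :: π, W, i => if g ∈ M then
      ρ g / (N - ∑ h ∈ W, ρ h) * ((M.card : ℝ) / ((M.card : ℝ) - i)) * kc ρ M N π W (i + 1)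
    else ρ g / (N - ∑ h ∈ W, ρ h) * kc ρ M N π (insert g W) i

/-- The gain of `j` marked elements among `b` possible ones. -/
noncomputable def gg (b j : ℕ) : ℝ := ∑ i ∈ range j, Real.log ((b : ℝ) / ((b : ℝ) - i))

/-- The cost of the slot `U`: star at `X`, upper set `U0` of the object, marks `M`. -/
noncomputable def sc (ρ : α → ℝ) (n : ℝ) (X U0 M U : Finset α) : ℝ :=
  -Real.log (1 - ((∑ g ∈ U0 \ X, ρ g) + ∑ g ∈ (U \ U0) \ M, ρ g) / n)

/-! ## Expected costs along good chains -/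

/-- Auxiliary recursion for `ec`. -/
noncomputable def ecn (τ : Finset α → Lab) (D : Finset α) (c : Finset α → ℝ) : ℕ → Finset α → ℝ
  | 0, _ => 0
  | n + 1, U => if τ U = Lab.B then
      c U * bw τ D U + (∑ x ∈ D \ U, ecn τ D c n (insert x U)) / ((n : ℝ) + 1) else 0

/-- Expected total cost of the sets of a random chain from `U` to `D` (without `D`), restricted to
the chains with all labels `B`. -/
noncomputable def ec (τ : Finset α → Lab) (D : Finset α) (c : Finset α → ℝ) (U : Finset α) : ℝ :=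
  ecn τ D c (D \ U).card U

/-- The same for the chains starting at a cut vertex `V`. -/
noncomputable def ev (τ : Finset α → Lab) (D : Finset α) (c : Finset α → ℝ) (V : Finset α) : ℝ :=
  c V * bwb τ D V + (∑ x ∈ D \ V, ec τ D c (insert x V)) / ((D \ V).card : ℝ)

/-! ## Masses without the suffix factor -/

/-- `pe` without the factor `bw`. -/
noncomputable def pe1 (τ : Finset α → Lab) (D X V : Finset α) (x : α) : ℝ :=
  if X ⊆ V ∧ isE τ V x then
    fw τ X / (((D.card : ℝ) + 1) * (D.card.choose X.card : ℝ) *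
      ((D.card - X.card).choose (V.card - X.card) : ℝ) * ((D.card : ℝ) - (V.card : ℝ)))
  else 0

/-- `pv` without the factor `bwb`. -/
noncomputable def pv1 (τ : Finset α → Lab) (D X V : Finset α) : ℝ :=
  if X ⊆ V ∧ τ V = Lab.X then
    fw τ X / (((D.card : ℝ) + 1) * (D.card.choose X.card : ℝ) *
      ((D.card - X.card).choose (V.card - X.card) : ℝ))
  else 0

/-- `yLe` without the factor `bw`. -/
noncomputable def y1e (τ : Finset α → Lab) (D V : Finset α) : ℝ :=
  aw τ V / (((D.card : ℝ) + 1) * (D.card.choose V.card : ℝ) * ((D.card : ℝ) - (V.card : ℝ)))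

/-- `yLv` without the factor `bwb`. -/
noncomputable def y1v (τ : Finset α → Lab) (D V : Finset α) : ℝ :=
  aw τ V / (((D.card : ℝ) + 1) * (D.card.choose V.card : ℝ))

/-! ## The value -/

/-- The slot costs of the star at `X` and the object with upper set `U0`. -/
noncomputable def SS (ρ : Finset α → α → ℝ) (mk : Finset α → Finset α) (D X U0 : Finset α) :
    Finset α → ℝ := sc (ρ X) ((D.card : ℝ) - X.card) X U0 (mk U0)

/-- The gain of the marks. -/
noncomputable def gm (mk : Finset α → Finset α) (D U : Finset α) : ℝ :=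
  gg (mk U).card (mk U ∩ (D \ U)).card

/-- The constant part of the logarithm of the kernel. -/
noncomputable def KV (ρ : Finset α → α → ℝ) (mk : Finset α → Finset α) (D X U : Finset α) : ℝ :=
  Real.log ((D.card - U.card).factorial : ℝ) -
    ((D.card : ℝ) - U.card) * Real.log ((D.card : ℝ) - X.card) +
    (∑ g ∈ D \ U, Real.log (ρ X g)) + gm mk D U

/-- The colour L value of a type with densities `ρ`, marks `mk` and `T`-side potential `H`. -/
noncomputable def LVc (τ : Finset α → Lab) (D : Finset α) (ρ : Finset α → α → ℝ)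
    (mk : Finset α → Finset α) (H : Finset α → ℝ) : ℝ :=
  (∑ X ∈ D.powerset,
    ((∑ V ∈ D.powerset, ∑ x ∈ D \ V, (pe τ D X V x * KV ρ mk D X (insert x V) +
        pe1 τ D X V x * ec τ D (SS ρ mk D X (insert x V)) (insert x V))) +
    ∑ V ∈ D.powerset, (pv τ D X V * KV ρ mk D X V +
        pv1 τ D X V * ev τ D (SS ρ mk D X V) V))) +
  (∑ V ∈ D.powerset, ∑ x ∈ D \ V, yLe τ D V x *
    (Real.log (((V.card : ℝ) + 1) / ((D.card : ℝ) + 1)) + H V +
      Real.log (Zt τ D / y1e τ D V))) +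
  ∑ V ∈ D.powerset, yLv τ D V *
    (Real.log (D.card : ℝ) + Real.log ((V.card : ℝ) / (D.card : ℝ)) + H V +
      Real.log (Zt τ D / y1v τ D V))

/-- The gain of the `S`-side. -/
noncomputable def SGc (τ : Finset α → Lab) (D : Finset α) (ρ : Finset α → α → ℝ)
    (mk : Finset α → Finset α) : ℝ :=
  ∑ X ∈ D.powerset,
    ((∑ g ∈ D \ X, PP1 τ D X g * (Real.log ((D \ X).card : ℝ) - Real.log (ρ X g))) +
    (∑ V ∈ D.powerset, ∑ x ∈ D \ V,
      (pe1 τ D X V x * ec τ D (SS ρ mk D X (insert x V)) (insert x V) +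
        pe τ D X V x * gm mk D (insert x V))) +
    ∑ V ∈ D.powerset, (pv1 τ D X V * ev τ D (SS ρ mk D X V) V + pv τ D X V * gm mk D V))

/-- The colour L part of `COST1` (normalised by `z`). -/
noncomputable def CL1 (τ : Finset α → Lab) (D : Finset α) (z : ℝ) : ℝ :=
  (∑ V ∈ D.powerset, ∑ x ∈ D \ V, yLe τ D V x *
    Real.log (aw τ V / (((V.card : ℝ) + 1) * z))) +
  ∑ V ∈ D.powerset, yLv τ D V *
    Real.log (aw τ V * (D.card : ℝ) / (((D.card : ℝ) + 1) * (V.card : ℝ) * z))

/-- Relative entropy term. -/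
noncomputable def COST1 (τ : Finset α → Lab) (D : Finset α) : ℝ :=
  CL1 τ D (Zt τ D) + CL1 (dual τ D) D (Zt τ D)

/-- The value of a type, with explicit densities and marks on both sides. -/
noncomputable def VALc (τ : Finset α → Lab) (D : Finset α) (ρS : Finset α → α → ℝ)
    (mS : Finset α → Finset α) (ρT : Finset α → α → ℝ) (mT : Finset α → Finset α) : ℝ :=
  SGc τ D ρS mS + SGc (dual τ D) D ρT mT -
    Real.log (D.card : ℝ) * (PEL τ D + PEL (dual τ D) D) - COST1 τ D

/-- The marks of a set `L` of light elements: the lights outside the object, if there are at least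
two of them. -/
def lmk (L U : Finset α) : Finset α := if 2 ≤ (L \ U).card then L \ U else ∅

end

end R5

end

section

/-!
# Interface: the statements of the blocks of the engine
-/

namespace R5

open Finset MP_8b6acb_co

/-! ## Part I: types -/

section Types

variable (α : Type) [DecidableEq α]

/-- The typewise identity: everything except `VALc` cancels. -/
def Stmt_TYPEQ : Prop := ∀ (τ : Finset α → Lab) (D : Finset α) (μ ν : Finset α → ℝ)
  (mS mT : Finset α → Finset α),
  τ ∅ = Lab.A → τ D = Lab.B → D.Nonempty →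
  (∀ V ⊆ D, 0 < μ V) → (∀ V ⊆ D, 0 < ν V) →
  VALc τ D (fun X g => μ (insert g X) / μ X) mS (fun U g => ν (D \ insert g U) / ν (D \ U)) mT +
      Zt τ D * Real.log (D.card : ℝ) - ab τ D ∅ / ((D.card : ℝ) + 1) * Real.log (μ ∅) -
      aw τ D / ((D.card : ℝ) + 1) * Real.log (ν D) =
    LVc τ D (fun X g => μ (insert g X) / μ X) mS (fun V => -Real.log (ν V)) +
    LVc (dual τ D) D (fun U g => ν (D \ insert g U) / ν (D \ U)) mT
      (fun U => -Real.log (μ (D \ U)))

/-! ## Part II: the kernel -/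

/-- Maclaurin's inequality in ordered form. -/
def Stmt_MACL : Prop := ∀ (ρ : α → ℝ) (M : Finset α) (k : ℕ), (∀ g ∈ M, 0 ≤ ρ g) → k ≤ M.card →
  ∑ π ∈ seqs k M, (π.map ρ).prod ≤
    (∏ i ∈ range k, (((M.card : ℝ) - i) / (M.card : ℝ))) * (∑ g ∈ M, ρ g) ^ k

/-- The kernel is a sub-probability. -/
def Stmt_KSUM : Prop := ∀ (ρ : α → ℝ) (M G : Finset α) (N : ℝ) (r : ℕ), M ⊆ G →
  (∀ g ∈ G, 0 ≤ ρ g) → ∑ g ∈ G, ρ g ≤ N →
  ∑ π ∈ seqs r G, kc ρ M N π ∅ 0 ≤ 1

/-- The logarithm of the kernel. -/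
def Stmt_KLOG : Prop := ∀ (ρ : α → ℝ) (n : ℝ) (X U0 M R : Finset α), X ⊆ U0 → Disjoint U0 R →
  (∀ g ∈ U0 \ X, 0 ≤ ρ g) → (∀ g ∈ R, 0 < ρ g) → 0 < n →
  ∑ g ∈ U0 \ X, ρ g + ∑ g ∈ R, ρ g ≤ n →
  ∀ π ∈ seqs R.card R, 0 < kc ρ M (n - ∑ g ∈ U0 \ X, ρ g) π ∅ 0 ∧
    Real.log (kc ρ M (n - ∑ g ∈ U0 \ X, ρ g) π ∅ 0) =
      (∑ g ∈ R, Real.log (ρ g)) - (R.card : ℝ) * Real.log n + csum (sc ρ n X U0 M) U0 π +
      gg M.card (M ∩ R).card

end Types

/-! ## Part III: the network -/

section Network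

variable (α : Type) [Fintype α] [DecidableEq α]

/-- Entries outside the perfect matchings of an almost doubly stochastic matrix are small. -/
def Stmt_HALLM : Prop := ∀ (σ θ : Type) [DecidableEq σ] [DecidableEq θ] (S : Finset σ)
  (T : Finset θ) (R : σ → θ → Prop) (w : σ → θ → ℝ) (ε : ℝ) (φ : σ → θ), 0 ≤ ε →
  Set.InjOn φ S → S.image φ = T → (∀ s ∈ S, R s (φ s)) →
  (∀ s ∈ S, ∀ t ∈ T, 0 ≤ w s t) → (∀ s ∈ S, ∀ t ∈ T, ¬ R s t → w s t = 0) →
  (∀ s ∈ S, |(∑ t ∈ T, w s t) - 1| ≤ ε) → (∀ t ∈ T, |(∑ s ∈ S, w s t) - 1| ≤ ε) →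
  ∀ s0 ∈ S, ∀ t0 ∈ T,
  (∃ φ' : σ → θ, Set.InjOn φ' S ∧ S.image φ' = T ∧ (∀ s ∈ S, R s (φ' s)) ∧ φ' s0 = t0) ∨
    w s0 t0 ≤ 2 * ε * (S.card : ℝ)

/-- Number of light elements of a source. -/
def nbS {α : Type} [Fintype α] [DecidableEq α] (c : Finset α → Lab) (s : Finset α) : ℕ :=
  (univ.filter fun x => x ∉ s ∧ c (insert x s) = Lab.B).card

/-- Number of light elements of a sink. -/
def nbT {α : Type} [Fintype α] [DecidableEq α] (c : Finset α → Lab) (t : Finset α) : ℕ :=
  (t.filter fun x => c (t.erase x) = Lab.A).card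

/-- A counterexample of minimal cardinality is minimal for every bijection. -/
def Stmt_MINC : Prop := ∀ (q i j : ℕ), ¬ PP α q i j →
  ∃ (S : Finset (Finset α)) (φ : Finset α → Finset α) (A : Finset (Finset α)),
    MinCex q i j S φ A ∧
    ∀ φ' : Finset α → Finset α, Mat i j S φ' → S.image φ' = S.image φ → MinCex q i j S φ' A

end Network

end R5

end

section

/-! # Basic facts on sequences -/

namespace R5

open Finset

variable {α : Type} [DecidableEq α]

theorem seqs_zero (G : Finset α) : seqs 0 G = {[]} := rfl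

theorem seqs_succ (r : ℕ) (G : Finset α) :
    seqs (r + 1) G = G.biUnion fun g => (seqs r (G.erase g)).image (List.cons g) := rfl

theorem mem_seqs_succ {r : ℕ} {G : Finset α} {l : List α} :
    l ∈ seqs (r + 1) G ↔ ∃ g ∈ G, ∃ π ∈ seqs r (G.erase g), l = g :: π := by
  rw [seqs_succ]
  simp only [mem_biUnion, mem_image]
  constructor
  · rintro ⟨g, hg, π, hπ, rfl⟩
    exact ⟨g, hg, π, hπ, rfl⟩
  · rintro ⟨g, hg, π, hπ, rfl⟩
    exact ⟨g, hg, π, hπ, rfl⟩

theorem sum_seqs_succ (r : ℕ) (G : Finset α) (f : List α → ℝ) :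
    ∑ π ∈ seqs (r + 1) G, f π = ∑ g ∈ G, ∑ π ∈ seqs r (G.erase g), f (g :: π) := by
  rw [seqs_succ, sum_biUnion]
  · refine sum_congr rfl fun g _ => ?_
    rw [sum_image]
    intro a _ b _ h
    exact (List.cons.inj h).2
  · intro g _ g' _ hne
    rw [Function.onFun, Finset.disjoint_left]
    rintro l h1 h2
    rw [mem_image] at h1 h2
    obtain ⟨π, -, rfl⟩ := h1
    obtain ⟨π', -, h⟩ := h2
    exact hne (List.cons.inj h).1.symm

/-- Sequences of `r` distinct elements of `G`. -/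
theorem mem_seqs {r : ℕ} {G : Finset α} {l : List α} :
    l ∈ seqs r G ↔ l.Nodup ∧ l.length = r ∧ ∀ x ∈ l, x ∈ G := by
  induction r generalizing G l with
  | zero =>
    rw [seqs_zero, mem_singleton]
    constructor
    · rintro rfl; simp
    · rintro ⟨-, h, -⟩; exact List.length_eq_zero_iff.1 h
  | succ r ih =>
    rw [mem_seqs_succ]
    constructor
    · rintro ⟨g, hg, π, hπ, rfl⟩
      obtain ⟨h1, h2, h3⟩ := ih.1 hπ
      refine ⟨List.nodup_cons.2 ⟨fun h => (mem_erase.1 (h3 g h)).1 rfl, h1⟩, by simp [h2], ?_⟩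
      intro x hx
      rcases List.mem_cons.1 hx with rfl | h
      · exact hg
      · exact (mem_erase.1 (h3 x h)).2
    · rintro ⟨h1, h2, h3⟩
      cases l with
      | nil => simp at h2
      | cons g π =>
        rw [List.nodup_cons] at h1
        refine ⟨g, h3 g (List.mem_cons_self), π, ih.2 ⟨h1.2, by simpa using h2, ?_⟩, rfl⟩
        intro x hx
        exact mem_erase.2 ⟨fun h => h1.1 (h ▸ hx), h3 x (List.mem_cons_of_mem _ hx)⟩

theorem toFinset_eq_of_mem_seqs {G : Finset α} {l : List α} (h : l ∈ seqs G.card G) :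
    l.toFinset = G := by
  obtain ⟨h1, h2, h3⟩ := mem_seqs.1 h
  refine eq_of_subset_of_card_le (fun x hx => h3 x (List.mem_toFinset.1 hx)) ?_
  rw [List.toFinset_card_of_nodup h1, h2]

theorem card_seqs_card (G : Finset α) : (seqs G.card G).card = G.card.factorial := by
  have h : ∀ (r : ℕ) (G : Finset α), G.card = r → ((seqs r G).card : ℝ) = (r.factorial : ℝ) := by
    intro r
    induction r with
    | zero => intro G _; simp [seqs_zero]
    | succ r ih =>
      intro G hG
      have h1 := sum_seqs_succ r G (fun _ => (1 : ℝ))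
      simp only [sum_const, nsmul_eq_mul, mul_one] at h1
      rw [h1]
      have h2 : ∀ g ∈ G, ((seqs r (G.erase g)).card : ℝ) = (r.factorial : ℝ) := fun g hg =>
        ih (G.erase g) (by rw [card_erase_of_mem hg, hG]; rfl)
      rw [sum_congr rfl h2, sum_const, hG, nsmul_eq_mul, Nat.factorial_succ]
      push_cast
      ring
  exact_mod_cast h _ G rfl

/-- The sequences of the remaining elements of the sinks are sequences of elements outside. -/
theorem seqs_mono {r : ℕ} {G G' : Finset α} (h : G ⊆ G') : seqs r G ⊆ seqs r G' := by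
  intro l hl
  obtain ⟨h1, h2, h3⟩ := mem_seqs.1 hl
  exact mem_seqs.2 ⟨h1, h2, fun x hx => h (h3 x hx)⟩

end R5

end

section

/-! Block MINC. -/

namespace R5

open Finset MP_8b6acb_co

theorem stmt_MINC (α : Type) [Fintype α] [DecidableEq α] : Stmt_MINC α := by
  classical
  intro q i j h
  unfold PP at h
  push Not at h
  have hex : ∃ n : ℕ, ∃ (S : Finset (Finset α)) (φ : Finset α → Finset α)
      (A : Finset (Finset α)), Mat i j S φ ∧ S.card = n ∧ S ⊆ A ∧
        (∀ u ∈ A, u ∈ S ∨ u ∈ Mid i j) ∧ cost q i j (S.image φ) A < q * S.card := by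
    obtain ⟨S, φ, hm, A, hSA, hA, hv⟩ := h
    exact ⟨_, S, φ, A, hm, rfl, hSA, hA, hv⟩
  obtain ⟨S, φ, A, hm, hc, hSA, hA, hv⟩ := Nat.find_spec hex
  have hmin : ∀ (S' : Finset (Finset α)) (φ' : Finset α → Finset α) (A' : Finset (Finset α)),
      Mat i j S' φ' → S' ⊂ S → S' ⊆ A' → (∀ u ∈ A', u ∈ S' ∨ u ∈ Mid i j) →
      q * S'.card ≤ cost q i j (S'.image φ') A' := by
    intro S' φ' A' h1 h2 h3 h4
    by_contra hlt
    rw [not_le] at hlt
    have h5 := Nat.find_min hex (m := S'.card) (by rw [← hc]; exact card_lt_card h2)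
    exact h5 ⟨S', φ', A', h1, rfl, h3, h4, hlt⟩
  obtain ⟨A0, hA0, hmin0⟩ := Finset.exists_min_image
    (univ.filter (fun A' : Finset (Finset α) => S ⊆ A' ∧ (∀ u ∈ A', u ∈ S ∨ u ∈ Mid i j)))
    (fun A' => cost q i j (S.image φ) A') ⟨A, by simp only [mem_filter, mem_univ, true_and]; exact ⟨hSA, hA⟩⟩
  simp only [mem_filter, mem_univ, true_and] at hA0 hmin0
  have key : ∀ φ' : Finset α → Finset α, Mat i j S φ' → S.image φ' = S.image φ →
      MinCex q i j S φ' A0 := by
    intro φ' hm' him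
    refine ⟨hm', hA0.1, hA0.2, ?_, ?_, ?_⟩
    · rw [him]; exact lt_of_le_of_lt (hmin0 A ⟨hSA, hA⟩) hv
    · intro S' hS' A' h1 h2
      exact hmin S' φ' A' (hm'.mono hS'.1) hS' h1 h2
    · intro A' h1 h2
      rw [him]; exact hmin0 A' ⟨h1, h2⟩
  exact ⟨S, φ, A0, key φ hm rfl, key⟩

end R5

end

section

/-! # Block HALLM: entries outside the perfect matchings are small (helper61) -/

namespace R5

open Finset

/-- the numerical part -/
theorem hallm_num {σ θ : Type} [DecidableEq σ] [DecidableEq θ] (S : Finset σ) (T : Finset θ)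
    (R : σ → θ → Prop) [∀ s t, Decidable (R s t)] (w : σ → θ → ℝ) (ε : ℝ)
    (hε : 0 ≤ ε) (hw : ∀ s ∈ S, ∀ t ∈ T, 0 ≤ w s t)
    (hR : ∀ s ∈ S, ∀ t ∈ T, ¬ R s t → w s t = 0)
    (hr : ∀ s ∈ S, |(∑ t ∈ T, w s t) - 1| ≤ ε) (hc : ∀ t ∈ T, |(∑ s ∈ S, w s t) - 1| ≤ ε)
    (s0 : σ) (hs0 : s0 ∈ S) (t0 : θ) (S' : Finset σ) (N : Finset θ) (hS' : S' ⊆ S)
    (h0 : s0 ∉ S') (hN : N ⊆ T) (ht0 : t0 ∈ N) (hNc : N.card ≤ S'.card)
    (hcl : ∀ s ∈ S', ∀ t ∈ T, R s t → t ∈ N) : w s0 t0 ≤ 2 * ε * (S.card : ℝ) := by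
  have h1 : (S'.card : ℝ) * (1 - ε) ≤ ∑ s ∈ S', ∑ t ∈ N, w s t := by
    rw [← nsmul_eq_mul, ← sum_const]
    refine sum_le_sum fun s hs => ?_
    have h2 : ∑ t ∈ N, w s t = ∑ t ∈ T, w s t := by
      refine sum_subset hN fun t ht htN => hR s (hS' hs) t ht fun h => htN (hcl s hs t ht h)
    rw [h2]
    have := (abs_le.1 (hr s (hS' hs))).1
    linarith
  have h3 : ∑ t ∈ N, ∑ s ∈ S, w s t ≤ (N.card : ℝ) * (1 + ε) := by
    rw [← nsmul_eq_mul, ← sum_const]
    refine sum_le_sum fun t ht => ?_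
    have := (abs_le.1 (hc t (hN ht))).2
    linarith
  have h4 : (∑ s ∈ S', ∑ t ∈ N, w s t) + w s0 t0 ≤ ∑ t ∈ N, ∑ s ∈ S, w s t := by
    rw [sum_comm (s := N) (t := S)]
    have h5 : insert s0 S' ⊆ S := insert_subset hs0 hS'
    have h6 : ∑ s ∈ insert s0 S', ∑ t ∈ N, w s t ≤ ∑ s ∈ S, ∑ t ∈ N, w s t :=
      sum_le_sum_of_subset_of_nonneg h5 fun s hs _ => sum_nonneg fun t ht => hw s hs t (hN ht)
    rw [sum_insert h0] at h6
    have h7 : w s0 t0 ≤ ∑ t ∈ N, w s0 t :=
      single_le_sum (f := fun t => w s0 t) (fun t ht => hw s0 hs0 t (hN ht)) ht0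
    linarith
  have h8 : (N.card : ℝ) ≤ (S'.card : ℝ) := by exact_mod_cast hNc
  have h9 : (S'.card : ℝ) ≤ (S.card : ℝ) := by exact_mod_cast card_le_card hS'
  have h10 : (N.card : ℝ) * (1 + ε) ≤ (S'.card : ℝ) * (1 + ε) :=
    mul_le_mul_of_nonneg_right h8 (by linarith)
  have h11 : (S'.card : ℝ) * ε ≤ (S.card : ℝ) * ε := mul_le_mul_of_nonneg_right h9 hε
  nlinarith

theorem stmt_HALLM : Stmt_HALLM := by
  classical
  intro σ θ _ _ S T R w ε φ hε hφ hφT hφR hw hR hr hc s0 hs0 t0 ht0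
  by_cases hRst : R s0 t0
  swap
  · right
    rw [hR s0 hs0 t0 ht0 hRst]
    positivity
  let ι := {s : σ // s ∈ S.erase s0}
  let nbh : ι → Finset θ := fun s => (T.erase t0).filter fun t => R s.1 t
  by_cases hall : ∀ A : Finset ι, A.card ≤ (A.biUnion nbh).card
  · left
    obtain ⟨f, hf, hfm⟩ := (Finset.all_card_le_biUnion_card_iff_exists_injective nbh).1 hall
    have hfm' : ∀ s : ι, f s ∈ T ∧ f s ≠ t0 ∧ R s.1 (f s) := by
      intro s
      have := hfm s
      simp only [nbh, mem_filter, mem_erase] at this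
      exact ⟨this.1.2, this.1.1, this.2⟩
    let φ' : σ → θ := fun s => if h : s ∈ S.erase s0 then f ⟨s, h⟩ else t0
    have e0 : φ' s0 = t0 := dif_neg (notMem_erase s0 S)
    have e1 : ∀ s (h : s ∈ S.erase s0), φ' s = f ⟨s, h⟩ := fun s h => dif_pos h
    have hinj : Set.InjOn φ' S := by
      intro a ha b hb hab
      by_cases ha0 : a = s0
      · by_cases hb0 : b = s0
        · rw [ha0, hb0]
        · exfalso
          rw [ha0, e0, e1 b (mem_erase.2 ⟨hb0, hb⟩)] at hab
          exact (hfm' _).2.1 hab.symm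
      · by_cases hb0 : b = s0
        · exfalso
          rw [hb0, e0, e1 a (mem_erase.2 ⟨ha0, ha⟩)] at hab
          exact (hfm' _).2.1 hab
        · rw [e1 a (mem_erase.2 ⟨ha0, ha⟩), e1 b (mem_erase.2 ⟨hb0, hb⟩)] at hab
          exact congrArg Subtype.val (hf hab)
    have hsub : S.image φ' ⊆ T := by
      intro t ht
      obtain ⟨s, hs, rfl⟩ := mem_image.1 ht
      by_cases h0 : s = s0
      · rw [h0, e0]; exact ht0
      · rw [e1 s (mem_erase.2 ⟨h0, hs⟩)]
        exact (hfm' _).1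
    refine ⟨φ', hinj, eq_of_subset_of_card_le hsub ?_, fun s hs => ?_, e0⟩
    · rw [card_image_of_injOn hinj, ← hφT, card_image_of_injOn hφ]
    · by_cases h0 : s = s0
      · rw [h0, e0]; exact hRst
      · rw [e1 s (mem_erase.2 ⟨h0, hs⟩)]
        exact (hfm' ⟨s, mem_erase.2 ⟨h0, hs⟩⟩).2.2
  · right
    push Not at hall
    obtain ⟨A, hA⟩ := hall
    let S' : Finset σ := A.image Subtype.val
    have hS'c : S'.card = A.card := card_image_of_injective A Subtype.val_injective
    have hS' : S' ⊆ S := by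
      intro s hs
      obtain ⟨a, -, rfl⟩ := mem_image.1 hs
      exact (mem_erase.1 a.2).2
    have h0 : s0 ∉ S' := by
      intro hs
      obtain ⟨a, -, h⟩ := mem_image.1 hs
      exact (mem_erase.1 a.2).1 h
    let N : Finset θ := T.filter fun t => ∃ s ∈ S', R s t
    have hN : N ⊆ T := filter_subset _ _
    have hcl : ∀ s ∈ S', ∀ t ∈ T, R s t → t ∈ N := fun s hs t ht h =>
      mem_filter.2 ⟨ht, s, hs, h⟩
    have hφN : S'.image φ ⊆ N := by
      intro t ht
      obtain ⟨s, hs, rfl⟩ := mem_image.1 ht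
      exact hcl s hs _ (hφT ▸ mem_image_of_mem φ (hS' hs)) (hφR s (hS' hs))
    have hc1 : S'.card ≤ N.card := by
      rw [← card_image_of_injOn (hφ.mono hS' : Set.InjOn φ S')]
      exact card_le_card hφN
    have hN0 : N.erase t0 ⊆ A.biUnion nbh := by
      intro t ht
      obtain ⟨htt, htN⟩ := mem_erase.1 ht
      obtain ⟨htT, s, hs, hst⟩ := mem_filter.1 htN
      obtain ⟨a, ha, rfl⟩ := mem_image.1 hs
      exact mem_biUnion.2 ⟨a, ha, mem_filter.2 ⟨mem_erase.2 ⟨htt, htT⟩, hst⟩⟩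
    have hc2 : (N.erase t0).card < S'.card := by
      rw [hS'c]
      exact (card_le_card hN0).trans_lt hA
    have ht0N : t0 ∈ N := by
      by_contra h
      rw [erase_eq_of_notMem h] at hc2
      omega
    have hc3 : N.card ≤ S'.card := by
      rw [card_erase_of_mem ht0N] at hc2
      omega
    exact hallm_num S T R w ε hε hw hR hr hc s0 hs0 t0 S' N hS' h0 hN ht0N hc3 hcl

end R5

end

section

/-! # Block KLOG: the logarithm of the kernel (helper48) -/

set_option autoImplicit false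

namespace R5

open Finset

namespace KLOGAux

variable {α : Type} [DecidableEq α]

/-- number of marked elements -/
def cnt (M : Finset α) (π : List α) : ℕ := (π.filter (fun x => x ∈ M)).length

theorem main (ρ : α → ℝ) (n : ℝ) (X U0 M : Finset α) (hn : 0 < n) :
    ∀ (π : List α) (U : Finset α) (i : ℕ), U0 ⊆ U → π.Nodup → (∀ x ∈ π, x ∉ U ∧ 0 < ρ x) →
    i + cnt M π ≤ M.card →
    (π.map ρ).sum + ∑ g ∈ (U \ U0) \ M, ρ g ≤ n - ∑ g ∈ U0 \ X, ρ g →
    0 < kc ρ M (n - ∑ g ∈ U0 \ X, ρ g) π ((U \ U0) \ M) i ∧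
    Real.log (kc ρ M (n - ∑ g ∈ U0 \ X, ρ g) π ((U \ U0) \ M) i) =
      (π.map fun x => Real.log (ρ x)).sum - (π.length : ℝ) * Real.log n +
      csum (sc ρ n X U0 M) U π +
      ∑ j ∈ range (cnt M π), Real.log ((M.card : ℝ) / ((M.card : ℝ) - ((i : ℝ) + j))) := by
  intro π
  induction π with
  | nil =>
    intro U i _ _ _ _ _
    simp [kc, csum, cnt]
  | cons g π ih =>
    intro U i hU hnd hx hc hm
    rw [List.nodup_cons] at hnd
    have hg := hx g List.mem_cons_self
    have hgU0 : g ∉ U0 := fun h => hg.1 (hU h)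
    have hnn : 0 ≤ (π.map ρ).sum := by
      apply List.sum_nonneg
      intro y hy
      rw [List.mem_map] at hy
      obtain ⟨x, hxx, rfl⟩ := hy
      exact (hx x (List.mem_cons_of_mem _ hxx)).2.le
    rw [List.map_cons, List.sum_cons] at hm
    set N : ℝ := n - ∑ g ∈ U0 \ X, ρ g with hN
    set w : ℝ := ∑ g ∈ (U \ U0) \ M, ρ g with hw
    have hpos : 0 < N - w := by linarith [hg.2]
    have hsc : sc ρ n X U0 M U = -Real.log (N - w) + Real.log n := by
      unfold sc
      have h1 : (1 : ℝ) - ((∑ g ∈ U0 \ X, ρ g) + ∑ g ∈ (U \ U0) \ M, ρ g) / n = (N - w) / n := by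
        rw [hN, ← hw]
        field_simp
        ring
      rw [h1, Real.log_div hpos.ne' hn.ne']
      ring
    have hx' : ∀ x ∈ π, x ∉ insert g U ∧ 0 < ρ x := by
      intro x hxx
      refine ⟨?_, (hx x (List.mem_cons_of_mem _ hxx)).2⟩
      rw [mem_insert, not_or]
      exact ⟨fun h => hnd.1 (h ▸ hxx), (hx x (List.mem_cons_of_mem _ hxx)).1⟩
    have hU' : U0 ⊆ insert g U := hU.trans (subset_insert _ _)
    by_cases hM : g ∈ M
    · have hcn : cnt M (g :: π) = cnt M π + 1 := by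
        unfold cnt
        rw [List.filter_cons_of_pos (by simpa using hM)]
        rfl
      have hset : (insert g U \ U0) \ M = (U \ U0) \ M := by
        ext x
        simp only [mem_sdiff, mem_insert]
        constructor
        · rintro ⟨⟨rfl | h, h2⟩, h3⟩
          · exact absurd hM h3
          · exact ⟨⟨h, h2⟩, h3⟩
        · rintro ⟨⟨h, h2⟩, h3⟩
          exact ⟨⟨Or.inr h, h2⟩, h3⟩
      have hih := ih (insert g U) (i + 1) hU' hnd.2 hx' (by omega)
        (by rw [hset]; rw [← hw]; linarith [hg.2])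
      rw [hset] at hih
      obtain ⟨h1, h2⟩ := hih
      have hbi : (0 : ℝ) < (M.card : ℝ) - i := by
        have : i < M.card := by omega
        have : (i : ℝ) < M.card := by exact_mod_cast this
        linarith
      have hb : (0 : ℝ) < (M.card : ℝ) := by
        have : 0 < M.card := by omega
        exact_mod_cast this
      have hk : kc ρ M N (g :: π) ((U \ U0) \ M) i =
          ρ g / (N - w) * ((M.card : ℝ) / ((M.card : ℝ) - i)) * kc ρ M N π ((U \ U0) \ M) (i + 1) := by
        show (if g ∈ M then _ else _) = _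
        rw [if_pos hM]
      have hq : 0 < ρ g / (N - w) := div_pos hg.2 hpos
      have hq2 : 0 < (M.card : ℝ) / ((M.card : ℝ) - i) := div_pos hb hbi
      refine ⟨by rw [hk]; exact mul_pos (mul_pos hq hq2) h1, ?_⟩
      rw [hk, Real.log_mul (mul_pos hq hq2).ne' h1.ne', Real.log_mul hq.ne' hq2.ne',
        Real.log_div hg.2.ne' hpos.ne', h2, hcn, sum_range_succ']
      simp only [List.map_cons, List.sum_cons, List.length_cons, csum, hsc]
      push_cast
      have hs : ∑ j ∈ range (cnt M π), Real.log ((M.card : ℝ) / ((M.card : ℝ) - ((i : ℝ) + 1 + j))) =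
          ∑ j ∈ range (cnt M π), Real.log ((M.card : ℝ) / ((M.card : ℝ) - ((i : ℝ) + ((j : ℝ) + 1)))) := by
        refine sum_congr rfl fun j _ => ?_
        congr 3
        ring
      rw [hs, add_zero]
      ring
    · have hcn : cnt M (g :: π) = cnt M π := by
        unfold cnt
        rw [List.filter_cons_of_neg (by simpa using hM)]
      have hset : (insert g U \ U0) \ M = insert g ((U \ U0) \ M) := by
        ext x
        simp only [mem_sdiff, mem_insert]
        constructor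
        · rintro ⟨⟨rfl | h, h2⟩, h3⟩
          · exact Or.inl rfl
          · exact Or.inr ⟨⟨h, h2⟩, h3⟩
        · rintro (rfl | ⟨⟨h, h2⟩, h3⟩)
          · exact ⟨⟨Or.inl rfl, hgU0⟩, hM⟩
          · exact ⟨⟨Or.inr h, h2⟩, h3⟩
      have hgW : g ∉ (U \ U0) \ M := by
        simp only [mem_sdiff]
        rintro ⟨⟨h, -⟩, -⟩
        exact hg.1 h
      have hih := ih (insert g U) i hU' hnd.2 hx' (by omega)
        (by rw [hset, sum_insert hgW]; rw [← hw]; linarith [hg.2])
      rw [hset] at hih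
      obtain ⟨h1, h2⟩ := hih
      have hk : kc ρ M N (g :: π) ((U \ U0) \ M) i =
          ρ g / (N - w) * kc ρ M N π (insert g ((U \ U0) \ M)) i := by
        show (if g ∈ M then _ else _) = _
        rw [if_neg hM]
      have hq : 0 < ρ g / (N - w) := div_pos hg.2 hpos
      refine ⟨by rw [hk]; exact mul_pos hq h1, ?_⟩
      rw [hk, Real.log_mul hq.ne' h1.ne', Real.log_div hg.2.ne' hpos.ne', h2, hcn]
      simp only [List.map_cons, List.sum_cons, List.length_cons, csum, hsc]
      push_cast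
      ring

end KLOGAux

theorem stmt_KLOG (α : Type) [DecidableEq α] : Stmt_KLOG α := by
  intro ρ n X U0 M R hXU hdis h0 hR hn hm π hπ
  obtain ⟨h1, h2, h3⟩ := mem_seqs.1 hπ
  have hset : π.toFinset = R := toFinset_eq_of_mem_seqs hπ
  have hcnt : KLOGAux.cnt M π = (M ∩ R).card := by
    unfold KLOGAux.cnt
    rw [← List.toFinset_card_of_nodup (h1.filter _), List.toFinset_filter, hset]
    congr 1
    ext x
    simp only [mem_filter, mem_inter, decide_eq_true_eq]
    tauto
  have hW : (U0 \ U0) \ M = ∅ := by simp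
  have hsum : (π.map ρ).sum = ∑ g ∈ R, ρ g := by
    rw [← hset, List.sum_toFinset _ h1]
  have hlog : (π.map fun x => Real.log (ρ x)).sum = ∑ g ∈ R, Real.log (ρ g) := by
    rw [← hset, List.sum_toFinset _ h1]
  have hmain := KLOGAux.main ρ n X U0 M hn π U0 0 Subset.rfl h1
    (fun x hx => ⟨fun h => (Finset.disjoint_left.1 hdis) h (h3 x hx), hR x (h3 x hx)⟩)
    (by rw [hcnt, zero_add]; exact card_le_card inter_subset_left)
    (by rw [hW, sum_empty, hsum]; linarith)
  rw [hW] at hmain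
  obtain ⟨e1, e2⟩ := hmain
  refine ⟨e1, ?_⟩
  rw [e2, hlog, h2, hcnt]
  unfold gg
  simp

end R5

end

section

/-! # Block KSUM: the kernel is a sub-probability (helper48) -/

set_option autoImplicit false

namespace R5

open Finset

namespace KSUMAux

variable {α : Type} [DecidableEq α]

/-- the linear functional of the unmarked part -/
noncomputable def L (ρ : α → ℝ) (H : Finset α) (N : ℝ) : ℕ → Finset α → (ℕ → ℝ) → ℝ
  | 0, _, β => β 0
  | r + 1, W, β => (∑ h ∈ H \ W, ρ h / (N - ∑ g ∈ W, ρ g) * L ρ H N r (insert h W) β) +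
      1 / (N - ∑ g ∈ W, ρ g) * L ρ H N r W (fun k => β (k + 1))

/-- the marked part -/
noncomputable def B (ρ : α → ℝ) (M : Finset α) (i k : ℕ) (Y : Finset α) : ℝ :=
  ∑ π ∈ seqs k (M \ Y), (π.map ρ).prod *
    ∏ j ∈ range k, ((M.card : ℝ) / ((M.card : ℝ) - ((i : ℝ) + j)))

theorem L_sum (ρ : α → ℝ) (H : Finset α) (N : ℝ) {σ : Type} (s : Finset σ) (c : σ → ℝ) :
    ∀ (r : ℕ) (W : Finset α) (β : σ → ℕ → ℝ),
    L ρ H N r W (fun k => ∑ g ∈ s, c g * β g k) = ∑ g ∈ s, c g * L ρ H N r W (β g) := by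
  intro r
  induction r with
  | zero => intro W β; rfl
  | succ r ih =>
    intro W β
    show (∑ h ∈ H \ W, ρ h / (N - ∑ g ∈ W, ρ g) *
        L ρ H N r (insert h W) (fun k => ∑ g ∈ s, c g * β g k)) +
      1 / (N - ∑ g ∈ W, ρ g) * L ρ H N r W (fun k => ∑ g ∈ s, c g * β g (k + 1)) =
      ∑ g ∈ s, c g * ((∑ h ∈ H \ W, ρ h / (N - ∑ g ∈ W, ρ g) * L ρ H N r (insert h W) (β g)) +
      1 / (N - ∑ g ∈ W, ρ g) * L ρ H N r W (fun k => β g (k + 1)))
    rw [ih W (fun g k => β g (k + 1))]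
    simp only [ih, mul_add, sum_add_distrib, mul_sum]
    rw [sum_comm]
    congr 1
    · refine sum_congr rfl fun g _ => sum_congr rfl fun h _ => by ring
    · refine sum_congr rfl fun g _ => by ring

theorem mass_nonneg {ρ : α → ℝ} {H W : Finset α} {N : ℝ} (h0 : ∀ g ∈ H, 0 ≤ ρ g)
    (hN : ∑ g ∈ H, ρ g ≤ N) (hW : W ⊆ H) : 0 ≤ N - ∑ g ∈ W, ρ g := by
  have : ∑ g ∈ W, ρ g ≤ ∑ g ∈ H, ρ g := sum_le_sum_of_subset_of_nonneg hW fun g hg _ => h0 g hg
  linarith

theorem L_mono {ρ : α → ℝ} {H : Finset α} {N : ℝ} (h0 : ∀ g ∈ H, 0 ≤ ρ g)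
    (hN : ∑ g ∈ H, ρ g ≤ N) : ∀ (r : ℕ) (W : Finset α) (β β' : ℕ → ℝ), W ⊆ H →
    (∀ k, β k ≤ β' k) → L ρ H N r W β ≤ L ρ H N r W β' := by
  intro r
  induction r with
  | zero => intro W β β' _ h; exact h 0
  | succ r ih =>
    intro W β β' hW h
    have hm := mass_nonneg h0 hN hW
    refine add_le_add (sum_le_sum fun g hg => ?_) ?_
    · rw [mem_sdiff] at hg
      exact mul_le_mul_of_nonneg_left (ih _ _ _ (insert_subset hg.1 hW) h)
        (div_nonneg (h0 g hg.1) hm)
    · exact mul_le_mul_of_nonneg_left (ih _ _ _ hW fun k => h (k + 1))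
        (div_nonneg zero_le_one hm)

theorem L_smul (ρ : α → ℝ) (H : Finset α) (N c : ℝ) (r : ℕ) (W : Finset α) (β : ℕ → ℝ) :
    L ρ H N r W (fun k => c * β k) = c * L ρ H N r W β := by
  have h := L_sum ρ H N ({()} : Finset Unit) (fun _ => c) r W (fun _ => β)
  simpa using h

theorem L_pow {ρ : α → ℝ} {H : Finset α} {N m : ℝ} (h0 : ∀ g ∈ H, 0 ≤ ρ g) (hm0 : 0 ≤ m)
    (hN : ∑ g ∈ H, ρ g + m ≤ N) : ∀ (r : ℕ) (W : Finset α), W ⊆ H →
    L ρ H N r W (fun k => m ^ k) ≤ 1 := by
  intro r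
  induction r with
  | zero => intro W _; show m ^ 0 ≤ 1; simp
  | succ r ih =>
    intro W hW
    have hm := mass_nonneg h0 (by linarith : ∑ g ∈ H, ρ g ≤ N) hW
    have h1 : L ρ H N r W (fun k => m ^ (k + 1)) = m * L ρ H N r W (fun k => m ^ k) := by
      rw [← L_smul]
      congr 1
      funext k
      rw [pow_succ]; ring
    show (∑ h ∈ H \ W, ρ h / (N - ∑ g ∈ W, ρ g) * L ρ H N r (insert h W) (fun k => m ^ k)) +
      1 / (N - ∑ g ∈ W, ρ g) * L ρ H N r W (fun k => m ^ (k + 1)) ≤ 1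
    rw [h1]
    have h2 : ∑ h ∈ H \ W, ρ h / (N - ∑ g ∈ W, ρ g) *
        L ρ H N r (insert h W) (fun k => m ^ k) ≤
        ∑ h ∈ H \ W, ρ h / (N - ∑ g ∈ W, ρ g) := by
      refine sum_le_sum fun g hg => ?_
      rw [mem_sdiff] at hg
      exact mul_le_of_le_one_right (div_nonneg (h0 g hg.1) hm) (ih _ (insert_subset hg.1 hW))
    have h3 : 1 / (N - ∑ g ∈ W, ρ g) * (m * L ρ H N r W (fun k => m ^ k)) ≤
        m / (N - ∑ g ∈ W, ρ g) := by
      have : 1 / (N - ∑ g ∈ W, ρ g) * (m * L ρ H N r W (fun k => m ^ k)) =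
          m / (N - ∑ g ∈ W, ρ g) * L ρ H N r W (fun k => m ^ k) := by ring
      rw [this]
      exact mul_le_of_le_one_right (div_nonneg hm0 hm) (ih _ hW)
    refine (add_le_add h2 h3).trans ?_
    rw [← sum_div, ← add_div]
    apply div_le_one_of_le₀ _ hm
    have h4 : ∑ h ∈ H \ W, ρ h + ∑ g ∈ W, ρ g = ∑ g ∈ H, ρ g := sum_sdiff hW
    linarith

theorem B_zero (ρ : α → ℝ) (M : Finset α) (i : ℕ) (Y : Finset α) : B ρ M i 0 Y = 1 := by
  simp [B, seqs_zero]

theorem B_succ (ρ : α → ℝ) (M : Finset α) (i k : ℕ) (Y : Finset α) :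
    B ρ M i (k + 1) Y = ∑ g ∈ M \ Y, (ρ g * ((M.card : ℝ) / ((M.card : ℝ) - i))) *
      B ρ M (i + 1) k (insert g Y) := by
  unfold B
  rw [sum_seqs_succ]
  refine sum_congr rfl fun g hg => ?_
  have he : (M \ Y).erase g = M \ insert g Y := by
    ext x; simp only [mem_erase, mem_sdiff, mem_insert]; tauto
  rw [he, mul_sum]
  refine sum_congr rfl fun π _ => ?_
  rw [prod_range_succ', List.map_cons, List.prod_cons]
  have hp : ∏ j ∈ range k, ((M.card : ℝ) / ((M.card : ℝ) - ((i : ℝ) + ((j + 1 : ℕ) : ℝ)))) =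
      ∏ j ∈ range k, ((M.card : ℝ) / ((M.card : ℝ) - (((i + 1 : ℕ) : ℝ) + j))) := by
    refine prod_congr rfl fun j _ => ?_
    congr 2
    push_cast
    ring
  rw [hp]
  push_cast
  rw [add_zero]
  ring

theorem main (ρ : α → ℝ) (M H : Finset α) (N : ℝ) (hd : Disjoint H M) :
    ∀ (r : ℕ) (W Y : Finset α) (i : ℕ), W ⊆ H → Y ⊆ M →
    ∑ π ∈ seqs r ((H \ W) ∪ (M \ Y)), kc ρ M N π W i = L ρ H N r W (fun k => B ρ M i k Y) := by
  intro r
  induction r with
  | zero =>
    intro W Y i _ _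
    rw [seqs_zero, sum_singleton]
    show 1 = B ρ M i 0 Y
    rw [B_zero]
  | succ r ih =>
    intro W Y i hW hY
    have hdis : Disjoint (H \ W) (M \ Y) := hd.mono sdiff_subset sdiff_subset
    rw [sum_seqs_succ, sum_union hdis]
    show _ = (∑ h ∈ H \ W, ρ h / (N - ∑ g ∈ W, ρ g) *
        L ρ H N r (insert h W) (fun k => B ρ M i k Y)) +
      1 / (N - ∑ g ∈ W, ρ g) * L ρ H N r W (fun k => B ρ M i (k + 1) Y)
    congr 1
    · refine sum_congr rfl fun g hg => ?_
      rw [mem_sdiff] at hg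
      have hgM : g ∉ M := fun h => Finset.disjoint_left.1 hd hg.1 h
      have he : ((H \ W) ∪ (M \ Y)).erase g = (H \ insert g W) ∪ (M \ Y) := by
        ext x
        simp only [mem_erase, mem_union, mem_sdiff, mem_insert]
        constructor
        · rintro ⟨h1, ⟨h2, h3⟩ | h2⟩
          · exact Or.inl ⟨h2, by tauto⟩
          · exact Or.inr h2
        · rintro (⟨h1, h2⟩ | h1)
          · exact ⟨by tauto, Or.inl ⟨h1, by tauto⟩⟩
          · exact ⟨fun h => hgM (h ▸ h1.1), Or.inr h1⟩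
      rw [he, ← ih (insert g W) Y i (insert_subset hg.1 hW) hY, mul_sum]
      refine sum_congr rfl fun π _ => ?_
      show (if g ∈ M then _ else _) = _
      rw [if_neg hgM]
    · have h1 : (fun k => B ρ M i (k + 1) Y) = fun k => ∑ g ∈ M \ Y,
          (ρ g * ((M.card : ℝ) / ((M.card : ℝ) - i))) * B ρ M (i + 1) k (insert g Y) := by
        funext k
        exact B_succ ρ M i k Y
      rw [h1, L_sum ρ H N (M \ Y) (fun g => ρ g * ((M.card : ℝ) / ((M.card : ℝ) - i))) r W
        (fun g k => B ρ M (i + 1) k (insert g Y)), mul_sum]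
      refine sum_congr rfl fun g hg => ?_
      rw [mem_sdiff] at hg
      have hgH : g ∉ H := fun h => Finset.disjoint_left.1 hd h hg.1
      have he : ((H \ W) ∪ (M \ Y)).erase g = (H \ W) ∪ (M \ insert g Y) := by
        ext x
        simp only [mem_erase, mem_union, mem_sdiff, mem_insert]
        constructor
        · rintro ⟨h1, h2 | ⟨h2, h3⟩⟩
          · exact Or.inl h2
          · exact Or.inr ⟨h2, by tauto⟩
        · rintro (h1 | ⟨h1, h2⟩)
          · exact ⟨fun h => hgH (h ▸ h1.1), Or.inl h1⟩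
          · exact ⟨by tauto, Or.inr ⟨h1, by tauto⟩⟩
      rw [he]
      have h2 := ih W (insert g Y) (i + 1) hW (insert_subset hg.1 hY)
      rw [← h2, mul_sum, mul_sum]
      refine sum_congr rfl fun π _ => ?_
      show (if g ∈ M then _ else _) = _
      rw [if_pos hg.1]
      ring

end KSUMAux

theorem stmt_KSUM (α : Type) [DecidableEq α] (hM : Stmt_MACL α) : Stmt_KSUM α := by
  intro ρ M G N r hMG h0 hN
  set H : Finset α := G \ M with hH
  have hd : Disjoint H M := sdiff_disjoint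
  have hG : (H \ ∅) ∪ (M \ ∅) = G := by
    rw [sdiff_empty, sdiff_empty, hH, sdiff_union_of_subset hMG]
  have h1 := KSUMAux.main ρ M H N hd r ∅ ∅ 0 (empty_subset _) (empty_subset _)
  rw [hG] at h1
  rw [h1]
  have hm0 : 0 ≤ ∑ g ∈ M, ρ g := sum_nonneg fun g hg => h0 g (hMG hg)
  have hH0 : ∀ g ∈ H, 0 ≤ ρ g := fun g hg => h0 g (sdiff_subset hg)
  have hsum : ∑ g ∈ H, ρ g + ∑ g ∈ M, ρ g = ∑ g ∈ G, ρ g := sum_sdiff hMG
  refine le_trans (KSUMAux.L_mono hH0 (by linarith) r ∅ _ (fun k => (∑ g ∈ M, ρ g) ^ k)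
    (empty_subset _) fun k => ?_) (KSUMAux.L_pow hH0 hm0 (by linarith) r ∅ (empty_subset _))
  unfold KSUMAux.B
  rw [sdiff_empty]
  by_cases hk : k ≤ M.card
  · rw [← sum_mul]
    have h2 := hM ρ M k (fun g hg => h0 g (hMG hg)) hk
    have hpos : ∀ j ∈ range k, (0 : ℝ) < (M.card : ℝ) - (((0 : ℕ) : ℝ) + j) := by
      intro j hj
      rw [mem_range] at hj
      have : (j : ℝ) < M.card := by exact_mod_cast lt_of_lt_of_le hj hk
      simp only [Nat.cast_zero, zero_add]
      linarith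
    have hprod : 0 ≤ ∏ j ∈ range k, ((M.card : ℝ) / ((M.card : ℝ) - (((0 : ℕ) : ℝ) + j))) :=
      prod_nonneg fun j hj => div_nonneg (Nat.cast_nonneg _) (hpos j hj).le
    refine (mul_le_mul_of_nonneg_right h2 hprod).trans (le_of_eq ?_)
    rw [mul_right_comm, ← prod_mul_distrib]
    have h3 : ∏ i ∈ range k, (((M.card : ℝ) - i) / (M.card : ℝ) *
        ((M.card : ℝ) / ((M.card : ℝ) - (((0 : ℕ) : ℝ) + i)))) = 1 := by
      refine prod_eq_one fun j hj => ?_
      have hj1 := hpos j hj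
      simp only [Nat.cast_zero, zero_add] at hj1 ⊢
      have hj2 : (M.card : ℝ) ≠ 0 := by
        rw [mem_range] at hj
        have : 0 < M.card := by omega
        exact_mod_cast this.ne'
      have hj3 := hj1.ne'
      field_simp
    rw [h3, one_mul]
  · have hempty : seqs k M = ∅ := by
      rw [Finset.eq_empty_iff_forall_notMem]
      intro l hl
      obtain ⟨e1, e2, e3⟩ := mem_seqs.1 hl
      apply hk
      rw [← e2, ← List.toFinset_card_of_nodup e1]
      exact card_le_card fun x hx => e3 x (List.mem_toFinset.1 hx)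
    rw [hempty, sum_empty]
    exact pow_nonneg hm0 k

end R5

end

section

/-! Block LPARTQ: the colour L part of the network inequality. -/

namespace R5

open Finset MP_8b6acb_co

end R5

end

section

/-! # Block MACL: Maclaurin's inequality in ordered form (helper61) -/

namespace R5

open Finset

theorem macl_g (k : ℕ) {u : ℝ} (hu : 0 ≤ u) : 0 ≤ 1 - ((k : ℝ) + 1) * u ^ k + k * u ^ (k + 1) := by
  induction k with
  | zero => simp
  | succ k ih =>
    have h : 1 - (((k + 1 : ℕ) : ℝ) + 1) * u ^ (k + 1) + ((k + 1 : ℕ) : ℝ) * u ^ (k + 1 + 1) =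
      (1 - ((k : ℝ) + 1) * u ^ k + k * u ^ (k + 1)) + ((k : ℝ) + 1) * u ^ k * (1 - u) ^ 2 := by
      push_cast
      ring
    rw [h]
    positivity

theorem macl_b (k : ℕ) {u : ℝ} (hu : 0 ≤ u) : 0 ≤ u ^ (k + 1) - 1 - ((k : ℝ) + 1) * (u - 1) := by
  have h := one_add_mul_le_pow (show (-2 : ℝ) ≤ u - 1 by linarith) (k + 1)
  push_cast at h
  have e : 1 + (u - 1) = u := by ring
  rw [e] at h
  linarith

/-- tangent line -/
theorem macl_t (k : ℕ) {u x0 : ℝ} (hu : 0 ≤ u) (h1 : ((k : ℝ) + 1) * x0 ≤ 1) :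
    u ^ k * (1 - u * (1 - x0)) ≤ x0 + (1 - u) * (1 - ((k : ℝ) + 1) * x0) := by
  have h2 := macl_g k hu
  have h3 := macl_b k hu
  have h4 : ((k : ℝ) + 1) * x0 * (u ^ (k + 1) - 1 - ((k : ℝ) + 1) * (u - 1)) ≤
    1 * (u ^ (k + 1) - 1 - ((k : ℝ) + 1) * (u - 1)) := mul_le_mul_of_nonneg_right h1 h3
  have h5 : (0 : ℝ) < (k : ℝ) + 1 := by positivity
  have h6 : ((k : ℝ) + 1) * (u ^ k * (1 - u * (1 - x0))) ≤
      ((k : ℝ) + 1) * (x0 + (1 - u) * (1 - ((k : ℝ) + 1) * x0)) := by
    have e : ((k : ℝ) + 1) * (x0 + (1 - u) * (1 - ((k : ℝ) + 1) * x0)) -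
      ((k : ℝ) + 1) * (u ^ k * (1 - u * (1 - x0))) =
      (1 * (u ^ (k + 1) - 1 - ((k : ℝ) + 1) * (u - 1)) -
        ((k : ℝ) + 1) * x0 * (u ^ (k + 1) - 1 - ((k : ℝ) + 1) * (u - 1))) +
      (1 - ((k : ℝ) + 1) * u ^ k + k * u ^ (k + 1)) := by
      ring
    linarith
  exact le_of_mul_le_mul_left h6 h5

/-- the sum over `m ≥ k + 1` numbers -/
theorem macl_s {α : Type} (M : Finset α) (ρ : α → ℝ) (k : ℕ) (hρ : ∀ g ∈ M, 0 ≤ ρ g)
    (hk : k + 1 ≤ M.card) (S : ℝ) (hS : S = ∑ g ∈ M, ρ g) :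
    ∑ g ∈ M, ρ g * (S - ρ g) ^ k ≤ (((M.card : ℝ) - 1) / (M.card : ℝ)) ^ k * S ^ (k + 1) := by
  rcases Nat.eq_zero_or_pos k with rfl | hk0
  · simp [hS]
  have hm : (2 : ℝ) ≤ (M.card : ℝ) := by
    have : 2 ≤ M.card := by omega
    exact_mod_cast this
  have hS0 : 0 ≤ S := hS ▸ sum_nonneg hρ
  rcases hS0.eq_or_lt with h0 | hpos
  · have hz : ∀ g ∈ M, ρ g = 0 := by
      have := (sum_eq_zero_iff_of_nonneg hρ).1 (hS ▸ h0.symm)
      exact this
    rw [sum_eq_zero (fun g hg => by rw [hz g hg, zero_mul]), ← h0, zero_pow (Nat.succ_ne_zero k),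
      mul_zero]
  set m : ℝ := (M.card : ℝ) with hmdef
  have hm0 : 0 < m := by linarith
  have hm1 : 0 < m - 1 := by linarith
  have hle : ∀ g ∈ M, ρ g ≤ S := fun g hg => hS ▸ single_le_sum hρ hg
  have hx0 : ((k : ℝ) + 1) * (1 / m) ≤ 1 := by
    rw [mul_one_div, div_le_one hm0, hmdef]
    exact_mod_cast hk
  have key : ∀ g ∈ M, ρ g * (S - ρ g) ^ k ≤ (((m - 1) / m) ^ k * S ^ (k + 1)) *
      (1 / m + (1 - (S - ρ g) * m / (S * (m - 1))) * (1 - ((k : ℝ) + 1) * (1 / m))) := by
    intro g hg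
    have hu : 0 ≤ (S - ρ g) * m / (S * (m - 1)) :=
      div_nonneg (mul_nonneg (by linarith [hle g hg]) hm0.le) (mul_pos hpos hm1).le
    have h := macl_t k hu hx0
    have h2 := mul_le_mul_of_nonneg_left h
      (show 0 ≤ ((m - 1) / m) ^ k * S ^ (k + 1) by positivity)
    refine le_trans (le_of_eq ?_) h2
    have e1 : (m - 1) / m * S * ((S - ρ g) * m / (S * (m - 1))) = S - ρ g := by
      field_simp
    have e2 : S * (1 - (S - ρ g) * m / (S * (m - 1)) * (1 - 1 / m)) = ρ g := by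
      have : (1 - 1 / m) = (m - 1) / m := by field_simp
      rw [this]
      field_simp
      ring
    calc ρ g * (S - ρ g) ^ k
        = (S * (1 - (S - ρ g) * m / (S * (m - 1)) * (1 - 1 / m))) *
          ((m - 1) / m * S * ((S - ρ g) * m / (S * (m - 1)))) ^ k := by rw [e1, e2]
      _ = _ := by
        rw [mul_pow, mul_pow]
        ring
  refine (sum_le_sum key).trans ?_
  rw [← mul_sum, sum_add_distrib, ← sum_mul, sum_sub_distrib]
  have e3 : ∑ g ∈ M, (S - ρ g) * m / (S * (m - 1)) = m := by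
    rw [← sum_div, ← sum_mul, sum_sub_distrib, ← hS, sum_const, nsmul_eq_mul, ← hmdef]
    field_simp
  rw [e3, sum_const, sum_const, nsmul_eq_mul, nsmul_eq_mul, ← hmdef, mul_one, sub_self, zero_mul,
    add_zero, mul_one_div_cancel hm0.ne', mul_one]

theorem macl_p (m : ℝ) (k : ℕ) (hm : 0 < m) (h : k = 0 ∨ m - 1 ≠ 0) :
    (∏ i ∈ range k, ((m - 1 - i) / (m - 1))) * ((m - 1) / m) ^ k =
      ∏ i ∈ range (k + 1), ((m - i) / m) := by
  rw [prod_range_succ', Nat.cast_zero, sub_zero, div_self hm.ne', mul_one]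
  have e : ((m - 1) / m) ^ k = ∏ _i ∈ range k, ((m - 1) / m) := by
    rw [prod_const, card_range]
  rw [e, ← prod_mul_distrib]
  refine prod_congr rfl fun i hi => ?_
  have h1 : m - 1 ≠ 0 := by
    rcases h with rfl | h
    · simp at hi
    · exact h
  push_cast
  field_simp
  ring

variable {α : Type} [DecidableEq α]

theorem stmt_MACL : Stmt_MACL α := by
  intro ρ M k
  induction k generalizing M with
  | zero => intro _ _; simp [seqs_zero]
  | succ k ih =>
    intro hρ hk
    have hm : (1 : ℝ) ≤ (M.card : ℝ) := by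
      have : 1 ≤ M.card := by omega
      exact_mod_cast this
    rw [sum_seqs_succ]
    have h1 : ∀ g ∈ M, ∑ π ∈ seqs k (M.erase g), ((g :: π).map ρ).prod ≤
        (∏ i ∈ range k, (((M.card : ℝ) - 1 - i) / ((M.card : ℝ) - 1))) *
          (ρ g * ((∑ g ∈ M, ρ g) - ρ g) ^ k) := by
      intro g hg
      have h2 := ih (M.erase g) (fun x hx => hρ x (mem_of_mem_erase hx))
        (by rw [card_erase_of_mem hg]; omega)
      have hc : (((M.erase g).card : ℕ) : ℝ) = (M.card : ℝ) - 1 := by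
        rw [card_erase_of_mem hg, Nat.cast_sub (by omega), Nat.cast_one]
      have hs : ∑ x ∈ M.erase g, ρ x = (∑ x ∈ M, ρ x) - ρ g := by
        rw [← add_sum_erase M ρ hg]
        ring
      rw [hc, hs] at h2
      have h3 : ∑ π ∈ seqs k (M.erase g), ((g :: π).map ρ).prod =
          ρ g * ∑ π ∈ seqs k (M.erase g), (π.map ρ).prod := by
        rw [mul_sum]
        refine sum_congr rfl fun π _ => ?_
        rw [List.map_cons, List.prod_cons]
      rw [h3]
      refine (mul_le_mul_of_nonneg_left h2 (hρ g hg)).trans (le_of_eq ?_)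
      ring
    refine (sum_le_sum h1).trans ?_
    rw [← mul_sum]
    have h4 := macl_s M ρ k hρ hk _ rfl
    have h5 : 0 ≤ ∏ i ∈ range k, (((M.card : ℝ) - 1 - i) / ((M.card : ℝ) - 1)) := by
      refine prod_nonneg fun i hi => div_nonneg ?_ (by linarith)
      have : i + 1 ≤ M.card := by
        have := mem_range.1 hi
        omega
      have h6 : ((i : ℝ) + 1) ≤ (M.card : ℝ) := by exact_mod_cast this
      linarith
    refine (mul_le_mul_of_nonneg_left h4 h5).trans (le_of_eq ?_)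
    rw [← mul_assoc, macl_p _ k (by linarith) ?_]
    rcases Nat.eq_zero_or_pos k with h0 | h0
    · exact Or.inl h0
    · right
      have : 2 ≤ M.card := by omega
      have h6 : (2 : ℝ) ≤ (M.card : ℝ) := by exact_mod_cast this
      linarith

end R5

end

section

/-! # Block ORD: good orders -/

namespace R5

open Finset

variable {α : Type} [DecidableEq α]

theorem gd_cons (τ : Finset α → Lab) (U : Finset α) (x : α) (π : List α) :
    gd τ U (x :: π) = if τ U = Lab.B then gd τ (insert x U) π else 0 := rfl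

end R5

end

section

/-! # Block VLB: a lower bound for the value, independent of the densities -/

namespace R5

open Finset

namespace VLBQ

variable {α : Type} [DecidableEq α]

theorem gg_nonneg {b j : ℕ} (h : j ≤ b) : 0 ≤ gg b j := by
  unfold gg
  refine sum_nonneg fun i hi => ?_
  rw [mem_range] at hi
  have h1 : (i : ℝ) < (b : ℝ) := by exact_mod_cast lt_of_lt_of_le hi h
  have h2 : (0 : ℝ) ≤ (i : ℝ) := Nat.cast_nonneg _
  apply Real.log_nonneg
  rw [le_div_iff₀ (by linarith)]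
  linarith

theorem gm_nonneg (mk : Finset α → Finset α) (D U : Finset α) : 0 ≤ gm mk D U :=
  gg_nonneg (card_le_card inter_subset_left)

theorem pe_nn (τ : Finset α → Lab) {D X V : Finset α} {x : α} (hV : V ⊆ D) :
    0 ≤ pe τ D X V x := by
  unfold pe
  split_ifs
  · have h1 : (V.card : ℝ) ≤ D.card := by exact_mod_cast card_le_card hV
    have h2 := fw_nonneg τ X
    have h3 := bw_nonneg τ D (insert x V)
    have h4 : (0 : ℝ) ≤ (D.card : ℝ) - (V.card : ℝ) := by linarith
    positivity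
  · exact le_refl _

theorem pv_nn (τ : Finset α → Lab) {D X V : Finset α} :
    0 ≤ pv τ D X V := by
  unfold pv
  split_ifs
  · have h2 := fw_nonneg τ X
    have h3 := bwb_nonneg τ D V
    positivity
  · exact le_refl _

end VLBQ

end R5

end

section

/-! Block CUTQ. -/

namespace R5

open Finset MP_8b6acb_co

namespace CQ

section

variable {α : Type} [DecidableEq α]

theorem PEL_nonneg (τ : Finset α → Lab) (D : Finset α) : 0 ≤ PEL τ D :=
  sum_nonneg fun _ hV => sum_nonneg fun x _ => MN.yLe_nn τ x (mem_powerset.1 hV)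

end

variable {α : Type} [Fintype α] [DecidableEq α]

/-- The light elements of a source. -/
def LS (c : Finset α → Lab) (s : Finset α) : Finset α :=
  univ.filter fun x => x ∉ s ∧ c (insert x s) = Lab.B

/-- The light elements of a sink. -/
def LT (c : Finset α → Lab) (t : Finset α) : Finset α := t.filter fun x => c (t.erase x) = Lab.A

/-- The densities are in `(0, 1]`. -/
theorem rhoS {c : Finset α → Lab} {i j : ℕ} {S T : Finset (Finset α)} {a b : Finset α → ℝ}
    (h : Net c i j S T a b) {s t : Finset α} (hs : s ∈ S) (ht : t ∈ T) (hst : s ⊆ t) :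
    ∀ X ⊆ t \ s, ∀ g ∈ (t \ s) \ X,
      0 < MU c T a b s (s ∪ insert g X) / MU c T a b s (s ∪ X) ∧
        MU c T a b s (s ∪ insert g X) / MU c T a b s (s ∪ X) ≤ 1 := by
  intro X hX g hg
  have h1 : s ∪ insert g X ⊆ t := union_subset hst
    (insert_subset (mem_sdiff.1 (mem_sdiff.1 hg).1).1 (hX.trans sdiff_subset))
  have h2 : s ∪ X ⊆ s ∪ insert g X := union_subset_union (Subset.refl _) (subset_insert _ _)
  have p1 := MN.MU_pos h hs ht h1
  have p2 := MN.MU_pos h hs ht (h2.trans h1)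
  exact ⟨div_pos p1 p2, (div_le_one p2).2 (MN.MU_anti h hs h2)⟩

theorem rhoT {c : Finset α → Lab} {i j : ℕ} {S T : Finset (Finset α)} {a b : Finset α → ℝ}
    (h : Net c i j S T a b) {s t : Finset α} (hs : s ∈ S) (ht : t ∈ T) :
    ∀ U ⊆ t \ s, ∀ g ∈ (t \ s) \ U,
      0 < NU c S a b t (s ∪ ((t \ s) \ insert g U)) / NU c S a b t (s ∪ ((t \ s) \ U)) ∧
        NU c S a b t (s ∪ ((t \ s) \ insert g U)) / NU c S a b t (s ∪ ((t \ s) \ U)) ≤ 1 := by
  intro U _ g _
  have h2 : s ∪ ((t \ s) \ insert g U) ⊆ s ∪ ((t \ s) \ U) :=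
    union_subset_union (Subset.refl _) (sdiff_subset_sdiff (Subset.refl _) (subset_insert _ _))
  have p1 := MN.NU_pos h hs ht (v := s ∪ ((t \ s) \ insert g U)) subset_union_left
  have p2 := MN.NU_pos h hs ht (v := s ∪ ((t \ s) \ U)) subset_union_left
  exact ⟨div_pos p1 p2, (div_le_one p2).2 (MN.NU_mono h ht h2)⟩

end CQ

end R5

end
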