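import Mathlib
import Pool.Agent.Work.MP_8b6acb_full.P06
import Pool.Agent.Work.MP_8b6acb_full.P07

section

/-! Blocks OBJEQ and OBJXQ: common part (helper76). -/

namespace R5

open Finset MP_8b6acb_co

/-! ### the kernel -/

theorem kc_nonneg {α : Type} [DecidableEq α] (ρ : α → ℝ) (M : Finset α) (N : ℝ) :
    ∀ (π : List α) (W : Finset α) (k : ℕ) (G : Finset α), π.Nodup → (∀ x ∈ π, x ∈ G) →
    (∀ g ∈ G, 0 ≤ ρ g) → Disjoint W G → (∑ g ∈ W, ρ g) + ∑ g ∈ G, ρ g ≤ N →
    k + (M ∩ G).card ≤ M.card → 0 ≤ kc ρ M N π W k := by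
  intro π
  induction π with
  | nil => intro W k G _ _ _ _ _ _; simp [kc]
  | cons x π ih =>
    intro W k G hnd hG hρ hd hN hk
    have hxG : x ∈ G := hG x List.mem_cons_self
    rw [List.nodup_cons] at hnd
    have hG' : ∀ y ∈ π, y ∈ G.erase x := fun y hy =>
      mem_erase.2 ⟨fun h => hnd.1 (h ▸ hy), hG y (List.mem_cons_of_mem _ hy)⟩
    have hρ' : ∀ g ∈ G.erase x, 0 ≤ ρ g := fun g hg => hρ g (mem_of_mem_erase hg)
    have hsG : 0 ≤ ∑ g ∈ G, ρ g := sum_nonneg hρ
    have h1 : 0 ≤ ρ x / (N - ∑ h ∈ W, ρ h) := div_nonneg (hρ x hxG) (by linarith)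
    have hsum : ρ x + ∑ g ∈ G.erase x, ρ g = ∑ g ∈ G, ρ g := add_sum_erase _ _ hxG
    unfold kc
    split_ifs with hM
    · have hxM : x ∈ M ∩ G := mem_inter.2 ⟨hM, hxG⟩
      have hc : (M ∩ G.erase x).card + 1 = (M ∩ G).card := by
        have e : M ∩ G.erase x = (M ∩ G).erase x := by
          ext y; simp only [mem_inter, mem_erase]; tauto
        rw [e, card_erase_of_mem hxM]
        have : 0 < (M ∩ G).card := card_pos.2 ⟨x, hxM⟩
        omega
      have h2 : (0 : ℝ) ≤ (M.card : ℝ) / ((M.card : ℝ) - k) := by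
        apply div_nonneg (Nat.cast_nonneg _)
        have : (k : ℝ) ≤ M.card := by
          have : k ≤ M.card := by omega
          exact_mod_cast this
        linarith
      refine mul_nonneg (mul_nonneg h1 h2) (ih W (k + 1) (G.erase x) hnd.2 hG' hρ' ?_ ?_ ?_)
      · exact hd.mono_right (erase_subset _ _)
      · have := hρ x hxG
        linarith
      · omega
    · have hxW : x ∉ W := fun h => (Finset.disjoint_left.1 hd h) hxG
      refine mul_nonneg h1 (ih (insert x W) k (G.erase x) hnd.2 hG' hρ' ?_ ?_ ?_)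
      · rw [Finset.disjoint_left]
        intro y hy hy2
        rw [mem_erase] at hy2
        rcases mem_insert.1 hy with h | h
        · exact hy2.1 h
        · exact (Finset.disjoint_left.1 hd h) hy2.2
      · rw [sum_insert hxW]
        linarith
      · have : (M ∩ G.erase x).card ≤ (M ∩ G).card :=
          card_le_card (inter_subset_inter_left (erase_subset _ _))
        omega

/-! ### shifting the orders -/

section net

variable {α : Type} [Fintype α] [DecidableEq α] {c : Finset α → Lab} {i j : ℕ}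
  {S T : Finset (Finset α)} {a b : Finset α → ℝ}

/-- The densities. -/
noncomputable def rh (c : Finset α → Lab) (T : Finset (Finset α)) (a b : Finset α → ℝ)
    (s : Finset α) (X : Finset α) (g : α) : ℝ :=
  MU c T a b s (s ∪ insert g X) / MU c T a b s (s ∪ X)

/-- The kernel of the `S`-side. -/
noncomputable def qk (c : Finset α → Lab) (i j : ℕ) (T : Finset (Finset α)) (a b : Finset α → ℝ)
    (mk : Finset α → Finset α → Finset α) (vp s X : Finset α) (π : List α) : ℝ :=
  kc (rh c T a b s X) (mk s vp) (((j : ℝ) - i - X.card) -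
    ∑ g ∈ (vp \ s) \ X, rh c T a b s X g) π ∅ 0

theorem rh_nonneg (h : Net c i j S T a b) {s : Finset α} (hs : s ∈ S) (X : Finset α) (g : α) :
    0 ≤ rh c T a b s X g :=
  div_nonneg (h.MU_nonneg hs _) (h.MU_nonneg hs _)

theorem rh_pos (h : Net c i j S T a b) {s X t : Finset α} (hs : s ∈ S) (ht : t ∈ T)
    (hst : s ⊆ t) (hX : X ⊆ t) {g : α} (hg : g ∈ t) : 0 < rh c T a b s X g :=
  div_pos (h.MU_pos hs ht (union_subset hst (insert_subset hg hX)))
    (h.MU_pos hs ht (union_subset hst hX))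

/-- The available mass. -/
theorem rh_avail (h : Net c i j S T a b) {s X v vp t : Finset α} (hs : s ∈ S) (ht : t ∈ T)
    (hsv : s ⊆ v) (hX : X ⊆ v \ s) (hvp : v ⊆ vp) (hvt : vp ⊆ t) :
    (∑ g ∈ (vp \ s) \ X, rh c T a b s X g) + ∑ g ∈ univ \ vp, rh c T a b s X g =
      (j : ℝ) - i - X.card := by
  have hd : Disjoint s X := by
    rw [Finset.disjoint_left]
    intro y h1 h2
    exact (mem_sdiff.1 (hX h2)).2 h1
  have hXt : X ⊆ t := (hX.trans sdiff_subset).trans (hvp.trans hvt)
  have hst : s ⊆ t := hsv.trans (hvp.trans hvt)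
  have h1 := h.rho_sum hs hd (h.MU_pos hs ht (union_subset hst hXt))
  rw [← h1, ← sum_union]
  · refine sum_congr ?_ fun _ _ => rfl
    ext y
    simp only [mem_union, mem_sdiff, mem_univ, true_and, not_or]
    constructor
    · rintro (⟨⟨_, h3⟩, h4⟩ | h2)
      · exact ⟨h3, h4⟩
      · exact ⟨fun h3 => h2 (hvp (hsv h3)), fun h3 => h2 (hvp (mem_sdiff.1 (hX h3)).1)⟩
    · rintro ⟨h3, h4⟩
      by_cases h2 : y ∈ vp
      · exact Or.inl ⟨⟨h2, h3⟩, h4⟩
      · exact Or.inr h2
  · rw [Finset.disjoint_left]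
    intro y h2 h3
    simp only [mem_sdiff, mem_univ, true_and] at h2 h3
    exact h3 h2.1.1

/-- Positivity and logarithm of the kernel. -/
theorem qk_log (hKL : Stmt_KLOG α) (h : Net c i j S T a b)
    (mk : Finset α → Finset α → Finset α) {s X v vp t : Finset α} (hs : s ∈ S) (ht : t ∈ T)
    (hsv : s ⊆ v) (hX : X ⊆ v \ s) (hvp : v ⊆ vp) (hvt : vp ⊆ t) (hvj : v.card < j)
    {π : List α} (hπ : π ∈ seqs (t \ vp).card (t \ vp)) :
    0 < qk c i j T a b mk vp s X π ∧
    Real.log ((t \ vp).card.factorial : ℝ) + Real.log (qk c i j T a b mk vp s X π) =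
      KV (rh c T a b s) (fun U => mk s (s ∪ U)) (t \ s) X (vp \ s) +
      csum (SS (rh c T a b s) (fun U => mk s (s ∪ U)) (t \ s) X (vp \ s)) (vp \ s) π := by
  have hst : s ⊆ t := hsv.trans (hvp.trans hvt)
  have hsvp : s ⊆ vp := hsv.trans hvp
  have hXt : X ⊆ t := (hX.trans sdiff_subset).trans (hvp.trans hvt)
  have hav := rh_avail h hs ht hsv hX hvp hvt
  have hn : (0 : ℝ) < (j : ℝ) - i - X.card := by
    have h1 : X.card ≤ (v \ s).card := card_le_card hX
    rw [card_sdiff_of_subset hsv, h.cS s hs] at h1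
    have h2 : i ≤ v.card := by rw [← h.cS s hs]; exact card_le_card hsv
    have h3 : i + X.card < j := by omega
    have h4 : (i : ℝ) + X.card < j := by exact_mod_cast h3
    linarith
  have hsub : t \ vp ⊆ univ \ vp := sdiff_subset_sdiff (subset_univ _) (Subset.refl _)
  have hle : (∑ g ∈ (vp \ s) \ X, rh c T a b s X g) + ∑ g ∈ t \ vp, rh c T a b s X g ≤
      (j : ℝ) - i - X.card := by
    have := sum_le_sum_of_subset_of_nonneg hsub
      (fun g _ _ => rh_nonneg h hs X g)
    linarith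
  have hdis : Disjoint (vp \ s) (t \ vp) := by
    rw [Finset.disjoint_left]
    intro y h1 h2
    exact (mem_sdiff.1 h2).2 (mem_sdiff.1 h1).1
  have hXU : X ⊆ vp \ s := hX.trans (sdiff_subset_sdiff hvp (Subset.refl _))
  obtain ⟨k1, k2⟩ := hKL (rh c T a b s X) ((j : ℝ) - i - X.card) X (vp \ s) (mk s vp) (t \ vp)
    hXU hdis (fun g _ => rh_nonneg h hs X g)
    (fun g hg => rh_pos h hs ht hst hXt (mem_sdiff.1 hg).1) hn hle π hπ
  refine ⟨k1, ?_⟩
  unfold qk
  rw [k2]
  unfold KV SS gm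
  have eU : s ∪ (vp \ s) = vp := union_sdiff_of_subset hsvp
  have eD : (t \ s) \ (vp \ s) = t \ vp := by
    ext z
    simp only [mem_sdiff, not_and, not_not]
    constructor
    · rintro ⟨⟨h1, h2⟩, h3⟩
      exact ⟨h1, fun h4 => h2 (h3 h4)⟩
    · rintro ⟨h1, h2⟩
      exact ⟨⟨h1, fun h3 => h2 (hsvp h3)⟩, fun h3 => absurd h3 h2⟩
  have c1 : ((t \ s).card : ℝ) = (j : ℝ) - i := by
    rw [card_sdiff_cast hst, h.cS s hs, h.cT t ht]
  have c2 : (t \ s).card - (vp \ s).card = (t \ vp).card := by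
    rw [card_sdiff_of_subset hst, card_sdiff_of_subset hsvp, card_sdiff_of_subset hvt]
    have := card_le_card hsvp
    have := card_le_card hvt
    omega
  have c3 : ((t \ s).card : ℝ) - ((vp \ s).card : ℝ) = ((t \ vp).card : ℝ) := by
    rw [card_sdiff_cast hst, card_sdiff_cast hsvp, card_sdiff_cast hvt]
    ring
  beta_reduce
  rw [eU, eD, c2, c3, c1]
  ring

/-- The kernel is a sub-probability. -/
theorem qk_sum (hKS : Stmt_KSUM α) (h : Net c i j S T a b)
    (mk : Finset α → Finset α → Finset α) (hmk : ∀ s u, Disjoint (mk s u) u)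
    {s X v vp : Finset α} (hs : s ∈ S) (hsv : s ⊆ v) (hX : X ⊆ v \ s) (hvp : v ⊆ vp)
    (T' : Finset (Finset α)) (hT' : ∀ t ∈ T', t ∈ T ∧ vp ⊆ t) :
    ∑ t ∈ T', ∑ π ∈ seqs (j - vp.card) (t \ vp), qk c i j T a b mk vp s X π ≤ 1 := by
  rcases T'.eq_empty_or_nonempty with hE | ⟨t0, ht0⟩
  · rw [hE, sum_empty]
    exact zero_le_one
  obtain ⟨ht0T, ht0v⟩ := hT' t0 ht0
  have hav := rh_avail h hs ht0T hsv hX hvp ht0v
  have hMG : mk s vp ⊆ univ \ vp := by
    intro y hy
    rw [mem_sdiff]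
    exact ⟨mem_univ _, fun h1 => (Finset.disjoint_left.1 (hmk s vp) hy) h1⟩
  have hN : ∑ g ∈ univ \ vp, rh c T a b s X g ≤
      ((j : ℝ) - i - X.card) - ∑ g ∈ (vp \ s) \ X, rh c T a b s X g := by linarith
  refine le_trans ?_ (hKS (rh c T a b s X) (mk s vp) (univ \ vp) _ (j - vp.card) hMG
    (fun g _ => rh_nonneg h hs X g) hN)
  rw [← sum_biUnion]
  · refine sum_le_sum_of_subset_of_nonneg ?_ ?_
    · intro π hπ
      rw [mem_biUnion] at hπ
      obtain ⟨t, _, hπ⟩ := hπ
      exact seqs_mono (sdiff_subset_sdiff (subset_univ _) (Subset.refl _)) hπ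
    · intro π hπ _
      obtain ⟨h1, _, h3⟩ := mem_seqs.1 hπ
      refine kc_nonneg _ _ _ π ∅ 0 (univ \ vp) h1 h3 (fun g _ => rh_nonneg h hs X g)
        (disjoint_empty_left _) ?_ ?_
      · rw [sum_empty, zero_add]
        exact hN
      · rw [Nat.zero_add]
        exact card_le_card inter_subset_left
  · intro t ht t' ht' hne
    rw [Function.onFun, Finset.disjoint_left]
    intro π h1 h2
    apply hne
    have h3 := hT' t (mem_coe.1 ht)
    have h4 := hT' t' (mem_coe.1 ht')
    have c1 : (t \ vp).card = j - vp.card := by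
      rw [card_sdiff_of_subset h3.2, h.cT t h3.1]
    have c2 : (t' \ vp).card = j - vp.card := by
      rw [card_sdiff_of_subset h4.2, h.cT t' h4.1]
    rw [← c1] at h1
    rw [← c2] at h2
    rw [← union_sdiff_of_subset h3.2, ← union_sdiff_of_subset h4.2,
      ← toFinset_eq_of_mem_seqs h1, ← toFinset_eq_of_mem_seqs h2]

end net

end R5

end

section

/-! Block TYPEQ. -/

namespace R5

open Finset

variable {α : Type} [DecidableEq α]

namespace TypeQ

open TypeAux

theorem edge_constQ {τ : Finset α → Lab} {D V : Finset α} {x : α} (h0 : τ ∅ = Lab.A) (hV : V ⊆ D)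
    (hx : x ∈ D \ V) : yLe τ D V x * (Real.log (((V.card : ℝ) + 1) / ((D.card : ℝ) + 1)) +
      Real.log (Zt τ D / y1e τ D V)) = yLe τ D V x *
      (-Real.log (aw τ V / (((V.card : ℝ) + 1) * Zt τ D)) +
        (Real.log (D.card.factorial : ℝ) - Real.log (V.card.factorial : ℝ) -
          Real.log ((D.card - (V.card + 1)).factorial : ℝ))) := by
  have hZ := TypeAux.Zt_pos (D := D) h0
  have hlt : V.card < D.card := by
    have hx' := mem_sdiff.1 hx
    have := card_le_card (insert_subset hx'.1 hV)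
    rw [card_insert_of_notMem hx'.2] at this
    omega
  have hC : (0 : ℝ) < (D.card.choose V.card : ℝ) := choose_pos_real hlt.le
  have hk : (0 : ℝ) < (D.card : ℝ) - V.card := by
    have : (V.card : ℝ) < D.card := by exact_mod_cast hlt
    linarith
  have ha : 0 < aw τ V := lt_of_lt_of_le one_pos (one_le_aw h0 V)
  rw [← log_choose' hlt]
  congr 1
  unfold y1e
  rw [← Real.log_inv, ← Real.log_mul (by positivity) (by positivity),
    ← Real.log_mul (by positivity) (by positivity)]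
  congr 1
  field_simp

theorem vert_constQ {τ : Finset α → Lab} {D V : Finset α} (h0 : τ ∅ = Lab.A) (hD : D.Nonempty)
    (hV : V ⊆ D) : yLv τ D V * (Real.log ((V.card : ℝ) / (D.card : ℝ)) +
      Real.log (Zt τ D / y1v τ D V)) = yLv τ D V *
      (-Real.log (aw τ V * (D.card : ℝ) / (((D.card : ℝ) + 1) * (V.card : ℝ) * Zt τ D)) +
        (Real.log (D.card.factorial : ℝ) - Real.log (V.card.factorial : ℝ) -
          Real.log ((D.card - V.card).factorial : ℝ))) := by
  have hZ := TypeAux.Zt_pos (D := D) h0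
  by_cases hy : yLv τ D V = 0
  · rw [hy]; ring
  have hX : τ V = Lab.X := by
    by_contra he
    apply hy
    unfold yLv
    rw [if_neg he]
  have hV0 : V.Nonempty := by
    rw [nonempty_iff_ne_empty]
    rintro rfl
    rw [h0] at hX
    exact absurd hX (by decide)
  have hk : (0 : ℝ) < (V.card : ℝ) := by exact_mod_cast card_pos.2 hV0
  have hl : (0 : ℝ) < (D.card : ℝ) := by exact_mod_cast card_pos.2 hD
  have hC : (0 : ℝ) < (D.card.choose V.card : ℝ) := choose_pos_real (card_le_card hV)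
  have ha : 0 < aw τ V := lt_of_lt_of_le one_pos (one_le_aw h0 V)
  rw [← log_choose (card_le_card hV)]
  congr 1
  unfold y1v
  rw [← Real.log_inv, ← Real.log_mul (by positivity) (by positivity),
    ← Real.log_mul (by positivity) (by positivity)]
  congr 1
  field_simp

/-- `KV` without the gain of the marks. -/
noncomputable def KW (ρ : Finset α → α → ℝ) (D X U : Finset α) : ℝ :=
  Real.log ((D.card - U.card).factorial : ℝ) -
    ((D.card : ℝ) - U.card) * Real.log ((D.card : ℝ) - X.card) +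
    ∑ g ∈ D \ U, Real.log (ρ X g)

theorem sdiff_sum {D X V : Finset α} (hXV : X ⊆ V) (f : α → ℝ) :
    ∑ g ∈ D \ V, f g = ∑ g ∈ D \ X, if g ∈ V then 0 else f g := by
  have e : D \ V = (D \ X).filter (fun g => g ∉ V) := by
    ext g
    simp only [mem_sdiff, mem_filter]
    constructor
    · rintro ⟨h1, h2⟩; exact ⟨⟨h1, fun h => h2 (hXV h)⟩, h2⟩
    · rintro ⟨⟨h1, _⟩, h2⟩; exact ⟨h1, h2⟩
  rw [e, sum_filter]
  refine sum_congr rfl fun g _ => ?_
  rw [ite_not]

theorem KW_eq (ρ : Finset α → α → ℝ) {D X V : Finset α} {x : α} (hx : x ∈ D \ V)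
    (hXV : X ⊆ V) :
    KW ρ D X (insert x V) + (Real.log (D.card.factorial : ℝ) - Real.log (V.card.factorial : ℝ) -
          Real.log ((D.card - (V.card + 1)).factorial : ℝ)) =
      (Real.log (D.card.factorial : ℝ) - Real.log (V.card.factorial : ℝ) -
        ((D.card : ℝ) - V.card) * Real.log ((D.card : ℝ) - X.card)) +
      Real.log ((D.card : ℝ) - X.card) +
      (∑ g ∈ D \ X, if g ∈ insert x V then 0 else Real.log (ρ X g)) := by
  have hx' := mem_sdiff.1 hx
  have hc : (insert x V).card = V.card + 1 := card_insert_of_notMem hx'.2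
  have hXU : X ⊆ insert x V := hXV.trans (subset_insert _ _)
  unfold KW
  rw [← sdiff_sum hXU, hc]
  push_cast
  ring

theorem KW_eq' (ρ : Finset α → α → ℝ) {D X V : Finset α} (hXV : X ⊆ V) :
    KW ρ D X V + (Real.log (D.card.factorial : ℝ) - Real.log (V.card.factorial : ℝ) -
          Real.log ((D.card - V.card).factorial : ℝ)) =
      (Real.log (D.card.factorial : ℝ) - Real.log (V.card.factorial : ℝ) -
        ((D.card : ℝ) - V.card) * Real.log ((D.card : ℝ) - X.card)) +
      (∑ g ∈ D \ X, if g ∈ V then 0 else Real.log (ρ X g)) := by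
  unfold KW
  rw [← sdiff_sum hXV]
  ring

theorem XLQ (hSWL : Stmt_SWL α) (τ : Finset α → Lab) {D X : Finset α} (hX : X ⊆ D)
    (ρ : Finset α → α → ℝ) :
    (∑ V ∈ D.powerset, ∑ x ∈ D \ V, pe τ D X V x * (KW ρ D X (insert x V) +
      (Real.log (D.card.factorial : ℝ) - Real.log (V.card.factorial : ℝ) -
          Real.log ((D.card - (V.card + 1)).factorial : ℝ)))) +
    (∑ V ∈ D.powerset, pv τ D X V * (KW ρ D X V +
      (Real.log (D.card.factorial : ℝ) - Real.log (V.card.factorial : ℝ) -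
          Real.log ((D.card - V.card).factorial : ℝ)))) =
    (∑ V ∈ D.powerset, ((∑ x ∈ D \ V, pe τ D X V x) + pv τ D X V) *
      (Real.log (D.card.factorial : ℝ) - Real.log (V.card.factorial : ℝ) -
        ((D.card : ℝ) - V.card) * Real.log ((D.card : ℝ) - X.card))) +
    Real.log ((D.card : ℝ) - X.card) * (∑ g ∈ D \ X, PP1 τ D X g) +
    (∑ g ∈ D \ X, (sw τ D X g - PP1 τ D X g) * Real.log (ρ X g)) := by
  have e1 : ∀ V ∈ D.powerset, ∀ x ∈ D \ V, pe τ D X V x * (KW ρ D X (insert x V) +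
      (Real.log (D.card.factorial : ℝ) - Real.log (V.card.factorial : ℝ) -
          Real.log ((D.card - (V.card + 1)).factorial : ℝ))) =
      pe τ D X V x * (Real.log (D.card.factorial : ℝ) - Real.log (V.card.factorial : ℝ) -
        ((D.card : ℝ) - V.card) * Real.log ((D.card : ℝ) - X.card)) +
      pe τ D X V x * Real.log ((D.card : ℝ) - X.card) +
      (∑ g ∈ D \ X, (if g ∈ insert x V then 0 else pe τ D X V x) * Real.log (ρ X g)) := by
    intro V hV x hx
    by_cases hXV : X ⊆ V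
    · rw [KW_eq ρ hx hXV, mul_add, mul_add]
      congr 1
      rw [mul_sum]
      refine sum_congr rfl fun g _ => ?_
      split_ifs <;> ring
    · rw [pe_eq_zero hXV]; simp
  have e2 : ∀ V ∈ D.powerset, pv τ D X V * (KW ρ D X V +
      (Real.log (D.card.factorial : ℝ) - Real.log (V.card.factorial : ℝ) -
          Real.log ((D.card - V.card).factorial : ℝ))) =
      pv τ D X V * (Real.log (D.card.factorial : ℝ) - Real.log (V.card.factorial : ℝ) -
        ((D.card : ℝ) - V.card) * Real.log ((D.card : ℝ) - X.card)) +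
      (∑ g ∈ D \ X, (if g ∈ V then 0 else pv τ D X V) * Real.log (ρ X g)) := by
    intro V hV
    by_cases hXV : X ⊆ V
    · rw [KW_eq' ρ hXV, mul_add]
      congr 1
      rw [mul_sum]
      refine sum_congr rfl fun g _ => ?_
      split_ifs <;> ring
    · rw [pv_eq_zero hXV]; simp
  rw [sum_congr rfl (fun V hV => sum_congr rfl (e1 V hV)), sum_congr rfl e2]
  simp only [sum_add_distrib]
  -- the coefficient of `log ρ`
  have c1 : (∑ V ∈ D.powerset, ∑ x ∈ D \ V, ∑ g ∈ D \ X,
        (if g ∈ insert x V then 0 else pe τ D X V x) * Real.log (ρ X g)) +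
      (∑ V ∈ D.powerset, ∑ g ∈ D \ X, (if g ∈ V then 0 else pv τ D X V) * Real.log (ρ X g)) =
      ∑ g ∈ D \ X, (sw τ D X g - PP1 τ D X g) * Real.log (ρ X g) := by
    have s1 : (∑ V ∈ D.powerset, ∑ x ∈ D \ V, ∑ g ∈ D \ X,
        (if g ∈ insert x V then 0 else pe τ D X V x) * Real.log (ρ X g)) =
        ∑ g ∈ D \ X, (∑ V ∈ D.powerset, ∑ x ∈ D \ V,
          (if g ∈ insert x V then 0 else pe τ D X V x)) * Real.log (ρ X g) := by
      rw [sum_congr rfl (fun V _ => sum_comm), sum_comm]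
      refine sum_congr rfl fun g _ => ?_
      rw [sum_mul]
      refine sum_congr rfl fun V _ => ?_
      rw [sum_mul]
    have s2 : (∑ V ∈ D.powerset, ∑ g ∈ D \ X, (if g ∈ V then 0 else pv τ D X V) *
        Real.log (ρ X g)) = ∑ g ∈ D \ X, (∑ V ∈ D.powerset,
          (if g ∈ V then 0 else pv τ D X V)) * Real.log (ρ X g) := by
      rw [sum_comm]
      refine sum_congr rfl fun g _ => ?_
      rw [sum_mul]
    rw [s1, s2, ← sum_add_distrib]
    refine sum_congr rfl fun g hg => ?_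
    rw [← add_mul]
    congr 1
    have s3 := hSWL τ D X g hX hg
    rw [sum_add_distrib] at s3
    have s4 : ∀ V ∈ D.powerset, ∑ x ∈ D \ V, (if g ∈ insert x V then 0 else pe τ D X V x) =
        if g ∈ V then 0 else ((∑ x ∈ D \ V, pe τ D X V x) - pe τ D X V g) := by
      intro V hV
      split_ifs with hgV
      · apply sum_eq_zero
        intro x _
        rw [if_pos (mem_insert_of_mem hgV)]
      · have hgD : g ∈ D \ V := mem_sdiff.2 ⟨(mem_sdiff.1 hg).1, hgV⟩
        rw [← add_sum_erase _ (fun x => pe τ D X V x) hgD, ← add_sum_erase _ _ hgD,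
          if_pos (mem_insert_self _ _), zero_add, add_sub_cancel_left]
        refine sum_congr rfl fun x hx => ?_
        rw [if_neg]
        rw [mem_insert, not_or]
        exact ⟨fun h => (mem_erase.1 hx).1 h.symm, hgV⟩
    rw [sum_congr rfl s4, sum_notMem, sum_notMem, sum_sub_distrib]
    unfold sw PP1
    rw [← s3]
    ring
  have c3 : ∑ V ∈ D.powerset, ∑ x ∈ D \ V, pe τ D X V x * Real.log ((D.card : ℝ) - X.card) =
      Real.log ((D.card : ℝ) - X.card) * (∑ g ∈ D \ X, PP1 τ D X g) := by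
    rw [← sum_pe, mul_comm, sum_mul]
    refine sum_congr rfl fun V _ => ?_
    rw [sum_mul]
  have c4 : (∑ V ∈ D.powerset, ((∑ x ∈ D \ V, pe τ D X V x) + pv τ D X V) *
      (Real.log (D.card.factorial : ℝ) - Real.log (V.card.factorial : ℝ) -
        ((D.card : ℝ) - V.card) * Real.log ((D.card : ℝ) - X.card))) =
      (∑ V ∈ D.powerset, ∑ x ∈ D \ V, pe τ D X V x *
        (Real.log (D.card.factorial : ℝ) - Real.log (V.card.factorial : ℝ) -
        ((D.card : ℝ) - V.card) * Real.log ((D.card : ℝ) - X.card))) +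
      ∑ V ∈ D.powerset, pv τ D X V * (Real.log (D.card.factorial : ℝ) -
        Real.log (V.card.factorial : ℝ) -
        ((D.card : ℝ) - V.card) * Real.log ((D.card : ℝ) - X.card)) := by
    rw [← sum_add_distrib]
    refine sum_congr rfl fun V _ => ?_
    rw [add_mul, sum_mul]
  rw [← c1, c3, c4]
  ring

/-- The terms of the slot costs and of the marks. -/
noncomputable def CS (τ : Finset α → Lab) (D : Finset α) (ρ : Finset α → α → ℝ)
    (mk : Finset α → Finset α) : ℝ :=
  ∑ X ∈ D.powerset,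
    ((∑ V ∈ D.powerset, ∑ x ∈ D \ V,
      (pe1 τ D X V x * ec τ D (SS ρ mk D X (insert x V)) (insert x V) +
        pe τ D X V x * gm mk D (insert x V))) +
    ∑ V ∈ D.powerset, (pv1 τ D X V * ev τ D (SS ρ mk D X V) V + pv τ D X V * gm mk D V))

theorem SGc_eq (τ : Finset α → Lab) (D : Finset α) (ρ : Finset α → α → ℝ)
    (mk : Finset α → Finset α) :
    SGc τ D ρ mk = (∑ X ∈ D.powerset, ∑ g ∈ D \ X,
      PP1 τ D X g * (Real.log ((D \ X).card : ℝ) - Real.log (ρ X g))) + CS τ D ρ mk := by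
  unfold SGc CS
  rw [← sum_add_distrib]
  refine sum_congr rfl fun X _ => ?_
  ring

theorem LVc_split (τ : Finset α → Lab) (D : Finset α) (ρ : Finset α → α → ℝ)
    (mk : Finset α → Finset α) :
    (∑ X ∈ D.powerset,
    ((∑ V ∈ D.powerset, ∑ x ∈ D \ V, (pe τ D X V x * KV ρ mk D X (insert x V) +
        pe1 τ D X V x * ec τ D (SS ρ mk D X (insert x V)) (insert x V))) +
    ∑ V ∈ D.powerset, (pv τ D X V * KV ρ mk D X V +
        pv1 τ D X V * ev τ D (SS ρ mk D X V) V))) =
    (∑ X ∈ D.powerset, ((∑ V ∈ D.powerset, ∑ x ∈ D \ V,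
      pe τ D X V x * KW ρ D X (insert x V)) + ∑ V ∈ D.powerset, pv τ D X V * KW ρ D X V)) +
      CS τ D ρ mk := by
  unfold CS
  rw [← sum_add_distrib]
  refine sum_congr rfl fun X _ => ?_
  have h1 : ∀ U, KV ρ mk D X U = KW ρ D X U + gm mk D U := fun U => rfl
  simp only [h1, mul_add, sum_add_distrib]
  ring

theorem LSIDEQ (hY : Stmt_YSUM α) (hSWL : Stmt_SWL α) (τ : Finset α → Lab)
    (D : Finset α) (μ H : Finset α → ℝ) (mk : Finset α → Finset α) (h0 : τ ∅ = Lab.A)
    (hD : D.Nonempty) (hμ : ∀ V ⊆ D, 0 < μ V) :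
    SGc τ D (fun X g => μ (insert g X) / μ X) mk - (∑ X ∈ D.powerset, ∑ g ∈ D \ X,
        sw τ D X g * (-Real.log (μ (insert g X)) - -Real.log (μ X))) + KL τ D +
      ((∑ V ∈ D.powerset, ∑ x ∈ D \ V, yLe τ D V x * H V) +
        ∑ V ∈ D.powerset, yLv τ D V * H V) - CL1 τ D (Zt τ D) +
      Real.log (D.card : ℝ) * (∑ V ∈ D.powerset, yLv τ D V) =
    LVc τ D (fun X g => μ (insert g X) / μ X) mk H := by
  set ρ : Finset α → α → ℝ := fun X g => μ (insert g X) / μ X with hρ
  -- constants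
  have b1 : (∑ V ∈ D.powerset, ∑ x ∈ D \ V, yLe τ D V x *
      (Real.log (((V.card : ℝ) + 1) / ((D.card : ℝ) + 1)) + H V +
      Real.log (Zt τ D / y1e τ D V))) =
      (∑ V ∈ D.powerset, ∑ x ∈ D \ V, yLe τ D V x * H V) -
      (∑ V ∈ D.powerset, ∑ x ∈ D \ V, yLe τ D V x *
        Real.log (aw τ V / (((V.card : ℝ) + 1) * Zt τ D))) +
      ∑ X ∈ D.powerset, ∑ V ∈ D.powerset, ∑ x ∈ D \ V, pe τ D X V x *
        (Real.log (D.card.factorial : ℝ) - Real.log (V.card.factorial : ℝ) -
          Real.log ((D.card - (V.card + 1)).factorial : ℝ)) := by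
    rw [sum_comm (s := D.powerset) (t := D.powerset), ← sum_sub_distrib, ← sum_add_distrib]
    refine sum_congr rfl fun V hV => ?_
    rw [sum_comm (s := D.powerset), ← sum_sub_distrib, ← sum_add_distrib]
    refine sum_congr rfl fun x hx => ?_
    rw [← sum_mul, (hY τ D V (mem_powerset.1 hV)).1 x hx]
    have h1 := edge_constQ (x := x) h0 (mem_powerset.1 hV) hx
    have h2 : yLe τ D V x * (Real.log (((V.card : ℝ) + 1) / ((D.card : ℝ) + 1)) + H V +
      Real.log (Zt τ D / y1e τ D V)) = yLe τ D V x *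
      (Real.log (((V.card : ℝ) + 1) / ((D.card : ℝ) + 1)) +
      Real.log (Zt τ D / y1e τ D V)) + yLe τ D V x * H V := by ring
    rw [h2, h1]
    ring
  have b2 : (∑ V ∈ D.powerset, yLv τ D V *
      (Real.log (D.card : ℝ) + Real.log ((V.card : ℝ) / (D.card : ℝ)) + H V +
      Real.log (Zt τ D / y1v τ D V))) =
      Real.log (D.card : ℝ) * (∑ V ∈ D.powerset, yLv τ D V) +
      (∑ V ∈ D.powerset, yLv τ D V * H V) -
      (∑ V ∈ D.powerset, yLv τ D V *
        Real.log (aw τ V * (D.card : ℝ) /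
          (((D.card : ℝ) + 1) * (V.card : ℝ) * Zt τ D))) +
      ∑ X ∈ D.powerset, ∑ V ∈ D.powerset, pv τ D X V *
        (Real.log (D.card.factorial : ℝ) - Real.log (V.card.factorial : ℝ) -
          Real.log ((D.card - V.card).factorial : ℝ)) := by
    rw [sum_comm (s := D.powerset) (t := D.powerset), mul_sum, ← sum_add_distrib,
      ← sum_sub_distrib, ← sum_add_distrib]
    refine sum_congr rfl fun V hV => ?_
    rw [← sum_mul, (hY τ D V (mem_powerset.1 hV)).2]
    have h1 := vert_constQ (τ := τ) h0 hD (mem_powerset.1 hV)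
    have h2 : yLv τ D V * (Real.log (D.card : ℝ) + Real.log ((V.card : ℝ) / (D.card : ℝ)) + H V +
      Real.log (Zt τ D / y1v τ D V)) = yLv τ D V *
      (Real.log ((V.card : ℝ) / (D.card : ℝ)) +
      Real.log (Zt τ D / y1v τ D V)) + yLv τ D V * H V + yLv τ D V * Real.log (D.card : ℝ) := by
      ring
    rw [h2, h1]
    ring
  have b3 : (∑ X ∈ D.powerset, ((∑ V ∈ D.powerset, ∑ x ∈ D \ V,
      pe τ D X V x * KW ρ D X (insert x V)) + ∑ V ∈ D.powerset, pv τ D X V * KW ρ D X V)) +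
      (∑ X ∈ D.powerset, ∑ V ∈ D.powerset, ∑ x ∈ D \ V, pe τ D X V x *
        (Real.log (D.card.factorial : ℝ) - Real.log (V.card.factorial : ℝ) -
          Real.log ((D.card - (V.card + 1)).factorial : ℝ))) +
      (∑ X ∈ D.powerset, ∑ V ∈ D.powerset, pv τ D X V *
        (Real.log (D.card.factorial : ℝ) - Real.log (V.card.factorial : ℝ) -
          Real.log ((D.card - V.card).factorial : ℝ))) =
      KL τ D + ∑ X ∈ D.powerset,
        (Real.log ((D.card : ℝ) - X.card) * (∑ g ∈ D \ X, PP1 τ D X g) +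
        (∑ g ∈ D \ X, (sw τ D X g - PP1 τ D X g) * Real.log (ρ X g))) := by
    unfold KL
    rw [← sum_add_distrib, ← sum_add_distrib, ← sum_add_distrib]
    refine sum_congr rfl fun X hX => ?_
    have h1 := XLQ hSWL τ (mem_powerset.1 hX) ρ
    simp only [mul_add, sum_add_distrib] at h1
    linarith
  have b4 : ∀ X ∈ D.powerset, ∀ g ∈ D \ X,
      PP1 τ D X g * (Real.log ((D \ X).card : ℝ) - Real.log (ρ X g)) -
        sw τ D X g * (-Real.log (μ (insert g X)) - -Real.log (μ X)) =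
      Real.log ((D.card : ℝ) - X.card) * PP1 τ D X g +
        (sw τ D X g - PP1 τ D X g) * Real.log (ρ X g) := by
    intro X hX g hg
    have hX' := mem_powerset.1 hX
    have hg' := mem_sdiff.1 hg
    have hm1 : 0 < μ X := hμ X hX'
    have hm2 : 0 < μ (insert g X) := hμ _ (insert_subset hg'.1 hX')
    have hlog : Real.log (ρ X g) = Real.log (μ (insert g X)) - Real.log (μ X) := by
      rw [hρ]
      exact Real.log_div hm2.ne' hm1.ne'
    have hc : ((D \ X).card : ℝ) = (D.card : ℝ) - X.card := card_sdiff_cast hX'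
    rw [← hc, hlog]
    ring
  have b5 := sum_congr rfl (fun X hX => sum_congr rfl (b4 X hX))
  unfold LVc
  rw [b1, b2, LVc_split, SGc_eq]
  unfold CL1
  have b6 : ∑ X ∈ D.powerset, ∑ g ∈ D \ X,
      (PP1 τ D X g * (Real.log ((D \ X).card : ℝ) - Real.log (ρ X g)) -
        sw τ D X g * (-Real.log (μ (insert g X)) - -Real.log (μ X))) =
      (∑ X ∈ D.powerset, ∑ g ∈ D \ X, PP1 τ D X g * (Real.log ((D \ X).card : ℝ) -
        Real.log (ρ X g))) -
      ∑ X ∈ D.powerset, ∑ g ∈ D \ X,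
        sw τ D X g * (-Real.log (μ (insert g X)) - -Real.log (μ X)) := by
    rw [← sum_sub_distrib]
    refine sum_congr rfl fun X _ => ?_
    rw [← sum_sub_distrib]
  have b7 : ∑ X ∈ D.powerset, ∑ g ∈ D \ X, (Real.log ((D.card : ℝ) - X.card) * PP1 τ D X g +
        (sw τ D X g - PP1 τ D X g) * Real.log (ρ X g)) =
      ∑ X ∈ D.powerset,
        (Real.log ((D.card : ℝ) - X.card) * (∑ g ∈ D \ X, PP1 τ D X g) +
        (∑ g ∈ D \ X, (sw τ D X g - PP1 τ D X g) * Real.log (ρ X g))) := by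
    refine sum_congr rfl fun X _ => ?_
    rw [sum_add_distrib, mul_sum]
  rw [b6, b7] at b5
  linarith [b3, b5]

end TypeQ

open TypeAux TypeQ in
theorem stmt_TYPEQ (hY : Stmt_YSUM α) (hM : Stmt_MASS α) (hSWL : Stmt_SWL α) (hSWF : Stmt_SWF α)
    (hC : Stmt_CONST α) : Stmt_TYPEQ α := by
  intro τ D μ ν mS mT h0 hDB hD hμ hν
  have d0 : dual τ D ∅ = Lab.A := by
    unfold dual
    rw [sdiff_empty, hDB]; rfl
  have dD : dual τ D D = Lab.B := by
    unfold dual
    rw [sdiff_self, bot_eq_empty, h0]; rfl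
  have L1 := LSIDEQ hY hSWL τ D μ (fun V => -Real.log (ν V)) mS h0 hD hμ
  have L2 := LSIDEQ hY hSWL (dual τ D) D (fun U => ν (D \ U)) (fun U => -Real.log (μ (D \ U))) mT
    d0 hD (fun V _ => hν _ sdiff_subset)
  have W1 := hSWF τ D (fun V => -Real.log (μ V)) h0 hDB
  have W2 := hSWF (dual τ D) D (fun U => -Real.log (ν (D \ U))) d0 dD
  have M1 := hM τ D h0 hDB
  have M2 := hM (dual τ D) D d0 dD
  have K := hC τ D h0 hDB
  rw [Zt_dual] at L2
  -- identify the H-terms
  have t1 : (∑ V ∈ D.powerset, ∑ x ∈ D \ V, yLe (dual τ D) D V x * -Real.log (μ (D \ V))) =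
      ∑ V ∈ D.powerset, ∑ x ∈ D \ V, yFe τ D V x * -Real.log (μ (insert x V)) := by
    rw [← sum_edge_compl]
    refine sum_congr rfl fun V hV => sum_congr rfl fun x hx => ?_
    rw [yLe_dual (mem_powerset.1 hV) hx, Finset.sdiff_sdiff_eq_self
      (insert_subset (mem_sdiff.1 hx).1 (mem_powerset.1 hV))]
  have t2 : (∑ V ∈ D.powerset, yLv (dual τ D) D V * -Real.log (μ (D \ V))) =
      ∑ V ∈ D.powerset, yFv τ D V * -Real.log (μ V) := by
    rw [← sum_powerset_compl]
    refine sum_congr rfl fun V hV => ?_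
    rw [yLv_dual (mem_powerset.1 hV), Finset.sdiff_sdiff_eq_self (mem_powerset.1 hV)]
  have t3 : (∑ V ∈ D.powerset, ∑ x ∈ D \ V, yFe (dual τ D) D V x *
        -Real.log (ν (D \ insert x V))) =
      ∑ V ∈ D.powerset, ∑ x ∈ D \ V, yLe τ D V x * -Real.log (ν V) := by
    rw [← sum_edge_compl D (fun V x => yLe τ D V x * -Real.log (ν V))]
    refine sum_congr rfl fun V hV => sum_congr rfl fun x hx => ?_
    have hx' := mem_sdiff.1 hx
    rw [← yLe_dual (mem_powerset.1 hV) hx, yLe_dd sdiff_subset]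
    rw [mem_sdiff, mem_sdiff]
    exact ⟨hx'.1, fun h => h.2 (mem_insert_self _ _)⟩
  have t4 : (∑ V ∈ D.powerset, yFv (dual τ D) D V * -Real.log (ν (D \ V))) =
      ∑ V ∈ D.powerset, yLv τ D V * -Real.log (ν V) := by
    rw [← sum_powerset_compl D (fun V => yLv τ D V * -Real.log (ν V))]
    refine sum_congr rfl fun V hV => ?_
    rw [← yLv_dual (mem_powerset.1 hV), yLv_dd sdiff_subset]
  simp only [t1, t2] at L2
  rw [t3, t4] at W2
  have e1 : ab (dual τ D) D ∅ = aw τ D := by rw [ab_dual, sdiff_empty]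
  have e2 : aw (dual τ D) D = ab τ D ∅ := by
    rw [aw_dual (Subset.refl _), sdiff_self, bot_eq_empty]
  rw [e1] at W2
  rw [e2] at M2
  simp only [sdiff_empty] at W2
  have hZ : Zt τ D = aw τ D / ((D.card : ℝ) + 1) + ab τ D ∅ / ((D.card : ℝ) + 1) := by
    unfold Zt; rw [add_div]
  unfold VALc COST1
  have hZl : Zt τ D * Real.log (D.card : ℝ) = Real.log (D.card : ℝ) * (PEL τ D +
      ∑ V ∈ D.powerset, yLv τ D V) + Real.log (D.card : ℝ) * (PEL (dual τ D) D +
      ∑ V ∈ D.powerset, yLv (dual τ D) D V) := by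
    rw [M1, M2, hZ]; ring
  rw [hZl]
  unfold sw at L1 L2
  linarith [L1, L2, W1, W2, K]

end R5

end

section

/-! # The engine: assembly of the blocks -/

namespace R5

theorem fq_ksum (α : Type) [DecidableEq α] : Stmt_KSUM α := stmt_KSUM α stmt_MACL

theorem fq_type (α : Type) [DecidableEq α] : Stmt_TYPEQ α :=
  stmt_TYPEQ stmt_YSUM (stmt_MASS stmt_GMASS) stmt_SWL stmt_SWF stmt_CONST

end R5

end
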