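import Mathlib
import Pool.Agent.Work.MP_8b6acb_full.P10

section

/-!
# Set-level values with general kernels (definitions)

Everything of `MP_8b6acb_cap` and `MP_8b6acb_fq` (namespace `R5`) is reused.  New (namespace
`R5.K`): the decoder of a star uses ANY kernel on the sets; the logarithm of the kernel is
`KV ρ χ D X U`, where `χ X U` is the extra part (star `X`, upper set `U` of the object, everything
relative to the source, for the sink `D`).  The value of a side is `SGx`, with the term
`- log bw` (minus the logarithm of the fraction of good orders).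

The set kernel: `r!` times the product of the densities over `n ^ r`, times the boosts
`b / (b - i)` of the marks.  Its side value is `SGs`.
-/

namespace R5

namespace K

open Finset MP_8b6acb_co

section

variable {α : Type} [DecidableEq α]

/-- The logarithm of the kernel: star `X`, upper set `U` of the object, sink `D`. -/
noncomputable def KV (ρ : Finset α → α → ℝ) (χ : Finset α → Finset α → ℝ)
    (D X U : Finset α) : ℝ :=
  Real.log ((D.card - U.card).factorial : ℝ) -
    ((D.card : ℝ) - U.card) * Real.log ((D.card : ℝ) - X.card) +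
    (∑ g ∈ D \ U, Real.log (ρ X g)) + χ X U

/-- The colour L value of a type with densities `ρ`, extra part `χ` and `T`-side potential `H`. -/
noncomputable def LV (τ : Finset α → Lab) (D : Finset α) (ρ : Finset α → α → ℝ)
    (χ : Finset α → Finset α → ℝ) (H : Finset α → ℝ) : ℝ :=
  (∑ X ∈ D.powerset, ((∑ V ∈ D.powerset, ∑ x ∈ D \ V, pe τ D X V x * KV ρ χ D X (insert x V)) +
    ∑ V ∈ D.powerset, pv τ D X V * KV ρ χ D X V)) +
  (∑ V ∈ D.powerset, ∑ x ∈ D \ V, yLe τ D V x *
    (Real.log (((V.card : ℝ) + 1) / ((D.card : ℝ) + 1)) + H V +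
      Real.log (Zt τ D / yLe τ D V x))) +
  ∑ V ∈ D.powerset, yLv τ D V *
    (Real.log (D.card : ℝ) + Real.log ((V.card : ℝ) / (D.card : ℝ)) + H V +
      Real.log (Zt τ D / yLv τ D V))

/-- The gain of the `S`-side for the extra part `χ`. -/
noncomputable def SGx (τ : Finset α → Lab) (D : Finset α) (ρ : Finset α → α → ℝ)
    (χ : Finset α → Finset α → ℝ) : ℝ :=
  ∑ X ∈ D.powerset,
    ((∑ g ∈ D \ X, PP1 τ D X g * (Real.log ((D \ X).card : ℝ) - Real.log (ρ X g))) +
    (∑ V ∈ D.powerset, ∑ x ∈ D \ V,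
      pe τ D X V x * (χ X (insert x V) - Real.log (bw τ D (insert x V)))) +
    ∑ V ∈ D.powerset, pv τ D X V * (χ X V - Real.log (bwb τ D V)))

/-- The value of two sides `g`, `g'`. -/
noncomputable def VAL (τ : Finset α → Lab) (D : Finset α) (g g' : ℝ) : ℝ :=
  g + g' - Real.log (D.card : ℝ) * (PEL τ D + PEL (dual τ D) D) - COST1 τ D

/-- The extra part of the set kernel: `mk U` = marks of the object with upper set `U`. -/
noncomputable def cset (ρ : Finset α → α → ℝ) (mk : Finset α → Finset α) (D : Finset α)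
    (X U : Finset α) : ℝ :=
  gm mk D U + ((D.card : ℝ) - U.card) *
    (-Real.log (1 - (∑ g ∈ U \ X, ρ X g) / ((D.card : ℝ) - X.card)))

/-- The gain of the `S`-side with the set kernel. -/
noncomputable def SGs (τ : Finset α → Lab) (D : Finset α) (ρ : Finset α → α → ℝ)
    (mk : Finset α → Finset α) : ℝ := SGx τ D ρ (cset ρ mk D)

end

end K

end R5

end

section

/-!
# Interface of the set-level engine
-/

namespace R5

namespace K

open Finset MP_8b6acb_co

section Types

variable (α : Type) [DecidableEq α]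

/-- A side functional: type, cube, densities, light elements. -/
abbrev Side : Type := (Finset α → Lab) → Finset α → (Finset α → α → ℝ) → Finset α → ℝ

/-- The typewise identity: everything except the value cancels. -/
def Stmt_TYPEK : Prop := ∀ (τ : Finset α → Lab) (D : Finset α) (μ ν : Finset α → ℝ)
  (χ χ' : Finset α → Finset α → ℝ),
  τ ∅ = Lab.A → τ D = Lab.B → D.Nonempty →
  (∀ V ⊆ D, 0 < μ V) → (∀ V ⊆ D, 0 < ν V) →
  VAL τ D (SGx τ D (fun X g => μ (insert g X) / μ X) χ)
      (SGx (dual τ D) D (fun U g => ν (D \ insert g U) / ν (D \ U)) χ') +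
      Zt τ D * Real.log (D.card : ℝ) - ab τ D ∅ / ((D.card : ℝ) + 1) * Real.log (μ ∅) -
      aw τ D / ((D.card : ℝ) + 1) * Real.log (ν D) =
    LV τ D (fun X g => μ (insert g X) / μ X) χ (fun V => -Real.log (ν V)) +
    LV (dual τ D) D (fun U g => ν (D \ insert g U) / ν (D \ U)) χ'
      (fun U => -Real.log (μ (D \ U)))

variable {α}

/-- THE TYPEWISE INEQUALITY for the side functional `v`: cubes of dimension `l`, capacity `q`.
`L`, `L'` = all light elements at the bottom and at the top (also outside the cube). -/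
def Stmt_TIV (v : Side α) (l q : ℕ) : Prop := ∀ (τ : Finset α → Lab) (D L L' : Finset α)
  (ρ ρ' : Finset α → α → ℝ), D.card = l → τ ∅ = Lab.A → τ D = Lab.B →
  (∀ x ∈ D, (x ∈ L ↔ τ {x} = Lab.B)) → (∀ x ∈ D, (x ∈ L' ↔ τ (D.erase x) = Lab.A)) →
  L.card + L'.card + 1 ≤ q →
  (∀ X ⊆ D, ∀ g ∈ D \ X, 0 < ρ X g ∧ ρ X g ≤ 1) →
  (∀ X ⊆ D, ∀ g ∈ D \ X, 0 < ρ' X g ∧ ρ' X g ≤ 1) →
  0 ≤ VAL τ D (v τ D ρ L) (v (dual τ D) D ρ' L') +
    Real.log ((l : ℝ) / (q : ℝ)) * (PEL τ D + PEL (dual τ D) D)

/-- The side functional of the set kernel: the marks are all the light elements outside the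
object. -/
noncomputable def vset : Side α := fun τ D ρ L => SGs τ D ρ (fun U => L \ U)

/-- THE TYPEWISE INEQUALITY for the set kernel on both sides. -/
def Stmt_TIS (α : Type) [DecidableEq α] (l q : ℕ) : Prop := Stmt_TIV (vset (α := α)) l q

end Types

section Network

variable {α : Type} [Fintype α] [DecidableEq α]

/-- The densities of the source `s`. -/
noncomputable def rS (c : Finset α → Lab) (T : Finset (Finset α)) (a b : Finset α → ℝ)
    (s : Finset α) : Finset α → α → ℝ :=
  fun X g => MU c T a b s (s ∪ insert g X) / MU c T a b s (s ∪ X)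

/-- `χ` gives sub-probability kernels. -/
def KerOK (c : Finset α → Lab) (S T : Finset (Finset α)) (a b : Finset α → ℝ)
    (χ : Finset α → Finset α → Finset α → Finset α → ℝ) : Prop :=
  ∀ s ∈ S, ∀ X U : Finset α, X ⊆ U → Disjoint s U →
    ∑ t ∈ T.filter (fun t => s ∪ U ⊆ t),
      Real.exp (KV (rS c T a b s) (χ s t) (t \ s) X U) ≤ 1

/-- The side functional `v` is legal: in every network it is dominated by a kernel. -/
structure Legal (v : Side α) : Prop where
  congr : ∀ (τ τ' : Finset α → Lab) (D : Finset α) (ρ ρ' : Finset α → α → ℝ) (L : Finset α),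
    (∀ U ⊆ D, τ U = τ' U) → (∀ X ⊆ D, ∀ g ∈ D, ρ X g = ρ' X g) → v τ D ρ L = v τ' D ρ' L
  nonneg : ∀ (τ : Finset α → Lab) (D : Finset α) (ρ : Finset α → α → ℝ) (L : Finset α),
    τ ∅ = Lab.A → τ D = Lab.B → (∀ X ⊆ D, ∀ g ∈ D \ X, 0 < ρ X g ∧ ρ X g ≤ 1) →
    0 ≤ v τ D ρ L
  ker : ∀ (c : Finset α → Lab) (i j : ℕ) (S T : Finset (Finset α)) (a b : Finset α → ℝ)
    (Lf : Finset α → Finset α), Net c i j S T a b → (∀ s ∈ S, Disjoint (Lf s) s) →
    ∃ χ : Finset α → Finset α → Finset α → Finset α → ℝ, KerOK c S T a b χ ∧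
      ∀ s ∈ S, ∀ t ∈ T, s ⊆ t →
        v (ty c s) (t \ s) (rS c T a b s) (Lf s) ≤
          SGx (ty c s) (t \ s) (rS c T a b s) (χ s t)

variable (α)

/-- The colour L part. -/
def Stmt_LPARTK : Prop := ∀ (c : Finset α → Lab) (i j : ℕ) (S T : Finset (Finset α))
  (a b : Finset α → ℝ) (χ : Finset α → Finset α → Finset α → Finset α → ℝ), Net c i j S T a b →
  KerOK c S T a b χ →
  ∑ s ∈ S, ∑ t ∈ T.filter (fun t => s ⊆ t), a s * b t *
    LV (ty c s) (t \ s) (rS c T a b s) (χ s t) (fun V => -Real.log (NU c S a b t (s ∪ V))) ≤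
  (∑ e ∈ netE c i j S T, (WE c S T a b e.1 e.2 *
      Real.log (((e.1.card : ℝ) - i + 1) / ((j : ℝ) - i + 1)) -
      WE c S T a b e.1 e.2 * Real.log (WE c S T a b e.1 e.2))) +
  ∑ v ∈ netX c i j, (WX c S T a b v *
      (Real.log ((j : ℝ) - i) + Real.log (((v.card : ℝ) - i) / ((j : ℝ) - i))) -
      WX c S T a b v * Real.log (WX c S T a b v))

/-- The colour F part (the mirror image of `LPARTK`). -/
def Stmt_FPARTK : Prop := ∀ (c : Finset α → Lab) (i j : ℕ) (S T : Finset (Finset α))
  (a b : Finset α → ℝ) (χ : Finset α → Finset α → Finset α → Finset α → ℝ), Net c i j S T a b →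
  KerOK (FPARTAux.cc c) (T.image compl) (S.image compl) (fun u => b uᶜ) (fun u => a uᶜ) χ →
  ∑ s ∈ S, ∑ t ∈ T.filter (fun t => s ⊆ t), a s * b t *
    LV (dual (ty c s) (t \ s)) (t \ s)
      (fun U g => NU c S a b t (s ∪ ((t \ s) \ insert g U)) / NU c S a b t (s ∪ ((t \ s) \ U)))
      (χ tᶜ sᶜ)
      (fun U => -Real.log (MU c T a b s (s ∪ ((t \ s) \ U)))) ≤
  (∑ e ∈ netE c i j S T, (WFE c S T a b e.1 e.2 *
      Real.log (((j : ℝ) - e.1.card) / ((j : ℝ) - i + 1)) -
      WFE c S T a b e.1 e.2 * Real.log (WFE c S T a b e.1 e.2))) +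
  ∑ v ∈ netX c i j, (WFX c S T a b v *
      (Real.log ((j : ℝ) - i) + Real.log (((j : ℝ) - v.card) / ((j : ℝ) - i))) -
      WFX c S T a b v * Real.log (WFX c S T a b v))

/-- The main network inequality for the capacity `q`. -/
def Stmt_MAINNETK : Prop := ∀ (c : Finset α → Lab) (i j : ℕ) (S T : Finset (Finset α))
  (a b : Finset α → ℝ) (κ : ℝ) (q : ℕ) (χ χ' : Finset α → Finset α → Finset α → Finset α → ℝ),
  Net c i j S T a b → 0 < κ → 1 ≤ q → KerOK c S T a b χ →
  KerOK (FPARTAux.cc c) (T.image compl) (S.image compl) (fun u => b uᶜ) (fun u => a uᶜ) χ' →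
  (∀ s ∈ S, MU c T a b s s ≤ κ) → (∀ t ∈ T, NU c S a b t t ≤ κ) →
  ∀ W : ℝ, W = ∑ s ∈ S, ∑ t ∈ T.filter (fun t => s ⊆ t), a s * b t * Zt (ty c s) (t \ s) →
  0 < W →
  ∑ s ∈ S, ∑ t ∈ T.filter (fun t => s ⊆ t), a s * b t *
    (VAL (ty c s) (t \ s) (SGx (ty c s) (t \ s) (rS c T a b s) (χ s t))
        (SGx (dual (ty c s) (t \ s)) (t \ s)
          (fun U g => NU c S a b t (s ∪ ((t \ s) \ insert g U)) / NU c S a b t (s ∪ ((t \ s) \ U)))
          (χ' tᶜ sᶜ)) +
      Real.log (((j : ℝ) - i) / (q : ℝ)) *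
        (PEL (ty c s) (t \ s) + PEL (dual (ty c s) (t \ s)) (t \ s))) ≤
    W * Real.log (κ * (((netE c i j S T).card : ℝ) + (q : ℝ) * ((netX c i j).card : ℝ)) /
      ((q : ℝ) * W))

variable {α}

/-- The cut inequality. -/
def Stmt_CUTK (v : Side α) : Prop := ∀ (i j q : ℕ) (S : Finset (Finset α))
  (φ : Finset α → Finset α) (c : Finset α → Lab), i + 2 ≤ j → 1 ≤ q → q ≤ j - i →
  Stmt_TIV v (j - i) q → Mat i j S φ →
  (∀ s ∈ S, c s = Lab.A) → (∀ t ∈ S.image φ, c t = Lab.B) →
  (∀ φ' : Finset α → Finset α, Mat i j S φ' → S.image φ' = S.image φ → ∀ s ∈ S,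
    nbS c s + nbT c (φ' s) + 1 ≤ q) →
  q * S.card ≤ (netE c i j S (S.image φ)).card + q * (netX c i j).card

/-- From the typewise inequality to the cut condition. -/
def Stmt_PPK (v : Side α) : Prop := ∀ (i j q : ℕ), i + 2 ≤ j → 1 ≤ q → q ≤ j - i →
  Stmt_TIV v (j - i) q → PP α q i j

end Network

/-- The final statement of the engine for the set kernel. -/
def Stmt_ENGINES : Prop := ∀ (d i j q : ℕ), i + 2 ≤ j → 1 ≤ q → q ≤ j - i →
  Stmt_TIS (Fin d) (j - i) q → ∀ (S T : Finset (Vtx d)),
  (∀ s ∈ S, wt s = i) → (∀ t ∈ T, wt t = j) → Matched S T → HasEdgeDisjointLR q S T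

end K

end R5

end

section

/-! Block FPARTK: the colour F part, by complementation. -/

namespace R5

namespace K

open Finset MP_8b6acb_co

section

open FPARTAux

variable {α : Type} [DecidableEq α] {τ τ' : Finset α → Lab} {D : Finset α}

theorem KV_congr {ρ ρ' : Finset α → α → ℝ} {χ χ' : Finset α → Finset α → ℝ} {X U : Finset α}
    (hρ : ∀ g ∈ D, ρ X g = ρ' X g) (hχ : χ X U = χ' X U) :
    KV ρ χ D X U = KV ρ' χ' D X U := by
  unfold KV
  have h1 : ∑ g ∈ D \ U, Real.log (ρ X g) = ∑ g ∈ D \ U, Real.log (ρ' X g) :=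
    sum_congr rfl fun g hg => by rw [hρ g (mem_sdiff.1 hg).1]
  rw [h1, hχ]

theorem LV_congr {ρ ρ' : Finset α → α → ℝ} {χ χ' : Finset α → Finset α → ℝ}
    {H H' : Finset α → ℝ} (h : ∀ U ⊆ D, τ U = τ' U)
    (hρ : ∀ X ⊆ D, ∀ g ∈ D, ρ X g = ρ' X g) (hχ : ∀ X ⊆ D, ∀ U ⊆ D, χ X U = χ' X U)
    (hH : ∀ V ⊆ D, H V = H' V) :
    LV τ D ρ χ H = LV τ' D ρ' χ' H' := by
  unfold LV
  congr 1
  · congr 1
    · refine sum_congr rfl fun X hX => ?_
      rw [mem_powerset] at hX
      congr 1
      · refine sum_congr rfl fun V hV => sum_congr rfl fun x hx => ?_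
        rw [mem_powerset] at hV
        rw [mem_sdiff] at hx
        have hi : insert x V ⊆ D := insert_subset hx.1 hV
        rw [pe_congr h hX hV hx.1, KV_congr (hρ X hX) (hχ X hX _ hi)]
      · refine sum_congr rfl fun V hV => ?_
        rw [mem_powerset] at hV
        rw [pv_congr h hX hV, KV_congr (hρ X hX) (hχ X hX _ hV)]
    · refine sum_congr rfl fun V hV => sum_congr rfl fun x hx => ?_
      rw [mem_powerset] at hV
      rw [mem_sdiff] at hx
      rw [yLe_congr h hV hx.1, hH V hV, Zt_congr h]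
  · refine sum_congr rfl fun V hV => ?_
    rw [mem_powerset] at hV
    rw [yLv_congr h hV, hH V hV, Zt_congr h]

end

open FPARTAux in
theorem stmt_FPARTK (α : Type) [Fintype α] [DecidableEq α] (hLP : Stmt_LPARTK α) :
    Stmt_FPARTK α := by
  intro c i j S T a b χ hN hker
  by_cases hT : T = ∅
  · subst hT
    have e1 : ∀ v x, WFE c S ∅ a b v x = 0 := by
      intro v x; unfold WFE; simp
    have e2 : ∀ v, WFX c S ∅ a b v = 0 := by
      intro v; unfold WFX; simp
    simp [e1, e2]
  obtain ⟨t0, ht0⟩ := nonempty_iff_ne_empty.2 hT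
  have hj : j ≤ Fintype.card α := by
    rw [← hN.cT t0 ht0]; exact card_le_univ t0
  have hij := hN.hij
  have hmain := hLP (cc c) (Fintype.card α - j) (Fintype.card α - i) (T.image compl)
    (S.image compl) (fun u => b uᶜ) (fun u => a uᶜ) χ (net_compl hN hj) hker
  have hL : ∑ s ∈ T.image compl, ∑ t ∈ (S.image compl).filter (fun t => s ⊆ t),
      b sᶜ * a tᶜ * LV (ty (cc c) s) (t \ s)
        (rS (cc c) (S.image compl) (fun u => b uᶜ) (fun u => a uᶜ) s) (χ s t)
        (fun V => -Real.log (NU (cc c) (T.image compl) (fun u => b uᶜ) (fun u => a uᶜ) t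
          (s ∪ V))) =
      ∑ s ∈ S, ∑ t ∈ T.filter (fun t => s ⊆ t), a s * b t *
        LV (dual (ty c s) (t \ s)) (t \ s)
          (fun U g => NU c S a b t (s ∪ ((t \ s) \ insert g U)) /
            NU c S a b t (s ∪ ((t \ s) \ U)))
          (χ tᶜ sᶜ)
          (fun U => -Real.log (MU c T a b s (s ∪ ((t \ s) \ U)))) := by
    rw [sum_pairs_compl S T]
    refine sum_congr rfl fun s _ => sum_congr rfl fun t ht => ?_
    rw [mem_filter] at ht
    have hst := ht.2
    rw [compl_compl, compl_compl, compl_sdiff_compl, mul_comm (b t) (a s)]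
    congr 1
    refine LV_congr (ty_compl c hst) ?_ ?_ ?_
    · intro X hX g hg
      unfold rS
      rw [MU_compl c S a b subset_union_left, MU_compl c S a b subset_union_left,
        compl_un hst (insert_subset hg hX), compl_un hst hX]
    · intro X _ U _
      rfl
    · intro V hV
      have : tᶜ ∪ V ⊆ sᶜ := by
        refine union_subset (compl_le_compl_iff_le.2 hst) ?_
        intro y hy
        exact mem_compl.2 (mem_sdiff.1 (hV hy)).2
      rw [NU_compl c T a b this, compl_un hst hV]
  rw [hL] at hmain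
  refine hmain.trans (le_of_eq ?_)
  have hc1 : ((Fintype.card α - j : ℕ) : ℝ) = (Fintype.card α : ℝ) - j := Nat.cast_sub hj
  have hc2 : ((Fintype.card α - i : ℕ) : ℝ) = (Fintype.card α : ℝ) - i :=
    Nat.cast_sub (by omega)
  have hE := sum_netE_compl (c := c) (S := S) (T := T) hij hj (fun v x =>
    WE (cc c) (T.image compl) (S.image compl) (fun u => b uᶜ) (fun u => a uᶜ) v x *
      Real.log (((v.card : ℝ) - (Fintype.card α - j : ℕ) + 1) /
        (((Fintype.card α - i : ℕ) : ℝ) - (Fintype.card α - j : ℕ) + 1)) -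
    WE (cc c) (T.image compl) (S.image compl) (fun u => b uᶜ) (fun u => a uᶜ) v x *
      Real.log (WE (cc c) (T.image compl) (S.image compl) (fun u => b uᶜ) (fun u => a uᶜ) v x))
  have hX := sum_netX_compl (c := c) hij hj (fun v =>
    WX (cc c) (T.image compl) (S.image compl) (fun u => b uᶜ) (fun u => a uᶜ) v *
      (Real.log (((Fintype.card α - i : ℕ) : ℝ) - (Fintype.card α - j : ℕ)) +
        Real.log (((v.card : ℝ) - (Fintype.card α - j : ℕ)) /
        (((Fintype.card α - i : ℕ) : ℝ) - (Fintype.card α - j : ℕ)))) -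
    WX (cc c) (T.image compl) (S.image compl) (fun u => b uᶜ) (fun u => a uᶜ) v *
      Real.log (WX (cc c) (T.image compl) (S.image compl) (fun u => b uᶜ) (fun u => a uᶜ) v))
  rw [hE, hX]
  congr 1
  · refine sum_congr rfl fun e he => ?_
    have hx : e.2 ∉ e.1 := by
      simp only [netE, mem_filter] at he; exact he.2.1
    have hcard : (((insert e.2 e.1)ᶜ.card : ℕ) : ℝ) = (Fintype.card α : ℝ) - (e.1.card + 1) := by
      rw [card_compl, Nat.cast_sub (card_le_univ _), card_insert_of_notMem hx]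
      push_cast
      ring
    rw [WE_compl c S T a b hx, hcard, hc1, hc2]
    have r1 : (Fintype.card α : ℝ) - (e.1.card + 1) - (Fintype.card α - j) + 1 =
        (j : ℝ) - e.1.card := by ring
    have r2 : (Fintype.card α : ℝ) - i - (Fintype.card α - j) + 1 = (j : ℝ) - i + 1 := by ring
    rw [r1, r2]
  · refine sum_congr rfl fun v hv => ?_
    have hcard : ((vᶜ.card : ℕ) : ℝ) = (Fintype.card α : ℝ) - v.card := by
      rw [card_compl, Nat.cast_sub (card_le_univ _)]
    rw [WX_compl c S T a b, hcard, hc1, hc2]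
    have r1 : (Fintype.card α : ℝ) - v.card - (Fintype.card α - j) = (j : ℝ) - v.card := by ring
    have r2 : (Fintype.card α : ℝ) - i - (Fintype.card α - j) = (j : ℝ) - i := by ring
    rw [r1, r2]

end K

end R5

end

section

/-! Block LPARTK: the colour L part of the network inequality, for general kernels. -/

namespace R5

namespace K

open Finset MP_8b6acb_co

theorem LV_split {α : Type} [DecidableEq α] (τ : Finset α → Lab) (D : Finset α)
    (ρ : Finset α → α → ℝ) (χ : Finset α → Finset α → ℝ) (H : Finset α → ℝ) :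
    LV τ D ρ χ H =
    (∑ V ∈ D.powerset, ∑ x ∈ D \ V, if isE τ V x then
      ((∑ X ∈ D.powerset, pe τ D X V x * KV ρ χ D X (insert x V)) +
        yLe τ D V x * (Real.log (((V.card : ℝ) + 1) / ((D.card : ℝ) + 1)) + H V +
          Real.log (Zt τ D / yLe τ D V x))) else 0) +
    ∑ V ∈ D.powerset, if τ V = Lab.X then
      ((∑ X ∈ D.powerset, pv τ D X V * KV ρ χ D X V) +
        yLv τ D V * (Real.log (D.card : ℝ) + Real.log ((V.card : ℝ) / (D.card : ℝ)) + H V +
          Real.log (Zt τ D / yLv τ D V))) else 0 := by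
  unfold LV
  have h1 : (∑ X ∈ D.powerset, ((∑ V ∈ D.powerset, ∑ x ∈ D \ V,
        pe τ D X V x * KV ρ χ D X (insert x V)) +
      ∑ V ∈ D.powerset, pv τ D X V * KV ρ χ D X V)) =
      (∑ V ∈ D.powerset, ∑ x ∈ D \ V, ∑ X ∈ D.powerset,
        pe τ D X V x * KV ρ χ D X (insert x V)) +
      ∑ V ∈ D.powerset, ∑ X ∈ D.powerset, pv τ D X V * KV ρ χ D X V := by
    rw [sum_add_distrib]
    congr 1
    · rw [sum_comm]
      refine sum_congr rfl fun V _ => ?_
      rw [sum_comm]
    · rw [sum_comm]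
  have h2 : (∑ V ∈ D.powerset, ∑ x ∈ D \ V, if isE τ V x then
      ((∑ X ∈ D.powerset, pe τ D X V x * KV ρ χ D X (insert x V)) +
        yLe τ D V x * (Real.log (((V.card : ℝ) + 1) / ((D.card : ℝ) + 1)) + H V +
          Real.log (Zt τ D / yLe τ D V x))) else 0) =
      (∑ V ∈ D.powerset, ∑ x ∈ D \ V, ∑ X ∈ D.powerset,
        pe τ D X V x * KV ρ χ D X (insert x V)) +
      ∑ V ∈ D.powerset, ∑ x ∈ D \ V,
        yLe τ D V x * (Real.log (((V.card : ℝ) + 1) / ((D.card : ℝ) + 1)) + H V +
          Real.log (Zt τ D / yLe τ D V x)) := by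
    rw [← sum_add_distrib]
    refine sum_congr rfl fun V _ => ?_
    rw [← sum_add_distrib]
    refine sum_congr rfl fun x _ => ?_
    by_cases h : isE τ V x
    · rw [if_pos h]
    · rw [if_neg h]
      have e1 : ∀ X, pe τ D X V x = 0 := by
        intro X; unfold pe; rw [if_neg]; exact fun hh => h hh.2
      have e2 : yLe τ D V x = 0 := by unfold yLe; rw [if_neg h]
      rw [e2]
      simp only [e1, zero_mul, sum_const_zero, add_zero]
  have h3 : (∑ V ∈ D.powerset, if τ V = Lab.X then
      ((∑ X ∈ D.powerset, pv τ D X V * KV ρ χ D X V) +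
        yLv τ D V * (Real.log (D.card : ℝ) + Real.log ((V.card : ℝ) / (D.card : ℝ)) + H V +
          Real.log (Zt τ D / yLv τ D V))) else 0) =
      (∑ V ∈ D.powerset, ∑ X ∈ D.powerset, pv τ D X V * KV ρ χ D X V) +
      ∑ V ∈ D.powerset,
        yLv τ D V * (Real.log (D.card : ℝ) + Real.log ((V.card : ℝ) / (D.card : ℝ)) + H V +
          Real.log (Zt τ D / yLv τ D V)) := by
    rw [← sum_add_distrib]
    refine sum_congr rfl fun V _ => ?_
    by_cases h : τ V = Lab.X
    · rw [if_pos h]
    · rw [if_neg h]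
      have e1 : ∀ X, pv τ D X V = 0 := by
        intro X; unfold pv; rw [if_neg]; exact fun hh => h hh.2
      have e2 : yLv τ D V = 0 := by unfold yLv; rw [if_neg h]
      rw [e2]
      simp only [e1, zero_mul, sum_const_zero, add_zero]
  rw [h1, h2, h3]
  ring

theorem stmt_LPARTK (α : Type) [Fintype α] [DecidableEq α] (hO : Stmt_ONE) (hY : Stmt_YSUM α)
    (hNE : Stmt_NETE α) (hNX : Stmt_NETX α) : Stmt_LPARTK α := by
  intro c i j S T a b χ hN hker
  have hcard : ∀ s ∈ S, ∀ v : Finset α, s ⊆ v → ((v \ s).card : ℝ) = (v.card : ℝ) - i := by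
    intro s hs v hsv
    rw [card_sdiff_cast hsv, hN.cS s hs]
  have hDcard : ∀ s ∈ S, ∀ t ∈ T, s ⊆ t → ((t \ s).card : ℝ) = (j : ℝ) - i := by
    intro s hs t ht hst
    rw [hcard s hs t hst, hN.cT t ht]
  -- the edge part
  have hE := hNE c i j S T a b hN (fun s t V x => a s * b t *
    ((∑ X ∈ (t \ s).powerset, pe (ty c s) (t \ s) X V x *
        KV (rS c T a b s) (χ s t) (t \ s) X
          (insert x V)) +
      yLe (ty c s) (t \ s) V x * (Real.log (((V.card : ℝ) + 1) / (((t \ s).card : ℝ) + 1)) +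
        -Real.log (NU c S a b t (s ∪ V)) +
        Real.log (Zt (ty c s) (t \ s) / yLe (ty c s) (t \ s) V x))))
  have hX := hNX c i j S T a b hN (fun s t V => a s * b t *
    ((∑ X ∈ (t \ s).powerset, pv (ty c s) (t \ s) X V *
        KV (rS c T a b s) (χ s t) (t \ s) X V) +
      yLv (ty c s) (t \ s) V * (Real.log ((t \ s).card : ℝ) +
        Real.log ((V.card : ℝ) / ((t \ s).card : ℝ)) +
        -Real.log (NU c S a b t (s ∪ V)) +
        Real.log (Zt (ty c s) (t \ s) / yLv (ty c s) (t \ s) V))))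
  have hL : ∑ s ∈ S, ∑ t ∈ T.filter (fun t => s ⊆ t), a s * b t *
      LV (ty c s) (t \ s) (rS c T a b s) (χ s t)
        (fun V => -Real.log (NU c S a b t (s ∪ V))) =
      (∑ e ∈ netE c i j S T, ∑ s ∈ S.filter (fun s => s ⊆ e.1),
        ∑ t ∈ T.filter (fun t => insert e.2 e.1 ⊆ t), a s * b t *
        ((∑ X ∈ (t \ s).powerset, pe (ty c s) (t \ s) X (e.1 \ s) e.2 *
          KV (rS c T a b s) (χ s t) (t \ s) X
            (insert e.2 (e.1 \ s))) +
        yLe (ty c s) (t \ s) (e.1 \ s) e.2 *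
          (Real.log ((((e.1 \ s).card : ℝ) + 1) / (((t \ s).card : ℝ) + 1)) +
          -Real.log (NU c S a b t (s ∪ (e.1 \ s))) +
          Real.log (Zt (ty c s) (t \ s) / yLe (ty c s) (t \ s) (e.1 \ s) e.2)))) +
      ∑ v ∈ netX c i j, ∑ s ∈ S.filter (fun s => s ⊆ v), ∑ t ∈ T.filter (fun t => v ⊆ t),
        a s * b t *
        ((∑ X ∈ (t \ s).powerset, pv (ty c s) (t \ s) X (v \ s) *
          KV (rS c T a b s) (χ s t) (t \ s) X (v \ s)) +
        yLv (ty c s) (t \ s) (v \ s) * (Real.log ((t \ s).card : ℝ) +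
          Real.log (((v \ s).card : ℝ) / ((t \ s).card : ℝ)) +
          -Real.log (NU c S a b t (s ∪ (v \ s))) +
          Real.log (Zt (ty c s) (t \ s) / yLv (ty c s) (t \ s) (v \ s)))) := by
    rw [hE, hX, ← sum_add_distrib]
    refine sum_congr rfl fun s _ => ?_
    rw [← sum_add_distrib]
    refine sum_congr rfl fun t _ => ?_
    rw [LV_split, mul_add, mul_sum, mul_sum]
    congr 1
    · refine sum_congr rfl fun V _ => ?_
      rw [mul_sum]
      refine sum_congr rfl fun x _ => ?_
      rw [mul_ite, mul_zero]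
    · refine sum_congr rfl fun V _ => ?_
      rw [mul_ite, mul_zero]
  rw [hL]
  refine add_le_add (sum_le_sum fun e he => ?_) (sum_le_sum fun v hv => ?_)
  · have hxv : e.2 ∉ e.1 := (mem_filter.1 he).2.1
    have hobj := objeg hO hY hN e he (fun s X t =>
      Real.exp (KV (rS c T a b s) (χ s t) (t \ s) X (insert e.2 (e.1 \ s))))
      (fun _ _ _ _ _ _ _ _ => Real.exp_pos _) (by
        intro s hs hsv X hX
        have e1 : s ∪ insert e.2 (e.1 \ s) = insert e.2 e.1 := by
          rw [union_insert, union_sdiff_of_subset hsv]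
        have h1 := hker s hs X (insert e.2 (e.1 \ s)) (hX.trans (subset_insert _ _)) (by
          rw [disjoint_insert_right]
          exact ⟨fun h => hxv (hsv h), disjoint_sdiff⟩)
        rw [e1] at h1
        exact h1)
    simp only [Real.log_exp] at hobj
    have hWE : WE c S T a b e.1 e.2 = ∑ s ∈ S.filter (fun s => s ⊆ e.1),
      ∑ t ∈ T.filter (fun t => insert e.2 e.1 ⊆ t),
      a s * b t * yLe (ty c s) (t \ s) (e.1 \ s) e.2 := rfl
    have hsplit : (∑ s ∈ S.filter (fun s => s ⊆ e.1),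
        ∑ t ∈ T.filter (fun t => insert e.2 e.1 ⊆ t), a s * b t *
        ((∑ X ∈ (t \ s).powerset, pe (ty c s) (t \ s) X (e.1 \ s) e.2 *
          KV (rS c T a b s) (χ s t) (t \ s) X
            (insert e.2 (e.1 \ s))) +
        yLe (ty c s) (t \ s) (e.1 \ s) e.2 *
          (Real.log ((((e.1 \ s).card : ℝ) + 1) / (((t \ s).card : ℝ) + 1)) +
          -Real.log (NU c S a b t (s ∪ (e.1 \ s))) +
          Real.log (Zt (ty c s) (t \ s) / yLe (ty c s) (t \ s) (e.1 \ s) e.2)))) =
      (∑ s ∈ S.filter (fun s => s ⊆ e.1), ∑ t ∈ T.filter (fun t => insert e.2 e.1 ⊆ t),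
        a s * b t *
        ((∑ X ∈ (t \ s).powerset, pe (ty c s) (t \ s) X (e.1 \ s) e.2 *
            KV (rS c T a b s) (χ s t) (t \ s) X
              (insert e.2 (e.1 \ s))) +
          yLe (ty c s) (t \ s) (e.1 \ s) e.2 * (-Real.log (NU c S a b t (s ∪ (e.1 \ s))) +
            Real.log (Zt (ty c s) (t \ s) / yLe (ty c s) (t \ s) (e.1 \ s) e.2)))) +
      WE c S T a b e.1 e.2 *
        Real.log (((e.1.card : ℝ) - i + 1) / ((j : ℝ) - i + 1)) := by
      rw [hWE, sum_mul, ← sum_add_distrib]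
      refine sum_congr rfl fun s hs => ?_
      rw [sum_mul, ← sum_add_distrib]
      refine sum_congr rfl fun t ht => ?_
      rw [mem_filter] at hs ht
      rw [hcard s hs.1 e.1 hs.2, hDcard s hs.1 t ht.1
        (hs.2.trans ((subset_insert _ _).trans ht.2))]
      ring
    rw [hsplit]
    linarith
  · have hobj := objxg hO hY hN v hv (fun s X t =>
      Real.exp (KV (rS c T a b s) (χ s t) (t \ s) X (v \ s)))
      (fun _ _ _ _ _ _ _ _ => Real.exp_pos _) (by
        intro s hs hsv X hX
        have h1 := hker s hs X (v \ s) hX disjoint_sdiff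
        rw [union_sdiff_of_subset hsv] at h1
        exact h1)
    simp only [Real.log_exp] at hobj
    have hWX : WX c S T a b v = ∑ s ∈ S.filter (fun s => s ⊆ v),
      ∑ t ∈ T.filter (fun t => v ⊆ t),
      a s * b t * yLv (ty c s) (t \ s) (v \ s) := rfl
    have hsplit : (∑ s ∈ S.filter (fun s => s ⊆ v), ∑ t ∈ T.filter (fun t => v ⊆ t),
        a s * b t *
        ((∑ X ∈ (t \ s).powerset, pv (ty c s) (t \ s) X (v \ s) *
          KV (rS c T a b s) (χ s t) (t \ s) X (v \ s)) +
        yLv (ty c s) (t \ s) (v \ s) * (Real.log ((t \ s).card : ℝ) +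
          Real.log (((v \ s).card : ℝ) / ((t \ s).card : ℝ)) +
          -Real.log (NU c S a b t (s ∪ (v \ s))) +
          Real.log (Zt (ty c s) (t \ s) / yLv (ty c s) (t \ s) (v \ s))))) =
      (∑ s ∈ S.filter (fun s => s ⊆ v), ∑ t ∈ T.filter (fun t => v ⊆ t), a s * b t *
        ((∑ X ∈ (t \ s).powerset, pv (ty c s) (t \ s) X (v \ s) *
            KV (rS c T a b s) (χ s t) (t \ s) X
              (v \ s)) +
          yLv (ty c s) (t \ s) (v \ s) * (-Real.log (NU c S a b t (s ∪ (v \ s))) +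
            Real.log (Zt (ty c s) (t \ s) / yLv (ty c s) (t \ s) (v \ s))))) +
      WX c S T a b v *
        (Real.log ((j : ℝ) - i) + Real.log (((v.card : ℝ) - i) / ((j : ℝ) - i))) := by
      rw [hWX, sum_mul, ← sum_add_distrib]
      refine sum_congr rfl fun s hs => ?_
      rw [sum_mul, ← sum_add_distrib]
      refine sum_congr rfl fun t ht => ?_
      rw [mem_filter] at hs ht
      rw [hcard s hs.1 v hs.2, hDcard s hs.1 t ht.1 (hs.2.trans ht.2)]
      ring
    rw [hsplit]
    linarith

end K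

end R5

end

section

/-! # Block PPK: from the typewise inequality to the cut condition -/

namespace R5

namespace K

open Finset MP_8b6acb_co

theorem stmt_PPK {α : Type} [Fintype α] [DecidableEq α] {v : Side α} (hC : Stmt_CUTK v)
    (hM : Stmt_MINC α) : Stmt_PPK v := by
  intro i j q hij hq1 hqj hTI
  by_contra hPP
  obtain ⟨S, φ, A, hmin, hall⟩ := hM q i j hPP
  set T := S.image φ with hT
  have hTcard : ∀ t ∈ T, t.card = j := hmin.cardT
  have hAcard : ∀ u ∈ A, u.card < j := hmin.cardA (by omega)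
  have hAT : ∀ t ∈ T, t ∉ A := by
    intro t ht h
    have h1 := hTcard t ht
    have h2 := hAcard t h
    omega
  set c : Finset α → Lab := fun v => if v ∈ A then Lab.A else if v ∈ T then Lab.B else
    if dg A v < q then Lab.B else Lab.X with hc
  have hcA : ∀ v, c v = Lab.A ↔ v ∈ A := by
    intro v
    simp only [hc]
    split_ifs <;> simp_all
  have hcT : ∀ t ∈ T, c t = Lab.B := by
    intro t ht
    simp only [hc]
    rw [if_neg (hAT t ht), if_pos ht]
  have hcB : ∀ v ∈ Mid i j, c v = Lab.B → v ∉ A ∧ dg A v < q := by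
    intro v hv h
    rw [mem_Mid] at hv
    have hvT : v ∉ T := fun h => by have := hTcard v h; omega
    simp only [hc] at h
    split_ifs at h with h1 h2
    exact ⟨h1, h2⟩
  have hcX : ∀ v, c v = Lab.X → v ∉ A ∧ q ≤ dg A v := by
    intro v h
    simp only [hc] at h
    split_ifs at h with h1 h2 h3
    exact ⟨h1, by omega⟩
  have h1 := hC i j q S φ c hij hq1 hqj hTI hmin.mat (fun s hs => (hcA s).2 (hmin.SA hs)) hcT (by
    intro φ' hm' hT' s hs
    have hmin' := hall φ' hm' hT'
    have h2 := hmin'.own hij hs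
    have h3 := hmin'.viol
    rw [hT'] at h2 h3
    have hle : dg A (φ' s) < q := by
      have h4 := hmin'.own hij hs
      have h5 := hmin'.viol
      omega
    rw [min_eq_right hle.le] at h2
    have e1 : nbT c (φ' s) = dg A (φ' s) := by
      unfold nbT dg
      congr 1
      refine filter_congr fun x _ => ?_
      exact hcA _
    have e2 : nbS c s ≤ ub (Bset q i j (S.image φ) A) s := by
      unfold nbS ub
      refine card_le_card fun x hx => ?_
      rw [mem_filter] at hx ⊢
      refine ⟨mem_univ _, hx.2.1, ?_⟩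
      have hcard : (insert x s).card = i + 1 := by
        rw [card_insert_of_notMem hx.2.1, hmin.mat.cS s hs]
      have hMid : insert x s ∈ Mid i j := by
        rw [mem_Mid]
        omega
      have h6 := hcB _ hMid hx.2.2
      rw [mem_B]
      exact ⟨Or.inl hMid, h6.1, h6.2.le⟩
    rw [e1]
    omega)
  rw [← hT] at h1
  set E := netE c i j S T with hE
  have hEmem : ∀ e ∈ E, e.2 ∉ e.1 ∧ e.1 ∈ A ∧
      ((insert e.2 e.1 ∈ Mid i j ∧ insert e.2 e.1 ∉ A ∧ dg A (insert e.2 e.1) < q) ∨
        insert e.2 e.1 ∈ T) := by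
    intro e he
    rw [hE] at he
    unfold netE at he
    rw [mem_filter] at he
    obtain ⟨-, h2, h3, h4, h5, h6⟩ := he
    refine ⟨h2, (hcA _).1 h4, ?_⟩
    rcases h5 with h5 | h5
    · exact Or.inl ⟨h5, hcB _ h5 h6⟩
    · exact Or.inr h5
  set M' := (Mid i j).filter (fun v => v ∉ A ∧ dg A v < q) with hM'
  have h3 : E.card ≤ ∑ v ∈ M' ∪ T, dg A v := by
    have hmaps : ∀ e ∈ E, insert e.2 e.1 ∈ M' ∪ T := by
      intro e he
      obtain ⟨-, -, h6⟩ := hEmem e he
      rw [mem_union]
      rcases h6 with h6 | h6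
      · left; rw [hM', mem_filter]; exact h6
      · exact Or.inr h6
    rw [card_eq_sum_card_fiberwise hmaps]
    refine sum_le_sum fun v _ => ?_
    have hfib : ∀ e ∈ E.filter (fun e => insert e.2 e.1 = v), e.1 = v.erase e.2 ∧ e.2 ∈ v ∧
        v.erase e.2 ∈ A := by
      intro e he
      rw [mem_filter] at he
      obtain ⟨h4, h5, -⟩ := hEmem e he.1
      have h6 : v.erase e.2 = e.1 := by rw [← he.2, erase_insert h4]
      exact ⟨h6.symm, by rw [← he.2]; exact mem_insert_self _ _, by rw [h6]; exact h5⟩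
    unfold dg
    refine card_le_card_of_injOn (fun e => e.2) ?_ ?_
    · intro e he
      have he' := hfib e (mem_coe.1 he)
      exact mem_coe.2 (mem_filter.2 he'.2)
    · intro e he e' he' h
      have h4 := (hfib e (mem_coe.1 he)).1
      have h5 := (hfib e' (mem_coe.1 he')).1
      simp only at h
      rw [← h] at h5
      exact Prod.ext (h4.trans h5.symm) h
  have hdisj : Disjoint M' T := by
    rw [Finset.disjoint_left]
    intro v h4 h5
    rw [hM', mem_filter, mem_Mid] at h4
    have := hTcard v h5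
    omega
  rw [sum_union hdisj] at h3
  have h4 : ∑ v ∈ M', dg A v + q * (netX c i j).card ≤
      ∑ v ∈ Mid i j, if v ∈ A then 0 else min q (dg A v) := by
    have e1 : q * (netX c i j).card = ∑ v ∈ Mid i j, if c v = Lab.X then q else 0 := by
      unfold netX
      rw [← sum_filter, sum_const, smul_eq_mul, mul_comm]
    rw [hM', sum_filter, e1, ← sum_add_distrib]
    refine sum_le_sum fun v _ => ?_
    by_cases h5 : v ∈ A
    · have h6 : c v ≠ Lab.X := fun h => (hcX v h).1 h5
      simp [h5, h6]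
    · by_cases h6 : dg A v < q
      · have h7 : c v ≠ Lab.X := fun h => by have := (hcX v h).2; omega
        rw [if_pos ⟨h5, h6⟩, if_neg h7, if_neg h5, min_eq_right h6.le, add_zero]
      · rw [if_neg (fun h => h6 h.2), if_neg h5, min_eq_left (by omega), zero_add]
        split_ifs <;> omega
  have h5 : ∑ t ∈ T, min q (dg A t) = ∑ t ∈ T, dg A t := by
    refine sum_congr rfl fun t ht => ?_
    obtain ⟨s, hs, rfl⟩ := mem_image.1 ht
    exact min_eq_right (hmin.dgT hij hs).le
  have h6 := hmin.viol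
  rw [← hT, cost_eq hTcard hAcard, h5] at h6
  omega

end K

end R5

end

section

/-! # The set kernel is legal -/

namespace R5

namespace K

open Finset MP_8b6acb_co

section

variable {α : Type} [DecidableEq α]

/-- Lower bound for the total cost of a sequence. -/
theorem csum_ge {c : Finset α → ℝ} {C : ℝ} {D : Finset α} : ∀ (π : List α) (W : Finset α),
    W ∪ π.toFinset = D → π.Nodup → (∀ x ∈ π, x ∉ W) →
    (∀ W', W ⊆ W' → W' ⊆ D → W' ≠ D → C ≤ c W') → (π.length : ℝ) * C ≤ csum c W π := by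
  intro π
  induction π with
  | nil =>
    intro W _ _ _ _
    show ((0 : ℕ) : ℝ) * C ≤ 0
    simp
  | cons x π ih =>
    intro W hD hnd hW hC
    rw [List.nodup_cons] at hnd
    have hxW : x ∉ W := hW x List.mem_cons_self
    have hWD : W ⊆ D := by rw [← hD]; exact subset_union_left
    have hne : W ≠ D := by
      intro h
      apply hxW
      rw [h, ← hD]
      exact mem_union_right _ (List.mem_toFinset.2 List.mem_cons_self)
    have h1 := hC W (Subset.refl _) hWD hne
    have h2 := ih (insert x W) (by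
      rw [← hD, List.toFinset_cons, insert_union, union_insert]) hnd.2 (by
      intro y hy h
      rcases mem_insert.1 h with h3 | h3
      · exact hnd.1 (h3 ▸ hy)
      · exact hW y (List.mem_cons_of_mem _ hy) h3)
      (fun W' h3 h4 h5 => hC W' ((subset_insert _ _).trans h3) h4 h5)
    have e : csum c W (x :: π) = c W + csum c (insert x W) π := rfl
    rw [e, List.length_cons]
    push_cast
    linarith

theorem bwb_le_one (τ : Finset α → Lab) (D V : Finset α) : bwb τ D V ≤ 1 := by
  rw [← fwb_dual]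
  exact fwb_le_one _ _

theorem gg_zero (b : ℕ) : gg b 0 = 0 := by
  unfold gg
  simp

/-- The slot part is nonnegative. -/
theorem slot_nonneg {ρ : α → ℝ} {D X U : Finset α} (hXU : X ⊆ U) (hU : U ⊆ D)
    (hρ : ∀ g ∈ D \ X, 0 < ρ g ∧ ρ g ≤ 1) :
    0 ≤ ((D.card : ℝ) - U.card) *
      (-Real.log (1 - (∑ g ∈ U \ X, ρ g) / ((D.card : ℝ) - X.card))) := by
  have hUc : (U.card : ℝ) ≤ D.card := by exact_mod_cast card_le_card hU
  have hsub : U \ X ⊆ D \ X := sdiff_subset_sdiff hU (Subset.refl _)
  have a1 : 0 ≤ ∑ g ∈ U \ X, ρ g := sum_nonneg fun g hg => (hρ g (hsub hg)).1.le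
  have b1 : ∑ g ∈ U \ X, ρ g ≤ ((U \ X).card : ℝ) := by
    calc ∑ g ∈ U \ X, ρ g ≤ ∑ g ∈ U \ X, (1 : ℝ) :=
          sum_le_sum fun g hg => (hρ g (hsub hg)).2
      _ = ((U \ X).card : ℝ) := by simp
  have c1 : ((U \ X).card : ℝ) = (U.card : ℝ) - X.card := card_sdiff_cast hXU
  have c4 : (X.card : ℝ) ≤ U.card := by exact_mod_cast card_le_card hXU
  rcases eq_or_lt_of_le (show (0 : ℝ) ≤ (D.card : ℝ) - X.card by linarith) with hn | hn
  · rw [← hn]
    simp
  have hq : (∑ g ∈ U \ X, ρ g) / ((D.card : ℝ) - X.card) ≤ 1 := by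
    rw [div_le_one hn]
    linarith
  have hq0 : 0 ≤ (∑ g ∈ U \ X, ρ g) / ((D.card : ℝ) - X.card) := div_nonneg a1 hn.le
  have := Real.log_nonpos (x := 1 - (∑ g ∈ U \ X, ρ g) / ((D.card : ℝ) - X.card))
    (by linarith) (by linarith)
  exact mul_nonneg (by linarith) (by linarith)

theorem pe_zero (τ : Finset α → Lab) {D X V : Finset α} {x : α} (h : ¬ X ⊆ V) :
    pe τ D X V x = 0 := by
  unfold pe
  rw [if_neg (fun hh => h hh.1)]

theorem pv_zero (τ : Finset α → Lab) {D X V : Finset α} (h : ¬ X ⊆ V) :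
    pv τ D X V = 0 := by
  unfold pv
  rw [if_neg (fun hh => h hh.1)]

/-- The side value is nonnegative if the extra part is nonnegative on the support. -/
theorem SGx_nonneg (τ : Finset α → Lab) (D : Finset α) (ρ : Finset α → α → ℝ)
    (χ : Finset α → Finset α → ℝ)
    (hρ : ∀ X ⊆ D, ∀ g ∈ D \ X, 0 < ρ X g ∧ ρ X g ≤ 1)
    (hχ : ∀ X U : Finset α, X ⊆ U → U ⊆ D → 0 ≤ χ X U) : 0 ≤ SGx τ D ρ χ := by
  unfold SGx
  refine sum_nonneg fun X hX => ?_
  rw [mem_powerset] at hX
  have h1 : 0 ≤ ∑ g ∈ D \ X, PP1 τ D X g * (Real.log ((D \ X).card : ℝ) - Real.log (ρ X g)) := by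
    refine sum_nonneg fun g hg => ?_
    have hp : 0 ≤ PP1 τ D X g := by
      unfold PP1
      refine sum_nonneg fun V hV => ?_
      rw [mem_powerset] at hV
      exact VLBQ.pe_nn τ (hV.trans (erase_subset _ _))
    have hr := hρ X hX g hg
    have hl : Real.log (ρ X g) ≤ 0 := Real.log_nonpos hr.1.le hr.2
    have hn : 0 ≤ Real.log ((D \ X).card : ℝ) := Real.log_natCast_nonneg _
    exact mul_nonneg hp (by linarith)
  have h2 : 0 ≤ ∑ V ∈ D.powerset, ∑ x ∈ D \ V,
      pe τ D X V x * (χ X (insert x V) - Real.log (bw τ D (insert x V))) := by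
    refine sum_nonneg fun V hV => sum_nonneg fun x hx => ?_
    rw [mem_powerset] at hV
    by_cases hXV : X ⊆ V
    · have h3 := hχ X (insert x V) (hXV.trans (subset_insert _ _))
        (insert_subset (mem_sdiff.1 hx).1 hV)
      have h4 := Real.log_nonpos (bw_nonneg τ D (insert x V)) (bw_le_one τ D (insert x V))
      exact mul_nonneg (VLBQ.pe_nn τ hV) (by linarith)
    · rw [pe_zero τ hXV, zero_mul]
  have h3 : 0 ≤ ∑ V ∈ D.powerset, pv τ D X V * (χ X V - Real.log (bwb τ D V)) := by
    refine sum_nonneg fun V hV => ?_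
    rw [mem_powerset] at hV
    by_cases hXV : X ⊆ V
    · have h3 := hχ X V hXV hV
      have h4 := Real.log_nonpos (bwb_nonneg τ D V) (bwb_le_one τ D V)
      exact mul_nonneg (VLBQ.pv_nn τ) (by linarith)
    · rw [pv_zero τ hXV, zero_mul]
  linarith

theorem cset_nonneg {ρ : Finset α → α → ℝ} {mk : Finset α → Finset α} {D X U : Finset α}
    (hρ : ∀ X ⊆ D, ∀ g ∈ D \ X, 0 < ρ X g ∧ ρ X g ≤ 1) (hXU : X ⊆ U) (hU : U ⊆ D) :
    0 ≤ cset ρ mk D X U := by
  unfold cset
  exact add_nonneg (VLBQ.gm_nonneg _ _ _) (slot_nonneg hXU hU (hρ X (hXU.trans hU)))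

end

section net

variable {α : Type} [Fintype α] [DecidableEq α] {c : Finset α → Lab} {i j : ℕ}
  {S T : Finset (Finset α)} {a b : Finset α → ℝ}

/-- The set kernel is a sub-probability. -/
theorem ker_set (hKS : Stmt_KSUM α) (hKL : Stmt_KLOG α) (h : Net c i j S T a b)
    (mk : Finset α → Finset α → Finset α) (hmk : ∀ s u, Disjoint (mk s u) u) :
    KerOK c S T a b
      (fun s t => cset (rS c T a b s) (fun U => mk s (s ∪ U)) (t \ s)) := by
  intro s hs X U hXU hsU
  obtain ⟨vp, hvp⟩ : ∃ vp, vp = s ∪ U := ⟨_, rfl⟩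
  obtain ⟨T', hT'⟩ : ∃ T', T' = T.filter (fun t => s ∪ U ⊆ t) := ⟨_, rfl⟩
  rw [← hT']
  have mT : ∀ t, t ∈ T' ↔ t ∈ T ∧ vp ⊆ t := fun t => by rw [hT', mem_filter, hvp]
  have hsvp : s ⊆ vp := by rw [hvp]; exact subset_union_left
  have eU : vp \ s = U := by
    rw [hvp]
    ext y
    simp only [mem_sdiff, mem_union]
    constructor
    · rintro ⟨h1 | h1, h2⟩
      · exact absurd h1 h2
      · exact h1
    · intro h1
      exact ⟨Or.inr h1, fun h2 => (Finset.disjoint_left.1 hsU h2) h1⟩
  have hXv : X ⊆ vp \ s := by rw [eU]; exact hXU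
  have hc : ∀ t ∈ T', (t \ vp).card = j - vp.card ∧ vp.card ≤ j := by
    intro t ht
    have h1 := (mT t).1 ht
    refine ⟨?_, ?_⟩
    · rw [card_sdiff_of_subset h1.2, h.cT t h1.1]
    · have := card_le_card h1.2
      rw [h.cT t h1.1] at this
      exact this
  rcases Nat.lt_or_ge vp.card j with hvj | hvj
  · -- the main case
    have hqs := qk_sum hKS h mk hmk hs hsvp hXv (Subset.refl vp) T' (fun t ht => (mT t).1 ht)
    refine le_trans (sum_le_sum fun t ht => ?_) hqs
    obtain ⟨htT, htv⟩ := (mT t).1 ht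
    obtain ⟨hcR, -⟩ := hc t ht
    have hst : s ⊆ t := hsvp.trans htv
    have hXt : X ⊆ t := (hXU.trans (by rw [← eU]; exact sdiff_subset)).trans htv
    -- all sequences give the same lower bound
    have hlow : ∀ π ∈ seqs (j - vp.card) (t \ vp),
        Real.exp (KV (rS c T a b s)
          (cset (rS c T a b s) (fun U => mk s (s ∪ U)) (t \ s)) (t \ s) X U) /
          ((j - vp.card).factorial : ℝ) ≤ qk c i j T a b mk vp s X π := by
      intro π hπ
      rw [← hcR] at hπ
      obtain ⟨k1, k2⟩ := qk_log hKL h mk hs htT hsvp hXv (Subset.refl vp) htv hvj hπ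
      have hfac : (0 : ℝ) < ((j - vp.card).factorial : ℝ) := by
        exact_mod_cast Nat.factorial_pos _
      rw [div_le_iff₀ hfac, ← Real.exp_log k1, ← Real.exp_log hfac, ← Real.exp_add,
        Real.exp_le_exp, add_comm]
      rw [hcR, eU] at k2
      rw [k2]
      obtain ⟨m1, m2, m3⟩ := mem_seqs.1 hπ
      have e1 : KV (rS c T a b s) (cset (rS c T a b s) (fun U => mk s (s ∪ U)) (t \ s))
          (t \ s) X U = R5.KV (rh c T a b s) (fun U => mk s (s ∪ U)) (t \ s) X U +
          (((t \ s).card : ℝ) - U.card) *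
            (-Real.log (1 - (∑ g ∈ U \ X, rh c T a b s X g) /
              (((t \ s).card : ℝ) - X.card))) := by
        unfold KV R5.KV cset
        have : rS c T a b s = rh c T a b s := rfl
        rw [this]
        ring
      rw [e1]
      have hUt : U ⊆ t \ s := by
        rw [← eU]
        exact sdiff_subset_sdiff htv (Subset.refl _)
      have hlen : (π.length : ℝ) = ((t \ s).card : ℝ) - U.card := by
        rw [m2, card_sdiff_cast hst, card_sdiff_cast htv, hvp, card_union_of_disjoint hsU]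
        push_cast
        ring
      rw [← hlen]
      have hDU : (t \ s) \ U = t \ vp := by
        rw [hvp, sdiff_sdiff]
        rfl
      have hge := csum_ge (c := SS (rh c T a b s) (fun U => mk s (s ∪ U)) (t \ s) X U)
        (C := -Real.log (1 - (∑ g ∈ U \ X, rh c T a b s X g) / (((t \ s).card : ℝ) - X.card)))
        (D := t \ s) π U (by
          rw [toFinset_eq_of_mem_seqs hπ, ← hDU]
          exact union_sdiff_of_subset hUt) m1 (by
          intro x hx h1
          have h2 := m3 x hx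
          rw [← hDU] at h2
          exact (mem_sdiff.1 h2).2 h1) (by
          intro W h1 h2 h3
          unfold SS sc
          have hn : (0 : ℝ) < ((t \ s).card : ℝ) - X.card := by
            have g1 : X.card ≤ W.card := card_le_card (hXU.trans h1)
            have g2 : W.card < (t \ s).card := card_lt_card (ssubset_of_subset_of_ne h2 h3)
            have g3 : (X.card : ℝ) < (t \ s).card := by exact_mod_cast lt_of_le_of_lt g1 g2
            linarith
          have hav := rh_avail h hs htT hsvp hXv (Subset.refl vp) htv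
          rw [eU] at hav
          have hnn : ((t \ s).card : ℝ) - X.card = (j : ℝ) - i - X.card := by
            rw [card_sdiff_cast hst, h.cT t htT, h.cS s hs]
          obtain ⟨z, hz1, hz2⟩ : ∃ z ∈ t \ s, z ∉ W := by
            by_contra hcon
            push Not at hcon
            exact h3 (Subset.antisymm h2 hcon)
          have hzt : z ∈ t := (mem_sdiff.1 hz1).1
          have hzp : 0 < rh c T a b s X z := rh_pos h hs htT hst hXt hzt
          have hzv : z ∉ vp := by
            intro h4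
            apply hz2
            apply h1
            rw [← eU]
            exact mem_sdiff.2 ⟨h4, (mem_sdiff.1 hz1).2⟩
          have hlt : ∑ g ∈ (W \ U) \ mk s (s ∪ U), rh c T a b s X g +
              rh c T a b s X z ≤ ∑ g ∈ univ \ vp, rh c T a b s X g := by
            have hz3 : z ∉ (W \ U) \ mk s (s ∪ U) := fun h4 =>
              hz2 (mem_sdiff.1 (mem_sdiff.1 h4).1).1
            rw [add_comm, ← sum_insert hz3]
            refine sum_le_sum_of_subset_of_nonneg ?_ (fun g _ _ => rh_nonneg h hs X g)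
            intro y hy
            rw [mem_insert] at hy
            rw [mem_sdiff]
            refine ⟨mem_univ _, ?_⟩
            rcases hy with h4 | h4
            · rw [h4]; exact hzv
            · have h5 := mem_sdiff.1 (mem_sdiff.1 h4).1
              intro h6
              apply h5.2
              rw [← eU]
              exact mem_sdiff.2 ⟨h6, (mem_sdiff.1 (h2 h5.1)).2⟩
          have hs0 : 0 ≤ ∑ g ∈ (W \ U) \ mk s (s ∪ U), rh c T a b s X g :=
            sum_nonneg fun g _ => rh_nonneg h hs X g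
          have hpos : 0 < 1 - (∑ g ∈ U \ X, rh c T a b s X g +
              ∑ g ∈ (W \ U) \ mk s (s ∪ U), rh c T a b s X g) /
              (((t \ s).card : ℝ) - X.card) := by
            rw [sub_pos, div_lt_one hn, hnn]
            linarith
          have hmono : (∑ g ∈ U \ X, rh c T a b s X g) / (((t \ s).card : ℝ) - X.card) ≤
              (∑ g ∈ U \ X, rh c T a b s X g +
                ∑ g ∈ (W \ U) \ mk s (s ∪ U), rh c T a b s X g) /
              (((t \ s).card : ℝ) - X.card) := by
            rw [div_le_div_iff_of_pos_right hn]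
            linarith
          have := Real.log_le_log hpos (sub_le_sub_left hmono 1)
          linarith)
      linarith
    have hcount : ((seqs (j - vp.card) (t \ vp)).card : ℝ) =
        ((j - vp.card).factorial : ℝ) := by
      have := card_seqs_card (t \ vp)
      rw [hcR] at this
      exact_mod_cast this
    have hfac : (0 : ℝ) < ((j - vp.card).factorial : ℝ) := by
      exact_mod_cast Nat.factorial_pos _
    calc _ = ∑ _π ∈ seqs (j - vp.card) (t \ vp),
          Real.exp (KV (rS c T a b s)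
            (cset (rS c T a b s) (fun U => mk s (s ∪ U)) (t \ s)) (t \ s) X U) /
            ((j - vp.card).factorial : ℝ) := by
          rw [sum_const, nsmul_eq_mul, hcount, mul_div_cancel₀ _ hfac.ne']
      _ ≤ _ := sum_le_sum hlow
  · -- the trivial case
    have h1 : ∀ t ∈ T', t = vp := by
      intro t ht
      have h2 := (mT t).1 ht
      refine (eq_of_subset_of_card_le h2.2 ?_).symm
      rw [h.cT t h2.1]
      exact hvj
    have h2 : ∀ t ∈ T', Real.exp (KV (rS c T a b s)
        (cset (rS c T a b s) (fun U => mk s (s ∪ U)) (t \ s)) (t \ s) X U) = 1 := by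
      intro t ht
      rw [h1 t ht, eU]
      unfold KV cset gm
      simp [gg_zero]
    rw [sum_congr rfl h2, sum_const, nsmul_eq_mul, mul_one]
    have h3 : T' ⊆ {vp} := fun t ht => mem_singleton.2 (h1 t ht)
    have h4 := card_le_card h3
    rw [card_singleton] at h4
    exact_mod_cast h4

open FPARTAux in
/-- The set kernel is a legal side. -/
theorem legal_vset (hKS : Stmt_KSUM α) (hKL : Stmt_KLOG α) : Legal (vset (α := α)) := by
  refine ⟨?_, ?_, ?_⟩
  · intro τ τ' D ρ ρ' L hτ hρ
    unfold vset SGs SGx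
    refine sum_congr rfl fun X hX => ?_
    rw [mem_powerset] at hX
    have hcs : ∀ U ⊆ D, cset ρ (fun U => L \ U) D X U = cset ρ' (fun U => L \ U) D X U := by
      intro U hU
      unfold cset
      have e : ∑ g ∈ U \ X, ρ X g = ∑ g ∈ U \ X, ρ' X g :=
        sum_congr rfl fun g hg => hρ X hX g (hU (mem_sdiff.1 hg).1)
      rw [e]
    congr 1
    · congr 1
      · refine sum_congr rfl fun g hg => ?_
        rw [mem_sdiff] at hg
        have e : PP1 τ D X g = PP1 τ' D X g := by
          unfold PP1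
          refine sum_congr rfl fun V hV => ?_
          rw [mem_powerset] at hV
          exact pe_congr hτ hX (hV.trans (erase_subset _ _)) hg.1
        rw [e, hρ X hX g hg.1]
      · refine sum_congr rfl fun V hV => sum_congr rfl fun x hx => ?_
        rw [mem_powerset] at hV
        rw [mem_sdiff] at hx
        have hi : insert x V ⊆ D := insert_subset hx.1 hV
        rw [pe_congr hτ hX hV hx.1, hcs _ hi, bw_congr hτ]
    · refine sum_congr rfl fun V hV => ?_
      rw [mem_powerset] at hV
      rw [pv_congr hτ hX hV, hcs _ hV, bwb_congr hτ]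
  · intro τ D ρ L _ _ hρ
    exact SGx_nonneg τ D ρ _ hρ (fun X U h1 h2 => cset_nonneg hρ h1 h2)
  · intro c i j S T a b Lf h hLf
    refine ⟨fun s t => cset (rS c T a b s) (fun U => Lf s \ (s ∪ U)) (t \ s),
      ker_set hKS hKL h (fun s u => Lf s \ u) (fun s u => sdiff_disjoint), ?_⟩
    intro s hs t _ _
    have e : (fun U => Lf s \ (s ∪ U)) = fun U => Lf s \ U := by
      funext U
      ext y
      simp only [mem_sdiff, mem_union, not_or]
      constructor
      · rintro ⟨h1, h2, h3⟩
        exact ⟨h1, h3⟩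
      · rintro ⟨h1, h2⟩
        exact ⟨h1, fun h3 => (Finset.disjoint_left.1 (hLf s hs) h1) h3, h2⟩
    show SGs _ _ _ _ ≤ SGx _ _ _ (cset (rS c T a b s) (fun U => Lf s \ (s ∪ U)) (t \ s))
    rw [e]
    exact le_of_eq rfl

end net

end K

end R5

end

section

/-! Block TYPEK: the typewise identity for general kernels, from the one of the chain engine. -/

namespace R5

namespace K

open Finset

variable {α : Type} [DecidableEq α]

theorem yLe_bw {τ : Finset α → Lab} {D V : Finset α} {x : α} (h0 : τ ∅ = Lab.A) :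
    yLe τ D V x * Real.log (Zt τ D / yLe τ D V x) =
      yLe τ D V x * Real.log (Zt τ D / y1e τ D V) -
        yLe τ D V x * Real.log (bw τ D (insert x V)) := by
  by_cases hy : yLe τ D V x = 0
  · rw [hy]; ring
  have hE : isE τ V x := by
    by_contra he
    apply hy
    unfold yLe
    rw [if_neg he]
  have e1 : yLe τ D V x = y1e τ D V * bw τ D (insert x V) := by
    unfold yLe y1e
    rw [if_pos hE]
    ring
  have hZ := TypeAux.Zt_pos (D := D) h0
  have h1 : y1e τ D V ≠ 0 := fun h => hy (by rw [e1, h, zero_mul])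
  have h2 : bw τ D (insert x V) ≠ 0 := fun h => hy (by rw [e1, h, mul_zero])
  have h3 : Real.log (Zt τ D / yLe τ D V x) =
      Real.log (Zt τ D / y1e τ D V) - Real.log (bw τ D (insert x V)) := by
    rw [e1, Real.log_div hZ.ne' (mul_ne_zero h1 h2), Real.log_mul h1 h2,
      Real.log_div hZ.ne' h1]
    ring
  rw [h3]
  ring

theorem yLv_bw {τ : Finset α → Lab} {D V : Finset α} (h0 : τ ∅ = Lab.A) :
    yLv τ D V * Real.log (Zt τ D / yLv τ D V) =
      yLv τ D V * Real.log (Zt τ D / y1v τ D V) - yLv τ D V * Real.log (bwb τ D V) := by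
  by_cases hy : yLv τ D V = 0
  · rw [hy]; ring
  have hE : τ V = Lab.X := by
    by_contra he
    apply hy
    unfold yLv
    rw [if_neg he]
  have e1 : yLv τ D V = y1v τ D V * bwb τ D V := by
    unfold yLv y1v
    rw [if_pos hE]
    ring
  have hZ := TypeAux.Zt_pos (D := D) h0
  have h1 : y1v τ D V ≠ 0 := fun h => hy (by rw [e1, h, zero_mul])
  have h2 : bwb τ D V ≠ 0 := fun h => hy (by rw [e1, h, mul_zero])
  have h3 : Real.log (Zt τ D / yLv τ D V) =
      Real.log (Zt τ D / y1v τ D V) - Real.log (bwb τ D V) := by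
    rw [e1, Real.log_div hZ.ne' (mul_ne_zero h1 h2), Real.log_mul h1 h2,
      Real.log_div hZ.ne' h1]
    ring
  rw [h3]
  ring

theorem gm_empty (D U : Finset α) : gm (fun _ : Finset α => (∅ : Finset α)) D U = 0 := by
  unfold gm gg
  simp

/-- Comparison of the set-level value with the chain-level value (no marks). -/
theorem LV_sub (hY : Stmt_YSUM α) {τ : Finset α → Lab} {D : Finset α} (h0 : τ ∅ = Lab.A)
    (ρ : Finset α → α → ℝ) (χ : Finset α → Finset α → ℝ) (H : Finset α → ℝ) :
    LV τ D ρ χ H = LVc τ D ρ (fun _ => ∅) H + (SGx τ D ρ χ - SGc τ D ρ (fun _ => ∅)) := by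
  -- the common difference
  obtain ⟨P, hP⟩ : ∃ P : ℝ, P = ∑ X ∈ D.powerset,
    ((∑ V ∈ D.powerset, ∑ x ∈ D \ V, (pe τ D X V x * χ X (insert x V) -
        pe1 τ D X V x * ec τ D (SS ρ (fun _ => ∅) D X (insert x V)) (insert x V))) +
      ∑ V ∈ D.powerset, (pv τ D X V * χ X V -
        pv1 τ D X V * ev τ D (SS ρ (fun _ => ∅) D X V) V)) := ⟨_, rfl⟩
  obtain ⟨B1, hB1⟩ : ∃ B1 : ℝ, B1 = ∑ V ∈ D.powerset, ∑ x ∈ D \ V,
    yLe τ D V x * Real.log (bw τ D (insert x V)) := ⟨_, rfl⟩
  obtain ⟨B2, hB2⟩ : ∃ B2 : ℝ, B2 = ∑ V ∈ D.powerset, yLv τ D V * Real.log (bwb τ D V) :=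
    ⟨_, rfl⟩
  have hB1' : B1 = ∑ X ∈ D.powerset, ∑ V ∈ D.powerset, ∑ x ∈ D \ V,
      pe τ D X V x * Real.log (bw τ D (insert x V)) := by
    rw [hB1, sum_comm]
    refine sum_congr rfl fun V hV => ?_
    rw [sum_comm]
    refine sum_congr rfl fun x hx => ?_
    rw [← sum_mul, (hY τ D V (mem_powerset.1 hV)).1 x hx]
  have hB2' : B2 = ∑ X ∈ D.powerset, ∑ V ∈ D.powerset,
      pv τ D X V * Real.log (bwb τ D V) := by
    rw [hB2, sum_comm]
    refine sum_congr rfl fun V hV => ?_
    rw [← sum_mul, (hY τ D V (mem_powerset.1 hV)).2]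
  have e1 : SGx τ D ρ χ = SGc τ D ρ (fun _ => ∅) + P - (B1 + B2) := by
    rw [hP, hB1', hB2', ← sum_add_distrib]
    unfold SGx SGc
    rw [← sum_add_distrib, ← sum_sub_distrib]
    refine sum_congr rfl fun X _ => ?_
    have f1 : ∑ V ∈ D.powerset, ∑ x ∈ D \ V,
        pe τ D X V x * (χ X (insert x V) - Real.log (bw τ D (insert x V))) =
        (∑ V ∈ D.powerset, ∑ x ∈ D \ V,
          (pe1 τ D X V x * ec τ D (SS ρ (fun _ => ∅) D X (insert x V)) (insert x V) +
            pe τ D X V x * gm (fun _ => ∅) D (insert x V))) +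
        (∑ V ∈ D.powerset, ∑ x ∈ D \ V, (pe τ D X V x * χ X (insert x V) -
          pe1 τ D X V x * ec τ D (SS ρ (fun _ => ∅) D X (insert x V)) (insert x V))) -
        ∑ V ∈ D.powerset, ∑ x ∈ D \ V, pe τ D X V x * Real.log (bw τ D (insert x V)) := by
      rw [← sum_add_distrib, ← sum_sub_distrib]
      refine sum_congr rfl fun V _ => ?_
      rw [← sum_add_distrib, ← sum_sub_distrib]
      refine sum_congr rfl fun x _ => ?_
      rw [gm_empty]
      ring
    have f2 : ∑ V ∈ D.powerset, pv τ D X V * (χ X V - Real.log (bwb τ D V)) =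
        (∑ V ∈ D.powerset, (pv1 τ D X V * ev τ D (SS ρ (fun _ => ∅) D X V) V +
          pv τ D X V * gm (fun _ => ∅) D V)) +
        (∑ V ∈ D.powerset, (pv τ D X V * χ X V -
          pv1 τ D X V * ev τ D (SS ρ (fun _ => ∅) D X V) V)) -
        ∑ V ∈ D.powerset, pv τ D X V * Real.log (bwb τ D V) := by
      rw [← sum_add_distrib, ← sum_sub_distrib]
      refine sum_congr rfl fun V _ => ?_
      rw [gm_empty]
      ring
    rw [f1, f2]
    ring
  have e2 : LV τ D ρ χ H = LVc τ D ρ (fun _ => ∅) H + P - (B1 + B2) := by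
    rw [hP, hB1, hB2]
    unfold LV LVc
    have f0 : (∑ X ∈ D.powerset, ((∑ V ∈ D.powerset, ∑ x ∈ D \ V,
          pe τ D X V x * KV ρ χ D X (insert x V)) +
        ∑ V ∈ D.powerset, pv τ D X V * KV ρ χ D X V)) =
        (∑ X ∈ D.powerset,
          ((∑ V ∈ D.powerset, ∑ x ∈ D \ V,
            (pe τ D X V x * R5.KV ρ (fun _ => ∅) D X (insert x V) +
              pe1 τ D X V x * ec τ D (SS ρ (fun _ => ∅) D X (insert x V)) (insert x V))) +
          ∑ V ∈ D.powerset, (pv τ D X V * R5.KV ρ (fun _ => ∅) D X V +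
              pv1 τ D X V * ev τ D (SS ρ (fun _ => ∅) D X V) V))) +
        ∑ X ∈ D.powerset,
          ((∑ V ∈ D.powerset, ∑ x ∈ D \ V, (pe τ D X V x * χ X (insert x V) -
            pe1 τ D X V x * ec τ D (SS ρ (fun _ => ∅) D X (insert x V)) (insert x V))) +
          ∑ V ∈ D.powerset, (pv τ D X V * χ X V -
            pv1 τ D X V * ev τ D (SS ρ (fun _ => ∅) D X V) V)) := by
      rw [← sum_add_distrib]
      refine sum_congr rfl fun X _ => ?_
      have g1 : (∑ V ∈ D.powerset, ∑ x ∈ D \ V, pe τ D X V x * KV ρ χ D X (insert x V)) =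
          (∑ V ∈ D.powerset, ∑ x ∈ D \ V,
            (pe τ D X V x * R5.KV ρ (fun _ => ∅) D X (insert x V) +
              pe1 τ D X V x * ec τ D (SS ρ (fun _ => ∅) D X (insert x V)) (insert x V))) +
          ∑ V ∈ D.powerset, ∑ x ∈ D \ V, (pe τ D X V x * χ X (insert x V) -
            pe1 τ D X V x * ec τ D (SS ρ (fun _ => ∅) D X (insert x V)) (insert x V)) := by
        rw [← sum_add_distrib]
        refine sum_congr rfl fun V _ => ?_
        rw [← sum_add_distrib]
        refine sum_congr rfl fun x _ => ?_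
        unfold KV R5.KV
        rw [gm_empty]
        ring
      have g2 : (∑ V ∈ D.powerset, pv τ D X V * KV ρ χ D X V) =
          (∑ V ∈ D.powerset, (pv τ D X V * R5.KV ρ (fun _ => ∅) D X V +
              pv1 τ D X V * ev τ D (SS ρ (fun _ => ∅) D X V) V)) +
          ∑ V ∈ D.powerset, (pv τ D X V * χ X V -
            pv1 τ D X V * ev τ D (SS ρ (fun _ => ∅) D X V) V) := by
        rw [← sum_add_distrib]
        refine sum_congr rfl fun V _ => ?_
        unfold KV R5.KV
        rw [gm_empty]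
        ring
      rw [g1, g2]
      ring
    have f1 : (∑ V ∈ D.powerset, ∑ x ∈ D \ V, yLe τ D V x *
          (Real.log (((V.card : ℝ) + 1) / ((D.card : ℝ) + 1)) + H V +
            Real.log (Zt τ D / yLe τ D V x))) =
        (∑ V ∈ D.powerset, ∑ x ∈ D \ V, yLe τ D V x *
          (Real.log (((V.card : ℝ) + 1) / ((D.card : ℝ) + 1)) + H V +
            Real.log (Zt τ D / y1e τ D V))) -
        ∑ V ∈ D.powerset, ∑ x ∈ D \ V, yLe τ D V x * Real.log (bw τ D (insert x V)) := by
      rw [← sum_sub_distrib]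
      refine sum_congr rfl fun V _ => ?_
      rw [← sum_sub_distrib]
      refine sum_congr rfl fun x _ => ?_
      rw [mul_add, yLe_bw h0]
      ring
    have f2 : (∑ V ∈ D.powerset, yLv τ D V *
          (Real.log (D.card : ℝ) + Real.log ((V.card : ℝ) / (D.card : ℝ)) + H V +
            Real.log (Zt τ D / yLv τ D V))) =
        (∑ V ∈ D.powerset, yLv τ D V *
          (Real.log (D.card : ℝ) + Real.log ((V.card : ℝ) / (D.card : ℝ)) + H V +
            Real.log (Zt τ D / y1v τ D V))) -
        ∑ V ∈ D.powerset, yLv τ D V * Real.log (bwb τ D V) := by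
      rw [← sum_sub_distrib]
      refine sum_congr rfl fun V _ => ?_
      rw [mul_add, yLv_bw h0]
      ring
    rw [f0, f1, f2]
    ring
  rw [e1, e2]
  ring

theorem stmt_TYPEK (hT : Stmt_TYPEQ α) (hY : Stmt_YSUM α) : Stmt_TYPEK α := by
  intro τ D μ ν χ χ' h0 hD hne hμ hν
  have h := hT τ D μ ν (fun _ => ∅) (fun _ => ∅) h0 hD hne hμ hν
  have h0' : dual τ D ∅ = Lab.A := by
    unfold dual
    rw [sdiff_empty, hD]
    rfl
  rw [LV_sub hY h0, LV_sub hY h0']
  unfold VALc at h
  unfold VAL
  linarith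

end K

end R5

end
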