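import Mathlib
import Pool.Agent.Work.MP_8b6acb_full.P16

section

/-! Block CUTK: the cut inequality for a legal side functional. -/

namespace R5

namespace K

open Finset MP_8b6acb_co

section congr

open FPARTAux

variable {α : Type} [DecidableEq α]

theorem SGx_congr {τ τ' : Finset α → Lab} {D : Finset α} {ρ ρ' : Finset α → α → ℝ}
    {χ : Finset α → Finset α → ℝ} (hτ : ∀ U ⊆ D, τ U = τ' U)
    (hρ : ∀ X ⊆ D, ∀ g ∈ D, ρ X g = ρ' X g) : SGx τ D ρ χ = SGx τ' D ρ' χ := by
  unfold SGx
  refine sum_congr rfl fun X hX => ?_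
  rw [mem_powerset] at hX
  congr 1
  · congr 1
    · refine sum_congr rfl fun g hg => ?_
      rw [mem_sdiff] at hg
      have e : PP1 τ D X g = PP1 τ' D X g := by
        unfold PP1
        refine sum_congr rfl fun V hV => ?_
        rw [mem_powerset] at hV
        exact pe_congr hτ hX (hV.trans (erase_subset _ _)) hg.1
      rw [e, hρ X hX g hg.1]
    · refine sum_congr rfl fun V hV => sum_congr rfl fun x hx => ?_
      rw [mem_powerset] at hV
      rw [mem_sdiff] at hx
      have hi : insert x V ⊆ D := insert_subset hx.1 hV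
      rw [pe_congr hτ hX hV hx.1, bw_congr hτ]
  · refine sum_congr rfl fun V hV => ?_
    rw [mem_powerset] at hV
    rw [pv_congr hτ hX hV, bwb_congr hτ]

end congr

variable {α : Type} [Fintype α] [DecidableEq α]

/-- The densities of a sink. -/
noncomputable def rT (c : Finset α → Lab) (S : Finset (Finset α)) (a b : Finset α → ℝ)
    (s t : Finset α) : Finset α → α → ℝ :=
  fun U g => NU c S a b t (s ∪ ((t \ s) \ insert g U)) / NU c S a b t (s ∪ ((t \ s) \ U))

open FPARTAux CQ in
/-- The kernels of the sources and of the sinks. -/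
theorem exists_ker {v : Side α} (hv : Legal v) {c : Finset α → Lab} {i j : ℕ}
    {S T : Finset (Finset α)} {a b : Finset α → ℝ} (h : Net c i j S T a b)
    (hj : j ≤ Fintype.card α) :
    ∃ χ χ' : Finset α → Finset α → Finset α → Finset α → ℝ, KerOK c S T a b χ ∧
      KerOK (cc c) (T.image compl) (S.image compl) (fun u => b uᶜ) (fun u => a uᶜ) χ' ∧
      ∀ s ∈ S, ∀ t ∈ T, s ⊆ t →
        VAL (ty c s) (t \ s) (v (ty c s) (t \ s) (rS c T a b s) (LS c s))
          (v (dual (ty c s) (t \ s)) (t \ s) (rT c S a b s t) (LT c t)) ≤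
        VAL (ty c s) (t \ s) (SGx (ty c s) (t \ s) (rS c T a b s) (χ s t))
          (SGx (dual (ty c s) (t \ s)) (t \ s) (rT c S a b s t) (χ' tᶜ sᶜ)) := by
  obtain ⟨χ, h1, h2⟩ := hv.ker c i j S T a b (LS c) h (fun s _ => by
    rw [Finset.disjoint_left]
    intro x hx
    exact (mem_filter.1 hx).2.1)
  obtain ⟨χ', h3, h4⟩ := hv.ker (cc c) (Fintype.card α - j) (Fintype.card α - i) (T.image compl)
    (S.image compl) (fun u => b uᶜ) (fun u => a uᶜ) (fun u => LT c uᶜ) (net_compl h hj)
    (fun u _ => by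
      rw [Finset.disjoint_left]
      intro x hx
      have := (mem_filter.1 hx).1
      exact mem_compl.1 this)
  refine ⟨χ, χ', h1, h3, ?_⟩
  intro s hs t ht hst
  have h5 := h2 s hs t ht hst
  have h6 := h4 tᶜ (mem_image_of_mem _ ht) sᶜ (mem_image_of_mem _ hs)
    (compl_le_compl_iff_le.2 hst)
  simp only [compl_compl, compl_sdiff_compl] at h6
  have hρ : ∀ X ⊆ t \ s, ∀ g ∈ t \ s,
      rS (cc c) (S.image compl) (fun u => b uᶜ) (fun u => a uᶜ) tᶜ X g = rT c S a b s t X g := by
    intro X hX g hg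
    unfold rS rT
    rw [MU_compl c S a b subset_union_left, MU_compl c S a b subset_union_left,
      compl_un hst (insert_subset hg hX), compl_un hst hX]
  rw [hv.congr _ _ (t \ s) _ _ (LT c t) (ty_compl c hst) hρ,
    SGx_congr (ty_compl c hst) hρ] at h6
  unfold VAL
  linarith

open CQ in
/-- The value of a good pair is nonnegative. -/
theorem goodK {v : Side α} {c : Finset α → Lab} {i j q : ℕ} {S T : Finset (Finset α)}
    {a b : Finset α → ℝ}
    (hTI : Stmt_TIV v (j - i) q) (h : Net c i j S T a b) {s t : Finset α} (hs : s ∈ S)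
    (ht : t ∈ T) (hst : s ⊆ t) (hn : nbS c s + nbT c t + 1 ≤ q) :
    0 ≤ VAL (ty c s) (t \ s) (v (ty c s) (t \ s) (rS c T a b s) (LS c s))
        (v (dual (ty c s) (t \ s)) (t \ s) (rT c S a b s t) (LT c t)) +
      Real.log (((j : ℝ) - i) / (q : ℝ)) *
        (PEL (ty c s) (t \ s) + PEL (dual (ty c s) (t \ s)) (t \ s)) := by
  have hlR : ((j - i : ℕ) : ℝ) = (j : ℝ) - i := Nat.cast_sub h.hij.le
  have hcard : (t \ s).card = j - i := by
    rw [card_sdiff_of_subset hst, h.cT t ht, h.cS s hs]
  have h1 := hTI (ty c s) (t \ s) (LS c s) (LT c t) (rS c T a b s) (rT c S a b s t)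
    hcard (by unfold ty; rw [union_empty]; exact h.lS s hs)
    (by unfold ty; rw [union_sdiff_of_subset hst]; exact h.lT t ht)
    (by
      intro x hx
      have e : s ∪ {x} = insert x s := by rw [union_comm]; rfl
      unfold ty LS
      rw [e, mem_filter]
      have := (mem_sdiff.1 hx).2
      simp [this])
    (by
      intro x hx
      have hx' := mem_sdiff.1 hx
      have e : s ∪ ((t \ s).erase x) = t.erase x := by
        ext y
        simp only [mem_union, mem_erase, mem_sdiff]
        constructor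
        · rintro (h | h)
          · exact ⟨fun hyx => hx'.2 (hyx ▸ h), hst h⟩
          · exact ⟨h.1, h.2.1⟩
        · rintro ⟨h1, h2⟩
          by_cases h3 : y ∈ s
          · exact Or.inl h3
          · exact Or.inr ⟨h1, h2, h3⟩
      unfold ty CQ.LT
      rw [e, mem_filter]
      simp [hx'.1])
    (by exact hn)
    (rhoS h hs ht hst) (rhoT h hs ht)
  rw [hlR] at h1
  exact h1

open CQ in
theorem stmt_CUTK {v : Side α} (hv : Legal v) (hM : Stmt_MAINNETK α) (hH : Stmt_HALLM) :
    Stmt_CUTK v := by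
  intro i j q S φ c hij hq1 hq hTI hmat hcS hcT hnb
  set T := S.image φ with hT
  set E := (netE c i j S T).card with hE
  set X := (netX c i j).card with hX
  by_cases hSe : S = ∅
  · rw [hSe]; simp
  have hSne : S.Nonempty := nonempty_iff_ne_empty.2 hSe
  have hij' : i < j := by omega
  have hlR : ((j - i : ℕ) : ℝ) = (j : ℝ) - i := Nat.cast_sub hij'.le
  have hqpos : (0 : ℝ) < q := by exact_mod_cast hq1
  have hql : (q : ℝ) ≤ (j : ℝ) - i := by rw [← hlR]; exact_mod_cast hq
  have hcTj : ∀ t ∈ T, t.card = j := by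
    intro t ht
    obtain ⟨s, hs, rfl⟩ := mem_image.1 ht
    exact hmat.cT s hs
  have hj : j ≤ Fintype.card α := by
    obtain ⟨s0, hs0⟩ := hSne
    rw [← hmat.cT s0 hs0]
    exact card_le_univ _
  have hlog0 : 0 ≤ Real.log (((j : ℝ) - i) / (q : ℝ)) := by
    refine Real.log_nonneg ?_
    rw [le_div_iff₀ hqpos]; linarith
  -- the constants
  have hK : ∀ s t : Finset α, ∃ K : ℝ, 0 ≤ K ∧ (s ∈ S → t ∈ T → s ⊆ t →
      ∀ ρS ρT : Finset α → α → ℝ,
      (∀ X ⊆ t \ s, ∀ g ∈ (t \ s) \ X, 0 < ρS X g ∧ ρS X g ≤ 1) →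
      (∀ X ⊆ t \ s, ∀ g ∈ (t \ s) \ X, 0 < ρT X g ∧ ρT X g ≤ 1) →
      -K ≤ VAL (ty c s) (t \ s) (v (ty c s) (t \ s) ρS (LS c s))
        (v (dual (ty c s) (t \ s)) (t \ s) ρT (LT c t))) := by
    intro s t
    refine ⟨|Real.log ((t \ s).card : ℝ) *
      (PEL (ty c s) (t \ s) + PEL (dual (ty c s) (t \ s)) (t \ s)) + COST1 (ty c s) (t \ s)|,
      abs_nonneg _, fun hs ht hst ρS ρT h1 h2 => ?_⟩
    have e0 : ty c s ∅ = Lab.A := by unfold ty; rw [union_empty]; exact hcS s hs
    have e1 : ty c s (t \ s) = Lab.B := by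
      unfold ty; rw [union_sdiff_of_subset hst]; exact hcT t ht
    have h3 := hv.nonneg (ty c s) (t \ s) ρS (LS c s) e0 e1 h1
    have h4 := hv.nonneg (dual (ty c s) (t \ s)) (t \ s) ρT (LT c t) (TypeFin.dual_empty e1)
      (TypeFin.dual_full e0) h2
    have h5 := le_abs_self (Real.log ((t \ s).card : ℝ) *
      (PEL (ty c s) (t \ s) + PEL (dual (ty c s) (t \ s)) (t \ s)) + COST1 (ty c s) (t \ s))
    unfold VAL
    linarith
  choose K hK0 hK using hK
  set K0 : ℝ := ∑ s ∈ S, ∑ t ∈ T.filter (fun t => s ⊆ t),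
    2 * (S.card : ℝ) * K s t / Zt (ty c s) (t \ s) with hK0def
  have hZ : ∀ s ∈ S, ∀ D : Finset α, 0 < Zt (ty c s) D := fun s hs D =>
    C3.Zt_pos (by unfold ty; rw [union_empty]; exact hcS s hs)
  have hK0nn : 0 ≤ K0 := by
    refine sum_nonneg fun s hs => sum_nonneg fun t _ => ?_
    exact div_nonneg (mul_nonneg (by positivity) (hK0 s t)) (hZ s hs _).le
  -- the approximate inequality
  have key : ∀ ε : ℝ, 0 < ε → ε < 1 →
      (S.card : ℝ) * (1 - ε) ≤ (1 + ε) * ((E : ℝ) + (q : ℝ) * X) / q + ε * K0 := by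
    intro ε hε hε1
    obtain ⟨a, b, ha, hb, h1, h2⟩ := C3.sink_finset S φ hmat.inj
      (fun s t => if s ⊆ t then Zt (ty c s) (t \ s) else 0)
      (fun s hs t _ => by
        split_ifs
        · exact (hZ s hs _).le
        · exact le_rfl)
      (fun s hs => by
        rw [if_pos (hmat.sub s hs)]
        exact hZ s hs _) hε
    rw [← hT] at h1 h2
    have hnet : Net c i j S T a b :=
      ⟨hij', hmat.cS, hcTj, hcS, hcT, fun s _ => ha s, fun t _ => hb t⟩
    have hMU : ∀ s, MU c T a b s s =
        ∑ t ∈ T, a s * b t * (if s ⊆ t then Zt (ty c s) (t \ s) else 0) := by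
      intro s
      unfold MU
      rw [sum_filter]
      refine sum_congr rfl fun t _ => ?_
      split_ifs <;> simp
    have hNU : ∀ t, NU c S a b t t =
        ∑ s ∈ S, a s * b t * (if s ⊆ t then Zt (ty c s) (t \ s) else 0) := by
      intro t
      unfold NU
      rw [sum_filter]
      refine sum_congr rfl fun s _ => ?_
      split_ifs <;> simp
    have hMU1 : ∀ s ∈ S, 1 - ε ≤ MU c T a b s s ∧ MU c T a b s s ≤ 1 + ε := by
      intro s hs
      have := abs_le.1 (h1 s hs)
      rw [hMU]
      constructor <;> linarith [this.1, this.2]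
    have hNU1 : ∀ t ∈ T, NU c S a b t t ≤ 1 + ε := by
      intro t ht
      have := abs_le.1 (h2 t ht)
      rw [hNU]
      linarith [this.2]
    set W := ∑ s ∈ S, ∑ t ∈ T.filter (fun t => s ⊆ t), a s * b t * Zt (ty c s) (t \ s) with hW
    have hWMU : W = ∑ s ∈ S, MU c T a b s s := rfl
    have hW1 : S.card * (1 - ε) ≤ W := by
      rw [hWMU]
      calc (S.card : ℝ) * (1 - ε) = ∑ _s ∈ S, (1 - ε) := by rw [sum_const, nsmul_eq_mul]
        _ ≤ _ := sum_le_sum fun s hs => (hMU1 s hs).1
    have hWpos : 0 < W := by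
      have : (0 : ℝ) < S.card := by exact_mod_cast hSne.card_pos
      have h3 : 0 < 1 - ε := by linarith
      have := mul_pos this h3
      linarith
    obtain ⟨χ, χ', hχ, hχ', hval⟩ := exists_ker hv hnet hj
    have hmain := hM c i j S T a b (1 + ε) q χ χ' hnet (by linarith) hq1 hχ hχ'
      (fun s hs => (hMU1 s hs).2) hNU1 W rfl hWpos
    -- C > 0
    have hobj : 0 < E + X := by
      obtain ⟨s, hs⟩ := hSne
      exact C3.exists_object hs (mem_image_of_mem φ hs) (hmat.sub s hs) (hmat.cS s hs)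
        (hmat.cT s hs) (hcS s hs) (hcT _ (mem_image_of_mem φ hs)) hij'
    set C : ℝ := (E : ℝ) + (q : ℝ) * X with hC
    have hE0 : (0 : ℝ) ≤ E := Nat.cast_nonneg _
    have hX0 : (0 : ℝ) ≤ X := Nat.cast_nonneg _
    have hCpos : 0 < C := by
      rcases Nat.eq_zero_or_pos E with h | h
      · have hX1 : (0 : ℝ) < X := by exact_mod_cast (by omega : 0 < X)
        rw [hC]
        have := mul_pos hqpos hX1
        linarith
      · have : (0 : ℝ) < E := by exact_mod_cast h
        have h3 := mul_nonneg hqpos.le hX0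
        rw [hC]; linarith
    have hlog : W * Real.log ((1 + ε) * C / ((q : ℝ) * W)) ≤ (1 + ε) * C / (q : ℝ) - W := by
      have hpos : 0 < (1 + ε) * C / ((q : ℝ) * W) := by positivity
      have h3 := Real.log_le_sub_one_of_pos hpos
      have h4 := mul_le_mul_of_nonneg_left h3 hWpos.le
      refine h4.trans (le_of_eq ?_)
      field_simp
    -- lower bound for the left side
    have hlow : -(ε * K0) ≤ ∑ s ∈ S, ∑ t ∈ T.filter (fun t => s ⊆ t), a s * b t *
        (VAL (ty c s) (t \ s) (SGx (ty c s) (t \ s) (rS c T a b s) (χ s t))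
            (SGx (dual (ty c s) (t \ s)) (t \ s) (rT c S a b s t) (χ' tᶜ sᶜ)) +
          Real.log (((j : ℝ) - i) / (q : ℝ)) *
            (PEL (ty c s) (t \ s) + PEL (dual (ty c s) (t \ s)) (t \ s))) := by
      rw [hK0def, mul_sum, ← sum_neg_distrib]
      refine sum_le_sum fun s hs => ?_
      rw [mul_sum, ← sum_neg_distrib]
      refine sum_le_sum fun t ht => ?_
      rw [mem_filter] at ht
      obtain ⟨ht, hst⟩ := ht
      have hnn : 0 ≤ ε * (2 * (S.card : ℝ) * K s t / Zt (ty c s) (t \ s)) :=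
        mul_nonneg hε.le (div_nonneg (mul_nonneg (by positivity) (hK0 s t)) (hZ s hs _).le)
      have hab : 0 < a s * b t := mul_pos (ha s) (hb t)
      rcases hH (Finset α) (Finset α) S T (fun s t => s ⊆ t)
        (fun s t => a s * b t * (if s ⊆ t then Zt (ty c s) (t \ s) else 0)) ε φ hε.le hmat.inj
        hT.symm hmat.sub (fun s hs t _ => by
          refine mul_nonneg (mul_pos (ha s) (hb t)).le ?_
          split_ifs
          · exact (hZ s hs _).le
          · exact le_rfl) (fun s _ t _ hn => by rw [if_neg hn, mul_zero]) h1 h2 s hs t ht with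
        ⟨φ', hinj, him, hsub, hφ⟩ | hsmall
      · have hmat' : Mat i j S φ' := by
          refine ⟨hmat.cS, fun s' hs' => hcTj _ ?_, hinj, hsub⟩
          rw [← him]
          exact mem_image_of_mem _ hs'
        have hn := hnb φ' hmat' him s hs
        rw [hφ] at hn
        have h0 := goodK hTI hnet hs ht hst hn
        have h1' := hval s hs t ht hst
        have := mul_nonneg hab.le (h0.trans (add_le_add_left h1' _))
        linarith
      · simp only [if_pos hst] at hsmall
        have hZst := hZ s hs (t \ s)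
        have hab2 : a s * b t ≤ 2 * ε * (S.card : ℝ) / Zt (ty c s) (t \ s) := by
          rw [le_div_iff₀ hZst]; exact hsmall
        have hvK := hK s t hs ht hst _ _ (rhoS hnet hs ht hst) (rhoT hnet hs ht)
        have h1' := hval s hs t ht hst
        have hp : 0 ≤ Real.log (((j : ℝ) - i) / (q : ℝ)) *
            (PEL (ty c s) (t \ s) + PEL (dual (ty c s) (t \ s)) (t \ s)) :=
          mul_nonneg hlog0 (add_nonneg (PEL_nonneg _ _) (PEL_nonneg _ _))
        have h5 : -K s t ≤ VAL (ty c s) (t \ s) (SGx (ty c s) (t \ s) (rS c T a b s) (χ s t))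
            (SGx (dual (ty c s) (t \ s)) (t \ s) (rT c S a b s t) (χ' tᶜ sᶜ)) +
          Real.log (((j : ℝ) - i) / (q : ℝ)) *
            (PEL (ty c s) (t \ s) + PEL (dual (ty c s) (t \ s)) (t \ s)) := by
          have h0 : -K s t ≤ VAL (ty c s) (t \ s)
            (v (ty c s) (t \ s) (rS c T a b s) (LS c s))
            (v (dual (ty c s) (t \ s)) (t \ s) (rT c S a b s t) (LT c t)) := hvK
          linarith
        have h6 := mul_le_mul_of_nonneg_left h5 hab.le
        have h7 := mul_le_mul_of_nonneg_right hab2 (hK0 s t)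
        have h8 : ε * (2 * (S.card : ℝ) * K s t / Zt (ty c s) (t \ s)) =
            2 * ε * (S.card : ℝ) / Zt (ty c s) (t \ s) * K s t := by ring
        rw [h8]
        have h9 : a s * b t * -K s t = -(a s * b t * K s t) := by ring
        rw [h9] at h6
        linarith
    have hfin := (hlow.trans hmain).trans hlog
    linarith
  -- let ε → 0
  by_contra hcon
  rw [not_le] at hcon
  have hint : (E : ℝ) + (q : ℝ) * X + 1 ≤ (q : ℝ) * S.card := by
    exact_mod_cast hcon
  set C : ℝ := (E : ℝ) + (q : ℝ) * X with hC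
  have hC0 : 0 ≤ C := by positivity
  set N : ℝ := (q : ℝ) * S.card with hN
  have hN0 : 0 < N := by linarith
  have h := key (1 / (2 * (N + C + q * K0 + 1))) (by positivity) (by
    rw [div_lt_one (by positivity)]
    have := mul_nonneg hqpos.le hK0nn
    linarith)
  set δ : ℝ := 1 / (2 * (N + C + q * K0 + 1)) with hδ
  have hδ0 : 0 < δ := by positivity
  have h2 := mul_le_mul_of_nonneg_left h hqpos.le
  have h3 : (q : ℝ) * ((S.card : ℝ) * (1 - δ)) = N - N * δ := by rw [hN]; ring
  have h4 : (q : ℝ) * ((1 + δ) * C / q + δ * K0) = C + δ * C + δ * (q * K0) := by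
    field_simp
  rw [h3, h4] at h2
  have h5 : δ * (N + C + q * K0) < 1 := by
    rw [hδ, one_div, inv_mul_lt_iff₀ (by positivity)]
    have := mul_nonneg hqpos.le hK0nn
    linarith
  nlinarith

end K

end R5

end

section

/-! # The set-level engine: assembly of the blocks -/

namespace R5

namespace K

open MP_8b6acb_co

theorem fs_type (α : Type) [DecidableEq α] : Stmt_TYPEK α := stmt_TYPEK (fq_type α) stmt_YSUM

theorem fs_lpart (α : Type) [Fintype α] [DecidableEq α] : Stmt_LPARTK α :=
  stmt_LPARTK α (stmt_ONE stmt_GIBBS) stmt_YSUM (stmt_NETE α) (stmt_NETX α)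

theorem fs_mainnet (α : Type) [Fintype α] [DecidableEq α] : Stmt_MAINNETK α :=
  stmt_MAINNETK α (fs_lpart α) (stmt_FPARTK α (fs_lpart α)) (fs_type α)
    (stmt_MASS stmt_GMASS) stmt_GIBBS

/-- Every legal side functional gives the cut condition. -/
theorem fs_pp {α : Type} [Fintype α] [DecidableEq α] {v : Side α} (hv : Legal v) :
    Stmt_PPK v :=
  stmt_PPK (stmt_CUTK hv (fs_mainnet α) stmt_HALLM) (stmt_MINC α)

theorem fs_legal (α : Type) [Fintype α] [DecidableEq α] : Legal (vset (α := α)) :=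
  legal_vset (fq_ksum α) (stmt_KLOG α)

/-- **The engine for a legal side functional.** -/
theorem engineK (d i j q : ℕ) (v : Side (Fin d)) (hv : Legal v) (hij : i + 2 ≤ j) (h1 : 1 ≤ q)
    (hq : q ≤ j - i) (hTI : Stmt_TIV v (j - i) q) (S T : Finset (Vtx d))
    (hS : ∀ s ∈ S, wt s = i) (hT : ∀ t ∈ T, wt t = j) (hST : Matched S T) :
    HasEdgeDisjointLR q S T :=
  hasEdgeDisjointLR (fs_pp hv i j q hij h1 hq hTI) (by omega) S T hS hT hST

/-- **The engine for the set kernel.** The typewise inequality implies the linking property. -/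
theorem engineS : Stmt_ENGINES := by
  intro d i j q hij h1 hq hTI S T hS hT hST
  exact engineK d i j q vset (fs_legal (Fin d)) hij h1 hq hTI S T hS hT hST

end K

end R5

end

section

/-! # The typewise inequality for the capacity `l` gives it for all smaller capacities -/

namespace R5

namespace K

open Finset MP_8b6acb_co

/-- **The full theorem from the typewise inequality.** -/
theorem all_systems (hTIS : ∀ (d l : ℕ), 2 ≤ l → Stmt_TIS (Fin d) l l) {d i j : ℕ}
    (hij : i < j) (h1 : j = i + 1 → ∀ (S T : Finset (Vtx d)), (∀ s ∈ S, wt s = i) →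
      (∀ t ∈ T, wt t = j) → Matched S T → HasEdgeDisjointLR 1 S T)
    (S T : Finset (Vtx d)) (hS : ∀ s ∈ S, wt s = i) (hT : ∀ t ∈ T, wt t = j)
    (hST : Matched S T) : HasEdgeDisjointLR (j - i) S T := by
  rcases Nat.lt_or_ge j (i + 2) with h | h
  · have hj : j = i + 1 := by omega
    have e : j - i = 1 := by omega
    rw [e]
    exact h1 hj S T hS hT hST
  · exact engineS d i j (j - i) h (by omega) le_rfl (hTIS d (j - i) (by omega)) S T hS hT hST

end K

end R5

end
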