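import Mathlib
import Pool.Agent.Work.MP_8b6acb_full.P07

section

/-!
# Averages over the orders of a finite set (helper55)
-/

namespace R5

open Finset

variable {α : Type} [DecidableEq α]

/-- The orders of `G`. -/
theorem mem_seqs_card {G : Finset α} {l : List α} :
    l ∈ seqs G.card G ↔ l.Nodup ∧ l.toFinset = G := by
  constructor
  · intro h
    exact ⟨(mem_seqs.1 h).1, toFinset_eq_of_mem_seqs h⟩
  · rintro ⟨h1, h2⟩
    refine mem_seqs.2 ⟨h1, ?_, ?_⟩
    · rw [← List.toFinset_card_of_nodup h1, h2]
    · intro x hx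
      rw [← h2]
      exact List.mem_toFinset.2 hx

theorem length_of_mem {G : Finset α} {l : List α} (h : l ∈ seqs G.card G) :
    l.length = G.card := (mem_seqs.1 h).2.1

/-- Average over the orders of `G`. -/
noncomputable def Av (G : Finset α) (f : List α → ℝ) : ℝ :=
  (∑ π ∈ seqs G.card G, f π) / (G.card.factorial : ℝ)

theorem Av_congr {G : Finset α} {f f' : List α → ℝ} (h : ∀ π ∈ seqs G.card G, f π = f' π) :
    Av G f = Av G f' := by
  unfold Av
  rw [sum_congr rfl h]

theorem Av_mono {G : Finset α} {f f' : List α → ℝ} (h : ∀ π ∈ seqs G.card G, f π ≤ f' π) :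
    Av G f ≤ Av G f' := by
  unfold Av
  exact div_le_div_of_nonneg_right (sum_le_sum h) (Nat.cast_nonneg _)

theorem Av_const (G : Finset α) (c : ℝ) : Av G (fun _ => c) = c := by
  unfold Av
  rw [sum_const, card_seqs_card, nsmul_eq_mul]
  have : (0 : ℝ) < (G.card.factorial : ℝ) := by exact_mod_cast Nat.factorial_pos _
  field_simp

theorem Av_nonneg {G : Finset α} {f : List α → ℝ} (h : ∀ π ∈ seqs G.card G, 0 ≤ f π) :
    0 ≤ Av G f := by
  unfold Av
  exact div_nonneg (sum_nonneg h) (Nat.cast_nonneg _)

theorem Av_add (G : Finset α) (f f' : List α → ℝ) :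
    Av G (fun π => f π + f' π) = Av G f + Av G f' := by
  unfold Av
  rw [sum_add_distrib, add_div]

theorem Av_sub (G : Finset α) (f f' : List α → ℝ) :
    Av G (fun π => f π - f' π) = Av G f - Av G f' := by
  unfold Av
  rw [sum_sub_distrib, sub_div]

theorem Av_neg (G : Finset α) (f : List α → ℝ) :
    Av G (fun π => -f π) = -Av G f := by
  unfold Av
  rw [sum_neg_distrib, neg_div]

theorem Av_mul (G : Finset α) (c : ℝ) (f : List α → ℝ) :
    Av G (fun π => c * f π) = c * Av G f := by
  unfold Av
  rw [← mul_sum, mul_div_assoc]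

theorem Av_mul_right (G : Finset α) (c : ℝ) (f : List α → ℝ) :
    Av G (fun π => f π * c) = Av G f * c := by
  unfold Av
  rw [← sum_mul, div_mul_eq_mul_div]

theorem Av_div (G : Finset α) (c : ℝ) (f : List α → ℝ) :
    Av G (fun π => f π / c) = Av G f / c := by
  simp only [div_eq_mul_inv]
  exact Av_mul_right G _ f

theorem Av_sum {ι : Type*} (G : Finset α) (s : Finset ι) (f : ι → List α → ℝ) :
    Av G (fun π => ∑ i ∈ s, f i π) = ∑ i ∈ s, Av G (f i) := by
  unfold Av
  rw [sum_comm, sum_div]

theorem Av_zero (G : Finset α) : Av G (fun _ => 0) = 0 := Av_const G 0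

theorem Av_empty (f : List α → ℝ) : Av ∅ f = f [] := by
  unfold Av
  simp [seqs_zero]

/-- first element -/
theorem Av_cons {G : Finset α} (hG : G.Nonempty) (f : List α → ℝ) :
    Av G f = (∑ g ∈ G, Av (G.erase g) (fun π => f (g :: π))) / (G.card : ℝ) := by
  obtain ⟨n, hn⟩ : ∃ n, G.card = n + 1 := Nat.exists_eq_succ_of_ne_zero (card_pos.2 hG).ne'
  have h1 : ∀ g ∈ G, (G.erase g).card = n := fun g hg => by rw [card_erase_of_mem hg, hn]; rfl
  unfold Av
  rw [hn, sum_seqs_succ, Nat.factorial_succ]
  have h2 : ∀ g ∈ G, (∑ π ∈ seqs (G.erase g).card (G.erase g), f (g :: π)) /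
      ((G.erase g).card.factorial : ℝ) = (∑ π ∈ seqs n (G.erase g), f (g :: π)) /
      (n.factorial : ℝ) := by
    intro g hg
    rw [h1 g hg]
  rw [sum_congr rfl h2, ← sum_div, div_div]
  congr 1
  push_cast
  ring

/-- reversal -/
theorem Av_reverse (G : Finset α) (f : List α → ℝ) :
    Av G (fun π => f π.reverse) = Av G f := by
  unfold Av
  congr 1
  refine sum_bij' (fun π _ => π.reverse) (fun π _ => π.reverse) ?_ ?_ ?_ ?_ ?_
  · intro π hπ
    rw [mem_seqs_card] at hπ ⊢
    exact ⟨List.nodup_reverse.2 hπ.1, by rw [List.toFinset_reverse, hπ.2]⟩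
  · intro π hπ
    rw [mem_seqs_card] at hπ ⊢
    exact ⟨List.nodup_reverse.2 hπ.1, by rw [List.toFinset_reverse, hπ.2]⟩
  · intro π _
    exact List.reverse_reverse π
  · intro π _
    exact List.reverse_reverse π
  · intro π _
    rfl

/-- last element -/
theorem Av_snoc {G : Finset α} (hG : G.Nonempty) (f : List α → ℝ) :
    Av G f = (∑ g ∈ G, Av (G.erase g) (fun π => f (π ++ [g]))) / (G.card : ℝ) := by
  rw [← Av_reverse G f, Av_cons hG]
  congr 1
  refine sum_congr rfl fun g _ => ?_
  rw [← Av_reverse (G.erase g) (fun π => f (π ++ [g]))]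
  refine Av_congr fun π _ => ?_
  rw [List.reverse_cons]

/-- splitting at level `k` -/
theorem Av_split (k : ℕ) : ∀ (G : Finset α), k ≤ G.card → ∀ (f : List α → ℝ),
    Av G f = (∑ U ∈ powersetCard k G, Av U (fun π1 => Av (G \ U) (fun π2 => f (π1 ++ π2)))) /
      (G.card.choose k : ℝ) := by
  induction k with
  | zero =>
    intro G _ f
    rw [powersetCard_zero, sum_singleton, Av_empty, sdiff_empty, Nat.choose_zero_right]
    simp
  | succ k ih =>
    intro G hk f
    have hG : G.Nonempty := card_pos.1 (by omega)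
    rw [Av_cons hG]
    have h1 : ∀ g ∈ G, Av (G.erase g) (fun π => f (g :: π)) =
        (∑ U ∈ powersetCard k (G.erase g), Av U (fun π1 => Av ((G.erase g) \ U)
          (fun π2 => f (g :: (π1 ++ π2))))) / ((G.card - 1).choose k : ℝ) := by
      intro g hg
      rw [ih (G.erase g) (by rw [card_erase_of_mem hg]; omega), card_erase_of_mem hg]
    rw [sum_congr rfl h1, ← sum_div, div_div]
    have h2 : ∑ U ∈ powersetCard (k + 1) G, Av U (fun π1 => Av (G \ U)
        (fun π2 => f (π1 ++ π2))) =
        (∑ g ∈ G, ∑ U ∈ powersetCard k (G.erase g), Av U (fun π1 => Av ((G.erase g) \ U)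
          (fun π2 => f (g :: (π1 ++ π2))))) / ((k : ℝ) + 1) := by
      have h3 : ∀ U ∈ powersetCard (k + 1) G, Av U (fun π1 => Av (G \ U)
          (fun π2 => f (π1 ++ π2))) = (∑ g ∈ U, Av (U.erase g) (fun π1 => Av (G \ U)
          (fun π2 => f (g :: (π1 ++ π2))))) / ((k : ℝ) + 1) := by
        intro U hU
        obtain ⟨hU1, hU2⟩ := mem_powersetCard.1 hU
        rw [Av_cons (card_pos.1 (by omega)), hU2]
        push_cast
        rfl
      rw [sum_congr rfl h3, ← sum_div]
      congr 1
      rw [sum_sigma', sum_sigma']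
      refine sum_bij' (fun p _ => (⟨p.2, p.1.erase p.2⟩ : (_ : α) × Finset α))
        (fun p _ => (⟨insert p.1 p.2, p.1⟩ : (_ : Finset α) × α)) ?_ ?_ ?_ ?_ ?_
      · rintro ⟨U, x⟩ h
        simp only [mem_sigma, mem_powersetCard] at h ⊢
        refine ⟨h.1.1 h.2, erase_subset_erase _ h.1.1, ?_⟩
        rw [card_erase_of_mem h.2, h.1.2]
        rfl
      · rintro ⟨x, U⟩ h
        simp only [mem_sigma, mem_powersetCard] at h ⊢
        have hx : x ∉ U := fun hx => notMem_erase x G (h.2.1 hx)
        refine ⟨⟨insert_subset h.1 (h.2.1.trans (erase_subset _ _)), ?_⟩, mem_insert_self _ _⟩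
        rw [card_insert_of_notMem hx, h.2.2]
      · rintro ⟨U, x⟩ h
        simp only [mem_sigma, mem_powersetCard] at h
        simp only [insert_erase h.2]
      · rintro ⟨x, U⟩ h
        simp only [mem_sigma, mem_powersetCard] at h
        have hx : x ∉ U := fun hx => notMem_erase x G (h.2.1 hx)
        simp only [erase_insert hx]
      · rintro ⟨U, x⟩ h
        simp only [mem_sigma, mem_powersetCard] at h
        have e : (G.erase x) \ (U.erase x) = G \ U := by
          ext y
          simp only [mem_sdiff, mem_erase]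
          constructor
          · rintro ⟨⟨h1, h2⟩, h3⟩
            exact ⟨h2, fun h4 => h3 ⟨h1, h4⟩⟩
          · rintro ⟨h1, h2⟩
            exact ⟨⟨fun h3 => h2 (h3 ▸ h.2), h1⟩, fun h3 => h2 h3.2⟩
        simp only [e]
    rw [h2, div_div]
    congr 1
    have h4 : (G.card : ℝ) * ((G.card - 1).choose k : ℝ) =
        ((k : ℝ) + 1) * (G.card.choose (k + 1) : ℝ) := by
      obtain ⟨n, hn⟩ : ∃ n, G.card = n + 1 := Nat.exists_eq_succ_of_ne_zero (card_pos.2 hG).ne'
      rw [hn, Nat.add_sub_cancel]
      have h5 := Nat.add_one_mul_choose_eq n k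
      have h6 : ((n + 1 : ℕ) : ℝ) * (n.choose k : ℝ) =
          ((n + 1).choose (k + 1) : ℝ) * ((k + 1 : ℕ) : ℝ) := by exact_mod_cast h5
      push_cast at h6 ⊢
      linarith
    linarith

/-- splitting a function of the two pieces -/
theorem Av_take_drop {G : Finset α} {k : ℕ} (hk : k ≤ G.card) (F : List α → List α → ℝ) :
    Av G (fun π => F (π.take k) (π.drop k)) =
      (∑ U ∈ powersetCard k G, Av U (fun π1 => Av (G \ U) (fun π2 => F π1 π2))) /
        (G.card.choose k : ℝ) := by
  rw [Av_split k G hk]
  congr 1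
  refine sum_congr rfl fun U hU => ?_
  obtain ⟨hU1, hU2⟩ := mem_powersetCard.1 hU
  refine Av_congr fun π1 h1 => ?_
  have hl : π1.length = k := by rw [length_of_mem h1, hU2]
  refine Av_congr fun π2 _ => ?_
  rw [List.take_left' hl, List.drop_left' hl]

end R5

end

section

/-!
# Prefix sets, initial A-runs and final B-runs (helper55)
-/

namespace R5

open Finset

variable {α : Type} [DecidableEq α]

/-- prefix sets of an order -/
def pre (π : List α) (j : ℕ) : Finset α := (π.take j).toFinset

/-- all prefix sets up to level `i` have label `A` -/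
def allA (τ : Finset α → Lab) (π : List α) (i : ℕ) : Prop :=
  ∀ j ∈ range (i + 1), τ (pre π j) = Lab.A

instance (τ : Finset α → Lab) (π : List α) (i : ℕ) : Decidable (allA τ π i) := by
  unfold allA; infer_instance

/-- all prefix sets from level `j` on have label `B` -/
def allB (τ : Finset α → Lab) (π : List α) (j : ℕ) : Prop :=
  ∀ i ∈ Icc j π.length, τ (pre π i) = Lab.B

instance (τ : Finset α → Lab) (π : List α) (j : ℕ) : Decidable (allB τ π j) := by
  unfold allB; infer_instance

/-- all sets `V ∪ prefix` have label `B` -/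
def goodB (τ : Finset α → Lab) (V : Finset α) (π : List α) : Prop :=
  ∀ i ∈ range (π.length + 1), τ (V ∪ pre π i) = Lab.B

instance (τ : Finset α → Lab) (V : Finset α) (π : List α) : Decidable (goodB τ V π) := by
  unfold goodB; infer_instance

@[simp] theorem pre_zero (π : List α) : pre π 0 = ∅ := by simp [pre]

@[simp] theorem pre_nil (j : ℕ) : pre ([] : List α) j = ∅ := by simp [pre]

theorem pre_of_ge {π : List α} {j : ℕ} (h : π.length ≤ j) : pre π j = π.toFinset := by
  unfold pre
  rw [List.take_of_length_le h]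

theorem pre_cons_succ (x : α) (π : List α) (i : ℕ) :
    pre (x :: π) (i + 1) = insert x (pre π i) := by
  unfold pre
  rw [List.take_succ_cons, List.toFinset_cons]

theorem pre_append_le {π1 π2 : List α} {j : ℕ} (h : j ≤ π1.length) :
    pre (π1 ++ π2) j = pre π1 j := by
  unfold pre
  rw [List.take_append_of_le_length h]

theorem pre_append_add {π1 π2 : List α} {i : ℕ} :
    pre (π1 ++ π2) (π1.length + i) = π1.toFinset ∪ pre π2 i := by
  unfold pre
  rw [List.take_length_add_append, List.toFinset_append]

theorem pre_take {π : List α} {i j : ℕ} (h : i ≤ j) : pre (π.take j) i = pre π i := by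
  unfold pre
  rw [List.take_take, min_eq_left h]

theorem pre_mono {π : List α} {i j : ℕ} (h : i ≤ j) : pre π i ⊆ pre π j := by
  intro x hx
  unfold pre at hx ⊢
  rw [List.mem_toFinset] at hx ⊢
  exact (List.take_sublist_take_left h).subset hx

theorem pre_subset (π : List α) (j : ℕ) : pre π j ⊆ π.toFinset := by
  intro x hx
  unfold pre at hx
  rw [List.mem_toFinset] at hx ⊢
  exact List.mem_of_mem_take hx

theorem pre_subset_of_mem {G : Finset α} {π : List α} (h : π ∈ seqs G.card G) (j : ℕ) :
    pre π j ⊆ G := by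
  have := pre_subset π j
  rwa [(mem_seqs_card.1 h).2] at this

theorem pre_card_of_mem {G : Finset α} {π : List α} (h : π ∈ seqs G.card G) {j : ℕ}
    (hj : G.card ≤ j) : pre π j = G := by
  rw [pre_of_ge (by rw [length_of_mem h]; exact hj), (mem_seqs_card.1 h).2]

theorem card_pre {π : List α} (h : π.Nodup) {j : ℕ} (hj : j ≤ π.length) : (pre π j).card = j := by
  unfold pre
  rw [List.toFinset_card_of_nodup (h.sublist (List.take_sublist _ _)), List.length_take,
    min_eq_left hj]

theorem card_pre_of_mem {G : Finset α} {π : List α} (h : π ∈ seqs G.card G) {j : ℕ}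
    (hj : j ≤ G.card) : (pre π j).card = j :=
  card_pre (mem_seqs_card.1 h).1 (by rw [length_of_mem h]; exact hj)

theorem take_mem {G : Finset α} {π : List α} (h : π ∈ seqs G.card G) (j : ℕ) :
    π.take j ∈ seqs (pre π j).card (pre π j) := by
  rw [mem_seqs_card]
  exact ⟨(mem_seqs_card.1 h).1.sublist (List.take_sublist _ _), rfl⟩

theorem drop_mem {G : Finset α} {π : List α} (h : π ∈ seqs G.card G) (j : ℕ) :
    π.drop j ∈ seqs (G \ pre π j).card (G \ pre π j) := by
  rw [mem_seqs_card]
  obtain ⟨h1, h2⟩ := mem_seqs_card.1 h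
  refine ⟨h1.sublist (List.drop_sublist _ _), ?_⟩
  ext x
  rw [List.mem_toFinset, mem_sdiff, ← h2]
  unfold pre
  rw [List.mem_toFinset, List.mem_toFinset]
  have h3 : x ∈ π ↔ x ∈ π.take j ∨ x ∈ π.drop j := by
    rw [← List.mem_append, List.take_append_drop]
  have h4 : List.Disjoint (π.take j) (π.drop j) := by
    have : (π.take j ++ π.drop j).Nodup := by rw [List.take_append_drop]; exact h1
    exact (List.nodup_append'.1 this).2.2
  constructor
  · intro hx
    exact ⟨h3.2 (Or.inr hx), fun h5 => h4 h5 hx⟩
  · rintro ⟨h5, h6⟩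
    exact (h3.1 h5).resolve_left h6

theorem allA_mono {τ : Finset α → Lab} {π : List α} {i j : ℕ} (h : i ≤ j) (hj : allA τ π j) :
    allA τ π i := fun k hk => hj k (by rw [mem_range] at hk ⊢; omega)

theorem allB_mono {τ : Finset α → Lab} {π : List α} {i j : ℕ} (h : i ≤ j) (hi : allB τ π i) :
    allB τ π j := fun k hk => hi k (by rw [mem_Icc] at hk ⊢; omega)

theorem allA_congr {τ : Finset α → Lab} {π π' : List α} {i : ℕ}
    (h : ∀ j ≤ i, pre π j = pre π' j) : allA τ π i ↔ allA τ π' i := by
  constructor
  · intro hA k hk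
    rw [← h _ (by rw [mem_range] at hk; omega)]
    exact hA k hk
  · intro hA k hk
    rw [h _ (by rw [mem_range] at hk; omega)]
    exact hA k hk

theorem allA_take {τ : Finset α → Lab} {π : List α} {i j : ℕ} (h : i ≤ j) :
    allA τ (π.take j) i ↔ allA τ π i := allA_congr fun k hk => pre_take (hk.trans h)

theorem allA_append {τ : Finset α → Lab} {π1 π2 : List α} {i : ℕ} (h : i ≤ π1.length) :
    allA τ (π1 ++ π2) i ↔ allA τ π1 i := allA_congr fun k hk => pre_append_le (hk.trans h)

theorem allA_succ {τ : Finset α → Lab} {π : List α} {i : ℕ} :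
    allA τ π (i + 1) ↔ allA τ π i ∧ τ (pre π (i + 1)) = Lab.A := by
  constructor
  · intro h
    exact ⟨allA_mono (Nat.le_succ i) h, h (i + 1) (by simp)⟩
  · rintro ⟨h1, h2⟩ k hk
    rw [mem_range] at hk
    rcases Nat.lt_succ_iff_lt_or_eq.1 hk with h3 | h3
    · exact h1 k (by rw [mem_range]; omega)
    · rw [h3]; exact h2

theorem allA_zero {τ : Finset α → Lab} {π : List α} : allA τ π 0 ↔ τ ∅ = Lab.A := by
  unfold allA
  simp

theorem allB_pred {τ : Finset α → Lab} {π : List α} {j : ℕ} (hj : j < π.length) :
    allB τ π j ↔ τ (pre π j) = Lab.B ∧ allB τ π (j + 1) := by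
  constructor
  · intro h
    exact ⟨h j (by rw [mem_Icc]; omega), allB_mono (Nat.le_succ j) h⟩
  · rintro ⟨h1, h2⟩ k hk
    rw [mem_Icc] at hk
    rcases Nat.eq_or_lt_of_le hk.1 with h3 | h3
    · rw [← h3]; exact h1
    · exact h2 k (by rw [mem_Icc]; omega)

theorem allB_length {τ : Finset α → Lab} {π : List α} :
    allB τ π π.length ↔ τ π.toFinset = Lab.B := by
  unfold allB
  constructor
  · intro h
    have := h π.length (by simp)
    rwa [pre_of_ge le_rfl] at this
  · intro h k hk
    rw [mem_Icc] at hk
    rw [pre_of_ge hk.1]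
    exact h

/-- A label function along a second piece. -/
theorem allB_append {τ : Finset α → Lab} {π1 π2 : List α} :
    allB τ (π1 ++ π2) π1.length ↔ goodB τ π1.toFinset π2 := by
  unfold allB goodB
  constructor
  · intro h i hi
    rw [mem_range] at hi
    have := h (π1.length + i) (by rw [mem_Icc, List.length_append]; omega)
    rwa [pre_append_add] at this
  · intro h k hk
    rw [mem_Icc, List.length_append] at hk
    obtain ⟨i, rfl⟩ := Nat.exists_eq_add_of_le hk.1
    rw [pre_append_add]
    exact h i (by rw [mem_range]; omega)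

/-- `fw` as an average -/
theorem fw_eq_Av (τ : Finset α → Lab) (V : Finset α) :
    fw τ V = Av V (fun π => if allA τ π V.card then 1 else 0) := by
  induction hn : V.card using Nat.strong_induction_on generalizing V with
  | _ n ih =>
    rcases V.eq_empty_or_nonempty with rfl | hV
    · rw [fw_empty, Av_empty]
      simp only [card_empty] at hn
      subst hn
      simp only [allA_zero]
    · rw [fw_rec hV.ne_empty, Av_snoc hV]
      obtain ⟨m, hm⟩ : ∃ m, V.card = m + 1 := Nat.exists_eq_succ_of_ne_zero (card_pos.2 hV).ne'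
      rw [← hn] at ih ⊢
      have h1 : ∀ g ∈ V, Av (V.erase g) (fun π => if allA τ (π ++ [g]) V.card then (1 : ℝ) else 0) =
          (if τ V = Lab.A then 1 else 0) * fw τ (V.erase g) := by
        intro g hg
        have hc : (V.erase g).card = m := by rw [card_erase_of_mem hg, hm]; rfl
        rw [ih _ (card_erase_lt_of_mem hg) (V.erase g) rfl, ← Av_mul]
        refine Av_congr fun π hπ => ?_
        have hl : π.length = m := by rw [length_of_mem hπ, hc]
        have h2 : allA τ (π ++ [g]) V.card ↔ allA τ π (V.erase g).card ∧ τ V = Lab.A := by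
          rw [hm, allA_succ, hc]
          rw [allA_append (by rw [hl])]
          have h3 : pre (π ++ [g]) (m + 1) = V := by
            rw [pre_of_ge (by simp [hl]), List.toFinset_append, (mem_seqs_card.1 hπ).2]
            ext y
            simp only [mem_union, mem_erase, List.mem_toFinset, List.mem_singleton]
            constructor
            · rintro (h | h)
              · exact h.2
              · rw [h]; exact hg
            · intro h
              by_cases hy : y = g
              · exact Or.inr hy
              · exact Or.inl ⟨hy, h⟩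
          rw [h3]
        simp only [h2]
        by_cases hA : τ V = Lab.A
        · simp [hA]
        · simp [hA]
      rw [sum_congr rfl h1, ← mul_sum, mul_div_assoc]
      unfold fwb
      split_ifs <;> simp

/-- `bw` as an average -/
theorem bw_eq_Av (τ : Finset α → Lab) {D : Finset α} : ∀ (V : Finset α), V ⊆ D →
    bw τ D V = Av (D \ V) (fun π => if goodB τ V π then 1 else 0) := by
  have key : ∀ (n : ℕ) (V : Finset α), V ⊆ D → (D \ V).card = n →
      bw τ D V = Av (D \ V) (fun π => if goodB τ V π then 1 else 0) := by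
    intro n
    induction n with
    | zero =>
      intro V hV hn
      have h1 : D \ V = ∅ := card_eq_zero.1 hn
      have h2 : V = D := Subset.antisymm hV (sdiff_eq_empty_iff_subset.1 h1)
      subst h2
      rw [bw_top, h1, Av_empty]
      have : goodB τ V [] ↔ τ V = Lab.B := by
        unfold goodB
        simp
      simp only [this]
    | succ n ih =>
      intro V hV hn
      have hne : (D \ V).Nonempty := card_pos.1 (by omega)
      have hVD : V ≠ D := by
        rintro rfl
        simp at hn
      rw [bw_rec hV hVD, Av_cons hne]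
      have h1 : ∀ g ∈ D \ V, Av ((D \ V).erase g)
          (fun π => if goodB τ V (g :: π) then (1 : ℝ) else 0) =
          (if τ V = Lab.B then 1 else 0) * bw τ D (insert g V) := by
        intro g hg
        rw [mem_sdiff] at hg
        have hc : (D \ insert g V).card = n := by
          rw [← sdiff_erase_eq, card_erase_of_mem (mem_sdiff.2 hg), hn]; rfl
        rw [ih (insert g V) (insert_subset hg.1 hV) hc, ← Av_mul, sdiff_erase_eq]
        refine Av_congr fun π hπ => ?_
        have h2 : goodB τ V (g :: π) ↔ goodB τ (insert g V) π ∧ τ V = Lab.B := by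
          unfold goodB
          rw [List.length_cons]
          constructor
          · intro h
            refine ⟨fun i hi => ?_, ?_⟩
            · have := h (i + 1) (by rw [mem_range] at hi ⊢; omega)
              rw [pre_cons_succ] at this
              rwa [insert_union, ← union_insert]
            · have := h 0 (by simp)
              simpa using this
          · rintro ⟨h3, h4⟩ i hi
            cases i with
            | zero => simpa using h4
            | succ i =>
              rw [pre_cons_succ, union_insert, ← insert_union]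
              exact h3 i (by rw [mem_range] at hi ⊢; omega)
        simp only [h2]
        by_cases hB : τ V = Lab.B
        · simp [hB]
        · simp [hB]
      rw [sum_congr rfl h1, ← mul_sum, mul_div_assoc]
      unfold bwb
      split_ifs <;> simp
  exact fun V hV => key _ V hV rfl

/-- chains of `A`-sets -/
theorem chain_A (τ : Finset α → Lab) {D : Finset α} {i : ℕ} (hi : i ≤ D.card)
    (h : Finset α → List α → ℝ) :
    ∑ X ∈ powersetCard i D, fw τ X / (D.card.choose i : ℝ) * Av (D \ X) (h X) =
      Av D (fun π => if allA τ π i then h (pre π i) (π.drop i) else 0) := by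
  have e : Av D (fun π => if allA τ π i then h (pre π i) (π.drop i) else 0) =
      Av D (fun π => (fun (π1 π2 : List α) => if allA τ π1 i then h π1.toFinset π2 else 0)
        (π.take i) (π.drop i)) := by
    refine Av_congr fun π _ => ?_
    simp only [allA_take (le_refl i)]
    rfl
  rw [e, Av_take_drop hi (fun (π1 π2 : List α) => if allA τ π1 i then h π1.toFinset π2 else 0),
    sum_div]
  refine sum_congr rfl fun X hX => ?_
  obtain ⟨hX1, hX2⟩ := mem_powersetCard.1 hX
  rw [fw_eq_Av, hX2, div_mul_eq_mul_div, ← Av_mul_right]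
  congr 1
  refine Av_congr fun π1 h1 => ?_
  simp only [(mem_seqs_card.1 h1).2]
  split_ifs with hA
  · rw [one_mul]
  · rw [zero_mul, Av_zero]

/-- chains of `B`-sets -/
theorem chain_B (τ : Finset α → Lab) {D : Finset α} {j : ℕ} (hj : j ≤ D.card)
    (h : Finset α → List α → ℝ) :
    ∑ V ∈ powersetCard j D, bw τ D V / (D.card.choose j : ℝ) * Av V (h V) =
      Av D (fun π => if allB τ π j then h (pre π j) (π.take j) else 0) := by
  have e : Av D (fun π => if allB τ π j then h (pre π j) (π.take j) else 0) =
      Av D (fun π => (fun (π1 π2 : List α) => if goodB τ π1.toFinset π2 then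
        h π1.toFinset π1 else 0) (π.take j) (π.drop j)) := by
    refine Av_congr fun π hπ => ?_
    have hl : (π.take j).length = j := by
      rw [List.length_take, length_of_mem hπ, min_eq_left hj]
    have h1 := allB_append (τ := τ) (π1 := π.take j) (π2 := π.drop j)
    rw [List.take_append_drop, hl] at h1
    simp only [h1]
    rfl
  rw [e, Av_take_drop hj (fun (π1 π2 : List α) => if goodB τ π1.toFinset π2 then
        h π1.toFinset π1 else 0), sum_div]
  refine sum_congr rfl fun V hV => ?_
  obtain ⟨hV1, hV2⟩ := mem_powersetCard.1 hV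
  rw [bw_eq_Av τ V hV1, div_mul_eq_mul_div, ← Av_mul]
  congr 1
  refine Av_congr fun π1 h1 => ?_
  simp only [(mem_seqs_card.1 h1).2]
  rw [← Av_mul_right]
  refine Av_congr fun π2 _ => ?_
  split_ifs <;> simp

end R5

end

section

/-!
# The T-side of the value as an average over orders (helper55)
-/

namespace R5

open Finset

variable {α : Type} [DecidableEq α]

/-- the first exit is an edge at level `k` -/
def exE (τ : Finset α → Lab) (π : List α) (k : ℕ) : Prop :=
  allA τ π k ∧ τ (pre π (k + 1)) = Lab.B

instance (τ : Finset α → Lab) (π : List α) (k : ℕ) : Decidable (exE τ π k) := by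
  unfold exE; infer_instance

/-- the first exit is a vertex at level `k + 1` -/
def exX (τ : Finset α → Lab) (π : List α) (k : ℕ) : Prop :=
  allA τ π k ∧ τ (pre π (k + 1)) = Lab.X

instance (τ : Finset α → Lab) (π : List α) (k : ℕ) : Decidable (exX τ π k) := by
  unfold exX; infer_instance

/-- the edge part -/
theorem Av_exE (τ : Finset α → Lab) {W : Finset α} {k : ℕ} (hk : k < W.card)
    (F : Finset α → α → List α → ℝ) :
    Av W (fun π => if exE τ π k then
      ∑ x ∈ pre π (k + 1) \ pre π k, F (pre π k) x (π.take k) else 0) =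
    ∑ U ∈ powersetCard k W, ∑ x ∈ W \ U, (if isE τ U x then
      Av U (fun π1 => if allA τ π1 k then F U x π1 else 0) else 0) /
        ((W.card.choose k : ℝ) * ((W.card : ℝ) - k)) := by
  have e : Av W (fun π => if exE τ π k then
      ∑ x ∈ pre π (k + 1) \ pre π k, F (pre π k) x (π.take k) else 0) =
      Av W (fun π => (fun (π1 π2 : List α) =>
        if allA τ π1 k ∧ τ (π1.toFinset ∪ pre π2 1) = Lab.B then
          ∑ x ∈ (π1.toFinset ∪ pre π2 1) \ π1.toFinset, F π1.toFinset x π1 else 0)
        (π.take k) (π.drop k)) := by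
    refine Av_congr fun π hπ => ?_
    have hl : (π.take k).length = k := by
      rw [List.length_take, length_of_mem hπ, min_eq_left hk.le]
    have h1 : pre π (k + 1) = (π.take k).toFinset ∪ pre (π.drop k) 1 := by
      have := pre_append_add (π1 := π.take k) (π2 := π.drop k) (i := 1)
      rwa [List.take_append_drop, hl] at this
    unfold exE
    simp only [allA_take (le_refl k), h1]
    rfl
  rw [e, Av_take_drop hk.le (fun (π1 π2 : List α) =>
        if allA τ π1 k ∧ τ (π1.toFinset ∪ pre π2 1) = Lab.B then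
          ∑ x ∈ (π1.toFinset ∪ pre π2 1) \ π1.toFinset, F π1.toFinset x π1 else 0), sum_div]
  refine sum_congr rfl fun U hU => ?_
  obtain ⟨hU1, hU2⟩ := mem_powersetCard.1 hU
  have hne : (W \ U).Nonempty := by
    rw [← card_pos, card_sdiff_of_subset hU1]
    omega
  have hcard : ((W \ U).card : ℝ) = (W.card : ℝ) - k := by rw [card_sdiff_cast hU1, hU2]
  rw [← sum_div, ← div_div, div_right_comm]
  congr 1
  have h1 : ∀ π1 ∈ seqs U.card U, Av (W \ U) (fun π2 =>
      if allA τ π1 k ∧ τ (π1.toFinset ∪ pre π2 1) = Lab.B then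
        ∑ x ∈ (π1.toFinset ∪ pre π2 1) \ π1.toFinset, F π1.toFinset x π1 else 0) =
      (∑ x ∈ W \ U, if isE τ U x then (if allA τ π1 k then F U x π1 else 0) else 0) /
        ((W.card : ℝ) - k) := by
    intro π1 h1
    rw [Av_cons hne, hcard]
    congr 1
    refine sum_congr rfl fun x hx => ?_
    have hxU : x ∉ U := (mem_sdiff.1 hx).2
    rw [(mem_seqs_card.1 h1).2]
    have h2 : ∀ π : List α, pre (x :: π) 1 = {x} := by
      intro π
      rw [pre_cons_succ, pre_zero]
      rfl
    simp only [h2]
    have h3 : U ∪ {x} = insert x U := by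
      rw [union_comm]; rfl
    have h4 : insert x U \ U = {x} := by
      ext y
      simp only [mem_sdiff, mem_insert, mem_singleton]
      constructor
      · rintro ⟨h | h, h'⟩
        · exact h
        · exact absurd h h'
      · rintro rfl
        exact ⟨Or.inl rfl, hxU⟩
    rw [h3, h4, Av_const, sum_singleton]
    have h5 : allA τ π1 k → τ U = Lab.A := by
      intro h
      have := h k (by simp)
      rwa [← hU2, pre_card_of_mem h1 le_rfl] at this
    unfold isE
    by_cases hA : allA τ π1 k
    · simp [hA, h5 hA]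
    · simp [hA]
  rw [Av_congr h1, Av_div]
  congr 1
  rw [Av_sum]
  refine sum_congr rfl fun x _ => ?_
  split_ifs
  · rfl
  · rw [Av_zero]

/-- the vertex part -/
theorem Av_exX (τ : Finset α → Lab) {W : Finset α} {k : ℕ} (hk : k < W.card)
    (F : Finset α → List α → ℝ) :
    Av W (fun π => if exX τ π k then F (pre π (k + 1)) (π.take (k + 1)) else 0) =
    ∑ U ∈ powersetCard (k + 1) W, (if τ U = Lab.X then
      Av U (fun π1 => if allA τ π1 k then F U π1 else 0) else 0) /
        (W.card.choose (k + 1) : ℝ) := by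
  have e : Av W (fun π => if exX τ π k then F (pre π (k + 1)) (π.take (k + 1)) else 0) =
      Av W (fun π => (fun (π1 _π2 : List α) =>
        if allA τ π1 k ∧ τ π1.toFinset = Lab.X then F π1.toFinset π1 else 0)
        (π.take (k + 1)) (π.drop (k + 1))) := by
    refine Av_congr fun π hπ => ?_
    unfold exX
    simp only [allA_take (Nat.le_succ k)]
    rfl
  rw [e, Av_take_drop hk (fun (π1 _π2 : List α) =>
        if allA τ π1 k ∧ τ π1.toFinset = Lab.X then F π1.toFinset π1 else 0), sum_div]
  refine sum_congr rfl fun U hU => ?_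
  congr 1
  by_cases hX : τ U = Lab.X
  · rw [if_pos hX]
    refine Av_congr fun π1 h1 => ?_
    rw [(mem_seqs_card.1 h1).2, Av_const]
    simp [hX]
  · rw [if_neg hX]
    refine (Av_congr (f' := fun _ => 0) fun π1 h1 => ?_).trans (Av_zero U)
    rw [(mem_seqs_card.1 h1).2, Av_const]
    simp [hX]

/-- averages of `allA` one level below the top -/
theorem fwb_eq_Av (τ : Finset α → Lab) {U : Finset α} (hU : U.Nonempty) :
    fwb τ U = Av U (fun π => if allA τ π (U.card - 1) then 1 else 0) := by
  rw [Av_snoc hU (fun π => if allA τ π (U.card - 1) then (1 : ℝ) else 0)]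
  unfold fwb
  congr 1
  refine sum_congr rfl fun x hx => ?_
  rw [fw_eq_Av, card_erase_of_mem hx]
  refine Av_congr fun π hπ => ?_
  have hl : π.length = U.card - 1 := by rw [length_of_mem hπ, card_erase_of_mem hx]
  rw [if_congr (allA_append (le_of_eq hl.symm)) rfl rfl]

/-! ### the masses of the dual type -/

theorem sdiff_subset_sdiff_iff {D W U : Finset α} (hU : U ⊆ D) : D \ W ⊆ D \ U ↔ U ⊆ W := by
  constructor
  · intro h x hx
    by_contra hxW
    exact (mem_sdiff.1 (h (mem_sdiff.2 ⟨hU hx, hxW⟩))).2 hx
  · intro h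
    exact sdiff_subset_sdiff (Subset.refl _) h

theorem choose_edge {l m k : ℕ} (hk : k < m) (hm : m ≤ l) :
    (l.choose (l - m) : ℝ) * ((l - (l - m)).choose ((l - (k + 1)) - (l - m)) : ℝ) *
      ((l : ℝ) - ((l - (k + 1) : ℕ) : ℝ)) =
      (l.choose m : ℝ) * ((m.choose k : ℝ) * ((m : ℝ) - k)) := by
  rw [Nat.choose_symm hm]
  have h1 : l - (l - m) = m := by omega
  have h2 : (l - (k + 1)) - (l - m) = m - (k + 1) := by omega
  rw [h1, h2, Nat.choose_symm (by omega : k + 1 ≤ m), choose_up hk, Nat.cast_sub (by omega)]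
  push_cast
  ring

theorem pe_dual (τ : Finset α → Lab) {D W U : Finset α} {x : α} (hW : W ⊆ D) (hU : U ⊆ D)
    (hx : x ∈ D \ U) :
    pe (dual τ D) D (D \ W) (D \ insert x U) x =
      if insert x U ⊆ W ∧ isE τ U x then bw τ D W / (D.card.choose W.card : ℝ) *
        (fw τ U / ((W.card.choose U.card : ℝ) * ((W.card : ℝ) - U.card))) / ((D.card : ℝ) + 1)
      else 0 := by
  have hx' := mem_sdiff.1 hx
  have h1 : insert x U ⊆ D := insert_subset hx'.1 hU
  have h2 : insert x (D \ insert x U) = D \ U := by
    ext y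
    simp only [mem_sdiff, mem_insert, not_or]
    by_cases hy : y = x
    · subst hy; simp [hx'.1, hx'.2]
    · simp [hy]
  unfold pe
  simp only [isE_dual hU hx, sdiff_subset_sdiff_iff h1]
  split_ifs with h
  · have hm : (insert x U).card ≤ W.card := card_le_card h.1
    rw [card_insert_of_notMem hx'.2] at hm
    have hl : W.card ≤ D.card := card_le_card hW
    rw [fw_dual sdiff_subset, Finset.sdiff_sdiff_eq_self hW, h2, bw_dual,
      Finset.sdiff_sdiff_eq_self hU, card_sdiff_of_subset hW, card_sdiff_of_subset h1,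
      card_insert_of_notMem hx'.2]
    have h3 := choose_edge (l := D.card) (m := W.card) (k := U.card) (by omega) hl
    have e1 : ((D.card : ℝ) + 1) * (D.card.choose (D.card - W.card) : ℝ) *
        ((D.card - (D.card - W.card)).choose ((D.card - (U.card + 1)) -
          (D.card - W.card)) : ℝ) * ((D.card : ℝ) - ((D.card - (U.card + 1) : ℕ) : ℝ)) =
        ((D.card : ℝ) + 1) * ((D.card.choose W.card : ℝ) * ((W.card.choose U.card : ℝ) *
          ((W.card : ℝ) - U.card))) := by
      rw [← h3]; ring
    rw [e1]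
    rw [div_mul_div_comm, div_div]
    congr 1
    ring
  · rfl

theorem choose_vert {l m k : ℕ} (hk : k ≤ m) (hm : m ≤ l) :
    (l.choose (l - m) : ℝ) * ((l - (l - m)).choose ((l - k) - (l - m)) : ℝ) =
      (l.choose m : ℝ) * (m.choose k : ℝ) := by
  rw [Nat.choose_symm hm]
  have h1 : l - (l - m) = m := by omega
  have h2 : (l - k) - (l - m) = m - k := by omega
  rw [h1, h2, Nat.choose_symm hk]

theorem pv_dual (τ : Finset α → Lab) {D W U : Finset α} (hW : W ⊆ D) (hU : U ⊆ D) :
    pv (dual τ D) D (D \ W) (D \ U) =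
      if U ⊆ W ∧ τ U = Lab.X then bw τ D W / (D.card.choose W.card : ℝ) *
        (fwb τ U / (W.card.choose U.card : ℝ)) / ((D.card : ℝ) + 1)
      else 0 := by
  unfold pv
  simp only [dual_apply hU, flip_eq_X, sdiff_subset_sdiff_iff hU]
  split_ifs with h
  · have hm : U.card ≤ W.card := card_le_card h.1
    have hl : W.card ≤ D.card := card_le_card hW
    rw [fw_dual sdiff_subset, Finset.sdiff_sdiff_eq_self hW, bwb_dual,
      Finset.sdiff_sdiff_eq_self hU, card_sdiff_of_subset hW, card_sdiff_of_subset hU]
    have h3 := choose_vert (l := D.card) (m := W.card) (k := U.card) hm hl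
    have e1 : ((D.card : ℝ) + 1) * (D.card.choose (D.card - W.card) : ℝ) *
        ((D.card - (D.card - W.card)).choose ((D.card - U.card) - (D.card - W.card)) : ℝ) =
        ((D.card : ℝ) + 1) * ((D.card.choose W.card : ℝ) * (W.card.choose U.card : ℝ)) := by
      rw [← h3]; ring
    rw [e1]
    rw [div_mul_div_comm, div_div]
    congr 1
    ring
  · rfl

end R5

end

section

/-!
# The T-side of the value as an average over orders: assembly (helper55)
-/

namespace R5

open Finset

variable {α : Type} [DecidableEq α]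

/-- the next element (a singleton) -/
def nx (π : List α) (k : ℕ) : Finset α := pre π (k + 1) \ pre π k

theorem card_nx {G : Finset α} {π : List α} (h : π ∈ seqs G.card G) {k : ℕ} (hk : k < G.card) :
    (nx π k).card = 1 := by
  unfold nx
  rw [card_sdiff_of_subset (pre_mono (Nat.le_succ k)), card_pre_of_mem h hk,
    card_pre_of_mem h hk.le]
  omega

theorem sum_nx_add {G : Finset α} {π : List α} (h : π ∈ seqs G.card G) {k : ℕ} (hk : k < G.card)
    (f : α → ℝ) (c : ℝ) : ∑ x ∈ nx π k, (f x + c) = ∑ x ∈ nx π k, f x + c := by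
  rw [sum_add_distrib, sum_const, card_nx h hk, one_smul]

theorem sum_PP1 (τ : Finset α → Lab) (D X : Finset α) (F : α → ℝ) :
    ∑ g ∈ D \ X, PP1 τ D X g * F g =
      ∑ V ∈ D.powerset, ∑ x ∈ D \ V, pe τ D X V x * F x := by
  have h1 : ∑ g ∈ D \ X, PP1 τ D X g * F g = ∑ g ∈ D, PP1 τ D X g * F g := by
    refine sum_subset sdiff_subset fun g hg hg' => ?_
    have hgX : g ∈ X := by
      by_contra h
      exact hg' (mem_sdiff.2 ⟨hg, h⟩)
    have : PP1 τ D X g = 0 := by
      unfold PP1
      refine sum_eq_zero fun V hV => ?_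
      unfold pe
      rw [if_neg]
      rintro ⟨h2, -⟩
      exact notMem_erase g D (mem_powerset.1 hV (h2 hgX))
    rw [this, zero_mul]
  rw [h1]
  unfold PP1
  simp only [sum_mul]
  refine sum_comm' ?_
  intro g V
  simp only [mem_powerset, mem_sdiff]
  constructor
  · rintro ⟨h2, h3⟩
    exact ⟨⟨h2, fun h => notMem_erase g D (h3 h)⟩, h3.trans (erase_subset _ _)⟩
  · rintro ⟨⟨h2, h3⟩, h4⟩
    exact ⟨h2, subset_erase.2 ⟨h4, h3⟩⟩

theorem sum_restrict_edge {D W : Finset α} (hW : W ⊆ D) (P : Finset α → α → Prop)
    [∀ U x, Decidable (P U x)] (G : Finset α → α → ℝ) :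
    ∑ U ∈ D.powerset, ∑ x ∈ D \ U, (if insert x U ⊆ W ∧ P U x then G U x else 0) =
      ∑ U ∈ W.powerset, ∑ x ∈ W \ U, (if P U x then G U x else 0) := by
  symm
  have h1 : ∑ U ∈ W.powerset, ∑ x ∈ W \ U, (if P U x then G U x else 0) =
      ∑ U ∈ W.powerset, ∑ x ∈ D \ U, (if insert x U ⊆ W ∧ P U x then G U x else 0) := by
    refine sum_congr rfl fun U hU => ?_
    rw [mem_powerset] at hU
    have h2 : ∑ x ∈ W \ U, (if P U x then G U x else 0) =
        ∑ x ∈ W \ U, (if insert x U ⊆ W ∧ P U x then G U x else 0) := by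
      refine sum_congr rfl fun x hx => ?_
      have : insert x U ⊆ W := insert_subset (mem_sdiff.1 hx).1 hU
      simp [this]
    rw [h2]
    refine sum_subset (sdiff_subset_sdiff hW (Subset.refl _)) fun x hx hx' => ?_
    rw [if_neg]
    rintro ⟨h3, -⟩
    exact hx' (mem_sdiff.2 ⟨h3 (mem_insert_self _ _), (mem_sdiff.1 hx).2⟩)
  rw [h1]
  refine sum_subset (powerset_mono.2 hW) fun U _ hU' => ?_
  refine sum_eq_zero fun x _ => ?_
  rw [if_neg]
  rintro ⟨h3, -⟩
  exact hU' (mem_powerset.2 ((subset_insert _ _).trans h3))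

theorem sum_restrict_vert {D W : Finset α} (hW : W ⊆ D) (P : Finset α → Prop)
    [∀ U, Decidable (P U)] (G : Finset α → ℝ) :
    ∑ U ∈ D.powerset, (if U ⊆ W ∧ P U then G U else 0) =
      ∑ U ∈ W.powerset, (if P U then G U else 0) := by
  symm
  have h1 : ∑ U ∈ W.powerset, (if P U then G U else 0) =
      ∑ U ∈ W.powerset, (if U ⊆ W ∧ P U then G U else 0) := by
    refine sum_congr rfl fun U hU => ?_
    rw [mem_powerset] at hU
    simp [hU]
  rw [h1]
  refine sum_subset (powerset_mono.2 hW) fun U _ hU' => ?_
  rw [if_neg]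
  rintro ⟨h3, -⟩
  exact hU' (mem_powerset.2 h3)

theorem sum_levels_edge (W : Finset α) (G : Finset α → α → ℝ) :
    ∑ U ∈ W.powerset, ∑ x ∈ W \ U, G U x =
      ∑ k ∈ range W.card, ∑ U ∈ powersetCard k W, ∑ x ∈ W \ U, G U x := by
  rw [sum_powerset, sum_range_succ]
  have : ∑ U ∈ powersetCard W.card W, ∑ x ∈ W \ U, G U x = 0 := by
    refine sum_eq_zero fun U hU => ?_
    obtain ⟨h1, h2⟩ := mem_powersetCard.1 hU
    have : U = W := eq_of_subset_of_card_le h1 (le_of_eq h2.symm)
    rw [this]
    simp
  rw [this, add_zero]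

theorem sum_levels_vert (W : Finset α) (G : Finset α → ℝ) (h0 : G ∅ = 0) :
    ∑ U ∈ W.powerset, G U = ∑ k ∈ range W.card, ∑ U ∈ powersetCard (k + 1) W, G U := by
  rw [sum_powerset, sum_range_succ']
  rw [powersetCard_zero, sum_singleton, h0, add_zero]

end R5

end

section

/-!
# First exit functionals: recursion and index form (helper55)
-/

namespace R5

open Finset

variable {α : Type} [DecidableEq α]

/-! ### index form -/

/-- indicators -/
noncomputable def iA (τ : Finset α → Lab) (π : List α) (i : ℕ) : ℝ := if allA τ π i then 1 else 0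
noncomputable def iE (τ : Finset α → Lab) (π : List α) (i : ℕ) : ℝ := if exE τ π i then 1 else 0
noncomputable def iX (τ : Finset α → Lab) (π : List α) (i : ℕ) : ℝ := if exX τ π i then 1 else 0

theorem iA_nonneg (τ : Finset α → Lab) (π : List α) (i : ℕ) : 0 ≤ iA τ π i := by
  unfold iA; split_ifs <;> norm_num
theorem iE_nonneg (τ : Finset α → Lab) (π : List α) (i : ℕ) : 0 ≤ iE τ π i := by
  unfold iE; split_ifs <;> norm_num
theorem iX_nonneg (τ : Finset α → Lab) (π : List α) (i : ℕ) : 0 ≤ iX τ π i := by
  unfold iX; split_ifs <;> norm_num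

theorem iA_pos {τ : Finset α → Lab} {π : List α} {i : ℕ} (h : allA τ π i) : iA τ π i = 1 :=
  if_pos h
theorem iA_neg {τ : Finset α → Lab} {π : List α} {i : ℕ} (h : ¬ allA τ π i) : iA τ π i = 0 :=
  if_neg h
theorem iE_pos {τ : Finset α → Lab} {π : List α} {i : ℕ} (h : exE τ π i) : iE τ π i = 1 :=
  if_pos h
theorem iE_neg {τ : Finset α → Lab} {π : List α} {i : ℕ} (h : ¬ exE τ π i) : iE τ π i = 0 :=
  if_neg h
theorem iX_pos {τ : Finset α → Lab} {π : List α} {i : ℕ} (h : exX τ π i) : iX τ π i = 1 :=
  if_pos h
theorem iX_neg {τ : Finset α → Lab} {π : List α} {i : ℕ} (h : ¬ exX τ π i) : iX τ π i = 0 :=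
  if_neg h

theorem iA_congr {τ τ' : Finset α → Lab} {π π' : List α} {i i' : ℕ}
    (h : allA τ π i ↔ allA τ' π' i') : iA τ π i = iA τ' π' i' := if_congr h rfl rfl
theorem iE_congr {τ τ' : Finset α → Lab} {π π' : List α} {i i' : ℕ}
    (h : exE τ π i ↔ exE τ' π' i') : iE τ π i = iE τ' π' i' := if_congr h rfl rfl
theorem iX_congr {τ τ' : Finset α → Lab} {π π' : List α} {i i' : ℕ}
    (h : exX τ π i ↔ exX τ' π' i') : iX τ π i = iX τ' π' i' := if_congr h rfl rfl

/-- an exit happens when the A-run stops -/
theorem iE_add_iX (τ : Finset α → Lab) (π : List α) (k : ℕ) :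
    iE τ π k + iX τ π k = iA τ π k - iA τ π (k + 1) := by
  by_cases h : allA τ π k
  · rw [iA_pos h]
    rcases hl : τ (pre π (k + 1)) with _ | _ | _
    · rw [iE_neg (fun h' => by rw [h'.2] at hl; exact absurd hl (by decide)),
        iX_neg (fun h' => by rw [h'.2] at hl; exact absurd hl (by decide)),
        iA_pos (allA_succ.2 ⟨h, hl⟩)]
      ring
    · rw [iE_pos ⟨h, hl⟩,
        iX_neg (fun h' => by rw [h'.2] at hl; exact absurd hl (by decide)),
        iA_neg (fun h' => by rw [(allA_succ.1 h').2] at hl; exact absurd hl (by decide))]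
      ring
    · rw [iX_pos ⟨h, hl⟩,
        iE_neg (fun h' => by rw [h'.2] at hl; exact absurd hl (by decide)),
        iA_neg (fun h' => by rw [(allA_succ.1 h').2] at hl; exact absurd hl (by decide))]
      ring
  · rw [iA_neg h, iE_neg (fun h' => h h'.1), iX_neg (fun h' => h h'.1),
      iA_neg (fun h' => h (allA_succ.1 h').1)]
    ring

/-- summation by parts -/
theorem sum_exit (τ : Finset α → Lab) (π : List α) (m : ℕ) (f : ℕ → ℝ) :
    ∑ k ∈ range m, (iE τ π k + iX τ π k) * ∑ i ∈ range (k + 1), f i =
      ∑ i ∈ range m, iA τ π i * f i - iA τ π m * ∑ i ∈ range m, f i := by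
  induction m with
  | zero => simp
  | succ m ih =>
    rw [sum_range_succ, ih, iE_add_iX, sum_range_succ (fun i => iA τ π i * f i) m,
      sum_range_succ f m]
    ring

/-- at the top -/
theorem iA_top {τ : Finset α → Lab} {V : Finset α} (hV : τ V ≠ Lab.A) {π : List α}
    (hπ : π ∈ seqs V.card V) {m : ℕ} (hm : V.card ≤ m) : iA τ π m = 0 := by
  unfold iA
  rw [if_neg]
  intro h
  apply hV
  have := h m (by simp)
  rwa [pre_card_of_mem hπ hm] at this

end R5

end

section

/-!
# T7L: the potential (helper55)

Note 1465 of the R5 room (potential of helper33's T7L, note 1426, in rational form).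
`m` = number of elements of the state, `R` = elements which remain, `n = |R| ≤ m - 1`.
-/

namespace R5

namespace T7

open Finset

/-- cost of a slot which sees the mass `s` -/
noncomputable def Lf (m : ℕ) (s : ℝ) : ℝ := -Real.log (1 - s / (m : ℝ))

end T7

end R5

end

section

/-!
# T7L: the step and the top (helper55)
-/

namespace R5

namespace T7

open Finset

variable {α : Type} [DecidableEq α]

/-- charge of a level with `a` live lights and `n` remaining elements -/
noncomputable def cc (m a n : ℕ) : ℝ :=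
  (a : ℝ) * lamn m - Lf m a + (a : ℝ) / n * (Lf m a - lamn m)

end T7

end R5

end

section

/-!
# CT0': the steps (helper55)

`c` = number of credited levels so far (levels without edge exit); the potential is
`lam (n + 1) + (c - 1) (lam - L(s))` for `c ≥ 1`, `s ≤ 1`, and `Phi` otherwise.
-/

namespace R5

namespace T7

open Finset

variable {α : Type} [DecidableEq α]

theorem lamn_pos {m : ℕ} (hm : 2 ≤ m) : 0 < lamn m := by
  have hmr : (2 : ℝ) ≤ m := by exact_mod_cast hm
  unfold lamn
  apply Real.log_pos
  rw [one_lt_div (by linarith)]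
  linarith

theorem Lf_one {m : ℕ} (hm : 2 ≤ m) : Lf m 1 = lamn m := by
  have hmr : (2 : ℝ) ≤ m := by exact_mod_cast hm
  unfold Lf lamn
  rw [← Real.log_inv]
  congr 1
  have : (m : ℝ) - 1 ≠ 0 := by linarith
  field_simp

end T7

end R5

end
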