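import Mathlib
import Pool.Agent.Work.MP_8b6acb_full.P08

section

/-!
# Uniformity of the order inside a block (helper76)

Given the first `i` elements, the set of the first `p` elements and the elements after place `p`, the
order of the elements between is uniform.  `nx π a` is the singleton of the element with index `a`.
-/

namespace R5

namespace Blk

open Finset

variable {α : Type} [DecidableEq α]

theorem nx_cons_zero (x : α) (π : List α) : nx (x :: π) 0 = {x} := by
  unfold nx
  rw [pre_cons_succ, pre_zero, pre_zero]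
  simp

theorem nx_cons_succ {x : α} {π : List α} (h : x ∉ π) (k : ℕ) :
    nx (x :: π) (k + 1) = nx π k := by
  unfold nx
  rw [pre_cons_succ, pre_cons_succ]
  have hx : x ∉ pre π (k + 1) := fun hx => h (List.mem_toFinset.1 (pre_subset π (k + 1) hx))
  ext y
  simp only [mem_sdiff, mem_insert, not_or]
  constructor
  · rintro ⟨h1 | h1, h2, h3⟩
    · exact absurd h1 h2
    · exact ⟨h1, h3⟩
  · rintro ⟨h1, h2⟩
    exact ⟨Or.inr h1, fun h3 => hx (h3 ▸ h1), h2⟩

theorem notMem_of_erase {W : Finset α} {g : α} {π : List α}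
    (h : π ∈ seqs (W.erase g).card (W.erase g)) : g ∉ π := by
  intro hg
  have := (mem_seqs.1 h).2.2 g hg
  exact notMem_erase g W this

/-- one element -/
theorem Av_nx (a : ℕ) : ∀ {W : Finset α}, a < W.card → ∀ φ : α → ℝ,
    Av W (fun σ => ∑ x ∈ nx σ a, φ x) = (∑ x ∈ W, φ x) / (W.card : ℝ) := by
  induction a with
  | zero =>
    intro W ha φ
    rw [Av_cons (card_pos.1 ha)]
    congr 1
    refine sum_congr rfl fun g _ => ?_
    simp only [nx_cons_zero, sum_singleton]
    exact Av_const _ _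
  | succ a ih =>
    intro W ha φ
    have hW : W.Nonempty := card_pos.1 (by omega)
    rw [Av_cons hW]
    have h1 : ∀ g ∈ W, Av (W.erase g) (fun π => ∑ x ∈ nx (g :: π) (a + 1), φ x) =
        ((∑ x ∈ W, φ x) - φ g) / ((W.card : ℝ) - 1) := by
      intro g hg
      have hc : (W.erase g).card = W.card - 1 := card_erase_of_mem hg
      have e1 : Av (W.erase g) (fun π => ∑ x ∈ nx (g :: π) (a + 1), φ x) =
          Av (W.erase g) (fun π => ∑ x ∈ nx π a, φ x) := by
        refine Av_congr fun π hπ => ?_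
        rw [nx_cons_succ (notMem_of_erase hπ)]
      rw [e1, ih (by rw [hc]; omega), hc, Nat.cast_sub (card_pos.2 hW)]
      have e2 := add_sum_erase W φ hg
      simp only [Nat.cast_one]
      congr 1
      linarith
    rw [sum_congr rfl h1, ← sum_div, sum_sub_distrib, sum_const, nsmul_eq_mul]
    have h2 : (1 : ℝ) < (W.card : ℝ) := by exact_mod_cast (by omega : 1 < W.card)
    have h3 : ((W.card : ℝ) - 1) ≠ 0 := by linarith
    have h4 : (W.card : ℝ) ≠ 0 := by linarith
    field_simp

/-- the three pieces of an order -/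
theorem Av_three {D : Finset α} {i p : ℕ} (hip : i ≤ p) (hp : p ≤ D.card)
    (F : List α → List α → List α → ℝ) :
    Av D (fun π => F (π.take i) ((π.drop i).take (p - i)) (π.drop p)) =
      (∑ U ∈ powersetCard i D, Av U (fun π1 => (∑ W ∈ powersetCard (p - i) (D \ U),
        Av W (fun σ => Av ((D \ U) \ W) (fun π3 => F π1 σ π3))) /
          ((D.card - i).choose (p - i) : ℝ))) / (D.card.choose i : ℝ) := by
  have e1 : Av D (fun π => F (π.take i) ((π.drop i).take (p - i)) (π.drop p)) =
      Av D (fun π => (fun π1 π2 : List α => F π1 (π2.take (p - i)) (π2.drop (p - i)))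
        (π.take i) (π.drop i)) := by
    refine Av_congr fun π _ => ?_
    show _ = F (π.take i) ((π.drop i).take (p - i)) ((π.drop i).drop (p - i))
    rw [List.drop_drop]
    congr 2
    omega
  rw [e1, Av_take_drop (hip.trans hp) (fun π1 π2 : List α => F π1 (π2.take (p - i))
    (π2.drop (p - i)))]
  refine congrArg (fun z : ℝ => z / (D.card.choose i : ℝ)) ?_
  refine sum_congr rfl fun U hU => ?_
  obtain ⟨hU1, hU2⟩ := mem_powersetCard.1 hU
  have hc : (D \ U).card = D.card - i := by rw [card_sdiff_of_subset hU1, hU2]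
  refine Av_congr fun π1 _ => ?_
  rw [Av_take_drop (G := D \ U) (k := p - i) (by rw [hc]; omega) (fun σ π3 => F π1 σ π3), hc]

/-- the middle piece as a set -/
theorem mid_eq {D : Finset α} {π : List α} (h : π ∈ seqs D.card D) {i p : ℕ} (hip : i ≤ p) :
    ((π.drop i).take (p - i)).toFinset = pre π p \ pre π i ∧
      pre π p = (π.take i).toFinset ∪ ((π.drop i).take (p - i)).toFinset := by
  have hnd := (mem_seqs_card.1 h).1
  have e : π.take p = π.take i ++ (π.drop i).take (p - i) := by
    have : p = i + (p - i) := by omega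
    conv_lhs => rw [this]
    exact List.take_add
  have e2 : pre π p = (π.take i).toFinset ∪ ((π.drop i).take (p - i)).toFinset := by
    unfold pre
    rw [e, List.toFinset_append]
  refine ⟨?_, e2⟩
  rw [e2]
  have hd : List.Disjoint (π.take i) ((π.drop i).take (p - i)) := by
    have h1 : (π.take i ++ (π.drop i).take (p - i)).Nodup := by
      rw [← e]
      exact hnd.sublist (List.take_sublist _ _)
    exact (List.nodup_append'.1 h1).2.2
  unfold pre
  ext x
  simp only [mem_sdiff, mem_union, List.mem_toFinset]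
  constructor
  · intro hx
    exact ⟨Or.inr hx, fun h' => hd h' hx⟩
  · rintro ⟨h1 | h1, h2⟩
    · exact absurd h1 h2
    · exact h1

/-- the elements of the middle piece -/
theorem nx_mid {D : Finset α} {π : List α} (h : π ∈ seqs D.card D) {i p a : ℕ} (hia : i ≤ a)
    (hap : a < p) : nx π a = nx ((π.drop i).take (p - i)) (a - i) := by
  have hnd := (mem_seqs_card.1 h).1
  unfold nx
  have key : ∀ b, i ≤ b → b ≤ p → pre π b \ pre π i = pre ((π.drop i).take (p - i)) (b - i) := by
    intro b hib hbp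
    rw [← (mid_eq h hib).1]
    unfold pre
    rw [List.take_take, min_eq_left (by omega)]
  have h1 := key a hia hap.le
  have h2 := key (a + 1) (by omega) hap
  have e : a + 1 - i = a - i + 1 := by omega
  rw [e] at h2
  rw [← h1, ← h2]
  have h3 : pre π i ⊆ pre π a := pre_mono hia
  ext x
  simp only [mem_sdiff, not_and, not_not]
  constructor
  · rintro ⟨h4, h5⟩
    exact ⟨⟨h4, fun h6 => h5 (h3 h6)⟩, fun h6 => absurd h6 h5⟩
  · rintro ⟨⟨h4, h5⟩, h6⟩
    exact ⟨h4, fun h7 => h5 (h6 h7)⟩

/-- **one element of a block** -/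
theorem Av_one {D : Finset α} {i p a : ℕ} (hia : i ≤ a) (hap : a < p) (hp : p ≤ D.card)
    (G : List α → Finset α → List α → α → ℝ) :
    Av D (fun π => ∑ x ∈ nx π a, G (π.take i) (pre π p) (π.drop p) x) =
      Av D (fun π => (∑ x ∈ pre π p \ pre π i, G (π.take i) (pre π p) (π.drop p) x) /
        ((p : ℝ) - i)) := by
  have hip : i ≤ p := by omega
  have e1 : Av D (fun π => ∑ x ∈ nx π a, G (π.take i) (pre π p) (π.drop p) x) =
      Av D (fun π => (fun π1 σ π3 => ∑ x ∈ nx σ (a - i), G π1 (π1.toFinset ∪ σ.toFinset) π3 x)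
        (π.take i) ((π.drop i).take (p - i)) (π.drop p)) := by
    refine Av_congr fun π hπ => ?_
    show _ = ∑ x ∈ nx ((π.drop i).take (p - i)) (a - i), G (π.take i)
      ((π.take i).toFinset ∪ ((π.drop i).take (p - i)).toFinset) (π.drop p) x
    rw [← nx_mid hπ hia hap, ← (mid_eq hπ hip).2]
  have e2 : Av D (fun π => (∑ x ∈ pre π p \ pre π i, G (π.take i) (pre π p) (π.drop p) x) /
        ((p : ℝ) - i)) =
      Av D (fun π => (fun π1 σ π3 => (∑ x ∈ σ.toFinset, G π1 (π1.toFinset ∪ σ.toFinset) π3 x) /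
        ((p : ℝ) - i)) (π.take i) ((π.drop i).take (p - i)) (π.drop p)) := by
    refine Av_congr fun π hπ => ?_
    show _ = (∑ x ∈ ((π.drop i).take (p - i)).toFinset, G (π.take i)
      ((π.take i).toFinset ∪ ((π.drop i).take (p - i)).toFinset) (π.drop p) x) / ((p : ℝ) - i)
    rw [← (mid_eq hπ hip).2, (mid_eq hπ hip).1]
  rw [e1, e2, Av_three hip hp (fun π1 σ π3 => ∑ x ∈ nx σ (a - i),
    G π1 (π1.toFinset ∪ σ.toFinset) π3 x), Av_three hip hp (fun π1 σ π3 =>
    (∑ x ∈ σ.toFinset, G π1 (π1.toFinset ∪ σ.toFinset) π3 x) / ((p : ℝ) - i))]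
  refine congrArg (fun z : ℝ => z / (D.card.choose i : ℝ)) ?_
  refine sum_congr rfl fun U _ => Av_congr fun π1 h1 => ?_
  refine congrArg (fun z : ℝ => z / ((D.card - i).choose (p - i) : ℝ)) ?_
  refine sum_congr rfl fun W hW => ?_
  obtain ⟨hW1, hW2⟩ := mem_powersetCard.1 hW
  have hcast : (W.card : ℝ) = (p : ℝ) - i := by rw [hW2, Nat.cast_sub hip]
  have e3 : Av W (fun σ => Av ((D \ U) \ W) (fun π3 => ∑ x ∈ nx σ (a - i),
      G π1 (π1.toFinset ∪ σ.toFinset) π3 x)) =
      Av W (fun σ => ∑ x ∈ nx σ (a - i), Av ((D \ U) \ W) (fun π3 => G π1 (U ∪ W) π3 x)) := by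
    refine Av_congr fun σ hσ => ?_
    rw [← Av_sum, (mem_seqs_card.1 hσ).2, (mem_seqs_card.1 h1).2]
  have e4 : Av W (fun σ => Av ((D \ U) \ W) (fun π3 => (∑ x ∈ σ.toFinset,
      G π1 (π1.toFinset ∪ σ.toFinset) π3 x) / ((p : ℝ) - i))) =
      Av W (fun _ => (∑ x ∈ W, Av ((D \ U) \ W) (fun π3 => G π1 (U ∪ W) π3 x)) /
        ((p : ℝ) - i)) := by
    refine Av_congr fun σ hσ => ?_
    rw [← Av_sum, ← Av_div, (mem_seqs_card.1 hσ).2, (mem_seqs_card.1 h1).2]
  rw [e3, e4, Av_const, Av_nx (a - i) (by rw [hW2]; omega), hcast]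

/-- exchange of one element inside a block -/
theorem Av_one_one {D : Finset α} {i p a b : ℕ} (hia : i ≤ a) (hap : a < p) (hib : i ≤ b)
    (hbp : b < p) (hp : p ≤ D.card) (G : List α → Finset α → List α → α → ℝ) :
    Av D (fun π => ∑ x ∈ nx π a, G (π.take i) (pre π p) (π.drop p) x) =
      Av D (fun π => ∑ x ∈ nx π b, G (π.take i) (pre π p) (π.drop p) x) := by
  rw [Av_one hia hap hp, Av_one hib hbp hp]

end Blk

end R5

end

section

/-!
# First exit level, last level before the final B-run, compensators (helper76)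

`kA τ π` = last level of the initial A-run (`k_1`), `kB τ π` = last level before the final B-run
(`k_N`, `K`).
-/

namespace R5

namespace Blk

open Finset

variable {α : Type} [DecidableEq α]

/-- last level of the initial A-run -/
def kA (τ : Finset α → Lab) (π : List α) : ℕ :=
  ((Icc 1 π.length).filter (fun i => allA τ π i)).card

/-- last level before the final B-run -/
def kB (τ : Finset α → Lab) (π : List α) : ℕ :=
  π.length - ((Icc 1 π.length).filter (fun j => allB τ π j)).card

theorem kA_le (τ : Finset α → Lab) (π : List α) : kA τ π ≤ π.length := by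
  unfold kA
  refine (card_filter_le _ _).trans ?_
  rw [Nat.card_Icc]
  omega

theorem kB_le (τ : Finset α → Lab) (π : List α) : kB τ π ≤ π.length := by
  unfold kB
  omega

/-- a downward closed set of levels is an interval -/
theorem filter_initial {n : ℕ} {P : ℕ → Prop} [DecidablePred P]
    (h : ∀ i j, i ≤ j → P j → P i) :
    (Icc 1 n).filter P = Icc 1 ((Icc 1 n).filter P).card := by
  induction n with
  | zero => simp
  | succ n ih =>
    by_cases hP : P (n + 1)
    · have h1 : (Icc 1 (n + 1)).filter P = Icc 1 (n + 1) := by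
        refine filter_true_of_mem fun i hi => ?_
        rw [mem_Icc] at hi
        exact h i (n + 1) hi.2 hP
      rw [h1]
      simp
    · have h1 : (Icc 1 (n + 1)).filter P = (Icc 1 n).filter P := by
        ext i
        simp only [mem_filter, mem_Icc]
        constructor
        · rintro ⟨⟨h2, h3⟩, h4⟩
          refine ⟨⟨h2, ?_⟩, h4⟩
          by_contra h5
          have : i = n + 1 := by omega
          exact hP (this ▸ h4)
        · rintro ⟨⟨h2, h3⟩, h4⟩
          exact ⟨⟨h2, by omega⟩, h4⟩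
      rw [h1]
      exact ih

theorem filter_final {n : ℕ} {P : ℕ → Prop} [DecidablePred P]
    (h : ∀ i j, i ≤ j → P i → P j) :
    (Icc 1 n).filter P = Icc (n - ((Icc 1 n).filter P).card + 1) n := by
  induction n with
  | zero => simp
  | succ n ih =>
    by_cases hP : P (n + 1)
    · have h1 : (Icc 1 (n + 1)).filter P = insert (n + 1) ((Icc 1 n).filter P) := by
        ext i
        simp only [mem_filter, mem_Icc, mem_insert]
        constructor
        · rintro ⟨⟨h2, h3⟩, h4⟩
          by_cases h5 : i = n + 1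
          · exact Or.inl h5
          · exact Or.inr ⟨⟨h2, by omega⟩, h4⟩
        · rintro (h2 | ⟨⟨h2, h3⟩, h4⟩)
          · subst h2
            exact ⟨⟨by omega, le_rfl⟩, hP⟩
          · exact ⟨⟨h2, by omega⟩, h4⟩
      have hn : n + 1 ∉ (Icc 1 n).filter P := by
        simp
      have hc : ((Icc 1 (n + 1)).filter P).card = ((Icc 1 n).filter P).card + 1 := by
        rw [h1, card_insert_of_notMem hn]
      have hle : ((Icc 1 n).filter P).card ≤ n := by
        refine (card_filter_le _ _).trans ?_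
        rw [Nat.card_Icc]
        omega
      rw [hc, h1]
      conv_lhs => rw [ih]
      ext i
      simp only [mem_insert, mem_Icc]
      omega
    · have h1 : (Icc 1 (n + 1)).filter P = ∅ := by
        rw [filter_eq_empty_iff]
        intro i hi h2
        rw [mem_Icc] at hi
        exact hP (h i (n + 1) hi.2 h2)
      rw [h1]
      simp

theorem allA_iff {τ : Finset α → Lab} {π : List α} (h0 : τ ∅ = Lab.A) {i : ℕ}
    (hi : i ≤ π.length) : allA τ π i ↔ i ≤ kA τ π := by
  rcases Nat.eq_zero_or_pos i with rfl | hp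
  · rw [allA_zero]
    simp [h0]
  · have h1 := filter_initial (n := π.length) (P := fun i => allA τ π i)
      (fun i j hij hj => allA_mono hij hj)
    have h2 : i ∈ (Icc 1 π.length).filter (fun i => allA τ π i) ↔ allA τ π i := by
      rw [mem_filter, mem_Icc]
      exact ⟨fun h => h.2, fun h => ⟨⟨hp, hi⟩, h⟩⟩
    rw [← h2, h1, mem_Icc]
    unfold kA
    exact ⟨fun h => h.2, fun h => ⟨hp, h⟩⟩

theorem allB_iff {τ : Finset α → Lab} {π : List α} {j : ℕ} (h1 : 1 ≤ j)
    (hj : j ≤ π.length) : allB τ π j ↔ kB τ π < j := by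
  have h2 := filter_final (n := π.length) (P := fun i => allB τ π i)
    (fun i j hij hi => allB_mono hij hi)
  have h3 : j ∈ (Icc 1 π.length).filter (fun i => allB τ π i) ↔ allB τ π j := by
    rw [mem_filter, mem_Icc]
    exact ⟨fun h => h.2, fun h => ⟨⟨h1, hj⟩, h⟩⟩
  rw [← h3, h2, mem_Icc]
  unfold kB
  exact ⟨fun h => h.1, fun h => ⟨h, hj⟩⟩

/-- the labels at the two levels -/
theorem kA_lt {τ : Finset α → Lab} {π : List α} (hB : τ π.toFinset = Lab.B)
    (h0 : τ ∅ = Lab.A) : kA τ π < π.length := by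
  have h1 := kA_le τ π
  rcases Nat.lt_or_eq_of_le h1 with h | h
  · exact h
  · exfalso
    have h2 := (allA_iff h0 (le_refl π.length)).2 h.ge
    have h3 := h2 π.length (by simp)
    rw [pre_of_ge le_rfl, hB] at h3
    exact absurd h3 (by decide)

theorem kB_lt {τ : Finset α → Lab} {π : List α} (hB : τ π.toFinset = Lab.B)
    (hl : 0 < π.length) : kB τ π < π.length :=
  (allB_iff hl (le_refl π.length)).1 (allB_length.2 hB)

theorem tau_kB {τ : Finset α → Lab} {π : List α} (hB : τ π.toFinset = Lab.B)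
    (h0 : τ ∅ = Lab.A) (hl : 0 < π.length) : τ (pre π (kB τ π)) ≠ Lab.B := by
  intro h
  rcases Nat.eq_zero_or_pos (kB τ π) with h1 | h1
  · rw [h1, pre_zero, h0] at h
    exact absurd h (by decide)
  · have h2 := kB_lt hB hl
    have h3 : allB τ π (kB τ π + 1) := (allB_iff (by omega) h2).2 (Nat.lt_succ_self _)
    have h4 : allB τ π (kB τ π) := (allB_pred h2).2 ⟨h, h3⟩
    have h5 := (allB_iff h1 h2.le).1 h4
    omega

theorem kA_le_kB {τ : Finset α → Lab} {π : List α} (hB : τ π.toFinset = Lab.B)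
    (h0 : τ ∅ = Lab.A) : kA τ π ≤ kB τ π := by
  by_contra h
  push Not at h
  have h1 := kA_lt hB h0
  have h2 : allB τ π (kA τ π) := (allB_iff (by omega) h1.le).2 h
  have h3 := h2 (kA τ π) (by rw [mem_Icc]; omega)
  have h4 := (allA_iff h0 h1.le).2 le_rfl
  have h5 := h4 (kA τ π) (by simp)
  rw [h3] at h5
  exact absurd h5 (by decide)

theorem kB_eq_iff {τ : Finset α → Lab} {π : List α} (hB : τ π.toFinset = Lab.B)
    (h0 : τ ∅ = Lab.A) {K : ℕ} (hK : K < π.length) :
    kB τ π = K ↔ allB τ π (K + 1) ∧ τ (pre π K) ≠ Lab.B := by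
  constructor
  · rintro rfl
    exact ⟨(allB_iff (by omega) hK).2 (Nat.lt_succ_self _), tau_kB hB h0 (by omega)⟩
  · rintro ⟨h1, h2⟩
    have h3 := (allB_iff (by omega) hK).1 h1
    rcases Nat.lt_or_ge (kB τ π) K with h4 | h4
    · exfalso
      have h5 := (allB_iff (by omega) hK.le).2 h4
      exact h2 (h5 K (by rw [mem_Icc]; omega))
    · omega

/-- the condition `allB` depends only on the set below and on the rest -/
def aB (τ : Finset α → Lab) (U : Finset α) (σ : List α) : Prop :=
  ∀ i ∈ range (σ.length + 1), τ (U ∪ pre σ i) = Lab.B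

instance (τ : Finset α → Lab) (U : Finset α) (σ : List α) : Decidable (aB τ U σ) := by
  unfold aB; infer_instance

theorem allB_iff_aB {τ : Finset α → Lab} {π : List α} {j : ℕ} (hj : j ≤ π.length) :
    allB τ π j ↔ aB τ (pre π j) (π.drop j) := by
  have hl : (π.take j).length = j := by rw [List.length_take, min_eq_left hj]
  have h := allB_append (τ := τ) (π1 := π.take j) (π2 := π.drop j)
  rw [List.take_append_drop, hl] at h
  exact h

theorem allA_iff_take {τ : Finset α → Lab} {π : List α} {i : ℕ} :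
    allA τ π i ↔ allA τ (π.take i) i := (allA_take le_rfl).symm

/-- **first compensator**, at a fixed level `K`: the last level before the final B-run is `K` -/
theorem comp1_at {τ : Finset α → Lab} {D : Finset α} (h0 : τ ∅ = Lab.A) (hB : τ D = Lab.B)
    (A : Finset α → Finset α) (f : List α → Finset α → List α → ℝ) {i K : ℕ} (hiK : i ≤ K)
    (hK : K < D.card) :
    Av D (fun π => if allA τ π i ∧ kB τ π = K then
      (((pre π K \ pre π i) ∩ A (pre π i)).card : ℝ) * f (π.take i) (pre π K) (π.drop K) else 0) =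
    Av D (fun π => if allA τ π i ∧ kB τ π = K then
      ((K : ℝ) - i) * (((nx π i) ∩ A (pre π i)).card : ℝ) * f (π.take i) (pre π K) (π.drop K)
        else 0) := by
  obtain ⟨G, hG⟩ : ∃ G : List α → Finset α → List α → α → ℝ, G = fun π1 U π3 x =>
    if allA τ π1 i ∧ (aB τ (U ∪ pre π3 1) (π3.drop 1) ∧ τ U ≠ Lab.B) ∧ x ∈ A π1.toFinset then
      f π1 U π3 else 0 := ⟨_, rfl⟩
  have hcond : ∀ π ∈ seqs D.card D, (allA τ π i ∧ kB τ π = K ↔ allA τ (π.take i) i ∧
      (aB τ (pre π K ∪ pre (π.drop K) 1) ((π.drop K).drop 1) ∧ τ (pre π K) ≠ Lab.B)) := by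
    intro π hπ
    have hl := length_of_mem hπ
    have hBπ : τ π.toFinset = Lab.B := by rw [(mem_seqs_card.1 hπ).2]; exact hB
    rw [kB_eq_iff hBπ h0 (by omega), ← allA_iff_take, allB_iff_aB (by omega)]
    have e1 : pre π K ∪ pre (π.drop K) 1 = pre π (K + 1) := by
      have := pre_append_add (π1 := π.take K) (π2 := π.drop K) (i := 1)
      rw [List.take_append_drop, List.length_take, min_eq_left (by omega)] at this
      rw [this]
      rfl
    rw [e1, List.drop_drop]
  have hsum : ∀ π ∈ seqs D.card D, ∀ S : Finset α, ∑ x ∈ S, G (π.take i) (pre π K) (π.drop K) x =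
      if allA τ π i ∧ kB τ π = K then ((S ∩ A (pre π i)).card : ℝ) *
        f (π.take i) (pre π K) (π.drop K) else 0 := by
    intro π hπ S
    rw [hG]
    simp only [if_congr (hcond π hπ) rfl rfl]
    by_cases h : allA τ (π.take i) i ∧
      (aB τ (pre π K ∪ pre (π.drop K) 1) ((π.drop K).drop 1) ∧ τ (pre π K) ≠ Lab.B)
    · rw [if_pos h]
      have e : ∀ x, (allA τ (π.take i) i ∧ (aB τ (pre π K ∪ pre (π.drop K) 1)
          ((π.drop K).drop 1) ∧ τ (pre π K) ≠ Lab.B) ∧ x ∈ A (π.take i).toFinset) ↔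
          x ∈ A (pre π i) := fun x => ⟨fun h' => h'.2.2, fun h' => ⟨h.1, h.2, h'⟩⟩
      simp only [e]
      rw [← sum_filter, sum_const, nsmul_eq_mul, filter_mem_eq_inter]
    · rw [if_neg h]
      refine sum_eq_zero fun x _ => if_neg fun h' => h ⟨h'.1, h'.2.1⟩
  rcases Nat.eq_or_lt_of_le hiK with rfl | hlt
  · refine Av_congr fun π _ => ?_
    split_ifs
    · simp
    · rfl
  · have h1 := Av_one (D := D) (i := i) (p := K) (a := i) le_rfl hlt hK.le G
    have e1 : Av D (fun π => if allA τ π i ∧ kB τ π = K then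
        (((pre π K \ pre π i) ∩ A (pre π i)).card : ℝ) * f (π.take i) (pre π K) (π.drop K)
          else 0) = ((K : ℝ) - i) * Av D (fun π => (∑ x ∈ pre π K \ pre π i,
            G (π.take i) (pre π K) (π.drop K) x) / ((K : ℝ) - i)) := by
      rw [← Av_mul]
      refine Av_congr fun π hπ => ?_
      rw [hsum π hπ]
      have : ((K : ℝ) - i) ≠ 0 := by
        have : (i : ℝ) < K := by exact_mod_cast hlt
        linarith
      field_simp
    have e2 : Av D (fun π => if allA τ π i ∧ kB τ π = K then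
        ((K : ℝ) - i) * (((nx π i) ∩ A (pre π i)).card : ℝ) *
          f (π.take i) (pre π K) (π.drop K) else 0) =
        ((K : ℝ) - i) * Av D (fun π => ∑ x ∈ nx π i, G (π.take i) (pre π K) (π.drop K) x) := by
      rw [← Av_mul]
      refine Av_congr fun π hπ => ?_
      rw [hsum π hπ]
      split_ifs
      · ring
      · simp
    rw [e1, e2, h1]

/-- splitting according to the last level before the final B-run -/
theorem Av_split_kB {τ : Finset α → Lab} {D : Finset α} (h0 : τ ∅ = Lab.A) (hB : τ D = Lab.B)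
    (i : ℕ) (F : ℕ → List α → ℝ) :
    Av D (fun π => if allA τ π i ∧ i < D.card then F (kB τ π) π else 0) =
      ∑ K ∈ Ico i D.card, Av D (fun π => if allA τ π i ∧ kB τ π = K then F K π else 0) := by
  rw [← Av_sum]
  refine Av_congr fun π hπ => ?_
  have hl := length_of_mem hπ
  have hBπ : τ π.toFinset = Lab.B := by rw [(mem_seqs_card.1 hπ).2]; exact hB
  by_cases hA : allA τ π i ∧ i < D.card
  · have h1 : i ≤ kA τ π := (allA_iff h0 (by omega)).1 hA.1
    have h2 := kA_le_kB hBπ h0
    have h3 := kB_lt hBπ (by omega)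
    rw [if_pos hA, sum_eq_single_of_mem (kB τ π) (by rw [mem_Ico]; omega)]
    · rw [if_pos ⟨hA.1, rfl⟩]
    · intro K _ hne
      rw [if_neg fun h => hne h.2.symm]
  · rw [if_neg hA]
    symm
    refine sum_eq_zero fun K hK => ?_
    rw [mem_Ico] at hK
    exact if_neg fun h => hA ⟨h.1, by omega⟩

/-- **first compensator** (note 1458, 1442): `E[|A_i ∩ V_K| f; i ≤ k] = E[(K - i) f; x_(i+1) ∈ A_i]`
for every function `f` of the first `i` elements, of `V_K` and of the order after `K`. -/
theorem comp1 {τ : Finset α → Lab} {D : Finset α} (h0 : τ ∅ = Lab.A) (hB : τ D = Lab.B)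
    (A : Finset α → Finset α) (f : List α → Finset α → List α → ℝ) {i : ℕ} (hi : i < D.card) :
    Av D (fun π => if allA τ π i then
      (((pre π (kB τ π) \ pre π i) ∩ A (pre π i)).card : ℝ) *
        f (π.take i) (pre π (kB τ π)) (π.drop (kB τ π)) else 0) =
    Av D (fun π => if allA τ π i then
      ((kB τ π : ℝ) - i) * (((nx π i) ∩ A (pre π i)).card : ℝ) *
        f (π.take i) (pre π (kB τ π)) (π.drop (kB τ π)) else 0) := by
  have e1 := Av_split_kB h0 hB i (fun K π => (((pre π K \ pre π i) ∩ A (pre π i)).card : ℝ) *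
        f (π.take i) (pre π K) (π.drop K))
  have e2 := Av_split_kB h0 hB i (fun K π => ((K : ℝ) - i) *
    (((nx π i) ∩ A (pre π i)).card : ℝ) * f (π.take i) (pre π K) (π.drop K))
  simp only [hi, and_true] at e1 e2
  rw [e1, e2]
  refine sum_congr rfl fun K hK => ?_
  rw [mem_Ico] at hK
  exact comp1_at h0 hB A f hK.1 hK.2

/-- the number of elements of `S` outside the last non-B set, as a sum over the levels -/
theorem card_out {τ : Finset α → Lab} {D : Finset α} {π : List α} (hπ : π ∈ seqs D.card D)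
    (h0 : τ ∅ = Lab.A) (hB : τ D = Lab.B) {i : ℕ} (hi : i < D.card) (hA : allA τ π i)
    (S : Finset α) (g : ℕ → ℝ) :
    ∑ p ∈ Ioc i D.card, (if allB τ π p then ∑ _x ∈ nx π (p - 1) ∩ S, g p else 0) =
      ∑ p ∈ Ioc (kB τ π) D.card, ((nx π (p - 1) ∩ S).card : ℝ) * g p := by
  have hl := length_of_mem hπ
  have hBπ : τ π.toFinset = Lab.B := by rw [(mem_seqs_card.1 hπ).2]; exact hB
  have h1 : i ≤ kA τ π := (allA_iff h0 (by omega)).1 hA
  have h2 := kA_le_kB hBπ h0
  have h3 := kB_lt hBπ (by omega)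
  rw [← sum_filter]
  have e : (Ioc i D.card).filter (fun p => allB τ π p) = Ioc (kB τ π) D.card := by
    ext p
    simp only [mem_filter, mem_Ioc]
    constructor
    · rintro ⟨h4, h5⟩
      exact ⟨(allB_iff (by omega) (by omega)).1 h5, h4.2⟩
    · rintro ⟨h4, h5⟩
      exact ⟨⟨by omega, h5⟩, (allB_iff (by omega) (by omega)).2 h4⟩
  rw [e]
  refine sum_congr rfl fun p _ => ?_
  rw [sum_const, nsmul_eq_mul]

/-- a set as the disjoint union of its elements in the order -/
theorem card_levels {D : Finset α} {π : List α} (hπ : π ∈ seqs D.card D) {K p : ℕ} (hKp : K ≤ p)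
    (hp : p ≤ D.card) (S : Finset α) :
    ((pre π p \ pre π K) ∩ S).card = ∑ q ∈ Ioc K p, (nx π (q - 1) ∩ S).card := by
  induction p, hKp using Nat.le_induction with
  | base => simp
  | succ p hKp ih =>
    have h1 := ih (by omega)
    have e1 : Ioc K (p + 1) = insert (p + 1) (Ioc K p) := by
      ext q
      simp only [mem_Ioc, mem_insert]
      omega
    rw [e1, sum_insert (by simp), ← h1]
    have e2 : (pre π (p + 1) \ pre π K) ∩ S =
        (nx π (p + 1 - 1) ∩ S) ∪ ((pre π p \ pre π K) ∩ S) := by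
      have h2 : pre π p ⊆ pre π (p + 1) := pre_mono (Nat.le_succ p)
      have h3 : pre π K ⊆ pre π p := pre_mono hKp
      unfold nx
      ext x
      simp only [mem_inter, mem_sdiff, mem_union, Nat.add_sub_cancel]
      constructor
      · rintro ⟨⟨h4, h5⟩, h6⟩
        by_cases h7 : x ∈ pre π p
        · exact Or.inr ⟨⟨h7, h5⟩, h6⟩
        · exact Or.inl ⟨⟨h4, h7⟩, h6⟩
      · rintro (⟨⟨h4, h5⟩, h6⟩ | ⟨⟨h4, h5⟩, h6⟩)
        · exact ⟨⟨h4, fun h7 => h5 (h3 h7)⟩, h6⟩
        · exact ⟨⟨h2 h4, h5⟩, h6⟩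
    rw [e2, card_union_of_disjoint]
    rw [Finset.disjoint_left]
    intro x hx hx'
    unfold nx at hx
    simp only [mem_inter, mem_sdiff, Nat.add_sub_cancel] at hx hx'
    exact hx.1.2 hx'.1.1

/-- **second compensator**, levelwise: `E[f; i ≤ k, p > K, x_p ∈ A_i] = E[f; p > K, x_(i+1) ∈ A_i]`
for every function `f` of the first `i` elements, of `V_p` and of the order after `p`. -/
theorem comp2_at {τ : Finset α → Lab} {D : Finset α} (A : Finset α → Finset α)
    (f : List α → Finset α → List α → ℝ) {i p : ℕ} (hip : i < p) (hp : p ≤ D.card) :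
    Av D (fun π => if allA τ π i ∧ allB τ π p then
      ((nx π (p - 1) ∩ A (pre π i)).card : ℝ) * f (π.take i) (pre π p) (π.drop p) else 0) =
    Av D (fun π => if allA τ π i ∧ allB τ π p then
      ((nx π i ∩ A (pre π i)).card : ℝ) * f (π.take i) (pre π p) (π.drop p) else 0) := by
  obtain ⟨G, hG⟩ : ∃ G : List α → Finset α → List α → α → ℝ, G = fun π1 U π3 x =>
    if allA τ π1 i ∧ aB τ U π3 ∧ x ∈ A π1.toFinset then f π1 U π3 else 0 := ⟨_, rfl⟩
  have hsum : ∀ π ∈ seqs D.card D, ∀ S : Finset α, ∑ x ∈ S, G (π.take i) (pre π p) (π.drop p) x =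
      if allA τ π i ∧ allB τ π p then ((S ∩ A (pre π i)).card : ℝ) *
        f (π.take i) (pre π p) (π.drop p) else 0 := by
    intro π hπ S
    have hl := length_of_mem hπ
    rw [hG, if_congr (and_congr allA_iff_take (allB_iff_aB (by omega))) rfl rfl]
    by_cases h : allA τ (π.take i) i ∧ aB τ (pre π p) (π.drop p)
    · rw [if_pos h]
      have e : ∀ x, (allA τ (π.take i) i ∧ aB τ (pre π p) (π.drop p) ∧
          x ∈ A (π.take i).toFinset) ↔ x ∈ A (pre π i) :=
        fun x => ⟨fun h' => h'.2.2, fun h' => ⟨h.1, h.2, h'⟩⟩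
      simp only [e]
      rw [← sum_filter, sum_const, nsmul_eq_mul, filter_mem_eq_inter]
    · rw [if_neg h]
      exact sum_eq_zero fun x _ => if_neg fun h' => h ⟨h'.1, h'.2.1⟩
  have h1 := Av_one_one (D := D) (i := i) (p := p) (a := p - 1) (b := i) (by omega) (by omega)
    le_rfl hip hp G
  rw [Av_congr (fun π hπ => hsum π hπ _), Av_congr (fun π hπ => hsum π hπ _)] at h1
  exact h1

/-- **second compensator** (note 1442, 1458, 1478):
`E[|A_i - V_K| f; i ≤ k] = E[(l - K) f; x_(i+1) ∈ A_i]` for every function `f` of the first `i`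
elements. -/
theorem comp2 {τ : Finset α → Lab} {D : Finset α} (h0 : τ ∅ = Lab.A) (hB : τ D = Lab.B)
    (A : Finset α → Finset α) (f : List α → ℝ) {i : ℕ} (hi : i < D.card) :
    Av D (fun π => if allA τ π i then
      (((D \ pre π (kB τ π)) ∩ A (pre π i)).card : ℝ) * f (π.take i) else 0) =
    Av D (fun π => if allA τ π i then
      ((D.card : ℝ) - kB τ π) * (((nx π i) ∩ A (pre π i)).card : ℝ) * f (π.take i) else 0) := by
  have e1 : Av D (fun π => if allA τ π i then
      (((D \ pre π (kB τ π)) ∩ A (pre π i)).card : ℝ) * f (π.take i) else 0) =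
      ∑ p ∈ Ioc i D.card, Av D (fun π => if allA τ π i ∧ allB τ π p then
        ((nx π (p - 1) ∩ A (pre π i)).card : ℝ) * f (π.take i) else 0) := by
    rw [← Av_sum]
    refine Av_congr fun π hπ => ?_
    have hl := length_of_mem hπ
    have hBπ : τ π.toFinset = Lab.B := by rw [(mem_seqs_card.1 hπ).2]; exact hB
    by_cases hA : allA τ π i
    · rw [if_pos hA]
      have h1 := card_out hπ h0 hB hi hA (A (pre π i)) (fun _ => f (π.take i))
      have h2 : ∑ p ∈ Ioc i D.card, (if allA τ π i ∧ allB τ π p then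
          ((nx π (p - 1) ∩ A (pre π i)).card : ℝ) * f (π.take i) else 0) =
          ∑ p ∈ Ioc i D.card, (if allB τ π p then
            ∑ _x ∈ nx π (p - 1) ∩ A (pre π i), f (π.take i) else 0) := by
        refine sum_congr rfl fun p _ => ?_
        simp only [hA, true_and, sum_const, nsmul_eq_mul]
      rw [h2, h1, ← sum_mul]
      congr 1
      have h3 := card_levels hπ (K := kB τ π) (p := D.card)
        (by have := kB_le τ π; omega) le_rfl (A (pre π i))
      rw [pre_card_of_mem hπ le_rfl] at h3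
      exact_mod_cast h3
    · rw [if_neg hA]
      symm
      exact sum_eq_zero fun p _ => if_neg fun h => hA h.1
  have e2 : Av D (fun π => if allA τ π i then
      ((D.card : ℝ) - kB τ π) * (((nx π i) ∩ A (pre π i)).card : ℝ) * f (π.take i) else 0) =
      ∑ p ∈ Ioc i D.card, Av D (fun π => if allA τ π i ∧ allB τ π p then
        ((nx π i ∩ A (pre π i)).card : ℝ) * f (π.take i) else 0) := by
    rw [← Av_sum]
    refine Av_congr fun π hπ => ?_
    have hl := length_of_mem hπ
    have hBπ : τ π.toFinset = Lab.B := by rw [(mem_seqs_card.1 hπ).2]; exact hB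
    by_cases hA : allA τ π i
    · rw [if_pos hA]
      have h1 : i ≤ kA τ π := (allA_iff h0 (by omega)).1 hA
      have h2 := kA_le_kB hBπ h0
      have h3 := kB_lt hBπ (by omega)
      simp only [hA, true_and]
      rw [← sum_filter]
      have e : (Ioc i D.card).filter (fun p => allB τ π p) = Ioc (kB τ π) D.card := by
        ext p
        simp only [mem_filter, mem_Ioc]
        constructor
        · rintro ⟨h4, h5⟩
          exact ⟨(allB_iff (by omega) (by omega)).1 h5, h4.2⟩
        · rintro ⟨h4, h5⟩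
          exact ⟨⟨by omega, h5⟩, (allB_iff (by omega) (by omega)).2 h4⟩
      rw [e, sum_const, Nat.card_Ioc, nsmul_eq_mul, Nat.cast_sub (by omega)]
      ring
    · rw [if_neg hA]
      symm
      exact sum_eq_zero fun p _ => if_neg fun h => hA h.1
  rw [e1, e2]
  refine sum_congr rfl fun p hp => ?_
  rw [mem_Ioc] at hp
  exact comp2_at A (fun π1 _ _ => f π1) hp.1 hp.2

end Blk

end R5

end

section

/-!
# The two-sided path inequality (helper52, note 1480 (3)), helper76

`A X` = live S-lights at `X`, `Z V` = live T-lights of `V` (any functions with the properties used).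
-/

namespace R5

namespace Blk

open Finset

variable {α : Type} [DecidableEq α]

theorem insert_nx {D : Finset α} {π : List α} (hπ : π ∈ seqs D.card D) {i : ℕ} (hi : i < D.card)
    {z : α} (hz : z ∈ nx π i) : insert z (pre π i) = pre π (i + 1) := by
  have hc := card_nx hπ hi
  have h1 : pre π i ⊆ pre π (i + 1) := pre_mono (Nat.le_succ i)
  unfold nx at hz hc
  have h2 := mem_sdiff.1 hz
  ext x
  simp only [mem_insert]
  constructor
  · rintro (rfl | h)
    · exact h2.1
    · exact h1 h
  · intro h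
    by_cases hx : x ∈ pre π i
    · exact Or.inr hx
    · left
      obtain ⟨w, hw⟩ := card_eq_one.1 hc
      have h3 : x ∈ pre π (i + 1) \ pre π i := mem_sdiff.2 ⟨h, hx⟩
      rw [hw, mem_singleton] at h3 hz
      rw [h3, hz]

/-! ### the two kinds exclude each other, and the surplus -/

theorem nx_single {D : Finset α} {π : List α} (hπ : π ∈ seqs D.card D) {i : ℕ}
    (hi : i < D.card) : ∃ x, nx π i = {x} := card_eq_one.1 (card_nx hπ hi)

theorem mem_nx {π : List α} {i : ℕ} {x : α} : x ∈ nx π i ↔ x ∈ pre π (i + 1) ∧ x ∉ pre π i := by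
  unfold nx
  exact mem_sdiff

end Blk

end R5

end

section

/-!
# The level lemma (scalar part), helper76

Note 1442 (A) of the R5 room.  `gg b j = ∑_{i<j} log (b / (b - i))`.
-/

namespace R5

namespace Lev

open Finset

/-- the re-entry sum -/
noncomputable def rs (l K p : ℕ) : ℝ := ∑ j ∈ range p, Real.log ((l : ℝ) / ((K : ℝ) - j))

theorem gg_succ (b j : ℕ) : gg b (j + 1) = gg b j + Real.log ((b : ℝ) / ((b : ℝ) - j)) := by
  simp [gg, sum_range_succ]

/-- one term of `gg` is nonnegative -/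
theorem term_nonneg {b i : ℕ} (h : i < b) : 0 ≤ Real.log ((b : ℝ) / ((b : ℝ) - i)) := by
  have h1 : (i : ℝ) + 1 ≤ b := by exact_mod_cast h
  apply Real.log_nonneg
  rw [one_le_div (by linarith)]
  have : (0 : ℝ) ≤ i := Nat.cast_nonneg i
  linarith

theorem gg_nonneg {b j : ℕ} (h : j ≤ b) : 0 ≤ gg b j :=
  sum_nonneg fun _ hi => term_nonneg (lt_of_lt_of_le (mem_range.1 hi) h)

theorem gg_mono_right {b j j' : ℕ} (h : j ≤ j') (h' : j' ≤ b) : gg b j ≤ gg b j' := by
  unfold gg
  apply sum_le_sum_of_subset_of_nonneg (range_subset_range.2 h)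
  intro i hi _
  exact term_nonneg (lt_of_lt_of_le (mem_range.1 hi) h')

theorem gg_anti_left {b b' j : ℕ} (h : j ≤ b) (h' : b ≤ b') : gg b' j ≤ gg b j := by
  unfold gg
  apply sum_le_sum
  intro i hi
  have hi' : i < j := mem_range.1 hi
  have h1 : (i : ℝ) + 1 ≤ b := by exact_mod_cast lt_of_lt_of_le hi' h
  have h2 : (b : ℝ) ≤ b' := by exact_mod_cast h'
  have h0 : (0 : ℝ) ≤ i := Nat.cast_nonneg i
  apply Real.log_le_log (div_pos (by linarith) (by linarith))
  rw [div_le_div_iff₀ (by linarith) (by linarith)]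
  nlinarith

/-- the last terms of `gg` -/
theorem gg_add (l o p : ℕ) :
    gg l (o + p) = gg l o + ∑ j ∈ range p, Real.log ((l : ℝ) / ((l : ℝ) - o - j)) := by
  induction p with
  | zero => simp
  | succ p ih =>
    rw [← add_assoc, gg_succ, ih, sum_range_succ]
    push_cast
    rw [add_assoc]
    congr 3
    ring

/-- the increment in `m`, the last element is live -/
theorem del_live {m a : ℕ} (h : a + 1 ≤ m) :
    gg m (a + 1) - gg (m - 1) a = a * Real.log ((m : ℝ) / ((m : ℝ) - 1)) := by
  obtain ⟨n, rfl⟩ : ∃ n, m = n + 1 := ⟨m - 1, by omega⟩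
  have hn : a ≤ n := by omega
  simp only [Nat.add_sub_cancel]
  unfold gg
  rw [sum_range_succ']
  simp only [Nat.cast_zero, sub_zero]
  have h0 : Real.log (((n + 1 : ℕ) : ℝ) / ((n + 1 : ℕ) : ℝ)) = 0 := by
    rw [div_self (by positivity), Real.log_one]
  rw [h0, add_zero, ← sum_sub_distrib]
  have : ∀ i ∈ range a, Real.log (((n + 1 : ℕ) : ℝ) / (((n + 1 : ℕ) : ℝ) - ((i + 1 : ℕ) : ℝ))) -
      Real.log ((n : ℝ) / ((n : ℝ) - i)) =
        Real.log (((n + 1 : ℕ) : ℝ) / (((n + 1 : ℕ) : ℝ) - 1)) := by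
    intro i hi
    have hi' : i < a := mem_range.1 hi
    have h1 : (i : ℝ) + 1 ≤ n := by exact_mod_cast lt_of_lt_of_le hi' hn
    have h0 : (0 : ℝ) ≤ i := Nat.cast_nonneg i
    have h2 : (0 : ℝ) < n := by linarith
    have h3 : (0 : ℝ) < (n : ℝ) - i := by linarith
    push_cast
    rw [← Real.log_div (by
      apply ne_of_gt
      apply div_pos <;> linarith) (by
      apply ne_of_gt
      apply div_pos <;> linarith)]
    congr 1
    have e1 : (n : ℝ) + 1 - (i + 1) = (n : ℝ) - i := by ring
    have e2 : (n : ℝ) + 1 - 1 = n := by ring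
    rw [e1, e2]
    field_simp
  rw [sum_congr rfl this, sum_const, card_range, nsmul_eq_mul]

/-- the increment in `m`, the last element is not live -/
theorem del_dead {m a : ℕ} (h : a + 1 ≤ m) :
    gg m a - gg (m - 1) a =
      a * Real.log ((m : ℝ) / ((m : ℝ) - 1)) - Real.log ((m : ℝ) / ((m : ℝ) - a)) := by
  have h1 := del_live h
  have h2 := gg_succ m a
  linarith

/-- comparison of the re-entry sum with the last terms of `gg` -/
theorem rs_ge {l K o p : ℕ} (h : K + o ≤ l) (hp : p ≤ K) :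
    ∑ j ∈ range p, Real.log ((l : ℝ) / ((l : ℝ) - o - j)) ≤ rs l K p := by
  unfold rs
  apply sum_le_sum
  intro j hj
  have hj' : j < p := mem_range.1 hj
  have h1 : (j : ℝ) + 1 ≤ K := by exact_mod_cast lt_of_lt_of_le hj' hp
  have h2 : (K : ℝ) + o ≤ l := by exact_mod_cast h
  have h0 : (0 : ℝ) ≤ j := Nat.cast_nonneg j
  have h3 : (0 : ℝ) ≤ o := Nat.cast_nonneg o
  apply Real.log_le_log (div_pos (by linarith) (by linarith))
  apply div_le_div_of_nonneg_left (by linarith) (by linarith) (by linarith)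

/-- the gain against `gg` of fewer marks -/
theorem gain_ge {b J pN c o : ℕ} (h1 : o + pN ≤ J) (h2 : J ≤ b) (h3 : b ≤ c + pN) :
    gg c o ≤ gg (b - pN) (J - pN) := by
  refine le_trans (gg_anti_left (b := b - pN) (by omega) (by omega)) ?_
  exact gg_mono_right (by omega) (by omega)

/-- LEVEL LEMMA, `e_N` not a live light: `p` live lights in `V_K`, `o` outside `V_{K+1}`. -/
theorem level_dead {l K o p b J pN : ℕ} (hK : K + o + 1 ≤ l) (hp : p ≤ K) (hpN : p ≤ pN)
    (hJ : o + pN ≤ J) (hb : J ≤ b) (hbl : b ≤ l) :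
    0 ≤ rs l K p - gg l (o + p) + gg (b - pN) (J - pN) := by
  have h1 := gain_ge (c := l - p) hJ hb (by omega)
  have h2 := gg_add l o p
  have h3 := rs_ge (l := l) (K := K) (o := o) (p := p) (by omega) hp
  have h4 : gg l o ≤ gg (l - p) o := gg_anti_left (by omega) (by omega)
  linarith

/-- the same without outer lights: a surplus -/
theorem level_surplus {l K p b J pN : ℕ} (hK : K + 1 ≤ l) (hp : p ≤ K)
    (hJ : pN ≤ J) (hb : J ≤ b) :
    Real.log ((l : ℝ) / ((l : ℝ) - p)) ≤ rs l K p - gg l p + gg (b - pN) (J - pN) := by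
  have h1 : 0 ≤ gg (b - pN) (J - pN) := gg_nonneg (by omega)
  have h3 := rs_ge (l := l) (K := K) (o := 1) (p := p) (by omega) hp
  have h2 := gg_add l 1 p
  have h4 : gg l 1 = 0 := by
    have hl : (l : ℝ) ≠ 0 := by
      have : 0 < l := by omega
      positivity
    simp [gg, div_self hl]
  have h5 := gg_succ l p
  rw [h4, add_comm 1 p, h5] at h2
  push_cast at h2 h3
  linarith

/-- LEVEL LEMMA, `e_N` a live light: `p` live lights in `V_K`, `e_N`, and `o` outside `V_{K+1}`. -/
theorem level_live_gen {l K o p b J pN : ℕ} (hK : K + o + 1 ≤ l) (hp : p ≤ K)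
    (hpN : p + 1 ≤ pN) (hJ : o + pN ≤ J) (hb : J ≤ b) :
    gg (b - 1) o - gg l (o + 1) ≤ rs l K p - gg l (o + 1 + p) + gg (b - pN) (J - pN) := by
  have h1 := gain_ge (c := b - 1) hJ hb (by omega)
  have h2 := gg_add l (o + 1) p
  have h3 := rs_ge (l := l) (K := K) (o := o + 1) (p := p) (by omega) hp
  linarith

theorem level_live {l K o p b J pN : ℕ} (hK : K + o + 1 ≤ l) (hp : p ≤ K)
    (hpN : p + 1 ≤ pN) (hJ : o + pN ≤ J) (hb : J ≤ b) (hbl : b ≤ l) :
    -((o : ℝ) * Real.log ((l : ℝ) / ((l : ℝ) - 1))) ≤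
      rs l K p - gg l (o + 1 + p) + gg (b - pN) (J - pN) := by
  have h1 := level_live_gen hK hp hpN hJ hb
  have h2 : gg (l - 1) o ≤ gg (b - 1) o := gg_anti_left (by omega) (by omega)
  have h3 := del_live (m := l) (a := o) (by omega)
  linarith

end Lev

end R5

end

section

/-!
# The linearised level lemma (helper76)

Note 1480 (1) of the R5 room (helper52).
-/

namespace R5

namespace Lev

open Finset

/-- `log ((x + h) / x) ≥ h * log (l / (l - 1))` for `x + h ≤ l`. -/
theorem log_step {l x h : ℕ} (hx : 1 ≤ x) (hl : x + h ≤ l) :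
    (h : ℝ) * Real.log ((l : ℝ) / ((l : ℝ) - 1)) ≤ Real.log (((x : ℝ) + h) / x) := by
  have hx' : (1 : ℝ) ≤ x := by exact_mod_cast hx
  induction h with
  | zero => simp [div_self (by linarith : (x : ℝ) ≠ 0)]
  | succ h ih =>
    have h1 := ih (by omega)
    have h2 : (x : ℝ) + h + 1 ≤ l := by exact_mod_cast hl
    have h0 : (0 : ℝ) ≤ h := Nat.cast_nonneg h
    push_cast
    have e1 : ((x : ℝ) + (h + 1)) / x = (((x : ℝ) + h) / x) * (((x : ℝ) + h + 1) / ((x : ℝ) + h)) := by
      field_simp
      ring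
    rw [e1, Real.log_mul (by positivity) (by positivity)]
    have h3 : Real.log ((l : ℝ) / ((l : ℝ) - 1)) ≤
        Real.log (((x : ℝ) + h + 1) / ((x : ℝ) + h)) := by
      apply Real.log_le_log (div_pos (by linarith) (by linarith))
      rw [div_le_div_iff₀ (by linarith) (by linarith)]
      nlinarith
    linarith

/-- surplus of the re-entry sum -/
theorem rs_ge_lin {l K o p h : ℕ} (hh : K + o + h = l) (hp : p ≤ K) :
    (p : ℝ) * h * Real.log ((l : ℝ) / ((l : ℝ) - 1)) +
      ∑ j ∈ range p, Real.log ((l : ℝ) / ((l : ℝ) - o - j)) ≤ rs l K p := by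
  have key : ∀ j ∈ range p, (h : ℝ) * Real.log ((l : ℝ) / ((l : ℝ) - 1)) +
      Real.log ((l : ℝ) / ((l : ℝ) - o - j)) ≤ Real.log ((l : ℝ) / ((K : ℝ) - j)) := by
    intro j hj
    have hj' : j < p := mem_range.1 hj
    have hjK : j + 1 ≤ K := by omega
    have h1 := log_step (l := l) (x := K - j) (h := h) (by omega) (by omega)
    have h3 : (j : ℝ) + 1 ≤ K := by exact_mod_cast hjK
    have h4 : (K : ℝ) + o + h = l := by exact_mod_cast hh
    have h0 : (0 : ℝ) ≤ j := Nat.cast_nonneg j
    have h5 : (0 : ℝ) ≤ o := Nat.cast_nonneg o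
    have h6 : (0 : ℝ) ≤ h := Nat.cast_nonneg h
    have e0 : ((K - j : ℕ) : ℝ) = (K : ℝ) - j := by
      rw [Nat.cast_sub (by omega)]
    rw [e0] at h1
    have e1 : (l : ℝ) / ((K : ℝ) - j) =
        (((K : ℝ) - j + h) / ((K : ℝ) - j)) * ((l : ℝ) / ((l : ℝ) - o - j)) := by
      have e2 : (l : ℝ) - o - j = (K : ℝ) - j + h := by linarith
      rw [e2]
      have : (K : ℝ) - j + h ≠ 0 := by
        have : (0 : ℝ) < (K : ℝ) - j + h := by linarith
        exact this.ne'
      have : (K : ℝ) - j ≠ 0 := by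
        have : (0 : ℝ) < (K : ℝ) - j := by linarith
        exact this.ne'
      field_simp
    rw [e1, Real.log_mul]
    · linarith
    · exact (div_pos (by linarith) (by linarith)).ne'
    · exact (div_pos (by linarith) (by linarith)).ne'
  have h7 := sum_le_sum key
  rw [sum_add_distrib, sum_const, card_range, nsmul_eq_mul] at h7
  unfold rs
  calc _ = (p : ℝ) * ((h : ℝ) * Real.log ((l : ℝ) / ((l : ℝ) - 1))) +
        ∑ j ∈ range p, Real.log ((l : ℝ) / ((l : ℝ) - o - j)) := by ring
    _ ≤ _ := h7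

/-- LINEARISED LEVEL LEMMA, `e_N` not a live light; `h = l - K - o`. -/
theorem level_dead_lin {l K o p b J pN h : ℕ} (hh : K + o + h = l) (hp : p ≤ K)
    (hpN : p ≤ pN) (hJ : o + pN ≤ J) (hb : J ≤ b) (hbl : b ≤ l) :
    (p : ℝ) * h * Real.log ((l : ℝ) / ((l : ℝ) - 1)) ≤
      rs l K p - gg l (o + p) + gg (b - pN) (J - pN) := by
  have h1 := gain_ge (c := l - p) hJ hb (by omega)
  have h2 := gg_add l o p
  have h3 := rs_ge_lin hh hp
  have h4 : gg l o ≤ gg (l - p) o := gg_anti_left (by omega) (by omega)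
  linarith

end Lev

end R5

end
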