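import Mathlib
import Pool.Agent.Work.MP_8b6acb_full.P11

section

/-!
# T7L as an inequality between averages over orders (helper55)
-/

namespace R5

open Finset T7

variable {α : Type} [DecidableEq α]

/-- live lights of `V` at `U` -/
def AL (τ : Finset α → Lab) (V U : Finset α) : Finset α :=
  (V \ U).filter (fun z => τ {z} = Lab.B ∧ τ (insert z U) = Lab.B)

theorem Lf_mono {m : ℕ} {s t : ℝ} (hst : s ≤ t) (ht : t < m) (hm : (0 : ℝ) < m) :
    Lf m s ≤ Lf m t := by
  unfold Lf
  have h1 : 0 < 1 - t / (m : ℝ) := by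
    rw [sub_pos, div_lt_one hm]
    exact ht
  have h2 : 1 - t / (m : ℝ) ≤ 1 - s / (m : ℝ) := by
    have := div_le_div_of_nonneg_right hst hm.le
    linarith
  have := Real.log_le_log h1 h2
  linarith

end R5

end

section

/-!
# CT0': the T-lemma with a credit for the levels without edge exit (helper55)
-/

namespace R5

open Finset T7

variable {α : Type} [DecidableEq α]

/-- number of levels `1 ≤ i ≤ k` without edge exit -/
noncomputable def n0 (τ : Finset α → Lab) (V : Finset α) (π : List α) (k : ℕ) : ℝ :=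
  ∑ i ∈ Icc 1 k, if ∀ x ∈ V \ pre π i, τ (insert x (pre π i)) ≠ Lab.B then 1 else 0

end R5

end

section

/-!
# The charges in telescoping form (helper55)
-/

namespace R5

open Finset T7

variable {α : Type} [DecidableEq α]

/-- conditioning on the first `k` elements -/
theorem Av_eq_of_split {G : Finset α} {k : ℕ} (hk : k ≤ G.card) {f f' : List α → ℝ}
    (h : ∀ U ∈ powersetCard k G, ∀ π1 ∈ seqs U.card U,
      Av (G \ U) (fun π2 => f (π1 ++ π2)) = Av (G \ U) (fun π2 => f' (π1 ++ π2))) :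
    Av G f = Av G f' := by
  rw [Av_split k G hk f, Av_split k G hk f']
  congr 1
  exact sum_congr rfl fun U hU => Av_congr fun π1 h1 => h U hU π1 h1

theorem Av_le_of_split {G : Finset α} {k : ℕ} (hk : k ≤ G.card) {f f' : List α → ℝ}
    (h : ∀ U ∈ powersetCard k G, ∀ π1 ∈ seqs U.card U,
      Av (G \ U) (fun π2 => f (π1 ++ π2)) ≤ Av (G \ U) (fun π2 => f' (π1 ++ π2))) :
    Av G f ≤ Av G f' := by
  rw [Av_split k G hk f, Av_split k G hk f']
  apply div_le_div_of_nonneg_right _ (Nat.cast_nonneg _)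
  exact sum_le_sum fun U hU => Av_mono fun π1 h1 => h U hU π1 h1

/-- the last element -/
theorem Av_last {W A : Finset α} (hW : W.Nonempty) (hA : A ⊆ W) (G : ℕ → ℝ) :
    Av W (fun π => G (A ∩ pre π (W.card - 1)).card) =
      ((A.card : ℝ) * G (A.card - 1) + ((W.card : ℝ) - A.card) * G A.card) / (W.card : ℝ) := by
  rw [Av_snoc hW]
  congr 1
  have h1 : ∀ x ∈ W, Av (W.erase x) (fun π => G (A ∩ pre (π ++ [x]) (W.card - 1)).card) =
      G (A.erase x).card := by
    intro x hx
    refine (Av_congr (f' := fun _ => G (A.erase x).card) fun π hπ => ?_).trans (Av_const _ _)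
    have hl : π.length = W.card - 1 := by rw [length_of_mem hπ, card_erase_of_mem hx]
    rw [pre_append_le (le_of_eq hl.symm), ← hl, pre_of_ge le_rfl, (mem_seqs_card.1 hπ).2]
    congr 2
    ext y
    simp only [mem_inter, mem_erase]
    constructor
    · rintro ⟨h1, h2, _⟩
      exact ⟨h2, h1⟩
    · rintro ⟨h1, h2⟩
      exact ⟨h2, h1, hA h2⟩
  rw [sum_congr rfl h1, ← sum_sdiff hA]
  have h2 : ∑ x ∈ W \ A, G (A.erase x).card = ((W.card : ℝ) - A.card) * G A.card := by
    have : ∀ x ∈ W \ A, G (A.erase x).card = G A.card := by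
      intro x hx
      rw [erase_eq_of_notMem (mem_sdiff.1 hx).2]
    rw [sum_congr rfl this, sum_const, nsmul_eq_mul, card_sdiff_cast hA]
  have h3 : ∑ x ∈ A, G (A.erase x).card = (A.card : ℝ) * G (A.card - 1) := by
    have : ∀ x ∈ A, G (A.erase x).card = G (A.card - 1) := by
      intro x hx
      rw [card_erase_of_mem hx]
    rw [sum_congr rfl this, sum_const, nsmul_eq_mul]
  rw [h2, h3]
  ring

theorem iA_append {τ : Finset α → Lab} {π1 π2 : List α} {i : ℕ} (h : i ≤ π1.length) :
    iA τ (π1 ++ π2) i = iA τ π1 i := iA_congr (allA_append h)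

theorem AL_inter {τ : Finset α → Lab} {V U P : Finset α} (hP : P ⊆ V \ U) :
    AL τ (U ∪ P) U = AL τ V U ∩ P := by
  unfold AL
  ext z
  simp only [mem_filter, mem_sdiff, mem_union, mem_inter]
  constructor
  · rintro ⟨⟨h1 | h1, h2⟩, h3⟩
    · exact absurd h1 h2
    · exact ⟨⟨mem_sdiff.1 (hP h1), h3⟩, h1⟩
  · rintro ⟨⟨h1, h3⟩, h2⟩
    exact ⟨⟨Or.inr h2, (mem_sdiff.1 (hP h2)).2⟩, h3⟩

/-- the charge of a level -/
theorem charge_num {m a n : ℕ} (han : a ≤ n) (hnm : n ≤ m) (hn : 1 ≤ n) :
    cc m a n = gg m a - ((a : ℝ) * gg (m - 1) (a - 1) + ((n : ℝ) - a) * gg (m - 1) a) / n := by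
  have hn0 : (0 : ℝ) < n := by exact_mod_cast hn
  have hL : a + 1 ≤ m → Lf m a = Real.log ((m : ℝ) / ((m : ℝ) - a)) := by
    intro ha
    unfold Lf
    have h1 : (a : ℝ) + 1 ≤ m := by exact_mod_cast ha
    have h0 : (0 : ℝ) ≤ a := Nat.cast_nonneg a
    have h2 : (0 : ℝ) < m := by linarith
    rw [← Real.log_inv]
    congr 1
    have h3 : (0 : ℝ) < (m : ℝ) - a := by linarith
    field_simp
  rcases Nat.eq_zero_or_pos a with rfl | ha
  · have h1 : Lf m ((0 : ℕ) : ℝ) = 0 := by
      unfold Lf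
      simp
    have h2 : gg m 0 = 0 := by simp [gg]
    have h3 : gg (m - 1) 0 = 0 := by simp [gg]
    unfold cc
    rw [h1, h2, h3]
    simp
  · obtain ⟨b, rfl⟩ : ∃ b, a = b + 1 := ⟨a - 1, by omega⟩
    have h1 := Lev.del_live (m := m) (a := b) (by omega)
    rw [Nat.add_sub_cancel]
    have hlam : lamn m = Real.log ((m : ℝ) / ((m : ℝ) - 1)) := rfl
    rcases Nat.eq_or_lt_of_le han with he | hlt
    · -- all elements are live
      have h3 : (n : ℝ) = ((b + 1 : ℕ) : ℝ) := by rw [he]
      rw [h3, sub_self, zero_mul, add_zero]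
      have hb0 : (0 : ℝ) < ((b + 1 : ℕ) : ℝ) := by positivity
      rw [mul_div_cancel_left₀ _ hb0.ne', h1, ← hlam]
      have h4 : ((n : ℕ) : ℝ) = ((b + 1 : ℕ) : ℝ) := h3
      unfold cc
      rw [h4, div_self hb0.ne']
      push_cast
      ring
    · have h2 := Lev.del_dead (m := m) (a := b + 1) (by omega)
      rw [← hlam] at h1 h2
      rw [← hL (by omega)] at h2
      unfold cc
      have e1 : gg (m - 1) b = gg m (b + 1) - b * lamn m := by linarith
      have e2 : gg (m - 1) (b + 1) = gg m (b + 1) - ((b + 1 : ℕ) : ℝ) * lamn m +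
          Lf m ((b + 1 : ℕ) : ℝ) := by linarith
      rw [e1, e2]
      field_simp
      push_cast
      ring

/-- the charges in telescoping form -/
theorem charge_g (τ : Finset α → Lab) (V : Finset α) {i : ℕ} (hi : i < V.card) :
    Av V (fun π => iA τ π i * cc V.card (AL τ V (pre π i)).card (V.card - i)) =
      Av V (fun π => iA τ π i * (gg V.card (AL τ V (pre π i)).card -
        gg (V.card - 1) (AL τ (pre π (V.card - 1)) (pre π i)).card)) := by
  apply Av_eq_of_split hi.le
  intro U hU π1 h1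
  obtain ⟨hU1, hU2⟩ := mem_powersetCard.1 hU
  have hl : π1.length = i := by rw [length_of_mem h1, hU2]
  have hpU : pre π1 i = U := pre_card_of_mem h1 (le_of_eq hU2)
  have hne : (V \ U).Nonempty := by
    rw [← card_pos, card_sdiff_of_subset hU1]
    omega
  have hc : (V \ U).card = V.card - i := by rw [card_sdiff_of_subset hU1, hU2]
  have e1 : ∀ π2 : List α, iA τ (π1 ++ π2) i = iA τ π1 i := fun π2 =>
    iA_append (le_of_eq hl.symm)
  have e2 : ∀ π2 : List α, pre (π1 ++ π2) i = U := fun π2 => by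
    rw [pre_append_le (le_of_eq hl.symm), hpU]
  have e3 : ∀ π2 ∈ seqs (V \ U).card (V \ U),
      AL τ (pre (π1 ++ π2) (V.card - 1)) U = AL τ V U ∩ pre π2 ((V \ U).card - 1) := by
    intro π2 h2
    have h3 : V.card - 1 = π1.length + ((V \ U).card - 1) := by
      rw [hl, hc]
      omega
    rw [h3, pre_append_add, (mem_seqs_card.1 h1).2]
    exact AL_inter (pre_subset_of_mem h2 _)
  simp only [e1, e2]
  rw [Av_const]
  have e4 : Av (V \ U) (fun π2 => iA τ π1 i * (gg V.card (AL τ V U).card -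
        gg (V.card - 1) (AL τ (pre (π1 ++ π2) (V.card - 1)) U).card)) =
      iA τ π1 i * (gg V.card (AL τ V U).card -
        Av (V \ U) (fun π2 => gg (V.card - 1) (AL τ V U ∩ pre π2 ((V \ U).card - 1)).card)) := by
    rw [← Av_const (V \ U) (gg V.card (AL τ V U).card), ← Av_sub, ← Av_mul]
    refine Av_congr fun π2 h2 => ?_
    rw [e3 π2 h2, Av_const]
  have hAL : AL τ V U ⊆ V \ U := filter_subset _ _
  rw [e4, Av_last hne hAL (fun a => gg (V.card - 1) a)]
  congr 1
  have h5 : (AL τ V U).card ≤ (V \ U).card := card_le_card (filter_subset _ _)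
  rw [← hc]
  exact charge_num h5 (card_le_card sdiff_subset) (card_pos.2 hne)

end R5

end

section

/-!
# The T side, path form (helper55)
-/

namespace R5

open Finset T7

variable {α : Type} [DecidableEq α]

noncomputable def iB (τ : Finset α → Lab) (π : List α) (j : ℕ) : ℝ := if allB τ π j then 1 else 0

/-- sums over the T-states as sums over the final B-run -/
theorem sum_bw (τ : Finset α → Lab) (D : Finset α) (h : Finset α → List α → ℝ) :
    ∑ W ∈ D.powerset, bw τ D W / (D.card.choose W.card : ℝ) * Av W (h W) =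
      Av D (fun π => ∑ j ∈ range (D.card + 1), iB τ π j * h (pre π j) (π.take j)) := by
  rw [sum_powerset, Av_sum]
  refine sum_congr rfl fun j hj => ?_
  rw [mem_range] at hj
  have h1 : ∀ W ∈ powersetCard j D, bw τ D W / (D.card.choose W.card : ℝ) * Av W (h W) =
      bw τ D W / (D.card.choose j : ℝ) * Av W (h W) := by
    intro W hW
    rw [(mem_powersetCard.1 hW).2]
  rw [sum_congr rfl h1, chain_B τ (by omega) h]
  refine Av_congr fun π _ => ?_
  unfold iB
  split_ifs <;> simp

/-- the mass of the T side paying an edge -/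
theorem PEL_eq (τ : Finset α → Lab) (D : Finset α) :
    PEL (dual τ D) D =
      (∑ W ∈ D.powerset, bw τ D W / (D.card.choose W.card : ℝ) *
        Av W (fun π => ∑ k ∈ range W.card, iE τ π k)) / ((D.card : ℝ) + 1) := by
  unfold PEL
  have h1 : ∀ V ∈ D.powerset, ∀ x ∈ D \ V, yLe (dual τ D) D V x =
      ∑ X ∈ D.powerset, pe (dual τ D) D X V x := by
    intro V hV x hx
    exact ((stmt_YSUM (dual τ D) D V (mem_powerset.1 hV)).1 x hx).symm
  rw [sum_congr rfl fun V hV => sum_congr rfl (h1 V hV)]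
  have h2 : ∑ V ∈ D.powerset, ∑ x ∈ D \ V, ∑ X ∈ D.powerset, pe (dual τ D) D X V x =
      ∑ X ∈ D.powerset, ∑ V ∈ D.powerset, ∑ x ∈ D \ V, pe (dual τ D) D X V x := by
    rw [sum_comm]
    rw [sum_comm]
    rw [sum_comm (s := D.powerset) (t := D.powerset)]
    refine sum_congr rfl fun V _ => ?_
    rw [sum_comm]
  rw [h2, ← sum_powerset_compl, sum_div]
  refine sum_congr rfl fun W hW => ?_
  rw [mem_powerset] at hW
  rw [← sum_edge_compl]
  have h3 : ∀ U ∈ D.powerset, ∀ x ∈ D \ U,
      pe (dual τ D) D (D \ W) (D \ insert x U) x =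
        if insert x U ⊆ W ∧ isE τ U x then
          bw τ D W / (D.card.choose W.card : ℝ) / ((D.card : ℝ) + 1) *
            ((if isE τ U x then Av U (fun π1 => if allA τ π1 U.card then (1 : ℝ) else 0) else 0) /
              ((W.card.choose U.card : ℝ) * ((W.card : ℝ) - U.card))) else 0 := by
    intro U hU x hx
    rw [mem_powerset] at hU
    rw [pe_dual τ hW hU hx]
    by_cases h : insert x U ⊆ W ∧ isE τ U x
    · rw [if_pos h, if_pos h, if_pos h.2, fw_eq_Av τ U]
      ring
    · rw [if_neg h, if_neg h]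
  rw [sum_congr rfl fun U hU => sum_congr rfl (h3 U hU)]
  rw [sum_restrict_edge hW (fun U x => isE τ U x), sum_levels_edge, Av_sum, mul_div_right_comm,
      mul_sum]
  refine sum_congr rfl fun k hk => ?_
  rw [mem_range] at hk
  have h4 : Av W (fun π => iE τ π k) =
      Av W (fun π => if exE τ π k then ∑ x ∈ pre π (k + 1) \ pre π k,
        (fun (_ : Finset α) (_ : α) (_ : List α) => (1 : ℝ)) (pre π k) x (π.take k) else 0) := by
    refine Av_congr fun π hπ => ?_
    have h5 := card_nx hπ hk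
    unfold nx at h5
    by_cases h : exE τ π k
    · rw [iE_pos h, if_pos h, sum_const, h5]
      simp
    · rw [iE_neg h, if_neg h]
  rw [h4, Av_exE τ hk (fun (_ : Finset α) (_ : α) (_ : List α) => (1 : ℝ)), mul_sum]
  refine sum_congr rfl fun U hU => ?_
  obtain ⟨hU1, hU2⟩ := mem_powersetCard.1 hU
  rw [mul_sum]
  refine sum_congr rfl fun x _ => ?_
  rw [hU2]
  split_ifs with h
  · rfl
  · simp

end R5

end

section

/-!
# The T side, path form: the bound from T7L (helper55)
-/

namespace R5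

open Finset T7

variable {α : Type} [DecidableEq α]

/-- lower bound of one T-state -/
noncomputable def low (τ : Finset α → Lab) (l : ℕ) (W : Finset α) (π : List α) : ℝ :=
  lamn W.card * ∑ k ∈ range W.card, iE τ π k * ((W.card : ℝ) - 1 - k) +
    (Real.log (W.card : ℝ) - Real.log (l : ℝ)) * ∑ k ∈ range W.card, iE τ π k -
    ∑ i ∈ range W.card, iA τ π i * (gg W.card (AL τ W (pre π i)).card -
      gg (W.card - 1) (AL τ (pre π (W.card - 1)) (pre π i)).card)

end R5

end

section

/-!
# The T side, path form: evaluation on a path (helper55)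
-/

namespace R5

open Finset T7

variable {α : Type} [DecidableEq α]

/-- last level of the initial A-run (the first exit is between `kA` and `kA + 1`) -/
def kA (τ : Finset α → Lab) (π : List α) : ℕ := Nat.findGreatest (fun i => allA τ π i) π.length

/-- last level which is not `B` -/
def kN (τ : Finset α → Lab) (π : List α) : ℕ := Nat.findGreatest (fun i => ¬ allB τ π i) π.length

section path

variable {τ : Finset α → Lab} {D : Finset α} {π : List α}

theorem allA_iff (h0 : τ ∅ = Lab.A) (hD : τ D ≠ Lab.A) (hπ : π ∈ seqs D.card D) (i : ℕ) :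
    allA τ π i ↔ i ≤ kA τ π := by
  have hl := length_of_mem hπ
  constructor
  · intro h
    have hi : i ≤ π.length := by
      by_contra hc
      apply hD
      have := h i (by simp)
      rwa [pre_card_of_mem hπ (by omega)] at this
    exact Nat.le_findGreatest hi h
  · intro h
    have h1 : allA τ π (kA τ π) :=
      Nat.findGreatest_spec (P := fun i => allA τ π i) (Nat.zero_le π.length) (allA_zero.2 h0)
    exact allA_mono h h1

theorem allB_iff (h0 : τ ∅ ≠ Lab.B) (hD : τ D = Lab.B) (hπ : π ∈ seqs D.card D) (j : ℕ) :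
    allB τ π j ↔ kN τ π < j := by
  have hl := length_of_mem hπ
  constructor
  · intro h
    by_contra hc
    have h1 : ¬ allB τ π (kN τ π) := by
      apply Nat.findGreatest_spec (P := fun i => ¬ allB τ π i) (Nat.zero_le π.length)
      intro h2
      apply h0
      have := h2 0 (by simp)
      rwa [pre_zero] at this
    exact h1 (allB_mono (not_lt.1 hc) h)
  · intro h
    by_contra hc
    by_cases hj : j ≤ π.length
    · exact absurd (Nat.le_findGreatest hj hc) (not_le.2 h)
    · apply hc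
      intro i hi
      rw [mem_Icc] at hi
      omega

theorem kA_lt (h0 : τ ∅ = Lab.A) (hD : τ D ≠ Lab.A) (hπ : π ∈ seqs D.card D) :
    kA τ π < D.card := by
  by_contra hc
  have h1 := (allA_iff h0 hD hπ D.card).2 (not_lt.1 hc)
  apply hD
  have := h1 D.card (by simp)
  rwa [pre_card_of_mem hπ le_rfl] at this

theorem kN_lt (h0 : τ ∅ ≠ Lab.B) (hD : τ D = Lab.B) (hπ : π ∈ seqs D.card D) :
    kN τ π < D.card := by
  rw [← allB_iff h0 hD hπ, ← length_of_mem hπ, allB_length, (mem_seqs_card.1 hπ).2]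
  exact hD

theorem kA_le_kN (h0 : τ ∅ = Lab.A) (hD : τ D = Lab.B) (hπ : π ∈ seqs D.card D) :
    kA τ π ≤ kN τ π := by
  have hD' : τ D ≠ Lab.A := by rw [hD]; decide
  have h0' : τ ∅ ≠ Lab.B := by rw [h0]; decide
  by_contra hc
  have h1 := (allB_iff h0' hD hπ (kA τ π)).2 (not_le.1 hc)
  have h2 := (allA_iff h0 hD' hπ (kA τ π)).2 le_rfl
  have h3 := h1 (kA τ π) (by
    rw [mem_Icc, length_of_mem hπ]
    exact ⟨le_rfl, (kA_lt h0 hD' hπ).le⟩)
  have h4 := h2 (kA τ π) (by simp)
  rw [h3] at h4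
  exact absurd h4 (by decide)

theorem lab_kN (h0 : τ ∅ ≠ Lab.B) (hD : τ D = Lab.B) (hπ : π ∈ seqs D.card D) :
    τ (pre π (kN τ π)) ≠ Lab.B := by
  intro h
  have h1 : ¬ allB τ π (kN τ π) := by
    rw [allB_iff h0 hD hπ]
    exact lt_irrefl _
  apply h1
  rw [allB_pred (by rw [length_of_mem hπ]; exact kN_lt h0 hD hπ)]
  exact ⟨h, (allB_iff h0 hD hπ _).2 (Nat.lt_succ_self _)⟩

theorem lab_kA (h0 : τ ∅ = Lab.A) (hD : τ D ≠ Lab.A) (hπ : π ∈ seqs D.card D) :
    τ (pre π (kA τ π + 1)) ≠ Lab.A := by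
  intro h
  have h1 : ¬ allA τ π (kA τ π + 1) := by
    rw [allA_iff h0 hD hπ]
    omega
  exact h1 (allA_succ.2 ⟨(allA_iff h0 hD hπ _).2 le_rfl, h⟩)

theorem iA_eq (h0 : τ ∅ = Lab.A) (hD : τ D ≠ Lab.A) (hπ : π ∈ seqs D.card D) (i : ℕ) :
    iA τ π i = if i ≤ kA τ π then 1 else 0 := if_congr (allA_iff h0 hD hπ i) rfl rfl

theorem iB_eq (h0 : τ ∅ ≠ Lab.B) (hD : τ D = Lab.B) (hπ : π ∈ seqs D.card D) (j : ℕ) :
    iB τ π j = if kN τ π < j then 1 else 0 := if_congr (allB_iff h0 hD hπ j) rfl rfl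

theorem iE_ne (h0 : τ ∅ = Lab.A) (hD : τ D ≠ Lab.A) (hπ : π ∈ seqs D.card D) {k : ℕ}
    (hk : k ≠ kA τ π) : iE τ π k = 0 := by
  apply iE_neg
  intro h
  have h1 := (allA_iff h0 hD hπ k).1 h.1
  have h2 : allA τ π (k + 1) := (allA_iff h0 hD hπ _).2 (by omega)
  have h3 := h2 (k + 1) (by simp)
  rw [h.2] at h3
  exact absurd h3 (by decide)

theorem sum_iE (h0 : τ ∅ = Lab.A) (hD : τ D ≠ Lab.A) (hπ : π ∈ seqs D.card D) {j : ℕ}
    (hj : kA τ π < j) (f : ℕ → ℝ) :
    ∑ k ∈ range j, iE τ π k * f k = iE τ π (kA τ π) * f (kA τ π) := by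
  rw [sum_eq_single (kA τ π)]
  · intro k _ hk
    rw [iE_ne h0 hD hπ hk, zero_mul]
  · intro h
    exact absurd (mem_range.2 hj) h

theorem sum_iA (h0 : τ ∅ = Lab.A) (hD : τ D ≠ Lab.A) (hπ : π ∈ seqs D.card D) {j : ℕ}
    (hj : kA τ π < j) (f : ℕ → ℝ) :
    ∑ i ∈ range j, iA τ π i * f i = ∑ i ∈ range (kA τ π + 1), f i := by
  have h1 : ∑ i ∈ range j, iA τ π i * f i = ∑ i ∈ range j, if i ∈ range (kA τ π + 1) then
      f i else 0 := by
    refine sum_congr rfl fun i _ => ?_
    rw [iA_eq h0 hD hπ]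
    by_cases hi : i ≤ kA τ π
    · rw [if_pos hi, if_pos (mem_range.2 (by omega)), one_mul]
    · rw [if_neg hi, if_neg (fun h => hi (by rw [mem_range] at h; omega)), zero_mul]
  rw [h1, sum_ite_mem]
  congr 1
  rw [inter_eq_right, range_subset_range]
  omega

theorem sum_iB (h0 : τ ∅ ≠ Lab.B) (hD : τ D = Lab.B) (hπ : π ∈ seqs D.card D) (f : ℕ → ℝ) :
    ∑ j ∈ range (D.card + 1), iB τ π j * f j = ∑ j ∈ Ioc (kN τ π) D.card, f j := by
  have h1 : ∑ j ∈ range (D.card + 1), iB τ π j * f j =
      ∑ j ∈ range (D.card + 1), if j ∈ Ioc (kN τ π) D.card then f j else 0 := by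
    refine sum_congr rfl fun j hj => ?_
    rw [mem_range, Nat.lt_succ_iff] at hj
    rw [iB_eq h0 hD hπ]
    by_cases hi : kN τ π < j
    · rw [if_pos hi, if_pos (mem_Ioc.2 ⟨hi, hj⟩), one_mul]
    · rw [if_neg hi, if_neg (fun h => hi (mem_Ioc.1 h).1), zero_mul]
  rw [h1, sum_ite_mem]
  congr 1
  rw [inter_eq_right]
  intro j hj
  rw [mem_Ioc] at hj
  rw [mem_range]
  omega

end path

/-- telescoping sum over the final run -/
theorem tele_Ioc {K l : ℕ} (h : K ≤ l) (F : ℕ → ℝ) :
    ∑ j ∈ Ioc K l, (F j - F (j - 1)) = F l - F K := by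
  induction l, h using Nat.le_induction with
  | base => simp
  | succ l hl ih =>
    rw [sum_Ioc_succ_top (by omega), ih, Nat.add_sub_cancel]
    ring

/-- the sum of the `λ_j` over the final run -/
noncomputable def Lam (K l : ℕ) : ℝ := ∑ j ∈ Ioc K l, lamn j

theorem lamn_eq {j : ℕ} (h : 2 ≤ j) : lamn j = Real.log (j : ℝ) - Real.log ((j - 1 : ℕ) : ℝ) := by
  unfold lamn
  have h1 : (2 : ℝ) ≤ j := by exact_mod_cast h
  rw [Nat.cast_sub (by omega), Nat.cast_one, Real.log_div (by linarith) (by linarith)]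

theorem Lam_eq {K l : ℕ} (hK : 1 ≤ K) (h : K ≤ l) : Lam K l = Real.log ((l : ℝ) / (K : ℝ)) := by
  have hK' : (1 : ℝ) ≤ K := by exact_mod_cast hK
  have hl' : (1 : ℝ) ≤ l := by exact_mod_cast hK.trans h
  have h1 : Lam K l = ∑ j ∈ Ioc K l, ((fun n : ℕ => Real.log (n : ℝ)) j -
      (fun n : ℕ => Real.log (n : ℝ)) (j - 1)) := by
    unfold Lam
    refine sum_congr rfl fun j hj => ?_
    rw [mem_Ioc] at hj
    exact lamn_eq (by omega)
  rw [h1, tele_Ioc h (fun n : ℕ => Real.log (n : ℝ)), Real.log_div (by linarith) (by linarith)]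

/-- the sum of the logarithms -/
theorem sum_log_Ioc {K l : ℕ} (h : K ≤ l) :
    ∑ j ∈ Ioc K l, (Real.log (j : ℝ) - Real.log (l : ℝ)) =
      -∑ j ∈ Ioc K l, lamn j * ((j : ℝ) - 1 - K) := by
  induction l, h using Nat.le_induction with
  | base => simp
  | succ l hl ih =>
    rw [sum_Ioc_succ_top (by omega), sum_Ioc_succ_top (by omega), sub_self, add_zero]
    have h1 : ∑ j ∈ Ioc K l, (Real.log (j : ℝ) - Real.log ((l + 1 : ℕ) : ℝ)) =
        ∑ j ∈ Ioc K l, (Real.log (j : ℝ) - Real.log (l : ℝ)) -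
          ((l : ℝ) - K) * (Real.log ((l + 1 : ℕ) : ℝ) - Real.log (l : ℝ)) := by
      have : ((l : ℝ) - K) * (Real.log ((l + 1 : ℕ) : ℝ) - Real.log (l : ℝ)) =
          ∑ j ∈ Ioc K l, (Real.log ((l + 1 : ℕ) : ℝ) - Real.log (l : ℝ)) := by
        rw [sum_const, Nat.card_Ioc, nsmul_eq_mul, Nat.cast_sub hl]
      rw [this, ← sum_sub_distrib]
      refine sum_congr rfl fun j _ => by ring
    rw [h1, ih]
    rcases Nat.eq_zero_or_pos l with rfl | hl0
    · have : K = 0 := by omega
      subst this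
      simp
    · rw [lamn_eq (by omega : 2 ≤ l + 1), Nat.add_sub_cancel]
      push_cast
      ring

/-- the bound on a path -/
noncomputable def lowP (τ : Finset α → Lab) (D : Finset α) (π : List α) : ℝ :=
  iE τ π (kA τ π) * (((kN τ π : ℝ) - kA τ π) * Lam (kN τ π) D.card) -
    ∑ i ∈ range (kA τ π + 1), (gg D.card (AL τ D (pre π i)).card -
      gg (kN τ π) (AL τ (pre π (kN τ π)) (pre π i)).card)

theorem low_eval {τ : Finset α → Lab} {D : Finset α} {π : List α} (h0 : τ ∅ = Lab.A)
    (hD : τ D = Lab.B) (hπ : π ∈ seqs D.card D) :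
    ∑ j ∈ range (D.card + 1), iB τ π j * low τ D.card (pre π j) (π.take j) = lowP τ D π := by
  have hD' : τ D ≠ Lab.A := by rw [hD]; decide
  have h0' : τ ∅ ≠ Lab.B := by rw [h0]; decide
  have hAN := kA_le_kN h0 hD hπ
  have hNl := kN_lt h0' hD hπ
  rw [sum_iB h0' hD hπ]
  have h1 : ∀ j ∈ Ioc (kN τ π) D.card, low τ D.card (pre π j) (π.take j) =
      iE τ π (kA τ π) * (lamn j * ((j : ℝ) - 1 - kA τ π) +
        (Real.log (j : ℝ) - Real.log (D.card : ℝ))) -
      ∑ i ∈ range (kA τ π + 1),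
        ((fun j => gg j (AL τ (pre π j) (pre π i)).card) j -
          (fun j => gg j (AL τ (pre π j) (pre π i)).card) (j - 1)) := by
    intro j hj
    rw [mem_Ioc] at hj
    have hc : (pre π j).card = j := card_pre_of_mem hπ hj.2
    unfold low
    rw [hc]
    have e1 : ∀ (f : ℕ → ℝ), ∑ k ∈ range j, iE τ (π.take j) k * f k =
        ∑ k ∈ range j, iE τ π k * f k := by
      intro f
      refine sum_congr rfl fun k hk => ?_
      rw [mem_range] at hk
      congr 1
      apply iE_congr
      unfold exE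
      rw [allA_take hk.le, pre_take hk]
    have e2 : ∑ k ∈ range j, iE τ (π.take j) k = ∑ k ∈ range j, iE τ π k * 1 := by
      rw [← e1 (fun _ => 1)]
      simp
    have e3 : ∑ i ∈ range j, iA τ (π.take j) i *
        (gg j (AL τ (pre π j) (pre (π.take j) i)).card -
          gg (j - 1) (AL τ (pre (π.take j) (j - 1)) (pre (π.take j) i)).card) =
        ∑ i ∈ range j, iA τ π i * (gg j (AL τ (pre π j) (pre π i)).card -
          gg (j - 1) (AL τ (pre π (j - 1)) (pre π i)).card) := by
      refine sum_congr rfl fun i hi => ?_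
      rw [mem_range] at hi
      have e4 : iA τ (π.take j) i = iA τ π i := iA_congr (allA_take hi.le)
      rw [e4, pre_take hi.le, pre_take (Nat.sub_le j 1)]
    rw [e1, e2, e3, sum_iE h0 hD' hπ (by omega), sum_iE h0 hD' hπ (by omega),
      sum_iA h0 hD' hπ (by omega)]
    ring
  rw [sum_congr rfl h1, sum_sub_distrib, ← mul_sum, sum_comm]
  unfold lowP
  congr 1
  · congr 1
    rw [sum_add_distrib, sum_log_Ioc hNl.le, ← sub_eq_add_neg, ← sum_sub_distrib]
    unfold Lam
    rw [mul_sum]
    refine sum_congr rfl fun j _ => by ring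
  · refine sum_congr rfl fun i _ => ?_
    rw [tele_Ioc hNl.le (fun j => gg j (AL τ (pre π j) (pre π i)).card),
      pre_card_of_mem hπ le_rfl]

end R5

end

section

/-!
# One side of the value, path form: general statewise bound, and the reversed form (helper55)
-/

namespace R5

open Finset T7

variable {α : Type} [DecidableEq α]

/-! ### the reversed form -/

theorem pre_reverse {D : Finset α} {π : List α} (hπ : π ∈ seqs D.card D) {j : ℕ}
    (hj : j ≤ D.card) : pre π.reverse j = D \ pre π (D.card - j) := by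
  have hl := length_of_mem hπ
  have h1 := (mem_seqs_card.1 (drop_mem hπ (D.card - j))).2
  rw [← h1]
  unfold pre
  rw [List.take_reverse, hl, List.toFinset_reverse]

theorem dual_flip (τ : Finset α → Lab) (D U : Finset α) : dual τ D U = (τ (D \ U)).flip := rfl

theorem allA_dual {τ : Finset α → Lab} {D : Finset α} {π : List α} (hπ : π ∈ seqs D.card D)
    {i : ℕ} (hi : i ≤ D.card) :
    allA (dual τ D) π.reverse i ↔ allB τ π (D.card - i) := by
  have hl := length_of_mem hπ
  unfold allA allB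
  constructor
  · intro h k hk
    rw [mem_Icc, hl] at hk
    have h1 := h (D.card - k) (by rw [mem_range]; omega)
    rw [pre_reverse hπ (by omega), dual_flip, flip_eq_A,
      Finset.sdiff_sdiff_eq_self (pre_subset_of_mem hπ _)] at h1
    have e : D.card - (D.card - k) = k := by omega
    rwa [e] at h1
  · intro h k hk
    rw [mem_range] at hk
    rw [pre_reverse hπ (by omega), dual_flip, flip_eq_A,
      Finset.sdiff_sdiff_eq_self (pre_subset_of_mem hπ _)]
    exact h (D.card - k) (by rw [mem_Icc, hl]; omega)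

theorem allB_dual {τ : Finset α → Lab} {D : Finset α} {π : List α} (hπ : π ∈ seqs D.card D)
    {j : ℕ} (hj : j ≤ D.card) :
    allB (dual τ D) π.reverse j ↔ allA τ π (D.card - j) := by
  have hl := length_of_mem hπ
  unfold allA allB
  constructor
  · intro h k hk
    rw [mem_range] at hk
    have h1 := h (D.card - k) (by rw [mem_Icc, List.length_reverse, hl]; omega)
    rw [pre_reverse hπ (by omega), dual_flip, flip_eq_B,
      Finset.sdiff_sdiff_eq_self (pre_subset_of_mem hπ _)] at h1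
    have e : D.card - (D.card - k) = k := by omega
    rwa [e] at h1
  · intro h k hk
    rw [mem_Icc, List.length_reverse, hl] at hk
    rw [pre_reverse hπ (by omega), dual_flip, flip_eq_B,
      Finset.sdiff_sdiff_eq_self (pre_subset_of_mem hπ _)]
    exact h (D.card - k) (by rw [mem_range]; omega)

theorem reverse_mem {D : Finset α} {π : List α} (hπ : π ∈ seqs D.card D) :
    π.reverse ∈ seqs D.card D := by
  rw [mem_seqs_card] at hπ ⊢
  exact ⟨List.nodup_reverse.2 hπ.1, by rw [List.toFinset_reverse, hπ.2]⟩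

section path

variable {τ : Finset α → Lab} {D : Finset α} {π : List α}

theorem kA_dual (h0 : τ ∅ = Lab.A) (hD : τ D = Lab.B) (hπ : π ∈ seqs D.card D) :
    kA (dual τ D) π.reverse = D.card - 1 - kN τ π := by
  have h0' : τ ∅ ≠ Lab.B := by rw [h0]; decide
  have hlt := kN_lt h0' hD hπ
  have d0 : dual τ D ∅ = Lab.A := by rw [dual_flip, sdiff_empty, hD]; rfl
  have dD : dual τ D D ≠ Lab.A := by rw [dual_flip, sdiff_self, bot_eq_empty, h0]; decide
  have key : ∀ i ≤ D.card, (i ≤ kA (dual τ D) π.reverse ↔ i ≤ D.card - 1 - kN τ π) := by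
    intro i hi
    rw [← allA_iff d0 dD (reverse_mem hπ), allA_dual hπ hi, allB_iff h0' hD hπ]
    omega
  have h1 := kA_lt d0 dD (reverse_mem hπ)
  have h2 := (key _ h1.le).1 le_rfl
  have h3 := (key (D.card - 1 - kN τ π) (by omega)).2 le_rfl
  omega

theorem kN_dual (h0 : τ ∅ = Lab.A) (hD : τ D = Lab.B) (hπ : π ∈ seqs D.card D) :
    kN (dual τ D) π.reverse = D.card - 1 - kA τ π := by
  have hD' : τ D ≠ Lab.A := by rw [hD]; decide
  have hlt := kA_lt h0 hD' hπ
  have d0 : dual τ D ∅ ≠ Lab.B := by rw [dual_flip, sdiff_empty, hD]; decide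
  have dD : dual τ D D = Lab.B := by rw [dual_flip, sdiff_self, bot_eq_empty, h0]; rfl
  have key : ∀ j ≤ D.card, (kN (dual τ D) π.reverse < j ↔ D.card - 1 - kA τ π < j) := by
    intro j hj
    rw [← allB_iff d0 dD (reverse_mem hπ), allB_dual hπ hj, allA_iff h0 hD' hπ]
    omega
  have h1 := kN_lt d0 dD (reverse_mem hπ)
  have h2 := (key D.card le_rfl).1 h1
  by_contra hne
  rcases lt_or_gt_of_ne hne with h | h
  · have := (key _ (by omega)).1 (Nat.lt_succ_self (kN (dual τ D) π.reverse))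
    omega
  · have := (key (D.card - 1 - kA τ π + 1) (by omega)).2 (Nat.lt_succ_self _)
    omega

end path

theorem PEL_dual_dual (τ : Finset α → Lab) (D : Finset α) :
    PEL (dual (dual τ D) D) D = PEL τ D := by
  have hd : ∀ U ⊆ D, dual (dual τ D) D U = τ U := fun U hU => dual_dual hU
  unfold PEL
  refine sum_congr rfl fun V hV => sum_congr rfl fun x hx => ?_
  rw [mem_powerset] at hV
  have hx' := mem_sdiff.1 hx
  have h1 : isE (dual (dual τ D) D) V x ↔ isE τ V x := by
    unfold isE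
    rw [hd V hV, hd _ (insert_subset hx'.1 hV)]
  have h2 : aw (dual (dual τ D) D) V = aw τ V :=
    aw_congr fun U hU => hd U (hU.trans hV)
  have h3 : bw (dual (dual τ D) D) D (insert x V) = bw τ D (insert x V) := by
    unfold bw
    exact fw_congr fun X hX => dual_dual (τ := dual τ D) (hX.trans sdiff_subset)
  unfold yLe
  simp only [h1, h2, h3]

end R5

end

section

/-!
# The two sides in path form with the credit of CT0' (helper55)
-/

namespace R5

open Finset T7

variable {α : Type} [DecidableEq α]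

theorem lamn_nonneg' (j : ℕ) : 0 ≤ lamn j := by
  rcases Nat.lt_or_ge j 2 with h | h
  · interval_cases j
    · unfold lamn; simp
    · unfold lamn; simp
  · exact (lamn_pos h).le

/-- fewer elements, more levels without exit -/
theorem n0_mono (τ : Finset α → Lab) {D : Finset α} {π : List α} (hπ : π ∈ seqs D.card D)
    {j k : ℕ} (hk : k ≤ j) : n0 τ D π k ≤ n0 τ (pre π j) (π.take j) k := by
  unfold n0
  apply sum_le_sum
  intro i hi
  rw [mem_Icc] at hi
  rw [pre_take (hi.2.trans hk)]
  by_cases h : ∀ x ∈ D \ pre π i, τ (insert x (pre π i)) ≠ Lab.B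
  · rw [if_pos h, if_pos]
    intro x hx
    rw [mem_sdiff] at hx
    exact h x (mem_sdiff.2 ⟨pre_subset_of_mem hπ _ hx.1, hx.2⟩)
  · rw [if_neg h]
    split_ifs <;> norm_num

/-- the bound on a path, T side -/
noncomputable def lowT0 (τ : Finset α → Lab) (D : Finset α) (π : List α) : ℝ :=
  iE τ π (kA τ π) * (((kN τ π : ℝ) - kA τ π + n0 τ D π (kA τ π)) * Lam (kN τ π) D.card) -
    ∑ i ∈ range (kA τ π + 1), (gg D.card (AL τ D (pre π i)).card -
      gg (kN τ π) (AL τ (pre π (kN τ π)) (pre π i)).card)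

end R5

end
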