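import Mathlib
import Pool.Agent.Work.MP_8b6acb_full.P12
import Pool.Agent.Work.MP_8b6acb_full.P13

section

/-!
# The T-side of the value with a general set kernel as an average over orders (helper32)

`SGx` of the dual type (any extra part `χ`) in first exit form, and the passage from a statewise
bound to a path bound (both sides).  Built on helper55's T-form.
-/

namespace R5

namespace K

open Finset

variable {α : Type} [DecidableEq α]

/-- the functional of a T-state `W` for the extra part `χ` -/
noncomputable def TSx (τ : Finset α → Lab) (D : Finset α) (ρ : Finset α → α → ℝ)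
    (χ : Finset α → Finset α → ℝ) (W : Finset α) (π : List α) : ℝ :=
  ∑ k ∈ range W.card,
    ((if exE τ π k then (∑ x ∈ nx π k, (Real.log (W.card : ℝ) - Real.log (ρ (D \ W) x))) +
        (χ (D \ W) (D \ pre π k) - Real.log (fw τ (pre π k))) else 0) +
     (if exX τ π k then χ (D \ W) (D \ pre π (k + 1)) -
        Real.log (fwb τ (pre π (k + 1))) else 0))

/-- **the T-form for the extra part `χ`** -/
theorem TFormK (τ : Finset α → Lab) (D : Finset α) (ρ : Finset α → α → ℝ)
    (χ : Finset α → Finset α → ℝ) (h0 : τ ∅ = Lab.A) :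
    SGx (dual τ D) D ρ χ =
      (∑ W ∈ D.powerset, bw τ D W / (D.card.choose W.card : ℝ) * Av W (TSx τ D ρ χ W)) /
        ((D.card : ℝ) + 1) := by
  unfold SGx
  rw [← sum_powerset_compl, sum_div]
  refine sum_congr rfl fun W hW => ?_
  rw [mem_powerset] at hW
  have hDD : D \ (D \ W) = W := Finset.sdiff_sdiff_eq_self hW
  rw [sum_PP1, hDD]
  -- the edges
  have hE : ∑ V ∈ D.powerset, ∑ x ∈ D \ V, pe (dual τ D) D (D \ W) V x *
        (Real.log (W.card : ℝ) - Real.log (ρ (D \ W) x)) +
      ∑ V ∈ D.powerset, ∑ x ∈ D \ V, pe (dual τ D) D (D \ W) V x *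
        (χ (D \ W) (insert x V) - Real.log (bw (dual τ D) D (insert x V))) =
      bw τ D W / (D.card.choose W.card : ℝ) * Av W (fun π => ∑ k ∈ range W.card,
        (if exE τ π k then (∑ x ∈ nx π k, (Real.log (W.card : ℝ) - Real.log (ρ (D \ W) x))) +
          (χ (D \ W) (D \ pre π k) - Real.log (fw τ (pre π k))) else 0)) /
        ((D.card : ℝ) + 1) := by
    rw [← sum_add_distrib]
    simp only [← sum_add_distrib]
    rw [← sum_edge_compl]
    have h1 : ∀ U ∈ D.powerset, ∀ x ∈ D \ U,
        (pe (dual τ D) D (D \ W) (D \ insert x U) x *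
          (Real.log (W.card : ℝ) - Real.log (ρ (D \ W) x)) +
        pe (dual τ D) D (D \ W) (D \ insert x U) x *
          (χ (D \ W) (insert x (D \ insert x U)) -
            Real.log (bw (dual τ D) D (insert x (D \ insert x U))))) =
        if insert x U ⊆ W ∧ isE τ U x then
          bw τ D W / (D.card.choose W.card : ℝ) / ((D.card : ℝ) + 1) *
            ((if isE τ U x then Av U (fun π1 => if allA τ π1 U.card then
              (Real.log (W.card : ℝ) - Real.log (ρ (D \ W) x)) +
              (χ (D \ W) (D \ U) - Real.log (fw τ U)) else 0) else 0) /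
              ((W.card.choose U.card : ℝ) * ((W.card : ℝ) - U.card))) else 0 := by
      intro U hU x hx
      rw [mem_powerset] at hU
      have hx' := mem_sdiff.1 hx
      have h2 : insert x (D \ insert x U) = D \ U := by
        ext y
        simp only [mem_sdiff, mem_insert, not_or]
        by_cases hy : y = x
        · subst hy; simp [hx'.1, hx'.2]
        · simp [hy]
      rw [pe_dual τ hW hU hx, h2, bw_dual, Finset.sdiff_sdiff_eq_self hU]
      by_cases h : insert x U ⊆ W ∧ isE τ U x
      · rw [if_pos h, if_pos h, if_pos h.2]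
        have h3 : Av U (fun π1 => if allA τ π1 U.card then
              (Real.log (W.card : ℝ) - Real.log (ρ (D \ W) x)) +
              (χ (D \ W) (D \ U) - Real.log (fw τ U)) else 0) =
            (Real.log (W.card : ℝ) - Real.log (ρ (D \ W) x) +
              (χ (D \ W) (D \ U) - Real.log (fw τ U))) * fw τ U := by
          conv_rhs => rw [fw_eq_Av τ U, ← Av_mul]
          rw [fw_eq_Av τ U]
          refine Av_congr fun π _ => ?_
          split_ifs
          · ring
          · ring
        rw [h3]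
        ring
      · rw [if_neg h, if_neg h]
        ring
    rw [sum_congr rfl fun U hU => sum_congr rfl (h1 U hU)]
    rw [sum_restrict_edge hW (fun U x => isE τ U x), sum_levels_edge, Av_sum, mul_div_right_comm,
      mul_sum]
    refine sum_congr rfl fun k hk => ?_
    rw [mem_range] at hk
    have h4 : Av W (fun π => if exE τ π k then
        (∑ x ∈ nx π k, (Real.log (W.card : ℝ) - Real.log (ρ (D \ W) x))) +
          (χ (D \ W) (D \ pre π k) - Real.log (fw τ (pre π k))) else 0) =
        Av W (fun π => if exE τ π k then ∑ x ∈ pre π (k + 1) \ pre π k,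
          (fun (U : Finset α) (x : α) (_π1 : List α) =>
            (Real.log (W.card : ℝ) - Real.log (ρ (D \ W) x)) +
              (χ (D \ W) (D \ U) - Real.log (fw τ U))) (pre π k) x (π.take k) else 0) := by
      refine Av_congr fun π hπ => ?_
      have h5 := sum_nx_add hπ hk (fun x => Real.log (W.card : ℝ) - Real.log (ρ (D \ W) x))
        (χ (D \ W) (D \ pre π k) - Real.log (fw τ (pre π k)))
      rw [← h5]
      rfl
    rw [h4, Av_exE τ hk (fun (U : Finset α) (x : α) (_π1 : List α) =>
            (Real.log (W.card : ℝ) - Real.log (ρ (D \ W) x)) +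
              (χ (D \ W) (D \ U) - Real.log (fw τ U)))]
    rw [mul_sum]
    refine sum_congr rfl fun U hU => ?_
    obtain ⟨hU1, hU2⟩ := mem_powersetCard.1 hU
    rw [mul_sum]
    refine sum_congr rfl fun x _ => ?_
    rw [hU2]
    split_ifs with h
    · rfl
    · simp
  -- the vertices
  have hX : ∑ V ∈ D.powerset, pv (dual τ D) D (D \ W) V *
        (χ (D \ W) V - Real.log (bwb (dual τ D) D V)) =
      bw τ D W / (D.card.choose W.card : ℝ) * Av W (fun π => ∑ k ∈ range W.card,
        (if exX τ π k then χ (D \ W) (D \ pre π (k + 1)) -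
          Real.log (fwb τ (pre π (k + 1))) else 0)) / ((D.card : ℝ) + 1) := by
    rw [← sum_powerset_compl]
    have h1 : ∀ U ∈ D.powerset,
        pv (dual τ D) D (D \ W) (D \ U) * (χ (D \ W) (D \ U) -
          Real.log (bwb (dual τ D) D (D \ U))) =
        if U ⊆ W ∧ τ U = Lab.X then
          bw τ D W / (D.card.choose W.card : ℝ) / ((D.card : ℝ) + 1) *
            ((if τ U = Lab.X then Av U (fun π1 => if allA τ π1 (U.card - 1) then
              χ (D \ W) (D \ U) - Real.log (fwb τ U) else 0) else 0) /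
                (W.card.choose U.card : ℝ)) else 0 := by
      intro U hU
      rw [mem_powerset] at hU
      rw [pv_dual τ hW hU, bwb_dual, Finset.sdiff_sdiff_eq_self hU]
      by_cases h : U ⊆ W ∧ τ U = Lab.X
      · rw [if_pos h, if_pos h, if_pos h.2]
        have hne : U.Nonempty := by
          rw [nonempty_iff_ne_empty]
          rintro rfl
          rw [h0] at h
          exact absurd h.2 (by decide)
        have h3 : Av U (fun π1 => if allA τ π1 (U.card - 1) then
              χ (D \ W) (D \ U) - Real.log (fwb τ U) else 0) =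
            (χ (D \ W) (D \ U) - Real.log (fwb τ U)) * fwb τ U := by
          conv_rhs => rw [fwb_eq_Av τ hne, ← Av_mul]
          rw [fwb_eq_Av τ hne]
          refine Av_congr fun π _ => ?_
          split_ifs
          · ring
          · ring
        rw [h3]
        ring
      · rw [if_neg h, if_neg h]
        ring
    rw [sum_congr rfl h1, sum_restrict_vert hW (fun U => τ U = Lab.X), sum_levels_vert _ _ (by
      rw [if_neg]
      rw [h0]
      decide), Av_sum, mul_div_right_comm, mul_sum]
    refine sum_congr rfl fun k hk => ?_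
    rw [mem_range] at hk
    rw [Av_exX τ hk (fun (U : Finset α) (_π1 : List α) =>
              χ (D \ W) (D \ U) - Real.log (fwb τ U))]
    rw [mul_sum]
    refine sum_congr rfl fun U hU => ?_
    obtain ⟨hU1, hU2⟩ := mem_powersetCard.1 hU
    rw [hU2, Nat.add_sub_cancel]
    split_ifs with h
    · rfl
    · simp
  rw [hE, hX, ← add_div, ← mul_add, ← Av_add]
  congr 2
  refine Av_congr fun π _ => ?_
  unfold TSx
  rw [sum_add_distrib]

/-- From a bound for every T-state to the T side. -/
theorem side_total_K (τ : Finset α → Lab) (D : Finset α) (ρ : Finset α → α → ℝ)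
    (χ : Finset α → Finset α → ℝ) (h0 : τ ∅ = Lab.A) (hD : τ D = Lab.B)
    (lw : Finset α → List α → ℝ)
    (h : ∀ W ⊆ D, W.Nonempty → τ W = Lab.B → Av W (lw W) ≤
      Av W (fun π => TSx τ D ρ χ W π - Real.log (D.card : ℝ) * ∑ k ∈ range W.card, iE τ π k)) :
    Av D (fun π => ∑ j ∈ Ioc (kN τ π) D.card, lw (pre π j) (π.take j)) ≤
    ((D.card : ℝ) + 1) * (SGx (dual τ D) D ρ χ - Real.log (D.card : ℝ) * PEL (dual τ D) D) := by
  have h0' : τ ∅ ≠ Lab.B := by rw [h0]; decide
  rw [TFormK τ D ρ χ h0, PEL_eq]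
  have hl : (0 : ℝ) < (D.card : ℝ) + 1 := by positivity
  have e1 : ((D.card : ℝ) + 1) *
      ((∑ W ∈ D.powerset, bw τ D W / (D.card.choose W.card : ℝ) * Av W (TSx τ D ρ χ W)) /
        ((D.card : ℝ) + 1) - Real.log (D.card : ℝ) *
      ((∑ W ∈ D.powerset, bw τ D W / (D.card.choose W.card : ℝ) *
        Av W (fun π => ∑ k ∈ range W.card, iE τ π k)) / ((D.card : ℝ) + 1))) =
      ∑ W ∈ D.powerset, bw τ D W / (D.card.choose W.card : ℝ) *
        (Av W (TSx τ D ρ χ W) - Real.log (D.card : ℝ) *
          Av W (fun π => ∑ k ∈ range W.card, iE τ π k)) := by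
    simp only [mul_sub, sum_sub_distrib]
    field_simp
    congr 1
    rw [mul_sum]
    refine sum_congr rfl fun W _ => by ring
  have e2 : Av D (fun π => ∑ j ∈ Ioc (kN τ π) D.card, lw (pre π j) (π.take j)) =
      Av D (fun π => ∑ j ∈ range (D.card + 1), iB τ π j * lw (pre π j) (π.take j)) :=
    Av_congr fun π hπ => (sum_iB h0' hD hπ (fun j => lw (pre π j) (π.take j))).symm
  rw [e1, e2, ← sum_bw τ D lw]
  refine sum_le_sum fun W hW => ?_
  rw [mem_powerset] at hW
  by_cases hB : τ W = Lab.B
  · apply mul_le_mul_of_nonneg_left _ (div_nonneg (bw_nonneg _ _ _) (Nat.cast_nonneg _))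
    have hne : W.Nonempty := by
      rw [nonempty_iff_ne_empty]
      rintro rfl
      rw [h0] at hB
      exact absurd hB (by decide)
    have h2 := h W hW hne hB
    rw [Av_sub, Av_mul] at h2
    exact h2
  · rw [bw_of_ne hW hB, zero_div, zero_mul, zero_mul]

/-- `SGx` only sees the type on subsets of `D` -/
theorem SGx_dual_dual (τ : Finset α → Lab) (D : Finset α) (ρ : Finset α → α → ℝ)
    (χ : Finset α → Finset α → ℝ) : SGx (dual (dual τ D) D) D ρ χ = SGx τ D ρ χ := by
  have hd : ∀ U ⊆ D, dual (dual τ D) D U = τ U := fun U hU => dual_dual hU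
  have hfw : ∀ U ⊆ D, fw (dual (dual τ D) D) U = fw τ U := fun U hU =>
    fw_congr fun X hX => hd X (hX.trans hU)
  have hbw : ∀ U, bw (dual (dual τ D) D) D U = bw τ D U := by
    intro U
    unfold bw
    exact fw_congr fun X hX => dual_dual (τ := dual τ D) (hX.trans sdiff_subset)
  have hisE : ∀ V ⊆ D, ∀ x ∈ D \ V, (isE (dual (dual τ D) D) V x ↔ isE τ V x) := by
    intro V hV x hx
    unfold isE
    rw [hd V hV, hd _ (insert_subset (mem_sdiff.1 hx).1 hV)]
  have hpe : ∀ X ⊆ D, ∀ V ⊆ D, ∀ x ∈ D \ V,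
      pe (dual (dual τ D) D) D X V x = pe τ D X V x := by
    intro X hX V hV x hx
    unfold pe
    simp only [hisE V hV x hx, hfw X hX, hbw]
  have hbwb : ∀ V, bwb (dual (dual τ D) D) D V = bwb τ D V := by
    intro V
    unfold bwb
    simp only [hbw]
  have hpv : ∀ X ⊆ D, ∀ V ⊆ D, pv (dual (dual τ D) D) D X V = pv τ D X V := by
    intro X hX V hV
    unfold pv
    simp only [hd V hV, hfw X hX, hbwb]
  unfold SGx
  refine sum_congr rfl fun X hX => ?_
  rw [mem_powerset] at hX
  congr 1
  · congr 1
    · refine sum_congr rfl fun g hg => ?_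
      congr 1
      unfold PP1
      refine sum_congr rfl fun V hV => ?_
      rw [mem_powerset, subset_erase] at hV
      exact hpe X hX V hV.1 g (mem_sdiff.2 ⟨(mem_sdiff.1 hg).1, hV.2⟩)
    · refine sum_congr rfl fun V hV => sum_congr rfl fun x hx => ?_
      rw [mem_powerset] at hV
      rw [hpe X hX V hV x hx, hbw]
  · refine sum_congr rfl fun V hV => ?_
    rw [mem_powerset] at hV
    rw [hpv X hX V hV, hbwb]

end K

end R5

end

section

/-!
# The set kernel: the cost of a T-state and the T side in path form (helper32)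

`cstK` is the cost of a T-state for the set kernel.  `T_side_path_K` turns a statewise lemma of the
shape of `T7L_Av` / `CT0_Av` (with any credit `cr`) into a bound for the T side in path form.
-/

namespace R5

namespace K

open Finset T7

variable {α : Type} [DecidableEq α]

/-- The cost of the T-state `V` for the set kernel. -/
noncomputable def cstK (τ : Finset α → Lab) (ρ : α → ℝ) (V : Finset α) (π : List α) : ℝ :=
  ∑ k ∈ range V.card,
    (iE τ π k * (∑ x ∈ nx π k, (-Real.log (ρ x)) +
      (k : ℝ) * Lf V.card (∑ x ∈ V \ pre π k, ρ x) - Real.log (fw τ (pre π k))) +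
     iX τ π k * (((k : ℝ) + 1) * Lf V.card (∑ x ∈ V \ pre π (k + 1), ρ x) -
      Real.log (fwb τ (pre π (k + 1)))))

/-- The gain of the marks along an order (T-form). -/
noncomputable def gnK (τ : Finset α → Lab) (D : Finset α) (mk : Finset α → Finset α)
    (n : ℕ) (π : List α) : ℝ :=
  ∑ k ∈ range n, (iE τ π k * gm mk D (D \ pre π k) + iX τ π k * gm mk D (D \ pre π (k + 1)))

/-- the extra part in dual form -/
theorem cset_dual (ρ : Finset α → α → ℝ) (mk : Finset α → Finset α) {D W P : Finset α}
    (hW : W ⊆ D) (hP : P ⊆ W) :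
    cset ρ mk D (D \ W) (D \ P) =
      gm mk D (D \ P) + (P.card : ℝ) * Lf W.card (∑ x ∈ W \ P, ρ (D \ W) x) := by
  unfold cset Lf
  have h1 : (D \ P) \ (D \ W) = W \ P := by
    ext y
    simp only [mem_sdiff, not_and, not_not]
    constructor
    · rintro ⟨⟨h1, h2⟩, h3⟩
      exact ⟨h3 h1, h2⟩
    · rintro ⟨h1, h2⟩
      exact ⟨⟨hW h1, h2⟩, fun _ => h1⟩
  have h3 : (D.card : ℝ) - ((D \ W).card : ℝ) = (W.card : ℝ) := by
    rw [card_sdiff_cast hW]
    ring
  have h4 : (D.card : ℝ) - ((D \ P).card : ℝ) = (P.card : ℝ) := by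
    rw [card_sdiff_cast (hP.trans hW)]
    ring
  rw [h1, h3, h4]

/-- the functional of a T-state for the set kernel -/
theorem TSx_cset (τ : Finset α → Lab) {D W : Finset α} (ρ : Finset α → α → ℝ)
    (mk : Finset α → Finset α) (hW : W ⊆ D) {π : List α} (hπ : π ∈ seqs W.card W) :
    TSx τ D ρ (cset ρ mk D) W π = Real.log (W.card : ℝ) * ∑ k ∈ range W.card, iE τ π k +
      cstK τ (ρ (D \ W)) W π + gnK τ D mk W.card π := by
  unfold TSx cstK gnK
  rw [mul_sum, ← sum_add_distrib, ← sum_add_distrib]
  refine sum_congr rfl fun k hk => ?_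
  rw [mem_range] at hk
  have hP : ∀ i, pre π i ⊆ W := fun i => pre_subset_of_mem hπ i
  have hc1 : ((pre π k).card : ℝ) = k := by rw [card_pre_of_mem hπ hk.le]
  have hc2 : ((pre π (k + 1)).card : ℝ) = (k : ℝ) + 1 := by
    rw [card_pre_of_mem hπ hk]
    push_cast
    rfl
  rw [cset_dual ρ mk hW (hP k), cset_dual ρ mk hW (hP (k + 1)), hc1, hc2]
  have h3 : ∑ x ∈ nx π k, (Real.log (W.card : ℝ) - Real.log (ρ (D \ W) x)) =
      ∑ x ∈ nx π k, (-Real.log (ρ (D \ W) x)) + Real.log (W.card : ℝ) := by
    rw [← sum_nx_add hπ hk]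
    refine sum_congr rfl fun x _ => by ring
  rw [h3]
  unfold iE iX
  split_ifs <;> ring

/-- Lower bound of one T-state: the bound `low` with a credit `cr`. -/
noncomputable def lowC (τ : Finset α → Lab) (l : ℕ) (cr : Finset α → List α → ℕ → ℝ)
    (W : Finset α) (π : List α) : ℝ :=
  low τ l W π + lamn W.card * ∑ k ∈ range W.card, iE τ π k * cr W π k

/-- the path form of the T side for an abstract statewise lemma -/
theorem T_side_path_gen (τ : Finset α → Lab) (D : Finset α) (h0 : τ ∅ = Lab.A)
    (hD : τ D = Lab.B) (cr : Finset α → List α → ℕ → ℝ) {π : List α}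
    (hπ : π ∈ seqs D.card D) :
    ∑ j ∈ Ioc (kN τ π) D.card, lowC τ D.card cr (pre π j) (π.take j) =
      lowP τ D π + iE τ π (kA τ π) *
        ∑ j ∈ Ioc (kN τ π) D.card, lamn j * cr (pre π j) (π.take j) (kA τ π) := by
  have hD' : τ D ≠ Lab.A := by rw [hD]; decide
  have h0' : τ ∅ ≠ Lab.B := by rw [h0]; decide
  have hAN := kA_le_kN h0 hD hπ
  have h1 := low_eval h0 hD hπ
  rw [sum_iB h0' hD hπ (fun j => low τ D.card (pre π j) (π.take j))] at h1
  unfold lowC
  rw [sum_add_distrib, h1]
  congr 1
  rw [mul_sum]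
  refine sum_congr rfl fun j hj => ?_
  rw [mem_Ioc] at hj
  have hc : (pre π j).card = j := card_pre_of_mem hπ hj.2
  rw [hc]
  have e1 : ∑ k ∈ range j, iE τ (π.take j) k * cr (pre π j) (π.take j) k =
      ∑ k ∈ range j, iE τ π k * cr (pre π j) (π.take j) k := by
    refine sum_congr rfl fun k hk => ?_
    rw [mem_range] at hk
    congr 1
    apply iE_congr
    unfold exE
    rw [allA_take hk.le, pre_take hk]
  rw [e1, sum_iE h0 hD' hπ (by omega)]
  ring

/-- the gain on a path -/
theorem gnK_take (τ : Finset α → Lab) (D : Finset α) (mk : Finset α → Finset α)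
    (h0 : τ ∅ = Lab.A) (hD : τ D ≠ Lab.A) {π : List α} (hπ : π ∈ seqs D.card D) {j : ℕ}
    (hk : kA τ π < j) :
    gnK τ D mk j (π.take j) = iE τ π (kA τ π) * gm mk D (D \ pre π (kA τ π)) +
      iX τ π (kA τ π) * gm mk D (D \ pre π (kA τ π + 1)) := by
  unfold gnK
  have e1 : ∀ k ∈ range j, iE τ (π.take j) k * gm mk D (D \ pre (π.take j) k) +
      iX τ (π.take j) k * gm mk D (D \ pre (π.take j) (k + 1)) =
      iE τ π k * gm mk D (D \ pre π k) + iX τ π k * gm mk D (D \ pre π (k + 1)) := by
    intro k hk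
    rw [mem_range] at hk
    rw [pre_take hk.le, pre_take hk]
    have h1 : iE τ (π.take j) k = iE τ π k := by
      apply iE_congr
      unfold exE
      rw [allA_take hk.le, pre_take hk]
    have h2 : iX τ (π.take j) k = iX τ π k := by
      apply iX_congr
      unfold exX
      rw [allA_take hk.le, pre_take hk]
    rw [h1, h2]
  rw [sum_congr rfl e1]
  refine (sum_eq_single (kA τ π) ?_ ?_)
  · intro k hk' hne
    rw [mem_range] at hk'
    have h1 : ¬ allA τ π k ∨ (k + 1 ≤ kA τ π) := by
      rw [allA_iff h0 hD hπ]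
      omega
    have h2 : ¬ exE τ π k := by
      rintro ⟨h3, h4⟩
      rcases h1 with h1 | h1
      · exact h1 h3
      · have h5 := (allA_iff h0 hD hπ (k + 1)).2 h1
        have h6 := (allA_succ.1 h5).2
        rw [h4] at h6
        exact absurd h6 (by decide)
    have h3 : ¬ exX τ π k := by
      rintro ⟨h3, h4⟩
      rcases h1 with h1 | h1
      · exact h1 h3
      · have h5 := (allA_iff h0 hD hπ (k + 1)).2 h1
        have h6 := (allA_succ.1 h5).2
        rw [h4] at h6
        exact absurd h6 (by decide)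
    rw [iE_neg h2, iX_neg h3]
    ring
  · intro h
    exact absurd (mem_range.2 hk) h

/-- **the T side for the set kernel** -/
theorem T_side_path_K (τ : Finset α → Lab) (D : Finset α) (ρ : Finset α → α → ℝ)
    (mk : Finset α → Finset α) (cr : Finset α → List α → ℕ → ℝ)
    (h0 : τ ∅ = Lab.A) (hD : τ D = Lab.B)
    (hK : ∀ W ⊆ D, W.Nonempty → τ W = Lab.B →
      lamn W.card * Av W (fun π => ∑ k ∈ range W.card,
          iE τ π k * (((W.card : ℝ) - 1 - k) + cr W π k)) ≤
        Av W (cstK τ (ρ (D \ W)) W) + Av W (fun π => ∑ i ∈ range W.card,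
          iA τ π i * cc W.card (AL τ W (pre π i)).card (W.card - i))) :
    Av D (fun π => lowP τ D π + iE τ π (kA τ π) *
        (∑ j ∈ Ioc (kN τ π) D.card, lamn j * cr (pre π j) (π.take j) (kA τ π)) +
        ((D.card : ℝ) - kN τ π) *
          (iE τ π (kA τ π) * gm mk D (D \ pre π (kA τ π)) +
            iX τ π (kA τ π) * gm mk D (D \ pre π (kA τ π + 1)))) ≤
    ((D.card : ℝ) + 1) * (SGs (dual τ D) D ρ mk - Real.log (D.card : ℝ) * PEL (dual τ D) D) := by
  have hD' : τ D ≠ Lab.A := by rw [hD]; decide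
  have h0' : τ ∅ ≠ Lab.B := by rw [h0]; decide
  refine le_trans (le_of_eq ?_) (side_total_K τ D ρ (cset ρ mk D) h0 hD
    (fun W π => lowC τ D.card cr W π + gnK τ D mk W.card π) ?_)
  · refine Av_congr fun π hπ => ?_
    have hAN := kA_le_kN h0 hD hπ
    have hNl := kN_lt h0' hD hπ
    rw [sum_add_distrib, T_side_path_gen τ D h0 hD cr hπ]
    congr 1
    have h1 : ∀ j ∈ Ioc (kN τ π) D.card, gnK τ D mk (pre π j).card (π.take j) =
        iE τ π (kA τ π) * gm mk D (D \ pre π (kA τ π)) +
          iX τ π (kA τ π) * gm mk D (D \ pre π (kA τ π + 1)) := by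
      intro j hj
      rw [mem_Ioc] at hj
      rw [card_pre_of_mem hπ hj.2]
      exact gnK_take τ D mk h0 hD' hπ (by omega)
    rw [sum_congr rfl h1, sum_const, Nat.card_Ioc, nsmul_eq_mul, Nat.cast_sub hNl.le]
  · intro W hW hne hB
    have h7 := hK W hW hne hB
    have h8 : Av W (fun π => ∑ i ∈ range W.card,
        iA τ π i * cc W.card (AL τ W (pre π i)).card (W.card - i)) =
        Av W (fun π => ∑ i ∈ range W.card, iA τ π i * (gg W.card (AL τ W (pre π i)).card -
          gg (W.card - 1) (AL τ (pre π (W.card - 1)) (pre π i)).card)) := by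
      rw [Av_sum, Av_sum]
      refine sum_congr rfl fun i hi => ?_
      exact charge_g τ W (mem_range.1 hi)
    rw [h8] at h7
    have h9 : Av W (fun π => TSx τ D ρ (cset ρ mk D) W π -
        Real.log (D.card : ℝ) * ∑ k ∈ range W.card, iE τ π k) =
        (Real.log (W.card : ℝ) - Real.log (D.card : ℝ)) *
          Av W (fun π => ∑ k ∈ range W.card, iE τ π k) + Av W (cstK τ (ρ (D \ W)) W) +
          Av W (gnK τ D mk W.card) := by
      rw [← Av_mul, ← Av_add, ← Av_add]
      refine Av_congr fun π hπ => ?_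
      rw [TSx_cset τ ρ mk hW hπ]
      ring
    have h10 : Av W (fun π => lowC τ D.card cr W π + gnK τ D mk W.card π) =
        lamn W.card * Av W (fun π => ∑ k ∈ range W.card,
          iE τ π k * (((W.card : ℝ) - 1 - k) + cr W π k)) +
        (Real.log (W.card : ℝ) - Real.log (D.card : ℝ)) *
          Av W (fun π => ∑ k ∈ range W.card, iE τ π k) -
        Av W (fun π => ∑ i ∈ range W.card, iA τ π i * (gg W.card (AL τ W (pre π i)).card -
          gg (W.card - 1) (AL τ (pre π (W.card - 1)) (pre π i)).card)) +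
        Av W (gnK τ D mk W.card) := by
      rw [← Av_mul, ← Av_mul, ← Av_add, ← Av_sub, ← Av_add]
      refine Av_congr fun π _ => ?_
      unfold lowC low
      simp only [mul_add, sum_add_distrib]
      ring
    rw [h9, h10]
    linarith

end K

end R5

end

section

/-!
# Both sides for the set kernel in path form, with the credit of CT0' and the gains (helper32)
-/

namespace R5

namespace K

open Finset T7

variable {α : Type} [DecidableEq α]

/-- THE STATEWISE LEMMA for the set kernel (shape of `CT0_Av`), all T-states of `τ` in `D`. -/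
def StateK (τ : Finset α → Lab) (D : Finset α) (ρ : Finset α → α → ℝ) : Prop :=
  ∀ W ⊆ D, W.Nonempty → τ W = Lab.B →
      lamn W.card * Av W (fun π => ∑ k ∈ range W.card,
          iE τ π k * (((W.card : ℝ) - 1 - k) + n0 τ W π k)) ≤
        Av W (cstK τ (ρ (D \ W)) W) + Av W (fun π => ∑ i ∈ range W.card,
          iA τ π i * cc W.card (AL τ W (pre π i)).card (W.card - i))

/-- the gain of the marks on a path, T side -/
noncomputable def gT (τ : Finset α → Lab) (D : Finset α) (mk : Finset α → Finset α)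
    (π : List α) : ℝ :=
  ((D.card : ℝ) - kN τ π) * (if τ (pre π (kA τ π + 1)) = Lab.B then
    gm mk D (D \ pre π (kA τ π)) else gm mk D (D \ pre π (kA τ π + 1)))

/-- the gain of the marks on a path, S side -/
noncomputable def gS0 (τ : Finset α → Lab) (D : Finset α) (mk : Finset α → Finset α)
    (π : List α) : ℝ :=
  ((kA τ π : ℝ) + 1) * (if τ (pre π (kN τ π)) = Lab.A then
    gm mk D (pre π (kN τ π + 1)) else gm mk D (pre π (kN τ π)))

/-- the first exit of an order -/
theorem exit_kA {τ : Finset α → Lab} {D : Finset α} {π : List α} (h0 : τ ∅ = Lab.A)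
    (hD : τ D ≠ Lab.A) (hπ : π ∈ seqs D.card D) :
    iE τ π (kA τ π) = (if τ (pre π (kA τ π + 1)) = Lab.B then 1 else 0) ∧
    iX τ π (kA τ π) = (if τ (pre π (kA τ π + 1)) = Lab.B then 0 else 1) := by
  have h1 : allA τ π (kA τ π) := (allA_iff h0 hD hπ _).2 le_rfl
  have h2 : τ (pre π (kA τ π + 1)) ≠ Lab.A := by
    intro h
    have h3 : allA τ π (kA τ π + 1) := allA_succ.2 ⟨h1, h⟩
    have := (allA_iff h0 hD hπ _).1 h3
    omega
  constructor
  · unfold iE exE
    exact if_congr ⟨fun h => h.2, fun h => ⟨h1, h⟩⟩ rfl rfl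
  · unfold iX exX
    by_cases hB : τ (pre π (kA τ π + 1)) = Lab.B
    · rw [if_pos hB, if_neg]
      rintro ⟨-, h⟩
      rw [hB] at h
      exact absurd h (by decide)
    · rw [if_neg hB, if_pos]
      refine ⟨h1, ?_⟩
      revert h2 hB
      cases τ (pre π (kA τ π + 1)) <;> simp

/-- **the T side** for the set kernel, with CT0' and the gains -/
theorem T_side0_K (τ : Finset α → Lab) (D : Finset α) (ρ : Finset α → α → ℝ)
    (mk : Finset α → Finset α) (h0 : τ ∅ = Lab.A) (hD : τ D = Lab.B) (hK : StateK τ D ρ) :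
    Av D (fun π => lowT0 τ D π + gT τ D mk π) ≤
    ((D.card : ℝ) + 1) * (SGs (dual τ D) D ρ mk - Real.log (D.card : ℝ) * PEL (dual τ D) D) := by
  have hD' : τ D ≠ Lab.A := by rw [hD]; decide
  have h0' : τ ∅ ≠ Lab.B := by rw [h0]; decide
  refine le_trans (Av_mono fun π hπ => ?_) (T_side_path_K τ D ρ mk (n0 τ) h0 hD hK)
  have hAN := kA_le_kN h0 hD hπ
  have hNl := kN_lt h0' hD hπ
  have h3 : ∑ j ∈ Ioc (kN τ π) D.card, lamn j * n0 τ D π (kA τ π) ≤
      ∑ j ∈ Ioc (kN τ π) D.card, lamn j * n0 τ (pre π j) (π.take j) (kA τ π) := by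
    apply sum_le_sum
    intro j hj
    rw [mem_Ioc] at hj
    exact mul_le_mul_of_nonneg_left (n0_mono τ hπ (by omega)) (lamn_nonneg' j)
  rw [← sum_mul] at h3
  have h4 := mul_le_mul_of_nonneg_left h3 (iE_nonneg τ π (kA τ π))
  obtain ⟨e1, e2⟩ := exit_kA h0 hD' hπ
  have h5 : gT τ D mk π = ((D.card : ℝ) - kN τ π) *
      (iE τ π (kA τ π) * gm mk D (D \ pre π (kA τ π)) +
        iX τ π (kA τ π) * gm mk D (D \ pre π (kA τ π + 1))) := by
    unfold gT
    rw [e1, e2]
    split_ifs <;> ring
  rw [h5]
  unfold lowT0 lowP Lam at *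
  linarith

end K

end R5

end
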