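import Mathlib

section

/-!
# The two scalar inequalities of the set kernel T-lemma (helper13, note 1552)
-/

namespace R5

namespace SI

open Real

/-- `log r ≤ (r - 1/r)/2` for `r ≥ 1` -/
theorem log_le_half {r : ℝ} (hr : 1 ≤ r) : log r ≤ (r - r⁻¹) / 2 := by
  have h0 : 0 < r := by linarith
  have h1 : 0 ≤ log r := log_nonneg hr
  have h2 := self_le_sinh_iff.2 h1
  rwa [sinh_log h0] at h2

/-- `-log r + A r ≥ 1 + log A` -/
theorem min_log {r A : ℝ} (hr : 0 < r) (hA : 0 < A) : 1 + log A ≤ -log r + A * r := by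
  have h := log_le_sub_one_of_pos (mul_pos hA hr)
  rw [log_mul hA.ne' hr.ne'] at h
  linarith

/-- `exp (-z) ≤ A` as soon as `1 - z + z²/2 ≤ A` -/
theorem neg_le_log {z A : ℝ} (hz : 0 ≤ z) (h : 1 - z + z ^ 2 / 2 ≤ A) : -z ≤ log A := by
  have h1 : 0 < 1 - z + z ^ 2 / 2 := by nlinarith [sq_nonneg (z - 1)]
  have hA : 0 < A := lt_of_lt_of_le h1 h
  rw [le_log_iff_exp_le hA, exp_neg]
  have h2 := quadratic_le_exp_of_nonneg hz
  have h3 : 0 < 1 + z + z ^ 2 / 2 := by positivity
  have h4 : (exp z)⁻¹ ≤ (1 + z + z ^ 2 / 2)⁻¹ := inv_anti₀ h3 h2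
  refine h4.trans (le_trans ?_ h)
  rw [inv_le_iff_one_le_mul₀ h3]
  nlinarith [sq_nonneg (z ^ 2)]

section Lam

variable {m : ℝ}

/-- `lam ≤ 1/(m-1)` -/
theorem lam_le (hm : 1 < m) : log (m / (m - 1)) ≤ 1 / (m - 1) := by
  have h0 : 0 < m - 1 := by linarith
  have h := log_le_sub_one_of_pos (div_pos (by linarith : (0 : ℝ) < m) h0)
  have e : m / (m - 1) - 1 = 1 / (m - 1) := by field_simp; ring
  rwa [e] at h

/-- the better upper bound -/
theorem lam_le' (hm : 1 < m) : log (m / (m - 1)) ≤ (2 * m - 1) / (2 * m * (m - 1)) := by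
  have h0 : 0 < m - 1 := by linarith
  have h1 : 0 < m := by linarith
  have h := log_le_half (r := m / (m - 1)) (by rw [le_div_iff₀ h0]; linarith)
  have e : (m / (m - 1) - (m / (m - 1))⁻¹) / 2 = (2 * m - 1) / (2 * m * (m - 1)) := by
    field_simp
    ring
  rwa [e] at h

theorem lam_pos (hm : 1 < m) : 0 < log (m / (m - 1)) := by
  have h0 : 0 < m - 1 := by linarith
  apply log_pos
  rw [lt_div_iff₀ h0]
  linarith

/-- `1/m ≤ lam` -/
theorem le_lam (hm : 1 < m) : 1 / m ≤ log (m / (m - 1)) := by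
  have h0 : 0 < m - 1 := by linarith
  have h1 : 0 < m := by linarith
  have h := log_le_sub_one_of_pos (div_pos h0 h1)
  have e : log ((m - 1) / m) = -log (m / (m - 1)) := by
    rw [← log_inv, inv_div]
  have e2 : (m - 1) / m - 1 = -(1 / m) := by field_simp; ring
  rw [e, e2] at h
  linarith

/-- the tangent of `-log (1 - u)` at `1/m` -/
theorem tangent (hm : 1 < m) {u : ℝ} (hu : u < 1) :
    log (m / (m - 1)) + (m * u - 1) / (m - 1) ≤ -log (1 - u) := by
  have h0 : 0 < m - 1 := by linarith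
  have h1 : 0 < m := by linarith
  have h2 : 0 < 1 - u := by linarith
  have h := log_le_sub_one_of_pos (mul_pos h2 (div_pos h1 h0))
  rw [log_mul h2.ne' (div_pos h1 h0).ne'] at h
  have e : (1 - u) * (m / (m - 1)) - 1 = -((m * u - 1) / (m - 1)) := by field_simp; ring
  rw [e] at h
  linarith

/-- `u ≤ -log (1 - u)` -/
theorem self_le {u : ℝ} (hu : u < 1) : u ≤ -log (1 - u) := by
  have h := log_le_sub_one_of_pos (by linarith : (0 : ℝ) < 1 - u)
  linarith

end Lam

/-- first scalar inequality, with the dead credit -/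
theorem is1 (n j a d : ℕ) (hn : 1 ≤ n) (hj : 1 ≤ j) (ha : a ≤ n) (hd : d + 1 ≤ j) {ρ m M : ℝ}
    (h0 : 0 < ρ) (h1 : ρ ≤ 1) (hm : m = n + j + 1) (hM : M = m - a) :
    0 ≤ -log (m * ρ / M) - log (m / (m - 1)) * n + (1 + n) * ρ / M + (j - 1) * ρ / m +
      d * (n * (-log (1 - ρ / m)) - log (m / (m - 1))) := by
  have hn' : (1 : ℝ) ≤ n := by exact_mod_cast hn
  have hj' : (1 : ℝ) ≤ j := by exact_mod_cast hj
  have ha' : (a : ℝ) ≤ n := by exact_mod_cast ha
  have ha0 : (0 : ℝ) ≤ a := Nat.cast_nonneg a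
  have hd' : (d : ℝ) + 1 ≤ j := by exact_mod_cast hd
  have hd0 : (0 : ℝ) ≤ d := Nat.cast_nonneg d
  have hm1 : 1 < m := by linarith
  have hmp : 0 < m := by linarith
  have hMj : (j : ℝ) + 1 ≤ M := by linarith
  have hMp : 0 < M := by linarith
  have hMm : M ≤ m := by linarith
  set lam := log (m / (m - 1)) with hlam
  have hl1 : lam ≤ 1 / (m - 1) := lam_le hm1
  have hl0 : 0 < lam := lam_pos hm1
  have hl2 : lam * (m - 1) ≤ 1 := by
    rwa [le_div_iff₀ (by linarith)] at hl1
  have hr : 0 < m * ρ / M := by positivity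
  have hkap : ρ / m ≤ -log (1 - ρ / m) := self_le (by rw [div_lt_one hmp]; linarith)
  -- both endpoints
  have e1 : (1 + (n : ℝ)) * ρ / M = ((1 + n) / m) * (m * ρ / M) := by field_simp
  have e2 : ρ / m = (M / m ^ 2) * (m * ρ / M) := by field_simp
  have key : ∀ c : ℝ, 0 ≤ c → c = 0 ∨ c = j - 1 →
      0 ≤ -log (m * ρ / M) - lam * n + (1 + n) * ρ / M + (j - 1) * ρ / m +
        c * (n * (ρ / m) - lam) := by
    intro c hc hcc
    have hlow : ∀ A : ℝ, 0 < A →
        A ≤ (1 + n) / m + (j - 1) * ((j + 1) / m ^ 2) + c * n * ((j + 1) / m ^ 2) →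
        lam * (n + c) ≤ 1 + log A →
        0 ≤ -log (m * ρ / M) - lam * n + (1 + n) * ρ / M + (j - 1) * ρ / m +
          c * (n * (ρ / m) - lam) := by
      intro A hA hA1 hA2
      have h2 := min_log hr hA
      have h3 : (j + 1) / m ^ 2 ≤ M / m ^ 2 := div_le_div_of_nonneg_right hMj (by positivity)
      have h4 : ((j : ℝ) - 1) * ((j + 1) / m ^ 2) ≤ (j - 1) * (M / m ^ 2) :=
        mul_le_mul_of_nonneg_left h3 (by linarith)
      have h5 : c * n * ((j + 1) / m ^ 2) ≤ c * n * (M / m ^ 2) :=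
        mul_le_mul_of_nonneg_left h3 (by positivity)
      have h6 : A * (m * ρ / M) ≤ ((1 + n) / m + (j - 1) * (M / m ^ 2) + c * n * (M / m ^ 2)) *
          (m * ρ / M) := mul_le_mul_of_nonneg_right (by linarith) hr.le
      have e3 : (1 + (n : ℝ)) * ρ / M + (j - 1) * ρ / m + c * (n * (ρ / m)) =
          ((1 + n) / m + (j - 1) * (M / m ^ 2) + c * n * (M / m ^ 2)) * (m * ρ / M) := by
        field_simp
      linarith
    rcases hcc with rfl | rfl
    · -- c = 0
      rcases Nat.eq_or_lt_of_le hj with h | h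
      · -- j = 1
        have hj1 : (j : ℝ) = 1 := by rw [← h]; norm_num
        refine hlow ((m - 1) / m) (by apply div_pos <;> linarith) ?_ ?_
        · rw [hj1]
          have : (1 + (n : ℝ)) = m - 1 := by rw [hm, hj1]; ring
          rw [this]
          simp
        · have e4 : log ((m - 1) / m) = -lam := by
            rw [hlam, ← log_inv, inv_div]
          rw [e4]
          have : (n : ℝ) = m - 2 := by rw [hm, hj1]; ring
          rw [this]
          linarith
      · -- j ≥ 2
        have hj2 : (2 : ℝ) ≤ j := by exact_mod_cast h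
        have hz : 0 ≤ (j : ℝ) / m := by positivity
        have hA : 1 - (j : ℝ) / m + ((j : ℝ) / m) ^ 2 / 2 ≤
            (1 + n) / m + (j - 1) * ((j + 1) / m ^ 2) + 0 * n * ((j + 1) / m ^ 2) := by
          have e4 : (1 + (n : ℝ)) = m - j := by rw [hm]; ring
          rw [e4]
          have : (m - (j : ℝ)) / m + (j - 1) * ((j + 1) / m ^ 2) + 0 * n * ((j + 1) / m ^ 2) -
              (1 - (j : ℝ) / m + ((j : ℝ) / m) ^ 2 / 2) = (j ^ 2 / 2 - 1) / m ^ 2 := by
            field_simp
            ring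
          have h44 : (2 : ℝ) * 2 ≤ j * j := mul_le_mul hj2 hj2 (by norm_num) (by linarith)
          have h5 : 0 ≤ ((j : ℝ) ^ 2 / 2 - 1) / m ^ 2 := div_nonneg (by linarith) (by positivity)
          linarith
        have h6 := neg_le_log hz hA
        have h7 : 0 < (1 + (n : ℝ)) / m + (j - 1) * ((j + 1) / m ^ 2) +
            0 * n * ((j + 1) / m ^ 2) := by
          have : 0 < 1 - (j : ℝ) / m + ((j : ℝ) / m) ^ 2 / 2 := by
            linarith [sq_nonneg ((j : ℝ) / m - 1)]
          linarith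
        refine hlow _ h7 le_rfl ?_
        have e5 : (n : ℝ) = (m - 1) - j := by rw [hm]; ring
        have h8 : lam * (n + 0) ≤ 1 - (j : ℝ) / m := by
          rw [add_zero, e5]
          have h9 : (j : ℝ) / m ≤ lam * j := by
            have := le_lam hm1
            have h10 : (j : ℝ) / m = 1 / m * j := by ring
            rw [h10]
            exact mul_le_mul_of_nonneg_right this (by linarith)
          linarith
        linarith
    · -- c = j - 1
      refine hlow ((m - 1) / m) (by apply div_pos <;> linarith) ?_ ?_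
      · have e4 : (n : ℝ) = m - 1 - j := by rw [hm]; ring
        have : (1 + (n : ℝ)) / m + (j - 1) * ((j + 1) / m ^ 2) +
            ((j : ℝ) - 1) * n * ((j + 1) / m ^ 2) - (m - 1) / m =
            (((j : ℝ) - 1) * j * (m - j - 1)) / m ^ 2 := by
          rw [e4]
          field_simp
          ring
        have h5 : 0 ≤ (((j : ℝ) - 1) * j * (m - j - 1)) / m ^ 2 := by
          apply div_nonneg _ (by positivity)
          apply mul_nonneg (mul_nonneg (by linarith) (by linarith))
          linarith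
        linarith
      · have e4 : log ((m - 1) / m) = -lam := by
          rw [hlam, ← log_inv, inv_div]
        rw [e4]
        have : (n : ℝ) + (j - 1) = m - 2 := by rw [hm]; ring
        rw [this]
        linarith
  have k0 := key 0 le_rfl (Or.inl rfl)
  have k1 := key (j - 1) (by linarith) (Or.inr rfl)
  have k2 : 0 ≤ -log (m * ρ / M) - lam * n + (1 + n) * ρ / M + (j - 1) * ρ / m +
        d * (n * (ρ / m) - lam) := by
    rcases le_total 0 (n * (ρ / m) - lam) with h | h
    · have := mul_nonneg hd0 h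
      linarith
    · have : ((j : ℝ) - 1) * (n * (ρ / m) - lam) ≤ d * (n * (ρ / m) - lam) :=
        mul_le_mul_of_nonpos_right (by linarith) h
      linarith
  have k3 : (d : ℝ) * (n * (ρ / m) - lam) ≤ d * (n * (-log (1 - ρ / m)) - lam) := by
    apply mul_le_mul_of_nonneg_left _ hd0
    have := mul_le_mul_of_nonneg_left hkap (by linarith : (0 : ℝ) ≤ n)
    linarith
  linarith

/-- auxiliary: `-lam + r (1/m + 1/m²) ≥ (r-1)/(m-1)` for `r ≤ m/2` -/
theorem aux_lam {m r : ℝ} (hm : 1 < m) (hr : r ≤ m / 2) :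
    (r - 1) / (m - 1) ≤ -log (m / (m - 1)) + r * (1 / m + 1 / m ^ 2) := by
  have h0 : 0 < m - 1 := by linarith
  have h1 : 0 < m := by linarith
  have hl' := lam_le' hm
  have hl := lam_le hm
  rcases le_total r 1 with h | h
  · have h3 : (2 * m - 1) / (2 * m * (m - 1)) * r ≤ r * (1 / m + 1 / m ^ 2) +
        (1 - r) * (1 / (m - 1) - (2 * m - 1) / (2 * m * (m - 1))) := by
      have e : r * (1 / m + 1 / m ^ 2) +
        (1 - r) * (1 / (m - 1) - (2 * m - 1) / (2 * m * (m - 1))) -
        (2 * m - 1) / (2 * m * (m - 1)) * r =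
        (m - 2 * r) / (2 * m ^ 2 * (m - 1)) := by
        field_simp
        ring
      have : 0 ≤ (m - 2 * r) / (2 * m ^ 2 * (m - 1)) := div_nonneg (by linarith) (by positivity)
      linarith
    have e2 : (r - 1) / (m - 1) = -((1 - r) * (1 / (m - 1))) := by ring
    rw [e2]
    linarith
  · have e : -((2 * m - 1) / (2 * m * (m - 1))) + r * (1 / m + 1 / m ^ 2) - (r - 1) / (m - 1) =
        (m - 2 * r) / (2 * m ^ 2 * (m - 1)) := by
      field_simp
      ring
    have : 0 ≤ (m - 2 * r) / (2 * m ^ 2 * (m - 1)) := div_nonneg (by linarith) (by positivity)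
    linarith

/-- second scalar inequality, with the dead credit -/
theorem is2 (n j a d : ℕ) (hn : 1 ≤ n) (hj : 1 ≤ j) (ha : a ≤ n) (hd : d + 1 ≤ j) {ρ m M : ℝ}
    (h0 : 0 < ρ) (h1 : ρ ≤ 1) (hm : m = n + j + 1) (hM : M = m - a) :
    0 ≤ -log (m * ρ / M) - log (m / (m - 1)) * n + (1 + a) * ρ / M +
      (n - a) * (-log (1 - ρ / M)) - ((n - a) / n) * j * ρ / m + (j - 1) * ρ / m +
      d * ((-log (1 - ρ / m)) * (a + (n - a) / n) - log (m / (m - 1))) := by
  have hn' : (1 : ℝ) ≤ n := by exact_mod_cast hn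
  have hj' : (1 : ℝ) ≤ j := by exact_mod_cast hj
  have ha' : (a : ℝ) ≤ n := by exact_mod_cast ha
  have ha0 : (0 : ℝ) ≤ a := Nat.cast_nonneg a
  have hd' : (d : ℝ) + 1 ≤ j := by exact_mod_cast hd
  have hd0 : (0 : ℝ) ≤ d := Nat.cast_nonneg d
  have hnp : (0 : ℝ) < n := by linarith
  have hm1 : 1 < m := by linarith
  have hmp : 0 < m := by linarith
  have hm1p : 0 < m - 1 := by linarith
  have hMj : (j : ℝ) + 1 ≤ M := by linarith
  have hMp : 0 < M := by linarith
  have hMm : M ≤ m := by linarith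
  obtain ⟨lam, hlam⟩ : ∃ lam, lam = log (m / (m - 1)) := ⟨_, rfl⟩
  obtain ⟨r, hr⟩ : ∃ r, r = m * ρ / M := ⟨_, rfl⟩
  obtain ⟨al, hal⟩ : ∃ al, al = (a : ℝ) / m := ⟨_, rfl⟩
  obtain ⟨y, hy⟩ : ∃ y, y = (j : ℝ) / (m - 1) := ⟨_, rfl⟩
  have hr0 : 0 < r := by rw [hr]; positivity
  have hrho : ρ = r * (1 - al) := by
    rw [hr, hal]
    have : (1 - (a : ℝ) / m) = M / m := by rw [hM]; field_simp
    rw [this]
    field_simp
  have hr2 : r ≤ m / 2 := by
    rw [hr, div_le_div_iff₀ hMp (by norm_num)]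
    have q1 := mul_le_mul_of_nonneg_left h1 hmp.le
    have q2 := mul_le_mul_of_nonneg_left (by linarith : (2 : ℝ) ≤ M) hmp.le
    linarith
  have hal0 : 0 ≤ al := by rw [hal]; positivity
  have hy0 : 0 < y := by rw [hy]; apply div_pos <;> linarith
  have h1y : 1 - y = n / (m - 1) := by
    rw [hy]
    field_simp
    rw [hm]
    ring
  have h1yp : 0 < 1 - y := by rw [h1y]; positivity
  have hjn : (j : ℝ) / n = y / (1 - y) := by
    rw [h1y, hy]
    field_simp
  have hal1 : al ≤ 1 - y := by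
    rw [h1y, hal, div_le_div_iff₀ hmp hm1p]
    have q1 := mul_le_mul_of_nonneg_right ha' hm1p.le
    have q2 := mul_le_mul_of_nonneg_left (by linarith : m - 1 ≤ m) hnp.le
    linarith
  -- the two tangents
  have t1 : lam + (r - 1) / (m - 1) ≤ -log (1 - ρ / M) := by
    have h := tangent hm1 (u := ρ / M) (by rw [div_lt_one hMp]; linarith)
    rw [← hlam] at h
    have e : m * (ρ / M) = r := by rw [hr]; ring
    rwa [e] at h
  have t2 : lam + (ρ - 1) / (m - 1) ≤ -log (1 - ρ / m) := by
    have h := tangent hm1 (u := ρ / m) (by rw [div_lt_one hmp]; linarith)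
    rw [← hlam] at h
    have e : m * (ρ / m) = ρ := by field_simp
    rwa [e] at h
  have t3 : ρ / m ≤ -log (1 - ρ / m) := self_le (by rw [div_lt_one hmp]; linarith)
  have t4 := aux_lam hm1 hr2
  rw [← hlam] at t4
  -- lower bound
  have s1 : ((n : ℝ) - a) * (lam + (r - 1) / (m - 1)) ≤ (n - a) * (-log (1 - ρ / M)) :=
    mul_le_mul_of_nonneg_left t1 (by linarith)
  have s2 : (d : ℝ) * ((ρ - 1) / (m - 1) + (ρ / m) * (a * (n - 1) / n)) ≤
      d * ((-log (1 - ρ / m)) * (a + (n - a) / n) - lam) := by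
    apply mul_le_mul_of_nonneg_left _ hd0
    have e : (a : ℝ) + (n - a) / n = 1 + a * (n - 1) / n := by field_simp; ring
    rw [e]
    have h2 : 0 ≤ (a : ℝ) * (n - 1) / n := div_nonneg (mul_nonneg ha0 (by linarith)) hnp.le
    have h3 := mul_le_mul_of_nonneg_right t3 h2
    linarith
  have s3 : (a : ℝ) * ((r - 1) / (m - 1)) ≤ a * (-lam + r * (1 / m + 1 / m ^ 2)) :=
    mul_le_mul_of_nonneg_left t4 ha0
  have e1 : (1 + (a : ℝ)) * ρ / M - ((n - a) / n) * j * ρ / m + (j - 1) * ρ / m =
      a * (r * (1 / m + 1 / m ^ 2)) + r * al * (1 - al) * (j / n) := by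
    have e2 : ρ / M = r / m := by rw [hr]; field_simp
    have e3 : (1 + (a : ℝ)) * ρ / M = (1 + a) * (r / m) := by rw [← e2]; ring
    rw [e3, hrho, hal]
    field_simp
    ring
  have e4 : (ρ / m) * ((a : ℝ) * (n - 1) / n) = ρ * al * ((n - 1) / n) := by
    rw [hal]
    field_simp
  rw [e4] at s2
  have main : -log r + (r - 1) * (1 - y) + r * al * (1 - al) * (j / n) +
      d * ((ρ - 1) / (m - 1) + ρ * al * ((n - 1) / n)) ≤
      -log (m * ρ / M) - log (m / (m - 1)) * n + (1 + a) * ρ / M +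
      (n - a) * (-log (1 - ρ / M)) - ((n - a) / n) * j * ρ / m + (j - 1) * ρ / m +
      d * ((-log (1 - ρ / m)) * (a + (n - a) / n) - log (m / (m - 1))) := by
    rw [← hlam, ← hr]
    have e5 : (r - 1) * (1 - y) = n * ((r - 1) / (m - 1)) := by rw [h1y]; ring
    rw [e5]
    linarith
  refine le_trans ?_ main
  have hjn1 : (j : ℝ) / n * (1 - y) = y := by rw [hjn]; field_simp
  have hjn0 : 0 ≤ (j : ℝ) / n := by positivity
  have hlog := log_le_sub_one_of_pos hr0
  have hnn : 0 ≤ ((n : ℝ) - 1) / n := div_nonneg (by linarith) hnp.le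
  rcases le_or_gt al y with hc | hc
  · -- case al ≤ y
    have k1 : y ≤ (1 - al) * (j / n) := by
      have := mul_le_mul_of_nonneg_right (by linarith : 1 - y ≤ 1 - al) hjn0
      linarith
    have k2 : r * al * y ≤ r * al * ((1 - al) * (j / n)) :=
      mul_le_mul_of_nonneg_left k1 (mul_nonneg hr0.le hal0)
    have k3 : -(y * (1 - ρ)) ≤ d * ((ρ - 1) / (m - 1)) := by
      have e : y * (1 - ρ) = j * ((1 - ρ) / (m - 1)) := by rw [hy]; ring
      have e' : (d : ℝ) * ((ρ - 1) / (m - 1)) = -(d * ((1 - ρ) / (m - 1))) := by ring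
      rw [e, e']
      apply neg_le_neg
      apply mul_le_mul_of_nonneg_right (by linarith)
      exact div_nonneg (by linarith) hm1p.le
    have k4 : 0 ≤ d * (ρ * al * (((n : ℝ) - 1) / n)) := by positivity
    have k5 : -log r + (r - 1) * (1 - y) + r * al * y - y * (1 - ρ) = -log r + (r - 1) := by
      rw [hrho]; ring
    have k6 : r * al * (1 - al) * (j / n) = r * al * ((1 - al) * (j / n)) := by ring
    rw [k6, mul_add (d : ℝ)]
    linarith
  · -- case al > y
    have k1 : y * (1 - y) ≤ al * (1 - al) := by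
      have q1 := mul_nonneg (by linarith : 0 ≤ al - y) (by linarith : 0 ≤ 1 - y - al)
      linarith
    have k2 : r * y ^ 2 ≤ r * al * (1 - al) * (j / n) := by
      have h := mul_le_mul_of_nonneg_right (mul_le_mul_of_nonneg_left k1 hr0.le) hjn0
      have e : r * (y * (1 - y)) * (j / n) = r * y ^ 2 := by
        have : r * (y * (1 - y)) * ((j : ℝ) / n) = r * y * ((j : ℝ) / n * (1 - y)) := by ring
        rw [this, hjn1]
        ring
      rw [e] at h
      calc r * y ^ 2 ≤ r * (al * (1 - al)) * (j / n) := h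
        _ = _ := by ring
    have k3 : 0 ≤ -log r + (r - 1) * (1 - y) + r * y ^ 2 := by
      have hA : 0 < 1 - y + y ^ 2 := by linarith [sq_nonneg (y - 1 / 2)]
      have h2 := min_log hr0 hA
      have h3 := neg_le_log hy0.le (by linarith [sq_nonneg y] : 1 - y + y ^ 2 / 2 ≤ 1 - y + y ^ 2)
      linarith
    rcases Nat.eq_zero_or_pos d with hd00 | hd1
    · rw [hd00, Nat.cast_zero, zero_mul, add_zero]
      linarith
    · have hj2 : (2 : ℝ) ≤ j := by
        have : 2 ≤ j := by omega
        exact_mod_cast this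
      have hn2 : (2 : ℝ) ≤ n := by
        have h3 : (j : ℝ) * m < a * (m - 1) := by
          rw [hal, hy] at hc
          rwa [div_lt_div_iff₀ hm1p hmp] at hc
        have h4 : (j : ℝ) < a := by
          by_contra h
          push Not at h
          have := mul_le_mul_of_nonneg_right h hm1p.le
          linarith
        linarith
      have k4 : 1 ≤ (1 - al) * ((m - 1) * (((n : ℝ) - 1) / n)) := by
        have h5 : ((j : ℝ) + 1) / m ≤ 1 - al := by
          rw [hal, div_le_iff₀ hmp]
          have : (1 - (a : ℝ) / m) * m = m - a := by field_simp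
          rw [this]
          linarith
        have h6 : 0 ≤ (m - 1) * (((n : ℝ) - 1) / n) := by positivity
        refine le_trans ?_ (mul_le_mul_of_nonneg_right h5 h6)
        have e : ((j : ℝ) + 1) / m * ((m - 1) * ((n - 1) / n)) =
            ((j + 1) * (m - 1) * (n - 1)) / (m * n) := by field_simp
        rw [e, le_div_iff₀ (by positivity), hm]
        obtain ⟨J, hJ⟩ : ∃ J : ℝ, J = (j : ℝ) - 2 := ⟨_, rfl⟩
        obtain ⟨N, hN⟩ : ∃ N : ℝ, N = (n : ℝ) - 2 := ⟨_, rfl⟩
        have hJ0 : 0 ≤ J := by linarith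
        have hN0 : 0 ≤ N := by linarith
        have ej : (j : ℝ) = J + 2 := by linarith
        have en : (n : ℝ) = N + 2 := by linarith
        rw [ej, en]
        have q1 : 0 ≤ 2 + 8 * N + 2 * N ^ 2 + 5 * J + 7 * J * N + J * N ^ 2 + J ^ 2 +
            J ^ 2 * N := by positivity
        linarith
      have k5 : (r - 1) / (m - 1) ≤ (ρ - 1) / (m - 1) + ρ * al * (((n : ℝ) - 1) / n) := by
        have h7 : r * al ≤ r * al * ((1 - al) * ((m - 1) * (((n : ℝ) - 1) / n))) := by
          have := mul_le_mul_of_nonneg_left k4 (mul_nonneg hr0.le hal0)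
          linarith
        have e : (ρ - 1) / (m - 1) + ρ * al * (((n : ℝ) - 1) / n) =
            (ρ - 1 + r * al * ((1 - al) * ((m - 1) * (((n : ℝ) - 1) / n)))) / (m - 1) := by
          rw [hrho]
          field_simp
        rw [e]
        apply div_le_div_of_nonneg_right _ hm1p.le
        rw [hrho]
        linarith
      have k6 := mul_le_mul_of_nonneg_left k5 hd0
      have k7 : 0 ≤ -log r + (r - 1) * (1 - y) + r * y ^ 2 + d * ((r - 1) / (m - 1)) := by
        rcases le_total 1 r with h | h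
        · have : 0 ≤ d * ((r - 1) / (m - 1)) :=
            mul_nonneg hd0 (div_nonneg (by linarith) hm1p.le)
          linarith
        · have h8 : (d : ℝ) / (m - 1) ≤ y := by
            rw [hy]
            exact div_le_div_of_nonneg_right (by linarith) hm1p.le
          have e : (d : ℝ) * ((r - 1) / (m - 1)) = -((1 - r) * (d / (m - 1))) := by ring
          have h9 : (1 - r) * ((d : ℝ) / (m - 1)) ≤ (1 - r) * y :=
            mul_le_mul_of_nonneg_left h8 (by linarith)
          rw [e]
          have h10 : 0 ≤ r * y ^ 2 := by positivity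
          linarith
      linarith

end SI

end R5

end
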