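import Mathlib
import Pool.Agent.Work.MP_8b6acb_full.P09
import Pool.Agent.Work.MP_8b6acb_full.P12

section

/-!
# The Gibbs step for the set kernel (helper25)

`fin τ U W` = the elements of `U` outside `W` that cannot be appended to `W` in an initial A-run.
(i) the average of the good orders weighted with the inverse conditional probabilities is at
most `1`; (ii) the credits of the final elements are paid by `- log fw`, `- log fwb`.
-/

namespace R5

namespace TS

open Finset

variable {α : Type} [DecidableEq α]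

/-- The final elements. -/
def fin (τ : Finset α → Lab) (U W : Finset α) : Finset α :=
  (U \ W).filter (fun y => τ (insert y W) ≠ Lab.A)

/-- The inverse of the conditional probability of an A-step. -/
noncomputable def gf (τ : Finset α → Lab) (U W : Finset α) (n : ℕ) : ℝ :=
  ((U.card : ℝ) - n) / ((U.card : ℝ) - n - ((fin τ U W).card : ℝ))

theorem fin_card_le (τ : Finset α → Lab) (U W : Finset α) :
    (fin τ U W).card ≤ (U \ W).card := card_le_card (filter_subset _ _)

/-- the steps that stay in A -/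
theorem card_stay (τ : Finset α → Lab) {U W : Finset α} (h : W ⊆ U) :
    (((U \ W).filter (fun y => τ (insert y W) = Lab.A)).card : ℝ) =
      (U.card : ℝ) - W.card - ((fin τ U W).card : ℝ) := by
  have h1 := card_filter_add_card_filter_not (s := U \ W) (fun y => τ (insert y W) = Lab.A)
  have h2 : (((U \ W).filter (fun y => τ (insert y W) = Lab.A)).card : ℝ) +
      ((fin τ U W).card : ℝ) = ((U \ W).card : ℝ) := by
    unfold fin
    exact_mod_cast h1
  rw [card_sdiff_cast h] at h2
  linarith

/-- one step of the weighted average -/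
theorem gstep_le (τ : Finset α → Lab) {U W : Finset α} (h : W ⊆ U) (hne : (U \ W).Nonempty) :
    Av (U \ W) (fun π => gf τ U W W.card * (if τ (W ∪ pre π 1) = Lab.A then 1 else 0)) ≤ 1 := by
  rw [Av_mul, Av_cons hne]
  have h1 : ∀ g ∈ U \ W, Av ((U \ W).erase g)
      (fun π => if τ (W ∪ pre (g :: π) 1) = Lab.A then (1 : ℝ) else 0) =
      if τ (insert g W) = Lab.A then 1 else 0 := by
    intro g _
    have e : ∀ π : List α, W ∪ pre (g :: π) 1 = insert g W := by
      intro π
      rw [pre_cons_succ, pre_zero, union_comm]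
      rfl
    simp only [e]
    exact Av_const _ _
  rw [sum_congr rfl h1, ← sum_filter, sum_const, nsmul_eq_mul, mul_one, card_stay τ h,
    card_sdiff_cast h]
  unfold gf
  have hn : (0 : ℝ) < (U.card : ℝ) - W.card := by
    rw [← card_sdiff_cast h]
    exact_mod_cast card_pos.2 hne
  rcases eq_or_ne ((U.card : ℝ) - W.card - ((fin τ U W).card : ℝ)) 0 with h0 | h0
  · rw [h0]
    simp
  · rw [div_mul_div_comm, mul_comm, div_self]
    exact mul_ne_zero h0 hn.ne'

/-- (i) -/
theorem gib_prod (τ : Finset α → Lab) (U : Finset α) : ∀ n : ℕ, n ≤ U.card →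
    Av U (fun π => iA τ π n * ∏ j ∈ range n, gf τ U (pre π j) j) ≤ 1 := by
  intro n
  induction n with
  | zero =>
    intro _
    refine (Av_mono (f' := fun _ => 1) fun π _ => ?_).trans (le_of_eq (Av_const U 1))
    rw [range_zero, prod_empty, mul_one]
    unfold iA
    split_ifs <;> norm_num
  | succ n ih =>
    intro hn
    refine le_trans ?_ (ih (by omega))
    apply Av_le_of_split (k := n) (by omega)
    intro W hW π1 h1
    obtain ⟨hW1, hW2⟩ := mem_powersetCard.1 hW
    have hl : π1.length = n := by rw [length_of_mem h1, hW2]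
    have hpW : pre π1 n = W := pre_card_of_mem h1 (le_of_eq hW2)
    have hne : (U \ W).Nonempty := by
      rw [← card_pos, card_sdiff_of_subset hW1]
      omega
    have e1 : ∀ π2 : List α, iA τ (π1 ++ π2) n = iA τ π1 n := fun π2 =>
      iA_append (le_of_eq hl.symm)
    have e2 : ∀ π2 : List α, ∀ j ∈ range n, gf τ U (pre (π1 ++ π2) j) j =
        gf τ U (pre π1 j) j := by
      intro π2 j hj
      rw [mem_range] at hj
      rw [pre_append_le (by omega)]
    have e3 : ∀ π2 : List α, pre (π1 ++ π2) n = W := fun π2 => by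
      rw [pre_append_le (le_of_eq hl.symm), hpW]
    have e4 : ∀ π2 : List α, pre (π1 ++ π2) (n + 1) = W ∪ pre π2 1 := by
      intro π2
      rw [← hl, pre_append_add, (mem_seqs_card.1 h1).2]
    have e5 : ∀ π2 : List α, iA τ (π1 ++ π2) (n + 1) =
        iA τ π1 n * (if τ (W ∪ pre π2 1) = Lab.A then 1 else 0) := by
      intro π2
      rw [← e1 π2, ← e4 π2]
      unfold iA
      rw [if_congr (allA_succ (τ := τ) (π := π1 ++ π2) (i := n)) rfl rfl]
      by_cases hA : allA τ (π1 ++ π2) n
      · by_cases hB : τ (pre (π1 ++ π2) (n + 1)) = Lab.A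
        · simp [hA, hB]
        · simp [hA, hB]
      · simp [hA]
    have hL : Av (U \ W) (fun π2 => iA τ (π1 ++ π2) (n + 1) *
        ∏ j ∈ range (n + 1), gf τ U (pre (π1 ++ π2) j) j) =
        (iA τ π1 n * ∏ j ∈ range n, gf τ U (pre π1 j) j) *
          Av (U \ W) (fun π => gf τ U W W.card *
            (if τ (W ∪ pre π 1) = Lab.A then 1 else 0)) := by
      rw [← Av_mul]
      refine Av_congr fun π2 _ => ?_
      rw [e5, prod_range_succ, prod_congr rfl (e2 π2), e3, hW2]
      ring
    have hR : Av (U \ W) (fun π2 => iA τ (π1 ++ π2) n *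
        ∏ j ∈ range n, gf τ U (pre (π1 ++ π2) j) j) =
        iA τ π1 n * ∏ j ∈ range n, gf τ U (pre π1 j) j := by
      rw [← Av_const (U \ W) (iA τ π1 n * ∏ j ∈ range n, gf τ U (pre π1 j) j)]
      refine Av_congr fun π2 _ => ?_
      rw [e1, prod_congr rfl (e2 π2)]
    rw [hL, hR]
    have hnn : 0 ≤ iA τ π1 n * ∏ j ∈ range n, gf τ U (pre π1 j) j := by
      apply mul_nonneg (iA_nonneg _ _ _)
      apply prod_nonneg
      intro j hj
      rw [mem_range] at hj
      have h2 : pre π1 j ⊆ U := (pre_subset_of_mem h1 j).trans hW1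
      have h3 : (pre π1 j).card = j := card_pre_of_mem h1 (by omega)
      have h4 := fin_card_le τ U (pre π1 j)
      have h5 : ((fin τ U (pre π1 j)).card : ℝ) ≤ (U.card : ℝ) - j := by
        rw [← h3, ← card_sdiff_cast h2, h3]
        exact_mod_cast h4
      unfold gf
      have h6 : (0 : ℝ) ≤ ((fin τ U (pre π1 j)).card : ℝ) := Nat.cast_nonneg _
      apply div_nonneg <;> linarith
    calc _ ≤ (iA τ π1 n * ∏ j ∈ range n, gf τ U (pre π1 j) j) * 1 :=
          mul_le_mul_of_nonneg_left (gstep_le τ hW1 hne) hnn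
      _ = _ := mul_one _

/-- positivity on good orders -/
theorem gf_pos {τ : Finset α → Lab} {U : Finset α} {π : List α} (hπ : π ∈ seqs U.card U)
    {n j : ℕ} (hn : n ≤ U.card) (hA : allA τ π n) (hj : j < n) : 0 < gf τ U (pre π j) j := by
  have h2 : pre π j ⊆ U := pre_subset_of_mem hπ j
  have h3 : (pre π j).card = j := card_pre_of_mem hπ (by omega)
  have h4 : (pre π (j + 1)).card = j + 1 := card_pre_of_mem hπ (by omega)
  have h5 : pre π j ⊆ pre π (j + 1) := pre_mono (Nat.le_succ j)
  have h6 : (pre π (j + 1) \ pre π j).card = 1 := by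
    rw [card_sdiff_of_subset h5, h3, h4]
    omega
  obtain ⟨y, hy⟩ := card_eq_one.1 h6
  have hy1 : y ∈ pre π (j + 1) \ pre π j := by rw [hy]; exact mem_singleton_self y
  have hy2 : insert y (pre π j) = pre π (j + 1) := by
    rw [insert_eq, ← hy, sdiff_union_of_subset h5]
  have hy3 : y ∈ U \ pre π j :=
    mem_sdiff.2 ⟨pre_subset_of_mem hπ _ (mem_sdiff.1 hy1).1, (mem_sdiff.1 hy1).2⟩
  have h7 : y ∈ (U \ pre π j).filter (fun y => τ (insert y (pre π j)) = Lab.A) := by
    rw [mem_filter]
    refine ⟨hy3, ?_⟩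
    rw [hy2]
    exact hA (j + 1) (by rw [mem_range]; omega)
  have h8 : (0 : ℝ) < (U.card : ℝ) - (pre π j).card - ((fin τ U (pre π j)).card : ℝ) := by
    rw [← card_stay τ h2]
    exact_mod_cast card_pos.2 ⟨y, h7⟩
  rw [h3] at h8
  unfold gf
  have h9 : (0 : ℝ) ≤ ((fin τ U (pre π j)).card : ℝ) := Nat.cast_nonneg _
  apply div_pos _ h8
  linarith

/-- (ii) for one set -/
theorem gib_set (τ : Finset α → Lab) (U : Finset α) {n : ℕ} (hn : n ≤ U.card) :
    Av U (fun π => iA τ π n * ∑ j ∈ range n, Real.log (gf τ U (pre π j) j)) ≤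
      Av U (fun π => iA τ π n) * (-Real.log (Av U (fun π => iA τ π n))) := by
  set c := Av U (fun π => iA τ π n) with hc
  have hc0 : 0 ≤ c := Av_nonneg fun π _ => iA_nonneg τ π n
  have h1 : Av U (fun π => iA τ π n * ∑ j ∈ range n, Real.log (gf τ U (pre π j) j)) ≤
      Av U (fun π => c * (iA τ π n * ∏ j ∈ range n, gf τ U (pre π j) j) -
        iA τ π n * (1 + Real.log c)) := by
    apply Av_mono
    intro π hπ
    by_cases hA : allA τ π n
    · rw [iA_pos hA]
      have hg : ∀ j ∈ range n, gf τ U (pre π j) j ≠ 0 := fun j hj =>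
        (gf_pos hπ hn hA (mem_range.1 hj)).ne'
      have hp : 0 < ∏ j ∈ range n, gf τ U (pre π j) j :=
        prod_pos fun j hj => gf_pos hπ hn hA (mem_range.1 hj)
      rw [← Real.log_prod hg]
      have hcp : 0 < c := by
        rw [hc]
        unfold Av
        apply div_pos _ (by exact_mod_cast Nat.factorial_pos _)
        apply sum_pos' (fun π _ => iA_nonneg τ π n)
        exact ⟨π, hπ, by rw [iA_pos hA]; norm_num⟩
      have h2 := Real.log_le_sub_one_of_pos (mul_pos hcp hp)
      rw [Real.log_mul hcp.ne' hp.ne'] at h2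
      linarith
    · rw [iA_neg hA]
      simp
  have h2 := gib_prod τ U n hn
  rw [Av_sub, Av_mul, Av_mul_right, ← hc] at h1
  have h3 := mul_le_mul_of_nonneg_left h2 hc0
  linarith

theorem Av_iA_fw (τ : Finset α → Lab) (U : Finset α) : Av U (fun π => iA τ π U.card) = fw τ U :=
  (fw_eq_Av τ U).symm

theorem Av_iA_fwb (τ : Finset α → Lab) {U : Finset α} (hU : U.Nonempty) :
    Av U (fun π => iA τ π (U.card - 1)) = fwb τ U := (fwb_eq_Av τ hU).symm

/-- (ii), edges, one level -/
theorem gib_E (τ : Finset α → Lab) {V : Finset α} {k : ℕ} (hk : k < V.card) :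
    Av V (fun π => iE τ π k * ∑ j ∈ range k, Real.log (((k : ℝ) - j) /
      ((k : ℝ) - j - ((fin τ (pre π k) (pre π j)).card : ℝ)))) ≤
    Av V (fun π => iE τ π k * (-Real.log (fw τ (pre π k)))) := by
  have e : ∀ (F : Finset α → List α → ℝ), Av V (fun π => iE τ π k * F (pre π k) (π.take k)) =
      ∑ U ∈ powersetCard k V, ∑ x ∈ V \ U, (if isE τ U x then
        Av U (fun π1 => if allA τ π1 k then F U π1 else 0) else 0) /
          ((V.card.choose k : ℝ) * ((V.card : ℝ) - k)) := by
    intro F
    rw [← Av_exE τ hk (fun U _ π1 => F U π1)]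
    refine Av_congr fun π hπ => ?_
    have h5 : pre π k ⊆ pre π (k + 1) := pre_mono (Nat.le_succ k)
    have h6 : (pre π (k + 1) \ pre π k).card = 1 := by
      rw [card_sdiff_of_subset h5, card_pre_of_mem hπ (by omega), card_pre_of_mem hπ (by omega)]
      omega
    rw [sum_const, h6, one_smul]
    unfold iE
    split_ifs <;> simp
  have eL : Av V (fun π => iE τ π k * ∑ j ∈ range k, Real.log (((k : ℝ) - j) /
      ((k : ℝ) - j - ((fin τ (pre π k) (pre π j)).card : ℝ)))) =
      Av V (fun π => iE τ π k * (fun (U : Finset α) (π1 : List α) => ∑ j ∈ range k,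
        Real.log (((k : ℝ) - j) / ((k : ℝ) - j - ((fin τ U (pre π1 j)).card : ℝ))))
          (pre π k) (π.take k)) := by
    refine Av_congr fun π _ => ?_
    congr 1
    refine sum_congr rfl fun j hj => ?_
    rw [mem_range] at hj
    rw [pre_take hj.le]
  rw [eL, e (fun (U : Finset α) (π1 : List α) => ∑ j ∈ range k,
        Real.log (((k : ℝ) - j) / ((k : ℝ) - j - ((fin τ U (pre π1 j)).card : ℝ)))),
    e (fun U _ => -Real.log (fw τ U))]
  refine sum_le_sum fun U hU => sum_le_sum fun x _ => ?_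
  obtain ⟨hU1, hU2⟩ := mem_powersetCard.1 hU
  apply div_le_div_of_nonneg_right
  · split_ifs with hE
    · have h := gib_set τ U (le_refl U.card)
      rw [Av_iA_fw] at h
      have e1 : Av U (fun π1 => if allA τ π1 k then ∑ j ∈ range k,
          Real.log (((k : ℝ) - j) / ((k : ℝ) - j - ((fin τ U (pre π1 j)).card : ℝ))) else 0) =
          Av U (fun π => iA τ π U.card * ∑ j ∈ range U.card, Real.log (gf τ U (pre π j) j)) := by
        refine Av_congr fun π _ => ?_
        rw [hU2]
        unfold iA gf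
        rw [hU2]
        split_ifs <;> simp
      have e2 : Av U (fun π1 => if allA τ π1 k then -Real.log (fw τ U) else 0) =
          fw τ U * (-Real.log (fw τ U)) := by
        rw [← Av_iA_fw τ U, ← Av_mul_right]
        refine Av_congr fun π _ => ?_
        rw [hU2]
        unfold iA
        split_ifs <;> simp
      rw [e1, e2]
      exact h
    · exact le_rfl
  · apply mul_nonneg (Nat.cast_nonneg _)
    have : (k : ℝ) < V.card := by exact_mod_cast hk
    linarith

/-- (ii), vertices, one level -/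
theorem gib_X (τ : Finset α → Lab) {V : Finset α} {k : ℕ} (hk : k < V.card) :
    Av V (fun π => iX τ π k * ∑ j ∈ range k, Real.log (((k : ℝ) + 1 - j) /
      ((k : ℝ) + 1 - j - ((fin τ (pre π (k + 1)) (pre π j)).card : ℝ)))) ≤
    Av V (fun π => iX τ π k * (-Real.log (fwb τ (pre π (k + 1))))) := by
  have e : ∀ (F : Finset α → List α → ℝ),
      Av V (fun π => iX τ π k * F (pre π (k + 1)) (π.take (k + 1))) =
      ∑ U ∈ powersetCard (k + 1) V, (if τ U = Lab.X then
        Av U (fun π1 => if allA τ π1 k then F U π1 else 0) else 0) /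
          (V.card.choose (k + 1) : ℝ) := by
    intro F
    rw [← Av_exX τ hk F]
    refine Av_congr fun π _ => ?_
    unfold iX
    split_ifs <;> simp
  have eL : Av V (fun π => iX τ π k * ∑ j ∈ range k, Real.log (((k : ℝ) + 1 - j) /
      ((k : ℝ) + 1 - j - ((fin τ (pre π (k + 1)) (pre π j)).card : ℝ)))) =
      Av V (fun π => iX τ π k * (fun (U : Finset α) (π1 : List α) => ∑ j ∈ range k,
        Real.log (((k : ℝ) + 1 - j) / ((k : ℝ) + 1 - j - ((fin τ U (pre π1 j)).card : ℝ))))
          (pre π (k + 1)) (π.take (k + 1))) := by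
    refine Av_congr fun π _ => ?_
    congr 1
    refine sum_congr rfl fun j hj => ?_
    rw [mem_range] at hj
    rw [pre_take (by omega)]
  rw [eL, e (fun (U : Finset α) (π1 : List α) => ∑ j ∈ range k,
        Real.log (((k : ℝ) + 1 - j) / ((k : ℝ) + 1 - j - ((fin τ U (pre π1 j)).card : ℝ)))),
    e (fun U _ => -Real.log (fwb τ U))]
  refine sum_le_sum fun U hU => ?_
  obtain ⟨hU1, hU2⟩ := mem_powersetCard.1 hU
  apply div_le_div_of_nonneg_right _ (Nat.cast_nonneg _)
  have hne : U.Nonempty := card_pos.1 (by omega)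
  have hk' : U.card - 1 = k := by omega
  have hc : (U.card : ℝ) = (k : ℝ) + 1 := by rw [hU2]; push_cast; ring
  split_ifs with hE
  · have h := gib_set τ U (n := U.card - 1) (by omega)
    rw [Av_iA_fwb τ hne] at h
    have e1 : Av U (fun π1 => if allA τ π1 k then ∑ j ∈ range k,
        Real.log (((k : ℝ) + 1 - j) / ((k : ℝ) + 1 - j - ((fin τ U (pre π1 j)).card : ℝ)))
          else 0) =
        Av U (fun π => iA τ π (U.card - 1) *
          ∑ j ∈ range (U.card - 1), Real.log (gf τ U (pre π j) j)) := by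
      refine Av_congr fun π _ => ?_
      rw [hk']
      unfold iA gf
      rw [hc]
      split_ifs <;> simp
    have e2 : Av U (fun π1 => if allA τ π1 k then -Real.log (fwb τ U) else 0) =
        fwb τ U * (-Real.log (fwb τ U)) := by
      rw [← Av_iA_fwb τ hne, ← Av_mul_right]
      refine Av_congr fun π _ => ?_
      rw [hk']
      unfold iA
      split_ifs <;> simp
    rw [e1, e2]
    exact h
  · exact le_rfl

/-- (ii), edges -/
theorem gib_E_sum (τ : Finset α → Lab) (V : Finset α) :
    Av V (fun π => ∑ k ∈ range V.card, iE τ π k * ∑ j ∈ range k, Real.log (((k : ℝ) - j) /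
      ((k : ℝ) - j - ((fin τ (pre π k) (pre π j)).card : ℝ)))) ≤
    Av V (fun π => ∑ k ∈ range V.card, iE τ π k * (-Real.log (fw τ (pre π k)))) := by
  rw [Av_sum, Av_sum]
  exact sum_le_sum fun k hk => gib_E τ (mem_range.1 hk)

/-- (ii), vertices -/
theorem gib_X_sum (τ : Finset α → Lab) (V : Finset α) :
    Av V (fun π => ∑ k ∈ range V.card, iX τ π k * ∑ j ∈ range k, Real.log (((k : ℝ) + 1 - j) /
      ((k : ℝ) + 1 - j - ((fin τ (pre π (k + 1)) (pre π j)).card : ℝ)))) ≤
    Av V (fun π => ∑ k ∈ range V.card, iX τ π k * (-Real.log (fwb τ (pre π (k + 1))))) := by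
  rw [Av_sum, Av_sum]
  exact sum_le_sum fun k hk => gib_X τ (mem_range.1 hk)

end TS

end R5

end

section

/-!
# Functionals of prefixes whose average does not decrease (helper77)
-/

namespace R5

namespace TS

open Finset T7

variable {α : Type} [DecidableEq α]

/-- the step lemma, from a prefix -/
theorem step_from {V : Finset α} (Ψ : List α → ℝ)
    (h : ∀ p : List α, p.Nodup → p.toFinset ⊆ V → p.length < V.card →
      Ψ p ≤ (∑ x ∈ V \ p.toFinset, Ψ (p ++ [x])) / ((V \ p.toFinset).card : ℝ)) :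
    ∀ (n : ℕ) (p : List α), p.Nodup → p.toFinset ⊆ V → (V \ p.toFinset).card = n →
      Ψ p ≤ Av (V \ p.toFinset) (fun π => Ψ (p ++ π)) := by
  intro n
  induction n with
  | zero =>
    intro p _ _ hn
    rw [card_eq_zero.1 hn, Av_empty, List.append_nil]
  | succ n ih =>
    intro p hp hpV hn
    have hne : (V \ p.toFinset).Nonempty := card_pos.1 (by omega)
    have hlen : p.length < V.card := by
      rw [← List.toFinset_card_of_nodup hp]
      have := card_sdiff_add_card_eq_card hpV
      omega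
    rw [Av_cons hne]
    refine (h p hp hpV hlen).trans ?_
    refine div_le_div_of_nonneg_right (sum_le_sum fun x hx => ?_) (Nat.cast_nonneg _)
    have hx' := mem_sdiff.1 hx
    have hxp : x ∉ p := fun hm => hx'.2 (List.mem_toFinset.2 hm)
    have e1 : (p ++ [x]).toFinset = insert x p.toFinset := by
      rw [List.toFinset_append, List.toFinset_cons, List.toFinset_nil, union_comm]
      rfl
    have e2 : V \ (p ++ [x]).toFinset = (V \ p.toFinset).erase x := by
      rw [e1, ← sdiff_erase_eq]
    have h1 := ih (p ++ [x]) (by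
        rw [List.nodup_append]
        exact ⟨hp, List.nodup_singleton x, by
          intro a ha b hb
          rw [List.mem_singleton] at hb
          rw [hb]
          rintro rfl
          exact hxp ha⟩)
      (by
        rw [e1]
        exact insert_subset hx'.1 hpV)
      (by rw [e2, card_erase_of_mem hx, hn]; rfl)
    rw [e2] at h1
    refine h1.trans (le_of_eq ?_)
    refine Av_congr fun π _ => ?_
    rw [List.append_assoc]
    rfl

/-- **the step lemma** -/
theorem step {V : Finset α} (Ψ : List α → ℝ)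
    (h : ∀ p : List α, p.Nodup → p.toFinset ⊆ V → p.length < V.card →
      Ψ p ≤ (∑ x ∈ V \ p.toFinset, Ψ (p ++ [x])) / ((V \ p.toFinset).card : ℝ)) :
    Ψ [] ≤ Av V Ψ := by
  have := step_from Ψ h V.card [] List.nodup_nil (by simp) (by simp)
  simpa using this

/-- the step lemma, upper bounds -/
theorem step_le {V : Finset α} (Ψ : List α → ℝ)
    (h : ∀ p : List α, p.Nodup → p.toFinset ⊆ V → p.length < V.card →
      (∑ x ∈ V \ p.toFinset, Ψ (p ++ [x])) / ((V \ p.toFinset).card : ℝ) ≤ Ψ p) :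
    Av V Ψ ≤ Ψ [] := by
  have h1 := step (V := V) (fun p => -Ψ p) (by
    intro p hp hpV hl
    have := h p hp hpV hl
    rw [sum_neg_distrib, neg_div]
    linarith)
  rw [Av_neg] at h1
  linarith

/-! ### index functions along `p ++ [x]` -/

theorem pre_snoc {p : List α} {x : α} {i : ℕ} (h : i ≤ p.length) : pre (p ++ [x]) i = pre p i :=
  pre_append_le h

theorem pre_length (p : List α) : pre p p.length = p.toFinset := pre_of_ge le_rfl

theorem pre_snoc_succ {p : List α} {x : α} :
    pre (p ++ [x]) (p.length + 1) = insert x p.toFinset := by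
  rw [pre_of_ge (by simp), List.toFinset_append, List.toFinset_cons, List.toFinset_nil, union_comm]
  rfl

theorem iA_snoc {τ : Finset α → Lab} {p : List α} {x : α} {i : ℕ} (h : i ≤ p.length) :
    iA τ (p ++ [x]) i = iA τ p i := iA_congr (allA_append h)

theorem iE_snoc {τ : Finset α → Lab} {p : List α} {x : α} {i : ℕ} (h : i < p.length) :
    iE τ (p ++ [x]) i = iE τ p i := by
  apply iE_congr
  unfold exE
  rw [allA_append h.le, pre_snoc h]

theorem iX_snoc {τ : Finset α → Lab} {p : List α} {x : α} {i : ℕ} (h : i < p.length) :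
    iX τ (p ++ [x]) i = iX τ p i := by
  apply iX_congr
  unfold exX
  rw [allA_append h.le, pre_snoc h]

theorem iA_snoc_succ {τ : Finset α → Lab} {p : List α} {x : α} :
    iA τ (p ++ [x]) (p.length + 1) =
      iA τ p p.length * (if τ (insert x p.toFinset) = Lab.A then 1 else 0) := by
  unfold iA
  have : allA τ (p ++ [x]) (p.length + 1) ↔
      allA τ p p.length ∧ τ (insert x p.toFinset) = Lab.A := by
    rw [allA_succ, allA_append le_rfl, pre_snoc_succ]
  rw [if_congr this rfl rfl]
  by_cases h1 : allA τ p p.length <;> by_cases h2 : τ (insert x p.toFinset) = Lab.A <;>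
    simp [h1, h2]

theorem iE_snoc_last {τ : Finset α → Lab} {p : List α} {x : α} :
    iE τ (p ++ [x]) p.length =
      iA τ p p.length * (if τ (insert x p.toFinset) = Lab.B then 1 else 0) := by
  unfold iE iA
  have : exE τ (p ++ [x]) p.length ↔
      allA τ p p.length ∧ τ (insert x p.toFinset) = Lab.B := by
    unfold exE
    rw [allA_append le_rfl, pre_snoc_succ]
  rw [if_congr this rfl rfl]
  by_cases h1 : allA τ p p.length <;> by_cases h2 : τ (insert x p.toFinset) = Lab.B <;>
    simp [h1, h2]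

theorem iX_snoc_last {τ : Finset α → Lab} {p : List α} {x : α} :
    iX τ (p ++ [x]) p.length =
      iA τ p p.length * (if τ (insert x p.toFinset) = Lab.X then 1 else 0) := by
  unfold iX iA
  have : exX τ (p ++ [x]) p.length ↔
      allA τ p p.length ∧ τ (insert x p.toFinset) = Lab.X := by
    unfold exX
    rw [allA_append le_rfl, pre_snoc_succ]
  rw [if_congr this rfl rfl]
  by_cases h1 : allA τ p p.length <;> by_cases h2 : τ (insert x p.toFinset) = Lab.X <;>
    simp [h1, h2]

theorem nx_snoc {p : List α} {x : α} {i : ℕ} (h : i < p.length) : nx (p ++ [x]) i = nx p i := by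
  unfold nx
  rw [pre_snoc h, pre_snoc h.le]

theorem nx_snoc_last {p : List α} {x : α} (hx : x ∉ p) : nx (p ++ [x]) p.length = {x} := by
  unfold nx
  rw [pre_snoc_succ, pre_snoc le_rfl, pre_length]
  ext y
  rw [mem_sdiff, mem_insert, mem_singleton]
  constructor
  · rintro ⟨h1 | h1, h2⟩
    · exact h1
    · exact absurd h1 h2
  · rintro rfl
    exact ⟨Or.inl rfl, fun h => hx (List.mem_toFinset.1 h)⟩

end TS

end R5

end

section

/-!
# The light compensator (helper58)
-/

namespace R5

namespace TS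

open Finset T7

variable {α : Type} [DecidableEq α]

/-- left minus right of the light compensator at level `k` -/
noncomputable def cmpD (τ : Finset α → Lab) (V : Finset α) (f : Finset α → ℝ) (p : List α)
    (k : ℕ) : ℝ :=
  iE τ p k * (if nx p k ⊆ AL τ V (pre p k) then 1 else 0) * f (pre p k) -
    iA τ p k * (((AL τ V (pre p k)).card : ℝ) / ((V.card : ℝ) - k) * f (pre p k))

theorem cmpD_snoc {τ : Finset α → Lab} {V : Finset α} {f : Finset α → ℝ} {p : List α} {x : α}
    {k : ℕ} (h : k < p.length) : cmpD τ V f (p ++ [x]) k = cmpD τ V f p k := by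
  unfold cmpD
  rw [iE_snoc h, nx_snoc h, pre_snoc h.le, iA_snoc h.le]

theorem cmpD_snoc_last {τ : Finset α → Lab} {V : Finset α} {f : Finset α → ℝ} {p : List α}
    {x : α} (hx : x ∈ V \ p.toFinset) :
    cmpD τ V f (p ++ [x]) p.length =
      iA τ p p.length * f p.toFinset *
        ((if x ∈ AL τ V p.toFinset then 1 else 0) -
          ((AL τ V p.toFinset).card : ℝ) / ((V.card : ℝ) - p.length)) := by
  have hx' := mem_sdiff.1 hx
  have hxp : x ∉ p := fun hm => hx'.2 (List.mem_toFinset.2 hm)
  unfold cmpD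
  rw [iE_snoc_last, nx_snoc_last hxp, pre_snoc le_rfl, pre_length, iA_snoc le_rfl]
  simp only [singleton_subset_iff]
  by_cases hm : x ∈ AL τ V p.toFinset
  · have hB : τ (insert x p.toFinset) = Lab.B := ((mem_filter.1 hm).2).2
    rw [if_pos hm, if_pos hB]
    ring
  · rw [if_neg hm]
    ring

theorem AL_subset (τ : Finset α → Lab) (V U : Finset α) : AL τ V U ⊆ V \ U := filter_subset _ _

/-- the average of the differences does not change in one step -/
theorem cmp_step (τ : Finset α → Lab) (V : Finset α) (f : Finset α → ℝ) (p : List α)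
    (hp : p.Nodup) (hpV : p.toFinset ⊆ V) (hl : p.length < V.card) :
    (∑ x ∈ V \ p.toFinset, ∑ k ∈ range (p ++ [x]).length, cmpD τ V f (p ++ [x]) k) /
        ((V \ p.toFinset).card : ℝ) = ∑ k ∈ range p.length, cmpD τ V f p k := by
  have hc : ((V \ p.toFinset).card : ℝ) = (V.card : ℝ) - p.length := by
    rw [card_sdiff_of_subset hpV, List.toFinset_card_of_nodup hp,
      Nat.cast_sub (by rw [← List.toFinset_card_of_nodup hp]; exact card_le_card hpV)]
  have hpos : (0 : ℝ) < (V.card : ℝ) - p.length := by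
    have : (p.length : ℝ) < V.card := by exact_mod_cast hl
    linarith
  have h1 : ∀ x ∈ V \ p.toFinset,
      ∑ k ∈ range (p ++ [x]).length, cmpD τ V f (p ++ [x]) k =
      ∑ k ∈ range p.length, cmpD τ V f p k +
        iA τ p p.length * f p.toFinset *
          ((if x ∈ AL τ V p.toFinset then 1 else 0) -
            ((AL τ V p.toFinset).card : ℝ) / ((V.card : ℝ) - p.length)) := by
    intro x hx
    rw [List.length_append, List.length_singleton, sum_range_succ, cmpD_snoc_last hx]
    congr 1
    exact sum_congr rfl fun k hk => cmpD_snoc (mem_range.1 hk)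
  have h2 : ∑ x ∈ V \ p.toFinset, (if x ∈ AL τ V p.toFinset then (1 : ℝ) else 0) =
      ((AL τ V p.toFinset).card : ℝ) := by
    rw [← sum_filter, filter_mem_eq_inter, inter_eq_right.2 (AL_subset τ V p.toFinset), sum_const,
      nsmul_eq_mul, mul_one]
  rw [sum_congr rfl h1, sum_add_distrib, ← mul_sum, sum_sub_distrib, h2, sum_const, sum_const,
    nsmul_eq_mul, nsmul_eq_mul, hc, mul_div_cancel₀ _ hpos.ne', sub_self, mul_zero, add_zero,
    mul_div_cancel_left₀ _ hpos.ne']

/-- **the light compensator** -/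
theorem comp_al (τ : Finset α → Lab) (V : Finset α) (f : Finset α → ℝ) :
    Av V (fun π => ∑ k ∈ range V.card,
        iE τ π k * (if nx π k ⊆ AL τ V (pre π k) then 1 else 0) * f (pre π k)) =
      Av V (fun π => ∑ i ∈ range V.card,
        iA τ π i * (((AL τ V (pre π i)).card : ℝ) / ((V.card : ℝ) - i) * f (pre π i))) := by
  have h0 : Av V (fun π => ∑ k ∈ range π.length, cmpD τ V f π k) = 0 := by
    apply le_antisymm
    · have := step_le (V := V) (fun π => ∑ k ∈ range π.length, cmpD τ V f π k)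
        (fun p hp hpV hl => (cmp_step τ V f p hp hpV hl).le)
      simpa using this
    · have := step (V := V) (fun π => ∑ k ∈ range π.length, cmpD τ V f π k)
        (fun p hp hpV hl => (cmp_step τ V f p hp hpV hl).ge)
      simpa using this
  have h1 : Av V (fun π => ∑ k ∈ range π.length, cmpD τ V f π k) =
      Av V (fun π => ∑ k ∈ range V.card,
        iE τ π k * (if nx π k ⊆ AL τ V (pre π k) then 1 else 0) * f (pre π k)) -
      Av V (fun π => ∑ i ∈ range V.card,
        iA τ π i * (((AL τ V (pre π i)).card : ℝ) / ((V.card : ℝ) - i) * f (pre π i))) := by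
    rw [← Av_sub]
    refine Av_congr fun π hπ => ?_
    rw [length_of_mem hπ]
    unfold cmpD
    rw [sum_sub_distrib]
  linarith

/-- the compensator with `f W = |V| - |W|` -/
theorem comp_al_card (τ : Finset α → Lab) (V : Finset α) :
    Av V (fun π => ∑ i ∈ range V.card, iA τ π i * ((AL τ V (pre π i)).card : ℝ)) =
      Av V (fun π => ∑ k ∈ range V.card,
        iE τ π k * (if nx π k ⊆ AL τ V (pre π k) then 1 else 0) * ((V.card : ℝ) - k)) := by
  have h := comp_al τ V (fun W => (V.card : ℝ) - W.card)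
  have e1 : Av V (fun π => ∑ k ∈ range V.card,
        iE τ π k * (if nx π k ⊆ AL τ V (pre π k) then 1 else 0) * ((V.card : ℝ) - k)) =
      Av V (fun π => ∑ k ∈ range V.card,
        iE τ π k * (if nx π k ⊆ AL τ V (pre π k) then 1 else 0) *
          ((V.card : ℝ) - (pre π k).card)) :=
    Av_congr fun π hπ => sum_congr rfl fun k hk => by
      rw [card_pre_of_mem hπ (mem_range.1 hk).le]
  rw [e1, h]
  refine Av_congr fun π hπ => sum_congr rfl fun i hi => ?_
  have hi' := mem_range.1 hi
  rw [card_pre_of_mem hπ hi'.le]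
  have hpos : (0 : ℝ) < (V.card : ℝ) - i := by
    have : (i : ℝ) < V.card := by exact_mod_cast hi'
    linarith
  rw [div_mul_cancel₀ _ hpos.ne']

/-- the charges through the light exits -/
theorem comp_charge (τ : Finset α → Lab) (V : Finset α) :
    Av V (fun π => ∑ i ∈ range V.card,
        iA τ π i * cc V.card (AL τ V (pre π i)).card (V.card - i)) =
      Av V (fun π => ∑ k ∈ range V.card,
        iE τ π k * (if nx π k ⊆ AL τ V (pre π k) then 1 else 0) *
          (lamn V.card * ((V.card : ℝ) - 1 - k) +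
            Lf V.card ((AL τ V (pre π k)).card : ℝ))) -
      Av V (fun π => ∑ i ∈ range V.card,
        iA τ π i * Lf V.card ((AL τ V (pre π i)).card : ℝ)) := by
  have h1 := comp_al_card τ V
  have h2 := comp_al τ V (fun W => Lf V.card ((AL τ V W).card : ℝ) - lamn V.card)
  have e1 : Av V (fun π => ∑ i ∈ range V.card,
        iA τ π i * cc V.card (AL τ V (pre π i)).card (V.card - i)) =
      lamn V.card * Av V (fun π => ∑ i ∈ range V.card,
        iA τ π i * ((AL τ V (pre π i)).card : ℝ)) -
      Av V (fun π => ∑ i ∈ range V.card,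
        iA τ π i * Lf V.card ((AL τ V (pre π i)).card : ℝ)) +
      Av V (fun π => ∑ i ∈ range V.card,
        iA τ π i * (((AL τ V (pre π i)).card : ℝ) / ((V.card : ℝ) - i) *
          (Lf V.card ((AL τ V (pre π i)).card : ℝ) - lamn V.card))) := by
    rw [← Av_mul, ← Av_sub, ← Av_add]
    refine Av_congr fun π _ => ?_
    rw [mul_sum, ← sum_sub_distrib, ← sum_add_distrib]
    refine sum_congr rfl fun i hi => ?_
    unfold cc
    rw [Nat.cast_sub (mem_range.1 hi).le]
    ring
  have e2 : Av V (fun π => ∑ k ∈ range V.card,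
        iE τ π k * (if nx π k ⊆ AL τ V (pre π k) then 1 else 0) *
          (lamn V.card * ((V.card : ℝ) - 1 - k) +
            Lf V.card ((AL τ V (pre π k)).card : ℝ))) =
      lamn V.card * Av V (fun π => ∑ k ∈ range V.card,
        iE τ π k * (if nx π k ⊆ AL τ V (pre π k) then 1 else 0) * ((V.card : ℝ) - k)) +
      Av V (fun π => ∑ k ∈ range V.card,
        iE τ π k * (if nx π k ⊆ AL τ V (pre π k) then 1 else 0) *
          (Lf V.card ((AL τ V (pre π k)).card : ℝ) - lamn V.card)) := by
    rw [← Av_mul, ← Av_add]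
    refine Av_congr fun π _ => ?_
    rw [mul_sum, ← sum_add_distrib]
    refine sum_congr rfl fun k _ => ?_
    ring
  rw [e1, e2, h1, ← h2]
  ring

end TS

end R5

end

section

/-!
# Slot inequalities: tangents (helper77)
-/

namespace R5

namespace TS

open Finset T7

variable {α : Type} [DecidableEq α]

/-- slot cost with modulus `M` -/
noncomputable def el (M x : ℝ) : ℝ := -Real.log (1 - x / M)

theorem el_zero (M : ℝ) : el M 0 = 0 := by unfold el; simp

theorem el_nonneg {M x : ℝ} (h0 : 0 ≤ x) (hx : x < M) : 0 ≤ el M x := by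
  unfold el
  have hM : 0 < M := lt_of_le_of_lt h0 hx
  have h1 : 0 < 1 - x / M := by rw [sub_pos, div_lt_one hM]; exact hx
  have h2 : 1 - x / M ≤ 1 := by have := div_nonneg h0 hM.le; linarith
  have := Real.log_nonpos h1.le h2
  linarith

/-- `x/M ≤ el M x` -/
theorem div_le_el {M x : ℝ} (hM : 0 < M) (hx : x < M) : x / M ≤ el M x := by
  unfold el
  have h1 : 0 < 1 - x / M := by rw [sub_pos, div_lt_one hM]; exact hx
  have := Real.log_le_sub_one_of_pos h1
  linarith

/-- tangent -/
theorem el_tangent {M x c : ℝ} (hM : 0 < M) (hx : x < M) (hc : c < M) :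
    el M c + (x - c) / (M - c) ≤ el M x := by
  unfold el
  have h1 : 0 < 1 - x / M := by rw [sub_pos, div_lt_one hM]; exact hx
  have h2 : 0 < 1 - c / M := by rw [sub_pos, div_lt_one hM]; exact hc
  have h3 : Real.log ((1 - x / M) / (1 - c / M)) ≤ (1 - x / M) / (1 - c / M) - 1 :=
    Real.log_le_sub_one_of_pos (div_pos h1 h2)
  rw [Real.log_div h1.ne' h2.ne'] at h3
  have h4 : (1 - x / M) / (1 - c / M) - 1 = -((x - c) / (M - c)) := by
    have h5 : M - c ≠ 0 := (sub_pos.2 hc).ne'
    have h6 : (1 - c / M) = (M - c) / M := by field_simp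
    have h7 : (1 - x / M) = (M - x) / M := by field_simp
    rw [h6, h7]
    field_simp
    ring
  linarith

/-- monotone in the modulus -/
theorem el_anti {M M' x : ℝ} (h0 : 0 ≤ x) (hx : x < M') (hM : M' ≤ M) : el M x ≤ el M' x := by
  unfold el
  have hM' : 0 < M' := lt_of_le_of_lt h0 hx
  have h1 : 0 < 1 - x / M' := by rw [sub_pos, div_lt_one hM']; exact hx
  have h2 : 1 - x / M' ≤ 1 - x / M := by
    have := div_le_div_of_nonneg_left h0 hM' hM
    linarith
  have := Real.log_le_log h1 h2
  linarith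

/-- superadditivity, two terms -/
theorem el_add {M x y : ℝ} (hx : 0 ≤ x) (hy : 0 ≤ y) (hxy : x + y < M) :
    el M x + el M y ≤ el M (x + y) := by
  unfold el
  have hM : 0 < M := lt_of_le_of_lt (add_nonneg hx hy) hxy
  have h1 : 0 < 1 - x / M := by rw [sub_pos, div_lt_one hM]; linarith
  have h2 : 0 < 1 - y / M := by rw [sub_pos, div_lt_one hM]; linarith
  have h3 : 0 < 1 - (x + y) / M := by rw [sub_pos, div_lt_one hM]; exact hxy
  have h4 : 1 - (x + y) / M ≤ (1 - x / M) * (1 - y / M) := by
    have h5 := mul_nonneg (div_nonneg hx hM.le) (div_nonneg hy hM.le)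
    have h6 : (x + y) / M = x / M + y / M := add_div x y M
    rw [h6]
    nlinarith
  have h5 := Real.log_le_log h3 h4
  rw [Real.log_mul h1.ne' h2.ne'] at h5
  linarith

/-- superadditivity, sums -/
theorem el_sum {M : ℝ} {S : Finset α} {r : α → ℝ} (hr : ∀ y ∈ S, 0 ≤ r y)
    (hs : ∑ y ∈ S, r y < M) : ∑ y ∈ S, el M (r y) ≤ el M (∑ y ∈ S, r y) := by
  induction S using Finset.induction_on with
  | empty => simp [el_zero]
  | insert a S ha ih =>
    rw [sum_insert ha] at hs ⊢
    rw [sum_insert ha]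
    have h1 : 0 ≤ r a := hr a (mem_insert_self _ _)
    have h2 : 0 ≤ ∑ y ∈ S, r y := sum_nonneg fun y hy => hr y (mem_insert_of_mem hy)
    have h3 := ih (fun y hy => hr y (mem_insert_of_mem hy)) (by linarith)
    have h4 := el_add h1 h2 hs
    linarith

/-- chord -/
theorem el_chord {M x : ℝ} (hM : 1 < M) (h0 : 0 ≤ x) (h1 : x ≤ 1) : el M x ≤ x * el M 1 := by
  -- tangent at `x` applied at `0` and `1`
  have hM0 : 0 < M := by linarith
  have hxM : x < M := by linarith
  have t0 := el_tangent (x := 0) (c := x) hM0 hM0 hxM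
  have t1 := el_tangent (x := 1) (c := x) hM0 hM hxM
  rw [el_zero] at t0
  have h2 : (1 - x) * (el M x + (0 - x) / (M - x)) ≤ (1 - x) * 0 :=
    mul_le_mul_of_nonneg_left t0 (by linarith)
  have h3 : x * (el M x + (1 - x) / (M - x)) ≤ x * el M 1 := mul_le_mul_of_nonneg_left t1 h0
  have h4 : (1 - x) * (el M x + (0 - x) / (M - x)) + x * (el M x + (1 - x) / (M - x)) =
      el M x := by ring
  linarith

/-- **slot `j ≥ 1`** : `A` = live lights, `S` = the other visible elements -/
theorem slot_one {M : ℝ} (hM : 2 ≤ M) {A S : Finset α} {r : α → ℝ}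
    (hA : ∀ y ∈ A, r y ≤ 1) (hS : ∀ y ∈ S, 0 ≤ r y ∧ r y ≤ 1)
    (hs : ∑ y ∈ S, r y - ∑ y ∈ A, (1 - r y) < M) :
    ∑ y ∈ S, el M (r y) - ∑ y ∈ A, (1 - r y) / (M - 1) ≤
      el M (∑ y ∈ S, r y - ∑ y ∈ A, (1 - r y)) := by
  set X := ∑ y ∈ S, r y with hX
  set δ := ∑ y ∈ A, (1 - r y) with hδ
  have hδ0 : 0 ≤ δ := sum_nonneg fun y hy => by linarith [hA y hy]
  have hX0 : 0 ≤ X := sum_nonneg fun y hy => (hS y hy).1
  have hM0 : 0 < M := by linarith
  have hM1 : 0 < M - 1 := by linarith
  rw [← sum_div, ← hδ]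
  rcases le_or_gt X 1 with h1 | h1
  · have t := el_tangent (x := X - δ) (c := X) hM0 hs (by linarith)
    have h2 : ∑ y ∈ S, el M (r y) ≤ el M X := el_sum (fun y hy => (hS y hy).1) (by linarith)
    have h3 : (X - δ - X) / (M - X) = -(δ / (M - X)) := by ring
    have h4 : δ / (M - X) ≤ δ / (M - 1) := div_le_div_of_nonneg_left hδ0 hM1 (by linarith)
    linarith
  · have t := el_tangent (x := X - δ) (c := 1) hM0 hs (by linarith)
    have h2 : ∑ y ∈ S, el M (r y) ≤ X * el M 1 := by
      rw [hX, sum_mul]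
      exact sum_le_sum fun y hy => el_chord (by linarith) (hS y hy).1 (hS y hy).2
    have h3 : (X - δ - 1) / (M - 1) = (X - 1) / (M - 1) - δ / (M - 1) := by ring
    have h4 : el M 1 ≤ 1 / (M - 1) := by
      have t2 := el_tangent (x := 0) (c := 1) hM0 hM0 (by linarith)
      rw [el_zero] at t2
      have : (0 - 1) / (M - 1) = -(1 / (M - 1)) := by ring
      linarith
    have h5 : (X - 1) * el M 1 ≤ (X - 1) * (1 / (M - 1)) :=
      mul_le_mul_of_nonneg_left h4 (by linarith)
    have h6 : (X - 1) * (1 / (M - 1)) = (X - 1) / (M - 1) := by ring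
    nlinarith

/-- **slot `0`** -/
theorem slot_zero {M : ℝ} (hM : 0 < M) {A S : Finset α} {r : α → ℝ}
    (hs : ∑ y ∈ S, r y - ∑ y ∈ A, (1 - r y) < M) :
    ∑ y ∈ S, r y / M - ∑ y ∈ A, (1 - r y) / M ≤
      el M (∑ y ∈ S, r y - ∑ y ∈ A, (1 - r y)) := by
  rw [← sum_div, ← sum_div, ← sub_div]
  exact div_le_el hM hs

/-- from the modulus `m` to the modulus `m - a` -/
theorem Lf_split {m : ℕ} {a s : ℝ} (ha : a < m) (hs : s < m) (hm : (0 : ℝ) < m) :
    Lf m s = Lf m a + el (m - a) (s - a) := by
  unfold Lf el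
  have h1 : 0 < 1 - a / (m : ℝ) := by rw [sub_pos, div_lt_one hm]; exact ha
  have h2 : 0 < 1 - s / (m : ℝ) := by rw [sub_pos, div_lt_one hm]; exact hs
  have h3 : (0 : ℝ) < m - a := by linarith
  have h4 : 1 - (s - a) / (m - a) = (1 - s / (m : ℝ)) / (1 - a / (m : ℝ)) := by
    have h5 : (1 - a / (m : ℝ)) = (m - a) / m := by field_simp
    have h6 : (1 - s / (m : ℝ)) = (m - s) / m := by field_simp
    rw [h5, h6]
    field_simp
    ring
  rw [h4, Real.log_div h2.ne' h1.ne']
  ring

/-- the Gibbs step: passed live elements are seen with weight one -/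
theorem slot_gibbs {m : ℕ} {s κ f : ℝ} (hm : (0 : ℝ) < m) (hs : 0 ≤ s) (hκ : 0 < κ)
    (hf : 0 ≤ f) (hfκ : f < κ) (hsκ : s + κ ≤ m) :
    Lf m (s + f) ≤ Lf m s + Real.log (κ / (κ - f)) := by
  unfold Lf
  have h1 : 0 < 1 - s / (m : ℝ) := by rw [sub_pos, div_lt_one hm]; linarith
  have h2 : 0 < 1 - (s + f) / (m : ℝ) := by rw [sub_pos, div_lt_one hm]; linarith
  have h3 : 0 < (κ - f) / κ := div_pos (by linarith) hκ
  have h4 : Real.log (κ / (κ - f)) = -Real.log ((κ - f) / κ) := by
    rw [← Real.log_inv, inv_div]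
  rw [h4]
  have h5 : (1 - s / (m : ℝ)) * ((κ - f) / κ) ≤ 1 - (s + f) / (m : ℝ) := by
    have h6 : 1 - (s + f) / (m : ℝ) - (1 - s / (m : ℝ)) * ((κ - f) / κ) =
        f * (m - κ - s) / (m * κ) := by
      field_simp
      ring
    have h7 : 0 ≤ f * (m - κ - s) / (m * κ) :=
      div_nonneg (mul_nonneg hf (by linarith)) (mul_nonneg hm.le hκ.le)
    linarith
  have h6 := Real.log_le_log (mul_pos h1 h3) h5
  rw [Real.log_mul h1.ne' h3.ne'] at h6
  linarith

end TS

end R5

end

section

/-!
# The functional of a light element (helper77)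
-/

namespace R5

namespace TS

open Finset T7

variable {α : Type} [DecidableEq α]

/-- number of levels `1 ≤ i < j` at which `y` has no edge exit -/
def dc (τ : Finset α → Lab) (y : α) (p : List α) (j : ℕ) : ℕ :=
  ((Ico 1 j).filter (fun i => τ (insert y (pre p i)) ≠ Lab.B)).card

theorem dc_snoc {τ : Finset α → Lab} {y x : α} {p : List α} {j : ℕ} (hj : j ≤ p.length + 1) :
    dc τ y (p ++ [x]) j = dc τ y p j := by
  unfold dc
  congr 1
  refine filter_congr fun i hi => ?_
  rw [mem_Ico] at hi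
  rw [pre_snoc (by omega)]

theorem dc_le (τ : Finset α → Lab) (y : α) (p : List α) (j : ℕ) : dc τ y p j ≤ j - 1 := by
  unfold dc
  refine (card_filter_le _ _).trans ?_
  rw [Nat.card_Ico]

theorem dc_succ (τ : Finset α → Lab) (y : α) (p : List α) {j : ℕ} (hj : 1 ≤ j) :
    dc τ y p (j + 1) = dc τ y p j + if τ (insert y (pre p j)) ≠ Lab.B then 1 else 0 := by
  unfold dc
  have e : Ico 1 (j + 1) = insert j (Ico 1 j) := by
    ext i
    simp only [mem_Ico, mem_insert]
    omega
  rw [e, filter_insert]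
  split_ifs with h
  · rw [card_insert_of_notMem]
    intro h2
    have := (mem_filter.1 h2).1
    rw [mem_Ico] at this
    omega
  · rfl

theorem dc_one (τ : Finset α → Lab) (y : α) (p : List α) : dc τ y p 1 = 0 := by
  have := dc_le τ y p 1
  omega

theorem dc_zero (τ : Finset α → Lab) (y : α) (p : List α) : dc τ y p 0 = 0 := by
  have := dc_le τ y p 0
  omega

/-- penalty of a live light at the level `W` -/
noncomputable def pnl (τ : Finset α → Lab) (ρ : α → ℝ) (V W : Finset α) (y : α) : ℝ :=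
  if y ∈ AL τ V W then
    (1 - ρ y) / (if W = ∅ then (V.card : ℝ) - (AL τ V W).card
      else (V.card : ℝ) - (AL τ V W).card - 1) else 0

theorem Lf_el (m : ℕ) (s : ℝ) : Lf m s = el (m : ℝ) s := rfl

/-- `λ - κ(r) ≤ (1-r)/(m-1)` -/
theorem lam_sub_le {m : ℕ} (hm : 2 ≤ m) {r : ℝ} (h1 : r ≤ 1) :
    lamn m - Lf m r ≤ (1 - r) / ((m : ℝ) - 1) := by
  have hmr : (2 : ℝ) ≤ m := by exact_mod_cast hm
  rw [← Lf_one hm, Lf_el, Lf_el]
  have := el_tangent (M := (m : ℝ)) (x := r) (c := 1) (by linarith) (by linarith) (by linarith)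
  have h2 : (r - 1) / ((m : ℝ) - 1) = -((1 - r) / ((m : ℝ) - 1)) := by ring
  linarith

theorem one_sub_le {r : ℝ} (h0 : 0 < r) : 1 - r ≤ -Real.log r := by
  have := Real.log_le_sub_one_of_pos h0
  linarith

/-- the scalar inequality of the lights -/
theorem light_scal {m t a N d : ℕ} {r : ℝ} (h0 : 0 < r) (h1 : r ≤ 1) (htm : t < m) (ha : 1 ≤ a)
    (hN : N + a + t ≤ m) (hd : d ≤ t - 1) :
    (N : ℝ) * ((1 - r) / (if t = 0 then (m : ℝ) - a else (m : ℝ) - a - 1)) +
      (lamn m - Lf m r) * d ≤ -Real.log r := by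
  have hq := one_sub_le h0
  have hNr : (N : ℝ) + a + t ≤ m := by exact_mod_cast hN
  have hN0 : (0 : ℝ) ≤ N := Nat.cast_nonneg _
  have ha1 : (1 : ℝ) ≤ a := by exact_mod_cast ha
  have e0 : 0 ≤ 1 - r := by linarith
  rcases Nat.eq_zero_or_pos t with ht | ht
  · have hd0 : d = 0 := by omega
    rw [if_pos ht, hd0, ht] at *
    simp only [Nat.cast_zero, mul_zero, add_zero] at *
    have h2 : (N : ℝ) * ((1 - r) / ((m : ℝ) - a)) ≤ 1 - r := by
      rcases eq_or_lt_of_le (by linarith : (0 : ℝ) ≤ (m : ℝ) - a) with h3 | h3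
      · rw [← h3, div_zero, mul_zero]
        exact e0
      · rw [mul_div_assoc', div_le_iff₀ h3]
        have : (N : ℝ) ≤ (m : ℝ) - a := by linarith
        nlinarith
    linarith
  · rw [if_neg (by omega)]
    have hm2 : 2 ≤ m := by omega
    have hmr : (2 : ℝ) ≤ m := by exact_mod_cast hm2
    have ht1 : (1 : ℝ) ≤ t := by exact_mod_cast ht
    have hdr : (d : ℝ) ≤ (t : ℝ) - 1 := by
      have : d + 1 ≤ t := by omega
      have : (d : ℝ) + 1 ≤ t := by exact_mod_cast this
      linarith
    have hd0 : (0 : ℝ) ≤ d := Nat.cast_nonneg _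
    have h2 : (lamn m - Lf m r) * d ≤ (1 - r) / ((m : ℝ) - 1) * ((t : ℝ) - 1) := by
      have h3 := lam_sub_le hm2 h1
      have h4 : 0 ≤ (1 - r) / ((m : ℝ) - 1) := div_nonneg e0 (by linarith)
      calc (lamn m - Lf m r) * d ≤ (1 - r) / ((m : ℝ) - 1) * d :=
            mul_le_mul_of_nonneg_right h3 hd0
        _ ≤ _ := mul_le_mul_of_nonneg_left hdr h4
    rcases eq_or_lt_of_le (by linarith : (0 : ℝ) ≤ (m : ℝ) - a - 1) with h3 | h3
    · -- `t = 1`, `N = 0`
      rw [← h3, div_zero, mul_zero]
      have : (t : ℝ) = 1 := by linarith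
      rw [this] at h2
      simp only [sub_self, mul_zero] at h2
      linarith
    · have h4 : (N : ℝ) * ((1 - r) / ((m : ℝ) - a - 1)) ≤
          (1 - r) * (1 - ((t : ℝ) - 1) / ((m : ℝ) - a - 1)) := by
        rw [mul_div_assoc', div_le_iff₀ h3]
        have h5 : (1 - r) * (1 - ((t : ℝ) - 1) / ((m : ℝ) - a - 1)) * ((m : ℝ) - a - 1) =
            (1 - r) * ((m : ℝ) - a - t) := by
          field_simp
          ring
        rw [h5]
        have : (N : ℝ) ≤ (m : ℝ) - a - t := by linarith
        nlinarith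
      have h5 : (1 - r) / ((m : ℝ) - 1) * ((t : ℝ) - 1) ≤
          (1 - r) * (((t : ℝ) - 1) / ((m : ℝ) - a - 1)) := by
        rw [div_mul_eq_mul_div, mul_div_assoc]
        apply mul_le_mul_of_nonneg_left _ e0
        exact div_le_div_of_nonneg_left (by linarith) h3 (by linarith)
      nlinarith

/-- the functional of a light element -/
noncomputable def LY (τ : Finset α → Lab) (ρ : α → ℝ) (V : Finset α) (y : α) (p : List α) : ℝ :=
  ∑ k ∈ range p.length,
    (iE τ p k * (if y ∈ nx p k then -Real.log (ρ y) -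
        (lamn V.card - Lf V.card (ρ y)) * dc τ y p k else 0) -
      (iA τ p (k + 1) + iX τ p k) * pnl τ ρ V (pre p k) y)

theorem LY_snoc {τ : Finset α → Lab} {ρ : α → ℝ} {V : Finset α} {y x : α} {p : List α}
    (hx : x ∉ p) :
    LY τ ρ V y (p ++ [x]) = LY τ ρ V y p + iA τ p p.length *
      ((if τ (insert x p.toFinset) = Lab.B then 1 else 0) * (if y = x then -Real.log (ρ y) -
        (lamn V.card - Lf V.card (ρ y)) * dc τ y p p.length else 0) -
      (if τ (insert x p.toFinset) = Lab.B then 0 else 1) * pnl τ ρ V p.toFinset y) := by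
  unfold LY
  rw [List.length_append, List.length_singleton, sum_range_succ]
  congr 1
  · refine sum_congr rfl fun k hk => ?_
    rw [mem_range] at hk
    rw [iE_snoc hk, nx_snoc hk, dc_snoc (by omega), iA_snoc (by omega), iX_snoc hk,
      pre_snoc hk.le]
  · rw [iE_snoc_last, nx_snoc_last hx, dc_snoc (by omega), iA_snoc_succ, iX_snoc_last,
      pre_snoc le_rfl, pre_length]
    simp only [mem_singleton]
    rcases hl : τ (insert x p.toFinset) with _ | _ | _ <;> simp <;> ring

theorem mem_AL {τ : Finset α → Lab} {V U : Finset α} {z : α} :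
    z ∈ AL τ V U ↔ (z ∈ V ∧ z ∉ U) ∧ τ {z} = Lab.B ∧ τ (insert z U) = Lab.B := by
  unfold AL
  rw [mem_filter, mem_sdiff]

/-- the average of the functional of a light element is not negative -/
theorem light_Av (τ : Finset α → Lab) (ρ : α → ℝ) (V : Finset α) (y : α)
    (hy : τ {y} = Lab.B) (hρ : 0 < ρ y ∧ ρ y ≤ 1) : 0 ≤ Av V (LY τ ρ V y) := by
  have h0 : LY τ ρ V y [] = 0 := by unfold LY; simp
  rw [← h0]
  apply step
  intro p hp hpV hl
  have hne : (V \ p.toFinset).Nonempty := by
    rw [← card_pos]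
    have h1 := card_sdiff_add_card_eq_card hpV
    rw [List.toFinset_card_of_nodup hp] at h1
    omega
  have hpos : (0 : ℝ) < ((V \ p.toFinset).card : ℝ) := by exact_mod_cast card_pos.2 hne
  rw [le_div_iff₀ hpos]
  have e1 : ∀ x ∈ V \ p.toFinset, LY τ ρ V y (p ++ [x]) = LY τ ρ V y p + iA τ p p.length *
      ((if τ (insert x p.toFinset) = Lab.B then 1 else 0) * (if y = x then -Real.log (ρ y) -
        (lamn V.card - Lf V.card (ρ y)) * dc τ y p p.length else 0) -
      (if τ (insert x p.toFinset) = Lab.B then 0 else 1) * pnl τ ρ V p.toFinset y) := by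
    intro x hx
    exact LY_snoc fun h => (mem_sdiff.1 hx).2 (List.mem_toFinset.2 h)
  rw [sum_congr rfl e1, sum_add_distrib, sum_const, nsmul_eq_mul, ← mul_sum]
  have hA := iA_nonneg τ p p.length
  suffices h : 0 ≤ ∑ x ∈ V \ p.toFinset,
      ((if τ (insert x p.toFinset) = Lab.B then (1 : ℝ) else 0) *
        (if y = x then -Real.log (ρ y) -
        (lamn V.card - Lf V.card (ρ y)) * dc τ y p p.length else 0) -
      (if τ (insert x p.toFinset) = Lab.B then 0 else 1) * pnl τ ρ V p.toFinset y) by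
    have := mul_nonneg hA h
    linarith [mul_comm (LY τ ρ V y p) ((V \ p.toFinset).card : ℝ)]
  rw [sum_sub_distrib, ← sum_mul]
  by_cases hyA : y ∈ AL τ V p.toFinset
  · have hyA' := mem_AL.1 hyA
    have e2 : ∑ x ∈ V \ p.toFinset, (if τ (insert x p.toFinset) = Lab.B then (1 : ℝ) else 0) *
        (if y = x then -Real.log (ρ y) -
        (lamn V.card - Lf V.card (ρ y)) * dc τ y p p.length else 0) = -Real.log (ρ y) -
        (lamn V.card - Lf V.card (ρ y)) * dc τ y p p.length := by
      rw [sum_eq_single y]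
      · rw [if_pos hyA'.2.2, if_pos rfl, one_mul]
      · intro x _ hxy
        have hyx : ¬ y = x := fun h => hxy h.symm
        rw [if_neg hyx, mul_zero]
      · intro h
        exact absurd (mem_sdiff.2 hyA'.1) h
    have e3 : ∑ x ∈ V \ p.toFinset, (if τ (insert x p.toFinset) = Lab.B then (0 : ℝ) else 1) =
        (((V \ p.toFinset).filter (fun x => ¬ τ (insert x p.toFinset) = Lab.B)).card : ℝ) := by
      rw [card_filter]
      push_cast
      refine sum_congr rfl fun x _ => ?_
      split_ifs <;> simp_all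
    rw [e2, e3]
    unfold pnl
    rw [if_pos hyA]
    have hN : ((V \ p.toFinset).filter (fun x => ¬ τ (insert x p.toFinset) = Lab.B)).card +
        (AL τ V p.toFinset).card + p.length ≤ V.card := by
      have h1 : (AL τ V p.toFinset).card ≤
          ((V \ p.toFinset).filter (fun x => τ (insert x p.toFinset) = Lab.B)).card := by
        apply card_le_card
        intro z hz
        have := mem_AL.1 hz
        exact mem_filter.2 ⟨mem_sdiff.2 this.1, this.2.2⟩
      have h2 := card_filter_add_card_filter_not (s := V \ p.toFinset)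
        (fun x => τ (insert x p.toFinset) = Lab.B)
      have h3 := card_sdiff_add_card_eq_card hpV
      rw [List.toFinset_card_of_nodup hp] at h3
      omega
    have h4 := light_scal (m := V.card) (t := p.length) (a := (AL τ V p.toFinset).card)
      (N := ((V \ p.toFinset).filter (fun x => ¬ τ (insert x p.toFinset) = Lab.B)).card)
      (d := dc τ y p p.length) hρ.1 hρ.2 hl (card_pos.2 ⟨y, hyA⟩) hN (dc_le _ _ _ _)
    have h5 : (p.toFinset = ∅) ↔ p.length = 0 := by
      rw [← card_eq_zero, List.toFinset_card_of_nodup hp]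
    rw [if_congr h5 rfl rfl]
    linarith
  · have e2 : ∑ x ∈ V \ p.toFinset, (if τ (insert x p.toFinset) = Lab.B then (1 : ℝ) else 0) *
        (if y = x then -Real.log (ρ y) -
        (lamn V.card - Lf V.card (ρ y)) * dc τ y p p.length else 0) = 0 := by
      apply sum_eq_zero
      intro x hx
      by_cases hxy : y = x
      · subst hxy
        have : ¬ τ (insert y p.toFinset) = Lab.B := by
          intro h
          exact hyA (mem_AL.2 ⟨mem_sdiff.1 hx, hy, h⟩)
        rw [if_neg this, zero_mul]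
      · rw [if_neg hxy, mul_zero]
    rw [e2]
    unfold pnl
    rw [if_neg hyA]
    simp

end TS

end R5

end

section

/-!
# Scalar steps of the functional of a heavy element (helper77)
-/

namespace R5

namespace TS

open Finset T7

/-- a level where `h` has no edge exit -/
theorem heavy_D {n N d t : ℕ} {c κ w : ℝ} (hn : 1 ≤ n) (hN : N ≤ n) (hc : 0 ≤ c)
    (hw : 0 ≤ w) (hκ : w ≤ κ) (ht : 1 ≤ t) :
    (d : ℝ) * κ - ((t : ℝ) - 1) * w ≤ (N : ℝ) * (c + d * κ) +
      ((n : ℝ) - N) * (((d + 1 : ℕ) : ℝ) * κ - t * w) / n := by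
  have hn1 : (1 : ℝ) ≤ n := by exact_mod_cast hn
  have hN1 : (N : ℝ) ≤ n := by exact_mod_cast hN
  have hN0 : (0 : ℝ) ≤ N := Nat.cast_nonneg _
  have hd0 : (0 : ℝ) ≤ d := Nat.cast_nonneg _
  have ht1 : (1 : ℝ) ≤ t := by exact_mod_cast ht
  have hκ0 : 0 ≤ κ := hw.trans hκ
  have hdκ : 0 ≤ (d : ℝ) * κ := mul_nonneg hd0 hκ0
  set T := (d : ℝ) * κ - ((t : ℝ) - 1) * w with hT
  have h1 : T ≤ ((d + 1 : ℕ) : ℝ) * κ - t * w := by
    push_cast
    nlinarith
  have h2 : T ≤ n * (c + d * κ) := by
    have h3 : 0 ≤ ((t : ℝ) - 1) * w := mul_nonneg (by linarith) hw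
    have h4 : 0 ≤ (n - 1) * (d * κ) + n * c :=
      add_nonneg (mul_nonneg (by linarith) hdκ) (mul_nonneg (by linarith) hc)
    nlinarith
  have h3 : T = (N : ℝ) / n * T + ((n : ℝ) - N) / n * T := by
    field_simp
    ring
  rw [h3]
  have h4 : (N : ℝ) / n * T ≤ (N : ℝ) * (c + d * κ) := by
    calc (N : ℝ) / n * T ≤ (N : ℝ) / n * (n * (c + d * κ)) :=
          mul_le_mul_of_nonneg_left h2 (div_nonneg hN0 (by linarith))
      _ = _ := by field_simp
  have h5 : ((n : ℝ) - N) / n * T ≤ ((n : ℝ) - N) * (((d + 1 : ℕ) : ℝ) * κ - t * w) / n := by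
    rw [div_mul_eq_mul_div]
    exact div_le_div_of_nonneg_right (mul_le_mul_of_nonneg_left h1 (by linarith)) (by linarith)
  linarith

/-- a level where `h` has an edge exit, other elements are left -/
theorem heavy_B {m n N a d t : ℕ} {c r : ℝ} (h0 : 0 < r) (h1 : r ≤ 1) (hn : 1 ≤ n)
    (hm : m = n + t + 1) (ht : 1 ≤ t) (haN : a ≤ N) (hN : N ≤ n) (hd : d + 1 ≤ t)
    (hc : r / ((m : ℝ) - a) ≤ c) :
    (d : ℝ) * Lf m r - ((t : ℝ) - 1) * (r / m) ≤
      (-Real.log r + (c + d * Lf m r) - lamn m * (((m : ℝ) - 1 - t) + d) - Lf m a) +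
      (N : ℝ) * (c + d * Lf m r) +
      ((n : ℝ) - N) * (el ((m : ℝ) - a) r + (d * Lf m r - t * (r / m)) / n) := by
  have hn1 : (1 : ℝ) ≤ n := by exact_mod_cast hn
  have hn0 : (0 : ℝ) < n := by linarith
  have haN' : (a : ℝ) ≤ N := by exact_mod_cast haN
  have hN1 : (N : ℝ) ≤ n := by exact_mod_cast hN
  have ha0 : (0 : ℝ) ≤ a := Nat.cast_nonneg _
  have hmr : (m : ℝ) = n + t + 1 := by exact_mod_cast hm
  have e1 : (m : ℝ) - 1 - t = n := by rw [hmr]; ring
  have e2 : (m : ℝ) - t = 1 + n := by rw [hmr]; ring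
  have i1 := SI.IS1 m t a d ht (by omega) (by omega) hd h0 h1
  have i2 := SI.IS2 m t a d ht (by omega) (by omega) hd h0 h1
  rw [e1, e2] at i1
  rw [e1] at i2
  have e3 : -Real.log (1 - r / ((m : ℝ) - a)) = el ((m : ℝ) - a) r := rfl
  rw [e3] at i2
  rw [e1]
  set κ := Lf m r with hκ
  set g := el ((m : ℝ) - a) r with hg
  set w := r / (m : ℝ) with hw
  set b := r / ((m : ℝ) - a) with hb
  set q := -Real.log r with hq
  set lm := lamn m with hlm
  -- the affine function of `N`
  have hcN : (1 + (N : ℝ)) * b ≤ (1 + (N : ℝ)) * c :=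
    mul_le_mul_of_nonneg_left hc (by linarith)
  have key : 0 ≤ q - Lf m a - lm * (n + d) + (1 + (N : ℝ)) * b + N * (d * κ) +
      ((n : ℝ) - N) * g + ((n : ℝ) - N) / n * (d * κ - t * w) + ((t : ℝ) - 1) * w := by
    rcases eq_or_lt_of_le (haN'.trans hN1) with han | han
    · -- `a = n`
      have hNn : (N : ℝ) = n := le_antisymm hN1 (han ▸ haN')
      rw [hNn]
      have : q - Lf m a - lm * (n + d) + (1 + (n : ℝ)) * b + n * (d * κ) +
          ((n : ℝ) - n) * g + ((n : ℝ) - n) / n * (d * κ - t * w) + ((t : ℝ) - 1) * w =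
          q - Lf m a - lm * n + (1 + (n : ℝ)) * b + ((t : ℝ) - 1) * w +
          d * (n * κ - lm) := by ring
      rw [this]
      exact i1
    · have hna : (0 : ℝ) < (n : ℝ) - a := by linarith
      have hlin : ((n : ℝ) - a) * (q - Lf m a - lm * (n + d) + (1 + (N : ℝ)) * b + N * (d * κ) +
          ((n : ℝ) - N) * g + ((n : ℝ) - N) / n * (d * κ - t * w) + ((t : ℝ) - 1) * w) =
          ((n : ℝ) - N) * (q - Lf m a - lm * n + (1 + (a : ℝ)) * b + ((n : ℝ) - a) * g -
            ((n : ℝ) - a) / n * (t * w) + ((t : ℝ) - 1) * w +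
            d * (κ * (a + ((n : ℝ) - a) / n) - lm)) +
          ((N : ℝ) - a) * (q - Lf m a - lm * n + (1 + (n : ℝ)) * b + ((t : ℝ) - 1) * w +
            d * (n * κ - lm)) := by
        field_simp
        ring
      have h3 := mul_nonneg (by linarith : (0 : ℝ) ≤ (n : ℝ) - N) i2
      have h4 := mul_nonneg (by linarith : (0 : ℝ) ≤ (N : ℝ) - a) i1
      by_contra hneg
      push Not at hneg
      have h5 := mul_neg_of_pos_of_neg hna hneg
      linarith
  have e4 : ((n : ℝ) - N) * (g + (d * κ - t * w) / n) =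
      ((n : ℝ) - N) * g + ((n : ℝ) - N) / n * (d * κ - t * w) := by
    field_simp
  rw [e4]
  nlinarith

/-- the last level -/
theorem heavy_L {m d : ℕ} {c r : ℝ} (h0 : 0 < r) (h1 : r ≤ 1) (hm : 2 ≤ m) (hd : d + 2 ≤ m)
    (hc : r / (m : ℝ) ≤ c) :
    (d : ℝ) * Lf m r - ((m : ℝ) - 2) * (r / m) ≤
      -Real.log r + (c + d * Lf m r) - lamn m * d := by
  have hmr : (2 : ℝ) ≤ m := by exact_mod_cast hm
  have hdr : (d : ℝ) + 2 ≤ m := by exact_mod_cast hd
  have hd0 : (0 : ℝ) ≤ d := Nat.cast_nonneg _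
  have hq := one_sub_le h0
  have hlam : lamn m ≤ 1 / ((m : ℝ) - 1) := by
    have h2 := lam_sub_le hm (r := 0) (by linarith)
    have h3 : Lf m 0 = 0 := by unfold Lf; simp
    rw [h3, sub_zero, sub_zero] at h2
    exact h2
  have hlam0 : 0 ≤ lamn m := (lamn_pos hm).le
  have h2 : lamn m * d ≤ 1 / ((m : ℝ) - 1) * ((m : ℝ) - 2) := by
    calc lamn m * d ≤ 1 / ((m : ℝ) - 1) * d := mul_le_mul_of_nonneg_right hlam hd0
      _ ≤ _ := mul_le_mul_of_nonneg_left (by linarith) (div_nonneg zero_le_one (by linarith))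
  have h3 : 1 / ((m : ℝ) - 1) * ((m : ℝ) - 2) ≤ 1 - 1 / m := by
    have h4 : (0 : ℝ) < (m : ℝ) - 1 := by linarith
    have h5 : (0 : ℝ) < m := by linarith
    rw [div_mul_eq_mul_div, one_mul, div_le_iff₀ h4]
    have h6 : (1 - 1 / (m : ℝ)) * ((m : ℝ) - 1) = (m : ℝ) - 2 + 1 / m := by
      field_simp
      ring
    rw [h6]
    have : (0 : ℝ) ≤ 1 / m := by positivity
    linarith
  have h4 : r / (m : ℝ) ≤ 1 / m := div_le_div_of_nonneg_right h1 (by linarith)
  have h5 : ((m : ℝ) - 2) * (r / m) + r / m = r - r / m := by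
    have h6 : (m : ℝ) ≠ 0 := by linarith
    field_simp
    ring
  linarith

end TS

end R5

end
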