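import Mathlib
import Pool.Agent.Work.MP_8b6acb_full.P15
import Pool.Agent.Work.MP_8b6acb_full.P17

section

/-!
# The functional of a heavy element (helper77)
-/

namespace R5

namespace TS

open Finset T7

variable {α : Type} [DecidableEq α]

/-- the slot `0` -/
noncomputable def c0 (τ : Finset α → Lab) (ρ : α → ℝ) (V : Finset α) (h : α) : ℝ :=
  ρ h / ((V.card : ℝ) - (AL τ V ∅).card)

/-- what an exit at level `k` pays -/
noncomputable def Cx (τ : Finset α → Lab) (ρ : α → ℝ) (V : Finset α) (h : α) (p : List α)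
    (k : ℕ) : ℝ :=
  (if k = 0 then 0 else c0 τ ρ V h) + (dc τ h p k : ℝ) * Lf V.card (ρ h)

/-- the demand at the own exit -/
noncomputable def Dx (τ : Finset α → Lab) (V : Finset α) (h : α) (p : List α) (k : ℕ) : ℝ :=
  lamn V.card * (((V.card : ℝ) - 1 - k) + dc τ h p k) + Lf V.card (AL τ V (pre p k)).card

/-- live view -/
noncomputable def Wx (τ : Finset α → Lab) (ρ : α → ℝ) (V U : Finset α) (h : α) : ℝ :=
  if h ∉ U ∧ U ≠ ∅ ∧ τ (insert h U) = Lab.B then
    el ((V.card : ℝ) - (AL τ V U).card) (ρ h) else 0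

/-- the part of the functional of a heavy element that remains at the end -/
noncomputable def HY (τ : Finset α → Lab) (ρ : α → ℝ) (V : Finset α) (h : α) (p : List α) : ℝ :=
  ∑ k ∈ range p.length,
    (iE τ p k * (if h ∈ pre p k then 0 else if h ∈ nx p k then
        -Real.log (ρ h) + Cx τ ρ V h p k - Dx τ V h p k else Cx τ ρ V h p k) +
      iX τ p k * (if h ∈ pre p (k + 1) then 0 else Cx τ ρ V h p k) +
      iA τ p (k + 1) * Wx τ ρ V (pre p k) h)

/-- the potential -/
noncomputable def Pot (τ : Finset α → Lab) (ρ : α → ℝ) (V : Finset α) (h : α) (p : List α) : ℝ :=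
  if h ∈ p.toFinset ∨ p.length = 0 then 0 else
    ((dc τ h p p.length : ℝ) * Lf V.card (ρ h) - ((p.length : ℝ) - 1) * (ρ h / V.card)) /
      ((V.card : ℝ) - p.length)

theorem HY_snoc {τ : Finset α → Lab} {ρ : α → ℝ} {V : Finset α} {h x : α} {p : List α}
    (hx : x ∉ p) :
    HY τ ρ V h (p ++ [x]) = HY τ ρ V h p + iA τ p p.length *
      ((if τ (insert x p.toFinset) = Lab.B then 1 else 0) *
        (if h ∈ p.toFinset then 0 else if h = x then
          -Real.log (ρ h) + Cx τ ρ V h p p.length - Dx τ V h p p.length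
          else Cx τ ρ V h p p.length) +
      (if τ (insert x p.toFinset) = Lab.X then 1 else 0) *
        (if h ∈ insert x p.toFinset then 0 else Cx τ ρ V h p p.length) +
      (if τ (insert x p.toFinset) = Lab.A then 1 else 0) * Wx τ ρ V p.toFinset h) := by
  unfold HY
  rw [List.length_append, List.length_singleton, sum_range_succ]
  congr 1
  · refine sum_congr rfl fun k hk => ?_
    rw [mem_range] at hk
    unfold Cx Dx
    rw [iE_snoc hk, nx_snoc hk, dc_snoc (by omega), iA_snoc (by omega), iX_snoc hk,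
      pre_snoc hk.le, pre_snoc (by omega)]
  · unfold Cx Dx
    rw [iE_snoc_last, nx_snoc_last hx, dc_snoc (by omega), iA_snoc_succ, iX_snoc_last,
      pre_snoc le_rfl, pre_length, pre_snoc_succ]
    simp only [mem_singleton]
    ring

theorem Pot_snoc {τ : Finset α → Lab} {ρ : α → ℝ} {V : Finset α} {h x : α} {p : List α} :
    Pot τ ρ V h (p ++ [x]) = if h ∈ insert x p.toFinset then 0 else
      ((dc τ h p (p.length + 1) : ℝ) * Lf V.card (ρ h) - (p.length : ℝ) * (ρ h / V.card)) /
        ((V.card : ℝ) - p.length - 1) := by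
  unfold Pot
  have e1 : (p ++ [x]).toFinset = insert x p.toFinset := by
    rw [List.toFinset_append, List.toFinset_cons, List.toFinset_nil, union_comm]
    rfl
  rw [e1, List.length_append, List.length_singleton, dc_snoc le_rfl]
  have e2 : ¬ (p.length + 1 = 0) := by omega
  simp only [e2, or_false]
  split_ifs
  · rfl
  · push_cast
    congr 1 <;> ring

/-- the average of the functional of a heavy element is not negative -/
theorem heavy_Av (τ : Finset α → Lab) (ρ : α → ℝ) (V : Finset α) (h : α) (hV : τ V = Lab.B)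
    (hhV : h ∈ V) (hh : τ {h} ≠ Lab.B) (hρ : 0 < ρ h ∧ ρ h ≤ 1) : 0 ≤ Av V (HY τ ρ V h) := by
  set Ψ : List α → ℝ := fun p => HY τ ρ V h p + iA τ p p.length * Pot τ ρ V h p with hΨ
  have hs0 : Ψ [] = 0 := by
    rw [hΨ]
    unfold HY Pot
    simp
  have hend : Av V Ψ = Av V (HY τ ρ V h) := by
    refine Av_congr fun π hπ => ?_
    rw [hΨ]
    have h1 : iA τ π π.length = 0 := by
      rw [length_of_mem hπ]
      exact iA_top (by rw [hV]; decide) hπ le_rfl
    simp only [h1, zero_mul, add_zero]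
  rw [← hend, ← hs0]
  apply step
  intro p hp hpV hl
  have hcardU : p.toFinset.card = p.length := List.toFinset_card_of_nodup hp
  have hcard : (V \ p.toFinset).card + p.length = V.card := by
    have h1 := card_sdiff_add_card_eq_card hpV
    rwa [hcardU] at h1
  have hne : (V \ p.toFinset).Nonempty := card_pos.1 (by omega)
  have hpos : (0 : ℝ) < ((V \ p.toFinset).card : ℝ) := by exact_mod_cast card_pos.2 hne
  rw [le_div_iff₀ hpos]
  set U := p.toFinset with hU
  set t := p.length with ht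
  -- the new terms
  set nw : α → ℝ := fun x =>
      (if τ (insert x U) = Lab.B then 1 else 0) *
        (if h ∈ U then 0 else if h = x then
          -Real.log (ρ h) + Cx τ ρ V h p t - Dx τ V h p t else Cx τ ρ V h p t) +
      (if τ (insert x U) = Lab.X then 1 else 0) *
        (if h ∈ insert x U then 0 else Cx τ ρ V h p t) +
      (if τ (insert x U) = Lab.A then 1 else 0) * (Wx τ ρ V U h +
        (if h ∈ insert x U then 0 else
          ((dc τ h p (t + 1) : ℝ) * Lf V.card (ρ h) - (t : ℝ) * (ρ h / V.card)) /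
            ((V.card : ℝ) - t - 1))) with hnw
  have e1 : ∀ x ∈ V \ U, Ψ (p ++ [x]) = HY τ ρ V h p + iA τ p t * nw x := by
    intro x hx
    have hx' : x ∉ p := fun h => (mem_sdiff.1 hx).2 (List.mem_toFinset.2 h)
    rw [hΨ, hnw]
    simp only []
    rw [HY_snoc hx', Pot_snoc, List.length_append, List.length_singleton, iA_snoc_succ]
    ring
  rw [sum_congr rfl e1, sum_add_distrib, sum_const, nsmul_eq_mul, ← mul_sum]
  have hA := iA_nonneg τ p t
  suffices hsuf : Pot τ ρ V h p * ((V \ U).card : ℝ) ≤ ∑ x ∈ V \ U, nw x by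
    have h1 := mul_le_mul_of_nonneg_left hsuf hA
    have h2 : Ψ p = HY τ ρ V h p + iA τ p t * Pot τ ρ V h p := rfl
    rw [h2]
    nlinarith
  by_cases hhU : h ∈ U
  · -- `h` is gone
    have h1 : Pot τ ρ V h p = 0 := by
      unfold Pot
      rw [if_pos (Or.inl hhU)]
    rw [h1, zero_mul]
    apply sum_nonneg
    intro x _
    rw [hnw]
    simp only []
    have h2 : Wx τ ρ V U h = 0 := by
      unfold Wx
      rw [if_neg (fun h3 => h3.1 hhU)]
    rw [if_pos hhU, if_pos (mem_insert_of_mem hhU), if_pos (mem_insert_of_mem hhU), h2]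
    simp
  · have hhm : h ∈ V \ U := mem_sdiff.2 ⟨hhV, hhU⟩
    have hins : ∀ x ∈ (V \ U).erase h, h ∉ insert x U := by
      intro x hx h1
      rcases mem_insert.1 h1 with h2 | h2
      · exact (mem_erase.1 hx).1 h2.symm
      · exact hhU h2
    have hcE : ((V \ U).erase h).card + 1 + t = V.card := by
      rw [card_erase_of_mem hhm]
      have := card_pos.2 hne
      omega
    set n := ((V \ U).erase h).card with hn
    set N := (((V \ U).erase h).filter (fun x => τ (insert x U) ≠ Lab.A)).card with hN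
    have hNn : N ≤ n := card_filter_le _ _
    set C := Cx τ ρ V h p t with hC
    set P := ((dc τ h p (t + 1) : ℝ) * Lf V.card (ρ h) - (t : ℝ) * (ρ h / V.card)) /
            ((V.card : ℝ) - t - 1) with hP
    -- the others
    have e2 : ∑ x ∈ (V \ U).erase h, nw x = (N : ℝ) * C + ((n : ℝ) - N) * (Wx τ ρ V U h + P) := by
      have h1 : ∀ x ∈ (V \ U).erase h, nw x =
          if τ (insert x U) ≠ Lab.A then C else Wx τ ρ V U h + P := by
        intro x hx
        have hhx : ¬ h = x := fun h2 => (mem_erase.1 hx).1 h2.symm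
        rw [hnw]
        simp only []
        rw [if_neg hhU, if_neg hhx, if_neg (hins x hx), if_neg (hins x hx)]
        rcases hl : τ (insert x U) with _ | _ | _ <;> simp
      rw [sum_congr rfl h1, sum_ite, sum_const, sum_const, nsmul_eq_mul, nsmul_eq_mul]
      have h2 := card_filter_add_card_filter_not (s := (V \ U).erase h)
        (fun x => τ (insert x U) ≠ Lab.A)
      have h3 : ((((V \ U).erase h).filter (fun x => ¬ τ (insert x U) ≠ Lab.A)).card : ℝ) =
          (n : ℝ) - N := by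
        have : (N : ℝ) + ((((V \ U).erase h).filter
          (fun x => ¬ τ (insert x U) ≠ Lab.A)).card : ℝ) = n := by exact_mod_cast h2
        linarith
      rw [h3]
    rw [← add_sum_erase _ _ hhm, e2]
    -- the own term
    have hm0 : (0 : ℝ) < V.card := by exact_mod_cast (by omega : 0 < V.card)
    have haA : (AL τ V U).card ≤ N := by
      apply card_le_card
      intro z hz
      have hz' := mem_AL.1 hz
      refine mem_filter.2 ⟨mem_erase.2 ⟨?_, mem_sdiff.2 hz'.1⟩, by rw [hz'.2.2]; decide⟩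
      rintro rfl
      exact hh hz'.2.1
    have ha0 : (AL τ V U).card ≤ (AL τ V ∅).card := by
      apply card_le_card
      intro z hz
      have hz' := mem_AL.1 hz
      exact mem_AL.2 ⟨⟨hz'.1.1, notMem_empty _⟩, hz'.2.1, by
        have : insert z (∅ : Finset α) = {z} := rfl
        rw [this]; exact hz'.2.1⟩
    have ha0m : (AL τ V ∅).card + 1 ≤ V.card := by
      have h1 : AL τ V ∅ ⊆ V.erase h := by
        intro z hz
        have hz' := mem_AL.1 hz
        refine mem_erase.2 ⟨?_, hz'.1.1⟩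
        rintro rfl
        exact hh hz'.2.1
      have h2 := card_le_card h1
      rw [card_erase_of_mem hhV] at h2
      have := card_pos.2 ⟨h, hhV⟩
      omega
    have ha0r : (0 : ℝ) < (V.card : ℝ) - (AL τ V ∅).card := by
      have : ((AL τ V ∅).card : ℝ) + 1 ≤ V.card := by exact_mod_cast ha0m
      linarith
    have hc0 : 0 ≤ c0 τ ρ V h := div_nonneg hρ.1.le ha0r.le
    have hc0a : ρ h / ((V.card : ℝ) - (AL τ V U).card) ≤ c0 τ ρ V h := by
      unfold c0
      apply div_le_div_of_nonneg_left hρ.1.le ha0r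
      have : ((AL τ V U).card : ℝ) ≤ (AL τ V ∅).card := by exact_mod_cast ha0
      linarith
    have hc0m : ρ h / (V.card : ℝ) ≤ c0 τ ρ V h := by
      unfold c0
      apply div_le_div_of_nonneg_left hρ.1.le ha0r
      have : (0 : ℝ) ≤ (AL τ V ∅).card := Nat.cast_nonneg _
      linarith
    have hcr : ((V \ U).card : ℝ) = (V.card : ℝ) - t := by
      have : ((V \ U).card : ℝ) + t = V.card := by exact_mod_cast hcard
      linarith
    rcases Nat.eq_zero_or_pos t with ht0 | ht0
    · -- level 0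
      have hU0 : U = ∅ := by
        rw [← card_eq_zero, hcardU, ht0]
      have h1 : Pot τ ρ V h p = 0 := by
        unfold Pot
        rw [if_pos (Or.inr ht0)]
      have h2 : C = 0 := by
        rw [hC]
        unfold Cx
        rw [if_pos ht0, ht0, dc_zero]
        simp
      have h3 : Wx τ ρ V U h = 0 := by
        unfold Wx
        rw [if_neg (fun h4 => h4.2.1 hU0)]
      have h4 : P = 0 := by
        rw [hP, ht0, zero_add, dc_one]
        simp
      have h5 : nw h = 0 := by
        rw [hnw]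
        simp only []
        have h6 : ¬ τ (insert h U) = Lab.B := by
          rw [hU0]
          exact hh
        rw [if_neg h6, if_pos (mem_insert_self _ _), if_pos (mem_insert_self _ _), h3]
        simp
      rw [h1, h2, h3, h4, h5]
      simp
    · have hPot : Pot τ ρ V h p * ((V \ U).card : ℝ) =
          (dc τ h p t : ℝ) * Lf V.card (ρ h) - ((t : ℝ) - 1) * (ρ h / V.card) := by
        unfold Pot
        rw [if_neg (by push Not; exact ⟨hhU, by omega⟩), hcr]
        rw [hcr] at hpos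
        exact div_mul_cancel₀ _ hpos.ne'
      rw [hPot]
      have hdt : dc τ h p t + 1 ≤ t := by
        have := dc_le τ h p t
        omega
      have hCe : C = c0 τ ρ V h + (dc τ h p t : ℝ) * Lf V.card (ρ h) := by
        rw [hC]
        unfold Cx
        rw [if_neg (by omega)]
      have hUne : U ≠ ∅ := by
        intro h1
        rw [← card_eq_zero, hcardU] at h1
        omega
      have hnr : (V.card : ℝ) - t - 1 = n := by
        have : (n : ℝ) + 1 + t = V.card := by exact_mod_cast hcE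
        linarith
      have hpt : pre p t = U := pre_length p
      by_cases hB : τ (insert h U) = Lab.B
      · -- edge exit of `h`
        have h5 : nw h = -Real.log (ρ h) + C - Dx τ V h p t := by
          rw [hnw]
          simp only []
          rw [if_pos hB, if_neg hhU, hB]
          simp
        have h6 : Wx τ ρ V U h = el ((V.card : ℝ) - (AL τ V U).card) (ρ h) := by
          unfold Wx
          rw [if_pos ⟨hhU, hUne, hB⟩]
        have h7 : dc τ h p (t + 1) = dc τ h p t := by
          rw [dc_succ τ h p ht0, hpt, if_neg (by rw [hB]; simp)]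
          rfl
        have h8 : Dx τ V h p t = lamn V.card * (((V.card : ℝ) - 1 - t) + dc τ h p t) +
            Lf V.card (AL τ V U).card := by
          unfold Dx
          rw [hpt]
        rw [h5, h6, hP, h7, h8, hCe, hnr]
        rcases Nat.eq_zero_or_pos n with hn0 | hn0
        · -- last level
          have hN0 : N = 0 := by omega
          have ha : (AL τ V U).card = 0 := by omega
          rw [hn0, hN0, ha]
          have h9 : (V.card : ℝ) - 1 - t = 0 := by
            have : (n : ℝ) = 0 := by rw [hn0]; simp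
            linarith
          have h10 : (t : ℝ) - 1 = (V.card : ℝ) - 2 := by linarith
          have h11 := heavy_L (m := V.card) (d := dc τ h p t) hρ.1 hρ.2 (by omega) (by omega) hc0m
          have h12 : Lf V.card ((0 : ℕ) : ℝ) = 0 := by unfold Lf; simp
          rw [h9, h10, h12]
          simp only [Nat.cast_zero, zero_mul, sub_self, add_zero, zero_add]
          linarith
        · have h11 := heavy_B (m := V.card) (n := n) (N := N) (a := (AL τ V U).card)
            (d := dc τ h p t) (t := t) hρ.1 hρ.2 hn0 (by omega) ht0 haA hNn hdt hc0a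
          linarith
      · -- no edge exit of `h`
        have h5 : 0 ≤ nw h := by
          rw [hnw]
          simp only []
          have h6 : Wx τ ρ V U h = 0 := by
            unfold Wx
            rw [if_neg (fun h7 => hB h7.2.2)]
          rw [if_neg hB, if_pos (mem_insert_self _ _), if_pos (mem_insert_self _ _), h6]
          simp
        have h6 : Wx τ ρ V U h = 0 := by
          unfold Wx
          rw [if_neg (fun h7 => hB h7.2.2)]
        have h7 : dc τ h p (t + 1) = dc τ h p t + 1 := by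
          rw [dc_succ τ h p ht0, hpt, if_pos hB]
        have hn0 : 1 ≤ n := by
          by_contra hn0
          have hn00 : (V \ U).erase h = ∅ := card_eq_zero.1 (by omega)
          apply hB
          have : insert h U = V := by
            ext z
            rw [mem_insert]
            constructor
            · rintro (h8 | h8)
              · rw [h8]; exact hhV
              · exact hpV h8
            · intro h8
              by_cases hz : z ∈ U
              · exact Or.inr hz
              · left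
                by_contra hzh
                have : z ∈ (V \ U).erase h := mem_erase.2 ⟨hzh, mem_sdiff.2 ⟨h8, hz⟩⟩
                rw [hn00] at this
                exact notMem_empty _ this
          rw [this, hV]
        have h8 := heavy_D (n := n) (N := N) (d := dc τ h p t) (t := t) (c := c0 τ ρ V h)
          (κ := Lf V.card (ρ h)) (w := ρ h / V.card) hn0 hNn hc0
          (div_nonneg hρ.1.le hm0.le) (div_le_el hm0 (by
            have h9 : (2 : ℝ) ≤ V.card := by exact_mod_cast (by omega : 2 ≤ V.card)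
            linarith [hρ.2])) ht0
        rw [h6, hP, h7, hCe, hnr, zero_add]
        have h9 : ((n : ℝ) - N) * ((((dc τ h p t + 1 : ℕ) : ℝ) * Lf V.card (ρ h) -
            t * (ρ h / V.card)) / n) = ((n : ℝ) - N) * (((dc τ h p t + 1 : ℕ) : ℝ) *
            Lf V.card (ρ h) - t * (ρ h / V.card)) / n := by ring
        rw [h9]
        linarith

end TS

end R5

end

section

/-!
# One slot of the set kernel (helper77)
-/

namespace R5

namespace TS

open Finset T7

variable {α : Type} [DecidableEq α]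

/-- the visible elements which are no live lights -/
def SV (τ : Finset α → Lab) (V O W : Finset α) : Finset α := ((V \ O) ∪ fin τ O W) \ AL τ V W

/-- what is seen of `y` -/
noncomputable def vs (τ : Finset α → Lab) (ρ : α → ℝ) (V W : Finset α) (y : α) : ℝ :=
  if W = ∅ then ρ y / ((V.card : ℝ) - (AL τ V W).card)
  else el ((V.card : ℝ) - (AL τ V W).card) (ρ y)

theorem AL_sub_vis {τ : Finset α → Lab} {V O W : Finset α} :
    AL τ V W ⊆ (V \ O) ∪ fin τ O W := by
  intro z hz
  have hz' := mem_AL.1 hz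
  by_cases hO : z ∈ O
  · apply mem_union_right
    unfold fin
    rw [mem_filter, mem_sdiff]
    exact ⟨⟨hO, hz'.1.2⟩, by rw [hz'.2.2]; decide⟩
  · exact mem_union_left _ (mem_sdiff.2 ⟨hz'.1.1, hO⟩)

theorem sum_pnl (τ : Finset α → Lab) (ρ : α → ℝ) (V W : Finset α) :
    ∑ y ∈ V, pnl τ ρ V W y = ∑ y ∈ AL τ V W, (1 - ρ y) /
      (if W = ∅ then (V.card : ℝ) - (AL τ V W).card
        else (V.card : ℝ) - (AL τ V W).card - 1) := by
  unfold pnl
  rw [← sum_filter]
  refine sum_congr ?_ fun _ _ => rfl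
  ext z
  rw [mem_filter]
  exact ⟨fun h => h.2, fun h => ⟨(mem_AL.1 h).1.1, h⟩⟩

/-- the tangent step for a visible set `S ∪ AL` -/
theorem slot_tan (τ : Finset α → Lab) (ρ : α → ℝ) {V W S : Finset α} {s : ℝ}
    (hρ : ∀ x ∈ V, 0 < ρ x ∧ ρ x ≤ 1) (hS : S ⊆ V)
    (ha : (AL τ V W).card + 1 ≤ V.card) (ha2 : W ≠ ∅ → (AL τ V W).card + 2 ≤ V.card)
    (hs : ∑ y ∈ S, ρ y + ∑ y ∈ AL τ V W, ρ y ≤ s) (hsm : s < V.card) :
    Lf V.card (AL τ V W).card + ∑ y ∈ S, vs τ ρ V W y - ∑ y ∈ V, pnl τ ρ V W y ≤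
      Lf V.card s := by
  set a := (AL τ V W).card with hadef
  have har : (a : ℝ) + 1 ≤ V.card := by exact_mod_cast ha
  have hm0 : (0 : ℝ) < V.card := by have : (0 : ℝ) ≤ a := Nat.cast_nonneg _; linarith
  set X := ∑ y ∈ S, ρ y with hX
  set δ := ∑ y ∈ AL τ V W, (1 - ρ y) with hδ
  have e1 : ∑ y ∈ AL τ V W, ρ y = a - δ := by
    rw [hδ, sum_sub_distrib, sum_const, nsmul_eq_mul, mul_one]
    ring
  rw [e1] at hs
  have h1 : (a : ℝ) + (X - δ) ≤ s := by linarith
  have h2 : Lf V.card ((a : ℝ) + (X - δ)) ≤ Lf V.card s := Lf_mono h1 hsm hm0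
  have h3 := Lf_split (m := V.card) (a := (a : ℝ)) (s := (a : ℝ) + (X - δ)) (by linarith)
    (by linarith) hm0
  have h4 : (a : ℝ) + (X - δ) - a = X - δ := by ring
  rw [h4] at h3
  rw [sum_pnl, ← hadef]
  by_cases hW : W = ∅
  · simp only [if_pos hW]
    have h5 := slot_zero (M := (V.card : ℝ) - a) (by linarith) (A := AL τ V W) (S := S) (r := ρ)
      (by rw [← hX, ← hδ]; linarith)
    rw [← hX, ← hδ] at h5
    have h6 : ∑ y ∈ S, vs τ ρ V W y = ∑ y ∈ S, ρ y / ((V.card : ℝ) - a) := by
      refine sum_congr rfl fun y _ => ?_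
      unfold vs
      rw [if_pos hW]
    rw [h6]
    linarith
  · simp only [if_neg hW]
    have ha2r : (a : ℝ) + 2 ≤ V.card := by exact_mod_cast ha2 hW
    have h5 := slot_one (M := (V.card : ℝ) - a) (by linarith) (A := AL τ V W) (S := S) (r := ρ)
      (fun y hy => (hρ y (mem_AL.1 hy).1.1).2)
      (fun y hy => ⟨(hρ y (hS hy)).1.le, (hρ y (hS hy)).2⟩)
      (by rw [← hX, ← hδ]; linarith)
    rw [← hX, ← hδ] at h5
    have h6 : ∑ y ∈ S, vs τ ρ V W y = ∑ y ∈ S, el ((V.card : ℝ) - a) (ρ y) := by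
      refine sum_congr rfl fun y _ => ?_
      unfold vs
      rw [if_neg hW]
    rw [h6]
    linarith

/-- **a slot below the object** -/
theorem levF (τ : Finset α → Lab) (ρ : α → ℝ) {V O W : Finset α}
    (hρ : ∀ x ∈ V, 0 < ρ x ∧ ρ x ≤ 1) (hO : O ⊆ V) (hW : W ⊆ O)
    (hF : (fin τ O W).card + W.card < O.card) :
    Lf V.card (AL τ V W).card + ∑ y ∈ SV τ V O W, vs τ ρ V W y - ∑ y ∈ V, pnl τ ρ V W y ≤
      Lf V.card (∑ x ∈ V \ O, ρ x) + Real.log (((O.card : ℝ) - W.card) /
        ((O.card : ℝ) - W.card - ((fin τ O W).card : ℝ))) := by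
  have hFO : fin τ O W ⊆ O := (filter_subset _ _).trans sdiff_subset
  have hdis : Disjoint (V \ O) (fin τ O W) :=
    disjoint_of_subset_right hFO sdiff_disjoint
  have hcVO : (V \ O).card + O.card = V.card := card_sdiff_add_card_eq_card hO
  have hcVOr : ((V \ O).card : ℝ) + O.card = V.card := by exact_mod_cast hcVO
  have hFr : ((fin τ O W).card : ℝ) + W.card < O.card := by exact_mod_cast hF
  have hF0 : (0 : ℝ) ≤ (fin τ O W).card := Nat.cast_nonneg _
  have hW0 : (0 : ℝ) ≤ W.card := Nat.cast_nonneg _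
  have hO0 : (0 : ℝ) ≤ (V \ O).card := Nat.cast_nonneg _
  have hmass : ∑ x ∈ V \ O, ρ x ≤ ((V \ O).card : ℝ) := by
    have := sum_le_sum (fun x hx => (hρ x (mem_sdiff.1 hx).1).2 : ∀ x ∈ V \ O, ρ x ≤ 1)
    rwa [sum_const, nsmul_eq_mul, mul_one] at this
  have hmass0 : 0 ≤ ∑ x ∈ V \ O, ρ x :=
    sum_nonneg fun x hx => (hρ x (mem_sdiff.1 hx).1).1.le
  have hFm : ∑ x ∈ fin τ O W, ρ x ≤ ((fin τ O W).card : ℝ) := by
    have := sum_le_sum (fun x hx => (hρ x (hO (hFO hx))).2 : ∀ x ∈ fin τ O W, ρ x ≤ 1)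
    rwa [sum_const, nsmul_eq_mul, mul_one] at this
  have hm0 : (0 : ℝ) < V.card := by linarith
  have hg := slot_gibbs (m := V.card) (s := ∑ x ∈ V \ O, ρ x) (κ := (O.card : ℝ) - W.card)
    (f := (fin τ O W).card) hm0 hmass0 (by linarith) hF0 (by linarith) (by linarith)
  refine le_trans ?_ hg
  -- cardinality of the live lights
  have hAcard : (AL τ V W).card + W.card + 1 ≤ V.card := by
    have h1 : (AL τ V W).card ≤ ((V \ O) ∪ fin τ O W).card := card_le_card AL_sub_vis
    rw [card_union_of_disjoint hdis] at h1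
    omega
  apply slot_tan τ ρ hρ _ (by omega) _ _ _
  · unfold SV
    intro z hz
    rcases mem_union.1 (mem_sdiff.1 hz).1 with h1 | h1
    · exact (mem_sdiff.1 h1).1
    · exact hO (hFO h1)
  · intro hWne
    have := card_pos.2 (nonempty_iff_ne_empty.2 hWne)
    omega
  · have h1 : ∑ y ∈ SV τ V O W, ρ y + ∑ y ∈ AL τ V W, ρ y =
        ∑ y ∈ (V \ O) ∪ fin τ O W, ρ y := by
      unfold SV
      exact sum_sdiff AL_sub_vis
    rw [h1, sum_union hdis]
    linarith
  · linarith

/-- **the last slot of a vertex** -/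
theorem levX (τ : Finset α → Lab) (ρ : α → ℝ) {V O W : Finset α}
    (hρ : ∀ x ∈ V, 0 < ρ x ∧ ρ x ≤ 1) (hO : O ⊆ V) (hW : W.card + 1 = O.card)
    (hA : AL τ V W ⊆ V \ O) :
    Lf V.card (AL τ V W).card - ∑ y ∈ V, pnl τ ρ V W y ≤ Lf V.card (∑ x ∈ V \ O, ρ x) := by
  have hcVO : (V \ O).card + O.card = V.card := card_sdiff_add_card_eq_card hO
  have hcVOr : ((V \ O).card : ℝ) + O.card = V.card := by exact_mod_cast hcVO
  have hAc := card_le_card hA
  have hmass : ∑ x ∈ V \ O, ρ x ≤ ((V \ O).card : ℝ) := by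
    have := sum_le_sum (fun x hx => (hρ x (mem_sdiff.1 hx).1).2 : ∀ x ∈ V \ O, ρ x ≤ 1)
    rwa [sum_const, nsmul_eq_mul, mul_one] at this
  have hO1 : (1 : ℝ) ≤ O.card := by exact_mod_cast (by omega : 1 ≤ O.card)
  have h1 := slot_tan τ ρ (V := V) (W := W) (S := ∅) (s := ∑ x ∈ V \ O, ρ x) hρ
    (empty_subset _) (by omega) (by
      intro hWne
      have := card_pos.2 (nonempty_iff_ne_empty.2 hWne)
      omega) (by
      rw [sum_empty, zero_add]
      exact sum_le_sum_of_subset_of_nonneg hA fun x hx _ => (hρ x (mem_sdiff.1 hx).1).1.le)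
    (by linarith)
  rw [sum_empty, add_zero] at h1
  exact h1

theorem vs_nonneg {τ : Finset α → Lab} {ρ : α → ℝ} {V W : Finset α} {y : α}
    (hρ : 0 < ρ y ∧ ρ y ≤ 1) (ha : (AL τ V W).card + 1 ≤ V.card)
    (ha2 : W ≠ ∅ → (AL τ V W).card + 2 ≤ V.card) : 0 ≤ vs τ ρ V W y := by
  have har : ((AL τ V W).card : ℝ) + 1 ≤ V.card := by exact_mod_cast ha
  unfold vs
  split_ifs with hW
  · exact div_nonneg hρ.1.le (by linarith)
  · have ha2r : ((AL τ V W).card : ℝ) + 2 ≤ V.card := by exact_mod_cast ha2 hW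
    exact el_nonneg hρ.1.le (by linarith [hρ.2])

end TS

end R5

end

section

/-!
# The pointwise slot inequality of a full order (helper77)
-/

namespace R5

namespace TS

open Finset T7

variable {α : Type} [DecidableEq α]

theorem pre_succ_eq {V : Finset α} {π : List α} (hπ : π ∈ seqs V.card V) {j : ℕ}
    (hj : j < V.card) : ∃ x, x ∈ V ∧ x ∉ pre π j ∧ nx π j = {x} ∧
      pre π (j + 1) = insert x (pre π j) := by
  obtain ⟨x, hx⟩ := card_eq_one.1 (card_nx hπ hj)
  have hx1 : x ∈ pre π (j + 1) \ pre π j := by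
    have : x ∈ nx π j := by rw [hx]; exact mem_singleton_self x
    exact this
  have hx2 := mem_sdiff.1 hx1
  refine ⟨x, pre_subset_of_mem hπ _ hx2.1, hx2.2, hx, ?_⟩
  have h1 : nx π j ∪ pre π j = pre π (j + 1) := by
    unfold nx
    exact sdiff_union_of_subset (pre_mono (Nat.le_succ j))
  rw [← h1, hx]
  rfl

theorem fin_card_lt {τ : Finset α → Lab} {V : Finset α} {π : List α} (hπ : π ∈ seqs V.card V)
    {j K : ℕ} (hjK : j < K) (hK : K ≤ V.card) (hA : allA τ π (j + 1)) :
    (fin τ (pre π K) (pre π j)).card + (pre π j).card < (pre π K).card := by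
  obtain ⟨x, _, hxj, _, hx⟩ := pre_succ_eq hπ (show j < V.card by omega)
  have hxK : x ∈ pre π K := pre_mono (Nat.succ_le_of_lt hjK) (by
    show x ∈ pre π (j + 1)
    rw [hx]
    exact mem_insert_self _ _)
  have h1 : fin τ (pre π K) (pre π j) ⊆ (pre π K \ pre π j).erase x := by
    intro z hz
    unfold fin at hz
    rw [mem_filter] at hz
    refine mem_erase.2 ⟨?_, hz.1⟩
    rintro rfl
    apply hz.2
    rw [← hx]
    exact hA (j + 1) (by simp)
  have h2 := card_le_card h1
  have h3 : x ∈ pre π K \ pre π j := mem_sdiff.2 ⟨hxK, hxj⟩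
  rw [card_erase_of_mem h3, card_sdiff_of_subset (pre_mono hjK.le), card_pre_of_mem hπ hK,
    card_pre_of_mem hπ (by omega)] at h2
  rw [card_pre_of_mem hπ hK, card_pre_of_mem hπ (by omega)]
  omega

theorem AL_card_lt {τ : Finset α → Lab} {V : Finset α} {π : List α} (hπ : π ∈ seqs V.card V)
    {j : ℕ} (hj : j < V.card) (h : ¬ nx π j ⊆ AL τ V (pre π j)) :
    (AL τ V (pre π j)).card + j + 1 ≤ V.card := by
  obtain ⟨x, hxV, hxj, hn, _⟩ := pre_succ_eq hπ hj
  have hxA : x ∉ AL τ V (pre π j) := by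
    intro h1
    apply h
    rw [hn]
    exact singleton_subset_iff.2 h1
  have h1 : AL τ V (pre π j) ⊆ (V \ pre π j).erase x := by
    intro z hz
    have hz' := mem_AL.1 hz
    refine mem_erase.2 ⟨?_, mem_sdiff.2 hz'.1⟩
    rintro rfl
    exact hxA hz
  have h2 := card_le_card h1
  rw [card_erase_of_mem (mem_sdiff.2 ⟨hxV, hxj⟩),
    card_sdiff_of_subset (pre_subset_of_mem hπ j), card_pre_of_mem hπ hj.le] at h2
  omega

theorem AL_card_lt_A {τ : Finset α → Lab} {V : Finset α} {π : List α} (hπ : π ∈ seqs V.card V)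
    {j : ℕ} (hj : j < V.card) (h : τ (pre π (j + 1)) ≠ Lab.B) :
    (AL τ V (pre π j)).card + j + 1 ≤ V.card := by
  apply AL_card_lt hπ hj
  intro h1
  obtain ⟨x, _, _, hn, hx⟩ := pre_succ_eq hπ hj
  have : x ∈ AL τ V (pre π j) := h1 (by rw [hn]; exact mem_singleton_self x)
  apply h
  rw [hx]
  exact (mem_AL.1 this).2.2

/-- what is seen of `y` in the slot `j` -/
noncomputable def vw (τ : Finset α → Lab) (ρ : α → ℝ) (V O W : Finset α) (y : α) : ℝ :=
  if y ∈ SV τ V O W then vs τ ρ V W y else 0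

theorem SV_sub {τ : Finset α → Lab} {V O W : Finset α} (hO : O ⊆ V) : SV τ V O W ⊆ V := by
  unfold SV
  intro z hz
  rcases mem_union.1 (mem_sdiff.1 hz).1 with h1 | h1
  · exact (mem_sdiff.1 h1).1
  · unfold fin at h1
    exact hO (mem_sdiff.1 (mem_filter.1 h1).1).1

theorem sum_vw {τ : Finset α → Lab} {ρ : α → ℝ} {V O W : Finset α} (hO : O ⊆ V) :
    ∑ y ∈ SV τ V O W, vs τ ρ V W y = ∑ y ∈ V, vw τ ρ V O W y := by
  unfold vw
  rw [← sum_filter]
  refine sum_congr ?_ fun _ _ => rfl
  ext z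
  rw [mem_filter]
  exact ⟨fun h => ⟨SV_sub hO h, h⟩, fun h => h.2⟩

theorem vw_nonneg {τ : Finset α → Lab} {ρ : α → ℝ} {V O W : Finset α} {y : α}
    (hρ : 0 < ρ y ∧ ρ y ≤ 1) (ha : (AL τ V W).card + 1 ≤ V.card)
    (ha2 : W ≠ ∅ → (AL τ V W).card + 2 ≤ V.card) : 0 ≤ vw τ ρ V O W y := by
  unfold vw
  split_ifs
  · exact vs_nonneg hρ ha ha2
  · exact le_rfl

/-- a dead level is seen with at least `κ` -/
theorem kap_le_vs {τ : Finset α → Lab} {ρ : α → ℝ} {V W : Finset α} {y : α}
    (hρ : 0 < ρ y ∧ ρ y ≤ 1) (hW : W ≠ ∅) (ha2 : (AL τ V W).card + 2 ≤ V.card) :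
    Lf V.card (ρ y) ≤ vs τ ρ V W y := by
  unfold vs
  rw [if_neg hW, Lf_el]
  have ha2r : ((AL τ V W).card : ℝ) + 2 ≤ V.card := by exact_mod_cast ha2
  have : (0 : ℝ) ≤ (AL τ V W).card := Nat.cast_nonneg _
  exact el_anti hρ.1.le (by linarith [hρ.2]) (by linarith)

/-- one slot, heavy element -/
theorem vw_heavy {τ : Finset α → Lab} {ρ : α → ℝ} {V O W : Finset α} {h : α}
    (hρ : 0 < ρ h ∧ ρ h ≤ 1) (hh : τ {h} ≠ Lab.B) (hhV : h ∈ V)
    (ha : (AL τ V W).card + 1 ≤ V.card) (ha2 : W ≠ ∅ → (AL τ V W).card + 2 ≤ V.card)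
    (hWO : W ⊆ O) :
    (if h ∈ O then 0 else if W = ∅ then c0 τ ρ V h else
      if τ (insert h W) ≠ Lab.B then Lf V.card (ρ h) else 0) + Wx τ ρ V W h ≤
      vw τ ρ V O W h := by
  have hAL : h ∉ AL τ V W := fun h1 => hh (mem_AL.1 h1).2.1
  have hv0 := vw_nonneg (O := O) hρ ha ha2
  by_cases hO : h ∈ O
  · rw [if_pos hO, zero_add]
    unfold Wx
    split_ifs with h1
    · have h2 : h ∈ SV τ V O W := by
        unfold SV fin
        rw [mem_sdiff, mem_union, mem_filter, mem_sdiff (s := O)]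
        exact ⟨Or.inr ⟨⟨hO, h1.1⟩, by rw [h1.2.2]; decide⟩, hAL⟩
      unfold vw
      rw [if_pos h2]
      unfold vs
      rw [if_neg h1.2.1]
    · exact hv0
  · rw [if_neg hO]
    have hW : h ∉ W := fun h1 => hO (hWO h1)
    have h2 : h ∈ SV τ V O W := by
      unfold SV
      rw [mem_sdiff, mem_union, mem_sdiff]
      exact ⟨Or.inl ⟨hhV, hO⟩, hAL⟩
    unfold vw
    rw [if_pos h2]
    by_cases hW0 : W = ∅
    · rw [if_pos hW0]
      unfold Wx vs c0
      rw [if_neg (fun h3 => h3.2.1 hW0), if_pos hW0, hW0, add_zero]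
    · rw [if_neg hW0]
      by_cases hB : τ (insert h W) = Lab.B
      · unfold Wx vs
        rw [if_neg (by rw [hB]; simp), if_pos ⟨hW, hW0, hB⟩, if_neg hW0, zero_add]
      · unfold Wx
        rw [if_pos hB, if_neg (fun h3 => hB h3.2.2), add_zero]
        exact kap_le_vs hρ hW0 (ha2 hW0)

/-- the sum of the dead views -/
theorem sum_Cx (τ : Finset α → Lab) (ρ : α → ℝ) (V : Finset α) (h : α) (π : List α) (k : ℕ) :
    ∑ j ∈ range k, (if j = 0 then c0 τ ρ V h else
      if τ (insert h (pre π j)) ≠ Lab.B then Lf V.card (ρ h) else 0) = Cx τ ρ V h π k := by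
  induction k with
  | zero =>
    unfold Cx
    rw [dc_zero]
    simp
  | succ k ih =>
    rw [sum_range_succ, ih]
    unfold Cx
    rw [if_neg (Nat.succ_ne_zero k)]
    rcases Nat.eq_zero_or_pos k with hk | hk
    · subst hk
      rw [if_pos rfl, dc_zero, dc_one]
      simp
    · rw [dc_succ τ h π hk, if_neg (by omega), if_neg (by omega)]
      split_ifs
      · push_cast; ring
      · push_cast; ring

theorem sum_kap (τ : Finset α → Lab) (ρ : α → ℝ) (V : Finset α) (y : α) (π : List α) (k : ℕ) :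
    ∑ j ∈ range k, (if j = 0 then 0 else
      if τ (insert y (pre π j)) ≠ Lab.B then Lf V.card (ρ y) else 0) =
      (dc τ y π k : ℝ) * Lf V.card (ρ y) := by
  induction k with
  | zero => rw [dc_zero]; simp
  | succ k ih =>
    rw [sum_range_succ, ih]
    rcases Nat.eq_zero_or_pos k with hk | hk
    · subst hk
      rw [dc_zero, dc_one]
      simp
    · rw [dc_succ τ y π hk, if_neg (by omega)]
      split_ifs
      · push_cast; ring
      · push_cast; ring

/-- the cardinality facts of the levels of an initial A-run -/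
theorem lev_card {τ : Finset α → Lab} {V : Finset α} {π : List α} (hπ : π ∈ seqs V.card V)
    {j : ℕ} (hj : j < V.card) (h : τ (pre π (j + 1)) ≠ Lab.B) :
    (AL τ V (pre π j)).card + 1 ≤ V.card ∧
      (pre π j ≠ ∅ → (AL τ V (pre π j)).card + 2 ≤ V.card) := by
  have h1 := AL_card_lt_A hπ hj h
  refine ⟨by omega, fun h2 => ?_⟩
  have h3 := card_pos.2 (nonempty_iff_ne_empty.2 h2)
  rw [card_pre_of_mem hπ hj.le] at h3
  omega

theorem pre_empty_iff {V : Finset α} {π : List α} (hπ : π ∈ seqs V.card V) {j : ℕ}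
    (hj : j ≤ V.card) : pre π j = ∅ ↔ j = 0 := by
  rw [← card_eq_zero, card_pre_of_mem hπ hj]

/-- all slots of a heavy element -/
theorem vw_heavy_sum {τ : Finset α → Lab} {ρ : α → ℝ} {V : Finset α} {π : List α}
    (hπ : π ∈ seqs V.card V) {h : α} (hρ : 0 < ρ h ∧ ρ h ≤ 1) (hh : τ {h} ≠ Lab.B)
    (hhV : h ∈ V) {k K : ℕ} (hkK : k ≤ K) (hK : K ≤ V.card) (hA : allA τ π k) :
    (if h ∈ pre π K then 0 else Cx τ ρ V h π k) + ∑ j ∈ range k, Wx τ ρ V (pre π j) h ≤
      ∑ j ∈ range k, vw τ ρ V (pre π K) (pre π j) h := by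
  have h1 : (if h ∈ pre π K then 0 else Cx τ ρ V h π k) =
      ∑ j ∈ range k, (if h ∈ pre π K then 0 else if pre π j = ∅ then c0 τ ρ V h else
      if τ (insert h (pre π j)) ≠ Lab.B then Lf V.card (ρ h) else 0) := by
    split_ifs
    · simp
    · rw [← sum_Cx]
      refine sum_congr rfl fun j hj => ?_
      rw [mem_range] at hj
      rw [if_congr (pre_empty_iff hπ (by omega)) rfl rfl]
  rw [h1, ← sum_add_distrib]
  refine sum_le_sum fun j hj => ?_
  rw [mem_range] at hj
  have h2 : τ (pre π (j + 1)) ≠ Lab.B := by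
    rw [hA (j + 1) (by rw [mem_range]; omega)]
    decide
  have h3 := lev_card hπ (show j < V.card by omega) h2
  exact vw_heavy hρ hh hhV h3.1 h3.2 (pre_mono (by omega))

/-- all slots of a light element -/
theorem vw_light_sum {τ : Finset α → Lab} {ρ : α → ℝ} {V : Finset α} {π : List α}
    (hπ : π ∈ seqs V.card V) {y : α} (hρ : 0 < ρ y ∧ ρ y ≤ 1)
    (hyV : y ∈ V) {k K : ℕ} (hkK : k ≤ K) (hK : K ≤ V.card) (hA : allA τ π k) :
    (if y ∈ pre π K then 0 else (dc τ y π k : ℝ) * Lf V.card (ρ y)) ≤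
      ∑ j ∈ range k, vw τ ρ V (pre π K) (pre π j) y := by
  have h0 : ∀ j ∈ range k, 0 ≤ vw τ ρ V (pre π K) (pre π j) y := by
    intro j hj
    rw [mem_range] at hj
    have h2 : τ (pre π (j + 1)) ≠ Lab.B := by
      rw [hA (j + 1) (by rw [mem_range]; omega)]
      decide
    have h3 := lev_card hπ (show j < V.card by omega) h2
    exact vw_nonneg hρ h3.1 h3.2
  split_ifs with hyK
  · exact sum_nonneg h0
  · rw [← sum_kap]
    refine sum_le_sum fun j hj => ?_
    have hj' := mem_range.1 hj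
    have h2 : τ (pre π (j + 1)) ≠ Lab.B := by
      rw [hA (j + 1) (by rw [mem_range]; omega)]
      decide
    have h3 := lev_card hπ (show j < V.card by omega) h2
    split_ifs with hj0 hB
    · exact h0 j hj
    · have hW : pre π j ≠ ∅ := by
        rw [Ne, pre_empty_iff hπ (by omega)]
        exact hj0
      have hyS : y ∈ SV τ V (pre π K) (pre π j) := by
        unfold SV
        rw [mem_sdiff, mem_union, mem_sdiff]
        exact ⟨Or.inl ⟨hyV, hyK⟩, fun h4 => hB (mem_AL.1 h4).2.2⟩
      unfold vw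
      rw [if_pos hyS]
      exact kap_le_vs hρ hW (h3.2 hW)
    · exact h0 j hj

/-- the part of `y`, all levels -/
noncomputable def tY (τ : Finset α → Lab) (ρ : α → ℝ) (V : Finset α) (π : List α) (K k n : ℕ)
    (y : α) : ℝ :=
  if τ {y} = Lab.B then (if y ∈ pre π K then 0 else (dc τ y π k : ℝ) * Lf V.card (ρ y)) -
    ∑ j ∈ range n, pnl τ ρ V (pre π j) y
  else (if y ∈ pre π K then 0 else Cx τ ρ V y π k) + ∑ j ∈ range k, Wx τ ρ V (pre π j) y

theorem pnl_heavy {τ : Finset α → Lab} {ρ : α → ℝ} {V W : Finset α} {y : α}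
    (hy : τ {y} ≠ Lab.B) : pnl τ ρ V W y = 0 := by
  unfold pnl
  rw [if_neg (fun h => hy (mem_AL.1 h).2.1)]

/-- **the slots below the object**, `O = pre π K` -/
theorem point_sum {τ : Finset α → Lab} {ρ : α → ℝ} {V : Finset α}
    (hρ : ∀ x ∈ V, 0 < ρ x ∧ ρ x ≤ 1) {π : List α}
    (hπ : π ∈ seqs V.card V) {k K : ℕ} (hkK : k ≤ K) (hK : K ≤ V.card) (hA : allA τ π k) :
    ∑ j ∈ range k, Lf V.card (AL τ V (pre π j)).card + ∑ y ∈ V, tY τ ρ V π K k k y ≤
      ∑ j ∈ range k, (Lf V.card (∑ x ∈ V \ pre π K, ρ x) + Real.log (((K : ℝ) - j) /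
        ((K : ℝ) - j - ((fin τ (pre π K) (pre π j)).card : ℝ)))) := by
  have h1 : ∀ j ∈ range k, Lf V.card (AL τ V (pre π j)).card +
      ∑ y ∈ V, vw τ ρ V (pre π K) (pre π j) y - ∑ y ∈ V, pnl τ ρ V (pre π j) y ≤
      Lf V.card (∑ x ∈ V \ pre π K, ρ x) + Real.log (((K : ℝ) - j) /
        ((K : ℝ) - j - ((fin τ (pre π K) (pre π j)).card : ℝ))) := by
    intro j hj
    rw [mem_range] at hj
    have h2 := levF τ ρ hρ (pre_subset_of_mem hπ K) (pre_mono (π := π) (by omega : j ≤ K))
      (fin_card_lt hπ (by omega) hK (allA_mono (by omega) hA))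
    rw [card_pre_of_mem hπ hK, card_pre_of_mem hπ (by omega), sum_vw (pre_subset_of_mem hπ K)]
      at h2
    exact h2
  refine le_trans ?_ (sum_le_sum h1)
  rw [sum_sub_distrib, sum_add_distrib, sum_comm (s := range k) (t := V)
    (f := fun j y => vw τ ρ V (pre π K) (pre π j) y), sum_comm (s := range k) (t := V)
    (f := fun j y => pnl τ ρ V (pre π j) y), add_sub_assoc, ← sum_sub_distrib]
  have h2 : ∑ y ∈ V, tY τ ρ V π K k k y ≤ ∑ y ∈ V, (∑ j ∈ range k,
      vw τ ρ V (pre π K) (pre π j) y - ∑ j ∈ range k, pnl τ ρ V (pre π j) y) := by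
    refine sum_le_sum fun y hy => ?_
    unfold tY
    by_cases hB : τ {y} = Lab.B
    · rw [if_pos hB]
      have h3 := vw_light_sum hπ (hρ y hy) hy hkK hK hA (τ := τ)
      linarith
    · rw [if_neg hB]
      have h3 := vw_heavy_sum hπ (hρ y hy) hB hy hkK hK hA
      have h4 : ∑ j ∈ range k, pnl τ ρ V (pre π j) y = 0 :=
        sum_eq_zero fun j _ => pnl_heavy hB
      linarith
  linarith

end TS

end R5

end

section

/-!
# The statewise lemma for the set kernel (helper77)
-/

namespace R5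

namespace TS

open Finset T7

variable {α : Type} [DecidableEq α]

/-- summation by parts, shifted -/
theorem sum_exit' (τ : Finset α → Lab) (π : List α) (m : ℕ) (f : ℕ → ℝ) :
    ∑ k ∈ range m, (iE τ π k + iX τ π k) * ∑ j ∈ range k, f j =
      ∑ j ∈ range m, iA τ π (j + 1) * f j - iA τ π m * ∑ j ∈ range m, f j := by
  induction m with
  | zero => simp
  | succ m ih =>
    rw [sum_range_succ, ih, iE_add_iX, sum_range_succ (fun j => iA τ π (j + 1) * f j) m,
      sum_range_succ f m]
    ring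

theorem lamn_nonneg (m : ℕ) (hm : 1 ≤ m) : 0 ≤ lamn m := by
  rcases Nat.eq_or_lt_of_le hm with h | h
  · rw [← h]
    unfold lamn
    simp
  · exact (lamn_pos h).le

theorem Lf_nonneg {m : ℕ} (hm : 1 ≤ m) {r : ℝ} (h0 : 0 ≤ r) (h1 : r ≤ 1) : 0 ≤ Lf m r := by
  have hm' : (1 : ℝ) ≤ m := by exact_mod_cast hm
  unfold Lf
  rw [neg_nonneg]
  apply Real.log_nonpos
  · rw [sub_nonneg, div_le_one (by linarith)]
    linarith
  · have := div_nonneg h0 (by linarith : (0 : ℝ) ≤ m)
    linarith

/-- the demand at the exit through `x` -/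
noncomputable def Dem (τ : Finset α → Lab) (V : Finset α) (π : List α) (k : ℕ) (x : α) : ℝ :=
  if τ {x} = Lab.B then lamn V.card * dc τ x π k else Dx τ V x π k

/-- part of `y` at an edge exit -/
noncomputable def eY (τ : Finset α → Lab) (ρ : α → ℝ) (V : Finset α) (π : List α) (k : ℕ)
    (y : α) : ℝ :=
  if τ {y} = Lab.B then (if y ∈ nx π k then -Real.log (ρ y) -
      (lamn V.card - Lf V.card (ρ y)) * dc τ y π k else 0) -
    ∑ j ∈ range k, pnl τ ρ V (pre π j) y
  else (if y ∈ pre π k then 0 else if y ∈ nx π k then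
        -Real.log (ρ y) + Cx τ ρ V y π k - Dx τ V y π k else Cx τ ρ V y π k) +
    ∑ j ∈ range k, Wx τ ρ V (pre π j) y

/-- part of `y` at a vertex exit -/
noncomputable def xY (τ : Finset α → Lab) (ρ : α → ℝ) (V : Finset α) (π : List α) (k : ℕ)
    (y : α) : ℝ :=
  if τ {y} = Lab.B then -(∑ j ∈ range k, pnl τ ρ V (pre π j) y) - pnl τ ρ V (pre π k) y
  else (if y ∈ pre π (k + 1) then 0 else Cx τ ρ V y π k) +
    ∑ j ∈ range k, Wx τ ρ V (pre π j) y

/-- the functionals of the elements, by exits -/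
theorem YE (τ : Finset α → Lab) (ρ : α → ℝ) {V : Finset α} (hV : τ V ≠ Lab.A) {π : List α}
    (hπ : π ∈ seqs V.card V) (y : α) :
    (if τ {y} = Lab.B then LY τ ρ V y π else HY τ ρ V y π) =
      ∑ k ∈ range V.card, (iE τ π k * eY τ ρ V π k y + iX τ π k * xY τ ρ V π k y) := by
  have hz : iA τ π V.card = 0 := iA_top hV hπ le_rfl
  have hl : π.length = V.card := length_of_mem hπ
  by_cases hB : τ {y} = Lab.B
  · rw [if_pos hB]
    have h1 := sum_exit' τ π V.card (fun j => pnl τ ρ V (pre π j) y)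
    rw [hz, zero_mul, sub_zero] at h1
    unfold LY eY xY
    simp only [if_pos hB]
    rw [hl]
    have e1 : ∑ k ∈ range V.card, (iE τ π k * (if y ∈ nx π k then -Real.log (ρ y) -
        (lamn V.card - Lf V.card (ρ y)) * dc τ y π k else 0) -
      (iA τ π (k + 1) + iX τ π k) * pnl τ ρ V (pre π k) y) =
      ∑ k ∈ range V.card, iE τ π k * (if y ∈ nx π k then -Real.log (ρ y) -
        (lamn V.card - Lf V.card (ρ y)) * dc τ y π k else 0) -
      ∑ k ∈ range V.card, iA τ π (k + 1) * pnl τ ρ V (pre π k) y -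
      ∑ k ∈ range V.card, iX τ π k * pnl τ ρ V (pre π k) y := by
      rw [← sum_sub_distrib, ← sum_sub_distrib]
      refine sum_congr rfl fun k _ => ?_
      ring
    rw [e1, ← h1, ← sum_sub_distrib, ← sum_sub_distrib]
    refine sum_congr rfl fun k _ => ?_
    ring
  · rw [if_neg hB]
    have h1 := sum_exit' τ π V.card (fun j => Wx τ ρ V (pre π j) y)
    rw [hz, zero_mul, sub_zero] at h1
    unfold HY eY xY
    simp only [if_neg hB]
    rw [hl, sum_add_distrib, ← h1, ← sum_add_distrib]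
    refine sum_congr rfl fun k _ => ?_
    ring

/-- the bound at an edge exit -/
theorem point_E {τ : Finset α → Lab} {ρ : α → ℝ} {V : Finset α}
    (hρ : ∀ x ∈ V, 0 < ρ x ∧ ρ x ≤ 1) {π : List α}
    (hπ : π ∈ seqs V.card V) {k : ℕ} (hk : k < V.card) (hA : allA τ π k) :
    ∑ j ∈ range k, Lf V.card (AL τ V (pre π j)).card + ∑ x ∈ nx π k, Dem τ V π k x +
      ∑ y ∈ V, eY τ ρ V π k y ≤
      ∑ x ∈ nx π k, (-Real.log (ρ x)) +
      ∑ j ∈ range k, (Lf V.card (∑ x ∈ V \ pre π k, ρ x) + Real.log (((k : ℝ) - j) /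
        ((k : ℝ) - j - ((fin τ (pre π k) (pre π j)).card : ℝ)))) := by
  have h1 := point_sum hρ hπ (le_refl k) hk.le hA
  have hnx : nx π k ⊆ V := sdiff_subset.trans (pre_subset_of_mem hπ _)
  have h2 : ∑ y ∈ V, eY τ ρ V π k y ≤ ∑ y ∈ V, (tY τ ρ V π k k k y +
      (if y ∈ nx π k then -Real.log (ρ y) - Dem τ V π k y else 0)) := by
    refine sum_le_sum fun y hy => ?_
    have hκ : 0 ≤ (dc τ y π k : ℝ) * Lf V.card (ρ y) :=
      mul_nonneg (Nat.cast_nonneg _) (Lf_nonneg (by omega) (hρ y hy).1.le (hρ y hy).2)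
    unfold eY tY Dem
    by_cases hB : τ {y} = Lab.B
    · simp only [if_pos hB]
      by_cases hn : y ∈ nx π k
      · have hp : y ∉ pre π k := (mem_sdiff.1 hn).2
        rw [if_pos hn, if_pos hn, if_neg hp]
        linarith
      · rw [if_neg hn, if_neg hn]
        split_ifs
        · linarith
        · linarith
    · simp only [if_neg hB]
      by_cases hp : y ∈ pre π k
      · have hn : y ∉ nx π k := fun h => (mem_sdiff.1 h).2 hp
        rw [if_pos hp, if_neg hn, if_pos hp]
        linarith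
      · rw [if_neg hp, if_neg hp]
        split_ifs
        · linarith
        · linarith
  rw [sum_add_distrib, ← sum_filter, filter_mem_eq_inter, inter_eq_right.2 hnx,
    sum_sub_distrib] at h2
  linarith

/-- the bound at a vertex exit -/
theorem point_X {τ : Finset α → Lab} {ρ : α → ℝ} {V : Finset α}
    (hρ : ∀ x ∈ V, 0 < ρ x ∧ ρ x ≤ 1) {π : List α}
    (hπ : π ∈ seqs V.card V) {k : ℕ} (hk : k < V.card) (hA : exX τ π k) :
    ∑ j ∈ range (k + 1), Lf V.card (AL τ V (pre π j)).card +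
      ∑ y ∈ V, xY τ ρ V π k y ≤
      ∑ j ∈ range k, (Lf V.card (∑ x ∈ V \ pre π (k + 1), ρ x) +
        Real.log (((k : ℝ) + 1 - j) /
        ((k : ℝ) + 1 - j - ((fin τ (pre π (k + 1)) (pre π j)).card : ℝ)))) +
        Lf V.card (∑ x ∈ V \ pre π (k + 1), ρ x) := by
  have h1 := point_sum hρ hπ (Nat.le_succ k) hk hA.1
  push_cast at h1
  have h3 := levX τ ρ (V := V) (O := pre π (k + 1)) (W := pre π k) hρ
    (pre_subset_of_mem hπ _) (by
      rw [card_pre_of_mem hπ hk, card_pre_of_mem hπ hk.le]) (by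
      intro z hz
      have hz' := mem_AL.1 hz
      refine mem_sdiff.2 ⟨hz'.1.1, fun hzp => ?_⟩
      obtain ⟨x, _, _, _, hx⟩ := pre_succ_eq hπ hk
      rw [hx, mem_insert] at hzp
      rcases hzp with h | h
      · subst h
        have h4 := hA.2
        rw [hx, hz'.2.2] at h4
        exact absurd h4 (by decide)
      · exact hz'.1.2 h)
  have h2 : ∑ y ∈ V, xY τ ρ V π k y ≤ ∑ y ∈ V, (tY τ ρ V π (k + 1) k k y -
      pnl τ ρ V (pre π k) y) := by
    refine sum_le_sum fun y hy => ?_
    have hκ : 0 ≤ (dc τ y π k : ℝ) * Lf V.card (ρ y) :=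
      mul_nonneg (Nat.cast_nonneg _) (Lf_nonneg (by omega) (hρ y hy).1.le (hρ y hy).2)
    unfold xY tY
    by_cases hB : τ {y} = Lab.B
    · simp only [if_pos hB]
      split_ifs
      · linarith
      · linarith
    · simp only [if_neg hB]
      rw [pnl_heavy hB, sub_zero]
  rw [sum_sub_distrib] at h2
  rw [sum_range_succ]
  linarith

/-- the cost before the Gibbs step -/
noncomputable def cstG (τ : Finset α → Lab) (ρ : α → ℝ) (V : Finset α) (π : List α) : ℝ :=
  ∑ k ∈ range V.card, (iE τ π k * (∑ x ∈ nx π k, (-Real.log (ρ x)) +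
      ∑ j ∈ range k, (Lf V.card (∑ x ∈ V \ pre π k, ρ x) + Real.log (((k : ℝ) - j) /
        ((k : ℝ) - j - ((fin τ (pre π k) (pre π j)).card : ℝ))))) +
    iX τ π k * (∑ j ∈ range k, (Lf V.card (∑ x ∈ V \ pre π (k + 1), ρ x) +
        Real.log (((k : ℝ) + 1 - j) /
        ((k : ℝ) + 1 - j - ((fin τ (pre π (k + 1)) (pre π j)).card : ℝ)))) +
        Lf V.card (∑ x ∈ V \ pre π (k + 1), ρ x)))

/-- the Gibbs step -/
theorem cstG_le (τ : Finset α → Lab) (ρ : α → ℝ) (V : Finset α) :
    Av V (cstG τ ρ V) ≤ Av V (K.cstK τ ρ V) := by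
  have h1 := gib_E_sum τ V
  have h2 := gib_X_sum τ V
  set c0 : List α → ℝ := fun π => ∑ k ∈ range V.card,
    (iE τ π k * (∑ x ∈ nx π k, (-Real.log (ρ x)) +
      (k : ℝ) * Lf V.card (∑ x ∈ V \ pre π k, ρ x)) +
     iX τ π k * (((k : ℝ) + 1) * Lf V.card (∑ x ∈ V \ pre π (k + 1), ρ x))) with hc0
  have e1 : Av V (cstG τ ρ V) = Av V c0 +
      Av V (fun π => ∑ k ∈ range V.card, iE τ π k * ∑ j ∈ range k, Real.log (((k : ℝ) - j) /
      ((k : ℝ) - j - ((fin τ (pre π k) (pre π j)).card : ℝ)))) +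
      Av V (fun π => ∑ k ∈ range V.card, iX τ π k * ∑ j ∈ range k,
        Real.log (((k : ℝ) + 1 - j) /
      ((k : ℝ) + 1 - j - ((fin τ (pre π (k + 1)) (pre π j)).card : ℝ)))) := by
    rw [← Av_add, ← Av_add]
    refine Av_congr fun π _ => ?_
    rw [hc0]
    unfold cstG
    simp only []
    rw [← sum_add_distrib, ← sum_add_distrib]
    refine sum_congr rfl fun k _ => ?_
    rw [sum_add_distrib, sum_add_distrib, sum_const, sum_const, card_range, nsmul_eq_mul,
      nsmul_eq_mul]
    ring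
  have e2 : Av V (K.cstK τ ρ V) = Av V c0 +
      Av V (fun π => ∑ k ∈ range V.card, iE τ π k * (-Real.log (fw τ (pre π k)))) +
      Av V (fun π => ∑ k ∈ range V.card, iX τ π k * (-Real.log (fwb τ (pre π (k + 1))))) := by
    rw [← Av_add, ← Av_add]
    refine Av_congr fun π _ => ?_
    rw [hc0]
    unfold K.cstK
    simp only []
    rw [← sum_add_distrib, ← sum_add_distrib]
    refine sum_congr rfl fun k _ => ?_
    ring
  rw [e1, e2]
  linarith

/-- the functional of the elements -/
noncomputable def YY (τ : Finset α → Lab) (ρ : α → ℝ) (V : Finset α) (π : List α) : ℝ :=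
  ∑ y ∈ V, (if τ {y} = Lab.B then LY τ ρ V y π else HY τ ρ V y π)

theorem YY_nonneg (τ : Finset α → Lab) (ρ : α → ℝ) {V : Finset α} (hV : τ V = Lab.B)
    (hρ : ∀ x ∈ V, 0 < ρ x ∧ ρ x ≤ 1) : 0 ≤ Av V (YY τ ρ V) := by
  have e : Av V (YY τ ρ V) = ∑ y ∈ V, Av V (fun π =>
      if τ {y} = Lab.B then LY τ ρ V y π else HY τ ρ V y π) := by
    rw [← Av_sum]
    rfl
  rw [e]
  refine sum_nonneg fun y hy => ?_
  by_cases hB : τ {y} = Lab.B
  · simp only [if_pos hB]
    exact light_Av τ ρ V y hB (hρ y hy)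
  · simp only [if_neg hB]
    exact heavy_Av τ ρ V y hV hy hB (hρ y hy)

/-- **the pointwise inequality** -/
theorem point {τ : Finset α → Lab} {ρ : α → ℝ} {V : Finset α} (hV : τ V ≠ Lab.A)
    (hρ : ∀ x ∈ V, 0 < ρ x ∧ ρ x ≤ 1) {π : List α} (hπ : π ∈ seqs V.card V) :
    ∑ i ∈ range V.card, iA τ π i * Lf V.card (AL τ V (pre π i)).card +
      ∑ k ∈ range V.card, iE τ π k * (∑ x ∈ nx π k, Dem τ V π k x -
        Lf V.card (AL τ V (pre π k)).card) + YY τ ρ V π ≤ cstG τ ρ V π := by
  have hz : iA τ π V.card = 0 := iA_top hV hπ le_rfl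
  have h1 := sum_exit τ π V.card (fun j => Lf V.card (AL τ V (pre π j)).card)
  rw [hz, zero_mul, sub_zero] at h1
  have h2 : YY τ ρ V π = ∑ k ∈ range V.card,
      (iE τ π k * ∑ y ∈ V, eY τ ρ V π k y + iX τ π k * ∑ y ∈ V, xY τ ρ V π k y) := by
    unfold YY
    rw [sum_congr rfl fun y _ => YE τ ρ hV hπ y, sum_comm]
    refine sum_congr rfl fun k _ => ?_
    rw [sum_add_distrib, ← mul_sum, ← mul_sum]
  rw [← h1, h2, ← sum_add_distrib, ← sum_add_distrib]
  unfold cstG
  refine sum_le_sum fun k hk => ?_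
  rw [mem_range] at hk
  have hE : iE τ π k * (∑ j ∈ range k, Lf V.card (AL τ V (pre π j)).card +
      ∑ x ∈ nx π k, Dem τ V π k x + ∑ y ∈ V, eY τ ρ V π k y) ≤
      iE τ π k * (∑ x ∈ nx π k, (-Real.log (ρ x)) +
      ∑ j ∈ range k, (Lf V.card (∑ x ∈ V \ pre π k, ρ x) + Real.log (((k : ℝ) - j) /
        ((k : ℝ) - j - ((fin τ (pre π k) (pre π j)).card : ℝ))))) := by
    by_cases h : exE τ π k
    · rw [iE_pos h, one_mul, one_mul]
      exact point_E hρ hπ hk h.1
    · rw [iE_neg h, zero_mul, zero_mul]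
  have hX : iX τ π k * (∑ j ∈ range (k + 1), Lf V.card (AL τ V (pre π j)).card +
      ∑ y ∈ V, xY τ ρ V π k y) ≤
      iX τ π k * (∑ j ∈ range k, (Lf V.card (∑ x ∈ V \ pre π (k + 1), ρ x) +
        Real.log (((k : ℝ) + 1 - j) /
        ((k : ℝ) + 1 - j - ((fin τ (pre π (k + 1)) (pre π j)).card : ℝ)))) +
        Lf V.card (∑ x ∈ V \ pre π (k + 1), ρ x)) := by
    by_cases h : exX τ π k
    · rw [iX_pos h, one_mul, one_mul]
      exact point_X hρ hπ hk h
    · rw [iX_neg h, zero_mul, zero_mul]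
  have e1 := sum_range_succ (fun j => Lf V.card (AL τ V (pre π j)).card) k
  rw [e1] at hX ⊢
  linarith

/-- levels without edge exit are dead for the exit element -/
theorem n0_le_dc {τ : Finset α → Lab} {V : Finset α} {π : List α} (hπ : π ∈ seqs V.card V)
    {k : ℕ} (hk : k < V.card) (hE : exE τ π k) {x : α} (hx : x ∈ nx π k) :
    n0 τ V π k ≤ (dc τ x π k : ℝ) := by
  have hxV : x ∈ V := pre_subset_of_mem hπ _ (mem_sdiff.1 hx).1
  have hxk : x ∉ pre π k := (mem_sdiff.1 hx).2
  have hins : insert x (pre π k) = pre π (k + 1) := by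
    obtain ⟨z, _, _, hz, hz2⟩ := pre_succ_eq hπ hk
    rw [hz, mem_singleton] at hx
    rw [hx, hz2]
  unfold n0 dc
  rw [card_filter]
  push_cast
  rcases Nat.eq_zero_or_pos k with h0 | h0
  · subst h0
    simp
  · have e1 : Icc 1 k = insert k (Ico 1 k) := by
      ext i
      simp only [mem_Icc, mem_insert, mem_Ico]
      omega
    rw [e1, sum_insert (by simp)]
    have e2 : (if ∀ x ∈ V \ pre π k, τ (insert x (pre π k)) ≠ Lab.B then (1 : ℝ) else 0) = 0 := by
      rw [if_neg]
      intro h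
      apply h x (mem_sdiff.2 ⟨hxV, hxk⟩)
      rw [hins]
      exact hE.2
    rw [e2, zero_add]
    refine sum_le_sum fun i hi => ?_
    rw [mem_Ico] at hi
    split_ifs with h1 h2 h2
    · exact le_rfl
    · exfalso
      apply h2
      exact h1 x (mem_sdiff.2 ⟨hxV, fun h3 => hxk (pre_mono hi.2.le h3)⟩)
    · norm_num
    · exact le_rfl

/-- **the statewise lemma for the set kernel, one state** -/
theorem CTS_Av (τ : Finset α → Lab) (ρ : α → ℝ) (V : Finset α) (hne : V.Nonempty)
    (hV : τ V = Lab.B) (hρ : ∀ x ∈ V, 0 < ρ x ∧ ρ x ≤ 1) :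
    lamn V.card * Av V (fun π => ∑ k ∈ range V.card,
        iE τ π k * (((V.card : ℝ) - 1 - k) + n0 τ V π k)) ≤
      Av V (K.cstK τ ρ V) + Av V (fun π => ∑ i ∈ range V.card,
        iA τ π i * cc V.card (AL τ V (pre π i)).card (V.card - i)) := by
  have hm : 1 ≤ V.card := card_pos.2 hne
  have hlam := lamn_nonneg V.card hm
  have hVA : τ V ≠ Lab.A := by rw [hV]; decide
  have h1 : Av V (fun π => ∑ i ∈ range V.card, iA τ π i * Lf V.card (AL τ V (pre π i)).card +
      ∑ k ∈ range V.card, iE τ π k * (∑ x ∈ nx π k, Dem τ V π k x -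
        Lf V.card (AL τ V (pre π k)).card) + YY τ ρ V π) ≤ Av V (cstG τ ρ V) :=
    Av_mono fun π hπ => point hVA hρ hπ
  rw [Av_add, Av_add] at h1
  have h2 := YY_nonneg τ ρ hV hρ
  have h3 := cstG_le τ ρ V
  have h4 := comp_charge τ V
  have h5 : lamn V.card * Av V (fun π => ∑ k ∈ range V.card,
        iE τ π k * (((V.card : ℝ) - 1 - k) + n0 τ V π k)) ≤
      Av V (fun π => ∑ k ∈ range V.card, iE τ π k * (∑ x ∈ nx π k, Dem τ V π k x -
        Lf V.card (AL τ V (pre π k)).card)) +
      Av V (fun π => ∑ k ∈ range V.card,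
        iE τ π k * (if nx π k ⊆ AL τ V (pre π k) then 1 else 0) *
          (lamn V.card * ((V.card : ℝ) - 1 - k) +
            Lf V.card ((AL τ V (pre π k)).card : ℝ))) := by
    rw [← Av_mul, ← Av_add]
    apply Av_mono
    intro π hπ
    rw [mul_sum, ← sum_add_distrib]
    refine sum_le_sum fun k hk => ?_
    rw [mem_range] at hk
    by_cases hE : exE τ π k
    · rw [iE_pos hE]
      obtain ⟨x, hxV, hxk, hx, hx2⟩ := pre_succ_eq hπ hk
      have hxn : x ∈ nx π k := by rw [hx]; exact mem_singleton_self x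
      have h6 := n0_le_dc hπ hk hE hxn
      have h7 := mul_le_mul_of_nonneg_left h6 hlam
      rw [hx, sum_singleton]
      unfold Dem
      by_cases hB : τ {x} = Lab.B
      · have hin : ({x} : Finset α) ⊆ AL τ V (pre π k) := by
          rw [singleton_subset_iff]
          refine mem_AL.2 ⟨⟨hxV, hxk⟩, hB, ?_⟩
          rw [← hx2]
          exact hE.2
        rw [if_pos hB, if_pos hin]
        linarith
      · have hin : ¬ ({x} : Finset α) ⊆ AL τ V (pre π k) := by
          rw [singleton_subset_iff]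
          exact fun h => hB (mem_AL.1 h).2.1
        rw [if_neg hB, if_neg hin]
        unfold Dx
        linarith
    · rw [iE_neg hE]
      simp
  linarith

end TS

namespace K

open Finset T7

variable {α : Type} [DecidableEq α]

/-- **the statewise lemma** -/
theorem StateK_of (τ : Finset α → Lab) (D : Finset α) (ρ : Finset α → α → ℝ)
    (hρ : ∀ X ⊆ D, ∀ g ∈ D \ X, 0 < ρ X g ∧ ρ X g ≤ 1) : StateK τ D ρ := by
  intro W hW hne hB
  refine TS.CTS_Av τ (ρ (D \ W)) W hne hB fun x hx => ?_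
  exact hρ (D \ W) sdiff_subset x (by
    rw [sdiff_sdiff_right_self, inf_eq_inter, inter_eq_right.2 hW]
    exact hx)

end K

end R5

end
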