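import Mathlib
import Pool.Agent.Work.MP_8b6acb_full.P12

section

/-!
# Averages over orders (path layer)

`Eo G F` = average of `F π` over all orders `π` of the finite set `G`.
-/

namespace R5

open Finset

variable {α : Type} [DecidableEq α]

/-- The average over all orders of `G`. -/
noncomputable def Eo (G : Finset α) (F : List α → ℝ) : ℝ :=
  (∑ π ∈ seqs G.card G, F π) / (G.card.factorial : ℝ)

theorem fac_pos (n : ℕ) : (0 : ℝ) < (n.factorial : ℝ) := by exact_mod_cast n.factorial_pos

theorem Eo_empty (F : List α → ℝ) : Eo ∅ F = F [] := by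
  simp [Eo, seqs_zero]

theorem Eo_rec {G : Finset α} (hG : G.Nonempty) (F : List α → ℝ) :
    Eo G F = (∑ x ∈ G, Eo (G.erase x) (fun π => F (x :: π))) / (G.card : ℝ) := by
  obtain ⟨n, hn⟩ : ∃ n, G.card = n + 1 := Nat.exists_eq_succ_of_ne_zero (card_pos.2 hG).ne'
  unfold Eo
  rw [hn, sum_seqs_succ, Nat.factorial_succ]
  have h1 : ∀ x ∈ G, (∑ π ∈ seqs (G.erase x).card (G.erase x), F (x :: π)) /
      ((G.erase x).card.factorial : ℝ) = (∑ π ∈ seqs n (G.erase x), F (x :: π)) /
        (n.factorial : ℝ) := by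
    intro x hx
    have : (G.erase x).card = n := by rw [card_erase_of_mem hx, hn]; rfl
    rw [this]
  rw [sum_congr rfl h1, ← sum_div]
  have := fac_pos n
  push_cast
  field_simp

theorem Eo_congr {G : Finset α} {F F' : List α → ℝ}
    (h : ∀ π ∈ seqs G.card G, F π = F' π) : Eo G F = Eo G F' := by
  unfold Eo
  rw [sum_congr rfl h]

theorem Eo_mono {G : Finset α} {F F' : List α → ℝ}
    (h : ∀ π ∈ seqs G.card G, F π ≤ F' π) : Eo G F ≤ Eo G F' := by
  unfold Eo
  exact div_le_div_of_nonneg_right (sum_le_sum h) (fac_pos _).le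

theorem Eo_add (G : Finset α) (F F' : List α → ℝ) :
    Eo G (fun π => F π + F' π) = Eo G F + Eo G F' := by
  unfold Eo
  rw [sum_add_distrib, add_div]

theorem Eo_sub (G : Finset α) (F F' : List α → ℝ) :
    Eo G (fun π => F π - F' π) = Eo G F - Eo G F' := by
  unfold Eo
  rw [sum_sub_distrib, sub_div]

theorem Eo_mul (G : Finset α) (c : ℝ) (F : List α → ℝ) :
    Eo G (fun π => c * F π) = c * Eo G F := by
  unfold Eo
  rw [← mul_sum, mul_div_assoc]

theorem Eo_mul_right (G : Finset α) (F : List α → ℝ) (c : ℝ) :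
    Eo G (fun π => F π * c) = Eo G F * c := by
  rw [mul_comm, ← Eo_mul]
  exact Eo_congr fun π _ => mul_comm _ _

theorem Eo_const (G : Finset α) (c : ℝ) : Eo G (fun _ => c) = c := by
  unfold Eo
  rw [sum_const, card_seqs_card, nsmul_eq_mul]
  have := fac_pos G.card
  field_simp

theorem Eo_sum {ι : Type} (G : Finset α) (K : Finset ι) (F : ι → List α → ℝ) :
    Eo G (fun π => ∑ i ∈ K, F i π) = ∑ i ∈ K, Eo G (F i) := by
  unfold Eo
  rw [sum_comm, sum_div]

theorem Eo_nonneg {G : Finset α} {F : List α → ℝ} (h : ∀ π ∈ seqs G.card G, 0 ≤ F π) :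
    0 ≤ Eo G F := by
  have := Eo_mono (F := fun _ => (0 : ℝ)) h
  rwa [Eo_const] at this

theorem Eo_zero (G : Finset α) : Eo G (fun _ => (0 : ℝ)) = 0 := Eo_const G 0

/-- Reversing the order. -/
theorem Eo_reverse (G : Finset α) (F : List α → ℝ) :
    Eo G (fun π => F π.reverse) = Eo G F := by
  unfold Eo
  congr 1
  refine sum_nbij' List.reverse List.reverse ?_ ?_ ?_ ?_ ?_
  · intro π hπ
    obtain ⟨h1, h2, h3⟩ := mem_seqs.1 hπ
    exact mem_seqs.2 ⟨List.nodup_reverse.2 h1, by rw [List.length_reverse, h2],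
      fun x hx => h3 x (List.mem_reverse.1 hx)⟩
  · intro π hπ
    obtain ⟨h1, h2, h3⟩ := mem_seqs.1 hπ
    exact mem_seqs.2 ⟨List.nodup_reverse.2 h1, by rw [List.length_reverse, h2],
      fun x hx => h3 x (List.mem_reverse.1 hx)⟩
  · intro π _; exact List.reverse_reverse π
  · intro π _; exact List.reverse_reverse π
  · intro π _; rfl

/-- Inserting one element at a uniform position. -/
theorem Eo_insert (n : ℕ) : ∀ (G : Finset α) (F : List α → ℝ) (x : α), x ∈ G → G.card = n + 1 →
    Eo G F = (∑ i ∈ range (n + 1), Eo (G.erase x) (fun w => F (w.insertIdx i x))) /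
      ((n : ℝ) + 1) := by
  induction n with
  | zero =>
    intro G F x hx hG
    have h1 : G.erase x = ∅ := by
      rw [← card_eq_zero, card_erase_of_mem hx, hG]
    have h2 : G = {x} := by
      rw [← insert_erase hx, h1]
      rfl
    rw [Eo_rec ⟨x, hx⟩, h1, hG, h2]
    simp [Eo_empty]
  | succ n ih =>
    intro G F x hx hG
    have hGx : (G.erase x).card = n + 1 := by rw [card_erase_of_mem hx, hG]; rfl
    have hGxn : (G.erase x).Nonempty := card_pos.1 (by omega)
    rw [Eo_rec ⟨x, hx⟩, ← insert_erase hx, sum_insert (notMem_erase x G), insert_erase hx]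
    have h1 : ∀ y ∈ G.erase x, Eo (G.erase y) (fun π => F (y :: π)) =
        (∑ i ∈ range (n + 1), Eo ((G.erase x).erase y)
          (fun w => F (y :: w.insertIdx i x))) / ((n : ℝ) + 1) := by
      intro y hy
      obtain ⟨hyx, hyG⟩ := mem_erase.1 hy
      have h2 : x ∈ G.erase y := mem_erase.2 ⟨fun h => hyx h.symm, hx⟩
      have h3 : (G.erase y).card = n + 1 := by rw [card_erase_of_mem hyG, hG]; rfl
      rw [ih (G.erase y) (fun π => F (y :: π)) x h2 h3, erase_right_comm]
    rw [sum_congr rfl h1, ← sum_div, sum_comm]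
    have h4 : ∀ i ∈ range (n + 1), ∑ y ∈ G.erase x, Eo ((G.erase x).erase y)
        (fun w => F (y :: w.insertIdx i x)) =
        ((n : ℝ) + 1) * Eo (G.erase x) (fun w => F (w.insertIdx (i + 1) x)) := by
      intro i _
      rw [Eo_rec hGxn, hGx]
      simp only [List.insertIdx_succ_cons]
      push_cast
      field_simp
    rw [sum_congr rfl h4, ← mul_sum, sum_range_succ' _ (n + 1), hG]
    simp only [List.insertIdx_zero]
    push_cast
    have : ((n : ℝ) + 1) ≠ 0 := by positivity
    field_simp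
    ring

end R5

end

section

/-!
# The S side of the value as an average over orders (path layer)
-/

namespace R5

open Finset

variable {α : Type} [DecidableEq α]

/-- Sum along a path: `Φ U x π` = value of the step from `U` to `insert x U`, rest `π`. -/
def psum (Φ : Finset α → α → List α → ℝ) : Finset α → List α → ℝ
  | _, [] => 0
  | U, x :: π => Φ U x π + psum Φ (insert x U) π

theorem psum_add (Φ Ψ : Finset α → α → List α → ℝ) (U : Finset α) (π : List α) :
    psum (fun U x π => Φ U x π + Ψ U x π) U π = psum Φ U π + psum Ψ U π := by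
  induction π generalizing U with
  | nil => simp [psum]
  | cons x π ih =>
    show _ + psum _ (insert x U) π = _
    rw [ih]
    show _ = (_ + psum _ _ π) + (_ + psum _ _ π)
    ring

theorem psum_mul (c : ℝ) (Φ : Finset α → α → List α → ℝ) (U : Finset α) (π : List α) :
    psum (fun U x π => c * Φ U x π) U π = c * psum Φ U π := by
  induction π generalizing U with
  | nil => simp [psum]
  | cons x π ih =>
    show _ + psum _ (insert x U) π = _
    rw [ih]
    show _ = c * (_ + psum _ _ π)
    ring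

end R5

end

section

/-!
# Word inequalities for the rotation of one element (note 1461, helper58; note 1477, helper3)

`b` = first position from which the upper word is constantly `B`, `p i` = the lower word has label
`A` at position `i`, `a i` = length of the initial `A`-run before `i`.
-/

namespace R5

open Finset

theorem sum_lin (c : ℤ) (a b : ℕ) (h : a ≤ b) :
    ∑ i ∈ Ico a b, (2 * (i : ℤ) + c) = ((b : ℤ) - a) * (a + b - 1 + c) := by
  induction b, h using Nat.le_induction with
  | base => simp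
  | succ b hab ih =>
    rw [sum_Ico_succ_top hab, ih]
    push_cast
    ring

theorem sum_lin_neg (c : ℤ) (a b : ℕ) (h : a ≤ b) :
    ∑ i ∈ Ico a b, (c - 2 * (i : ℤ)) = ((b : ℤ) - a) * (c + 1 - a - b) := by
  have := sum_lin (-c) a b h
  have h2 : ∑ i ∈ Ico a b, (c - 2 * (i : ℤ)) = -∑ i ∈ Ico a b, (2 * (i : ℤ) + -c) := by
    rw [← sum_neg_distrib]
    exact sum_congr rfl fun i _ => by ring
  rw [h2, this]
  ring

theorem word_g (n d e : ℕ) (c : ℤ) (h1 : n ≤ d + 1 + e) (hde : d ≤ e) (h2 : 2 * d + 1 ≤ n) :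
    ∑ i ∈ Ico d e, (if i + d + 1 < n then 2 * (i : ℤ) + c - n else 0) =
      ((n : ℤ) - 1 - 2 * d) * (c - 2) := by
  have h3 : d ≤ n - 1 - d := by omega
  have h4 : n - 1 - d ≤ e := by omega
  rw [← sum_Ico_consecutive _ h3 h4]
  have h5 : ∑ i ∈ Ico d (n - 1 - d), (if i + d + 1 < n then 2 * (i : ℤ) + c - n else 0) =
      ∑ i ∈ Ico d (n - 1 - d), (2 * (i : ℤ) + (c - n)) := by
    refine sum_congr rfl fun i hi => ?_
    rw [mem_Ico] at hi
    rw [if_pos (by omega)]
    ring
  have h6 : ∑ i ∈ Ico (n - 1 - d) e, (if i + d + 1 < n then 2 * (i : ℤ) + c - n else 0) = 0 := by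
    refine sum_eq_zero fun i hi => ?_
    rw [mem_Ico] at hi
    rw [if_neg (by omega)]
  rw [h5, h6, sum_lin _ _ _ h3, add_zero]
  have h7 : ((n - 1 - d : ℕ) : ℤ) = (n : ℤ) - 1 - d := by omega
  rw [h7]
  ring

theorem word_g0 (n d e : ℕ) (h1 : n ≤ d + 1 + e) (hde : d ≤ e) :
    0 ≤ ∑ i ∈ Ico d e, (if i + d + 1 < n then 2 * (i : ℤ) + 2 - n else 0) := by
  by_cases h2 : 2 * d + 1 ≤ n
  · rw [word_g n d e 2 h1 hde h2]
    simp
  · rw [sum_eq_zero]
    intro i hi
    rw [mem_Ico] at hi
    rw [if_neg (by omega)]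

theorem word_g1 (n d e : ℕ) (h1 : n ≤ d + 1 + e) (hde : d ≤ e) (hn : 1 ≤ n) :
    -((n : ℤ) - 1) ≤ ∑ i ∈ Ico d e, (if i + d + 1 < n then 2 * (i : ℤ) + 1 - n else 0) ∧
    -((n : ℤ) - d) ≤ ∑ i ∈ Ico d e, (if i + d + 1 < n then 2 * (i : ℤ) + 1 - n else 0) ∨
      n < d + 1 := by
  by_cases h2 : 2 * d + 1 ≤ n
  · left
    rw [word_g n d e 1 h1 hde h2]
    constructor <;> nlinarith
  · by_cases h3 : n < d + 1
    · exact Or.inr h3
    · left
      have : ∑ i ∈ Ico d e, (if i + d + 1 < n then 2 * (i : ℤ) + 1 - n else 0) = 0 := by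
        rw [sum_eq_zero]
        intro i hi
        rw [mem_Ico] at hi
        rw [if_neg (by omega)]
      rw [this]
      constructor <;> omega

section

variable (n b : ℕ) (p : ℕ → Prop) [DecidablePred p] (a : ℕ → ℤ)

/-- Lower bound for the terms above the first position without `A`. -/
theorem word_tail (d e : ℕ) (hd : ¬ p d) (ha2 : ∀ i d, ¬ p d → d < i → a i ≤ d - 1) (c : ℤ)
    (hc : c = 1 ∨ c = 2) :
    ∑ i ∈ Ico d e, (if i + d + 1 < n then 2 * (i : ℤ) + c - n else 0) ≤
      ∑ i ∈ Ico d e, (if p i then (i : ℤ) - a i else 2 * (i : ℤ) + c - n) := by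
  refine sum_le_sum fun i hi => ?_
  rw [mem_Ico] at hi
  by_cases hp : p i
  · rw [if_pos hp]
    have hid : d < i := by
      rcases hi.1.lt_or_eq with h | h
      · exact h
      · exact absurd (h ▸ hp) hd
    have := ha2 i d hd hid
    split_ifs with h
    · rcases hc with rfl | rfl <;> omega
    · omega
  · rw [if_neg hp]
    split_ifs with h
    · exact le_refl _
    · rcases hc with rfl | rfl <;> omega

theorem word_head (d : ℕ) (ha : ∀ i, a i ≤ i) (hd : ∀ i, b ≤ i → i < d → p i) (c : ℤ) :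
    0 ≤ ∑ i ∈ Ico b d, (if p i then (i : ℤ) - a i else 2 * (i : ℤ) + c - n) := by
  refine sum_nonneg fun i hi => ?_
  rw [mem_Ico] at hi
  rw [if_pos (hd i hi.1 hi.2)]
  have := ha i
  omega

/-- The sum of the terms `s_i` is nonnegative. -/
theorem word_s (hb : b ≤ n) (ha : ∀ i, a i ≤ i) (ha2 : ∀ i d, ¬ p d → d < i → a i ≤ d - 1)
    (e : ℕ) (he : e = n ∨ e + 1 = n) (h0 : p 0) (hbe : b ≤ e) :
    0 ≤ ∑ i ∈ Ico b e, (if p i then (i : ℤ) - a i else 2 * (i : ℤ) + 2 - n) := by
  by_cases hD : ∃ d, b ≤ d ∧ d < e ∧ ¬ p d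
  · have hd := Nat.find_spec hD
    set d := Nat.find hD with hdd
    have hmin : ∀ i, b ≤ i → i < d → p i := by
      intro i h1 h2
      by_contra h3
      exact Nat.find_min hD h2 ⟨h1, h2.trans hd.2.1, h3⟩
    have hd1 : 1 ≤ d := by
      rcases Nat.eq_zero_or_pos d with h | h
      · rw [h] at hd; exact absurd h0 hd.2.2
      · exact h
    rw [← sum_Ico_consecutive _ hd.1 hd.2.1.le]
    have e1 := word_head n b p a d ha hmin 2
    have e2 := word_tail n p a d e hd.2.2 ha2 2 (Or.inr rfl)
    have e3 := word_g0 n d e (by omega) hd.2.1.le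
    linarith
  · push Not at hD
    exact word_head n b p a e ha (fun i h1 h2 => hD i h1 h2) 2

/-- (i): no light. -/
theorem word_one (hb : b < n) (h0 : p 0) (ha : ∀ i, a i ≤ i)
    (ha2 : ∀ i d, ¬ p d → d < i → a i ≤ d - 1) (hlast : ¬ p (n - 1)) :
    ∑ i ∈ (Ico b n).filter p, (a i + 1) ≤
      ∑ i ∈ (Ico b n).filter p, ((n : ℤ) - 1 - i) + b * (n - 1 - b) := by
  have h1 := word_s n b p a hb.le ha ha2 (n - 1) (Or.inr (by omega)) h0 (by omega)
  have h2 : ∑ i ∈ Ico b n, (if p i then (i : ℤ) - a i else 2 * (i : ℤ) + 2 - n) =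
      ∑ i ∈ Ico b (n - 1), (if p i then (i : ℤ) - a i else 2 * (i : ℤ) + 2 - n) + n := by
    obtain ⟨m, rfl⟩ : ∃ m, n = m + 1 := ⟨n - 1, by omega⟩
    rw [sum_Ico_succ_top (by omega)]
    have : m + 1 - 1 = m := rfl
    rw [this] at hlast ⊢
    rw [if_neg hlast]
    push_cast
    ring
  have h3 := sum_lin_neg ((n : ℤ) - 2) b n hb.le
  have h4 : ∑ i ∈ (Ico b n).filter p, ((n : ℤ) - 1 - i) - ∑ i ∈ (Ico b n).filter p, (a i + 1) =
      ∑ i ∈ Ico b n, (if p i then (i : ℤ) - a i else 2 * (i : ℤ) + 2 - n) +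
        ∑ i ∈ Ico b n, ((n : ℤ) - 2 - 2 * (i : ℤ)) := by
    rw [← sum_sub_distrib, sum_filter, ← sum_add_distrib]
    refine sum_congr rfl fun i _ => ?_
    split_ifs <;> ring
  have h5 : ∑ i ∈ (Ico b n).filter p, ((n : ℤ) - 1 - i) + (b : ℤ) * (n - 1 - b) -
      ∑ i ∈ (Ico b n).filter p, (a i + 1) =
      ∑ i ∈ Ico b (n - 1), (if p i then (i : ℤ) - a i else 2 * (i : ℤ) + 2 - n) := by
    rw [h2, h3] at h4
    linear_combination h4
  linarith

/-- (ii): the only light element. -/
theorem word_two (hb : b < n) (h0 : p 0) (ha : ∀ i, a i ≤ i)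
    (ha2 : ∀ i d, ¬ p d → d < i → a i ≤ d - 1) :
    ∑ i ∈ (Ico b n).filter p, a i ≤
      ∑ i ∈ (Ico b n).filter p, ((n : ℤ) - 1 - i) + b * (n - b) := by
  have h1 : 0 ≤ ∑ i ∈ Ico b n, (if p i then (i : ℤ) - a i else 2 * (i : ℤ) + 1 - n) := by
    by_cases hD : ∃ d, b ≤ d ∧ d < n ∧ ¬ p d
    · have hd := Nat.find_spec hD
      set d := Nat.find hD with hdd
      have hmin : ∀ i, b ≤ i → i < d → p i := by
        intro i h1 h2
        by_contra h3
        exact Nat.find_min hD h2 ⟨h1, h2.trans hd.2.1, h3⟩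
      have hd1 : 1 ≤ d := by
        rcases Nat.eq_zero_or_pos d with h | h
        · rw [h] at hd; exact absurd h0 hd.2.2
        · exact h
      rw [← sum_Ico_consecutive _ hd.1 hd.2.1.le]
      have e1 := word_head n b p a d ha hmin 1
      by_cases hdn : d = n - 1
      · obtain ⟨m, rfl⟩ : ∃ m, n = m + 1 := ⟨n - 1, by omega⟩
        have hdm : d = m := hdn
        rw [hdm] at hd e1 ⊢
        rw [sum_Ico_succ_top (le_refl _), Ico_self, sum_empty, if_neg hd.2.2]
        push_cast at e1 ⊢
        linarith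
      · have e2 := word_tail n p a d (n - 1) hd.2.2 ha2 1 (Or.inl rfl)
        have e3 := word_g1 n d (n - 1) (by omega) (by omega) (by omega)
        obtain ⟨m, rfl⟩ : ∃ m, n = m + 1 := ⟨n - 1, by omega⟩
        have hm : m + 1 - 1 = m := rfl
        rw [hm] at e2 e3 hdn
        have hdm : d < m := by omega
        rw [sum_Ico_succ_top (by omega)]
        rcases e3 with ⟨e4, e5⟩ | e3
        · by_cases hpm : p m
          · rw [if_pos hpm]
            have := ha2 m d hd.2.2 hdm
            push_cast at e1 e2 e4 e5 ⊢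
            linarith
          · rw [if_neg hpm]
            push_cast at e1 e2 e4 e5 ⊢
            linarith
        · omega
    · push Not at hD
      exact word_head n b p a n ha (fun i h1 h2 => hD i h1 h2) 1
  have h3 := sum_lin_neg ((n : ℤ) - 1) b n hb.le
  have h4 : ∑ i ∈ (Ico b n).filter p, ((n : ℤ) - 1 - i) - ∑ i ∈ (Ico b n).filter p, a i =
      ∑ i ∈ Ico b n, (if p i then (i : ℤ) - a i else 2 * (i : ℤ) + 1 - n) +
        ∑ i ∈ Ico b n, ((n : ℤ) - 1 - 2 * (i : ℤ)) := by
    rw [← sum_sub_distrib, sum_filter, ← sum_add_distrib]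
    refine sum_congr rfl fun i _ => ?_
    split_ifs <;> ring
  have h5 : ∑ i ∈ (Ico b n).filter p, ((n : ℤ) - 1 - i) + (b : ℤ) * (n - b) -
      ∑ i ∈ (Ico b n).filter p, a i =
      ∑ i ∈ Ico b n, (if p i then (i : ℤ) - a i else 2 * (i : ℤ) + 1 - n) := by
    rw [h3] at h4
    linear_combination h4
  linarith

end

end R5

end

section

/-!
# The total of the S side as a sum of slacks of the states (path layer)
-/

namespace R5

open Finset

variable {α : Type} [DecidableEq α]

/-! ## Path functionals -/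

/-- Indicator: the last object of the path above `U` is an edge. -/
noncomputable def leI (τ : Finset α → Lab) : Finset α → List α → ℝ :=
  psum (fun U x π => if isE τ U x then gd τ (insert x U) π else 0)

theorem leI_cons (τ : Finset α → Lab) (U : Finset α) (x : α) (π : List α) :
    leI τ U (x :: π) = (if isE τ U x then gd τ (insert x U) π else 0) +
      leI τ (insert x U) π := rfl

/-- Number of further sets of the initial `A`-run. -/
def arun (τ : Finset α → Lab) : Finset α → List α → ℕ
  | _, [] => 0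
  | U, x :: π => if τ (insert x U) = Lab.A then arun τ (insert x U) π + 1 else 0

theorem arun_cons (τ : Finset α → Lab) (U : Finset α) (x : α) (π : List α) :
    arun τ U (x :: π) = if τ (insert x U) = Lab.A then arun τ (insert x U) π + 1 else 0 := rfl

/-! ## The mass of the edges -/

/-! ## Telescoping -/

end R5

end

section

/-!
# (S0'): the value of a state of the S side (notes 1461 and 1477)

The average of the smallest value of a state `X` is at least
`lamn N * (E[leI * arun] + (1 - a) * E[leI])`, `a` = number of elements `x` with `τ (D - x) = A`.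
-/

namespace R5

open Finset

variable {α : Type} [DecidableEq α]

/-! ## Path sums -/

theorem psum_append (Φ : Finset α → α → List α → ℝ) (π1 π2 : List α) : ∀ U : Finset α,
    psum Φ U (π1 ++ π2) = psum (fun V x π => Φ V x (π ++ π2)) U π1 +
      psum Φ (U ∪ π1.toFinset) π2 := by
  induction π1 with
  | nil => intro U; simp [psum]
  | cons y π ih =>
    intro U
    show Φ U y (π ++ π2) + psum Φ (insert y U) (π ++ π2) = (Φ U y (π ++ π2) + psum _ (insert y U) π) + _
    rw [ih]
    have : insert y U ∪ π.toFinset = U ∪ (y :: π).toFinset := by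
      rw [List.toFinset_cons, insert_union, union_insert]
    rw [this]
    ring

theorem psum_nonneg {Φ : Finset α → α → List α → ℝ} (h : ∀ V x π, 0 ≤ Φ V x π) (π : List α) :
    ∀ U : Finset α, 0 ≤ psum Φ U π := by
  induction π with
  | nil => intro U; exact le_refl _
  | cons y π ih =>
    intro U
    exact add_nonneg (h _ _ _) (ih _)

theorem psum_ge {Φ : Finset α → α → List α → ℝ} (h : ∀ V x π, 0 ≤ Φ V x π) (U : Finset α)
    (π1 : List α) (y : α) (π2 : List α) :
    Φ (U ∪ π1.toFinset) y π2 ≤ psum Φ U (π1 ++ y :: π2) := by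
  rw [psum_append]
  have h1 := psum_nonneg (Φ := fun V x π => Φ V x (π ++ y :: π2)) (fun V x π => h _ _ _) π1 U
  have h2 := psum_nonneg h π2 (insert y (U ∪ π1.toFinset))
  show _ ≤ _ + (Φ (U ∪ π1.toFinset) y π2 + psum Φ _ π2)
  linarith

theorem psum_mono_path (Φ Ψ : Finset α → α → List α → ℝ) (π : List α) : ∀ U : Finset α,
    (∀ π1 y π2, π = π1 ++ y :: π2 → Φ (U ∪ π1.toFinset) y π2 ≤ Ψ (U ∪ π1.toFinset) y π2) →
    psum Φ U π ≤ psum Ψ U π := by
  induction π with
  | nil => intro U _; exact le_refl _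
  | cons y π ih =>
    intro U h
    refine add_le_add ?_ (ih _ ?_)
    · have := h [] y π rfl
      simpa using this
    · intro π1 z π2 hπ
      have := h (y :: π1) z π2 (by rw [hπ]; rfl)
      have e : U ∪ (y :: π1).toFinset = insert y U ∪ π1.toFinset := by
        rw [List.toFinset_cons, insert_union, union_insert]
      rwa [e] at this

theorem psum_congr_path (Φ Ψ : Finset α → α → List α → ℝ) (π : List α) (U : Finset α)
    (h : ∀ π1 y π2, π = π1 ++ y :: π2 → Φ (U ∪ π1.toFinset) y π2 = Ψ (U ∪ π1.toFinset) y π2) :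
    psum Φ U π = psum Ψ U π :=
  le_antisymm (psum_mono_path Φ Ψ π U fun a b c d => (h a b c d).le)
    (psum_mono_path Ψ Φ π U fun a b c d => (h a b c d).ge)

theorem psum_zero (π : List α) : ∀ U : Finset α, psum (fun _ _ _ => 0) U π = 0 := by
  induction π with
  | nil => intro U; rfl
  | cons y π ih =>
    intro U
    show 0 + psum _ _ π = 0
    rw [ih, zero_add]

theorem psum_sum {ι : Type} (K : Finset ι) (Φ : ι → Finset α → α → List α → ℝ) (π : List α) :
    ∀ U : Finset α, psum (fun U x π => ∑ i ∈ K, Φ i U x π) U π = ∑ i ∈ K, psum (Φ i) U π := by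
  induction π with
  | nil => intro U; simp [psum]
  | cons y π ih =>
    intro U
    show _ + psum _ _ π = ∑ i ∈ K, (Φ i U y π + psum (Φ i) (insert y U) π)
    rw [ih, sum_add_distrib]

/-! ## Good words -/

theorem gd_cases (τ : Finset α → Lab) (π : List α) : ∀ U : Finset α,
    gd τ U π = 0 ∨ gd τ U π = 1 := by
  induction π with
  | nil =>
    intro U
    show (if τ U = Lab.B then (1 : ℝ) else 0) = 0 ∨ (if τ U = Lab.B then (1 : ℝ) else 0) = 1
    split_ifs <;> simp
  | cons y π ih =>
    intro U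
    show (if τ U = Lab.B then gd τ (insert y U) π else 0) = 0 ∨
      (if τ U = Lab.B then gd τ (insert y U) π else 0) = 1
    split_ifs
    · exact ih _
    · simp

theorem gd_nonneg (τ : Finset α → Lab) (U : Finset α) (π : List α) : 0 ≤ gd τ U π := by
  rcases gd_cases τ π U with h | h <;> rw [h] <;> norm_num

theorem gd_one_lab {τ : Finset α → Lab} {U : Finset α} {π : List α} (h : gd τ U π = 1) :
    τ U = Lab.B := by
  cases π with
  | nil =>
    by_contra h2
    have : gd τ U [] = 0 := if_neg h2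
    rw [this] at h
    norm_num at h
  | cons y π =>
    by_contra h2
    have : gd τ U (y :: π) = 0 := if_neg h2
    rw [this] at h
    norm_num at h

/-! ## Functionals of one element -/

/-- Value of a step without the logarithm of `n` and with the smallest costs. -/
noncomputable def phiM (τ : Finset α → Lab) (ρ : α → ℝ) (N : ℝ) (X : Finset α) :
    Finset α → α → List α → ℝ := fun U x π =>
  (if isE τ U x then gd τ (insert x U) π * (-Real.log (ρ x) +
      (π.length : ℝ) * -Real.log (1 - (∑ g ∈ insert x U \ X, ρ g) / N)) else 0) +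
  (if τ U = Lab.X then gd τ (insert x U) π * (((π.length : ℝ) + 1) *
      -Real.log (1 - (∑ g ∈ U \ X, ρ g) / N)) else 0)

/-- Indicator: the last object is an edge with the element `x`. -/
noncomputable def eI (τ : Finset α → Lab) (x : α) : Finset α → List α → ℝ :=
  psum (fun U y π => if y = x ∧ isE τ U y then gd τ (insert y U) π else 0)

/-- Step of `qI`. -/
noncomputable def qs (τ : Finset α → Lab) (x : α) : Finset α → α → List α → ℝ := fun U y π =>
  (if isE τ U y ∧ x ∈ insert y U then gd τ (insert y U) π * (π.length : ℝ) else 0) +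
  (if τ U = Lab.X ∧ x ∈ U then gd τ (insert y U) π * ((π.length : ℝ) + 1) else 0)

/-- Size of the rest above the last object, if the object contains `x`. -/
noncomputable def qI (τ : Finset α → Lab) (x : α) : Finset α → List α → ℝ := psum (qs τ x)

theorem qs_nonneg (τ : Finset α → Lab) (x : α) (U : Finset α) (y : α) (π : List α) :
    0 ≤ qs τ x U y π := by
  unfold qs
  have := gd_nonneg τ (insert y U) π
  refine add_nonneg ?_ ?_
  · split_ifs
    · positivity
    · exact le_refl _
  · split_ifs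
    · positivity
    · exact le_refl _

theorem leI_nonneg (τ : Finset α → Lab) (U : Finset α) (π : List α) : 0 ≤ leI τ U π := by
  unfold leI
  refine psum_nonneg (fun V x π => ?_) π U
  have := gd_nonneg τ (insert x V) π
  split_ifs
  · exact this
  · exact le_refl _

theorem leI_ge (τ : Finset α → Lab) (U : Finset α) (π1 : List α) (y : α) (π2 : List α)
    (hE : isE τ (U ∪ π1.toFinset) y) (hg : gd τ (insert y (U ∪ π1.toFinset)) π2 = 1) :
    1 ≤ leI τ U (π1 ++ y :: π2) := by
  unfold leI
  refine le_trans ?_ (psum_ge (fun V x π => ?_) U π1 y π2)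
  · simp only [if_pos hE, hg]; exact le_refl _
  · have := gd_nonneg τ (insert x V) π
    split_ifs
    · exact this
    · exact le_refl _

theorem eI_insert (τ : Finset α → Lab) (x : α) (U : Finset α) (π1 π2 : List α)
    (h1 : x ∉ π1) (h2 : x ∉ π2) : eI τ x U (π1 ++ x :: π2) =
      if isE τ (U ∪ π1.toFinset) x then gd τ (insert x (U ∪ π1.toFinset)) π2 else 0 := by
  unfold eI
  rw [psum_append]
  have e1 : psum (fun V y π => (fun U y π => if y = x ∧ isE τ U y then gd τ (insert y U) π
      else 0) V y (π ++ x :: π2)) U π1 = 0 := by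
    refine (psum_congr_path _ (fun _ _ _ => 0) π1 U fun a y c hπ => ?_).trans (psum_zero π1 U)
    have : y ≠ x := by
      rintro rfl
      exact h1 (by rw [hπ]; simp)
    simp [this]
  rw [e1, zero_add]
  show (if x = x ∧ isE τ (U ∪ π1.toFinset) x then gd τ (insert x (U ∪ π1.toFinset)) π2 else 0) +
    psum _ _ π2 = _
  have e2 : psum (fun U y π => if y = x ∧ isE τ U y then gd τ (insert y U) π
      else 0) (insert x (U ∪ π1.toFinset)) π2 = 0 := by
    refine (psum_congr_path _ (fun _ _ _ => 0) π2 _ fun a y c hπ => ?_).trans (psum_zero π2 _)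
    have : y ≠ x := by
      rintro rfl
      exact h2 (by rw [hπ]; simp)
    simp [this]
  rw [e2, add_zero]
  simp

theorem sum_eI (τ : Finset α → Lab) (G : Finset α) (U : Finset α) (π : List α)
    (h : ∀ x ∈ π, x ∈ G) : ∑ x ∈ G, eI τ x U π = leI τ U π := by
  unfold eI leI
  rw [← psum_sum]
  refine psum_congr_path _ _ π U fun a y c hπ => ?_
  have hy : y ∈ G := h y (by rw [hπ]; simp)
  rw [sum_eq_single y]
  · simp
  · intro z _ hz
    rw [if_neg]
    rintro ⟨rfl, -⟩
    exact hz rfl
  · intro h'; exact absurd hy h'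

/-! ## The initial run -/

theorem arun_le (τ : Finset α → Lab) (π : List α) : ∀ U : Finset α, arun τ U π ≤ π.length := by
  induction π with
  | nil => intro U; exact le_refl _
  | cons y π ih =>
    intro U
    rw [arun_cons, List.length_cons]
    split_ifs
    · exact Nat.succ_le_succ (ih _)
    · exact Nat.zero_le _

theorem arun_lt (τ : Finset α → Lab) (π : List α) : ∀ (U : Finset α) (d : ℕ), 1 ≤ d →
    d ≤ π.length → τ (U ∪ (π.take d).toFinset) ≠ Lab.A → arun τ U π + 1 ≤ d := by
  induction π with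
  | nil => intro U d h1 h2 _; simp only [List.length_nil] at h2; omega
  | cons y π ih =>
    intro U d h1 h2 h3
    obtain ⟨e, rfl⟩ : ∃ e, d = e + 1 := ⟨d - 1, by omega⟩
    rw [arun_cons]
    split_ifs with h
    · rw [List.take_succ_cons] at h3
      have e1 : U ∪ (y :: List.take e π).toFinset = insert y U ∪ (List.take e π).toFinset := by
        rw [List.toFinset_cons, insert_union, union_insert]
      rw [e1] at h3
      rcases Nat.eq_zero_or_pos e with he | he
      · subst he
        simp only [List.take_zero, List.toFinset_nil, union_empty] at h3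
        exact absurd h h3
      · have := ih (insert y U) e he (by simpa using h2) h3
        omega
    · omega

theorem arun_append (τ : Finset α → Lab) (x : α) (π2 : List α) (π1 : List α) : ∀ U : Finset α,
    τ (insert x (U ∪ π1.toFinset)) ≠ Lab.A → arun τ U (π1 ++ x :: π2) = arun τ U π1 := by
  induction π1 with
  | nil =>
    intro U h
    simp only [List.toFinset_nil, union_empty] at h
    show arun τ U (x :: π2) = arun τ U []
    rw [arun_cons, if_neg h]
    rfl
  | cons y π ih =>
    intro U h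
    show arun τ U (y :: (π ++ x :: π2)) = _
    rw [arun_cons, arun_cons, ih]
    rwa [List.toFinset_cons, union_insert, ← insert_union] at h

/-! ## The track of one element -/

theorem insertIdx_eq (x : α) (w : List α) : ∀ i, i ≤ w.length →
    w.insertIdx i x = w.take i ++ x :: w.drop i := by
  induction w with
  | nil =>
    intro i hi
    have : i = 0 := Nat.le_zero.1 hi
    subst this
    rfl
  | cons y w ih =>
    intro i hi
    cases i with
    | zero => rfl
    | succ i =>
      rw [List.insertIdx_succ_cons, ih i (by simpa using hi)]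
      rfl

/-- The lower sets of the track. -/
def Pl (X : Finset α) (w : List α) (i : ℕ) : Finset α := X ∪ (w.take i).toFinset

theorem Pl_zero (X : Finset α) (w : List α) : Pl X w 0 = X := by
  unfold Pl; simp

theorem Pl_top (X : Finset α) (w : List α) {i : ℕ} (h : w.length ≤ i) :
    Pl X w i = X ∪ w.toFinset := by
  unfold Pl; rw [List.take_of_length_le h]

theorem Pl_succ (X : Finset α) (w : List α) {i : ℕ} (h : i < w.length) :
    insert w[i] (Pl X w i) = Pl X w (i + 1) := by
  unfold Pl
  rw [← List.take_append_getElem h, List.toFinset_append]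
  ext y
  simp only [mem_insert, mem_union, List.mem_toFinset, List.mem_singleton]
  tauto

theorem gd_track (τ : Finset α → Lab) (X : Finset α) (x : α) (w : List α) {i : ℕ}
    (h : i < w.length) : gd τ (insert x (Pl X w i)) (w.drop i) =
      if τ (insert x (Pl X w i)) = Lab.B then gd τ (insert x (Pl X w (i + 1))) (w.drop (i + 1))
      else 0 := by
  rw [List.drop_eq_getElem_cons h, gd_cons, ← Pl_succ X w h, insert_comm]

theorem track_aux (τ : Finset α → Lab) (X : Finset α) (x : α) (w : List α) (b : ℕ)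
    (hbw : b ≤ w.length) (hb : gd τ (insert x (Pl X w b)) (w.drop b) = 1)
    (hmin : ∀ j, j < b → gd τ (insert x (Pl X w j)) (w.drop j) ≠ 1) :
    ∃ c : ℝ, (c = 0 ∨ c = 1) ∧ ∀ i, i < b →
      ((w.length : ℝ) - b) + c ≤ qI τ x X (w.take i ++ x :: w.drop i) ∧
      1 - c ≤ leI τ X (w.take i ++ x :: w.drop i) := by
  rcases Nat.eq_zero_or_pos b with h0 | hpos
  · exact ⟨0, Or.inl rfl, fun i hi => by omega⟩
  obtain ⟨d, rfl⟩ : ∃ d, b = d + 1 := ⟨b - 1, by omega⟩
  have hd : d < w.length := by omega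
  have hQ : τ (insert x (Pl X w d)) ≠ Lab.B := by
    intro h
    apply hmin d (Nat.lt_succ_self d)
    rw [gd_track τ X x w hd, if_pos h, hb]
  have hL : ∀ i, i < d + 1 → w.take i ++ x :: w.drop i =
      (w.take i ++ x :: (w.take d).drop i) ++ w[d] :: w.drop (d + 1) := by
    intro i hi
    have h1 : w.drop i = (w.take d).drop i ++ w[d] :: w.drop (d + 1) := by
      rw [← List.drop_eq_getElem_cons hd]
      rw [← List.drop_append_of_le_length (by rw [List.length_take]; omega), List.take_append_drop]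
    rw [List.append_assoc, List.cons_append, ← h1]
  have hU : ∀ i, i < d + 1 → X ∪ (w.take i ++ x :: (w.take d).drop i).toFinset =
      insert x (Pl X w d) := by
    intro i hi
    have h1 : w.take d = w.take i ++ (w.take d).drop i := by
      conv_lhs => rw [← List.take_append_drop i (w.take d), List.take_take, min_eq_left (by omega)]
    unfold Pl
    conv_rhs => rw [h1]
    rw [List.toFinset_append, List.toFinset_append, List.toFinset_cons]
    ext y
    simp only [mem_insert, mem_union]
    tauto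
  have hins : insert w[d] (insert x (Pl X w d)) = insert x (Pl X w (d + 1)) := by
    rw [insert_comm, Pl_succ X w hd]
  have hlen : ((w.drop (d + 1)).length : ℝ) = (w.length : ℝ) - (d + 1) := by
    rw [List.length_drop]
    push_cast [Nat.cast_sub hbw]
    ring
  have hmem : x ∈ insert x (Pl X w d) := mem_insert_self _ _
  have hBl : τ (insert x (Pl X w (d + 1))) = Lab.B := gd_one_lab hb
  have hq : ∀ i, i < d + 1 → qs τ x (insert x (Pl X w d)) w[d] (w.drop (d + 1)) ≤
      qI τ x X (w.take i ++ x :: w.drop i) := by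
    intro i hi
    have := psum_ge (qs_nonneg τ x) X (w.take i ++ x :: (w.take d).drop i) w[d] (w.drop (d + 1))
    rw [hU i hi, ← hL i hi] at this
    exact this
  rcases hl : τ (insert x (Pl X w d)) with _ | _ | _
  · refine ⟨0, Or.inl rfl, fun i hi => ⟨?_, ?_⟩⟩
    · refine le_trans ?_ (hq i hi)
      unfold qs
      rw [hins, hb, if_pos ⟨⟨hl, by rw [hins]; exact hBl⟩, mem_insert_self _ _⟩,
        if_neg (by rw [hl]; simp), hlen]
      push_cast
      linarith
    · rw [sub_zero, hL i hi]
      refine leI_ge τ X _ _ _ ?_ ?_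
      · rw [hU i hi]
        exact ⟨hl, by rw [hins]; exact hBl⟩
      · rw [hU i hi, hins, hb]
  · exact absurd hl hQ
  · refine ⟨1, Or.inr rfl, fun i hi => ⟨?_, ?_⟩⟩
    · refine le_trans ?_ (hq i hi)
      unfold qs
      rw [hins, hb, if_neg (by rintro ⟨⟨h, -⟩, -⟩; rw [hl] at h; exact absurd h (by decide)),
        if_pos ⟨hl, hmem⟩, hlen]
      push_cast
      linarith
    · rw [sub_self]
      exact leI_nonneg _ _ _

theorem sum_low (g f : ℕ → ℝ) (c : ℝ) (b n : ℕ) (hbn : b ≤ n) (p : ℕ → Prop) [DecidablePred p]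
    (h1 : ∀ i ∈ (Ico b n).filter p, f i ≤ g i) (h2 : ∀ i, i < b → c ≤ g i) (h3 : ∀ i, 0 ≤ g i) :
    ∑ i ∈ (Ico b n).filter p, f i + (b : ℝ) * c ≤ ∑ i ∈ range n, g i := by
  have hd : Disjoint ((Ico b n).filter p) (range b) := by
    rw [Finset.disjoint_left]
    intro i hi hi'
    rw [mem_filter, mem_Ico] at hi
    rw [mem_range] at hi'
    omega
  have hs : (Ico b n).filter p ∪ range b ⊆ range n := by
    intro i hi
    rw [mem_union, mem_filter, mem_Ico, mem_range] at hi
    rw [mem_range]
    omega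
  have h4 : ∑ i ∈ range b, c ≤ ∑ i ∈ range b, g i :=
    sum_le_sum fun i hi => h2 i (mem_range.1 hi)
  rw [sum_const, card_range, nsmul_eq_mul] at h4
  calc _ ≤ ∑ i ∈ (Ico b n).filter p, g i + ∑ i ∈ range b, g i := add_le_add (sum_le_sum h1) h4
    _ = ∑ i ∈ (Ico b n).filter p ∪ range b, g i := (sum_union hd).symm
    _ ≤ _ := sum_le_sum_of_subset_of_nonneg hs fun i _ _ => h3 i

theorem sum_sel (f : ℕ → ℝ) (b n : ℕ) (p : ℕ → Prop) [DecidablePred p] :
    ∑ i ∈ range n, (if b ≤ i ∧ p i then f i else 0) = ∑ i ∈ (Ico b n).filter p, f i := by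
  rw [← sum_filter]
  refine sum_congr ?_ fun _ _ => rfl
  ext i
  simp only [mem_filter, mem_range, mem_Ico]
  tauto

theorem track (τ : Finset α → Lab) (X : Finset α) (x : α) (w : List α) (hxw : x ∉ w)
    (hA : τ X = Lab.A) (hB : τ (insert x (X ∪ w.toFinset)) = Lab.B) :
    (τ (X ∪ w.toFinset) ≠ Lab.A →
      ∑ i ∈ range (w.length + 1), eI τ x X (w.insertIdx i x) *
          ((arun τ X (w.insertIdx i x) : ℝ) + 1) ≤
        (w.length : ℝ) * ∑ i ∈ range (w.length + 1), eI τ x X (w.insertIdx i x) ∧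
      ∑ i ∈ range (w.length + 1), eI τ x X (w.insertIdx i x) *
          ((arun τ X (w.insertIdx i x) : ℝ) + 1) ≤
        ∑ i ∈ range (w.length + 1), qI τ x X (w.insertIdx i x)) ∧
    (∑ i ∈ range (w.length + 1), eI τ x X (w.insertIdx i x) *
          ((arun τ X (w.insertIdx i x) : ℝ) + 1) -
        ∑ i ∈ range (w.length + 1), leI τ X (w.insertIdx i x) ≤
        (w.length : ℝ) * ∑ i ∈ range (w.length + 1), eI τ x X (w.insertIdx i x) ∧
      ∑ i ∈ range (w.length + 1), eI τ x X (w.insertIdx i x) *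
          ((arun τ X (w.insertIdx i x) : ℝ) + 1) -
        ∑ i ∈ range (w.length + 1), leI τ X (w.insertIdx i x) ≤
        ∑ i ∈ range (w.length + 1), qI τ x X (w.insertIdx i x)) := by
  classical
  obtain ⟨m, hm⟩ : ∃ m, w.length = m := ⟨_, rfl⟩
  have htop : gd τ (insert x (Pl X w m)) (w.drop m) = 1 := by
    rw [Pl_top X w hm.le, List.drop_of_length_le hm.le]
    exact if_pos hB
  have hex : ∃ i, gd τ (insert x (Pl X w i)) (w.drop i) = 1 := ⟨m, htop⟩
  obtain ⟨b, hb, hmin⟩ : ∃ b, gd τ (insert x (Pl X w b)) (w.drop b) = 1 ∧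
      ∀ j, j < b → gd τ (insert x (Pl X w j)) (w.drop j) ≠ 1 :=
    ⟨Nat.find hex, Nat.find_spec hex, fun j hj => Nat.find_min hex hj⟩
  have hbm : b ≤ m := by
    by_contra h
    exact hmin m (by omega) htop
  have hup : ∀ i, b ≤ i → i ≤ m → gd τ (insert x (Pl X w i)) (w.drop i) = 1 := by
    intro i hi
    induction i, hi using Nat.le_induction with
    | base => intro _; exact hb
    | succ i hi ih =>
      intro him
      have h1 := ih (by omega)
      have h2 := gd_one_lab h1
      rw [gd_track τ X x w (by omega), if_pos h2] at h1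
      exact h1
  obtain ⟨c, hc, hlow⟩ := track_aux τ X x w b (by omega) hb hmin
  obtain ⟨p, hp⟩ : ∃ p : ℕ → Prop, ∀ i, p i ↔ τ (Pl X w i) = Lab.A := ⟨_, fun _ => Iff.rfl⟩
  obtain ⟨a, haa⟩ : ∃ a : ℕ → ℤ, ∀ i, a i = (arun τ X (w.take i) : ℤ) := ⟨_, fun _ => rfl⟩
  have h0 : p 0 := by rw [hp, Pl_zero]; exact hA
  have ha : ∀ i, a i ≤ i := by
    intro i
    rw [haa]
    have := arun_le τ (w.take i) X
    rw [List.length_take] at this
    have h2 := min_le_left i w.length
    exact_mod_cast this.trans h2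
  have ha2 : ∀ i d, ¬ p d → d < i → a i ≤ d - 1 := by
    intro i d hpd hdi
    have hd1 : 1 ≤ d := by
      rcases Nat.eq_zero_or_pos d with h | h
      · rw [h] at hpd; exact absurd h0 hpd
      · exact h
    rw [haa]
    by_cases hdm : d ≤ m
    · have := arun_lt τ (w.take i) X d hd1 (by rw [List.length_take]; omega) (by
        rw [List.take_take, min_eq_left hdi.le]
        exact fun h => hpd ((hp d).2 h))
      omega
    · have := arun_le τ (w.take i) X
      rw [List.length_take] at this
      have h2 := min_le_right i w.length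
      omega
  have hmem : ∀ i, x ∉ w.take i ∧ x ∉ w.drop i := fun i =>
    ⟨fun h => hxw (List.mem_of_mem_take h), fun h => hxw (List.mem_of_mem_drop h)⟩
  have he : ∀ i, i ≤ m → eI τ x X (w.insertIdx i x) = if b ≤ i ∧ p i then 1 else 0 := by
    intro i him
    rw [insertIdx_eq x w i (by omega), eI_insert τ x X _ _ (hmem i).1 (hmem i).2]
    show (if isE τ (Pl X w i) x then gd τ (insert x (Pl X w i)) (w.drop i) else 0) = _
    by_cases hbi : b ≤ i
    · have h1 := hup i hbi him
      by_cases hpi : p i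
      · rw [if_pos ⟨(hp i).1 hpi, gd_one_lab h1⟩, if_pos ⟨hbi, hpi⟩, h1]
      · rw [if_neg (fun h => hpi ((hp i).2 h.1)), if_neg (fun h => hpi h.2)]
    · rw [if_neg (fun h : b ≤ i ∧ p i => hbi h.1)]
      have h1 : gd τ (insert x (Pl X w i)) (w.drop i) = 0 := by
        rcases gd_cases τ (w.drop i) (insert x (Pl X w i)) with h | h
        · exact h
        · exact absurd h (hmin i (by omega))
      rw [h1, ite_self]
  have hr : ∀ i, i ≤ m → eI τ x X (w.insertIdx i x) * ((arun τ X (w.insertIdx i x) : ℝ) + 1) =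
      if b ≤ i ∧ p i then ((a i : ℝ) + 1) else 0 := by
    intro i him
    rw [he i him]
    split_ifs with h
    · have h1 := gd_one_lab (hup i h.1 him)
      have h2 : arun τ X (w.insertIdx i x) = arun τ X (w.take i) := by
        rw [insertIdx_eq x w i (by omega)]
        refine arun_append τ x _ _ X ?_
        have : τ (insert x (X ∪ (w.take i).toFinset)) = Lab.B := h1
        rw [this]
        decide
      rw [h2, haa i]
      push_cast
      ring
    · rw [zero_mul]
  have hl : ∀ i, i ≤ m → b ≤ i → p i → 1 ≤ leI τ X (w.insertIdx i x) := by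
    intro i him hbi hpi
    rw [insertIdx_eq x w i (by omega)]
    have h1 := hup i hbi him
    exact leI_ge τ X _ _ _ ⟨(hp i).1 hpi, gd_one_lab h1⟩ h1
  have hq : ∀ i, i ≤ m → b ≤ i → p i → (m : ℝ) - i ≤ qI τ x X (w.insertIdx i x) := by
    intro i him hbi hpi
    rw [insertIdx_eq x w i (by omega)]
    have h1 := hup i hbi him
    refine le_trans ?_ (psum_ge (qs_nonneg τ x) X (w.take i) x (w.drop i))
    show _ ≤ qs τ x (Pl X w i) x (w.drop i)
    unfold qs
    rw [if_pos ⟨⟨(hp i).1 hpi, gd_one_lab h1⟩, mem_insert_self _ _⟩, h1, List.length_drop, hm,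
      if_neg]
    · push_cast [Nat.cast_sub him]
      linarith
    · rintro ⟨h, -⟩
      rw [(hp i).1 hpi] at h
      exact absurd h (by decide)
  have hS : ∀ i ∈ (Ico b (m + 1)).filter p, i ≤ m ∧ b ≤ i ∧ p i := by
    intro i hi
    rw [mem_filter, mem_Ico] at hi
    exact ⟨by omega, hi.1.1, hi.2⟩
  have eR : ∑ i ∈ range (m + 1), eI τ x X (w.insertIdx i x) *
      ((arun τ X (w.insertIdx i x) : ℝ) + 1) = ∑ i ∈ (Ico b (m + 1)).filter p, ((a i : ℝ) + 1) := by
    rw [← sum_sel (fun i => (a i : ℝ) + 1)]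
    refine sum_congr rfl fun i hi => hr i ?_
    rw [mem_range] at hi; omega
  have eT : ∑ i ∈ range (m + 1), eI τ x X (w.insertIdx i x) =
      ∑ i ∈ (Ico b (m + 1)).filter p, (1 : ℝ) := by
    rw [← sum_sel (fun i => (1 : ℝ))]
    refine sum_congr rfl fun i hi => he i ?_
    rw [mem_range] at hi; omega
  have eL : ∑ i ∈ (Ico b (m + 1)).filter p, (1 : ℝ) + (b : ℝ) * (1 - c) ≤
      ∑ i ∈ range (m + 1), leI τ X (w.insertIdx i x) := by
    refine sum_low _ _ _ b (m + 1) (by omega) p (fun i hi => ?_) (fun i hi => ?_)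
      (fun i => leI_nonneg _ _ _)
    · obtain ⟨h1, h2, h3⟩ := hS i hi
      exact hl i h1 h2 h3
    · rw [insertIdx_eq x w i (by omega)]
      exact (hlow i hi).2
  have eQ : ∑ i ∈ (Ico b (m + 1)).filter p, ((m : ℝ) - i) + (b : ℝ) * (((m : ℝ) - b) + c) ≤
      ∑ i ∈ range (m + 1), qI τ x X (w.insertIdx i x) := by
    refine sum_low _ _ _ b (m + 1) (by omega) p (fun i hi => ?_) (fun i hi => ?_)
      (fun i => psum_nonneg (qs_nonneg τ x) _ _)
    · obtain ⟨h1, h2, h3⟩ := hS i hi
      exact hq i h1 h2 h3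
    · rw [insertIdx_eq x w i (by omega), ← hm]
      exact (hlow i hi).1
  have hc0 : 0 ≤ c := by rcases hc with rfl | rfl <;> norm_num
  have hbc : 0 ≤ (b : ℝ) * c := mul_nonneg (Nat.cast_nonneg _) hc0
  rw [hm]
  refine ⟨fun hna => ⟨?_, ?_⟩, ?_, ?_⟩
  · rw [eR, eT, mul_sum]
    refine sum_le_sum fun i hi => ?_
    obtain ⟨h1, h2, h3⟩ := hS i hi
    have h4 : i < m := by
      rcases h1.lt_or_eq with h | h
      · exact h
      · exfalso
        rw [h, hp, Pl_top X w hm.le] at h3
        exact hna h3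
    have h5 := ha i
    have h6 : a i + 1 ≤ (m : ℤ) := by omega
    rw [mul_one]
    exact_mod_cast h6
  · have hw := word_one (m + 1) b p a (by omega) h0 ha ha2 (by
      rw [hp, Nat.add_sub_cancel, Pl_top X w hm.le]; exact hna)
    have hw' := (Int.cast_le (R := ℝ)).2 hw
    push_cast at hw'
    rw [eR]
    refine le_trans ?_ eQ
    have e1 : ∑ i ∈ (Ico b (m + 1)).filter p, ((m : ℝ) + 1 - 1 - i) =
        ∑ i ∈ (Ico b (m + 1)).filter p, ((m : ℝ) - i) := sum_congr rfl fun i _ => by ring
    rw [e1] at hw'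
    linarith
  · rw [eR, eT, mul_sum]
    have h1 : ∑ i ∈ (Ico b (m + 1)).filter p, ((a i : ℝ) + 1) -
        ∑ i ∈ (Ico b (m + 1)).filter p, (1 : ℝ) ≤ ∑ i ∈ (Ico b (m + 1)).filter p, (m : ℝ) * 1 := by
      rw [← sum_sub_distrib]
      refine sum_le_sum fun i hi => ?_
      obtain ⟨h1, h2, h3⟩ := hS i hi
      have h5 := ha i
      have h6 : a i ≤ (m : ℤ) := by omega
      rw [mul_one, add_sub_cancel_right]
      exact_mod_cast h6
    have h2 : 0 ≤ (b : ℝ) * (1 - c) :=
      mul_nonneg (Nat.cast_nonneg _) (by rcases hc with rfl | rfl <;> norm_num)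
    linarith
  · have hw := word_two (m + 1) b p a (by omega) h0 ha ha2
    have hw' := (Int.cast_le (R := ℝ)).2 hw
    push_cast at hw'
    rw [eR]
    have e1 : ∑ i ∈ (Ico b (m + 1)).filter p, ((m : ℝ) + 1 - 1 - i) =
        ∑ i ∈ (Ico b (m + 1)).filter p, ((m : ℝ) - i) := sum_congr rfl fun i _ => by ring
    rw [e1] at hw'
    have e2 : ∑ i ∈ (Ico b (m + 1)).filter p, ((a i : ℝ) + 1) =
        ∑ i ∈ (Ico b (m + 1)).filter p, (a i : ℝ) + ∑ i ∈ (Ico b (m + 1)).filter p, (1 : ℝ) :=
      sum_add_distrib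
    rw [e2]
    have h3 : (b : ℝ) * (1 - c) + (b : ℝ) * c = b := by ring
    have h4 : (b : ℝ) * ((m : ℝ) + 1 - b) = (b : ℝ) * (m - b) + b := by ring
    have h5 : (b : ℝ) * (((m : ℝ) - b) + c) = (b : ℝ) * (m - b) + b * c := by ring
    linarith

end R5

end

section

/-!
# (S0'): assembly
-/

namespace R5

open Finset

variable {α : Type} [DecidableEq α]

theorem kap_super {N : ℝ} (hN0 : 0 < N) (ρ : α → ℝ) (Z : Finset α) : (∀ x ∈ Z, 0 ≤ ρ x) →
    (∑ x ∈ Z, ρ x) < N →
    ∑ x ∈ Z, -Real.log (1 - ρ x / N) ≤ -Real.log (1 - (∑ x ∈ Z, ρ x) / N) := by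
  induction Z using Finset.induction_on with
  | empty => intro _ _; simp
  | insert a Z ha ih =>
    intro h0 h1
    rw [sum_insert ha] at h1 ⊢
    rw [sum_insert ha]
    have ha0 : 0 ≤ ρ a := h0 a (mem_insert_self _ _)
    have hZ0 : ∀ x ∈ Z, 0 ≤ ρ x := fun x hx => h0 x (mem_insert_of_mem hx)
    have hs0 : 0 ≤ ∑ x ∈ Z, ρ x := sum_nonneg hZ0
    have h2 := ih hZ0 (by linarith)
    obtain ⟨s, hs⟩ : ∃ s, ∑ x ∈ Z, ρ x = s := ⟨_, rfl⟩
    rw [hs] at h1 h2 hs0 ⊢
    have e1 : 0 < 1 - ρ a / N := by
      rw [sub_pos, div_lt_one hN0]; linarith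
    have e2 : 0 < 1 - s / N := by
      rw [sub_pos, div_lt_one hN0]; linarith
    have e3 : 0 < 1 - (ρ a + s) / N := by
      rw [sub_pos, div_lt_one hN0]; linarith
    have e4 : Real.log (1 - (ρ a + s) / N) ≤ Real.log (1 - ρ a / N) + Real.log (1 - s / N) := by
      rw [← Real.log_mul e1.ne' e2.ne']
      refine Real.log_le_log e3 ?_
      have : 0 ≤ ρ a / N * (s / N) := by positivity
      have e5 : (ρ a + s) / N = ρ a / N + s / N := add_div _ _ _
      rw [e5]
      nlinarith
    linarith

theorem sum_lt_card {G Z : Finset α} (hZ : Z ⊆ G) {y : α} (hy : y ∈ G) (hyZ : y ∉ Z)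
    {ρ : α → ℝ} (h1 : ∀ x ∈ G, ρ x ≤ 1) {N : ℕ} (hN : G.card ≤ N) :
    ∑ x ∈ Z, ρ x < (N : ℝ) := by
  have h2 : ∑ x ∈ Z, ρ x ≤ (Z.card : ℝ) := by
    have := sum_le_sum (fun x hx => h1 x (hZ hx) : ∀ x ∈ Z, ρ x ≤ 1)
    simpa using this
  have h3 : Z.card < G.card := card_lt_card
    (Finset.ssubset_iff_subset_ne.2 ⟨hZ, fun h => hyZ (h ▸ hy)⟩)
  have h4 : (Z.card : ℝ) < N := by exact_mod_cast lt_of_lt_of_le h3 hN
  linarith

theorem lamn_nonneg (N : ℕ) : 0 ≤ lamn N := by
  unfold lamn
  rcases Nat.lt_or_ge 1 N with h | h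
  · have h2 : (2 : ℝ) ≤ N := by exact_mod_cast h
    refine Real.log_nonneg ?_
    rw [le_div_iff₀ (by linarith)]
    linarith
  · interval_cases N <;> simp

theorem sdiff_card_pos {D X : Finset α} {τ : Finset α → Lab} (hX : X ⊆ D) (hA : τ X = Lab.A)
    (hB : τ D = Lab.B) : ∃ m, (D \ X).card = m + 1 := by
  refine Nat.exists_eq_succ_of_ne_zero fun h => ?_
  rw [card_eq_zero, sdiff_eq_empty_iff_subset] at h
  have : X = D := Subset.antisymm hX h
  rw [this, hB] at hA
  exact absurd hA (by decide)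

/-- The elementwise lower bound. -/
theorem phiM_ge (τ : Finset α → Lab) (D X : Finset α) (hX : X ⊆ D)
    (ρ : α → ℝ) (h0 : ∀ x ∈ D \ X, 0 ≤ ρ x) (h1 : ∀ x ∈ D \ X, ρ x ≤ 1) (N : ℕ)
    (hN : (D \ X).card ≤ N) (hN1 : 1 ≤ N) (π : List α) (hπ : π ∈ seqs (D \ X).card (D \ X)) :
    ∑ x ∈ D \ X, (eI τ x X π * (-Real.log (ρ x)) + qI τ x X π * (-Real.log (1 - ρ x / (N : ℝ)))) ≤
      psum (phiM τ ρ N X) X π := by
  obtain ⟨hnd, hlen, hmem⟩ := mem_seqs.1 hπ
  have e1 : ∑ x ∈ D \ X, (eI τ x X π * (-Real.log (ρ x)) +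
      qI τ x X π * (-Real.log (1 - ρ x / (N : ℝ)))) =
      psum (fun U y π => ∑ x ∈ D \ X, ((-Real.log (ρ x)) *
        (if y = x ∧ isE τ U y then gd τ (insert y U) π else 0) +
        (-Real.log (1 - ρ x / (N : ℝ))) * qs τ x U y π)) X π := by
    rw [psum_sum (D \ X) (fun x U y π => (-Real.log (ρ x)) *
        (if y = x ∧ isE τ U y then gd τ (insert y U) π else 0) +
        (-Real.log (1 - ρ x / (N : ℝ))) * qs τ x U y π)]
    refine sum_congr rfl fun x _ => ?_
    rw [psum_add, psum_mul, psum_mul]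
    unfold eI qI
    ring
  rw [e1]
  refine psum_mono_path _ _ π X fun π1 y π2 hd => ?_
  obtain ⟨U, hU⟩ : ∃ U, X ∪ π1.toFinset = U := ⟨_, rfl⟩
  rw [hU]
  have hyG : y ∈ D \ X := hmem y (by rw [hd]; simp)
  have hlen2 : π1.length + (π2.length + 1) = (D \ X).card := by
    rw [← hlen, hd]; simp
  have hUD : U ⊆ D := by
    rw [← hU]
    refine union_subset hX fun z hz => ?_
    have : z ∈ π := by rw [hd]; exact List.mem_append_left _ (List.mem_toFinset.1 hz)
    exact (mem_sdiff.1 (hmem z this)).1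
  have hXU : X ⊆ U := by rw [← hU]; exact subset_union_left
  -- superadditivity on a set of elements
  have hsup : ∀ Z : Finset α, Z ⊆ D \ X → (∃ z ∈ D \ X, z ∉ Z) →
      ∑ x ∈ Z, -Real.log (1 - ρ x / (N : ℝ)) ≤ -Real.log (1 - (∑ x ∈ Z, ρ x) / (N : ℝ)) := by
    intro Z hZ h2
    obtain ⟨z, hz, hzZ⟩ := h2
    exact kap_super (by exact_mod_cast hN1) ρ Z (fun x hx => h0 x (hZ hx))
      (sum_lt_card hZ hz hzZ h1 hN)
  have hnd2 : π1.Nodup ∧ y ∉ π1 ∧ y ∉ π2 ∧ ∀ z ∈ π2, z ∉ π1 := by
    rw [hd, List.nodup_append] at hnd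
    obtain ⟨n1, n2, n3⟩ := hnd
    rw [List.nodup_cons] at n2
    exact ⟨n1, fun h => n3 y h y (by simp) rfl, n2.1, fun z hz h => n3 z h z (by simp [hz]) rfl⟩
  rw [sum_add_distrib]
  have s1 : ∑ x ∈ D \ X, (-Real.log (ρ x)) *
      (if y = x ∧ isE τ U y then gd τ (insert y U) π2 else 0) =
      if isE τ U y then gd τ (insert y U) π2 * (-Real.log (ρ y)) else 0 := by
    rw [sum_eq_single y]
    · by_cases hE : isE τ U y
      · rw [if_pos ⟨rfl, hE⟩, if_pos hE, mul_comm]
      · rw [if_neg (fun h => hE h.2), if_neg hE, mul_zero]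
    · intro z _ hz
      rw [if_neg, mul_zero]
      rintro ⟨rfl, -⟩
      exact hz rfl
    · intro h; exact absurd hyG h
  have s2 : ∑ x ∈ D \ X, (-Real.log (1 - ρ x / (N : ℝ))) * qs τ x U y π2 =
      (if isE τ U y then gd τ (insert y U) π2 * ((π2.length : ℝ) *
        ∑ x ∈ insert y U \ X, -Real.log (1 - ρ x / (N : ℝ))) else 0) +
      (if τ U = Lab.X then gd τ (insert y U) π2 * (((π2.length : ℝ) + 1) *
        ∑ x ∈ U \ X, -Real.log (1 - ρ x / (N : ℝ))) else 0) := by
    have e2 : ∀ x ∈ D \ X, (-Real.log (1 - ρ x / (N : ℝ))) * qs τ x U y π2 =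
        (-Real.log (1 - ρ x / (N : ℝ))) *
          (if isE τ U y ∧ x ∈ insert y U then gd τ (insert y U) π2 * (π2.length : ℝ) else 0) +
        (-Real.log (1 - ρ x / (N : ℝ))) *
          (if τ U = Lab.X ∧ x ∈ U then gd τ (insert y U) π2 * ((π2.length : ℝ) + 1) else 0) :=
      fun x _ => mul_add _ _ _
    rw [sum_congr rfl e2, sum_add_distrib]
    congr 1
    · by_cases hE : isE τ U y
      · rw [if_pos hE, mul_sum, mul_sum]
        rw [← sum_filter_add_sum_filter_not (D \ X) (fun x => x ∈ insert y U)]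
        have z1 : ∑ x ∈ (D \ X).filter (fun x => ¬ x ∈ insert y U),
            (-Real.log (1 - ρ x / (N : ℝ))) *
            (if isE τ U y ∧ x ∈ insert y U then gd τ (insert y U) π2 * (π2.length : ℝ) else 0) =
            0 := by
          refine sum_eq_zero fun x hx => ?_
          rw [if_neg (fun h => (mem_filter.1 hx).2 h.2), mul_zero]
        rw [z1, add_zero]
        refine sum_congr ?_ fun x hx => ?_
        · ext x
          simp only [mem_filter, mem_sdiff]
          constructor
          · rintro ⟨⟨h1, h2⟩, h3⟩; exact ⟨h3, h2⟩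
          · rintro ⟨h3, h2⟩
            exact ⟨⟨(insert_subset (mem_sdiff.1 hyG).1 hUD) h3, h2⟩, h3⟩
        · rw [if_pos ⟨hE, (mem_sdiff.1 hx).1⟩]
          ring
      · rw [if_neg hE]
        refine sum_eq_zero fun x hx => ?_
        rw [if_neg (fun h => hE h.1), mul_zero]
    · by_cases hE : τ U = Lab.X
      · rw [if_pos hE, mul_sum, mul_sum]
        rw [← sum_filter_add_sum_filter_not (D \ X) (fun x => x ∈ U)]
        have z1 : ∑ x ∈ (D \ X).filter (fun x => ¬ x ∈ U),
            (-Real.log (1 - ρ x / (N : ℝ))) *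
            (if τ U = Lab.X ∧ x ∈ U then gd τ (insert y U) π2 * ((π2.length : ℝ) + 1) else 0) =
            0 := by
          refine sum_eq_zero fun x hx => ?_
          rw [if_neg (fun h => (mem_filter.1 hx).2 h.2), mul_zero]
        rw [z1, add_zero]
        refine sum_congr ?_ fun x hx => ?_
        · ext x
          simp only [mem_filter, mem_sdiff]
          constructor
          · rintro ⟨⟨h1, h2⟩, h3⟩; exact ⟨h3, h2⟩
          · rintro ⟨h3, h2⟩
            exact ⟨⟨hUD h3, h2⟩, h3⟩
        · rw [if_pos ⟨hE, (mem_sdiff.1 hx).1⟩]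
          ring
      · rw [if_neg hE]
        refine sum_eq_zero fun x hx => ?_
        rw [if_neg (fun h => hE h.1), mul_zero]
  rw [s1, s2]
  unfold phiM
  have hg := gd_nonneg τ (insert y U) π2
  have hins : insert y U \ X ⊆ D \ X :=
    sdiff_subset_sdiff (insert_subset (mem_sdiff.1 hyG).1 hUD) (Subset.refl _)
  have a1 : (if isE τ U y then gd τ (insert y U) π2 * (-Real.log (ρ y)) else 0) +
      (if isE τ U y then gd τ (insert y U) π2 * ((π2.length : ℝ) *
        ∑ x ∈ insert y U \ X, -Real.log (1 - ρ x / (N : ℝ))) else 0) ≤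
      (if isE τ U y then gd τ (insert y U) π2 * (-Real.log (ρ y) +
      (π2.length : ℝ) * -Real.log (1 - (∑ g ∈ insert y U \ X, ρ g) / N)) else 0) := by
    split_ifs with hE
    · rw [← mul_add]
      refine mul_le_mul_of_nonneg_left ?_ hg
      refine add_le_add (le_refl _) ?_
      cases π2 with
      | nil => simp
      | cons z π2 =>
        refine mul_le_mul_of_nonneg_left (hsup _ hins ⟨z, hmem z (by rw [hd]; simp), ?_⟩)
          (Nat.cast_nonneg _)
        rw [mem_sdiff, not_and, not_not, mem_insert, ← hU, mem_union, List.mem_toFinset]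
        rintro (rfl | h | h)
        · exact absurd (by simp) hnd2.2.2.1
        · exact h
        · exact absurd h (hnd2.2.2.2 z (by simp))
    · simp
  have a2 : (if τ U = Lab.X then gd τ (insert y U) π2 * (((π2.length : ℝ) + 1) *
        ∑ x ∈ U \ X, -Real.log (1 - ρ x / (N : ℝ))) else 0) ≤
      (if τ U = Lab.X then gd τ (insert y U) π2 * (((π2.length : ℝ) + 1) *
      -Real.log (1 - (∑ g ∈ U \ X, ρ g) / N)) else 0) := by
    split_ifs with hE
    · refine mul_le_mul_of_nonneg_left ?_ hg
      refine mul_le_mul_of_nonneg_left (hsup _ (sdiff_subset_sdiff hUD (Subset.refl _))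
        ⟨y, hyG, ?_⟩) (by positivity)
      rw [mem_sdiff, not_and, not_not, ← hU, mem_union, List.mem_toFinset]
      rintro (h | h)
      · exact h
      · exact absurd h hnd2.2.1
    · exact le_refl _
  linarith

theorem Eo_ins {G : Finset α} {x : α} (hx : x ∈ G) {m : ℕ} (hG : G.card = m + 1)
    (F : List α → ℝ) : Eo G F =
      Eo (G.erase x) (fun w => ∑ i ∈ range (w.length + 1), F (w.insertIdx i x)) / ((m : ℝ) + 1) := by
  rw [Eo_insert m G F x hx hG, ← Eo_sum]
  congr 1
  refine Eo_congr fun w hw => ?_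
  have : w.length = m := by
    rw [(mem_seqs.1 hw).2.1, card_erase_of_mem hx, hG]; rfl
  rw [this]

/-- (S0'): lower bound for the value of a state. -/
theorem S0 (τ : Finset α → Lab) (D X : Finset α) (hX : X ⊆ D) (hA : τ X = Lab.A)
    (hB : τ D = Lab.B) (ρ : α → ℝ) (h0 : ∀ x ∈ D \ X, 0 < ρ x) (h1 : ∀ x ∈ D \ X, ρ x ≤ 1)
    (N : ℕ) (hN : (D \ X).card ≤ N) :
    lamn N * (Eo (D \ X) (fun π => leI τ X π * (arun τ X π : ℝ)) +
      (1 - (((D \ X).filter (fun x => τ (D.erase x) = Lab.A)).card : ℝ)) * Eo (D \ X) (leI τ X)) ≤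
      Eo (D \ X) (psum (phiM τ ρ N X) X) := by
  obtain ⟨m, hm⟩ := sdiff_card_pos hX hA hB
  obtain ⟨G, hG⟩ : ∃ G, D \ X = G := ⟨_, rfl⟩
  have hN1 : 1 ≤ N := by omega
  have hphi := fun π hπ => phiM_ge τ D X hX ρ (fun x hx => (h0 x hx).le) h1 N hN hN1 π hπ
  have hP : Eo (D \ X) (fun π => ∑ x ∈ D \ X, (eI τ x X π * (-Real.log (ρ x)) +
      qI τ x X π * (-Real.log (1 - ρ x / (N : ℝ))))) ≤ Eo (D \ X) (psum (phiM τ ρ N X) X) :=
    Eo_mono hphi
  refine le_trans ?_ hP
  rw [Eo_sum]
  -- the shares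
  have hsh : ∀ x ∈ D \ X,
      lamn N * (Eo (D \ X) (fun π => eI τ x X π * ((arun τ X π : ℝ) + 1)) -
        (if τ (D.erase x) = Lab.A then Eo (D \ X) (leI τ X) else 0)) ≤
      Eo (D \ X) (fun π => eI τ x X π * (-Real.log (ρ x)) +
        qI τ x X π * (-Real.log (1 - ρ x / (N : ℝ)))) := by
    intro x hx
    have hxD := (mem_sdiff.1 hx).1
    have hxX := (mem_sdiff.1 hx).2
    rw [Eo_add, Eo_mul_right, Eo_mul_right]
    have hp0 : 0 ≤ Eo (D \ X) (eI τ x X) := Eo_nonneg fun π _ => by
      refine psum_nonneg (fun V y π => ?_) π X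
      have := gd_nonneg τ (insert y V) π
      split_ifs
      · exact this
      · exact le_refl _
    have hq0 : 0 ≤ Eo (D \ X) (qI τ x X) := Eo_nonneg fun π _ =>
      psum_nonneg (qs_nonneg τ x) π X
    have hρ1 : ρ x ≤ 1 := h1 x hx
    have hINF := stmt_INF N (Eo (D \ X) (eI τ x X)) (Eo (D \ X) (qI τ x X)) (ρ x) hN1 hp0 hq0 (by
      intro hN1'
      rw [← Eo_zero (D \ X)]
      refine Eo_congr fun π hπ => ?_
      have hl : π.length = 1 := by
        rw [(mem_seqs.1 hπ).2.1]; omega
      obtain ⟨y, rfl⟩ := List.length_eq_one_iff.1 hl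
      show qs τ x X y [] + 0 = 0
      unfold qs
      rw [if_neg (c := τ X = Lab.X ∧ x ∈ X) (fun h => hxX h.2)]
      simp) (h0 x hx) hρ1
    rw [← mul_comm] at hINF
    refine le_trans ?_ hINF
    rw [mul_comm]
    refine mul_le_mul_of_nonneg_right ?_ (lamn_nonneg N)
    -- track
    have hins : insert x X ∪ ((D \ X).erase x) = D := by
      ext y
      simp only [mem_union, mem_insert, mem_erase, mem_sdiff]
      constructor
      · rintro ((rfl | h) | ⟨-, h, -⟩)
        · exact hxD
        · exact hX h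
        · exact h
      · intro h
        by_cases hy : y = x
        · exact Or.inl (Or.inl hy)
        · by_cases hyX : y ∈ X
          · exact Or.inl (Or.inr hyX)
          · exact Or.inr ⟨hy, h, hyX⟩
    have htr : ∀ w ∈ seqs ((D \ X).erase x).card ((D \ X).erase x), x ∉ w ∧ w.length = m ∧
        τ (insert x (X ∪ w.toFinset)) = Lab.B ∧ X ∪ w.toFinset = D.erase x := by
      intro w hw
      obtain ⟨a1, a2, a3⟩ := mem_seqs.1 hw
      have e1 : X ∪ w.toFinset = D.erase x := by
        rw [toFinset_eq_of_mem_seqs hw]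
        ext y
        simp only [mem_union, mem_erase, mem_sdiff]
        constructor
        · rintro (h | ⟨h1, h2, -⟩)
          · exact ⟨fun h' => hxX (h' ▸ h), hX h⟩
          · exact ⟨h1, h2⟩
        · rintro ⟨h1, h2⟩
          by_cases hyX : y ∈ X
          · exact Or.inl hyX
          · exact Or.inr ⟨h1, h2, hyX⟩
      refine ⟨fun h => (mem_erase.1 (a3 x h)).1 rfl, ?_, ?_, e1⟩
      · rw [a2, card_erase_of_mem hx, hm]; rfl
      · rw [e1, insert_erase hxD, hB]
    have hmN : (m : ℝ) ≤ (N : ℝ) - 1 := by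
      have : (m : ℝ) + 1 ≤ N := by exact_mod_cast (by omega : m + 1 ≤ N)
      linarith
    have hpm : (m : ℝ) * Eo (D \ X) (eI τ x X) ≤ ((N : ℝ) - 1) * Eo (D \ X) (eI τ x X) :=
      mul_le_mul_of_nonneg_right hmN hp0
    have hm0 : (0 : ℝ) < (m : ℝ) + 1 := by positivity
    refine le_min (le_trans ?_ hpm) ?_
    · by_cases hl : τ (D.erase x) = Lab.A
      · rw [if_pos hl, ← Eo_sub, Eo_ins hx hm, Eo_ins hx hm (eI τ x X), mul_div_assoc']
        refine div_le_div_of_nonneg_right ?_ hm0.le
        rw [← Eo_mul]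
        refine Eo_mono fun w hw => ?_
        obtain ⟨b1, b2, b3, b4⟩ := htr w hw
        have := (track τ X x w b1 hA b3).2.1
        rw [sum_sub_distrib]
        rw [b2] at this ⊢
        exact this
      · rw [if_neg hl, sub_zero, Eo_ins hx hm, Eo_ins hx hm (eI τ x X), mul_div_assoc']
        refine div_le_div_of_nonneg_right ?_ hm0.le
        rw [← Eo_mul]
        refine Eo_mono fun w hw => ?_
        obtain ⟨b1, b2, b3, b4⟩ := htr w hw
        have := ((track τ X x w b1 hA b3).1 (by rw [b4]; exact hl)).1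
        rw [b2] at this ⊢
        exact this
    · by_cases hl : τ (D.erase x) = Lab.A
      · rw [if_pos hl, ← Eo_sub, Eo_ins hx hm, Eo_ins hx hm (qI τ x X)]
        refine div_le_div_of_nonneg_right ?_ hm0.le
        refine Eo_mono fun w hw => ?_
        obtain ⟨b1, b2, b3, b4⟩ := htr w hw
        have := (track τ X x w b1 hA b3).2.2
        rw [sum_sub_distrib]
        exact this
      · rw [if_neg hl, sub_zero, Eo_ins hx hm, Eo_ins hx hm (qI τ x X)]
        refine div_le_div_of_nonneg_right ?_ hm0.le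
        refine Eo_mono fun w hw => ?_
        obtain ⟨b1, b2, b3, b4⟩ := htr w hw
        exact ((track τ X x w b1 hA b3).1 (by rw [b4]; exact hl)).2
  refine le_trans (le_of_eq ?_) (sum_le_sum hsh)
  rw [← mul_sum, sum_sub_distrib, ← Eo_sum, ← sum_filter, sum_const, nsmul_eq_mul]
  congr 1
  have e1 : Eo (D \ X) (fun π => ∑ x ∈ D \ X, eI τ x X π * ((arun τ X π : ℝ) + 1)) =
      Eo (D \ X) (fun π => leI τ X π * (arun τ X π : ℝ)) + Eo (D \ X) (leI τ X) := by
    rw [← Eo_add]
    refine Eo_congr fun π hπ => ?_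
    rw [← sum_mul, sum_eI τ (D \ X) X π (mem_seqs.1 hπ).2.2]
    ring
  rw [e1]
  ring

end R5

end

section

/-!
# (S0') in first exit form (bridge to helper55's path layer)
-/

namespace R5

open Finset

variable {α : Type} [DecidableEq α]

theorem insert_sdiff_snoc {D : Finset α} {π : List α} {y : α} (hy : y ∈ D) (hn : y ∉ π) :
    insert y (D \ (π ++ [y]).toFinset) = D \ π.toFinset := by
  ext z
  simp only [mem_insert, mem_sdiff, List.mem_toFinset, List.mem_append, List.mem_singleton]
  constructor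
  · rintro (rfl | ⟨h1, h2⟩)
    · exact ⟨hy, hn⟩
    · exact ⟨h1, fun h => h2 (Or.inl h)⟩
  · rintro ⟨h1, h2⟩
    by_cases hz : z = y
    · exact Or.inl hz
    · exact Or.inr ⟨h1, fun h => h.elim h2 hz⟩

theorem dual_sdiff (σ : Finset α → Lab) {D S : Finset α} (hS : S ⊆ D) :
    dual σ D (D \ S) = (σ S).flip := by
  rw [dual_flip, Finset.sdiff_sdiff_eq_self hS]

theorem pre_len (π : List α) : pre π π.length = π.toFinset := pre_of_ge le_rfl

theorem gd_rev (σ : Finset α → Lab) (D : Finset α) (π : List α) : π.Nodup → (∀ x ∈ π, x ∈ D) →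
    gd (dual σ D) (D \ π.toFinset) π.reverse = iA σ π π.length := by
  induction π using List.reverseRecOn with
  | nil =>
    intro _ _
    show (if dual σ D (D \ ([] : List α).toFinset) = Lab.B then (1 : ℝ) else 0) = _
    rw [List.toFinset_nil, dual_sdiff σ (empty_subset D)]
    unfold iA
    refine if_congr ?_ rfl rfl
    rw [flip_eq_B, List.length_nil, allA_zero]
  | append_singleton π y ih =>
    intro hnd hD
    rw [List.nodup_append] at hnd
    have hy : y ∉ π := fun h => hnd.2.2 y h y (by simp) rfl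
    have hyD : y ∈ D := hD y (by simp)
    have hS : (π ++ [y]).toFinset ⊆ D := fun z hz => hD z (List.mem_toFinset.1 hz)
    rw [List.reverse_append, List.reverse_singleton, List.singleton_append, gd_cons,
      insert_sdiff_snoc hyD hy, ih hnd.1 (fun z hz => hD z (by simp [hz])), dual_sdiff σ hS]
    unfold iA
    rw [List.length_append, List.length_singleton]
    have e1 : allA σ (π ++ [y]) (π.length + 1) ↔ allA σ π π.length ∧
        σ (π ++ [y]).toFinset = Lab.A := by
      rw [allA_succ, allA_append le_rfl]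
      have : pre (π ++ [y]) (π.length + 1) = (π ++ [y]).toFinset := by
        rw [← pre_len]; simp
      rw [this]
    by_cases h1 : σ (π ++ [y]).toFinset = Lab.A
    · rw [if_pos (flip_eq_B.2 h1)]
      exact if_congr (by rw [e1]; tauto) rfl rfl
    · rw [if_neg (fun h => h1 (flip_eq_B.1 h)), if_neg (fun h => h1 (e1.1 h).2)]

/-- The step at the top of a reversed word. -/
noncomputable def Th (Φ : Finset α → α → List α → ℝ) (D : Finset α) (π : List α) : ℝ :=
  match π.reverse with
  | [] => 0
  | y :: r => Φ (D \ π.toFinset) y r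

theorem Th_snoc (Φ : Finset α → α → List α → ℝ) (D : Finset α) (π : List α) (y : α) :
    Th Φ D (π ++ [y]) = Φ (D \ (π ++ [y]).toFinset) y π.reverse := by
  unfold Th
  rw [List.reverse_append, List.reverse_singleton, List.singleton_append]

theorem psum_rev (Φ : Finset α → α → List α → ℝ) (D : Finset α) (π : List α) : π.Nodup →
    (∀ x ∈ π, x ∈ D) →
    psum Φ (D \ π.toFinset) π.reverse = ∑ k ∈ range π.length, Th Φ D (π.take (k + 1)) := by
  induction π using List.reverseRecOn with
  | nil => intro _ _; rfl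
  | append_singleton π y ih =>
    intro hnd hD
    rw [List.nodup_append] at hnd
    have hy : y ∉ π := fun h => hnd.2.2 y h y (by simp) rfl
    have hyD : y ∈ D := hD y (by simp)
    rw [List.reverse_append, List.reverse_singleton, List.singleton_append]
    show Φ _ y π.reverse + psum Φ (insert y (D \ (π ++ [y]).toFinset)) π.reverse = _
    rw [insert_sdiff_snoc hyD hy, ih hnd.1 (fun z hz => hD z (by simp [hz])),
      List.length_append, List.length_singleton, sum_range_succ, add_comm]
    congr 1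
    · refine sum_congr rfl fun k hk => ?_
      rw [mem_range] at hk
      rw [List.take_append_of_le_length (by omega)]
    · rw [List.take_of_length_le (by simp), Th_snoc]

theorem pre_succ_eq {π : List α} {k : ℕ} (h : k < π.length) :
    pre π (k + 1) = insert π[k] (pre π k) := by
  unfold pre
  rw [← List.take_append_getElem h, List.toFinset_append]
  ext y
  simp only [mem_insert, mem_union, List.mem_toFinset, List.mem_singleton]
  tauto

theorem getElem_notMem_take {π : List α} (hnd : π.Nodup) {k : ℕ} (h : k < π.length) :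
    π[k] ∉ π.take k := by
  have h1 : (π.take k ++ [π[k]]).Nodup := by
    rw [List.take_append_getElem h]
    exact hnd.sublist (List.take_sublist _ _)
  rw [List.nodup_append] at h1
  exact fun h2 => h1.2.2 _ h2 _ (by simp) rfl

theorem nx_eq {π : List α} (hnd : π.Nodup) {k : ℕ} (h : k < π.length) : nx π k = {π[k]} := by
  unfold nx
  rw [pre_succ_eq h]
  have h2 : π[k] ∉ pre π k := by
    unfold pre
    rw [List.mem_toFinset]
    exact getElem_notMem_take hnd h
  ext y
  simp only [mem_sdiff, mem_insert, mem_singleton]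
  constructor
  · rintro ⟨h3 | h3, h4⟩
    · exact h3
    · exact absurd h3 h4
  · rintro rfl
    exact ⟨Or.inl rfl, h2⟩

/-- Evaluation of a step. -/
theorem Th_take (Φ : Finset α → α → List α → ℝ) (D : Finset α) {π : List α} {k : ℕ}
    (h : k < π.length) :
    Th Φ D (π.take (k + 1)) = Φ (D \ pre π (k + 1)) π[k] (π.take k).reverse := by
  rw [← List.take_append_getElem h, Th_snoc, List.take_append_getElem h]
  rfl

section

variable {σ : Finset α → Lab} {D W : Finset α} {π : List α}

theorem path_facts (hW : W ⊆ D) (hπ : π ∈ seqs W.card W) {k : ℕ} (hk : k < π.length) :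
    pre π (k + 1) ⊆ D ∧ pre π k ⊆ D ∧ insert π[k] (D \ pre π (k + 1)) = D \ pre π k ∧
    gd (dual σ D) (D \ pre π k) (π.take k).reverse = iA σ π k := by
  have hnd := (mem_seqs_card.1 hπ).1
  have h1 : ∀ j, pre π j ⊆ D := fun j => (pre_subset_of_mem hπ j).trans hW
  refine ⟨h1 _, h1 _, ?_, ?_⟩
  · have h2 : π[k] ∉ pre π k := by
      unfold pre
      rw [List.mem_toFinset]
      exact getElem_notMem_take hnd hk
    have h3 : π[k] ∈ D := h1 (k + 1) (by rw [pre_succ_eq hk]; exact mem_insert_self _ _)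
    rw [pre_succ_eq hk]
    ext z
    simp only [mem_insert, mem_sdiff]
    constructor
    · rintro (rfl | ⟨h4, h5⟩)
      · exact ⟨h3, h2⟩
      · exact ⟨h4, fun h => h5 (Or.inr h)⟩
    · rintro ⟨h4, h5⟩
      by_cases hz : z = π[k]
      · exact Or.inl hz
      · exact Or.inr ⟨h4, fun h => h.elim hz h5⟩
  · have h2 := gd_rev σ D (π.take k) (hnd.sublist (List.take_sublist _ _)) (fun x hx =>
      h1 k (List.mem_toFinset.2 hx))
    have h3 : (π.take k).length = k := by rw [List.length_take]; omega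
    rw [h3] at h2
    have h4 : iA σ (π.take k) k = iA σ π k := iA_congr (allA_take le_rfl)
    rw [← h4, ← h2]
    rfl

theorem isE_rev (hW : W ⊆ D) (hπ : π ∈ seqs W.card W) {k : ℕ} (hk : k < π.length) :
    isE (dual σ D) (D \ pre π (k + 1)) π[k] ↔ σ (pre π (k + 1)) = Lab.B ∧ σ (pre π k) = Lab.A := by
  obtain ⟨h1, h2, h3, -⟩ := path_facts (σ := σ) hW hπ hk
  unfold isE
  rw [h3, dual_sdiff σ h1, dual_sdiff σ h2, flip_eq_A, flip_eq_B]

/-- The bridge for general steps. -/
theorem bridge (hW : W ⊆ D) (hπ : π ∈ seqs W.card W) (Φ : Finset α → α → List α → ℝ) :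
    psum Φ (D \ W) π.reverse =
      ∑ k ∈ range W.card, Th Φ D (π.take (k + 1)) := by
  have h1 := mem_seqs_card.1 hπ
  have h2 := psum_rev Φ D π h1.1 (fun x hx => hW (by rw [← h1.2]; exact List.mem_toFinset.2 hx))
  rw [h1.2, length_of_mem hπ] at h2
  exact h2

theorem leI_rev (hW : W ⊆ D) (hπ : π ∈ seqs W.card W) :
    leI (dual σ D) (D \ W) π.reverse = ∑ k ∈ range W.card, iE σ π k := by
  unfold leI
  rw [bridge hW hπ]
  refine sum_congr rfl fun k hk => ?_
  rw [mem_range, ← length_of_mem hπ] at hk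
  rw [Th_take _ D hk]
  obtain ⟨h1, h2, h3, h4⟩ := path_facts (σ := σ) hW hπ hk
  rw [h3, h4]
  have h5 := isE_rev (σ := σ) hW hπ hk
  by_cases hE : exE σ π k
  · rw [iE_pos hE, if_pos (h5.2 ⟨hE.2, hE.1 k (by simp)⟩), iA_pos hE.1]
  · rw [iE_neg hE]
    by_cases h6 : isE (dual σ D) (D \ pre π (k + 1)) π[k]
    · rw [if_pos h6]
      exact iA_neg fun h => hE ⟨h, (h5.1 h6).1⟩
    · rw [if_neg h6]

end

end R5

end

section

/-!
# (S0') in first exit form: bounds for `side_total` and `side_total_S`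
-/

namespace R5

open Finset T7

variable {α : Type} [DecidableEq α]

theorem arun_rev (σ : Finset α → Lab) (D : Finset α) (h0 : σ ∅ ≠ Lab.B) (π : List α) :
    π.Nodup → (∀ x ∈ π, x ∈ D) → σ π.toFinset = Lab.B →
    arun (dual σ D) (D \ π.toFinset) π.reverse + 1 + kN σ π = π.length := by
  induction π using List.reverseRecOn with
  | nil =>
    intro _ _ hB
    exact absurd hB h0
  | append_singleton π y ih =>
    intro hnd hD hB
    have hnd0 := hnd
    rw [List.nodup_append] at hnd
    have hy : y ∉ π := fun h => hnd.2.2 y h y (by simp) rfl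
    have hyD : y ∈ D := hD y (by simp)
    have hπD : ∀ z ∈ π, z ∈ D := fun z hz => hD z (by simp [hz])
    have hm1 : (π ++ [y]) ∈ seqs (π ++ [y]).toFinset.card (π ++ [y]).toFinset :=
      mem_seqs_card.2 ⟨hnd0, rfl⟩
    have hm2 : π ∈ seqs π.toFinset.card π.toFinset := mem_seqs_card.2 ⟨hnd.1, rfl⟩
    have hc1 : (π ++ [y]).toFinset.card = π.length + 1 := by
      rw [List.toFinset_card_of_nodup hnd0]; simp
    have hc2 : π.toFinset.card = π.length := List.toFinset_card_of_nodup hnd.1
    rw [List.reverse_append, List.reverse_singleton, List.singleton_append, arun_cons,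
      insert_sdiff_snoc hyD hy, dual_sdiff σ (fun z hz => hπD z (List.mem_toFinset.1 hz)),
      List.length_append, List.length_singleton]
    have k1 := kN_lt h0 hB hm1
    rw [hc1] at k1
    have hl : allB σ (π ++ [y]) π.length ↔ σ π.toFinset = Lab.B := by
      rw [allB_pred (by simp)]
      have e1 : pre (π ++ [y]) π.length = π.toFinset := by
        rw [pre_append_le le_rfl, pre_len]
      have e2 : allB σ (π ++ [y]) (π.length + 1) := by
        have := (allB_length (τ := σ) (π := π ++ [y])).2 hB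
        rwa [List.length_append, List.length_singleton] at this
      rw [e1]
      exact ⟨fun h => h.1, fun h => ⟨h, e2⟩⟩
    have hi := allB_iff h0 hB hm1
    by_cases h : σ π.toFinset = Lab.B
    · rw [if_pos (flip_eq_A.2 h)]
      have h1 := ih hnd.1 hπD h
      have h2 := allB_iff h0 h hm2
      have k2 := kN_lt h0 h hm2
      rw [hc2] at k2
      have k3 : kN σ (π ++ [y]) < π.length := (hi _).1 (hl.2 h)
      have h3 : ∀ j, j ≤ π.length → (allB σ (π ++ [y]) j ↔ allB σ π j) := by
        intro j hj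
        unfold allB
        rw [List.length_append, List.length_singleton]
        constructor
        · intro h4 i hi'
          rw [mem_Icc] at hi'
          have := h4 i (by rw [mem_Icc]; omega)
          rwa [pre_append_le hi'.2] at this
        · intro h4 i hi'
          rw [mem_Icc] at hi'
          by_cases hiL : i ≤ π.length
          · rw [pre_append_le hiL]
            exact h4 i (by rw [mem_Icc]; omega)
          · have : i = π.length + 1 := by omega
            rw [this, pre_of_ge (by simp)]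
            exact hB
      have h4 : kN σ (π ++ [y]) = kN σ π := by
        rcases lt_trichotomy (kN σ (π ++ [y])) (kN σ π) with h5 | h5 | h5
        · have := (h3 _ k2.le).1 ((hi _).2 h5)
          exact absurd ((h2 _).1 this) (lt_irrefl _)
        · exact h5
        · have := (h3 _ k3.le).2 ((h2 _).2 h5)
          exact absurd ((hi _).1 this) (lt_irrefl _)
      omega
    · rw [if_neg (fun h' => h (flip_eq_A.1 h'))]
      have k3 : ¬ kN σ (π ++ [y]) < π.length := fun h' => h (hl.1 ((hi _).2 h'))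
      omega

end R5

end
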