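import Mathlib
import Pool.Agent.Work.MP_8b6acb_full.P12

section

/-!
# One side: compensators applied to the path functional (helper76)

Note 1523 (1) of the R5 room (helper25).
-/

namespace R5

namespace Two

open Finset T7

variable {α : Type} [DecidableEq α]

section path

variable {τ : Finset α → Lab} {D : Finset α} {π : List α}

theorem kB_eq (h0 : τ ∅ = Lab.A) (hD : τ D = Lab.B) (hπ : π ∈ seqs D.card D) :
    Blk.kB τ π = kN τ π := by
  have hl := length_of_mem hπ
  have h0' : τ ∅ ≠ Lab.B := by rw [h0]; decide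
  have hB : τ π.toFinset = Lab.B := by rw [(mem_seqs_card.1 hπ).2]; exact hD
  have h2 := kN_lt h0' hD hπ
  have h1 := Blk.kB_lt (τ := τ) hB (by omega)
  apply le_antisymm
  · by_contra hc
    have h3 := (Blk.allB_iff (τ := τ) (π := π) (j := Blk.kB τ π) (by omega) h1.le).1
      ((allB_iff h0' hD hπ _).2 (not_le.1 hc))
    omega
  · by_contra hc
    have h3 := (allB_iff h0' hD hπ (kN τ π)).1
      ((Blk.allB_iff (τ := τ) (π := π) (by omega) (by omega)).2 (not_le.1 hc))
    omega

/-- only the first exit level has an exit as next element -/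
theorem sum_nx (h0 : τ ∅ = Lab.A) (hD : τ D = Lab.B) (hπ : π ∈ seqs D.card D)
    (S : Finset α → Finset α) (hS : ∀ U, ∀ x ∈ S U, τ (insert x U) = Lab.B) (F : ℕ → ℝ) :
    ∑ i ∈ range D.card, (if allA τ π i then F i * ((nx π i ∩ S (pre π i)).card : ℝ) else 0) =
      F (kA τ π) * ((nx π (kA τ π) ∩ S (pre π (kA τ π))).card : ℝ) := by
  have hD' : τ D ≠ Lab.A := by rw [hD]; decide
  have hk := kA_lt h0 hD' hπ
  rw [sum_eq_single (kA τ π)]
  · rw [if_pos ((allA_iff h0 hD' hπ _).2 le_rfl)]
  · intro i hi hne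
    rw [mem_range] at hi
    by_cases hA : allA τ π i
    · rw [if_pos hA]
      have h1 := (allA_iff h0 hD' hπ i).1 hA
      have h2 : τ (pre π (i + 1)) = Lab.A := by
        have h3 := (allA_iff h0 hD' hπ (i + 1)).2 (by omega)
        exact h3 (i + 1) (by simp)
      have h4 : nx π i ∩ S (pre π i) = ∅ := by
        rw [eq_empty_iff_forall_notMem]
        intro x hx
        rw [mem_inter] at hx
        have h5 := hS _ x hx.2
        obtain ⟨y, hy⟩ := Blk.nx_single hπ hi
        have h6 : x = y := by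
          have := hx.1
          rw [hy, mem_singleton] at this
          exact this
        have h7 := Blk.insert_nx hπ hi hx.1
        rw [h7] at h5
        rw [h2] at h5
        exact absurd h5 (by decide)
      rw [h4]
      simp
    · rw [if_neg hA]
  · intro h
    exact absurd (mem_range.2 hk) h

theorem sum_allA (h0 : τ ∅ = Lab.A) (hD : τ D = Lab.B) (hπ : π ∈ seqs D.card D) (F : ℕ → ℝ) :
    ∑ i ∈ range D.card, (if allA τ π i then F i else 0) = ∑ i ∈ range (kA τ π + 1), F i := by
  have hD' : τ D ≠ Lab.A := by rw [hD]; decide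
  have hk := kA_lt h0 hD' hπ
  rw [← sum_iA h0 hD' hπ hk F]
  refine sum_congr rfl fun i _ => ?_
  unfold iA
  split_ifs <;> simp

end path

/-- first compensator, summed over the levels -/
theorem compA {τ : Finset α → Lab} {D : Finset α} (h0 : τ ∅ = Lab.A) (hD : τ D = Lab.B)
    (S : Finset α → Finset α) (hS : ∀ U, ∀ x ∈ S U, τ (insert x U) = Lab.B) (f : ℕ → ℝ) :
    Av D (fun π => ∑ i ∈ range (kA τ π + 1),
      (((pre π (kN τ π) \ pre π i) ∩ S (pre π i)).card : ℝ) * f (kN τ π)) =
    Av D (fun π => ((kN τ π : ℝ) - kA τ π) *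
      ((nx π (kA τ π) ∩ S (pre π (kA τ π))).card : ℝ) * f (kN τ π)) := by
  have e1 : Av D (fun π => ∑ i ∈ range (kA τ π + 1),
      (((pre π (kN τ π) \ pre π i) ∩ S (pre π i)).card : ℝ) * f (kN τ π)) =
      Av D (fun π => ∑ i ∈ range D.card, (if allA τ π i then
        (((pre π (Blk.kB τ π) \ pre π i) ∩ S (pre π i)).card : ℝ) *
          (fun (_ : List α) (U : Finset α) (_ : List α) => f U.card) (π.take i)
            (pre π (Blk.kB τ π)) (π.drop (Blk.kB τ π)) else 0)) := by
    refine Av_congr fun π hπ => ?_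
    have hN := kN_lt (τ := τ) (by rw [h0]; decide) hD hπ
    rw [sum_allA h0 hD hπ, kB_eq h0 hD hπ]
    refine sum_congr rfl fun i _ => ?_
    simp only []
    rw [card_pre_of_mem hπ hN.le]
  have e2 : Av D (fun π => ((kN τ π : ℝ) - kA τ π) *
      ((nx π (kA τ π) ∩ S (pre π (kA τ π))).card : ℝ) * f (kN τ π)) =
      Av D (fun π => ∑ i ∈ range D.card, (if allA τ π i then
        ((Blk.kB τ π : ℝ) - i) * (((nx π i) ∩ S (pre π i)).card : ℝ) *
          (fun (_ : List α) (U : Finset α) (_ : List α) => f U.card) (π.take i)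
            (pre π (Blk.kB τ π)) (π.drop (Blk.kB τ π)) else 0)) := by
    refine Av_congr fun π hπ => ?_
    have hN := kN_lt (τ := τ) (by rw [h0]; decide) hD hπ
    have h1 := sum_nx h0 hD hπ S hS (fun i => ((kN τ π : ℝ) - i) * f (kN τ π))
    rw [show ((kN τ π : ℝ) - kA τ π) * ((nx π (kA τ π) ∩ S (pre π (kA τ π))).card : ℝ) *
      f (kN τ π) = ((kN τ π : ℝ) - kA τ π) * f (kN τ π) *
        ((nx π (kA τ π) ∩ S (pre π (kA τ π))).card : ℝ) by ring, ← h1, kB_eq h0 hD hπ]
    refine sum_congr rfl fun i _ => ?_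
    simp only []
    rw [card_pre_of_mem hπ hN.le]
    split_ifs
    · ring
    · rfl
  rw [e1, e2, Av_sum, Av_sum]
  refine sum_congr rfl fun i hi => ?_
  exact Blk.comp1 h0 hD S (fun (_ : List α) (U : Finset α) (_ : List α) => f U.card)
    (mem_range.1 hi)

/-- second compensator, summed over the levels -/
theorem compB {τ : Finset α → Lab} {D : Finset α} (h0 : τ ∅ = Lab.A) (hD : τ D = Lab.B)
    (S : Finset α → Finset α) (hS : ∀ U, ∀ x ∈ S U, τ (insert x U) = Lab.B) :
    Av D (fun π => ∑ i ∈ range (kA τ π + 1),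
      (((D \ pre π (kN τ π)) ∩ S (pre π i)).card : ℝ)) =
    Av D (fun π => ((D.card : ℝ) - kN τ π) *
      ((nx π (kA τ π) ∩ S (pre π (kA τ π))).card : ℝ)) := by
  have e1 : Av D (fun π => ∑ i ∈ range (kA τ π + 1),
      (((D \ pre π (kN τ π)) ∩ S (pre π i)).card : ℝ)) =
      Av D (fun π => ∑ i ∈ range D.card, (if allA τ π i then
        (((D \ pre π (Blk.kB τ π)) ∩ S (pre π i)).card : ℝ) *
          (fun (_ : List α) => (1 : ℝ)) (π.take i) else 0)) := by
    refine Av_congr fun π hπ => ?_
    rw [sum_allA h0 hD hπ, kB_eq h0 hD hπ]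
    refine sum_congr rfl fun i _ => ?_
    simp only [mul_one]
  have e2 : Av D (fun π => ((D.card : ℝ) - kN τ π) *
      ((nx π (kA τ π) ∩ S (pre π (kA τ π))).card : ℝ)) =
      Av D (fun π => ∑ i ∈ range D.card, (if allA τ π i then
        ((D.card : ℝ) - Blk.kB τ π) * (((nx π i) ∩ S (pre π i)).card : ℝ) *
          (fun (_ : List α) => (1 : ℝ)) (π.take i) else 0)) := by
    refine Av_congr fun π hπ => ?_
    have h1 := sum_nx h0 hD hπ S hS (fun _ => (D.card : ℝ) - kN τ π)
    rw [← h1, kB_eq h0 hD hπ]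
    refine sum_congr rfl fun i _ => ?_
    simp only [mul_one]
  rw [e1, e2, Av_sum, Av_sum]
  refine sum_congr rfl fun i hi => ?_
  exact Blk.comp2 h0 hD S (fun (_ : List α) => (1 : ℝ)) (mem_range.1 hi)

/-! ### the path functional -/

/-- levels `1 ≤ i ≤ k` without edge exit -/
def n00 (τ : Finset α → Lab) (D : Finset α) (π : List α) : ℕ :=
  ((Icc 1 (kA τ π)).filter
    (fun i => ∀ x ∈ D \ pre π i, τ (insert x (pre π i)) ≠ Lab.B)).card

/-- edge exits that are not live lights -/
def HL (τ : Finset α → Lab) (D U : Finset α) : Finset α :=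
  (D \ U).filter (fun x => τ {x} ≠ Lab.B ∧ τ (insert x U) = Lab.B)

/-- the first exit is a live light -/
noncomputable def lv (τ : Finset α → Lab) (D : Finset α) (π : List α) : ℝ :=
  ((nx π (kA τ π) ∩ AL τ D (pre π (kA τ π))).card : ℝ)

/-- the first exit is an edge, but no live light -/
noncomputable def nl (τ : Finset α → Lab) (D : Finset α) (π : List α) : ℝ :=
  ((nx π (kA τ π) ∩ HL τ D (pre π (kA τ π))).card : ℝ)

/-- the number of live lights of level `i` inside `V_K` -/
def pn (τ : Finset α → Lab) (π : List α) (i : ℕ) : ℕ :=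
  (AL τ (pre π (kN τ π)) (pre π i)).card

/-- the number of live lights of level `i` -/
def an (τ : Finset α → Lab) (D : Finset α) (π : List α) (i : ℕ) : ℕ :=
  (AL τ D (pre π i)).card

/-- the path functional of one side, with the gain `g` on every state of the other side -/
noncomputable def TP (τ : Finset α → Lab) (D : Finset α) (g : List α → ℝ) (π : List α) : ℝ :=
  iE τ π (kA τ π) * (((kN τ π : ℝ) - kA τ π + n00 τ D π) * Lam (kN τ π) D.card) -
    ∑ i ∈ range (kA τ π + 1), (gg D.card (an τ D π i) - gg (kN τ π) (pn τ π i)) +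
    ((kA τ π : ℝ) + 1) * g π

theorem AL_exit (τ : Finset α → Lab) (D : Finset α) :
    ∀ U, ∀ x ∈ AL τ D U, τ (insert x U) = Lab.B := by
  intro U x hx
  unfold AL at hx
  exact (mem_filter.1 hx).2.2

theorem HL_exit (τ : Finset α → Lab) (D : Finset α) :
    ∀ U, ∀ x ∈ HL τ D U, τ (insert x U) = Lab.B := by
  intro U x hx
  unfold HL at hx
  exact (mem_filter.1 hx).2.2

theorem lv_nonneg (τ : Finset α → Lab) (D : Finset α) (π : List α) : 0 ≤ lv τ D π :=
  Nat.cast_nonneg _

theorem nl_nonneg (τ : Finset α → Lab) (D : Finset α) (π : List α) : 0 ≤ nl τ D π :=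
  Nat.cast_nonneg _

section path

variable {τ : Finset α → Lab} {D : Finset α} {π : List α}

/-- an edge exit is a live light or not -/
theorem iE_eq (h0 : τ ∅ = Lab.A) (hD : τ D = Lab.B) (hπ : π ∈ seqs D.card D) :
    iE τ π (kA τ π) = lv τ D π + nl τ D π := by
  have hD' : τ D ≠ Lab.A := by rw [hD]; decide
  have hk := kA_lt h0 hD' hπ
  obtain ⟨x, hx⟩ := Blk.nx_single hπ hk
  have hxm : x ∈ nx π (kA τ π) := by rw [hx]; exact mem_singleton_self x
  have h1 := Blk.insert_nx hπ hk hxm
  have h2 : x ∈ D \ pre π (kA τ π) := by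
    have h3 := Blk.mem_nx.1 hxm
    exact mem_sdiff.2 ⟨pre_subset_of_mem hπ _ h3.1, h3.2⟩
  unfold lv nl iE
  rw [hx]
  by_cases hB : τ (pre π (kA τ π + 1)) = Lab.B
  · rw [if_pos (show exE τ π (kA τ π) from ⟨(allA_iff h0 hD' hπ _).2 le_rfl, hB⟩)]
    by_cases hL : τ {x} = Lab.B
    · have e1 : ({x} : Finset α) ∩ AL τ D (pre π (kA τ π)) = {x} := by
        rw [inter_eq_left, singleton_subset_iff]
        unfold AL
        rw [mem_filter]
        exact ⟨h2, hL, by rw [h1]; exact hB⟩
      have e2 : ({x} : Finset α) ∩ HL τ D (pre π (kA τ π)) = ∅ := by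
        rw [singleton_inter_of_notMem]
        intro h
        unfold HL at h
        exact (mem_filter.1 h).2.1 hL
      rw [e1, e2]
      simp
    · have e1 : ({x} : Finset α) ∩ HL τ D (pre π (kA τ π)) = {x} := by
        rw [inter_eq_left, singleton_subset_iff]
        unfold HL
        rw [mem_filter]
        exact ⟨h2, hL, by rw [h1]; exact hB⟩
      have e2 : ({x} : Finset α) ∩ AL τ D (pre π (kA τ π)) = ∅ := by
        rw [singleton_inter_of_notMem]
        intro h
        unfold AL at h
        exact hL (mem_filter.1 h).2.1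
      rw [e1, e2]
      simp
  · rw [if_neg (fun h : exE τ π (kA τ π) => hB h.2)]
    have e1 : ({x} : Finset α) ∩ HL τ D (pre π (kA τ π)) = ∅ := by
      rw [singleton_inter_of_notMem]
      intro h
      have := HL_exit τ D _ x h
      rw [h1] at this
      exact hB this
    have e2 : ({x} : Finset α) ∩ AL τ D (pre π (kA τ π)) = ∅ := by
      rw [singleton_inter_of_notMem]
      intro h
      have := AL_exit τ D _ x h
      rw [h1] at this
      exact hB this
    rw [e1, e2]
    simp

theorem pn_eq (hπ : π ∈ seqs D.card D) (i : ℕ) :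
    pn τ π i = ((pre π (kN τ π) \ pre π i) ∩ AL τ D (pre π i)).card := by
  unfold pn AL
  congr 1
  ext x
  simp only [mem_filter, mem_inter, mem_sdiff]
  constructor
  · rintro ⟨⟨h1, h2⟩, h3⟩
    exact ⟨⟨h1, h2⟩, ⟨⟨pre_subset_of_mem hπ _ h1, h2⟩, h3⟩⟩
  · rintro ⟨⟨h1, h2⟩, ⟨⟨_, _⟩, h3⟩⟩
    exact ⟨⟨h1, h2⟩, h3⟩

/-- inside and outside -/
theorem an_eq (hπ : π ∈ seqs D.card D) {i : ℕ} :
    (an τ D π i : ℝ) - pn τ π i = (((D \ pre π (kN τ π)) ∩ AL τ D (pre π i)).card : ℝ) := by
  have h1 : an τ D π i = pn τ π i + ((D \ pre π (kN τ π)) ∩ AL τ D (pre π i)).card := by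
    rw [pn_eq hπ i, ← card_union_of_disjoint]
    · unfold an
      congr 1
      ext x
      simp only [mem_union, mem_inter, mem_sdiff]
      have hsub : x ∈ AL τ D (pre π i) → x ∈ D ∧ x ∉ pre π i := by
        intro h
        unfold AL at h
        exact mem_sdiff.1 (mem_filter.1 h).1
      constructor
      · intro h
        have h2 := hsub h
        by_cases h3 : x ∈ pre π (kN τ π)
        · exact Or.inl ⟨⟨h3, h2.2⟩, h⟩
        · exact Or.inr ⟨⟨h2.1, h3⟩, h⟩
      · rintro (h | h)
        · exact h.2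
        · exact h.2
    · rw [disjoint_left]
      intro x hx hx'
      simp only [mem_inter, mem_sdiff] at hx hx'
      exact hx'.1.2 hx.1.1
  rw [h1]
  push_cast
  ring

end path

end Two

end R5

end

section

/-!
# The two-sided path inequality for `J, J' ≥ 1`, vertices included (helper76)

Note 1523 of the R5 room (helper25).
-/

namespace R5

namespace Two

open Finset T7

variable {α : Type} [DecidableEq α]

/-- the number of lights of level `i` outside `V_K` -/
noncomputable def on (τ : Finset α → Lab) (D : Finset α) (π : List α) (i : ℕ) : ℝ :=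
  (an τ D π i : ℝ) - pn τ π i

/-- the lower bound of one side after the compensators, in units of `lamn l` -/
noncomputable def LB (τ : Finset α → Lab) (D : Finset α) (v : List α → ℕ → ℝ) (π : List α) : ℝ :=
  ∑ i ∈ range (kA τ π + 1), v π i - ((D.card : ℝ) - kN τ π) * lv τ D π +
    ((kN τ π : ℝ) - kA τ π) * ((D.card : ℝ) - kN τ π) * nl τ D π +
    ((D.card : ℝ) - kN τ π) * n00 τ D π * iE τ π (kA τ π)

theorem lamn_nonneg (m : ℕ) : 0 ≤ lamn m := by
  unfold lamn
  rcases Nat.lt_or_ge m 2 with h | h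
  · interval_cases m <;> simp
  · have h1 : (2 : ℝ) ≤ m := by exact_mod_cast h
    apply Real.log_nonneg
    rw [one_le_div (by linarith)]
    linarith

theorem lamn_anti {m n : ℕ} (hm : 2 ≤ m) (h : m ≤ n) : lamn n ≤ lamn m := by
  unfold lamn
  have h1 : (2 : ℝ) ≤ m := by exact_mod_cast hm
  have h2 : (m : ℝ) ≤ n := by exact_mod_cast h
  apply Real.log_le_log (div_pos (by linarith) (by linarith))
  rw [div_le_div_iff₀ (by linarith) (by linarith)]
  nlinarith

theorem Lam_ge {K l : ℕ} (hK : 1 ≤ K) (h : K ≤ l) :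
    ((l : ℝ) - K) * lamn l ≤ Lam K l := by
  unfold Lam
  have h1 : ((l : ℝ) - K) * lamn l = ∑ j ∈ Ioc K l, lamn l := by
    rw [sum_const, Nat.card_Ioc, nsmul_eq_mul, Nat.cast_sub h]
  rw [h1]
  refine sum_le_sum fun j hj => ?_
  rw [mem_Ioc] at hj
  exact lamn_anti (by omega) hj.2

/-- **ONE SIDE** -/
theorem one_side {τ : Finset α → Lab} {D : Finset α} (h0 : τ ∅ = Lab.A) (hD : τ D = Lab.B)
    (g : List α → ℝ) (v : List α → ℕ → ℝ)
    (hW : ∀ π ∈ seqs D.card D, ∀ i ≤ kA τ π, (v π i - on τ D π i) * lamn D.card ≤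
      (pn τ π i : ℝ) * Lam (kN τ π) D.card - gg D.card (an τ D π i) +
        gg (kN τ π) (pn τ π i) + g π) :
    lamn D.card * Av D (LB τ D v) ≤ Av D (TP τ D g) := by
  have hD' : τ D ≠ Lab.A := by rw [hD]; decide
  have h0' : τ ∅ ≠ Lab.B := by rw [h0]; decide
  set l := D.card with hl
  -- the first compensator
  have c1 := compA h0 hD (AL τ D) (AL_exit τ D) (fun K => Lam K l)
  -- the second compensator
  have c2 := compB h0 hD (AL τ D) (AL_exit τ D)
  have e1 : Av D (TP τ D g) = Av D (fun π =>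
      nl τ D π * (((kN τ π : ℝ) - kA τ π) * Lam (kN τ π) l) +
      iE τ π (kA τ π) * ((n00 τ D π : ℝ) * Lam (kN τ π) l) +
      ∑ i ∈ range (kA τ π + 1), ((pn τ π i : ℝ) * Lam (kN τ π) l - gg l (an τ D π i) +
        gg (kN τ π) (pn τ π i) + g π)) := by
    have e2 : Av D (TP τ D g) = Av D (fun π =>
        nl τ D π * (((kN τ π : ℝ) - kA τ π) * Lam (kN τ π) l) +
        iE τ π (kA τ π) * ((n00 τ D π : ℝ) * Lam (kN τ π) l) +
        ∑ i ∈ range (kA τ π + 1), (- gg l (an τ D π i) +
          gg (kN τ π) (pn τ π i) + g π)) +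
        Av D (fun π => ((kN τ π : ℝ) - kA τ π) *
          ((nx π (kA τ π) ∩ AL τ D (pre π (kA τ π))).card : ℝ) * Lam (kN τ π) l) := by
      rw [← Av_add]
      refine Av_congr fun π hπ => ?_
      unfold TP
      have h1 := iE_eq h0 hD hπ
      have h2 : ∑ i ∈ range (kA τ π + 1), (- gg l (an τ D π i) +
          gg (kN τ π) (pn τ π i) + g π) = - ∑ i ∈ range (kA τ π + 1), (gg l (an τ D π i) -
            gg (kN τ π) (pn τ π i)) + ((kA τ π : ℝ) + 1) * g π := by
        rw [sum_add_distrib, sum_const, card_range, nsmul_eq_mul, ← sum_neg_distrib]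
        push_cast
        congr 1
        refine sum_congr rfl fun i _ => by ring
      rw [h2]
      have h3 : iE τ π (kA τ π) * (((kN τ π : ℝ) - kA τ π + n00 τ D π) * Lam (kN τ π) D.card) =
          lv τ D π * (((kN τ π : ℝ) - kA τ π) * Lam (kN τ π) l) +
          nl τ D π * (((kN τ π : ℝ) - kA τ π) * Lam (kN τ π) l) +
          iE τ π (kA τ π) * ((n00 τ D π : ℝ) * Lam (kN τ π) l) := by
        rw [hl]
        have : iE τ π (kA τ π) * (((kN τ π : ℝ) - kA τ π + n00 τ D π) * Lam (kN τ π) D.card) =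
          iE τ π (kA τ π) * (((kN τ π : ℝ) - kA τ π) * Lam (kN τ π) D.card) +
          iE τ π (kA τ π) * ((n00 τ D π : ℝ) * Lam (kN τ π) D.card) := by ring
        rw [this]
        congr 1
        rw [h1]
        ring
      rw [h3]
      unfold lv
      ring
    rw [e2, ← c1, ← Av_add]
    refine Av_congr fun π hπ => ?_
    rw [add_assoc, ← sum_add_distrib]
    congr 1
    refine sum_congr rfl fun i _ => ?_
    rw [pn_eq hπ i]
    ring
  rw [e1]
  have e3 : lamn l * Av D (LB τ D v) = Av D (fun π =>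
      nl τ D π * (((kN τ π : ℝ) - kA τ π) * (((l : ℝ) - kN τ π) * lamn l)) +
      iE τ π (kA τ π) * ((n00 τ D π : ℝ) * (((l : ℝ) - kN τ π) * lamn l)) +
      ∑ i ∈ range (kA τ π + 1), (v π i - on τ D π i) * lamn l) := by
    have e4 : Av D (LB τ D v) = Av D (fun π => ∑ i ∈ range (kA τ π + 1), v π i +
        ((kN τ π : ℝ) - kA τ π) * ((D.card : ℝ) - kN τ π) * nl τ D π +
        ((D.card : ℝ) - kN τ π) * n00 τ D π * iE τ π (kA τ π)) -
        Av D (fun π => ((D.card : ℝ) - kN τ π) *
          ((nx π (kA τ π) ∩ AL τ D (pre π (kA τ π))).card : ℝ)) := by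
      rw [← Av_sub]
      refine Av_congr fun π _ => ?_
      unfold LB lv
      ring
    rw [e4, ← c2, ← Av_sub, ← Av_mul]
    refine Av_congr fun π hπ => ?_
    have h1 : ∑ i ∈ range (kA τ π + 1), (((D \ pre π (kN τ π)) ∩ AL τ D (pre π i)).card : ℝ) =
        ∑ i ∈ range (kA τ π + 1), on τ D π i := by
      refine sum_congr rfl fun i hi => ?_
      rw [mem_range] at hi
      unfold on
      rw [an_eq hπ]
    rw [h1, ← sum_mul, sum_sub_distrib, ← hl]
    ring
  rw [e3]
  refine Av_mono fun π hπ => ?_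
  have hN := kN_lt h0' hD hπ
  have hAN := kA_le_kN h0 hD hπ
  have hr : (0 : ℝ) ≤ (kN τ π : ℝ) - kA τ π := by
    have : (kA τ π : ℝ) ≤ kN τ π := by exact_mod_cast hAN
    linarith
  -- the three parts
  have p3 : ∑ i ∈ range (kA τ π + 1), (v π i - on τ D π i) * lamn l ≤
      ∑ i ∈ range (kA τ π + 1), ((pn τ π i : ℝ) * Lam (kN τ π) l - gg l (an τ D π i) +
        gg (kN τ π) (pn τ π i) + g π) := by
    refine sum_le_sum fun i hi => ?_
    rw [mem_range] at hi
    exact hW π hπ i (by omega)
  have p1 : nl τ D π * (((kN τ π : ℝ) - kA τ π) * (((l : ℝ) - kN τ π) * lamn l)) ≤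
      nl τ D π * (((kN τ π : ℝ) - kA τ π) * Lam (kN τ π) l) := by
    rcases Nat.eq_zero_or_pos (kN τ π) with hz | hz
    · have h1 : kA τ π = 0 := by omega
      rw [hz, h1]
      simp
    · exact mul_le_mul_of_nonneg_left (mul_le_mul_of_nonneg_left
        (Lam_ge hz (by omega)) hr) (nl_nonneg _ _ _)
  have p2 : iE τ π (kA τ π) * ((n00 τ D π : ℝ) * (((l : ℝ) - kN τ π) * lamn l)) ≤
      iE τ π (kA τ π) * ((n00 τ D π : ℝ) * Lam (kN τ π) l) := by
    rcases Nat.eq_zero_or_pos (kN τ π) with hz | hz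
    · have h1 : kA τ π = 0 := by omega
      have h2 : n00 τ D π = 0 := by
        unfold n00
        rw [h1]
        simp
      rw [h2]
      simp
    · exact mul_le_mul_of_nonneg_left (mul_le_mul_of_nonneg_left
        (Lam_ge hz (by omega)) (Nat.cast_nonneg _)) (iE_nonneg _ _ _)
  linarith

end Two

end R5

end

section

/-!
# Both sides: pointwise counting (helper76)

Note 1523 (2) of the R5 room (helper25).
-/

namespace R5

namespace Two

open Finset T7

variable {α : Type} [DecidableEq α]

/-- `1` if the last set before the final B-run is a vertex -/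
def lx (τ : Finset α → Lab) (π : List α) : ℝ := if τ (pre π (kN τ π)) = Lab.A then 0 else 1

/-- the coefficients of the levels -/
noncomputable def vv (τ : Finset α → Lab) (D : Finset α) (π : List α) (i : ℕ) : ℝ :=
  if τ (pre π (kN τ π)) = Lab.A then (if an τ D π i = 0 then 0 else 1) else
    (if pn τ π i = 0 then (if an τ D π i = 0 then 0 else 1) else (D.card : ℝ) - kN τ π)

/-- the lower bound of one side, after the third compensator -/
noncomputable def LC (τ : Finset α → Lab) (D : Finset α) (π : List α) : ℝ :=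
  ((kA τ π : ℝ) + 1) - n00 τ D π + lx τ π * ((D.card : ℝ) - kN τ π - 1) * lv τ D π -
    ((D.card : ℝ) - kN τ π) * lv τ D π +
    ((kN τ π : ℝ) - kA τ π) * ((D.card : ℝ) - kN τ π) * nl τ D π +
    ((D.card : ℝ) - kN τ π) * n00 τ D π * iE τ π (kA τ π) -
    (((kN τ π : ℝ) - kA τ π) + ((D.card : ℝ) - kN τ π)) * nl τ D π

section path

variable {τ : Finset α → Lab} {D : Finset α} {π : List α}

theorem lx_cases (τ : Finset α → Lab) (π : List α) : lx τ π = 0 ∨ lx τ π = 1 := by
  unfold lx
  split_ifs
  · exact Or.inl rfl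
  · exact Or.inr rfl

theorem nx_cases (hπ : π ∈ seqs D.card D) {i : ℕ} (hi : i < D.card) (S : Finset α) :
    ((nx π i ∩ S).card : ℝ) = 0 ∨ ((nx π i ∩ S).card : ℝ) = 1 := by
  obtain ⟨x, hx⟩ := Blk.nx_single hπ hi
  rw [hx]
  by_cases h : x ∈ S
  · right
    rw [singleton_inter_of_mem h]
    simp
  · left
    rw [singleton_inter_of_notMem h]
    simp

/-- if `V_K` is a vertex then `k < K` -/
theorem lt_of_lx (h0 : τ ∅ = Lab.A) (hD : τ D = Lab.B) (hπ : π ∈ seqs D.card D)
    (hx : τ (pre π (kN τ π)) ≠ Lab.A) : kA τ π < kN τ π := by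
  have hD' : τ D ≠ Lab.A := by rw [hD]; decide
  rcases Nat.lt_or_eq_of_le (kA_le_kN h0 hD hπ) with h | h
  · exact h
  · exfalso
    apply hx
    rw [← h]
    exact ((allA_iff h0 hD' hπ (kA τ π)).2 le_rfl) _ (by simp)

/-- if the first exit is a vertex then `k < K` -/
theorem lt_of_fv (h0 : τ ∅ = Lab.A) (hD : τ D = Lab.B) (hπ : π ∈ seqs D.card D)
    (hx : iE τ π (kA τ π) = 0) : kA τ π < kN τ π := by
  have hD' : τ D ≠ Lab.A := by rw [hD]; decide
  have h0' : τ ∅ ≠ Lab.B := by rw [h0]; decide
  have hk := kA_lt h0 hD' hπ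
  have hl := length_of_mem hπ
  have h1 : τ (pre π (kA τ π + 1)) ≠ Lab.B := by
    intro h
    rw [iE_pos ⟨(allA_iff h0 hD' hπ _).2 le_rfl, h⟩] at hx
    exact one_ne_zero hx
  by_contra hc
  apply h1
  have h2 := (allB_iff h0' hD hπ (kA τ π + 1)).2 (by omega)
  exact h2 _ (by rw [mem_Icc, hl]; omega)

/-- counting the levels -/
theorem count_levels (h0 : τ ∅ = Lab.A) (hD : τ D = Lab.B) (hJ : ∃ x ∈ D, τ {x} = Lab.B)
    (hπ : π ∈ seqs D.card D) :
    ((kA τ π : ℝ) + 1) - n00 τ D π + lx τ π * ((D.card : ℝ) - kN τ π - 1) * lv τ D π ≤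
      ∑ i ∈ range (kA τ π + 1), (vv τ D π i + ((HL τ D (pre π i)).card : ℝ)) := by
  have hD' : τ D ≠ Lab.A := by rw [hD]; decide
  have h0' : τ ∅ ≠ Lab.B := by rw [h0]; decide
  have hk := kA_lt h0 hD' hπ
  have hN := kN_lt h0' hD hπ
  have hN1 : (1 : ℝ) ≤ (D.card : ℝ) - kN τ π := by
    have : (kN τ π : ℝ) + 1 ≤ D.card := by exact_mod_cast hN
    linarith
  -- the number `n00` as a sum
  have e1 : (n00 τ D π : ℝ) = ∑ i ∈ range (kA τ π + 1), (if 1 ≤ i ∧
      (∀ x ∈ D \ pre π i, τ (insert x (pre π i)) ≠ Lab.B) then (1 : ℝ) else 0) := by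
    unfold n00
    rw [← sum_filter, sum_const, nsmul_eq_mul, mul_one]
    congr 2
    ext i
    simp only [mem_filter, mem_Icc, mem_range]
    constructor
    · rintro ⟨⟨h1, h2⟩, h3⟩
      exact ⟨by omega, h1, h3⟩
    · rintro ⟨h1, h2, h3⟩
      exact ⟨⟨h2, by omega⟩, h3⟩
  -- the extra term as a sum
  have e2 : lx τ π * ((D.card : ℝ) - kN τ π - 1) * lv τ D π =
      ∑ i ∈ range (kA τ π + 1), (if i = kA τ π then
        lx τ π * ((D.card : ℝ) - kN τ π - 1) * lv τ D π else 0) := by
    rw [sum_ite_eq' (range (kA τ π + 1)) (kA τ π), if_pos (mem_range.2 (Nat.lt_succ_self _))]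
  have e3 : (kA τ π : ℝ) + 1 = ∑ i ∈ range (kA τ π + 1), (1 : ℝ) := by
    rw [sum_const, card_range, nsmul_eq_mul]
    push_cast
    ring
  rw [e1, e2, e3, ← sum_sub_distrib, ← sum_add_distrib]
  refine sum_le_sum fun i hi => ?_
  rw [mem_range] at hi
  have hvv0 : 0 ≤ vv τ D π i := by
    unfold vv
    split_ifs
    · exact le_rfl
    · exact zero_le_one
    · exact le_rfl
    · exact zero_le_one
    · linarith
  have hvv1 : an τ D π i ≠ 0 → 1 ≤ vv τ D π i := by
    intro h
    unfold vv
    rw [if_neg h]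
    split_ifs
    · exact le_rfl
    · exact le_rfl
    · linarith
  have hH0 : (0 : ℝ) ≤ ((HL τ D (pre π i)).card : ℝ) := Nat.cast_nonneg _
  -- the extra term
  have hex : (if i = kA τ π then lx τ π * ((D.card : ℝ) - kN τ π - 1) * lv τ D π else 0) ≤
      if an τ D π i ≠ 0 then vv τ D π i - 1 else 0 := by
    by_cases hik : i = kA τ π
    · subst hik
      rw [if_pos rfl]
      rcases nx_cases hπ hk (AL τ D (pre π (kA τ π))) with h | h
      · have : lv τ D π = 0 := h
        rw [this, mul_zero]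
        split_ifs with h2
        · have := hvv1 h2
          linarith
        · exact le_rfl
      · have h1 : lv τ D π = 1 := h
        have hne : (nx π (kA τ π) ∩ AL τ D (pre π (kA τ π))).Nonempty := by
          rw [← card_pos]
          have h3 : ((nx π (kA τ π) ∩ AL τ D (pre π (kA τ π))).card : ℝ) = 1 := h
          have : (nx π (kA τ π) ∩ AL τ D (pre π (kA τ π))).card = 1 := by exact_mod_cast h3
          omega
        obtain ⟨y, hy⟩ := hne
        rw [mem_inter] at hy
        have han : an τ D π (kA τ π) ≠ 0 := by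
          unfold an
          exact card_ne_zero_of_mem hy.2
        rw [if_pos han, h1, mul_one]
        unfold lx
        split_ifs with h4
        · have := hvv1 han
          linarith
        · -- `V_K` is a vertex
          have hlt := lt_of_lx h0 hD hπ h4
          have hp : pn τ π (kA τ π) ≠ 0 := by
            rw [pn_eq hπ]
            apply card_ne_zero_of_mem (a := y)
            rw [mem_inter, mem_sdiff]
            have h5 := Blk.mem_nx.1 hy.1
            exact ⟨⟨pre_mono (by omega) h5.1, h5.2⟩, hy.2⟩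
          unfold vv
          rw [if_neg h4, if_neg hp]
          linarith
    · rw [if_neg hik]
      split_ifs with h2
      · have := hvv1 h2
        linarith
      · exact le_rfl
  refine le_trans (add_le_add_right hex _) ?_
  by_cases hA : an τ D π i ≠ 0
  · rw [if_pos hA]
    have : (0 : ℝ) ≤ (if 1 ≤ i ∧ (∀ x ∈ D \ pre π i, τ (insert x (pre π i)) ≠ Lab.B)
        then (1 : ℝ) else 0) := by
      split_ifs
      · exact zero_le_one
      · exact le_rfl
    linarith
  · rw [if_neg hA]
    push Not at hA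
    by_cases hE : ∀ x ∈ D \ pre π i, τ (insert x (pre π i)) ≠ Lab.B
    · -- no edge exit: `i ≥ 1`
      have hi1 : 1 ≤ i := by
        by_contra hc
        have : i = 0 := by omega
        subst this
        obtain ⟨x, hx, hxB⟩ := hJ
        have := hE x (by rw [pre_zero, sdiff_empty]; exact hx)
        rw [pre_zero] at this
        exact this hxB
      rw [if_pos ⟨hi1, hE⟩]
      linarith
    · rw [if_neg (fun h => hE h.2)]
      push Not at hE
      obtain ⟨x, hx, hxB⟩ := hE
      have hxH : x ∈ HL τ D (pre π i) := by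
        unfold HL
        rw [mem_filter]
        refine ⟨hx, ?_, hxB⟩
        intro hL
        have : x ∈ AL τ D (pre π i) := by
          unfold AL
          rw [mem_filter]
          exact ⟨hx, hL, hxB⟩
        have h3 := card_ne_zero_of_mem this
        exact h3 hA
      have h4 : (1 : ℝ) ≤ ((HL τ D (pre π i)).card : ℝ) := by
        have := card_pos.2 ⟨x, hxH⟩
        exact_mod_cast this
      linarith

end path

/-- **ONE SIDE**, after the third compensator -/
theorem one_side' {τ : Finset α → Lab} {D : Finset α} (h0 : τ ∅ = Lab.A) (hD : τ D = Lab.B)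
    (hJ : ∃ x ∈ D, τ {x} = Lab.B) (g : List α → ℝ)
    (hW : ∀ π ∈ seqs D.card D, ∀ i ≤ kA τ π, (vv τ D π i - on τ D π i) * lamn D.card ≤
      (pn τ π i : ℝ) * Lam (kN τ π) D.card - gg D.card (an τ D π i) +
        gg (kN τ π) (pn τ π i) + g π) :
    lamn D.card * Av D (LC τ D) ≤ Av D (TP τ D g) := by
  refine le_trans (mul_le_mul_of_nonneg_left ?_ (lamn_nonneg _)) (one_side h0 hD g _ hW)
  have c1 := compA h0 hD (HL τ D) (HL_exit τ D) (fun _ => 1)
  have c2 := compB h0 hD (HL τ D) (HL_exit τ D)
  have e1 : Av D (fun π => ∑ i ∈ range (kA τ π + 1), ((HL τ D (pre π i)).card : ℝ)) =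
      Av D (fun π => (((kN τ π : ℝ) - kA τ π) + ((D.card : ℝ) - kN τ π)) * nl τ D π) := by
    have e2 : Av D (fun π => (((kN τ π : ℝ) - kA τ π) + ((D.card : ℝ) - kN τ π)) * nl τ D π) =
        Av D (fun π => ((kN τ π : ℝ) - kA τ π) *
          ((nx π (kA τ π) ∩ HL τ D (pre π (kA τ π))).card : ℝ) * 1) +
        Av D (fun π => ((D.card : ℝ) - kN τ π) *
          ((nx π (kA τ π) ∩ HL τ D (pre π (kA τ π))).card : ℝ)) := by
      rw [← Av_add]
      refine Av_congr fun π _ => ?_
      unfold nl
      ring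
    rw [e2, ← c1, ← c2, ← Av_add]
    refine Av_congr fun π hπ => ?_
    rw [← sum_add_distrib]
    refine sum_congr rfl fun i hi => ?_
    rw [mul_one]
    have hN := kN_lt (τ := τ) (by rw [h0]; decide) hD hπ
    have h3 : (HL τ D (pre π i)).card = ((pre π (kN τ π) \ pre π i) ∩ HL τ D (pre π i)).card +
        ((D \ pre π (kN τ π)) ∩ HL τ D (pre π i)).card := by
      rw [← card_union_of_disjoint]
      · congr 1
        ext x
        simp only [mem_union, mem_inter, mem_sdiff]
        have hsub : x ∈ HL τ D (pre π i) → x ∈ D ∧ x ∉ pre π i := by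
          intro h
          unfold HL at h
          exact mem_sdiff.1 (mem_filter.1 h).1
        constructor
        · intro h
          have h2 := hsub h
          by_cases h3 : x ∈ pre π (kN τ π)
          · exact Or.inl ⟨⟨h3, h2.2⟩, h⟩
          · exact Or.inr ⟨⟨h2.1, h3⟩, h⟩
        · rintro (h | h)
          · exact h.2
          · exact h.2
      · rw [disjoint_left]
        intro x hx hx'
        simp only [mem_inter, mem_sdiff] at hx hx'
        exact hx'.1.2 hx.1.1
    rw [h3]
    push_cast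
    ring
  have e4 : Av D (LC τ D) = Av D (fun π => ((kA τ π : ℝ) + 1) - n00 τ D π +
      lx τ π * ((D.card : ℝ) - kN τ π - 1) * lv τ D π -
      ((D.card : ℝ) - kN τ π) * lv τ D π +
      ((kN τ π : ℝ) - kA τ π) * ((D.card : ℝ) - kN τ π) * nl τ D π +
      ((D.card : ℝ) - kN τ π) * n00 τ D π * iE τ π (kA τ π)) -
      Av D (fun π => (((kN τ π : ℝ) - kA τ π) + ((D.card : ℝ) - kN τ π)) * nl τ D π) := by
    rw [← Av_sub]
    rfl
  rw [e4, ← e1, ← Av_sub]
  refine Av_mono fun π hπ => ?_
  have h5 := count_levels h0 hD hJ hπ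
  rw [sum_add_distrib] at h5
  unfold LB
  linarith

/-! ### the pointwise inequality -/

theorem pointwise {u w r n n' a b a' b' : ℝ} (hu : 1 ≤ u) (hw : 1 ≤ w) (hr : 0 ≤ r)
    (hn0 : 0 ≤ n) (hn : n ≤ u - 1) (hn0' : 0 ≤ n') (hn' : n' ≤ w - 1)
    (hab : (a = 0 ∧ b = 0 ∧ 1 ≤ r) ∨ (a = 1 ∧ b = 0) ∨ (a = 0 ∧ b = 1))
    (hab' : (a' = 0 ∧ b' = 0 ∧ 1 ≤ r) ∨ (a' = 1 ∧ b' = 0) ∨ (a' = 0 ∧ b' = 1)) :
    w * (1 - a - b) * (a' + b') + u * (a + b) * (1 - a' - b') +
      2 * ((1 - a - b) * (1 - a' - b')) ≤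
    (u - n + (1 - a' - b') * (w - 1) * a - w * a + r * w * b + w * n * (a + b) - (r + w) * b) +
    (w - n' + (1 - a - b) * (u - 1) * a' - u * a' + r * u * b' + u * n' * (a' + b') -
      (r + u) * b') := by
  have h1 : 0 ≤ (w - 1) * n := mul_nonneg (by linarith) hn0
  have h2 : 0 ≤ (u - 1) * n' := mul_nonneg (by linarith) hn0'
  have h3 : 0 ≤ r * (w - 1) := mul_nonneg hr (by linarith)
  have h4 : 0 ≤ r * (u - 1) := mul_nonneg hr (by linarith)
  rcases hab with ⟨rfl, rfl, h5⟩ | ⟨rfl, rfl⟩ | ⟨rfl, rfl⟩ <;>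
  rcases hab' with ⟨rfl, rfl, h6⟩ | ⟨rfl, rfl⟩ | ⟨rfl, rfl⟩
  · linarith
  · nlinarith
  · nlinarith [mul_nonneg (by linarith : (0 : ℝ) ≤ r - 1) (by linarith : (0 : ℝ) ≤ u - 1)]
  · nlinarith
  · nlinarith
  · nlinarith
  · nlinarith [mul_nonneg (by linarith : (0 : ℝ) ≤ r - 1) (by linarith : (0 : ℝ) ≤ w - 1)]
  · nlinarith
  · nlinarith

end Two

end R5

end

section

/-!
# The two-sided path inequality for `J, J' ≥ 1`, vertices included: assembly (helper76)

Note 1523 of the R5 room (helper25).
-/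

namespace R5

namespace Two

open Finset T7

variable {α : Type} [DecidableEq α]

section path

variable {τ : Finset α → Lab} {D : Finset α} {π : List α}

theorem dual_empty (hD : τ D = Lab.B) : dual τ D ∅ = Lab.A := by
  rw [dual_flip, sdiff_empty, hD]; rfl

theorem dual_top (h0 : τ ∅ = Lab.A) : dual τ D D = Lab.B := by
  rw [dual_flip, sdiff_self, bot_eq_empty, h0]; rfl

/-- the first exit of the dual path is an edge iff `V_K` is no vertex -/
theorem iE_dual (h0 : τ ∅ = Lab.A) (hD : τ D = Lab.B) (hπ : π ∈ seqs D.card D) :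
    iE (dual τ D) π.reverse (kA (dual τ D) π.reverse) = 1 - lx τ π := by
  have h0' : τ ∅ ≠ Lab.B := by rw [h0]; decide
  have hN := kN_lt h0' hD hπ
  have d0 := dual_empty hD
  have dD : dual τ D D ≠ Lab.A := by rw [dual_top h0]; decide
  have hrev := reverse_mem hπ
  have hk := kA_dual h0 hD hπ
  have h1 : allA (dual τ D) π.reverse (kA (dual τ D) π.reverse) :=
    (allA_iff d0 dD hrev _).2 le_rfl
  have h2 : dual τ D (pre π.reverse (kA (dual τ D) π.reverse + 1)) = (τ (pre π (kN τ π))).flip := by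
    rw [hk, pre_reverse hπ (by omega), dual_flip, Finset.sdiff_sdiff_eq_self
      (pre_subset_of_mem hπ _)]
    have e : D.card - (D.card - 1 - kN τ π + 1) = kN τ π := by omega
    rw [e]
  unfold lx
  by_cases h3 : τ (pre π (kN τ π)) = Lab.A
  · rw [if_pos h3, iE_pos ⟨h1, by rw [h2, h3]; rfl⟩, sub_zero]
  · rw [if_neg h3, iE_neg, sub_self]
    intro h4
    have h5 := h4.2
    rw [h2, flip_eq_B] at h5
    exact h3 h5

/-- `V_K` of the dual path is a vertex iff the first exit is a vertex -/
theorem lx_dual (h0 : τ ∅ = Lab.A) (hD : τ D = Lab.B) (hπ : π ∈ seqs D.card D) :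
    lx (dual τ D) π.reverse = 1 - iE τ π (kA τ π) := by
  have hD' : τ D ≠ Lab.A := by rw [hD]; decide
  have hk := kA_lt h0 hD' hπ
  have h1 := kN_dual h0 hD hπ
  have h2 : dual τ D (pre π.reverse (kN (dual τ D) π.reverse)) =
      (τ (pre π (kA τ π + 1))).flip := by
    rw [h1, pre_reverse hπ (by omega), dual_flip, Finset.sdiff_sdiff_eq_self
      (pre_subset_of_mem hπ _)]
    have e : D.card - (D.card - 1 - kA τ π) = kA τ π + 1 := by omega
    rw [e]
  unfold lx
  by_cases h3 : τ (pre π (kA τ π + 1)) = Lab.B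
  · rw [if_pos (by rw [h2, h3]; rfl), iE_pos ⟨(allA_iff h0 hD' hπ _).2 le_rfl, h3⟩, sub_self]
  · rw [if_neg (by rw [h2, flip_eq_A]; exact h3), iE_neg (fun h => h3 h.2), sub_zero]

theorem exit_cases (h0 : τ ∅ = Lab.A) (hD : τ D = Lab.B) (hπ : π ∈ seqs D.card D) :
    (lv τ D π = 0 ∧ nl τ D π = 0 ∧ (1 : ℝ) ≤ (kN τ π : ℝ) - kA τ π) ∨
    (lv τ D π = 1 ∧ nl τ D π = 0) ∨ (lv τ D π = 0 ∧ nl τ D π = 1) := by
  have hD' : τ D ≠ Lab.A := by rw [hD]; decide
  have hk := kA_lt h0 hD' hπ
  have h1 := iE_eq h0 hD hπ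
  have h2 : iE τ π (kA τ π) = 0 ∨ iE τ π (kA τ π) = 1 := by
    unfold iE
    split_ifs
    · exact Or.inr rfl
    · exact Or.inl rfl
  have h3 : lv τ D π = 0 ∨ lv τ D π = 1 := nx_cases hπ hk _
  have h4 : nl τ D π = 0 ∨ nl τ D π = 1 := nx_cases hπ hk _
  rcases h3 with h3 | h3 <;> rcases h4 with h4 | h4
  · left
    refine ⟨h3, h4, ?_⟩
    have h5 := lt_of_fv h0 hD hπ (by rw [h1, h3, h4, add_zero])
    have : (kA τ π : ℝ) + 1 ≤ kN τ π := by exact_mod_cast h5
    linarith
  · exact Or.inr (Or.inr ⟨h3, h4⟩)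
  · exact Or.inr (Or.inl ⟨h3, h4⟩)
  · exfalso
    rw [h3, h4] at h1
    rcases h2 with h2 | h2 <;> rw [h2] at h1 <;> norm_num at h1

theorem n00_le (τ : Finset α → Lab) (D : Finset α) (π : List α) : n00 τ D π ≤ kA τ π := by
  unfold n00
  refine (card_filter_le _ _).trans ?_
  rw [Nat.card_Icc]
  omega

end path

/-- the surplus on the paths through vertices -/
noncomputable def sur (τ : Finset α → Lab) (D : Finset α) (π : List α) : ℝ :=
  ((D.card : ℝ) - kN τ π) * ((1 - iE τ π (kA τ π)) * (1 - lx τ π)) +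
    ((kA τ π : ℝ) + 1) * (iE τ π (kA τ π) * lx τ π) +
    2 * ((1 - iE τ π (kA τ π)) * lx τ π)

theorem point {τ : Finset α → Lab} {D : Finset α} {π : List α} (h0 : τ ∅ = Lab.A)
    (hD : τ D = Lab.B) (hπ : π ∈ seqs D.card D) :
    sur τ D π ≤ LC τ D π + LC (dual τ D) D π.reverse := by
  have hD' : τ D ≠ Lab.A := by rw [hD]; decide
  have h0' : τ ∅ ≠ Lab.B := by rw [h0]; decide
  have d0 := dual_empty hD
  have dD := dual_top (D := D) h0
  have hk := kA_lt h0 hD' hπ
  have hN := kN_lt h0' hD hπ
  have hAN := kA_le_kN h0 hD hπ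
  have hrev := reverse_mem hπ
  have k1 := kA_dual h0 hD hπ
  have k2 := kN_dual h0 hD hπ
  have i1 := iE_eq h0 hD hπ
  have i2 := iE_eq d0 dD hrev
  have x1 := iE_dual h0 hD hπ
  have x2 := lx_dual h0 hD hπ
  have c1 := exit_cases h0 hD hπ
  have c2 := exit_cases d0 dD hrev
  have n1 := n00_le τ D π
  have n2 := n00_le (dual τ D) D π.reverse
  have K1 : ((kA (dual τ D) π.reverse : ℕ) : ℝ) = (D.card : ℝ) - 1 - kN τ π := by
    rw [k1, Nat.cast_sub (by omega), Nat.cast_sub (by omega)]
    push_cast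
    ring
  have K2 : ((kN (dual τ D) π.reverse : ℕ) : ℝ) = (D.card : ℝ) - 1 - kA τ π := by
    rw [k2, Nat.cast_sub (by omega), Nat.cast_sub (by omega)]
    push_cast
    ring
  have n1' : (n00 τ D π : ℝ) ≤ kA τ π := by exact_mod_cast n1
  have n2' : (n00 (dual τ D) D π.reverse : ℝ) ≤ kA (dual τ D) π.reverse := by exact_mod_cast n2
  have hr : (0 : ℝ) ≤ (kN τ π : ℝ) - kA τ π := by
    have : (kA τ π : ℝ) ≤ kN τ π := by exact_mod_cast hAN
    linarith
  have hw : (1 : ℝ) ≤ (D.card : ℝ) - kN τ π := by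
    have : (kN τ π : ℝ) + 1 ≤ D.card := by exact_mod_cast hN
    linarith
  have hu : (1 : ℝ) ≤ (kA τ π : ℝ) + 1 := by
    have : (0 : ℝ) ≤ kA τ π := Nat.cast_nonneg _
    linarith
  have hlx : lx τ π = 1 - lv (dual τ D) D π.reverse - nl (dual τ D) D π.reverse := by
    linarith
  have hmain := pointwise (u := (kA τ π : ℝ) + 1) (w := (D.card : ℝ) - kN τ π)
    (r := (kN τ π : ℝ) - kA τ π) (n := (n00 τ D π : ℝ)) (n' := (n00 (dual τ D) D π.reverse : ℝ))
    (a := lv τ D π) (b := nl τ D π) (a' := lv (dual τ D) D π.reverse)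
    (b' := nl (dual τ D) D π.reverse) hu hw hr (Nat.cast_nonneg _) (by linarith)
    (Nat.cast_nonneg _) (by rw [K1] at n2'; linarith) c1
    (by
      rcases c2 with ⟨h1, h2, h3⟩ | h | h
      · left
        refine ⟨h1, h2, ?_⟩
        rw [K1, K2] at h3
        linarith
      · exact Or.inr (Or.inl h)
      · exact Or.inr (Or.inr h))
  unfold sur LC
  rw [K1, K2, i1, x1, x2, hlx, i1]
  have e1 : 1 - (1 - lv (dual τ D) D π.reverse - nl (dual τ D) D π.reverse) =
      lv (dual τ D) D π.reverse + nl (dual τ D) D π.reverse := by ring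
  rw [e1]
  nlinarith [hmain]

/-- **BOTH SIDES** -/
theorem both {τ : Finset α → Lab} {D : Finset α} (h0 : τ ∅ = Lab.A) (hD : τ D = Lab.B)
    (hJ : ∃ x ∈ D, τ {x} = Lab.B) (hJ' : ∃ x ∈ D, dual τ D {x} = Lab.B)
    (g g' : List α → ℝ)
    (hW : ∀ π ∈ seqs D.card D, ∀ i ≤ kA τ π, (vv τ D π i - on τ D π i) * lamn D.card ≤
      (pn τ π i : ℝ) * Lam (kN τ π) D.card - gg D.card (an τ D π i) +
        gg (kN τ π) (pn τ π i) + g π)
    (hW' : ∀ π ∈ seqs D.card D, ∀ i ≤ kA (dual τ D) π,
      (vv (dual τ D) D π i - on (dual τ D) D π i) * lamn D.card ≤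
      (pn (dual τ D) π i : ℝ) * Lam (kN (dual τ D) π) D.card - gg D.card (an (dual τ D) D π i) +
        gg (kN (dual τ D) π) (pn (dual τ D) π i) + g' π) :
    lamn D.card * Av D (sur τ D) ≤ Av D (TP τ D g) + Av D (TP (dual τ D) D g') := by
  have d0 := dual_empty hD
  have dD := dual_top (D := D) h0
  have h1 := one_side' h0 hD hJ g hW
  have h2 := one_side' d0 dD hJ' g' hW'
  rw [← Av_reverse D (LC (dual τ D) D)] at h2
  have h3 : Av D (sur τ D) ≤ Av D (LC τ D) + Av D (fun π => LC (dual τ D) D π.reverse) := by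
    rw [← Av_add]
    exact Av_mono fun π hπ => point h0 hD hπ
  have h4 := mul_le_mul_of_nonneg_left h3 (lamn_nonneg D.card)
  rw [mul_add] at h4
  linarith

end Two

end R5

end

section

/-!
# The hypothesis `hW` of the two-sided inequality (helper76)

(i) at most two lights and no gains, (ii) any number of lights, full gains.
-/

namespace R5

namespace Two

open Finset T7

variable {α : Type} [DecidableEq α]

theorem rs_eq {l K p : ℕ} (hp : p ≤ K) (hK : K ≤ l) :
    (p : ℝ) * Lam K l + gg K p = Lev.rs l K p := by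
  rcases Nat.eq_zero_or_pos K with hz | hz
  · have : p = 0 := by omega
    subst this
    simp [Lev.rs, gg]
  · rw [Lam_eq hz hK]
    unfold Lev.rs gg
    have h1 : (p : ℝ) * Real.log ((l : ℝ) / K) =
        ∑ j ∈ range p, Real.log ((l : ℝ) / K) := by
      rw [sum_const, card_range, nsmul_eq_mul]
    rw [h1, ← sum_add_distrib]
    refine sum_congr rfl fun j hj => ?_
    rw [mem_range] at hj
    have hK' : (1 : ℝ) ≤ K := by exact_mod_cast hz
    have hl' : (K : ℝ) ≤ l := by exact_mod_cast hK
    have hj' : (j : ℝ) + 1 ≤ K := by exact_mod_cast (lt_of_lt_of_le hj hp)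
    have hj0 : (0 : ℝ) ≤ j := Nat.cast_nonneg j
    rw [← Real.log_mul (by
      apply ne_of_gt
      exact div_pos (by linarith) (by linarith)) (by
      apply ne_of_gt
      exact div_pos (by linarith) (by linarith))]
    congr 1
    have : (K : ℝ) - j ≠ 0 := by
      have : (0 : ℝ) < (K : ℝ) - j := by linarith
      exact this.ne'
    field_simp

theorem lamn_def (l : ℕ) : lamn l = Real.log ((l : ℝ) / ((l : ℝ) - 1)) := rfl

theorem gg_one (l : ℕ) : gg l 1 = 0 := by
  rcases Nat.eq_zero_or_pos l with rfl | h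
  · simp [gg]
  · have : (l : ℝ) ≠ 0 := by positivity
    simp [gg, div_self this]

section path

variable {τ : Finset α → Lab} {D : Finset α} {π : List α}

theorem pn_le_kN (h0 : τ ∅ = Lab.A) (hD : τ D = Lab.B) (hπ : π ∈ seqs D.card D) (i : ℕ) :
    pn τ π i ≤ kN τ π := by
  have hN := kN_lt (τ := τ) (by rw [h0]; decide) hD hπ
  unfold pn AL
  refine (card_le_card (filter_subset _ _)).trans ?_
  refine (card_le_card sdiff_subset).trans ?_
  rw [card_pre_of_mem hπ hN.le]

theorem pn_le_an (hπ : π ∈ seqs D.card D) (i : ℕ) : pn τ π i ≤ an τ D π i := by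
  unfold pn an AL
  apply card_le_card
  intro x hx
  rw [mem_filter] at hx ⊢
  refine ⟨mem_sdiff.2 ⟨pre_subset_of_mem hπ _ (mem_sdiff.1 hx.1).1, (mem_sdiff.1 hx.1).2⟩, hx.2⟩

theorem out_card (hπ : π ∈ seqs D.card D) (i : ℕ) :
    an τ D π i - pn τ π i = ((D \ pre π (kN τ π)) ∩ AL τ D (pre π i)).card := by
  have h1 := an_eq (τ := τ) hπ (i := i)
  have h2 := pn_le_an (τ := τ) hπ i
  have h3 : ((an τ D π i - pn τ π i : ℕ) : ℝ) =
      (((D \ pre π (kN τ π)) ∩ AL τ D (pre π i)).card : ℝ) := by
    rw [Nat.cast_sub h2, h1]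
  exact_mod_cast h3

theorem out_le (h0 : τ ∅ = Lab.A) (hD : τ D = Lab.B) (hπ : π ∈ seqs D.card D) (i : ℕ) :
    kN τ π + (an τ D π i - pn τ π i) ≤ D.card := by
  have hN := kN_lt (τ := τ) (by rw [h0]; decide) hD hπ
  rw [out_card hπ i]
  have h1 := card_le_card (inter_subset_left (s₁ := D \ pre π (kN τ π))
    (s₂ := AL τ D (pre π i)))
  rw [card_sdiff_of_subset (pre_subset_of_mem hπ _), card_pre_of_mem hπ hN.le] at h1
  omega

/-- the upper set of the object of a path -/
def U0 (τ : Finset α → Lab) (π : List α) : Finset α :=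
  if τ (pre π (kN τ π)) = Lab.A then pre π (kN τ π + 1) else pre π (kN τ π)

/-- the gain of the lights `L` on a path -/
noncomputable def gL (τ : Finset α → Lab) (D L : Finset α) (π : List α) : ℝ :=
  gg (L \ U0 τ π).card ((L \ U0 τ π) ∩ (D \ U0 τ π)).card

theorem U0_subset (hπ : π ∈ seqs D.card D) : U0 τ π ⊆ D := by
  unfold U0
  split_ifs
  · exact pre_subset_of_mem hπ _
  · exact pre_subset_of_mem hπ _

/-- (ii) any number of lights, full gains -/
theorem hW_gain (h0 : τ ∅ = Lab.A) (hD : τ D = Lab.B) (L : Finset α)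
    (hL : ∀ x ∈ D, (x ∈ L ↔ τ {x} = Lab.B)) (hLl : L.card ≤ D.card) :
    ∀ π ∈ seqs D.card D, ∀ i ≤ kA τ π, (vv τ D π i - on τ D π i) * lamn D.card ≤
      (pn τ π i : ℝ) * Lam (kN τ π) D.card - gg D.card (an τ D π i) +
        gg (kN τ π) (pn τ π i) + gL τ D L π := by
  intro π hπ i hi
  have h0' : τ ∅ ≠ Lab.B := by rw [h0]; decide
  have hD' : τ D ≠ Lab.A := by rw [hD]; decide
  have hN := kN_lt h0' hD hπ
  have hAN := kA_le_kN h0 hD hπ
  have h1 := pn_le_kN h0 hD hπ i
  have h2 := pn_le_an (τ := τ) hπ i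
  have h3 := out_le h0 hD hπ i
  have h5 := rs_eq h1 hN.le
  have hlam := lamn_nonneg D.card
  have hKR : (1 : ℝ) ≤ (D.card : ℝ) - kN τ π := by
    have : (kN τ π : ℝ) + 1 ≤ D.card := by exact_mod_cast hN
    linarith
  set l := D.card with hl
  set K := kN τ π with hK
  set p := pn τ π i with hp
  set o := an τ D π i - pn τ π i with ho
  have e1 : an τ D π i = o + p := by omega
  have e2 : on τ D π i = (o : ℝ) := by
    rw [ho, Nat.cast_sub h2]
    rfl
  -- the numbers of lights
  have hUD := U0_subset (τ := τ) hπ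
  set b := L.card with hb
  set J := (L ∩ D).card with hJd
  set pN := (L ∩ U0 τ π).card with hpN
  have eb : (L \ U0 τ π).card = b - pN := by
    have := card_sdiff_add_card_inter L (U0 τ π)
    omega
  have eJ : ((L \ U0 τ π) ∩ (D \ U0 τ π)).card = J - pN := by
    have e : (L \ U0 τ π) ∩ (D \ U0 τ π) = (L ∩ D) \ U0 τ π := by
      ext x
      simp only [mem_inter, mem_sdiff]
      tauto
    rw [e]
    have h := card_sdiff_add_card_inter (L ∩ D) (U0 τ π)
    have e' : (L ∩ D) ∩ U0 τ π = L ∩ U0 τ π := by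
      ext x
      simp only [mem_inter]
      constructor
      · rintro ⟨⟨h1, _⟩, h2⟩
        exact ⟨h1, h2⟩
      · rintro ⟨h1, h2⟩
        exact ⟨⟨h1, hUD h2⟩, h2⟩
    rw [e'] at h
    omega
  have eg : gL τ D L π = gg (b - pN) (J - pN) := by
    unfold gL
    rw [eb, eJ]
  have hJb : J ≤ b := card_le_card inter_subset_left
  -- live lights are in `L ∩ D`
  have hAL : AL τ D (pre π i) ⊆ L ∩ D := by
    intro x hx
    unfold AL at hx
    rw [mem_filter, mem_sdiff] at hx
    rw [mem_inter]
    exact ⟨(hL x hx.1.1).2 hx.2.1, hx.1.1⟩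
  have hALi : ∀ x ∈ AL τ D (pre π i), x ∉ pre π i := by
    intro x hx
    unfold AL at hx
    rw [mem_filter, mem_sdiff] at hx
    exact hx.1.2
  have hpin : (pre π K \ pre π i) ∩ AL τ D (pre π i) ⊆ L ∩ pre π K := by
    intro x hx
    rw [mem_inter, mem_sdiff] at hx
    rw [mem_inter]
    exact ⟨(mem_inter.1 (hAL hx.2)).1, hx.1.1⟩
  have hpe : p = ((pre π K \ pre π i) ∩ AL τ D (pre π i)).card := pn_eq hπ i
  have hoe : o = ((D \ pre π K) ∩ AL τ D (pre π i)).card := out_card hπ i
  rw [e1, e2, eg]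
  have goal' : (vv τ D π i - o) * lamn l ≤ Lev.rs l K p - gg l (o + p) + gg (b - pN) (J - pN) := by
    by_cases hle : τ (pre π K) = Lab.A
    · -- the last object is an edge
      have hU : U0 τ π = pre π (K + 1) := by
        unfold U0
        rw [if_pos hle]
      have hv : vv τ D π i = if an τ D π i = 0 then 0 else 1 := by
        unfold vv
        rw [if_pos hle]
      obtain ⟨y, hy⟩ := Blk.nx_single hπ hN
      have hym : y ∈ nx π K := by rw [hy]; exact mem_singleton_self y
      have hy1 := Blk.mem_nx.1 hym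
      have hins := Blk.insert_nx hπ hN hym
      by_cases hyA : y ∈ AL τ D (pre π i)
      · -- `e_N` is a live light
        have hyo : y ∈ (D \ pre π K) ∩ AL τ D (pre π i) := by
          rw [mem_inter, mem_sdiff]
          exact ⟨⟨pre_subset_of_mem hπ _ hy1.1, hy1.2⟩, hyA⟩
        have ho1 : 1 ≤ o := by
          rw [hoe]
          exact card_pos.2 ⟨y, hyo⟩
        have hpp : p + 1 ≤ pN := by
          have : insert y ((pre π K \ pre π i) ∩ AL τ D (pre π i)) ⊆ L ∩ U0 τ π := by
            intro x hx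
            rw [mem_insert] at hx
            rw [hU]
            rcases hx with rfl | hx
            · rw [mem_inter]
              exact ⟨(mem_inter.1 (hAL hyA)).1, hy1.1⟩
            · have := hpin hx
              rw [mem_inter] at this ⊢
              exact ⟨this.1, pre_mono (Nat.le_succ K) this.2⟩
          have h7 := card_le_card this
          rw [card_insert_of_notMem (by
            intro h
            rw [mem_inter, mem_sdiff] at h
            exact hy1.2 h.1.1), ← hpe] at h7
          exact h7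
        have hoo : (o - 1) + pN ≤ J := by
          have hdis : Disjoint (((D \ pre π K) ∩ AL τ D (pre π i)).erase y) (L ∩ U0 τ π) := by
            rw [disjoint_left]
            intro x hx hx'
            rw [mem_erase, mem_inter, mem_sdiff] at hx
            rw [mem_inter, hU, ← hins, mem_insert] at hx'
            rcases hx'.2 with h | h
            · exact hx.1 h
            · exact hx.2.1.2 h
          have hsub : ((D \ pre π K) ∩ AL τ D (pre π i)).erase y ∪ (L ∩ U0 τ π) ⊆ L ∩ D := by
            intro x hx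
            rw [mem_union] at hx
            rcases hx with hx | hx
            · exact hAL (mem_inter.1 (mem_of_mem_erase hx)).2
            · rw [mem_inter] at hx ⊢
              exact ⟨hx.1, hUD hx.2⟩
          have h7 := card_le_card hsub
          rw [card_union_of_disjoint hdis, card_erase_of_mem hyo, ← hoe] at h7
          exact h7
        have h8 := Lev.level_live (l := l) (K := K) (o := o - 1) (p := p) (b := b) (J := J)
          (pN := pN) (by omega) h1 hpp hoo hJb (by omega)
        have e3 : o - 1 + 1 + p = o + p := by omega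
        rw [e3, ← lamn_def] at h8
        have h9 : an τ D π i ≠ 0 := by omega
        rw [hv, if_neg h9]
        rw [Nat.cast_sub ho1] at h8
        push_cast at h8
        linarith
      · -- `e_N` is not a live light
        have hpp : p ≤ pN := by
          rw [hpe]
          apply card_le_card
          intro x hx
          have := hpin hx
          rw [hU]
          rw [mem_inter] at this ⊢
          exact ⟨this.1, pre_mono (Nat.le_succ K) this.2⟩
        have hoo : o + pN ≤ J := by
          have hdis : Disjoint ((D \ pre π K) ∩ AL τ D (pre π i)) (L ∩ U0 τ π) := by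
            rw [disjoint_left]
            intro x hx hx'
            rw [mem_inter, mem_sdiff] at hx
            rw [mem_inter, hU, ← hins, mem_insert] at hx'
            rcases hx'.2 with h | h
            · exact hyA (h ▸ hx.2)
            · exact hx.1.2 h
          have hsub : ((D \ pre π K) ∩ AL τ D (pre π i)) ∪ (L ∩ U0 τ π) ⊆ L ∩ D := by
            intro x hx
            rw [mem_union] at hx
            rcases hx with hx | hx
            · exact hAL (mem_inter.1 hx).2
            · rw [mem_inter] at hx ⊢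
              exact ⟨hx.1, hUD hx.2⟩
          have h7 := card_le_card hsub
          rw [card_union_of_disjoint hdis, ← hoe] at h7
          exact h7
        rcases Nat.eq_zero_or_pos o with hoz | hop
        · -- no outer light
          rcases Nat.eq_zero_or_pos p with hpz | hpp'
          · have h9 : an τ D π i = 0 := by omega
            rw [hv, if_pos h9, hoz, hpz]
            have h10 : 0 ≤ gg (b - pN) (J - pN) := Lev.gg_nonneg (by omega)
            simp only [Nat.cast_zero, sub_zero, zero_mul, Nat.add_zero]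
            have h11 : Lev.rs l K 0 = 0 := by simp [Lev.rs]
            have h12 : gg l 0 = 0 := by simp [gg]
            rw [h11, h12]
            linarith
          · have h8 := Lev.level_surplus (l := l) (K := K) (p := p) (b := b) (J := J) (pN := pN)
              hN h1 (by omega) hJb
            have h9 : an τ D π i ≠ 0 := by omega
            rw [hv, if_neg h9, hoz]
            have h10 : lamn l ≤ Real.log ((l : ℝ) / ((l : ℝ) - p)) := by
              rw [lamn_def]
              have hp1 : (1 : ℝ) ≤ p := by exact_mod_cast hpp'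
              have hpK : (p : ℝ) ≤ K := by exact_mod_cast h1
              have hKl : (K : ℝ) + 1 ≤ l := by exact_mod_cast hN
              apply Real.log_le_log (div_pos (by linarith) (by linarith))
              apply div_le_div_of_nonneg_left (by linarith) (by linarith) (by linarith)
            simp only [Nat.cast_zero, sub_zero, one_mul, zero_add]
            linarith
        · have hKo : K + o + 1 ≤ l := by
            have hdis : ((D \ pre π K) ∩ AL τ D (pre π i)) ⊆ D \ pre π (K + 1) := by
              intro x hx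
              rw [mem_inter, mem_sdiff] at hx
              rw [mem_sdiff, ← hins, mem_insert]
              refine ⟨hx.1.1, ?_⟩
              rintro (h | h)
              · exact hyA (h ▸ hx.2)
              · exact hx.1.2 h
            have h7 := card_le_card hdis
            rw [← hoe, card_sdiff_of_subset (pre_subset_of_mem hπ _),
              card_pre_of_mem hπ (by omega : K + 1 ≤ D.card)] at h7
            omega
          have h8 := Lev.level_dead (l := l) (K := K) (o := o) (p := p) (b := b) (J := J)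
            (pN := pN) hKo h1 hpp hoo hJb hLl
          have h9 : an τ D π i ≠ 0 := by omega
          rw [hv, if_neg h9]
          have h10 : (1 : ℝ) ≤ o := by exact_mod_cast hop
          nlinarith
    · -- the last object is a vertex
      have hU : U0 τ π = pre π K := by
        unfold U0
        rw [if_neg hle]
      have hpp : p ≤ pN := by
        rw [hpe]
        apply card_le_card
        rw [hU]
        exact hpin
      have hoo : o + pN ≤ J := by
        have hdis : Disjoint ((D \ pre π K) ∩ AL τ D (pre π i)) (L ∩ U0 τ π) := by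
          rw [disjoint_left]
          intro x hx hx'
          rw [mem_inter, mem_sdiff] at hx
          rw [mem_inter, hU] at hx'
          exact hx.1.2 hx'.2
        have hsub : ((D \ pre π K) ∩ AL τ D (pre π i)) ∪ (L ∩ U0 τ π) ⊆ L ∩ D := by
          intro x hx
          rw [mem_union] at hx
          rcases hx with hx | hx
          · exact hAL (mem_inter.1 hx).2
          · rw [mem_inter] at hx ⊢
            exact ⟨hx.1, hUD hx.2⟩
        have h7 := card_le_card hsub
        rw [card_union_of_disjoint hdis, ← hoe] at h7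
        exact h7
      have h8 := Lev.level_dead_lin (l := l) (K := K) (o := o) (p := p) (b := b) (J := J)
        (pN := pN) (h := l - K - o) (by omega) h1 hpp hoo hJb hLl
      rw [← lamn_def] at h8
      have hh : ((l - K - o : ℕ) : ℝ) = (l : ℝ) - K - o := by
        rw [Nat.cast_sub (by omega), Nat.cast_sub (by omega)]
      rw [hh] at h8
      unfold vv
      rw [if_neg hle]
      split_ifs with hpz haz
      · -- `p = 0`, no light
        have hoz : o = 0 := by omega
        have hpz' : p = 0 := hpz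
        rw [hpz'] at h8
        rw [hpz', hoz]
        rw [hoz] at h8
        simp only [Nat.cast_zero, zero_mul, sub_zero] at h8 ⊢
        linarith
      · have hpz' : p = 0 := hpz
        rw [hpz'] at h8
        rw [hpz']
        have hop : 1 ≤ o := by omega
        have h10 : (1 : ℝ) ≤ o := by exact_mod_cast hop
        simp only [Nat.cast_zero, zero_mul] at h8 ⊢
        nlinarith
      · have hp1 : 1 ≤ p := Nat.one_le_iff_ne_zero.2 hpz
        have h10 : (1 : ℝ) ≤ p := by exact_mod_cast hp1
        have h11 : (0 : ℝ) ≤ (l : ℝ) - K - o := by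
          rw [← hh]
          exact Nat.cast_nonneg _
        have h12 : 0 ≤ ((p : ℝ) - 1) * (((l : ℝ) - K - o) * lamn l) :=
          mul_nonneg (by linarith) (mul_nonneg h11 hlam)
        nlinarith
  linarith

end path

end Two

end R5

end

section

/-!
# No marks, one or two lights on both sides (helper76)
-/

namespace R5

namespace Two

open Finset T7

variable {α : Type} [DecidableEq α]

theorem n0_eq (τ : Finset α → Lab) (D : Finset α) (π : List α) :
    n0 τ D π (kA τ π) = (n00 τ D π : ℝ) := by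
  unfold n0 n00
  rw [← sum_filter, sum_const, nsmul_eq_mul, mul_one]

theorem TP_zero (τ : Finset α → Lab) (D : Finset α) (π : List α) :
    TP τ D (fun _ => 0) π = lowT0 τ D π := by
  unfold TP lowT0
  rw [n0_eq, mul_zero, add_zero]
  rfl

end Two

end R5

end
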