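import Mathlib
import Pool.Agent.Work.MP_8b6acb_full.P14
import Pool.Agent.Work.MP_8b6acb_full.P18

section

/-!
# (S1+): the value of a state of the S side, first step (helper88)

No element `y` of `D \ X` with `τ (D - y) = A`.  Then the average of the smallest value of the
state `X` is at least `lamn N` times `E[leI * arun] + E[first step to B; rest above the last edge]`.
-/

namespace R5

open Finset

variable {α : Type} [DecidableEq α]

/-- Size of the rest above the last object, if the last object is an edge. -/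
noncomputable def sI (τ : Finset α → Lab) : Finset α → List α → ℝ :=
  psum (fun U y π => if isE τ U y then gd τ (insert y U) π * (π.length : ℝ) else 0)

/-- Indicator: the first step goes to `B`. -/
def fS (τ : Finset α → Lab) (X : Finset α) (π : List α) : ℝ :=
  if τ (X ∪ (π.take 1).toFinset) = Lab.B then 1 else 0

theorem inf_one {N n : ℕ} (h : n + 1 ≤ N) {r : ℝ} (h0 : 0 < r) (h1 : r ≤ 1) :
    (n : ℝ) * lamn N ≤ -Real.log r + (n : ℝ) * -Real.log (1 - r / (N : ℝ)) := by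
  have hN : 1 ≤ N := by omega
  have h2 := stmt_INF N 1 (n : ℝ) r hN zero_le_one (Nat.cast_nonneg n)
    (fun h' => by
      have : n = 0 := by omega
      rw [this, Nat.cast_zero]) h0 h1
  have h3 : min (((N : ℝ) - 1) * 1) (n : ℝ) = (n : ℝ) := by
    rw [min_eq_right]
    have : (n : ℝ) + 1 ≤ N := by exact_mod_cast h
    linarith
  rw [h3] at h2
  linarith

section path

variable {τ : Finset α → Lab} {D X : Finset α}

/-- facts about a step of a path above `X` -/
theorem step_facts (hX : X ⊆ D) {π π1 π2 : List α} {y : α}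
    (hπ : π ∈ seqs (D \ X).card (D \ X)) (hd : π = π1 ++ y :: π2) :
    X ⊆ X ∪ π1.toFinset ∧ insert y (X ∪ π1.toFinset) ⊆ D ∧ y ∉ X ∪ π1.toFinset ∧
      π2.length + 1 ≤ (D \ X).card ∧ y ∈ D \ X ∧
      (∀ z ∈ π2, z ∈ D \ X ∧ z ∉ insert y (X ∪ π1.toFinset)) := by
  obtain ⟨hnd, hlen, hmem⟩ := mem_seqs.1 hπ
  have hyG : y ∈ D \ X := hmem y (by rw [hd]; simp)
  have hlen2 : π1.length + (π2.length + 1) = (D \ X).card := by
    rw [← hlen, hd]; simp
  have hnd2 : y ∉ π1 ∧ y ∉ π2 ∧ ∀ z ∈ π2, z ∉ π1 := by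
    rw [hd, List.nodup_append] at hnd
    obtain ⟨n1, n2, n3⟩ := hnd
    rw [List.nodup_cons] at n2
    exact ⟨fun h => n3 y h y (by simp) rfl, n2.1, fun z hz h => n3 z h z (by simp [hz]) rfl⟩
  have hUD : X ∪ π1.toFinset ⊆ D := by
    refine union_subset hX fun z hz => ?_
    have : z ∈ π := by rw [hd]; exact List.mem_append_left _ (List.mem_toFinset.1 hz)
    exact (mem_sdiff.1 (hmem z this)).1
  have hn : ∀ z ∈ D \ X, z ∉ π1 → z ∉ X ∪ π1.toFinset := by
    intro z hz hz1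
    rw [mem_union, List.mem_toFinset]
    rintro (h | h)
    · exact (mem_sdiff.1 hz).2 h
    · exact hz1 h
  refine ⟨subset_union_left, insert_subset (mem_sdiff.1 hyG).1 hUD, hn y hyG hnd2.1, by omega,
    hyG, ?_⟩
  intro z hz
  have hzG : z ∈ D \ X := hmem z (by rw [hd]; simp [hz])
  refine ⟨hzG, ?_⟩
  rw [mem_insert]
  rintro (h | h)
  · exact hnd2.2.1 (h ▸ hz)
  · exact hn z hzG (hnd2.2.2 z hz) h

/-- the sum of the densities of a set which misses an element -/
theorem log_arg_pos {S : Finset α} {z : α} (hS : S ⊆ D \ X) (hz : z ∈ D \ X) (hzS : z ∉ S)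
    {ρ : α → ℝ} (h1 : ∀ x ∈ D \ X, ρ x ≤ 1) {N : ℕ} (hN : (D \ X).card ≤ N) :
    0 < 1 - (∑ g ∈ S, ρ g) / (N : ℝ) := by
  have h2 : ∑ x ∈ S, ρ x < (N : ℝ) := sum_lt_card hS hz hzS h1 hN
  have h3 : 1 ≤ (D \ X).card := card_pos.2 ⟨z, hz⟩
  have h4 : (0 : ℝ) < N := by exact_mod_cast (by omega : 0 < N)
  rw [sub_pos, div_lt_one h4]
  exact h2

theorem log_mono_sub {S S' : Finset α} {z : α} (hSS : S' ⊆ S) (hS : S ⊆ D \ X) (hz : z ∈ D \ X)
    (hzS : z ∉ S) {ρ : α → ℝ} (h0 : ∀ x ∈ D \ X, 0 < ρ x) (h1 : ∀ x ∈ D \ X, ρ x ≤ 1) {N : ℕ}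
    (hN : (D \ X).card ≤ N) :
    -Real.log (1 - (∑ g ∈ S', ρ g) / (N : ℝ)) ≤ -Real.log (1 - (∑ g ∈ S, ρ g) / (N : ℝ)) := by
  have e1 := log_arg_pos hS hz hzS h1 hN
  have h2 : ∑ g ∈ S', ρ g ≤ ∑ g ∈ S, ρ g :=
    sum_le_sum_of_subset_of_nonneg hSS fun x hx _ => (h0 x (hS hx)).le
  have h3 : (∑ g ∈ S', ρ g) / (N : ℝ) ≤ (∑ g ∈ S, ρ g) / (N : ℝ) :=
    div_le_div_of_nonneg_right h2 (Nat.cast_nonneg N)
  have := Real.log_le_log e1 (by linarith : 1 - (∑ g ∈ S, ρ g) / (N : ℝ) ≤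
    1 - (∑ g ∈ S', ρ g) / (N : ℝ))
  linarith

theorem log_nonneg_sub {S : Finset α} {z : α} (hS : S ⊆ D \ X) (hz : z ∈ D \ X) (hzS : z ∉ S)
    {ρ : α → ℝ} (h0 : ∀ x ∈ D \ X, 0 < ρ x) (h1 : ∀ x ∈ D \ X, ρ x ≤ 1) {N : ℕ}
    (hN : (D \ X).card ≤ N) : 0 ≤ -Real.log (1 - (∑ g ∈ S, ρ g) / (N : ℝ)) := by
  have h2 := log_mono_sub (empty_subset S) hS hz hzS h0 h1 hN
  simpa using h2

/-- pathwise: the smallest value is at least `lamn N` times the size of the rest -/
theorem sI_le_phiM (hX : X ⊆ D) {ρ : α → ℝ} (h0 : ∀ x ∈ D \ X, 0 < ρ x)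
    (h1 : ∀ x ∈ D \ X, ρ x ≤ 1) {N : ℕ} (hN : (D \ X).card ≤ N) {π : List α}
    (hπ : π ∈ seqs (D \ X).card (D \ X)) :
    lamn N * sI τ X π ≤ psum (phiM τ ρ (N : ℝ) X) X π := by
  unfold sI
  rw [← psum_mul]
  refine psum_mono_path _ _ π X fun π1 y π2 hd => ?_
  obtain ⟨hXU, hUD, hyU, hlen, hyG, hπ2⟩ := step_facts hX hπ hd
  obtain ⟨U, hU⟩ : ∃ U, X ∪ π1.toFinset = U := ⟨_, rfl⟩
  rw [hU] at hXU hUD hyU hπ2 ⊢
  have hg := gd_nonneg τ (insert y U) π2
  have hUD' : U ⊆ D := (subset_insert _ _).trans hUD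
  unfold phiM
  have a2 : 0 ≤ (if τ U = Lab.X then gd τ (insert y U) π2 * (((π2.length : ℝ) + 1) *
      -Real.log (1 - (∑ g ∈ U \ X, ρ g) / N)) else 0) := by
    split_ifs with hE
    · refine mul_nonneg hg (mul_nonneg (by positivity) ?_)
      refine log_nonneg_sub (sdiff_subset_sdiff hUD' (Subset.refl _)) hyG ?_ h0 h1 hN
      rw [mem_sdiff]
      exact fun h => hyU h.1
    · exact le_rfl
  have a1 : lamn N * (if isE τ U y then gd τ (insert y U) π2 * (π2.length : ℝ) else 0) ≤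
      (if isE τ U y then gd τ (insert y U) π2 * (-Real.log (ρ y) +
      (π2.length : ℝ) * -Real.log (1 - (∑ g ∈ insert y U \ X, ρ g) / N)) else 0) := by
    split_ifs with hE
    · rw [mul_left_comm]
      refine mul_le_mul_of_nonneg_left ?_ hg
      have b1 := inf_one (N := N) (n := π2.length) (by omega) (h0 y hyG) (h1 y hyG)
      have b2 : (π2.length : ℝ) * -Real.log (1 - ρ y / (N : ℝ)) ≤
          (π2.length : ℝ) * -Real.log (1 - (∑ g ∈ insert y U \ X, ρ g) / N) := by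
        cases π2 with
        | nil => simp
        | cons z π2 =>
          refine mul_le_mul_of_nonneg_left ?_ (Nat.cast_nonneg _)
          obtain ⟨hz, hzU⟩ := hπ2 z (by simp)
          have := log_mono_sub (S := insert y U \ X) (S' := {y}) (z := z) (by
            rw [singleton_subset_iff, mem_sdiff]
            exact ⟨mem_insert_self _ _, (mem_sdiff.1 hyG).2⟩)
            (sdiff_subset_sdiff hUD (Subset.refl _)) hz (by
            rw [mem_sdiff]
            exact fun h => hzU h.1) h0 h1 hN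
          rwa [sum_singleton] at this
      linarith
    · simp
  linarith

theorem sI_nonneg (τ : Finset α → Lab) (X : Finset α) (π : List α) : 0 ≤ sI τ X π := by
  refine psum_nonneg (fun V y π => ?_) π X
  have := gd_nonneg τ (insert y V) π
  split_ifs
  · positivity
  · exact le_rfl

/-- dropping the first element -/
theorem phiM_drop (hX : X ⊆ D) {x : α} (hx : x ∈ D \ X) {ρ : α → ℝ}
    (h0 : ∀ x ∈ D \ X, 0 < ρ x) (h1 : ∀ x ∈ D \ X, ρ x ≤ 1) {N : ℕ} (hN : (D \ X).card ≤ N)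
    {π : List α} (hπ : π ∈ seqs (D \ insert x X).card (D \ insert x X)) :
    psum (phiM τ ρ (N : ℝ) (insert x X)) (insert x X) π ≤
      psum (phiM τ ρ (N : ℝ) X) (insert x X) π := by
  refine psum_mono_path _ _ π (insert x X) fun π1 y π2 hd => ?_
  have hxX : insert x X ⊆ D := insert_subset (mem_sdiff.1 hx).1 hX
  obtain ⟨hXU, hUD, hyU, -, hyG, hπ2⟩ := step_facts hxX hπ hd
  obtain ⟨U, hU⟩ : ∃ U, insert x X ∪ π1.toFinset = U := ⟨_, rfl⟩
  rw [hU] at hXU hUD hyU hπ2 ⊢
  have hg := gd_nonneg τ (insert y U) π2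
  have hUD' : U ⊆ D := (subset_insert _ _).trans hUD
  have hsub : D \ insert x X ⊆ D \ X := sdiff_subset_sdiff (Subset.refl _) (subset_insert _ _)
  unfold phiM
  refine add_le_add ?_ ?_
  · split_ifs with hE
    · refine mul_le_mul_of_nonneg_left ?_ hg
      refine add_le_add le_rfl ?_
      cases π2 with
      | nil => simp
      | cons z π2 =>
        refine mul_le_mul_of_nonneg_left ?_ (Nat.cast_nonneg _)
        obtain ⟨hz, hzU⟩ := hπ2 z (by simp)
        exact log_mono_sub (sdiff_subset_sdiff (Subset.refl _) (subset_insert _ _))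
          (sdiff_subset_sdiff hUD (Subset.refl _)) (hsub hz) (fun h => hzU (mem_sdiff.1 h).1)
          h0 h1 hN
    · exact le_rfl
  · split_ifs with hE
    · refine mul_le_mul_of_nonneg_left ?_ hg
      refine mul_le_mul_of_nonneg_left ?_ (by positivity)
      exact log_mono_sub (sdiff_subset_sdiff (Subset.refl _) (subset_insert _ _))
          (sdiff_subset_sdiff hUD' (Subset.refl _)) (hsub hyG) (fun h => hyU (mem_sdiff.1 h).1)
          h0 h1 hN
    · exact le_rfl

end path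

/-- **(S1+)**, no `y` with `τ (D - y) = A`. -/
theorem S1p (τ : Finset α → Lab) (D X : Finset α) (hX : X ⊆ D) (hA : τ X = Lab.A)
    (hB : τ D = Lab.B) (hJ : ∀ x ∈ D \ X, τ (D.erase x) ≠ Lab.A)
    (ρ : α → ℝ) (h0 : ∀ x ∈ D \ X, 0 < ρ x) (h1 : ∀ x ∈ D \ X, ρ x ≤ 1)
    (N : ℕ) (hN : (D \ X).card ≤ N) :
    lamn N * (Eo (D \ X) (fun π => leI τ X π * (arun τ X π : ℝ)) +
      Eo (D \ X) (fun π => fS τ X π * sI τ X π)) ≤
      Eo (D \ X) (psum (phiM τ ρ (N : ℝ) X) X) := by
  obtain ⟨m, hm⟩ := sdiff_card_pos hX hA hB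
  have hne : (D \ X).Nonempty := card_pos.1 (by omega)
  rw [← Eo_add, ← Eo_mul, Eo_rec hne, Eo_rec hne]
  refine div_le_div_of_nonneg_right ?_ (Nat.cast_nonneg _)
  refine sum_le_sum fun x hx => ?_
  have hxD := (mem_sdiff.1 hx).1
  have hxX := (mem_sdiff.1 hx).2
  have hins : insert x X ⊆ D := insert_subset hxD hX
  have hG : (D \ X).erase x = D \ insert x X := by
    ext y
    simp only [mem_erase, mem_sdiff, mem_insert, not_or]
    tauto
  have hcard : (D \ insert x X).card + 1 = (D \ X).card := by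
    rw [← hG, card_erase_of_mem hx]
    omega
  have hcons : ∀ π ∈ seqs ((D \ X).erase x).card ((D \ X).erase x),
      (x :: π) ∈ seqs (D \ X).card (D \ X) := by
    intro π hπ
    obtain ⟨a1, a2, a3⟩ := mem_seqs.1 hπ
    refine mem_seqs.2 ⟨List.nodup_cons.2 ⟨fun h => (mem_erase.1 (a3 x h)).1 rfl, a1⟩, ?_, ?_⟩
    · rw [List.length_cons, a2, card_erase_of_mem hx]
      omega
    · intro y hy
      rcases List.mem_cons.1 hy with rfl | h
      · exact hx
      · exact mem_of_mem_erase (a3 y h)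
  have hfS : ∀ π : List α, fS τ X (x :: π) = if τ (insert x X) = Lab.B then 1 else 0 := by
    intro π
    unfold fS
    rw [List.take_succ_cons, List.take_zero, List.toFinset_cons, List.toFinset_nil,
      union_insert, union_empty]
  by_cases hxA : τ (insert x X) = Lab.A
  · -- the run goes on
    have hE : ¬ isE τ X x := fun h => by rw [h.2] at hxA; exact absurd hxA (by decide)
    have hXX : τ X ≠ Lab.X := by rw [hA]; decide
    have e2 : ∀ π : List α, psum (phiM τ ρ (N : ℝ) X) X (x :: π) =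
        psum (phiM τ ρ (N : ℝ) X) (insert x X) π := by
      intro π
      show phiM τ ρ (N : ℝ) X X x π + psum (phiM τ ρ (N : ℝ) X) (insert x X) π = _
      have : phiM τ ρ (N : ℝ) X X x π = 0 := by
        unfold phiM
        rw [if_neg hE, if_neg hXX, add_zero]
      rw [this, zero_add]
    have e1 : ∀ π : List α, lamn N * (leI τ X (x :: π) * (arun τ X (x :: π) : ℝ) +
        fS τ X (x :: π) * sI τ X (x :: π)) =
        lamn N * (leI τ (insert x X) π * (arun τ (insert x X) π : ℝ) +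
          leI τ (insert x X) π) := by
      intro π
      rw [hfS, if_neg (by rw [hxA]; decide), leI_cons, if_neg hE, arun_cons, if_pos hxA]
      push_cast
      ring
    simp only [e1, e2]
    rw [Eo_mul, Eo_add, hG]
    have hS0 := S0 τ D (insert x X) hins hxA hB ρ
      (fun y hy => h0 y (sdiff_subset_sdiff (Subset.refl _) (subset_insert _ _) hy))
      (fun y hy => h1 y (sdiff_subset_sdiff (Subset.refl _) (subset_insert _ _) hy)) N (by omega)
    have ha : (D \ insert x X).filter (fun y => τ (D.erase y) = Lab.A) = ∅ := by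
      rw [filter_eq_empty_iff]
      intro y hy
      exact hJ y (sdiff_subset_sdiff (Subset.refl _) (subset_insert _ _) hy)
    rw [ha, card_empty, Nat.cast_zero, sub_zero, one_mul] at hS0
    refine hS0.trans (Eo_mono fun π hπ => ?_)
    exact phiM_drop hX hx h0 h1 hN hπ
  · -- the run stops
    refine Eo_mono fun π hπ => ?_
    have hsx := sI_le_phiM (τ := τ) hX h0 h1 hN (hcons π hπ)
    have hs0 := sI_nonneg τ X (x :: π)
    have hl := lamn_nonneg N
    rw [hfS, arun_cons, if_neg hxA, Nat.cast_zero, mul_zero, zero_add]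
    refine le_trans ?_ hsx
    refine mul_le_mul_of_nonneg_left ?_ hl
    split_ifs
    · rw [one_mul]
    · rw [zero_mul]
      exact hs0

end R5

end

section

/-!
# The scalar inequality at a vertex `V_K` (helper3)
-/

namespace R5

namespace J0

theorem lam_lb {l : ℕ} (hl : 2 ≤ l) : 1 / (l : ℝ) + 1 / (2 * (l : ℝ) ^ 2) ≤ lamn l := by
  have h2 : (2 : ℝ) ≤ l := by exact_mod_cast hl
  have hx0 : (0 : ℝ) < 1 / (l : ℝ) := by positivity
  have hx1 : 1 / (l : ℝ) < 1 := by
    rw [div_lt_one (by linarith)]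
    linarith
  have h := Real.hasSum_pow_div_log_of_abs_lt_one (x := 1 / (l : ℝ))
    (by rw [abs_of_pos hx0]; exact hx1)
  have h3 := sum_le_hasSum (Finset.range 2) (fun i _ => by positivity) h
  rw [Finset.sum_range_succ, Finset.sum_range_one] at h3
  have e : lamn l = -Real.log (1 - 1 / (l : ℝ)) := by
    unfold lamn
    rw [← Real.log_inv]
    congr 1
    have : (l : ℝ) ≠ 0 := by linarith
    have : (l : ℝ) - 1 ≠ 0 := by linarith
    field_simp
  rw [e]
  refine le_trans (le_of_eq ?_) h3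
  norm_num
  field_simp

theorem scalW1 {K p q : ℝ} (hK : 2 ≤ K) (hp : 1 ≤ p) (hq : 1 ≤ q) (h : p + q = K) :
    1 ≤ 3 / 2 * (q / K) + ((K + 1) * (K ^ 2 + K - 1) / (K * (K + 2) ^ 2)) * (p / K) *
      (p / K + q) := by
  have hK0 : (0 : ℝ) < K := by linarith
  set c := (K + 1) * (K ^ 2 + K - 1) / (K * (K + 2) ^ 2) with hc
  have hc0 : 0 ≤ c := by
    rw [hc]
    have : 0 ≤ K ^ 2 + K - 1 := by nlinarith
    positivity
  have hx : 2 - 1 / K ≤ p / K + q := by
    have e : p / K + q - (2 - 1 / K) = (q - 1) * (K - 1) / K := by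
      field_simp
      nlinarith
    have : 0 ≤ (q - 1) * (K - 1) / K :=
      div_nonneg (mul_nonneg (by linarith) (by linarith)) hK0.le
    linarith
  have h1 : c * (p / K) * (2 - 1 / K) ≤ c * (p / K) * (p / K + q) :=
    mul_le_mul_of_nonneg_left hx (mul_nonneg hc0 (div_nonneg (by linarith) hK0.le))
  have h2 : 0 ≤ 3 / 2 * (q / K) + c * (p / K) * (2 - 1 / K) - 1 := by
    have hE : p * (3 / 2 * K ^ 2 * (K + 2) ^ 2 - (K + 1) * (K ^ 2 + K - 1) * (2 * K - 1)) ≤
        K ^ 3 * (K + 2) ^ 2 / 2 := by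
      set E := 3 / 2 * K ^ 2 * (K + 2) ^ 2 - (K + 1) * (K ^ 2 + K - 1) * (2 * K - 1) with hE
      rcases le_total E 0 with h3 | h3
      · have : p * E ≤ 0 := mul_nonpos_of_nonneg_of_nonpos (by linarith) h3
        have : 0 ≤ K ^ 3 * (K + 2) ^ 2 / 2 := by positivity
        linarith
      · have h4 : p * E ≤ (K - 1) * E := mul_le_mul_of_nonneg_right (by linarith) h3
        have h5 : (K - 1) * E ≤ K ^ 3 * (K + 2) ^ 2 / 2 := by
          have e : K ^ 3 * (K + 2) ^ 2 / 2 - (K - 1) * E =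
              K ^ 5 - 3 / 2 * K ^ 4 - 3 * K ^ 3 + 6 * K ^ 2 + 3 * K - 1 := by
            rw [hE]; ring
          have h6 : 0 ≤ K ^ 5 - 3 / 2 * K ^ 4 - 3 * K ^ 3 + 6 * K ^ 2 + 3 * K - 1 := by
            have e2 : K ^ 5 - 3 / 2 * K ^ 4 - 3 * K ^ 3 + 6 * K ^ 2 + 3 * K - 1 =
                K ^ 2 * ((K - 2) * (K ^ 2 + K / 2 - 2) + 2) + 3 * K - 1 := by ring
            rw [e2]
            have h7 : 0 ≤ (K - 2) * (K ^ 2 + K / 2 - 2) :=
              mul_nonneg (by linarith) (by nlinarith)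
            have h8 : 0 ≤ K ^ 2 * ((K - 2) * (K ^ 2 + K / 2 - 2) + 2) := by positivity
            linarith
          linarith
        linarith
    have e : 3 / 2 * (q / K) + c * (p / K) * (2 - 1 / K) - 1 =
        (K ^ 3 * (K + 2) ^ 2 / 2 - p * (3 / 2 * K ^ 2 * (K + 2) ^ 2 -
          (K + 1) * (K ^ 2 + K - 1) * (2 * K - 1))) / (K ^ 3 * (K + 2) ^ 2) := by
      have hq' : q = K - p := by linarith
      rw [hc, hq']
      field_simp
      ring
    rw [e]
    apply div_nonneg (by linarith) (by positivity)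
  linarith

/-- the lower bound of the slack term -/
theorem Tge {k L A B P : ℝ} (hk : 1 ≤ k) (hL : k + 1 ≤ L) (hP : 0 ≤ P) (hB : 0 ≤ B)
    (hBA : B ≤ A) (hG : P / k * (k + k / L - 1) ≤ k + k / L - A) :
    L / (L + 1) * ((1 - k / L) * (P / k * (k + k / L - 1)) * B /
      ((k + 1) * (k + k / L))) ≤
    L / (L + 1) * ((1 - k / L) * (k + k / L - A) * A / ((k + 1) * (k + k / L))) := by
  have hL0 : 0 < L := by linarith
  have h1 : 0 ≤ 1 - k / L := by
    rw [sub_nonneg, div_le_one hL0]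
    linarith
  have h2 : 0 ≤ k / L := by positivity
  have h3 : 0 ≤ P / k * (k + k / L - 1) :=
    mul_nonneg (div_nonneg hP (by linarith)) (by linarith)
  apply mul_le_mul_of_nonneg_left _ (by positivity)
  apply div_le_div_of_nonneg_right _ (by positivity)
  apply mul_le_mul _ hBA hB
  · apply mul_nonneg h1
    linarith
  · exact mul_le_mul_of_nonneg_left hG h1

theorem cfacts {K : ℝ} (hK : 2 ≤ K) :
    0 ≤ (K + 1) * (K ^ 2 + K - 1) / (K * (K + 2) ^ 2) ∧
      (K + 1) * (K ^ 2 + K - 1) / (K * (K + 2) ^ 2) ≤ 1 := by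
  have h : 0 ≤ K ^ 2 + K - 1 := by nlinarith
  constructor
  · positivity
  · rw [div_le_one (by positivity)]
    nlinarith

theorem cfac2 {K L : ℝ} (hK : 1 ≤ K) (hL : K + 2 ≤ L) :
    1 - 1 / K ≤ (L ^ 2 / ((L + 1) * (K + 1))) * (1 - L / (K * (L + 1))) := by
  have hK0 : 0 < K := by linarith
  have hL0 : 0 < L := by linarith
  have h12 : 1 ≤ L ^ 2 / ((L + 1) * (K + 1)) := by
    rw [one_le_div (by positivity)]
    nlinarith
  have h13 : 1 - 1 / K ≤ 1 - L / (K * (L + 1)) := by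
    apply sub_le_sub_left
    rw [div_le_div_iff₀ (by positivity) hK0]
    nlinarith
  have h14 : 0 ≤ 1 - 1 / K := by
    rw [sub_nonneg, div_le_one hK0]
    linarith
  calc 1 - 1 / K ≤ 1 - L / (K * (L + 1)) := h13
    _ = 1 * (1 - L / (K * (L + 1))) := (one_mul _).symm
    _ ≤ _ := mul_le_mul_of_nonneg_right h12 (h14.trans h13)

theorem cfac3 {K w : ℝ} (hK : 1 ≤ K) (hw : 2 ≤ w) :
    1 ≤ 1 * w * (w + 1 / 2) / K + w * (1 - 1 / K) * (1 - 1 / K) := by
  have hK0 : 0 < K := by linarith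
  have e2 : 1 * w * (w + 1 / 2) / K + w * (1 - 1 / K) * (1 - 1 / K) =
      w * (1 + (w - 3 / 2) / K + 1 / K ^ 2) := by
    field_simp
    ring
  rw [e2]
  have h16 : 0 ≤ (w - 3 / 2) / K := div_nonneg (by linarith) hK0.le
  have h17 : 0 ≤ 1 / K ^ 2 := by positivity
  nlinarith

set_option maxHeartbeats 1000000 in
theorem scal {K l p o : ℕ} {β A lam : ℝ} (hK : 1 ≤ K) (hKl : K + 1 ≤ l) (hpK : p ≤ K)
    (hJ : 1 ≤ p + o) (hJl : p + o + 1 ≤ l) (hol : K + o ≤ l) (hK2 : 1 ≤ p → 2 ≤ K)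
    (hβ0 : 0 ≤ β) (hβ : β ≤ (K : ℝ) - p) (hA1 : 1 ≤ A) (hA2 : (p : ℝ) / K + β ≤ A)
    (hG : (p : ℝ) / K * ((K : ℝ) + K / l - 1) ≤ (K : ℝ) + K / l - A)
    (hlam : 1 / (l : ℝ) + 1 / (2 * (l : ℝ) ^ 2) ≤ lam) :
    (((l : ℝ) - K) + β) / (l : ℝ) ^ 2 ≤
      lam * ((p : ℝ) / K * (((p : ℝ) - 1) * (((l : ℝ) - K) - o)) +
        (1 - (p : ℝ) / K) * ((p : ℝ) * (((l : ℝ) - K) - o) + o)) +
      (l : ℝ) / ((l : ℝ) + 1) * ((1 - (K : ℝ) / l) * ((K : ℝ) + K / l - A) * A /
        (((K : ℝ) + 1) * ((K : ℝ) + K / l))) := by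
  have hk1 : (1 : ℝ) ≤ K := by exact_mod_cast hK
  have hL1 : (K : ℝ) + 1 ≤ l := by exact_mod_cast hKl
  have hp0 : (0 : ℝ) ≤ p := Nat.cast_nonneg p
  have ho0 : (0 : ℝ) ≤ o := Nat.cast_nonneg o
  have hL0 : (0 : ℝ) < l := by linarith
  have hK0 : (0 : ℝ) < K := by linarith
  have hpK' : (p : ℝ) ≤ K := by exact_mod_cast hpK
  have hol' : (K : ℝ) + o ≤ l := by exact_mod_cast hol
  have hl1 : 1 / (l : ℝ) ≤ lam := by
    have : 0 ≤ 1 / (2 * (l : ℝ) ^ 2) := by positivity
    linarith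
  have hlam0 : 0 ≤ lam := le_trans (by positivity) hl1
  have hsq : (0 : ℝ) < (l : ℝ) ^ 2 := by positivity
  have T1 := Tge hk1 hL1 hp0 (by norm_num : (0 : ℝ) ≤ 1) hA1 hG
  have T2 := Tge hk1 hL1 hp0 (by positivity : (0 : ℝ) ≤ (p : ℝ) / K + β) hA2 hG
  have T0 := Tge hk1 hL1 hp0 le_rfl (by linarith : (0 : ℝ) ≤ A) hG
  rw [mul_zero, zero_div, mul_zero] at T0
  set T := (l : ℝ) / ((l : ℝ) + 1) * ((1 - (K : ℝ) / l) * ((K : ℝ) + K / l - A) * A /
        (((K : ℝ) + 1) * ((K : ℝ) + K / l))) with hT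
  have hll : 1 / (l : ℝ) = (l : ℝ) / (l : ℝ) ^ 2 := by field_simp
  rcases Nat.eq_zero_or_pos p with hp | hp
  · -- no light in `V_K`
    subst hp
    have ho1 : (1 : ℝ) ≤ o := by
      have : 1 ≤ o := by omega
      exact_mod_cast this
    have h1 : (((l : ℝ) - K) + β) / (l : ℝ) ^ 2 ≤ 1 / l := by
      rw [hll]
      apply div_le_div_of_nonneg_right _ hsq.le
      push_cast at hβ
      linarith
    have h2 : lam ≤ lam * o := by nlinarith
    push_cast
    simp only [zero_div, zero_mul, sub_zero, one_mul, zero_add]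
    linarith
  have hK2' : 2 ≤ K := hK2 hp
  have hK2R : (2 : ℝ) ≤ K := by exact_mod_cast hK2'
  have hp1 : (1 : ℝ) ≤ p := by exact_mod_cast hp
  rcases Nat.eq_or_lt_of_le hpK with hpe | hlt
  · -- all elements of `V_K` are lights
    subst hpe
    have hβ1 : β = 0 := le_antisymm (by linarith) hβ0
    have h3 : (1 : ℝ) ≤ ((l : ℝ) - p) - o := by
      have : (p : ℝ) + o + 1 ≤ l := by exact_mod_cast hJl
      linarith
    have h4 : (p : ℝ) / p = 1 := div_self (by linarith)
    rw [h4, hβ1]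
    have h5 : (1 : ℝ) ≤ ((p : ℝ) - 1) * (((l : ℝ) - p) - o) := by nlinarith
    have h6 : lam ≤ lam * (((p : ℝ) - 1) * (((l : ℝ) - p) - o)) := by nlinarith
    have h7 : (((l : ℝ) - p) + 0) / (l : ℝ) ^ 2 ≤ 1 / l := by
      rw [hll]
      apply div_le_div_of_nonneg_right _ hsq.le
      linarith
    simp only [sub_self, zero_mul, add_zero, one_mul] at *
    linarith
  -- the main case
  set w := (l : ℝ) - K with hw
  set q := (K : ℝ) - p with hq
  have hw1 : 1 ≤ w := by linarith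
  have hq1 : 1 ≤ q := by
    have : (p : ℝ) + 1 ≤ K := by exact_mod_cast hlt
    linarith
  have hS : q * w / K ≤ (p : ℝ) / K * (((p : ℝ) - 1) * (w - o)) +
        (1 - (p : ℝ) / K) * ((p : ℝ) * (w - o) + o) := by
    have e : (p : ℝ) / K * (((p : ℝ) - 1) * (w - o)) +
        (1 - (p : ℝ) / K) * ((p : ℝ) * (w - o) + o) - q * w / K =
        ((p : ℝ) - 1) * (w - o) := by
      rw [hq]
      field_simp
      ring
    have : 0 ≤ ((p : ℝ) - 1) * (w - o) := mul_nonneg (by linarith) (by linarith)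
    linarith
  have hS' : (1 / (l : ℝ) + 1 / (2 * (l : ℝ) ^ 2)) * (q * w / K) ≤
      lam * ((p : ℝ) / K * (((p : ℝ) - 1) * (w - o)) +
        (1 - (p : ℝ) / K) * ((p : ℝ) * (w - o) + o)) := by
    have h0 : 0 ≤ q * w / K := by positivity
    exact (mul_le_mul_of_nonneg_right hlam h0).trans (mul_le_mul_of_nonneg_left hS hlam0)
  -- the rest in units of `1 / l ^ 2`
  have hS2 : (1 / (l : ℝ) + 1 / (2 * (l : ℝ) ^ 2)) * (q * w / K) =
      (((l : ℝ) + 1 / 2) * (q * w / K)) / (l : ℝ) ^ 2 := by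
    field_simp
  have goal' : w + β ≤ ((l : ℝ) + 1 / 2) * (q * w / K) + (l : ℝ) ^ 2 * T := by
    have hlK : (l : ℝ) = K + w := by rw [hw]; ring
    have hTpos : 0 ≤ (l : ℝ) ^ 2 * T := by positivity
    have hbase : ((l : ℝ) + 1 / 2) * (q * w / K) = q * w + q * w * (w + 1 / 2) / K := by
      rw [hlK]
      field_simp
      ring
    by_cases hw2 : K + 1 = l
    · -- `w = 1`
      have hw1' : w = 1 := by
        rw [hw, ← hw2]
        push_cast
        ring
      have e : ∀ B : ℝ, (l : ℝ) ^ 2 * ((l : ℝ) / ((l : ℝ) + 1) * ((1 - (K : ℝ) / l) *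
          ((p : ℝ) / K * ((K : ℝ) + K / l - 1)) * B / (((K : ℝ) + 1) * ((K : ℝ) + K / l)))) =
          (((K : ℝ) + 1) * ((K : ℝ) ^ 2 + K - 1) / ((K : ℝ) * ((K : ℝ) + 2) ^ 2)) *
            ((p : ℝ) / K) * B := by
        intro B
        have hl' : (l : ℝ) = (K : ℝ) + 1 := by rw [← hw2]; push_cast; ring
        rw [hl']
        have h1 : (K : ℝ) + 1 + 1 = K + 2 := by ring
        have h2 : (K : ℝ) + 1 ≠ 0 := by positivity
        have h3 : (K : ℝ) + 2 ≠ 0 := by positivity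
        rw [h1]
        field_simp
        ring
      have hm := mul_le_mul_of_nonneg_left T2 hsq.le
      rw [e] at hm
      have hs := scalW1 hK2R hp1 hq1 (by rw [hq]; ring)
      set c := ((K : ℝ) + 1) * ((K : ℝ) ^ 2 + K - 1) / ((K : ℝ) * ((K : ℝ) + 2) ^ 2) with hc
      -- `c p / K ≤ 1`
      have hc0 : 0 ≤ c := (cfacts hK2R).1
      have hc1 : c ≤ 1 := (cfacts hK2R).2
      have hpk : (p : ℝ) / K ≤ 1 := by rw [div_le_one hK0]; exact hpK'
      have hpk0 : 0 ≤ (p : ℝ) / K := by positivity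
      have hcp : c * ((p : ℝ) / K) ≤ 1 := by
        calc c * ((p : ℝ) / K) ≤ 1 * 1 := mul_le_mul hc1 hpk hpk0 zero_le_one
          _ = 1 := one_mul 1
      rw [hbase, hw1']
      have h9 : q * 1 * (1 + 1 / 2) / K = 3 / 2 * (q / K) := by ring
      rw [h9]
      -- linear in `β`
      have h10 : 0 ≤ (1 - c * ((p : ℝ) / K)) * (q - β) :=
        mul_nonneg (by linarith) (by linarith)
      set X := c * ((p : ℝ) / K) with hX
      set Y := (l : ℝ) ^ 2 * T with hY
      clear_value X Y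
      linarith
    · have hKl2 : K + 2 ≤ l := by omega
      have hw2' : 2 ≤ w := by
        have : (K : ℝ) + 2 ≤ l := by exact_mod_cast hKl2
        linarith
      by_cases hq2 : p + 1 = K
      · -- `q = 1`
        have hq1' : q = 1 := by
          rw [hq, ← hq2]
          push_cast
          ring
        have hm := mul_le_mul_of_nonneg_left T1 hsq.le
        rw [hbase, hq1']
        have h11 : w * ((p : ℝ) / K) * (1 - 1 / K) ≤ (l : ℝ) ^ 2 * ((l : ℝ) / ((l : ℝ) + 1) *
            ((1 - (K : ℝ) / l) * ((p : ℝ) / K * ((K : ℝ) + K / l - 1)) * 1 /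
              (((K : ℝ) + 1) * ((K : ℝ) + K / l)))) := by
          have e1 : (l : ℝ) ^ 2 * ((l : ℝ) / ((l : ℝ) + 1) *
            ((1 - (K : ℝ) / l) * ((p : ℝ) / K * ((K : ℝ) + K / l - 1)) * 1 /
              (((K : ℝ) + 1) * ((K : ℝ) + K / l)))) =
              w * ((p : ℝ) / K) * (((l : ℝ) ^ 2 / (((l : ℝ) + 1) * ((K : ℝ) + 1))) *
                (1 - l / (K * ((l : ℝ) + 1)))) := by
            rw [hw]
            field_simp
          rw [e1]
          apply mul_le_mul_of_nonneg_left _ (by positivity)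
          exact cfac2 hk1 (by linarith)
        have hpk : (p : ℝ) / K = 1 - 1 / K := by
          have : (p : ℝ) = K - 1 := by rw [← hq2]; push_cast; ring
          rw [this]
          field_simp
        have h22 := h11.trans hm
        rw [hpk] at h22
        have h15 := cfac3 hk1 hw2'
        have hβ1 : β ≤ 1 := by linarith
        set Y := (l : ℝ) ^ 2 * T with hY
        clear_value Y
        clear hm h11 T1 T2 hG hA2 hlam hS' hS2 hbase hS hpk
        linarith
      · -- `q ≥ 2`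
        have hq2' : 2 ≤ q := by
          have h18 : p + 2 ≤ K := by omega
          have : (p : ℝ) + 2 ≤ K := by exact_mod_cast h18
          linarith
        rw [hbase]
        have h19 : 0 ≤ q * w * (w + 1 / 2) / K := by positivity
        have h21 : 0 ≤ (q - 2) * (w - 2) := mul_nonneg (by linarith) (by linarith)
        linarith
  have h20 : (w + β) / (l : ℝ) ^ 2 ≤
      (((l : ℝ) + 1 / 2) * (q * w / K)) / (l : ℝ) ^ 2 + T := by
    rw [div_le_iff₀ hsq, add_mul, div_mul_cancel₀ _ hsq.ne']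
    linarith
  linarith

end J0

end R5

end
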