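import Mathlib
import Pool.Agent.Work.MP_8b6acb_full.P15
import Pool.Agent.Work.MP_8b6acb_full.P18

section

/-!
# Full gains on both sides: assembly for any kernel with the T-lemma (helper76)
-/

namespace R5

namespace Two

open Finset T7

variable {α : Type} [DecidableEq α]

theorem gm_lmk (L D U : Finset α) :
    gm (lmk L) D U = gg (L \ U).card ((L \ U) ∩ (D \ U)).card := by
  unfold gm lmk
  by_cases h : 2 ≤ (L \ U).card
  · rw [if_pos h]
  · rw [if_neg h]
    have h1 : gg (∅ : Finset α).card ((∅ : Finset α) ∩ (D \ U)).card = 0 := by simp [gg]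
    rw [h1]
    have h2 : ((L \ U) ∩ (D \ U)).card ≤ (L \ U).card := card_le_card inter_subset_left
    have h3 : ((L \ U) ∩ (D \ U)).card = 0 ∨ ((L \ U) ∩ (D \ U)).card = 1 := by omega
    rcases h3 with h3 | h3
    · rw [h3]
      simp [gg]
    · rw [h3, gg_one]

/-- the gain of one side on a path, first exit form -/
noncomputable def gT (τ : Finset α → Lab) (D L : Finset α) (π : List α) : ℝ :=
  iE τ π (kA τ π) * gm (lmk L) D (D \ pre π (kA τ π)) +
    iX τ π (kA τ π) * gm (lmk L) D (D \ pre π (kA τ π + 1))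

section path

variable {τ : Finset α → Lab} {D : Finset α} {π : List α}

theorem iX_eq (h0 : τ ∅ = Lab.A) (hD : τ D = Lab.B) (hπ : π ∈ seqs D.card D) :
    iX τ π (kA τ π) = 1 - iE τ π (kA τ π) := by
  have hD' : τ D ≠ Lab.A := by rw [hD]; decide
  have h1 := (allA_iff h0 hD' hπ (kA τ π)).2 le_rfl
  have h2 := lab_kA h0 hD' hπ
  rcases h3 : τ (pre π (kA τ π + 1)) with _ | _ | _
  · exact absurd h3 h2
  · rw [iE_pos ⟨h1, h3⟩, iX_neg, sub_self]
    intro h
    rw [h.2] at h3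
    exact absurd h3 (by decide)
  · rw [iX_pos ⟨h1, h3⟩, iE_neg, sub_zero]
    intro h
    rw [h.2] at h3
    exact absurd h3 (by decide)

theorem gL_dual (h0 : τ ∅ = Lab.A) (hD : τ D = Lab.B) (hπ : π ∈ seqs D.card D) (L : Finset α) :
    gL (dual τ D) D L π.reverse = gT τ D L π := by
  have hD' : τ D ≠ Lab.A := by rw [hD]; decide
  have hk := kA_lt h0 hD' hπ
  have k2 := kN_dual h0 hD hπ
  have x2 := lx_dual h0 hD hπ
  have e1 : pre π.reverse (kN (dual τ D) π.reverse) = D \ pre π (kA τ π + 1) := by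
    rw [k2, pre_reverse hπ (by omega)]
    have e : D.card - (D.card - 1 - kA τ π) = kA τ π + 1 := by omega
    rw [e]
  have e2 : pre π.reverse (kN (dual τ D) π.reverse + 1) = D \ pre π (kA τ π) := by
    rw [k2, pre_reverse hπ (by omega)]
    have e : D.card - (D.card - 1 - kA τ π + 1) = kA τ π := by omega
    rw [e]
  unfold gT gL
  rw [iX_eq h0 hD hπ, gm_lmk, gm_lmk]
  unfold lx at x2
  by_cases h3 : dual τ D (pre π.reverse (kN (dual τ D) π.reverse)) = Lab.A
  · rw [if_pos h3] at x2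
    have h4 : iE τ π (kA τ π) = 1 := by linarith
    have h5 : U0 (dual τ D) π.reverse = D \ pre π (kA τ π) := by
      unfold U0
      rw [if_pos h3, e2]
    rw [h4, h5]
    ring
  · rw [if_neg h3] at x2
    have h4 : iE τ π (kA τ π) = 0 := by linarith
    have h5 : U0 (dual τ D) π.reverse = D \ pre π (kA τ π + 1) := by
      unfold U0
      rw [if_neg h3, e1]
    rw [h4, h5]
    ring

theorem kN_dual_dual (h0 : τ ∅ = Lab.A) (hD : τ D = Lab.B) (hπ : π ∈ seqs D.card D) :
    kN (dual (dual τ D) D) π = kN τ π := by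
  have h0' : τ ∅ ≠ Lab.B := by rw [h0]; decide
  have hN := kN_lt h0' hD hπ
  have h1 := kN_dual (dual_empty hD) (dual_top h0) (reverse_mem hπ)
  rw [List.reverse_reverse, kA_dual h0 hD hπ] at h1
  omega

theorem gL_dual_dual (h0 : τ ∅ = Lab.A) (hD : τ D = Lab.B) (hπ : π ∈ seqs D.card D)
    (L : Finset α) : gL (dual (dual τ D) D) D L π = gL τ D L π := by
  have h1 := kN_dual_dual h0 hD hπ
  have h2 : U0 (dual (dual τ D) D) π = U0 τ π := by
    unfold U0
    rw [h1]
    rw [if_congr (by rw [dual_dual (pre_subset_of_mem hπ _)]) rfl rfl]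
  unfold gL
  rw [h2]

end path

/-- **assembly with full gains**: `T`, `S` = the two sides of the value (times `l + 1`) of any
kernel with the first exit form of the gains and the charges, re-entry and no-exit credits of
CT0' -/
theorem both_gain {τ : Finset α → Lab} {D : Finset α} (L L' : Finset α) (T S : ℝ)
    (h0 : τ ∅ = Lab.A) (hD : τ D = Lab.B)
    (hJ : ∃ x ∈ D, τ {x} = Lab.B) (hJ' : ∃ x ∈ D, τ (D.erase x) = Lab.A)
    (hL : ∀ x ∈ D, (x ∈ L ↔ τ {x} = Lab.B)) (hL' : ∀ x ∈ D, (x ∈ L' ↔ τ (D.erase x) = Lab.A))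
    (hLl : L.card ≤ D.card) (hLl' : L'.card ≤ D.card)
    (hT : Av D (fun π => lowT0 τ D π + ((D.card : ℝ) - kN τ π) * gT τ D L' π) ≤ T)
    (hS : Av D (fun π => lowT0 (dual τ D) D π +
      ((D.card : ℝ) - kN (dual τ D) π) * gT (dual τ D) D L π) ≤ S) :
    lamn D.card * Av D (sur τ D) ≤ T + S := by
  have d0 := dual_empty hD
  have dD := dual_top (D := D) h0
  have hD' : τ D ≠ Lab.A := by rw [hD]; decide
  have h0' : τ ∅ ≠ Lab.B := by rw [h0]; decide
  have hdl : ∀ x ∈ D, (dual τ D {x} = Lab.B ↔ τ (D.erase x) = Lab.A) := by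
    intro x _
    rw [dual_flip, flip_eq_B, sdiff_singleton_eq_erase]
  have hJ'' : ∃ x ∈ D, dual τ D {x} = Lab.B := by
    obtain ⟨x, hx, hA⟩ := hJ'
    exact ⟨x, hx, (hdl x hx).2 hA⟩
  have hLd : ∀ x ∈ D, (x ∈ L' ↔ dual τ D {x} = Lab.B) := by
    intro x hx
    rw [hL' x hx, hdl x hx]
  have h1 := both h0 hD hJ hJ'' (gL τ D L) (gL (dual τ D) D L') (hW_gain h0 hD L hL hLl)
    (hW_gain d0 dD L' hLd hLl')
  refine h1.trans ?_
  -- the two path functionals
  have e1 : Av D (TP τ D (gL τ D L)) = Av D (lowT0 τ D) +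
      Av D (fun π => ((kA τ π : ℝ) + 1) * gL τ D L π) := by
    rw [← Av_add]
    refine Av_congr fun π _ => ?_
    rw [← TP_zero]
    unfold TP
    ring
  have e2 : Av D (TP (dual τ D) D (gL (dual τ D) D L')) = Av D (lowT0 (dual τ D) D) +
      Av D (fun π => ((kA (dual τ D) π : ℝ) + 1) * gL (dual τ D) D L' π) := by
    rw [← Av_add]
    refine Av_congr fun π _ => ?_
    rw [← TP_zero]
    unfold TP
    ring
  have e3 : Av D (fun π => ((kA (dual τ D) π : ℝ) + 1) * gL (dual τ D) D L' π) =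
      Av D (fun π => ((D.card : ℝ) - kN τ π) * gT τ D L' π) := by
    rw [← Av_reverse D (fun π => ((kA (dual τ D) π : ℝ) + 1) * gL (dual τ D) D L' π)]
    refine Av_congr fun π hπ => ?_
    have hN := kN_lt h0' hD hπ
    rw [gL_dual h0 hD hπ, kA_dual h0 hD hπ, Nat.cast_sub (by omega), Nat.cast_sub (by omega)]
    push_cast
    ring
  have e4 : Av D (fun π => ((kA τ π : ℝ) + 1) * gL τ D L π) =
      Av D (fun π => ((D.card : ℝ) - kN (dual τ D) π) * gT (dual τ D) D L π) := by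
    rw [← Av_reverse D (fun π => ((D.card : ℝ) - kN (dual τ D) π) * gT (dual τ D) D L π)]
    refine Av_congr fun π hπ => ?_
    have hk := kA_lt h0 hD' hπ
    have h2 := gL_dual d0 dD (reverse_mem hπ) L
    rw [List.reverse_reverse] at h2
    rw [← h2, gL_dual_dual h0 hD hπ, kN_dual h0 hD hπ, Nat.cast_sub (by omega),
      Nat.cast_sub (by omega)]
    push_cast
    ring
  rw [Av_add] at hT hS
  rw [e1, e2, e3, e4]
  linarith

/-! ### comparison with the cost -/

theorem lamn_ge {l : ℕ} (hl : 2 ≤ l) : 1 / (l : ℝ) ≤ lamn l := by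
  have h1 : (2 : ℝ) ≤ l := by exact_mod_cast hl
  rw [lamn_def]
  have h2 := Real.one_sub_inv_le_log_of_pos (x := (l : ℝ) / ((l : ℝ) - 1))
    (div_pos (by linarith) (by linarith))
  refine le_trans (le_of_eq ?_) h2
  rw [inv_div]
  have : (l : ℝ) ≠ 0 := by linarith
  field_simp
  ring

/-- the surplus is at least the cost `(u [fv] + w [lv]) / l ^ 2` -/
theorem cost_le {τ : Finset α → Lab} {D : Finset α} {π : List α} (h0 : τ ∅ = Lab.A)
    (hD : τ D = Lab.B) (hl : 2 ≤ D.card) (hπ : π ∈ seqs D.card D) :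
    (((kA τ π : ℝ) + 1) * (1 - iE τ π (kA τ π)) + ((D.card : ℝ) - kN τ π) * lx τ π) /
      (D.card : ℝ) ^ 2 ≤ lamn D.card * sur τ D π := by
  have hD' : τ D ≠ Lab.A := by rw [hD]; decide
  have h0' : τ ∅ ≠ Lab.B := by rw [h0]; decide
  have hk := kA_lt h0 hD' hπ
  have hN := kN_lt h0' hD hπ
  have hlR : (2 : ℝ) ≤ D.card := by exact_mod_cast hl
  have hlam := lamn_ge hl
  have hkR : (kA τ π : ℝ) + 1 ≤ D.card := by exact_mod_cast hk
  have hNR : (kN τ π : ℝ) + 1 ≤ D.card := by exact_mod_cast hN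
  have hk0 : (0 : ℝ) ≤ kA τ π := Nat.cast_nonneg _
  have hN0 : (0 : ℝ) ≤ kN τ π := Nat.cast_nonneg _
  have hi : iE τ π (kA τ π) = 0 ∨ iE τ π (kA τ π) = 1 := by
    unfold iE
    split_ifs
    · exact Or.inr rfl
    · exact Or.inl rfl
  have hl2 : 1 / (D.card : ℝ) = (D.card : ℝ) / (D.card : ℝ) ^ 2 := by
    have : (D.card : ℝ) ≠ 0 := by linarith
    field_simp
  have key : ∀ x y : ℝ, x ≤ D.card → 1 ≤ y → x / (D.card : ℝ) ^ 2 ≤ lamn D.card * y := by
    intro x y hx hy
    have h3 : x / (D.card : ℝ) ^ 2 ≤ 1 / (D.card : ℝ) := by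
      rw [hl2]
      exact div_le_div_of_nonneg_right hx (by positivity)
    have h4 : (0 : ℝ) < 1 / (D.card : ℝ) := by positivity
    nlinarith
  unfold sur
  rcases hi with hi | hi <;> rcases lx_cases τ π with hx | hx
  · rw [hi, hx]
    have := key ((kA τ π : ℝ) + 1) ((D.card : ℝ) - kN τ π) hkR (by linarith)
    simpa using this
  · rw [hi, hx]
    have h5 := lt_of_fv h0 hD hπ hi
    have h6 : (kA τ π : ℝ) + 1 ≤ kN τ π := by exact_mod_cast h5
    have := key (((kA τ π : ℝ) + 1) + ((D.card : ℝ) - kN τ π)) 2 (by linarith) (by norm_num)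
    simpa using this
  · rw [hi, hx]
    simp
  · rw [hi, hx]
    have := key ((D.card : ℝ) - kN τ π) ((kA τ π : ℝ) + 1) (by linarith) (by linarith)
    simpa using this

end Two

end R5

end

section

/-!
# The set kernel: the typewise inequality with light elements on both sides (helper76)

`surplus_le`: the value without the cost is at least `lamn l * Av (sur)` over `l + 1`.
`VAL_nonneg`: with the bound of the cost by the fraction of vertex exits.
-/

namespace R5

namespace Two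

open Finset T7

variable {α : Type} [DecidableEq α]

theorem gm_sdiff (L D U : Finset α) : gm (fun U => L \ U) D U = gm (lmk L) D U := by
  rw [gm_lmk]
  rfl

theorem gT_K {τ : Finset α → Lab} {D : Finset α} {π : List α} (h0 : τ ∅ = Lab.A)
    (hD : τ D = Lab.B) (hπ : π ∈ seqs D.card D) (L : Finset α) :
    K.gT τ D (fun U => L \ U) π = ((D.card : ℝ) - kN τ π) * gT τ D L π := by
  have hD' : τ D ≠ Lab.A := by rw [hD]; decide
  obtain ⟨e1, e2⟩ := K.exit_kA h0 hD' hπ
  unfold K.gT gT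
  rw [e1, e2, gm_sdiff, gm_sdiff]
  split_ifs <;> ring

/-- **the value of the set kernel without the cost**, light elements on both sides -/
theorem surplus_le {τ : Finset α → Lab} {D : Finset α} (L L' : Finset α)
    (ρ ρ' : Finset α → α → ℝ) (h0 : τ ∅ = Lab.A) (hD : τ D = Lab.B)
    (hJ : ∃ x ∈ D, τ {x} = Lab.B) (hJ' : ∃ x ∈ D, τ (D.erase x) = Lab.A)
    (hL : ∀ x ∈ D, (x ∈ L ↔ τ {x} = Lab.B)) (hL' : ∀ x ∈ D, (x ∈ L' ↔ τ (D.erase x) = Lab.A))
    (hLl : L.card ≤ D.card) (hLl' : L'.card ≤ D.card)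
    (hT : K.StateK τ D ρ') (hS : K.StateK (dual τ D) D ρ) :
    lamn D.card * Av D (sur τ D) ≤ ((D.card : ℝ) + 1) *
      (K.vset τ D ρ L + K.vset (dual τ D) D ρ' L' -
        Real.log (D.card : ℝ) * (PEL τ D + PEL (dual τ D) D)) := by
  have d0 := dual_empty hD
  have dD := dual_top (D := D) h0
  have h1 := K.T_side0_K τ D ρ' (fun U => L' \ U) h0 hD hT
  have h2 := K.T_side0_K (dual τ D) D ρ (fun U => L \ U) d0 dD hS
  rw [PEL_dual_dual] at h2
  unfold K.SGs at h1 h2
  rw [K.SGx_dual_dual] at h2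
  have e1 : Av D (fun π => lowT0 τ D π + K.gT τ D (fun U => L' \ U) π) =
      Av D (fun π => lowT0 τ D π + ((D.card : ℝ) - kN τ π) * gT τ D L' π) :=
    Av_congr fun π hπ => by rw [gT_K h0 hD hπ]
  have e2 : Av D (fun π => lowT0 (dual τ D) D π + K.gT (dual τ D) D (fun U => L \ U) π) =
      Av D (fun π => lowT0 (dual τ D) D π +
        ((D.card : ℝ) - kN (dual τ D) π) * gT (dual τ D) D L π) :=
    Av_congr fun π hπ => by rw [gT_K d0 dD hπ]
  rw [e1] at h1
  rw [e2] at h2
  have h3 := both_gain L L' _ _ h0 hD hJ hJ' hL hL' hLl hLl' h1 h2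
  refine h3.trans (le_of_eq ?_)
  unfold K.vset K.SGs
  ring

/-- the bound of the cost by the vertex exits -/
def CostV (τ : Finset α → Lab) (D : Finset α) : Prop :=
  ((D.card : ℝ) + 1) * COST1 τ D ≤ Av D (fun π =>
    (((kA τ π : ℝ) + 1) * (1 - iE τ π (kA τ π)) + ((D.card : ℝ) - kN τ π) * lx τ π) /
      (D.card : ℝ) ^ 2)

/-- **the typewise inequality for the set kernel**, light elements on both sides -/
theorem VAL_nonneg {τ : Finset α → Lab} {D : Finset α} (L L' : Finset α)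
    (ρ ρ' : Finset α → α → ℝ) (h0 : τ ∅ = Lab.A) (hD : τ D = Lab.B) (hl : 2 ≤ D.card)
    (hJ : ∃ x ∈ D, τ {x} = Lab.B) (hJ' : ∃ x ∈ D, τ (D.erase x) = Lab.A)
    (hL : ∀ x ∈ D, (x ∈ L ↔ τ {x} = Lab.B)) (hL' : ∀ x ∈ D, (x ∈ L' ↔ τ (D.erase x) = Lab.A))
    (hLl : L.card ≤ D.card) (hLl' : L'.card ≤ D.card)
    (hT : K.StateK τ D ρ') (hS : K.StateK (dual τ D) D ρ) (hC : CostV τ D) :
    0 ≤ K.VAL τ D (K.vset τ D ρ L) (K.vset (dual τ D) D ρ' L') := by
  have h1 := surplus_le L L' ρ ρ' h0 hD hJ hJ' hL hL' hLl hLl' hT hS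
  have h2 : Av D (fun π =>
      (((kA τ π : ℝ) + 1) * (1 - iE τ π (kA τ π)) + ((D.card : ℝ) - kN τ π) * lx τ π) /
        (D.card : ℝ) ^ 2) ≤ lamn D.card * Av D (sur τ D) := by
    rw [← Av_mul]
    exact Av_mono fun π hπ => cost_le h0 hD hl hπ
  unfold CostV at hC
  have hp : (0 : ℝ) < (D.card : ℝ) + 1 := by positivity
  have h3 : ((D.card : ℝ) + 1) * COST1 τ D ≤ ((D.card : ℝ) + 1) *
      (K.vset τ D ρ L + K.vset (dual τ D) D ρ' L' -
        Real.log (D.card : ℝ) * (PEL τ D + PEL (dual τ D) D)) := hC.trans (h2.trans h1)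
  have h4 := le_of_mul_le_mul_left h3 hp
  unfold K.VAL
  linarith

end Two

end R5

end

section

/-!
# Sums over exit sets as averages over orders (helper76)

`NL τ D c` is the sum over the sets `U` with label `c` of `|U| * fwb U / C(l, |U|)`: the expected
level of the first exit if the exit has label `c`.
-/

namespace R5

namespace Two

open Finset T7

variable {α : Type} [DecidableEq α]

/-- expected first exit level, label `c` -/
noncomputable def NL (τ : Finset α → Lab) (D : Finset α) (c : Lab) : ℝ :=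
  ∑ U ∈ D.powerset, if τ U = c then (U.card : ℝ) * fwb τ U / (D.card.choose U.card : ℝ) else 0

theorem Av_exL (τ : Finset α → Lab) {W : Finset α} {k : ℕ} (hk : k < W.card) (c : Lab) (F : ℝ) :
    Av W (fun π => if allA τ π k ∧ τ (pre π (k + 1)) = c then F else 0) =
    ∑ U ∈ powersetCard (k + 1) W, (if τ U = c then F * fwb τ U / (W.card.choose (k + 1) : ℝ)
      else 0) := by
  have e : Av W (fun π => if allA τ π k ∧ τ (pre π (k + 1)) = c then F else 0) =
      Av W (fun π => (fun (π1 _π2 : List α) =>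
        if allA τ π1 k ∧ τ π1.toFinset = c then F else 0)
        (π.take (k + 1)) (π.drop (k + 1))) := by
    refine Av_congr fun π hπ => ?_
    simp only [allA_take (Nat.le_succ k)]
    rfl
  rw [e, Av_take_drop hk (fun (π1 _π2 : List α) =>
        if allA τ π1 k ∧ τ π1.toFinset = c then F else 0), sum_div]
  refine sum_congr rfl fun U hU => ?_
  obtain ⟨-, hc⟩ := mem_powersetCard.1 hU
  have hne : U.Nonempty := by
    rw [← card_pos, hc]
    omega
  by_cases hX : τ U = c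
  · rw [if_pos hX, fwb_eq_Av τ hne, ← Av_mul]
    congr 1
    refine Av_congr fun π1 h1 => ?_
    rw [(mem_seqs_card.1 h1).2, Av_const, hc, Nat.add_sub_cancel]
    by_cases h2 : allA τ π1 k
    · simp [hX, h2]
    · simp [h2]
  · rw [if_neg hX]
    rw [div_eq_zero_iff]
    left
    refine (Av_congr (f' := fun _ => 0) fun π1 h1 => ?_).trans (Av_zero U)
    rw [(mem_seqs_card.1 h1).2, Av_const]
    simp [hX]

theorem NL_eq (τ : Finset α → Lab) (D : Finset α) (c : Lab) :
    NL τ D c = Av D (fun π => ∑ k ∈ range D.card,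
      if allA τ π k ∧ τ (pre π (k + 1)) = c then (k : ℝ) + 1 else 0) := by
  unfold NL
  rw [sum_levels_vert D _ (by simp), Av_sum]
  refine sum_congr rfl fun k hk => ?_
  rw [mem_range] at hk
  rw [Av_exL τ hk c ((k : ℝ) + 1)]
  refine sum_congr rfl fun U hU => ?_
  obtain ⟨-, hc⟩ := mem_powersetCard.1 hU
  rw [hc]
  push_cast
  rfl

theorem sum_exL {τ : Finset α → Lab} {D : Finset α} {π : List α} (h0 : τ ∅ = Lab.A)
    (hD : τ D ≠ Lab.A) (hπ : π ∈ seqs D.card D) {c : Lab} (hc : c ≠ Lab.A) :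
    (∑ k ∈ range D.card, if allA τ π k ∧ τ (pre π (k + 1)) = c then (k : ℝ) + 1 else 0) =
      if τ (pre π (kA τ π + 1)) = c then (kA τ π : ℝ) + 1 else 0 := by
  have hk := kA_lt h0 hD hπ
  rw [sum_eq_single (kA τ π)]
  · by_cases h : τ (pre π (kA τ π + 1)) = c
    · rw [if_pos h, if_pos ⟨(allA_iff h0 hD hπ _).2 le_rfl, h⟩]
    · rw [if_neg h, if_neg (fun h' => h h'.2)]
  · intro k _ hne
    rw [if_neg]
    rintro ⟨h3, h4⟩
    have h5 := (allA_iff h0 hD hπ k).1 h3
    have h6 : allA τ π (k + 1) := (allA_iff h0 hD hπ (k + 1)).2 (by omega)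
    have h7 := (allA_succ.1 h6).2
    rw [h4] at h7
    exact hc h7
  · intro h
    exact absurd (mem_range.2 hk) h

/-- vertex exits -/
theorem NV_path {τ : Finset α → Lab} {D : Finset α} (h0 : τ ∅ = Lab.A) (hD : τ D = Lab.B) :
    NL τ D Lab.X = Av D (fun π => ((kA τ π : ℝ) + 1) * (1 - iE τ π (kA τ π))) := by
  have hD' : τ D ≠ Lab.A := by rw [hD]; decide
  rw [NL_eq]
  refine Av_congr fun π hπ => ?_
  rw [sum_exL h0 hD' hπ (by decide)]
  have h1 := lab_kA h0 hD' hπ
  have h2 := (allA_iff h0 hD' hπ (kA τ π)).2 le_rfl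
  rcases h3 : τ (pre π (kA τ π + 1)) with _ | _ | _
  · exact absurd h3 h1
  · rw [iE_pos ⟨h2, h3⟩]
    simp
  · rw [iE_neg]
    · simp
    · intro h
      rw [h.2] at h3
      exact absurd h3 (by decide)

/-- edge exits -/
theorem NE_path {τ : Finset α → Lab} {D : Finset α} (h0 : τ ∅ = Lab.A) (hD : τ D = Lab.B) :
    NL τ D Lab.B = Av D (fun π => ((kA τ π : ℝ) + 1) * iE τ π (kA τ π)) := by
  have hD' : τ D ≠ Lab.A := by rw [hD]; decide
  rw [NL_eq]
  refine Av_congr fun π hπ => ?_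
  rw [sum_exL h0 hD' hπ (by decide)]
  have h1 := lab_kA h0 hD' hπ
  have h2 := (allA_iff h0 hD' hπ (kA τ π)).2 le_rfl
  rcases h3 : τ (pre π (kA τ π + 1)) with _ | _ | _
  · exact absurd h3 h1
  · rw [iE_pos ⟨h2, h3⟩]
    simp
  · rw [iE_neg]
    · simp
    · intro h
      rw [h.2] at h3
      exact absurd h3 (by decide)

/-- vertex exits at the top -/
theorem NV_dual_path {τ : Finset α → Lab} {D : Finset α} (h0 : τ ∅ = Lab.A)
    (hD : τ D = Lab.B) :
    NL (dual τ D) D Lab.X = Av D (fun π => ((D.card : ℝ) - kN τ π) * lx τ π) := by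
  have h0' : τ ∅ ≠ Lab.B := by rw [h0]; decide
  rw [NV_path (dual_empty hD) (dual_top h0), ← Av_reverse D]
  refine Av_congr fun π hπ => ?_
  have hN := kN_lt h0' hD hπ
  rw [iE_dual h0 hD hπ, kA_dual h0 hD hπ, Nat.cast_sub (by omega), Nat.cast_sub (by omega)]
  push_cast
  ring

/-- edge exits at the top -/
theorem NE_dual_path {τ : Finset α → Lab} {D : Finset α} (h0 : τ ∅ = Lab.A)
    (hD : τ D = Lab.B) :
    NL (dual τ D) D Lab.B = Av D (fun π => ((D.card : ℝ) - kN τ π) * (1 - lx τ π)) := by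
  have h0' : τ ∅ ≠ Lab.B := by rw [h0]; decide
  rw [NE_path (dual_empty hD) (dual_top h0), ← Av_reverse D]
  refine Av_congr fun π hπ => ?_
  have hN := kN_lt h0' hD hπ
  rw [iE_dual h0 hD hπ, kA_dual h0 hD hπ, Nat.cast_sub (by omega), Nat.cast_sub (by omega)]
  push_cast
  ring

/-- the bound of the cost in both forms -/
theorem costV_of {τ : Finset α → Lab} {D : Finset α} (h0 : τ ∅ = Lab.A) (hD : τ D = Lab.B)
    (h : ((D.card : ℝ) + 1) * COST1 τ D ≤
      (NL τ D Lab.X + NL (dual τ D) D Lab.X) / (D.card : ℝ) ^ 2) : CostV τ D := by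
  unfold CostV
  refine h.trans (le_of_eq ?_)
  rw [NV_path h0 hD, NV_dual_path h0 hD, ← Av_add, ← Av_div]

end Two

end R5

end

section

/-!
# The typewise inequality for the set kernel: the final case distinction (helper76)
-/

namespace R5

namespace Two

open Finset T7

section

variable {α : Type} [DecidableEq α]

theorem CL1_congr {τ τ' : Finset α → Lab} {D : Finset α} (h : ∀ U ⊆ D, τ U = τ' U) (z : ℝ) :
    CL1 τ D z = CL1 τ' D z := by
  unfold CL1
  congr 1
  · refine sum_congr rfl fun V hV => sum_congr rfl fun x hx => ?_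
    rw [mem_powerset] at hV
    rw [FPARTAux.yLe_congr h hV (mem_sdiff.1 hx).1, aw_congr fun X hX => h X (hX.trans hV)]
  · refine sum_congr rfl fun V hV => ?_
    rw [mem_powerset] at hV
    rw [FPARTAux.yLv_congr h hV, aw_congr fun X hX => h X (hX.trans hV)]

theorem COST1_dual (τ : Finset α → Lab) (D : Finset α) : COST1 (dual τ D) D = COST1 τ D := by
  unfold COST1
  rw [Zt_dual, CL1_congr (τ := dual (dual τ D) D) (τ' := τ) (fun U hU => dual_dual hU)]
  ring

theorem vset_dual_dual (τ : Finset α → Lab) (D : Finset α) (ρ : Finset α → α → ℝ)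
    (L : Finset α) : K.vset (dual (dual τ D) D) D ρ L = K.vset τ D ρ L := by
  unfold K.vset K.SGs
  exact K.SGx_dual_dual τ D ρ _

theorem VAL_dual (τ : Finset α → Lab) (D : Finset α) (g g' : ℝ) :
    K.VAL (dual τ D) D g' g = K.VAL τ D g g' := by
  unfold K.VAL
  rw [COST1_dual, PEL_dual_dual]
  ring

end

section

variable (α : Type) [DecidableEq α]

/-- the statewise lemma -/
def Stmt_StateK : Prop := ∀ (τ : Finset α → Lab) (D : Finset α) (ρ : Finset α → α → ℝ),
  τ ∅ = Lab.A → τ D = Lab.B → (∀ X ⊆ D, ∀ g ∈ D \ X, 0 < ρ X g ∧ ρ X g ≤ 1) → K.StateK τ D ρ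

/-- the bound of the cost -/
def Stmt_CostV : Prop := ∀ (τ : Finset α → Lab) (D : Finset α), 2 ≤ D.card → τ ∅ = Lab.A →
  τ D = Lab.B → ((D.card : ℝ) + 1) * COST1 τ D ≤
      (NL τ D Lab.X + NL (dual τ D) D Lab.X) / (D.card : ℝ) ^ 2

/-- no light element at the top -/
def Stmt_J0 : Prop := ∀ (τ : Finset α → Lab) (D L L' : Finset α) (ρ ρ' : Finset α → α → ℝ),
  2 ≤ D.card → τ ∅ = Lab.A → τ D = Lab.B → (∀ x ∈ D, (x ∈ L ↔ τ {x} = Lab.B)) →
  (∀ x ∈ D, τ (D.erase x) ≠ Lab.A) → Disjoint L' D → L.card + L'.card + 1 ≤ D.card →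
  (∀ X ⊆ D, ∀ g ∈ D \ X, 0 < ρ X g ∧ ρ X g ≤ 1) →
  (∀ X ⊆ D, ∀ g ∈ D \ X, 0 < ρ' X g ∧ ρ' X g ≤ 1) →
  0 ≤ K.VAL τ D (K.vset τ D ρ L) (K.vset (dual τ D) D ρ' L')

/-- **the typewise inequality for the set kernel** -/
theorem TIS_of (hK : Stmt_StateK α) (hC : Stmt_CostV α) (hJ0 : Stmt_J0 α) {l q : ℕ}
    (hl : 2 ≤ l) (hql : q ≤ l) : K.Stmt_TIS α l q := by
  intro τ D L L' ρ ρ' hcard h0 hD hL hL' hLL hρ hρ'
  subst hcard
  have hq : 1 ≤ q := by omega
  have hpel : 0 ≤ Real.log ((D.card : ℝ) / (q : ℝ)) * (PEL τ D + PEL (dual τ D) D) := by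
    apply mul_nonneg
    · apply Real.log_nonneg
      rw [le_div_iff₀ (by exact_mod_cast hq)]
      have : (q : ℝ) ≤ D.card := by exact_mod_cast hql
      linarith
    · exact add_nonneg (CQ.PEL_nonneg _ _) (CQ.PEL_nonneg _ _)
  refine add_nonneg ?_ hpel
  have d0 := dual_empty hD
  have dD := dual_top (D := D) h0
  by_cases hJ' : ∃ x ∈ D, τ (D.erase x) = Lab.A
  · by_cases hJ : ∃ x ∈ D, τ {x} = Lab.B
    · exact VAL_nonneg L L' ρ ρ' h0 hD hl hJ hJ' hL hL' (by omega) (by omega)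
        (hK τ D ρ' h0 hD hρ') (hK (dual τ D) D ρ d0 dD hρ) (costV_of h0 hD (hC τ D hl h0 hD))
    · push Not at hJ
      have h1 := hJ0 (dual τ D) D L' L ρ' ρ hl d0 dD
        (fun x hx => by rw [hL' x hx, dual_flip, flip_eq_B, sdiff_singleton_eq_erase])
        (fun x hx => by
          rw [dual_flip, ne_eq, flip_eq_A, sdiff_erase_self hx]
          exact hJ x hx)
        (disjoint_left.2 fun x hx hxD => hJ x hxD ((hL x hxD).1 hx)) (by omega) hρ' hρ
      rw [vset_dual_dual, VAL_dual] at h1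
      exact h1
  · push Not at hJ'
    exact hJ0 τ D L L' ρ ρ' hl h0 hD hL hJ'
      (disjoint_left.2 fun x hx hxD => hJ' x hxD ((hL' x hxD).1 hx)) (by omega) hρ hρ'

end

end Two

end R5

end
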