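import Mathlib
import Pool.Agent.Work.MP_8b6acb_full.P04
import Pool.Agent.Work.MP_8b6acb_full.P19

section

/-!
# (Q^pi) with the slack of the cut vertices
-/

namespace R5.QP

open Finset

variable {α : Type} [DecidableEq α]

/-- The slack of a cut vertex. -/
noncomputable def slk (c : Finset α → Lab) (p : Finset α → ℝ) (V : Finset α) : ℝ :=
  if c V = Lab.X then
    (1 - p V) * YF c p V * (aL c p V - YF c p V) / (((V.card : ℝ) + 1) * aL c p V) else 0

lemma main_ineq_slack {c : Finset α → Lab} {p : Finset α → ℝ} (hc : c ∅ = Lab.A)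
    (hp0 : ∀ V, 0 ≤ p V) (hp1 : ∀ V, p V ≤ 1) (U : Finset α) :
    RF c p U - YF c p U ^ 2 / ((U.card : ℝ) + 1) + Lst c (slk c p) U ≤
      YF c p U - Lst c (fun V => YF c p V ^ 2 / aL c p V) U := by
  induction U using Finset.strongInduction with
  | H U ih =>
  cases hcU : c U with
  | A =>
    rw [Lst_ne _ (by rw [hcU]; decide), Lst_ne _ (by rw [hcU]; decide)]
    have h3 : slk c p U = 0 := by unfold slk; rw [hcU]; simp
    have h1 : RF c p U = YF c p U := by
      unfold RF YF
      refine Finset.sum_congr rfl fun W _ => ?_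
      have : dF c p U W = bF c p U W := by
        unfold dF; rw [bet_A p W hcU]; ring
      rw [this, sq, mul_self_div_self]
    have h2 : aL c p U = (U.card : ℝ) + 1 := by
      unfold aL; rw [hcU]; simp
    rw [h1, h2, h3, add_zero]
  | X =>
    rw [Lst_ne _ (by rw [hcU]; decide), Lst_ne _ (by rw [hcU]; decide)]
    have hUne : U.Nonempty := by
      by_contra hne
      rw [Finset.not_nonempty_iff_eq_empty] at hne
      subst hne
      rw [hc] at hcU; exact absurd hcU (by decide)
    have hm1 : (1 : ℝ) ≤ (U.card : ℝ) := by exact_mod_cast hUne.card_pos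
    set m : ℝ := (U.card : ℝ) with hmd
    set dl : ℝ := 1 - p U with hdl
    have hdl0 : 0 ≤ dl := by have := hp1 U; linarith
    have hdl1 : dl ≤ 1 := by have := hp0 U; linarith
    have haL : aL c p U = m + 1 - dl := by
      unfold aL; rw [hcU]; simp only [if_true]; rw [hdl, hmd]; ring
    have hd : ∀ W, dF c p U W = bF c p U W - dl := by
      intro W; unfold dF; rw [bet_X p W hcU]
    have hb : ∀ W ∈ U.powerset.filter (fun W => c W ≠ Lab.A),
        dl ≤ bF c p U W ∧ bF c p U W ≤ m + 1 ∧ (bF c p U W = 0 → dF c p U W = 0) := by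
      intro W hW
      have hWU := Finset.mem_powerset.1 (Finset.mem_filter.1 hW).1
      have hWA := (Finset.mem_filter.1 hW).2
      have hcard := Finset.card_le_card hWU
      refine ⟨?_, ?_, ?_⟩
      · by_cases hWe : W = U
        · subst hWe
          unfold bF aF
          rw [hcU]; simp [hdl]
        · have hlt : W.card < U.card :=
            Finset.card_lt_card ⟨hWU, fun h => hWe (Finset.Subset.antisymm hWU h)⟩
          have h1 : (W.card : ℝ) + 1 ≤ m := by rw [hmd]; exact_mod_cast hlt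
          unfold bF aF
          have h2 : (if c W = Lab.X then p W else 0) ≤ 1 := by
            split_ifs; exacts [hp1 W, zero_le_one]
          rw [← hmd]
          linarith
      · unfold bF aF
        have h2 : 0 ≤ (if c W = Lab.X then p W else 0) := by
          split_ifs; exacts [hp0 W, le_rfl]
        have h3 : (0 : ℝ) ≤ (W.card : ℝ) := by positivity
        rw [← hmd]
        linarith
      · intro hb0
        by_cases hWe : W = U
        · subst hWe; exact dF_self p hWA
        · exfalso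
          have hlt : W.card < U.card :=
            Finset.card_lt_card ⟨hWU, fun h => hWe (Finset.Subset.antisymm hWU h)⟩
          have h1 : (W.card : ℝ) + 1 ≤ m := by rw [hmd]; exact_mod_cast hlt
          unfold bF aF at hb0
          have h2 : (if c W = Lab.X then p W else 0) ≤ 1 := by
            split_ifs; exacts [hp1 W, zero_le_one]
          rw [← hmd] at hb0
          linarith
    have hY0 : 0 ≤ YF c p U := by
      unfold YF
      refine Finset.sum_nonneg fun W hW => mul_nonneg (P1_nonneg _ _ _) ?_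
      rw [hd W]; have := (hb W hW).1; linarith
    have hY1 : YF c p U ≤ m + 1 - dl := by
      have h1 : YF c p U ≤ ∑ W ∈ U.powerset with c W ≠ Lab.A, P1 c U W * (m + 1 - dl) := by
        unfold YF
        refine Finset.sum_le_sum fun W hW => mul_le_mul_of_nonneg_left ?_ (P1_nonneg _ _ _)
        rw [hd W]; have := (hb W hW).2.1; linarith
      rw [← Finset.sum_mul] at h1
      have h2 := P1_sum_le_one c hc U
      have h3 : 0 ≤ m + 1 - dl := by linarith
      nlinarith
    have hR : RF c p U ≤ YF c p U - dl * YF c p U / (m + 1) := by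
      have h1 : YF c p U - dl * YF c p U / (m + 1) =
          ∑ W ∈ U.powerset with c W ≠ Lab.A,
            P1 c U W * (dF c p U W - dl * dF c p U W / (m + 1)) := by
        have : ∀ W ∈ U.powerset.filter (fun W => c W ≠ Lab.A),
            P1 c U W * (dF c p U W - dl * dF c p U W / (m + 1)) =
            P1 c U W * dF c p U W - dl / (m + 1) * (P1 c U W * dF c p U W) := by
          intro W _; ring
        rw [Finset.sum_congr rfl this, Finset.sum_sub_distrib, ← Finset.mul_sum]
        unfold YF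
        ring
      rw [h1]
      unfold RF
      refine Finset.sum_le_sum fun W hW => mul_le_mul_of_nonneg_left ?_ (P1_nonneg _ _ _)
      obtain ⟨hb1, hb2, hb3⟩ := hb W hW
      by_cases hb0 : bF c p U W = 0
      · rw [hb3 hb0]; simp
      · have hbpos : 0 < bF c p U W := lt_of_le_of_ne (by linarith) (Ne.symm hb0)
        have hdnn : 0 ≤ dF c p U W := by rw [hd W]; linarith
        have e1 : dF c p U W ^ 2 / bF c p U W =
            dF c p U W - dl * dF c p U W / bF c p U W := by
          have : dF c p U W ^ 2 = dF c p U W * (bF c p U W - dl) := by rw [hd W]; ring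
          rw [this]
          field_simp
        rw [e1]
        have e2 : dl * dF c p U W / (m + 1) ≤ dl * dF c p U W / bF c p U W :=
          div_le_div_of_nonneg_left (mul_nonneg hdl0 hdnn) hbpos hb2
        linarith
    have hslk : slk c p U = dl * YF c p U * (m + 1 - dl - YF c p U) / ((m + 1) * (m + 1 - dl)) := by
      unfold slk; rw [if_pos hcU, haL]
    rw [hslk, haL]
    set Y := YF c p U with hYd
    have hpos1 : 0 < m + 1 := by linarith
    have hpos2 : 0 < m + 1 - dl := by linarith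
    have hk : Y ^ 2 / (m + 1 - dl) + dl * Y * (m + 1 - dl - Y) / ((m + 1) * (m + 1 - dl)) =
        (dl * Y + Y ^ 2) / (m + 1) := by
      field_simp
      ring
    have hk2 : (dl * Y + Y ^ 2) / (m + 1) = dl * Y / (m + 1) + Y ^ 2 / (m + 1) := by ring
    rw [hk2] at hk
    linarith
  | B =>
    rw [Lst_B _ hcU, Lst_B _ hcU]
    have hst := step_ineq (p := p) hc hp0 hp1 hcU
    have hUne : U.Nonempty := by
      by_contra hne
      rw [Finset.not_nonempty_iff_eq_empty] at hne
      subst hne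
      rw [hc] at hcU; exact absurd hcU (by decide)
    have hm : (0 : ℝ) < (U.card : ℝ) := by exact_mod_cast hUne.card_pos
    refine (add_le_add_left hst _).trans ?_
    rw [YF_B p hcU, ← sub_div, ← Finset.sum_sub_distrib, ← add_div, ← Finset.sum_add_distrib]
    refine div_le_div_of_nonneg_right (Finset.sum_le_sum fun x hx => ?_) hm.le
    have h1 := ih (U.erase x) (Finset.erase_ssubset hx)
    have h2 : ((U.erase x).card : ℝ) + 1 = (U.card : ℝ) := by
      rw [Finset.card_erase_of_mem hx, Nat.cast_sub hUne.card_pos]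
      push_cast; ring
    rw [h2] at h1
    exact h1

/-- **(Q^pi)** in exit form, with the slack of the cut vertices. -/
theorem qpi_exit_slack {τ : Finset α → Lab} {π : Finset α → ℝ} {D : Finset α} (h0 : τ ∅ = Lab.A)
    (hD : τ D = Lab.B) (hp0 : ∀ V, 0 ≤ π V) (hp1 : ∀ V, π V ≤ 1) :
    (∑ V ∈ D.powerset, if τ V = Lab.B then 0 else
      bwb τ D V / (D.card.choose V.card : ℝ) * (A1 τ π V ^ 2 / aL τ π V)) +
    (∑ W ∈ D.powerset with τ W ≠ Lab.A, P1 τ D W * (B1 τ D π W ^ 2 / bF τ π D W)) +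
    (∑ V ∈ D.powerset, if τ V = Lab.B then 0 else
      bwb τ D V / (D.card.choose V.card : ℝ) * slk τ π V) ≤
      (A1 τ π D + B1 τ D π ∅) ^ 2 / ((D.card : ℝ) + 1) := by
  have hmain := main_ineq_slack (p := π) h0 hp0 hp1 D
  rw [← Lst_explicit h0 hD, ← Lst_explicit h0 hD]
  rw [Lst_sq h0 hp0] at hmain
  have hbpos : ∀ W ∈ D.powerset.filter (fun W => τ W ≠ Lab.A), 0 < bF τ π D W := by
    intro W hW
    have hWD := mem_powerset.1 (mem_filter.1 hW).1
    unfold bF aF
    by_cases hWe : W = D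
    · subst hWe; rw [hD]; simp
    · have hlt : W.card < D.card :=
        card_lt_card ⟨hWD, fun h => hWe (Subset.antisymm hWD h)⟩
      have h1 : (W.card : ℝ) + 1 ≤ (D.card : ℝ) := by exact_mod_cast hlt
      have h2 : (if τ W = Lab.X then π W else 0) ≤ 1 := by
        split_ifs; exacts [hp1 W, zero_le_one]
      linarith
  have hbet : ∀ W ∈ D.powerset.filter (fun W => τ W ≠ Lab.A), bet τ π D W = B1 τ D π W :=
    fun W hW => bet_eq π hD (mem_powerset.1 (mem_filter.1 hW).1)
  have hR : RF τ π D = ((D.card : ℝ) + 1 - A1 τ π D) - 2 * B1 τ D π ∅ +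
      ∑ W ∈ D.powerset with τ W ≠ Lab.A, P1 τ D W * (B1 τ D π W ^ 2 / bF τ π D W) := by
    have e1 : ∀ W ∈ D.powerset.filter (fun W => τ W ≠ Lab.A),
        P1 τ D W * (dF τ π D W ^ 2 / bF τ π D W) =
        P1 τ D W * bF τ π D W - 2 * (P1 τ D W * B1 τ D π W) +
          P1 τ D W * (B1 τ D π W ^ 2 / bF τ π D W) := by
      intro W hW
      unfold dF
      rw [hbet W hW]
      have := hbpos W hW
      field_simp
      ring
    unfold RF
    rw [sum_congr rfl e1, sum_add_distrib, sum_sub_distrib, ← mul_sum, sum_bF π h0,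
      sum_B1 π h0 hD]
  have hY : YF τ π D = (D.card : ℝ) + 1 - A1 τ π D - B1 τ D π ∅ := by
    have e1 : ∀ W ∈ D.powerset.filter (fun W => τ W ≠ Lab.A),
        P1 τ D W * dF τ π D W = P1 τ D W * bF τ π D W - P1 τ D W * B1 τ D π W := by
      intro W hW
      unfold dF
      rw [hbet W hW]; ring
    unfold YF
    rw [sum_congr rfl e1, sum_sub_distrib, sum_bF π h0, sum_B1 π h0 hD]
  have hY2 := YF_eq π h0 D
  rw [hR] at hmain
  set M : ℝ := (D.card : ℝ) + 1 with hM
  have hMpos : 0 < M := by positivity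
  set S := A1 τ π D + B1 τ D π ∅ with hS
  have hYS : YF τ π D = M - S := by rw [hY, hS]; ring
  rw [hYS] at hmain hY2
  have hsq : (M - S) ^ 2 / M = S ^ 2 / M + M - 2 * S := by
    field_simp; ring
  rw [hsq] at hmain
  linarith

theorem bF_nonneg {c : Finset α → Lab} {π : Finset α → ℝ} (hp1 : ∀ V, π V ≤ 1)
    {U W : Finset α} (hWU : W ⊆ U) : 0 ≤ bF c π U W := by
  have hcard : (W.card : ℝ) ≤ (U.card : ℝ) := by exact_mod_cast card_le_card hWU
  unfold bF aF
  have h2 : (if c W = Lab.X then π W else 0) ≤ 1 := by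
    split_ifs; exacts [hp1 W, zero_le_one]
  linarith

theorem YF_nonneg {c : Finset α → Lab} {π : Finset α → ℝ} (hc : c ∅ = Lab.A)
    (hp0 : ∀ V, 0 ≤ π V) (hp1 : ∀ V, π V ≤ 1) (U : Finset α) : 0 ≤ YF c π U := by
  induction U using Finset.strongInduction with
  | H U ih =>
  cases hcU : c U with
  | A =>
    unfold YF
    refine sum_nonneg fun W hW => mul_nonneg (P1_nonneg _ _ _) ?_
    have hWU := mem_powerset.1 (mem_filter.1 hW).1
    unfold dF
    rw [bet_A π W hcU, sub_zero]
    exact bF_nonneg hp1 hWU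
  | X =>
    unfold YF
    refine sum_nonneg fun W hW => mul_nonneg (P1_nonneg _ _ _) ?_
    have hWU := mem_powerset.1 (mem_filter.1 hW).1
    have hWA := (mem_filter.1 hW).2
    by_cases hWe : W = U
    · subst hWe; exact (dF_self π hWA).ge
    · have hlt : W.card < U.card :=
        card_lt_card ⟨hWU, fun h => hWe (Subset.antisymm hWU h)⟩
      have h1 : (W.card : ℝ) + 1 ≤ (U.card : ℝ) := by exact_mod_cast hlt
      unfold dF
      rw [bet_X π W hcU]
      unfold bF aF
      have h2 : (if c W = Lab.X then π W else 0) ≤ 1 := by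
        split_ifs; exacts [hp1 W, zero_le_one]
      have := hp0 U
      linarith
  | B =>
    rw [YF_B π hcU]
    exact div_nonneg (sum_nonneg fun x hx => ih _ (erase_ssubset hx)) (Nat.cast_nonneg _)

theorem YF_top {τ : Finset α → Lab} {π : Finset α → ℝ} {D : Finset α} (h0 : τ ∅ = Lab.A)
    (hD : τ D = Lab.B) : YF τ π D = (D.card : ℝ) + 1 - A1 τ π D - B1 τ D π ∅ := by
  have hbet : ∀ W ∈ D.powerset.filter (fun W => τ W ≠ Lab.A), bet τ π D W = B1 τ D π W :=
    fun W hW => bet_eq π hD (mem_powerset.1 (mem_filter.1 hW).1)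
  have e1 : ∀ W ∈ D.powerset.filter (fun W => τ W ≠ Lab.A),
      P1 τ D W * dF τ π D W = P1 τ D W * bF τ π D W - P1 τ D W * B1 τ D π W := by
    intro W hW
    unfold dF
    rw [hbet W hW]; ring
  unfold YF
  rw [sum_congr rfl e1, sum_sub_distrib, sum_bF π h0, sum_B1 π h0 hD]

end R5.QP

namespace R5

open Finset

open QP in
theorem qpi_slack {α : Type} [DecidableEq α] (τ : Finset α → Lab) (D : Finset α)
    (π0 : Finset α → ℝ) (h0 : τ ∅ = Lab.A) (hD : τ D = Lab.B)
    (hπ : ∀ U ⊆ D, 0 ≤ π0 U ∧ π0 U ≤ 1) :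
  (∑ V ∈ D.powerset, ∑ x ∈ D \ V, if isE τ V x then
      1 / ((D.card.choose V.card : ℝ) * ((D.card : ℝ) - V.card)) *
      (bw τ D (insert x V) * A1 τ π0 V ^ 2 / ((V.card : ℝ) + 1) +
       fw τ V * B1 τ D π0 (insert x V) ^ 2 / ((D.card : ℝ) - V.card)) else 0) +
  (∑ V ∈ D.powerset, if τ V = Lab.X then
      1 / (D.card.choose V.card : ℝ) *
      (bwb τ D V * A1 τ π0 V ^ 2 / ((V.card : ℝ) + π0 V) +
       fwb τ V * B1 τ D π0 V ^ 2 / ((D.card : ℝ) - V.card + 1 - π0 V)) else 0) +
  (∑ V ∈ D.powerset, if τ V = Lab.X then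
      bwb τ D V / (D.card.choose V.card : ℝ) *
      ((1 - π0 V) * ((V.card : ℝ) + π0 V - A1 τ π0 V) * A1 τ π0 V /
        (((V.card : ℝ) + 1) * ((V.card : ℝ) + π0 V))) else 0) ≤
  (A1 τ π0 D + B1 τ D π0 ∅) ^ 2 / ((D.card : ℝ) + 1) := by
  -- replace `π0` by a globally bounded function
  set π : Finset α → ℝ := fun U => π0 (U ∩ D) with hπd
  have hp0 : ∀ V, 0 ≤ π V := fun V => (hπ _ inter_subset_right).1
  have hp1 : ∀ V, π V ≤ 1 := fun V => (hπ _ inter_subset_right).2
  have hpe : ∀ U ⊆ D, π0 U = π U := by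
    intro U hU
    rw [hπd]; simp only; rw [inter_eq_left.2 hU]
  have hA1 : ∀ V ⊆ D, A1 τ π0 V = A1 τ π V := fun V hV =>
    A1_congr_pi τ fun U hU => hpe U (hU.trans hV)
  have hB1 : ∀ V, B1 τ D π0 V = B1 τ D π V := by
    intro V
    unfold B1
    refine A1_congr_pi _ fun U _ => ?_
    rw [hpe _ sdiff_subset]
  have key := qpi_exit_slack (π := π) h0 hD hp0 hp1
  rw [hA1 D (Subset.refl _), hB1 ∅]
  have hslk : (∑ V ∈ D.powerset, if τ V = Lab.B then 0 else
      bwb τ D V / (D.card.choose V.card : ℝ) * slk τ π V) =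
      ∑ V ∈ D.powerset, if τ V = Lab.X then
      bwb τ D V / (D.card.choose V.card : ℝ) *
      ((1 - π0 V) * ((V.card : ℝ) + π0 V - A1 τ π0 V) * A1 τ π0 V /
        (((V.card : ℝ) + 1) * ((V.card : ℝ) + π0 V))) else 0 := by
    refine sum_congr rfl fun V hV => ?_
    have hVD := mem_powerset.1 hV
    cases hc : τ V with
    | A => simp [slk, hc]
    | B => simp
    | X =>
      have h1 : aL τ π V = (V.card : ℝ) + π0 V := by
        unfold aL; rw [hc, hpe V hVD]; simp
      have h2 : YF τ π V = (V.card : ℝ) + π0 V - A1 τ π0 V := by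
        rw [YF_ne π h0 (by rw [hc]; decide), h1, hA1 V hVD]
      simp only [reduceCtorEq, if_false, if_true]
      unfold slk
      rw [if_pos hc, h2, h1, ← hpe V hVD]
      congr 2
      ring
  rw [hslk] at key
  refine le_trans (le_of_eq ?_) key
  congr 1
  have e1 : (∑ V ∈ D.powerset, ∑ x ∈ D \ V, if isE τ V x then
      1 / ((D.card.choose V.card : ℝ) * ((D.card : ℝ) - V.card)) *
      (bw τ D (insert x V) * A1 τ π0 V ^ 2 / ((V.card : ℝ) + 1) +
       fw τ V * B1 τ D π0 (insert x V) ^ 2 / ((D.card : ℝ) - V.card)) else 0) =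
      (∑ V ∈ D.powerset, if τ V = Lab.A then
        bwb τ D V / (D.card.choose V.card : ℝ) * (A1 τ π V ^ 2 / ((V.card : ℝ) + 1)) else 0) +
      ∑ U ∈ D.powerset, if τ U = Lab.B then P1 τ D U * (B1 τ D π U ^ 2 / bF τ π D U) else 0 := by
    have e2 : (∑ V ∈ D.powerset, ∑ x ∈ D \ V, if isE τ V x then
      1 / ((D.card.choose V.card : ℝ) * ((D.card : ℝ) - V.card)) *
      (bw τ D (insert x V) * A1 τ π0 V ^ 2 / ((V.card : ℝ) + 1) +
       fw τ V * B1 τ D π0 (insert x V) ^ 2 / ((D.card : ℝ) - V.card)) else 0) =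
      (∑ V ∈ D.powerset, ∑ x ∈ D \ V, if isE τ V x then
      1 / ((D.card.choose V.card : ℝ) * ((D.card : ℝ) - V.card)) *
        (bw τ D (insert x V) * A1 τ π V ^ 2 / ((V.card : ℝ) + 1)) else 0) +
      ∑ V ∈ D.powerset, ∑ x ∈ D \ V, if isE τ V x then
      1 / ((D.card.choose V.card : ℝ) * ((D.card : ℝ) - V.card)) *
        (fw τ V * B1 τ D π (insert x V) ^ 2 / ((D.card : ℝ) - V.card)) else 0 := by
      rw [← sum_add_distrib]
      refine sum_congr rfl fun V hV => ?_
      rw [← sum_add_distrib]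
      refine sum_congr rfl fun x _ => ?_
      split_ifs
      · rw [hA1 V (mem_powerset.1 hV), hB1]; ring
      · simp
    rw [e2, sum_up_down D (fun V x => if isE τ V x then
      1 / ((D.card.choose V.card : ℝ) * ((D.card : ℝ) - V.card)) *
        (fw τ V * B1 τ D π (insert x V) ^ 2 / ((D.card : ℝ) - V.card)) else 0)]
    congr 1
    · refine sum_congr rfl fun V hV => qpi_edges_L π (mem_powerset.1 hV)
    · refine sum_congr rfl fun U hU => qpi_edges_F π (mem_powerset.1 hU)
  rw [e1, sum_filter, ← sum_add_distrib, ← sum_add_distrib, ← sum_add_distrib]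
  refine sum_congr rfl fun V hV => ?_
  have hVD := mem_powerset.1 hV
  cases hc : τ V with
  | A =>
    simp only [if_true, reduceCtorEq, if_false, not_true_eq_false, ne_eq, add_zero]
    unfold aL; rw [hc]; simp
  | B =>
    simp
  | X =>
    simp only [reduceCtorEq, if_false, if_true, ne_eq, not_false_eq_true]
    rw [hA1 V hVD, hB1, hpe V hVD]
    unfold aL P1 bF aF
    rw [hc]
    simp only [if_true]
    have e3 : (D.card : ℝ) + 1 - ((V.card : ℝ) + π V) = (D.card : ℝ) - V.card + 1 - π V := by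
      ring
    rw [e3]
    ring

open QP in
theorem S_le {α : Type} [DecidableEq α] (τ : Finset α → Lab) (D : Finset α)
    (π0 : Finset α → ℝ) (h0 : τ ∅ = Lab.A) (hD : τ D = Lab.B)
    (hπ : ∀ U ⊆ D, 0 ≤ π0 U ∧ π0 U ≤ 1) :
    A1 τ π0 D + B1 τ D π0 ∅ ≤ (D.card : ℝ) + 1 := by
  set π : Finset α → ℝ := fun U => π0 (U ∩ D) with hπd
  have hp0 : ∀ V, 0 ≤ π V := fun V => (hπ _ inter_subset_right).1
  have hp1 : ∀ V, π V ≤ 1 := fun V => (hπ _ inter_subset_right).2
  have hpe : ∀ U ⊆ D, π0 U = π U := by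
    intro U hU
    rw [hπd]; simp only; rw [inter_eq_left.2 hU]
  have hA1 : A1 τ π0 D = A1 τ π D := A1_congr_pi τ fun U hU => hpe U hU
  have hB1 : B1 τ D π0 ∅ = B1 τ D π ∅ := by
    unfold B1
    refine A1_congr_pi _ fun U _ => ?_
    rw [hpe _ sdiff_subset]
  have h1 := YF_top (π := π) h0 hD
  have h2 := YF_nonneg h0 hp0 hp1 D
  rw [hA1, hB1]
  linarith

end R5

end

section

/-!
# The bound for `COST1`, with the slack of the cut vertices

`(l + 1) COST1 ≤ (NE + NE*) / l ^ 2 - l / (l + 1) * SL` and the same with `NV`.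
-/

namespace R5

namespace C1

open Finset COSTB

variable {α : Type} [DecidableEq α]

/-- Expected number of states of the paths whose first object is an edge. -/
noncomputable def NE (σ : Finset α → Lab) (D : Finset α) : ℝ :=
  ∑ U ∈ D.powerset, if σ U = Lab.B then (U.card : ℝ) * fwb σ U / (D.card.choose U.card : ℝ) else 0

/-- Expected number of states of the paths whose first object is a vertex. -/
noncomputable def NV (σ : Finset α → Lab) (D : Finset α) : ℝ :=
  ∑ U ∈ D.powerset, if σ U = Lab.X then (U.card : ℝ) * fwb σ U / (D.card.choose U.card : ℝ) else 0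

/-- Expected position of the first object, with its own slot (natural weights), below `V`. -/
noncomputable def AN (σ : Finset α → Lab) (D V : Finset α) : ℝ :=
  A1 σ (fun U => (U.card : ℝ) / D.card) V

/-- The slack of the cut vertices. -/
noncomputable def SL (σ : Finset α → Lab) (D : Finset α) : ℝ :=
  ∑ V ∈ D.powerset, if σ V = Lab.X then
      bwb σ D V / (D.card.choose V.card : ℝ) *
      ((1 - (V.card : ℝ) / D.card) * ((V.card : ℝ) + (V.card : ℝ) / D.card - AN σ D V) *
        AN σ D V / (((V.card : ℝ) + 1) * ((V.card : ℝ) + (V.card : ℝ) / D.card))) else 0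

theorem NE_eq (σ : Finset α → Lab) (D : Finset α) : NE σ D = AW (bwt σ) D := by
  unfold NE AW bwt
  refine sum_congr rfl fun U _ => ?_
  split_ifs <;> simp

theorem NV_eq (σ : Finset α → Lab) (D : Finset α) : NV σ D = AW (xw σ) D := by
  unfold NV AW xw
  refine sum_congr rfl fun U _ => ?_
  split_ifs <;> simp

/-- the suffix factor -/
noncomputable def bb (σ : Finset α → Lab) (D V : Finset α) : Option α → ℝ
  | none => bwb σ D V
  | some x => bw σ D (insert x V)

/-- the reference masses -/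
noncomputable def uu1 (σ : Finset α → Lab) (D V : Finset α) (o : Option α) : ℝ :=
  if bb σ D V o = 0 then 1 else bb σ D V o * uu D V o

theorem bb_nonneg (σ : Finset α → Lab) (D V : Finset α) (o : Option α) : 0 ≤ bb σ D V o := by
  cases o with
  | none => exact bwb_nonneg _ _ _
  | some x => exact bw_nonneg _ _ _

theorem uu1_pos (σ : Finset α → Lab) {D V : Finset α} (hD : D.Nonempty) (hV : V ⊆ D)
    {o : Option α} (ho : ∀ x, o = some x → x ∈ D \ V) : 0 < uu1 σ D V o := by
  unfold uu1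
  split_ifs with h
  · exact one_pos
  · exact mul_pos (lt_of_le_of_ne (bb_nonneg _ _ _ _) (Ne.symm h)) (uu_pos hD hV ho)

theorem uu1_of_ne {σ : Finset α → Lab} {D V : Finset α} {o : Option α}
    (h : bb σ D V o ≠ 0) : uu1 σ D V o = bb σ D V o * uu D V o := by
  unfold uu1; rw [if_neg h]

theorem yy_of_zero {σ : Finset α → Lab} {D V : Finset α} {o : Option α}
    (h : bb σ D V o = 0) : yy σ D V o = 0 := by
  cases o with
  | none =>
    have h' : bwb σ D V = 0 := h
    simp only [yy, yLv]; rw [h']; simp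
  | some x =>
    have h' : bw σ D (insert x V) = 0 := h
    simp only [yy, yLe]; rw [h']; simp

theorem ee_of_zero {σ : Finset α → Lab} {D V : Finset α} {o : Option α}
    (h : bb σ D V o = 0) : ee σ D V o = 0 := by
  cases o with
  | none =>
    have h' : bwb σ D V = 0 := h
    simp only [ee]; rw [h']; simp
  | some x =>
    have h' : bw σ D (insert x V) = 0 := h
    simp only [ee]; rw [h']; simp

theorem LS_sq1 (σ : Finset α → Lab) (D : Finset α) (hD : D.Nonempty) (hA : σ ∅ = Lab.A) :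
    LS D (fun V o => (yy σ D V o + ee σ D V o / (D.card : ℝ)) ^ 2 / uu1 σ D V o) ≤
      LQ σ D / ((D.card : ℝ) + 1) := by
  have hl0 : (0 : ℝ) < (D.card : ℝ) := by exact_mod_cast card_pos.2 hD
  have hl : (0 : ℝ) < (D.card : ℝ) + 1 := by positivity
  unfold LS LQ
  rw [add_div, sum_div, sum_div]
  apply add_le_add
  · refine sum_le_sum fun V hV => ?_
    rw [sum_div]
    refine sum_le_sum fun x hx => ?_
    rw [mem_powerset] at hV
    rw [mem_sdiff] at hx
    have hlt : V.card < D.card := card_lt_card ⟨hV, fun h => hx.2 (h hx.1)⟩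
    have hd : (0 : ℝ) < (D.card : ℝ) - V.card := by rw [sub_pos]; exact_mod_cast hlt
    have hC := choose_pos_real hlt.le
    have hk : (0 : ℝ) < (V.card : ℝ) + 1 := by positivity
    beta_reduce
    by_cases hb0 : bb σ D V (some x) = 0
    · rw [yy_of_zero hb0, ee_of_zero hb0]
      simp only [zero_div, add_zero, ne_eq, OfNat.ofNat_ne_zero, not_false_eq_true, zero_pow]
      have hb1 := bw_nonneg σ D (insert x V)
      split_ifs
      · positivity
      · simp
    rw [uu1_of_ne hb0]
    simp only [yy, ee, bb, uu, yLe]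
    by_cases hE : isE σ V x
    · simp only [if_pos hE]
      have hb0' : bw σ D (insert x V) ≠ 0 := hb0
      set b := bw σ D (insert x V) with hb
      set a := A1 σ (fun U => (U.card : ℝ) / D.card) V with ha
      have ha' : aw σ V = a - AW (xw σ) V / D.card := by rw [ha, A1_eq]; ring
      rw [ha']
      · have e1 : ((a - AW (xw σ) V / D.card) * b /
            (((D.card : ℝ) + 1) * (D.card.choose V.card : ℝ) * ((D.card : ℝ) - V.card)) +
            AW (xw σ) V * b / (((D.card : ℝ) + 1) * (D.card.choose V.card : ℝ) *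
              ((D.card : ℝ) - V.card)) / D.card) ^ 2 /
            (b * (((V.card : ℝ) + 1) / (((D.card : ℝ) + 1) * (D.card.choose V.card : ℝ) *
              ((D.card : ℝ) - V.card)))) =
            1 / ((D.card.choose V.card : ℝ) * ((D.card : ℝ) - V.card)) *
            (b * a ^ 2 / ((V.card : ℝ) + 1)) / ((D.card : ℝ) + 1) := by
          field_simp
          ring
        exact e1.le
    · simp only [if_neg hE]
      simp
  · refine sum_le_sum fun V hV => ?_
    rw [mem_powerset] at hV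
    beta_reduce
    by_cases hb0 : bb σ D V none = 0
    · rw [yy_of_zero hb0, ee_of_zero hb0]
      simp only [zero_div, add_zero, ne_eq, OfNat.ofNat_ne_zero, not_false_eq_true, zero_pow]
      have hb1 := bwb_nonneg σ D V
      split_ifs
      · positivity
      · simp
    rw [uu1_of_ne hb0]
    simp only [yy, ee, bb, uu, yLv]
    by_cases hE : σ V = Lab.X
    · simp only [if_pos hE]
      have hVne : V ≠ ∅ := by
        rintro rfl
        rw [hA] at hE
        exact absurd hE (by simp)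
      have hk0 : V.card ≠ 0 := by rwa [Ne, card_eq_zero]
      rw [if_neg hk0]
      have hk : (0 : ℝ) < (V.card : ℝ) := by
        rw [Nat.cast_pos]; exact Nat.pos_of_ne_zero hk0
      have hC := choose_pos_real (card_le_card hV)
      have hb0' : bwb σ D V ≠ 0 := hb0
      set b := bwb σ D V with hb
      set a := A1 σ (fun U => (U.card : ℝ) / D.card) V with ha
      have ha' : aw σ V = a - AW (xw σ) V / D.card := by rw [ha, A1_eq]; ring
      rw [ha']
      · have e1 : ((a - AW (xw σ) V / D.card) * b /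
            (((D.card : ℝ) + 1) * (D.card.choose V.card : ℝ)) +
            AW (xw σ) V * b / (((D.card : ℝ) + 1) * (D.card.choose V.card : ℝ)) / D.card) ^ 2 /
            (b * ((V.card : ℝ) / D.card / (D.card.choose V.card : ℝ))) =
            1 / (D.card.choose V.card : ℝ) *
            (b * a ^ 2 / ((V.card : ℝ) + (V.card : ℝ) / D.card)) / ((D.card : ℝ) + 1) := by
          field_simp
          ring
        exact e1.le
    · simp only [if_neg hE]
      simp

/-- the entropy term as a sum over the objects -/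
theorem CL1_eq (σ : Finset α → Lab) (D : Finset α) (z : ℝ) (hD : D.Nonempty)
    (hA : σ ∅ = Lab.A) (hz : 0 < z) :
    CL1 σ D z = LS D (fun V o => yy σ D V o * Real.log (yy σ D V o / (uu1 σ D V o * z))) := by
  have hl0 : (0 : ℝ) < (D.card : ℝ) := by exact_mod_cast card_pos.2 hD
  have hl : (0 : ℝ) < (D.card : ℝ) + 1 := by positivity
  unfold CL1 LS
  congr 1
  · refine sum_congr rfl fun V hV => sum_congr rfl fun x hx => ?_
    rw [mem_powerset] at hV
    rw [mem_sdiff] at hx
    have hlt : V.card < D.card := card_lt_card ⟨hV, fun h => hx.2 (h hx.1)⟩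
    have hd : (0 : ℝ) < (D.card : ℝ) - V.card := by rw [sub_pos]; exact_mod_cast hlt
    have hC := choose_pos_real hlt.le
    beta_reduce
    by_cases hb0 : bb σ D V (some x) = 0
    · have h1 : yLe σ D V x = 0 := yy_of_zero hb0
      rw [yy_of_zero hb0, h1]; simp
    rw [uu1_of_ne hb0]
    have hb0' : bw σ D (insert x V) ≠ 0 := hb0
    simp only [yy, bb, uu, yLe]
    split_ifs with hE
    · congr 2
      field_simp
    · simp
  · refine sum_congr rfl fun V hV => ?_
    rw [mem_powerset] at hV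
    beta_reduce
    by_cases hb0 : bb σ D V none = 0
    · have h1 : yLv σ D V = 0 := yy_of_zero hb0
      rw [yy_of_zero hb0, h1]; simp
    rw [uu1_of_ne hb0]
    have hb0' : bwb σ D V ≠ 0 := hb0
    simp only [yy, bb, uu, yLv]
    by_cases hE : σ V = Lab.X
    · simp only [if_pos hE]
      have hVne : V ≠ ∅ := by
        rintro rfl
        rw [hA] at hE
        exact absurd hE (by simp)
      have hk0 : V.card ≠ 0 := by rwa [Ne, card_eq_zero]
      rw [if_neg hk0]
      have hk : (0 : ℝ) < (V.card : ℝ) := by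
        rw [Nat.cast_pos]; exact Nat.pos_of_ne_zero hk0
      have hC := choose_pos_real (card_le_card hV)
      congr 2
      field_simp
    · simp only [if_neg hE]
      simp

theorem AN_nonneg (σ : Finset α → Lab) (D V : Finset α) : 0 ≤ AN σ D V := A1_nonneg σ D V

open QP in
theorem AN_le {τ : Finset α → Lab} {D V : Finset α} (hA : τ ∅ = Lab.A) (hD : D.Nonempty)
    (hV : V ⊆ D) (hX : τ V = Lab.X) : AN τ D V ≤ (V.card : ℝ) + (V.card : ℝ) / D.card := by
  have hl0 : (0 : ℝ) < (D.card : ℝ) := by exact_mod_cast card_pos.2 hD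
  set π : Finset α → ℝ := fun U => ((U ∩ D).card : ℝ) / D.card with hπd
  have hp0 : ∀ V, 0 ≤ π V := fun V => by positivity
  have hp1 : ∀ V, π V ≤ 1 := fun V => by
    rw [hπd]; simp only
    rw [div_le_one hl0]
    exact_mod_cast card_le_card inter_subset_right
  have hA1 : AN τ D V = A1 τ π V := A1_congr_pi τ fun U hU => by
    rw [hπd]; simp only; rw [inter_eq_left.2 (hU.trans hV)]
  have h1 := YF_nonneg hA hp0 hp1 V
  rw [YF_ne π hA (by rw [hX]; decide)] at h1
  have h2 : aL τ π V = (V.card : ℝ) + (V.card : ℝ) / D.card := by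
    unfold aL; rw [hX, hπd]; simp only [if_true]; rw [inter_eq_left.2 hV]
  rw [h2] at h1
  rw [hA1]
  linarith

theorem SL_nonneg {τ : Finset α → Lab} {D : Finset α} (hA : τ ∅ = Lab.A) (hD : D.Nonempty) :
    0 ≤ SL τ D := by
  have hl0 : (0 : ℝ) < (D.card : ℝ) := by exact_mod_cast card_pos.2 hD
  unfold SL
  refine sum_nonneg fun V hV => ?_
  have hVD := mem_powerset.1 hV
  split_ifs with hX
  · have h1 := AN_le hA hD hVD hX
    have h2 := AN_nonneg τ D V
    have h3 : (V.card : ℝ) / D.card ≤ 1 := by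
      rw [div_le_one hl0]; exact_mod_cast card_le_card hVD
    have h4 := bwb_nonneg τ D V
    refine mul_nonneg (div_nonneg h4 (Nat.cast_nonneg _)) (div_nonneg ?_ (by positivity))
    exact mul_nonneg (mul_nonneg (by linarith) (by linarith)) h2
  · exact le_rfl

/-- **The bound for `COST1`.** -/
theorem cost1_bound (τ : Finset α → Lab) (D : Finset α) (hA : τ ∅ = Lab.A) (hB : τ D = Lab.B)
    (hD : D.Nonempty) :
    ((D.card : ℝ) + 1) * COST1 τ D ≤ (NE τ D + NE (dual τ D) D) / (D.card : ℝ) ^ 2 -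
      (D.card : ℝ) / ((D.card : ℝ) + 1) * SL τ D ∧
    ((D.card : ℝ) + 1) * COST1 τ D ≤ (NV τ D + NV (dual τ D) D) / (D.card : ℝ) ^ 2 -
      (D.card : ℝ) / ((D.card : ℝ) + 1) * SL τ D := by
  have hW : Stmt_AWID α := stmt_AWID α
  have hG : Stmt_GMASS α := stmt_GMASS
  have hl0 : (0 : ℝ) < (D.card : ℝ) := by exact_mod_cast card_pos.2 hD
  have hl : (0 : ℝ) < (D.card : ℝ) + 1 := by positivity
  have hA' : (dual τ D) ∅ = Lab.A := by
    unfold dual; rw [sdiff_empty, hB]; rfl
  have hB' : (dual τ D) D = Lab.B := by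
    unfold dual; rw [sdiff_self, bot_eq_empty, hA]; rfl
  have hsA : ∀ b, sg τ D b ∅ = Lab.A := by
    intro b; cases b
    · exact hA'
    · exact hA
  let Y : Bool → Finset α → Option α → ℝ := fun b => yy (sg τ D b) D
  let E : Bool → Finset α → Option α → ℝ := fun b => ee (sg τ D b) D
  let UU : Bool → Finset α → Option α → ℝ := fun b => uu1 (sg τ D b) D
  have hZ : ∑ p ∈ KK D, Y p.1 p.2.1 p.2.2 = Zt τ D := by
    rw [sum_KK D Y]
    show LS D (yy τ D) + LS D (yy (dual τ D) D) = _
    rw [LS_yy' hG hA hB, LS_yy' hG hA' hB', aw_dual (Subset.refl _), sdiff_self, bot_eq_empty]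
    unfold Zt
    ring
  have hZpos : 0 < Zt τ D := by
    unfold Zt
    have h1 := one_le_aw hA D
    have h2 := ab_nonneg τ D ∅
    positivity
  have hEs : ∑ p ∈ KK D, E p.1 p.2.1 p.2.2 =
      (NV τ D + NV (dual τ D) D) / ((D.card : ℝ) + 1) := by
    rw [sum_KK D E]
    show LS D (ee τ D) + LS D (ee (dual τ D) D) = _
    rw [LS_ee, LS_ee, LM_xw hG hA hB, LM_xw hG hA' hB', NV_eq, NV_eq]
    ring
  have hYE : Zt τ D - (NV τ D + NV (dual τ D) D) / ((D.card : ℝ) + 1) =
      (NE τ D + NE (dual τ D) D) / ((D.card : ℝ) + 1) := by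
    rw [← hZ, ← hEs, sum_KK D Y, sum_KK D E]
    show LS D (yy τ D) + LS D (yy (dual τ D) D) - (LS D (ee τ D) + LS D (ee (dual τ D) D)) = _
    have h1 := LS_ye hW hG hA hB
    have h2 := LS_ye hW hG hA' hB'
    rw [UEL_eq] at h1 h2
    rw [NE_eq, NE_eq, add_div, ← h1, ← h2]
    ring
  set S := A1 τ (fun U => (U.card : ℝ) / D.card) D +
        B1 τ D (fun U => (U.card : ℝ) / D.card) ∅ with hSd
  have hsum : ∑ p ∈ KK D, (Y p.1 p.2.1 p.2.2 + E p.1 p.2.1 p.2.2 / ((D.card : ℕ) : ℝ)) =
      S / ((D.card : ℝ) + 1) := by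
    rw [sum_KK D (fun b V o => Y b V o + E b V o / ((D.card : ℕ) : ℝ)), LS_add, LS_add,
      LS_div, LS_div]
    show LS D (yy τ D) + LS D (ee τ D) / (D.card : ℝ) +
      (LS D (yy (dual τ D) D) + LS D (ee (dual τ D) D) / (D.card : ℝ)) = _
    rw [LS_q hG hA hB, LS_q hG hA' hB', hSd, B1_eq τ hD, sdiff_empty]
    ring
  have hπ : ∀ U ⊆ D, 0 ≤ (U.card : ℝ) / D.card ∧ (U.card : ℝ) / D.card ≤ 1 := fun U hU =>
    ⟨by positivity, by rw [div_le_one hl0]; exact_mod_cast card_le_card hU⟩
  have hquad : ∑ p ∈ KK D, (Y p.1 p.2.1 p.2.2 + E p.1 p.2.1 p.2.2 / ((D.card : ℕ) : ℝ)) ^ 2 /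
      UU p.1 p.2.1 p.2.2 + SL τ D / ((D.card : ℝ) + 1) ≤
      (∑ p ∈ KK D, (Y p.1 p.2.1 p.2.2 + E p.1 p.2.1 p.2.2 / ((D.card : ℕ) : ℝ))) ^ 2 := by
    rw [hsum, sum_KK D (fun b V o => (Y b V o + E b V o / ((D.card : ℕ) : ℝ)) ^ 2 / UU b V o)]
    have h1 := LS_sq1 τ D hD hA
    have h2 := LS_sq1 (dual τ D) D hD hA'
    have h3 := qpi_slack τ D (fun U => (U.card : ℝ) / D.card) hA hB hπ
    rw [qpi_split τ D hD] at h3
    have h4 : LS D (fun V o => (Y true V o + E true V o / ((D.card : ℕ) : ℝ)) ^ 2 / UU true V o) +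
        LS D (fun V o => (Y false V o + E false V o / ((D.card : ℕ) : ℝ)) ^ 2 / UU false V o) ≤
        LQ τ D / ((D.card : ℝ) + 1) + LQ (dual τ D) D / ((D.card : ℝ) + 1) :=
      add_le_add h1 h2
    have h5 : LQ τ D + LQ (dual τ D) D + SL τ D ≤ S ^ 2 / ((D.card : ℝ) + 1) := h3
    calc _ ≤ LQ τ D / ((D.card : ℝ) + 1) + LQ (dual τ D) D / ((D.card : ℝ) + 1) +
          SL τ D / ((D.card : ℝ) + 1) := by linarith
      _ = (LQ τ D + LQ (dual τ D) D + SL τ D) / ((D.card : ℝ) + 1) := by ring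
      _ ≤ (S ^ 2 / ((D.card : ℝ) + 1)) / ((D.card : ℝ) + 1) := div_le_div_of_nonneg_right h5 hl.le
      _ = _ := by rw [div_pow]; field_simp
  have hye : ∀ k ∈ KK D, 0 ≤ E k.1 k.2.1 k.2.2 ∧ E k.1 k.2.1 k.2.2 ≤ Y k.1 k.2.1 k.2.2 := by
    rintro ⟨b, V, o⟩ hp
    obtain ⟨hV, _⟩ := mem_KK hp
    exact ee_bd hW _ (hsA b) hV o
  have hu : ∀ k ∈ KK D, 0 < UU k.1 k.2.1 k.2.2 := by
    rintro ⟨b, V, o⟩ hp
    obtain ⟨hV, ho⟩ := mem_KK hp
    exact uu1_pos _ hD hV ho
  have key := abs_slack (KK D)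
    (fun p => Y p.1 p.2.1 p.2.2) (fun p => E p.1 p.2.1 p.2.2) (fun p => UU p.1 p.2.1 p.2.2)
    D.card (SL τ D / ((D.card : ℝ) + 1)) (card_pos.2 hD) hye hu
    (by rw [hZ]; exact hZpos) hquad
  have hL : ∑ p ∈ KK D, Y p.1 p.2.1 p.2.2 * Real.log (Y p.1 p.2.1 p.2.2 /
      (UU p.1 p.2.1 p.2.2 * Zt τ D)) = COST1 τ D := by
    rw [sum_KK D (fun b V o => Y b V o * Real.log (Y b V o / (UU b V o * Zt τ D)))]
    unfold COST1
    rw [CL1_eq τ D _ hD hA hZpos, CL1_eq (dual τ D) D _ hD hA' hZpos]
    rfl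
  have hQ : Zt τ D + (∑ p ∈ KK D, E p.1 p.2.1 p.2.2) / (D.card : ℝ) = S / ((D.card : ℝ) + 1) := by
    rw [← hsum, ← hZ, sum_add_distrib, sum_div]
  rw [hZ, hL, hQ, hEs, hYE] at key
  -- the slack term
  have hS1 : S ≤ (D.card : ℝ) + 1 := S_le τ D _ hA hB hπ
  have hEle : ∑ p ∈ KK D, E p.1 p.2.1 p.2.2 ≤ Zt τ D := by
    rw [← hZ]; exact sum_le_sum fun k hk => (hye k hk).2
  have hE0 : 0 ≤ ∑ p ∈ KK D, E p.1 p.2.1 p.2.2 := sum_nonneg fun k hk => (hye k hk).1
  have hSpos : 0 < S := by
    have h1 : 0 < S / ((D.card : ℝ) + 1) := by rw [← hQ]; positivity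
    have h2 := mul_pos h1 hl
    rwa [div_mul_cancel₀ _ hl.ne'] at h2
  have hZS : S * (D.card : ℝ) ≤ Zt τ D * ((D.card : ℝ) + 1) ^ 2 := by
    have h1 : S / ((D.card : ℝ) + 1) ≤ Zt τ D + Zt τ D / (D.card : ℝ) := by
      rw [← hQ]
      have := div_le_div_of_nonneg_right hEle hl0.le
      linarith
    have h2 : Zt τ D + Zt τ D / (D.card : ℝ) = Zt τ D * ((D.card : ℝ) + 1) / (D.card : ℝ) := by
      field_simp
    rw [h2, div_le_div_iff₀ hl hl0] at h1
    calc S * (D.card : ℝ) ≤ _ := h1
      _ = _ := by ring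
  have hsl := SL_nonneg (τ := τ) hA hD
  have hfin : (D.card : ℝ) / ((D.card : ℝ) + 1) * SL τ D ≤
      ((D.card : ℝ) + 1) * (Zt τ D * (SL τ D / ((D.card : ℝ) + 1)) /
        (S / ((D.card : ℝ) + 1)) ^ 2) := by
    have e1 : ((D.card : ℝ) + 1) * (Zt τ D * (SL τ D / ((D.card : ℝ) + 1)) /
        (S / ((D.card : ℝ) + 1)) ^ 2) = Zt τ D * ((D.card : ℝ) + 1) ^ 2 / S ^ 2 * SL τ D := by
      field_simp
    rw [e1]
    refine mul_le_mul_of_nonneg_right ?_ hsl
    rw [div_le_div_iff₀ hl (by positivity)]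
    have h3 : (D.card : ℝ) * S ^ 2 ≤ Zt τ D * ((D.card : ℝ) + 1) ^ 2 * S := by
      have := mul_le_mul_of_nonneg_right hZS hSpos.le
      nlinarith
    refine h3.trans ?_
    refine mul_le_mul_of_nonneg_left hS1 ?_
    positivity
  obtain ⟨k1, k2⟩ := key
  have k1' := mul_le_mul_of_nonneg_left k1 hl.le
  have k2' := mul_le_mul_of_nonneg_left k2 hl.le
  have e2 : ∀ t u v : ℝ, ((D.card : ℝ) + 1) * (t / ((D.card : ℝ) + 1) / (D.card : ℝ) ^ 2 - u) =
      t / (D.card : ℝ) ^ 2 - ((D.card : ℝ) + 1) * u := by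
    intro t u v
    rw [mul_sub]
    congr 1
    field_simp
  rw [e2 _ _ 0] at k1' k2'
  constructor <;> linarith

end C1

end R5

end

section

/-!
# The bound for `COST1` in path form
-/

namespace R5

namespace C1

open Finset T7 Two

variable {α : Type} [DecidableEq α]

theorem NE_NL (τ : Finset α → Lab) (D : Finset α) : NE τ D = NL τ D Lab.B := rfl

theorem NV_NL (τ : Finset α → Lab) (D : Finset α) : NV τ D = NL τ D Lab.X := rfl

/-- The bound with the vertex exits, with slack, in path form. -/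
theorem cost1_V {τ : Finset α → Lab} {D : Finset α} (h0 : τ ∅ = Lab.A) (hD : τ D = Lab.B) :
    ((D.card : ℝ) + 1) * COST1 τ D ≤ Av D (fun π =>
      (((kA τ π : ℝ) + 1) * (1 - iE τ π (kA τ π)) + ((D.card : ℝ) - kN τ π) * lx τ π) /
        (D.card : ℝ) ^ 2) - (D.card : ℝ) / ((D.card : ℝ) + 1) * SL τ D := by
  have hne : D.Nonempty := by
    by_contra h
    rw [not_nonempty_iff_eq_empty] at h
    subst h
    rw [h0] at hD
    exact absurd hD (by decide)
  have h1 := (cost1_bound τ D h0 hD hne).2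
  rw [NV_NL, NV_NL, NV_path h0 hD, NV_dual_path h0 hD, ← Av_add, ← Av_div] at h1
  exact h1

/-- The bound with the edge exits, with slack, in path form. -/
theorem cost1_E {τ : Finset α → Lab} {D : Finset α} (h0 : τ ∅ = Lab.A) (hD : τ D = Lab.B) :
    ((D.card : ℝ) + 1) * COST1 τ D ≤ Av D (fun π =>
      (((kA τ π : ℝ) + 1) * iE τ π (kA τ π) + ((D.card : ℝ) - kN τ π) * (1 - lx τ π)) /
        (D.card : ℝ) ^ 2) - (D.card : ℝ) / ((D.card : ℝ) + 1) * SL τ D := by
  have hne : D.Nonempty := by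
    by_contra h
    rw [not_nonempty_iff_eq_empty] at h
    subst h
    rw [h0] at hD
    exact absurd hD (by decide)
  have h1 := (cost1_bound τ D h0 hD hne).1
  rw [NE_NL, NE_NL, NE_path h0 hD, NE_dual_path h0 hD, ← Av_add, ← Av_div] at h1
  exact h1

end C1

end R5

end
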