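import Mathlib
import Pool.Agent.Work.MP_8b6acb_full.P20
import Pool.Agent.Work.MP_8b6acb_full.P22
import Pool.Agent.Work.MP_8b6acb_full.P23

section

/-!
# (S1+) in first exit form, for the set kernel (helper88)
-/

namespace R5

open Finset T7

variable {α : Type} [DecidableEq α]

section bridge

variable {σ : Finset α → Lab} {D W : Finset α} {π : List α}

/-- the smallest cost of a T-state for the set kernel -/
noncomputable def cstM (σ : Finset α → Lab) (ρ : α → ℝ) (V : Finset α) (π : List α) : ℝ :=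
  ∑ k ∈ range V.card,
    (iE σ π k * (∑ x ∈ nx π k, (-Real.log (ρ x)) +
      (k : ℝ) * Lf V.card (∑ x ∈ V \ pre π k, ρ x)) +
     iX σ π k * (((k : ℝ) + 1) * Lf V.card (∑ x ∈ V \ pre π (k + 1), ρ x)))

theorem sdiff_sdiff_sdiff_eq {D W P : Finset α} (hW : W ⊆ D) :
    (D \ P) \ (D \ W) = W \ P := by
  ext y
  simp only [mem_sdiff, not_and, not_not]
  constructor
  · rintro ⟨⟨h1, h2⟩, h3⟩
    exact ⟨h3 h1, h2⟩
  · rintro ⟨h1, h2⟩
    exact ⟨⟨hW h1, h2⟩, fun _ => h1⟩

theorem phiM_rev (hW : W ⊆ D) (hπ : π ∈ seqs W.card W) (ρ : α → ℝ) :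
    psum (phiM (dual σ D) ρ (W.card : ℝ) (D \ W)) (D \ W) π.reverse = cstM σ ρ W π := by
  unfold cstM
  rw [bridge hW hπ]
  refine sum_congr rfl fun k hk => ?_
  rw [mem_range, ← length_of_mem hπ] at hk
  rw [Th_take _ D hk]
  obtain ⟨h1, h2, h3, h4⟩ := path_facts (σ := σ) hW hπ hk
  have hnd := (mem_seqs_card.1 hπ).1
  have hkl : (π.take k).reverse.length = k := by
    rw [List.length_reverse, List.length_take]
    omega
  unfold phiM Lf
  rw [h3, h4, nx_eq hnd hk, sum_singleton, hkl, sdiff_sdiff_sdiff_eq hW, sdiff_sdiff_sdiff_eq hW]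
  have h5 := isE_rev (σ := σ) hW hπ hk
  congr 1
  · by_cases hE : exE σ π k
    · rw [iE_pos hE, if_pos (h5.2 ⟨hE.2, hE.1 k (by simp)⟩), iA_pos hE.1]
    · rw [iE_neg hE, zero_mul]
      by_cases h6 : isE (dual σ D) (D \ pre π (k + 1)) π[k]
      · rw [if_pos h6, iA_neg fun h => hE ⟨h, (h5.1 h6).1⟩, zero_mul]
      · rw [if_neg h6]
  · have h7 : dual σ D (D \ pre π (k + 1)) = Lab.X ↔ σ (pre π (k + 1)) = Lab.X := by
      rw [dual_sdiff σ h1, flip_eq_X]
    by_cases hE : exX σ π k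
    · rw [iX_pos hE, if_pos (h7.2 hE.2), iA_pos hE.1]
    · rw [iX_neg hE, zero_mul]
      by_cases h6 : dual σ D (D \ pre π (k + 1)) = Lab.X
      · rw [if_pos h6, iA_neg fun h => hE ⟨h, h7.1 h6⟩, zero_mul]
      · rw [if_neg h6]

theorem sI_rev (hW : W ⊆ D) (hπ : π ∈ seqs W.card W) :
    sI (dual σ D) (D \ W) π.reverse = ∑ k ∈ range W.card, iE σ π k * (k : ℝ) := by
  unfold sI
  rw [bridge hW hπ]
  refine sum_congr rfl fun k hk => ?_
  rw [mem_range, ← length_of_mem hπ] at hk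
  rw [Th_take _ D hk]
  obtain ⟨h1, h2, h3, h4⟩ := path_facts (σ := σ) hW hπ hk
  have hkl : (π.take k).reverse.length = k := by
    rw [List.length_reverse, List.length_take]
    omega
  rw [h3, h4, hkl]
  have h5 := isE_rev (σ := σ) hW hπ hk
  by_cases hE : exE σ π k
  · rw [iE_pos hE, if_pos (h5.2 ⟨hE.2, hE.1 k (by simp)⟩), iA_pos hE.1]
  · rw [iE_neg hE, zero_mul]
    by_cases h6 : isE (dual σ D) (D \ pre π (k + 1)) π[k]
    · rw [if_pos h6, iA_neg fun h => hE ⟨h, (h5.1 h6).1⟩, zero_mul]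
    · rw [if_neg h6]

theorem fS_rev (hW : W ⊆ D) (hπ : π ∈ seqs W.card W) (hne : W.Nonempty) :
    fS (dual σ D) (D \ W) π.reverse = if σ (pre π (W.card - 1)) = Lab.A then 1 else 0 := by
  have hc : 1 ≤ W.card := card_pos.2 hne
  have h1 : pre π.reverse 1 = W \ pre π (W.card - 1) := pre_reverse hπ hc
  have hP : pre π (W.card - 1) ⊆ W := pre_subset_of_mem hπ _
  have h2 : (D \ W) ∪ (π.reverse.take 1).toFinset = D \ pre π (W.card - 1) := by
    show (D \ W) ∪ pre π.reverse 1 = _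
    rw [h1]
    ext y
    simp only [mem_union, mem_sdiff]
    constructor
    · rintro (⟨h3, h4⟩ | ⟨h3, h4⟩)
      · exact ⟨h3, fun h => h4 (hP h)⟩
      · exact ⟨hW h3, h4⟩
    · rintro ⟨h3, h4⟩
      by_cases hy : y ∈ W
      · exact Or.inr ⟨hy, h4⟩
      · exact Or.inl ⟨h3, hy⟩
  unfold fS
  rw [h2, dual_sdiff σ (hP.trans hW)]
  exact if_congr flip_eq_B rfl rfl

end bridge

/-- The smallest cost is a lower bound. -/
theorem cstM_le_cstK (σ : Finset α → Lab) (ρ : α → ℝ) (V : Finset α) (π : List α) :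
    cstM σ ρ V π ≤ K.cstK σ ρ V π := by
  unfold cstM K.cstK
  refine sum_le_sum fun k _ => ?_
  have h1 : 0 ≤ -Real.log (fw σ (pre π k)) := by
    have := Real.log_nonpos (fw_nonneg σ (pre π k)) (fw_le_one σ (pre π k))
    linarith
  have h2 : 0 ≤ -Real.log (fwb σ (pre π (k + 1))) := by
    have := Real.log_nonpos (fwb_nonneg σ (pre π (k + 1))) (fwb_le_one σ (pre π (k + 1)))
    linarith
  have h3 := iE_nonneg σ π k
  have h4 : 0 ≤ iX σ π k := by
    unfold iX
    split_ifs <;> norm_num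
  have h5 := mul_nonneg h3 h1
  have h6 := mul_nonneg h4 h2
  nlinarith

/-- The bound of (S1+) for the T-state `W` of `σ`. -/
noncomputable def lwP (σ : Finset α → Lab) (D : Finset α) (mk : Finset α → Finset α)
    (W : Finset α) (π : List α) : ℝ :=
  K.gnK σ D mk W.card π +
  (∑ k ∈ range W.card, iE σ π k) * (Real.log (W.card : ℝ) - Real.log (D.card : ℝ) +
    lamn W.card * ((W.card : ℝ) - 1 - kN σ π)) +
  lamn W.card * ((if σ (pre π (W.card - 1)) = Lab.A then 1 else 0) *
    ∑ k ∈ range W.card, iE σ π k * (k : ℝ))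

/-- (S1+) in first exit form. -/
theorem S1_T (σ : Finset α → Lab) (D : Finset α) (ρ : Finset α → α → ℝ)
    (mk : Finset α → Finset α) (h0 : σ ∅ = Lab.A) (hJ : ∀ x ∈ D, σ {x} ≠ Lab.B)
    (W : Finset α) (hW : W ⊆ D) (hne : W.Nonempty)
    (hB : σ W = Lab.B) (hρ : ∀ x ∈ W, 0 < ρ (D \ W) x ∧ ρ (D \ W) x ≤ 1) :
    Av W (lwP σ D mk W) ≤
      Av W (fun π => K.TSx σ D ρ (K.cset ρ mk D) W π -
        Real.log (D.card : ℝ) * ∑ k ∈ range W.card, iE σ π k) := by
  have hDD : D \ (D \ W) = W := Finset.sdiff_sdiff_eq_self hW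
  have hA : dual σ D (D \ W) = Lab.A := by rw [dual_sdiff σ hW, flip_eq_A]; exact hB
  have hD : dual σ D D = Lab.B := by
    rw [dual_flip, sdiff_self, bot_eq_empty, flip_eq_B]; exact h0
  have h0' : σ ∅ ≠ Lab.B := by rw [h0]; decide
  have hJ' : ∀ x ∈ D \ (D \ W), dual σ D (D.erase x) ≠ Lab.A := by
    rw [hDD]
    intro x hx
    rw [dual_flip, ne_eq, flip_eq_A]
    have : D \ D.erase x = {x} := by
      ext z
      simp only [mem_sdiff, mem_erase, mem_singleton]
      constructor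
      · rintro ⟨h1, h2⟩
        by_contra h3
        exact h2 ⟨h3, h1⟩
      · rintro rfl
        exact ⟨hW hx, fun h => h.1 rfl⟩
    rw [this]
    exact hJ x (hW hx)
  have e1 := S1p (dual σ D) D (D \ W) sdiff_subset hA hD hJ'
    (ρ (D \ W)) (by rw [hDD]; exact fun x hx => (hρ x hx).1)
    (by rw [hDD]; exact fun x hx => (hρ x hx).2) W.card (by rw [hDD])
  rw [hDD] at e1
  rw [← Eo_reverse W (fun π => leI _ _ _ * _), ← Eo_reverse W (fun π => fS _ _ _ * _),
    ← Eo_reverse W (psum _ _)] at e1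
  have t1 : Eo W (fun π => leI (dual σ D) (D \ W) π.reverse *
      (arun (dual σ D) (D \ W) π.reverse : ℝ)) = Eo W (fun π =>
      (∑ k ∈ range W.card, iE σ π k) * ((W.card : ℝ) - 1 - kN σ π)) := Eo_congr fun π hπ => by
    have hm := mem_seqs_card.1 hπ
    have h1 := arun_rev σ D h0' π hm.1 (fun x hx => hW (by
      rw [← hm.2]; exact List.mem_toFinset.2 hx)) (by rw [hm.2]; exact hB)
    rw [hm.2, length_of_mem hπ] at h1
    have h2 : (arun (dual σ D) (D \ W) π.reverse : ℝ) = (W.card : ℝ) - 1 - kN σ π := by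
      have : (arun (dual σ D) (D \ W) π.reverse : ℝ) + 1 + (kN σ π : ℝ) = (W.card : ℝ) := by
        exact_mod_cast h1
      linarith
    rw [leI_rev hW hπ, h2]
  have t2 : Eo W (fun π => fS (dual σ D) (D \ W) π.reverse * sI (dual σ D) (D \ W) π.reverse) =
      Eo W (fun π => (if σ (pre π (W.card - 1)) = Lab.A then 1 else 0) *
        ∑ k ∈ range W.card, iE σ π k * (k : ℝ)) := Eo_congr fun π hπ => by
    rw [fS_rev hW hπ hne, sI_rev hW hπ]
  have t3 : Eo W (fun π => psum (phiM (dual σ D) (ρ (D \ W)) (W.card : ℝ) (D \ W)) (D \ W)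
      π.reverse) = Eo W (cstM σ (ρ (D \ W)) W) := Eo_congr fun π hπ => phiM_rev hW hπ _
  rw [t1, t2, t3] at e1
  have e2 : Eo W (cstM σ (ρ (D \ W)) W) ≤ Eo W (K.cstK σ (ρ (D \ W)) W) :=
    Eo_mono fun π _ => cstM_le_cstK _ _ _ _
  have r1 : Av W (lwP σ D mk W) = Eo W (K.gnK σ D mk W.card) +
      (Real.log (W.card : ℝ) - Real.log (D.card : ℝ)) *
        Eo W (fun π => ∑ k ∈ range W.card, iE σ π k) +
      lamn W.card * (Eo W (fun π =>
        (∑ k ∈ range W.card, iE σ π k) * ((W.card : ℝ) - 1 - kN σ π)) +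
        Eo W (fun π => (if σ (pre π (W.card - 1)) = Lab.A then 1 else 0) *
        ∑ k ∈ range W.card, iE σ π k * (k : ℝ))) := by
    rw [← Eo_mul, ← Eo_add, ← Eo_add, ← Eo_mul, ← Eo_add]
    refine Eo_congr fun π _ => ?_
    unfold lwP
    ring
  have r2 : Av W (fun π => K.TSx σ D ρ (K.cset ρ mk D) W π -
      Real.log (D.card : ℝ) * ∑ k ∈ range W.card, iE σ π k) =
      Eo W (K.gnK σ D mk W.card) +
      (Real.log (W.card : ℝ) - Real.log (D.card : ℝ)) *
        Eo W (fun π => ∑ k ∈ range W.card, iE σ π k) + Eo W (K.cstK σ (ρ (D \ W)) W) := by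
    rw [← Eo_mul, ← Eo_add, ← Eo_add]
    refine Eo_congr fun π hπ => ?_
    rw [K.TSx_cset σ ρ mk hW hπ]
    ring
  rw [r1, r2]
  linarith

end R5

end

section

/-!
# (S1+) summed over the levels (helper88)
-/

namespace R5

namespace K

open Finset T7

variable {α : Type} [DecidableEq α]

section path

variable {σ : Finset α → Lab} {D : Finset α} {π : List α}

/-- truncation does not change the last level before the final run -/
theorem kN_take (h0 : σ ∅ = Lab.A) (hD : σ D = Lab.B) (hπ : π ∈ seqs D.card D) {j : ℕ}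
    (hj : kN σ π < j) (hjl : j ≤ D.card) : kN σ (π.take j) = kN σ π := by
  have h0' : σ ∅ ≠ Lab.B := by rw [h0]; decide
  have hl := length_of_mem hπ
  have hlt : (π.take j).length = j := by rw [List.length_take]; omega
  have hT := take_mem hπ j
  have hBj : σ (pre π j) = Lab.B := by
    have := (allB_iff h0' hD hπ j).2 hj
    exact this j (by rw [mem_Icc]; omega)
  have key : ∀ i ≤ j, (kN σ (π.take j) < i ↔ kN σ π < i) := by
    intro i hi
    rw [← allB_iff h0' hBj hT i, ← allB_iff h0' hD hπ i]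
    unfold allB
    rw [hlt, hl]
    constructor
    · intro h k hk
      rw [mem_Icc] at hk
      by_cases hkj : k ≤ j
      · have := h k (by rw [mem_Icc]; omega)
        rwa [pre_take hkj] at this
      · have := (allB_iff h0' hD hπ j).2 hj
        exact this k (by rw [mem_Icc]; omega)
    · intro h k hk
      rw [mem_Icc] at hk
      rw [pre_take hk.2]
      exact h k (by rw [mem_Icc]; omega)
  have h1 : kN σ (π.take j) < j := (key j le_rfl).2 hj
  have h2 := key (kN σ π) hj.le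
  have h3 := key (kN σ (π.take j)) h1.le
  omega

/-- the bound of (S1+) on a path -/
theorem lwP_eval (mk : Finset α → Finset α) (h0 : σ ∅ = Lab.A) (hD : σ D = Lab.B)
    (hπ : π ∈ seqs D.card D) :
    gT σ D mk π + lamn (kN σ π + 1) * ((if σ (pre π (kN σ π)) = Lab.A then 1 else 0) *
      (iE σ π (kA σ π) * (kA σ π : ℝ))) ≤
    ∑ j ∈ Ioc (kN σ π) D.card, lwP σ D mk (pre π j) (π.take j) := by
  have hD' : σ D ≠ Lab.A := by rw [hD]; decide
  have h0' : σ ∅ ≠ Lab.B := by rw [h0]; decide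
  have hAN := kA_le_kN h0 hD hπ
  have hNl := kN_lt h0' hD hπ
  have hg : gT σ D mk π = ((D.card : ℝ) - kN σ π) *
      (iE σ π (kA σ π) * gm mk D (D \ pre π (kA σ π)) +
        iX σ π (kA σ π) * gm mk D (D \ pre π (kA σ π + 1))) := by
    obtain ⟨e1, e2⟩ := exit_kA h0 hD' hπ
    unfold gT
    rw [e1, e2]
    split_ifs <;> ring
  have h1 : ∀ j ∈ Ioc (kN σ π) D.card, lwP σ D mk (pre π j) (π.take j) =
      (iE σ π (kA σ π) * gm mk D (D \ pre π (kA σ π)) +
        iX σ π (kA σ π) * gm mk D (D \ pre π (kA σ π + 1))) +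
      iE σ π (kA σ π) * ((Real.log (j : ℝ) - Real.log (D.card : ℝ)) +
        lamn j * ((j : ℝ) - 1 - kN σ π)) +
      lamn j * ((if σ (pre π (j - 1)) = Lab.A then 1 else 0) *
        (iE σ π (kA σ π) * (kA σ π : ℝ))) := by
    intro j hj
    rw [mem_Ioc] at hj
    have hc : (pre π j).card = j := card_pre_of_mem hπ hj.2
    have hkj : kA σ π < j := by omega
    have e0 : ∀ f : ℕ → ℝ, ∑ k ∈ range j, iE σ (π.take j) k * f k =
        iE σ π (kA σ π) * f (kA σ π) := by
      intro f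
      rw [← sum_iE h0 hD' hπ hkj f]
      refine sum_congr rfl fun k hk => ?_
      rw [mem_range] at hk
      congr 1
      apply iE_congr
      unfold exE
      rw [allA_take hk.le, pre_take hk]
    have e1 : ∑ k ∈ range j, iE σ (π.take j) k = iE σ π (kA σ π) := by
      have := e0 (fun _ => 1)
      simpa using this
    unfold lwP
    rw [hc, gnK_take σ D mk h0 hD' hπ hkj, e1, e0 (fun k => (k : ℝ)),
      kN_take h0 hD hπ hj.1 hj.2, pre_take (Nat.sub_le j 1)]
  rw [sum_congr rfl h1, sum_add_distrib, sum_add_distrib, sum_const, Nat.card_Ioc, nsmul_eq_mul,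
    Nat.cast_sub hNl.le, ← mul_sum, sum_add_distrib, sum_log_Ioc hNl.le, hg]
  have h2 : ∑ j ∈ Ioc (kN σ π) D.card, lamn j * ((j : ℝ) - 1 - (kN σ π : ℕ)) =
      ∑ j ∈ Ioc (kN σ π) D.card, lamn j * ((j : ℝ) - 1 - kN σ π) := rfl
  have h3 : lamn (kN σ π + 1) * ((if σ (pre π (kN σ π)) = Lab.A then 1 else 0) *
      (iE σ π (kA σ π) * (kA σ π : ℝ))) ≤ ∑ j ∈ Ioc (kN σ π) D.card,
      lamn j * ((if σ (pre π (j - 1)) = Lab.A then 1 else 0) *
        (iE σ π (kA σ π) * (kA σ π : ℝ))) := by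
    refine le_trans (le_of_eq ?_) (single_le_sum (f := fun j => lamn j *
      ((if σ (pre π (j - 1)) = Lab.A then 1 else 0) * (iE σ π (kA σ π) * (kA σ π : ℝ)))) ?_
      (mem_Ioc.2 ⟨Nat.lt_succ_self _, hNl⟩))
    · simp only [Nat.succ_eq_add_one, Nat.add_sub_cancel]
    · intro j _
      refine mul_nonneg (lamn_nonneg' j) (mul_nonneg (by split_ifs <;> norm_num) ?_)
      exact mul_nonneg (iE_nonneg _ _ _) (Nat.cast_nonneg _)
  rw [neg_add_cancel, mul_zero, add_zero]
  linarith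

end path

/-- **the T side** with (S1+), no light elements -/
theorem S1_sideT (σ : Finset α → Lab) (D : Finset α) (ρ : Finset α → α → ℝ)
    (mk : Finset α → Finset α) (h0 : σ ∅ = Lab.A) (hD : σ D = Lab.B)
    (hJ : ∀ x ∈ D, σ {x} ≠ Lab.B) (hρ : ∀ X ⊆ D, ∀ g ∈ D \ X, 0 < ρ X g ∧ ρ X g ≤ 1) :
    Av D (fun π => gT σ D mk π + lamn (kN σ π + 1) *
      ((if σ (pre π (kN σ π)) = Lab.A then 1 else 0) * (iE σ π (kA σ π) * (kA σ π : ℝ)))) ≤
    ((D.card : ℝ) + 1) * (SGs (dual σ D) D ρ mk - Real.log (D.card : ℝ) * PEL (dual σ D) D) := by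
  refine le_trans (Av_mono fun π hπ => lwP_eval mk h0 hD hπ) ?_
  refine side_total_K σ D ρ (cset ρ mk D) h0 hD (lwP σ D mk) ?_
  intro W hW hne hB
  refine S1_T σ D ρ mk h0 hJ W hW hne hB fun x hx => ?_
  exact hρ (D \ W) sdiff_subset x (by rw [Finset.sdiff_sdiff_eq_self hW]; exact hx)

/-- **the S side** with (S1+), no element `x` with `τ (D - x) = A` -/
theorem S1_side' (τ : Finset α → Lab) (D : Finset α) (ρ : Finset α → α → ℝ)
    (mk : Finset α → Finset α) (h0 : τ ∅ = Lab.A) (hD : τ D = Lab.B)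
    (hJ : ∀ x ∈ D, τ (D.erase x) ≠ Lab.A)
    (hρ : ∀ X ⊆ D, ∀ g ∈ D \ X, 0 < ρ X g ∧ ρ X g ≤ 1) :
    Av D (fun π => gS0 τ D mk π + lamn (D.card - kA τ π) *
      (iE τ π (kA τ π) * ((1 - Two.lx τ π) * ((D.card : ℝ) - kN τ π - 1)))) ≤
    ((D.card : ℝ) + 1) * (SGs τ D ρ mk - Real.log (D.card : ℝ) * PEL τ D) := by
  have hD' : τ D ≠ Lab.A := by rw [hD]; decide
  have h0' : τ ∅ ≠ Lab.B := by rw [h0]; decide
  have d0 : dual τ D ∅ = Lab.A := by rw [dual_flip, sdiff_empty, hD]; rfl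
  have dD : dual τ D D = Lab.B := by rw [dual_flip, sdiff_self, bot_eq_empty, h0]; rfl
  have hJd : ∀ x ∈ D, dual τ D {x} ≠ Lab.B := by
    intro x hx
    rw [dual_flip, ne_eq, flip_eq_B, sdiff_singleton_eq_erase]
    exact hJ x hx
  have h1 := S1_sideT (dual τ D) D ρ mk d0 dD hJd hρ
  rw [PEL_dual_dual] at h1
  unfold SGs at h1 ⊢
  rw [SGx_dual_dual] at h1
  refine le_trans (le_of_eq ?_) h1
  rw [← Av_reverse D (fun π => gT (dual τ D) D mk π + _)]
  refine Av_congr fun π hπ => ?_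
  have hAN := kA_le_kN h0 hD hπ
  have hNl := kN_lt h0' hD hπ
  congr 1
  · unfold gS0 gT
    rw [kA_dual h0 hD hπ, kN_dual h0 hD hπ, pre_reverse hπ (by omega), pre_reverse hπ (by omega)]
    have e1 : D.card - (D.card - 1 - kN τ π) = kN τ π + 1 := by omega
    have e2 : D.card - (D.card - 1 - kN τ π + 1) = kN τ π := by omega
    rw [e1, e2, dual_flip, Finset.sdiff_sdiff_eq_self (pre_subset_of_mem hπ _),
      Finset.sdiff_sdiff_eq_self (pre_subset_of_mem hπ _)]
    have e3 : (D.card : ℝ) - ((D.card - 1 - kA τ π : ℕ) : ℝ) = (kA τ π : ℝ) + 1 := by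
      have e : (D.card - 1 - kA τ π) + (kA τ π + 1) = D.card := by omega
      have e' : ((D.card - 1 - kA τ π : ℕ) : ℝ) + ((kA τ π : ℝ) + 1) = D.card := by
        exact_mod_cast e
      linarith
    rw [e3, if_congr (flip_eq_B) rfl rfl]
  · rw [Two.iE_dual h0 hD hπ, kN_dual h0 hD hπ, kA_dual h0 hD hπ, pre_reverse hπ (by omega)]
    have e1 : D.card - (D.card - 1 - kA τ π) = kA τ π + 1 := by omega
    have e2 : D.card - 1 - kA τ π + 1 = D.card - kA τ π := by omega
    have e3 : ((D.card - 1 - kN τ π : ℕ) : ℝ) = (D.card : ℝ) - kN τ π - 1 := by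
      have e : (D.card - 1 - kN τ π) + (kN τ π + 1) = D.card := by omega
      have e' : ((D.card - 1 - kN τ π : ℕ) : ℝ) + ((kN τ π : ℝ) + 1) = D.card := by
        exact_mod_cast e
      linarith
    have e4 : (if dual τ D (D \ pre π (kA τ π + 1)) = Lab.A then (1 : ℝ) else 0) =
        iE τ π (kA τ π) := by
      rw [dual_flip, Finset.sdiff_sdiff_eq_self (pre_subset_of_mem hπ _),
        (exit_kA h0 hD' hπ).1]
      exact if_congr flip_eq_A rfl rfl
    rw [e1, e2, e3, e4]

/-- **(S)**: the S side, form with the live light exits -/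
theorem S1_side (τ : Finset α → Lab) (D : Finset α) (ρ : Finset α → α → ℝ)
    (mk : Finset α → Finset α) (h0 : τ ∅ = Lab.A) (hD : τ D = Lab.B)
    (hJ : ∀ x ∈ D, τ (D.erase x) ≠ Lab.A)
    (hρ : ∀ X ⊆ D, ∀ g ∈ D \ X, 0 < ρ X g ∧ ρ X g ≤ 1) :
    Av D (fun π => gS0 τ D mk π + lamn (D.card - kA τ π) * ((D.card : ℝ) - kN τ π - 1) *
      Two.lv τ D π * (1 - Two.lx τ π)) ≤
    ((D.card : ℝ) + 1) * (SGs τ D ρ mk - Real.log (D.card : ℝ) * PEL τ D) := by
  refine le_trans (Av_mono fun π hπ => ?_) (S1_side' τ D ρ mk h0 hD hJ hρ)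
  have h0' : τ ∅ ≠ Lab.B := by rw [h0]; decide
  have hNl := kN_lt h0' hD hπ
  have h1 := Two.iE_eq h0 hD hπ
  have h2 := Two.nl_nonneg τ D π
  have h3 : 0 ≤ 1 - Two.lx τ π := by
    unfold Two.lx
    split_ifs <;> norm_num
  have h4 : 0 ≤ (D.card : ℝ) - kN τ π - 1 := by
    have : (kN τ π : ℝ) + 1 ≤ D.card := by exact_mod_cast hNl
    linarith
  have h5 := lamn_nonneg' (D.card - kA τ π)
  have h6 : Two.lv τ D π ≤ iE τ π (kA τ π) := by linarith
  have h7 := mul_le_mul_of_nonneg_right h6 (mul_nonneg (mul_nonneg h5 h3) h4)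
  nlinarith [h7]

/-- **(S)** with `lamn l` -/
theorem S1_side_l (τ : Finset α → Lab) (D : Finset α) (ρ : Finset α → α → ℝ)
    (mk : Finset α → Finset α) (h0 : τ ∅ = Lab.A) (hD : τ D = Lab.B)
    (hJ : ∀ x ∈ D, τ (D.erase x) ≠ Lab.A)
    (hρ : ∀ X ⊆ D, ∀ g ∈ D \ X, 0 < ρ X g ∧ ρ X g ≤ 1) :
    Av D (fun π => gS0 τ D mk π + lamn D.card * (((D.card : ℝ) - kN τ π - 1) *
      Two.lv τ D π * (1 - Two.lx τ π))) ≤
    ((D.card : ℝ) + 1) * (SGs τ D ρ mk - Real.log (D.card : ℝ) * PEL τ D) := by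
  refine le_trans (Av_mono fun π hπ => ?_) (S1_side τ D ρ mk h0 hD hJ hρ)
  have h0' : τ ∅ ≠ Lab.B := by rw [h0]; decide
  have hNl := kN_lt h0' hD hπ
  have hAN := kA_le_kN h0 hD hπ
  have h2 := Two.lv_nonneg τ D π
  have h3 : 0 ≤ 1 - Two.lx τ π := by
    unfold Two.lx
    split_ifs <;> norm_num
  have h4 : 0 ≤ (D.card : ℝ) - kN τ π - 1 := by
    have : (kN τ π : ℝ) + 1 ≤ D.card := by exact_mod_cast hNl
    linarith
  by_cases h5 : kN τ π + 1 = D.card
  · have h6 : (D.card : ℝ) - kN τ π - 1 = 0 := by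
      have : (kN τ π : ℝ) + 1 = D.card := by exact_mod_cast h5
      linarith
    rw [h6]
    simp
  · have h7 : lamn D.card ≤ lamn (D.card - kA τ π) := by
      unfold lamn
      have a1 : 2 ≤ D.card - kA τ π := by omega
      have a2 : (2 : ℝ) ≤ ((D.card - kA τ π : ℕ) : ℝ) := by exact_mod_cast a1
      have a3 : ((D.card - kA τ π : ℕ) : ℝ) ≤ (D.card : ℝ) := by
        exact_mod_cast Nat.sub_le _ _
      apply Real.log_le_log
      · apply div_pos <;> linarith
      · rw [div_le_div_iff₀ (by linarith) (by linarith)]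
        nlinarith
    have h8 := mul_le_mul_of_nonneg_right h7 (mul_nonneg (mul_nonneg h4 h2) h3)
    nlinarith [h8]

end K

end R5

end

section

/-!
# The level lemma with the exact vertex form (helper25)

`v1` is the level value with the exact form `p (l - K - o) + o` on the paths whose `V_K` is a
vertex (for the case without lights at the top).
-/

namespace R5

namespace Two

open Finset T7

variable {α : Type} [DecidableEq α]

/-- the value of a level, exact form on the paths with a vertex at `V_K` -/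
noncomputable def v1 (τ : Finset α → Lab) (D : Finset α) (π : List α) (i : ℕ) : ℝ :=
  if τ (pre π (kN τ π)) = Lab.A then (if an τ D π i = 0 then 0 else 1) else
    (pn τ π i : ℝ) * (((D.card : ℝ) - kN τ π) - on τ D π i) + on τ D π i

theorem v1_le {τ : Finset α → Lab} {D : Finset α} {π : List α}
    (h : τ (pre π (kN τ π)) = Lab.A) (i : ℕ) : v1 τ D π i = vv τ D π i := by
  unfold v1 vv
  rw [if_pos h, if_pos h]

theorem v1_lv {τ : Finset α → Lab} {D : Finset α} {π : List α}
    (h : τ (pre π (kN τ π)) ≠ Lab.A) (i : ℕ) :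
    v1 τ D π i = (pn τ π i : ℝ) * (((D.card : ℝ) - kN τ π) - on τ D π i) + on τ D π i := by
  unfold v1
  rw [if_neg h]

/-- the level lemma on the paths with a vertex at `V_K`, exact form -/
theorem level_lv {τ : Finset α → Lab} {D : Finset α} (h0 : τ ∅ = Lab.A) (hD : τ D = Lab.B)
    (L : Finset α) (hL : ∀ x ∈ D, (x ∈ L ↔ τ {x} = Lab.B)) (hLl : L.card ≤ D.card)
    {π : List α} (hπ : π ∈ seqs D.card D) (i : ℕ) (hle : τ (pre π (kN τ π)) ≠ Lab.A) :
    (pn τ π i : ℝ) * (((D.card : ℝ) - kN τ π) - on τ D π i) * lamn D.card ≤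
      (pn τ π i : ℝ) * Lam (kN τ π) D.card - gg D.card (an τ D π i) +
        gg (kN τ π) (pn τ π i) + gL τ D L π := by
  have h0' : τ ∅ ≠ Lab.B := by rw [h0]; decide
  have hN := kN_lt h0' hD hπ
  have h1 := pn_le_kN h0 hD hπ i
  have h2 := pn_le_an (τ := τ) hπ i
  have h3 := out_le h0 hD hπ i
  have h5 := rs_eq h1 hN.le
  set l := D.card with hl
  set K := kN τ π with hK
  set p := pn τ π i with hp
  set o := an τ D π i - pn τ π i with ho
  have e1 : an τ D π i = o + p := by omega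
  have e2 : on τ D π i = (o : ℝ) := by
    rw [ho, Nat.cast_sub h2]
    rfl
  have hUD := U0_subset (τ := τ) hπ
  set b := L.card with hb
  set J := (L ∩ D).card with hJd
  set pN := (L ∩ U0 τ π).card with hpN
  have eb : (L \ U0 τ π).card = b - pN := by
    have := card_sdiff_add_card_inter L (U0 τ π)
    omega
  have eJ : ((L \ U0 τ π) ∩ (D \ U0 τ π)).card = J - pN := by
    have e : (L \ U0 τ π) ∩ (D \ U0 τ π) = (L ∩ D) \ U0 τ π := by
      ext x
      simp only [mem_inter, mem_sdiff]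
      tauto
    rw [e]
    have h := card_sdiff_add_card_inter (L ∩ D) (U0 τ π)
    have e' : (L ∩ D) ∩ U0 τ π = L ∩ U0 τ π := by
      ext x
      simp only [mem_inter]
      constructor
      · rintro ⟨⟨h1, _⟩, h2⟩
        exact ⟨h1, h2⟩
      · rintro ⟨h1, h2⟩
        exact ⟨⟨h1, hUD h2⟩, h2⟩
    rw [e'] at h
    omega
  have eg : gL τ D L π = gg (b - pN) (J - pN) := by
    unfold gL
    rw [eb, eJ]
  have hJb : J ≤ b := card_le_card inter_subset_left
  have hAL : AL τ D (pre π i) ⊆ L ∩ D := by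
    intro x hx
    unfold AL at hx
    rw [mem_filter, mem_sdiff] at hx
    rw [mem_inter]
    exact ⟨(hL x hx.1.1).2 hx.2.1, hx.1.1⟩
  have hpin : (pre π K \ pre π i) ∩ AL τ D (pre π i) ⊆ L ∩ pre π K := by
    intro x hx
    rw [mem_inter, mem_sdiff] at hx
    rw [mem_inter]
    exact ⟨(mem_inter.1 (hAL hx.2)).1, hx.1.1⟩
  have hpe : p = ((pre π K \ pre π i) ∩ AL τ D (pre π i)).card := pn_eq hπ i
  have hoe : o = ((D \ pre π K) ∩ AL τ D (pre π i)).card := out_card hπ i
  have hU : U0 τ π = pre π K := by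
    unfold U0
    rw [if_neg hle]
  have hpp : p ≤ pN := by
    rw [hpe]
    apply card_le_card
    rw [hU]
    exact hpin
  have hoo : o + pN ≤ J := by
    have hdis : Disjoint ((D \ pre π K) ∩ AL τ D (pre π i)) (L ∩ U0 τ π) := by
      rw [disjoint_left]
      intro x hx hx'
      rw [mem_inter, mem_sdiff] at hx
      rw [mem_inter, hU] at hx'
      exact hx.1.2 hx'.2
    have hsub : ((D \ pre π K) ∩ AL τ D (pre π i)) ∪ (L ∩ U0 τ π) ⊆ L ∩ D := by
      intro x hx
      rw [mem_union] at hx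
      rcases hx with hx | hx
      · exact hAL (mem_inter.1 hx).2
      · rw [mem_inter] at hx ⊢
        exact ⟨hx.1, hUD hx.2⟩
    have h7 := card_le_card hsub
    rw [card_union_of_disjoint hdis, ← hoe] at h7
    exact h7
  have h8 := Lev.level_dead_lin (l := l) (K := K) (o := o) (p := p) (b := b) (J := J)
    (pN := pN) (h := l - K - o) (by omega) h1 hpp hoo hJb hLl
  rw [← lamn_def] at h8
  have hh : ((l - K - o : ℕ) : ℝ) = (l : ℝ) - K - o := by
    rw [Nat.cast_sub (by omega), Nat.cast_sub (by omega)]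
  rw [hh] at h8
  rw [e1, e2, eg]
  linarith

/-- **the level lemma**, exact vertex form -/
theorem hW1 {τ : Finset α → Lab} {D : Finset α} (h0 : τ ∅ = Lab.A) (hD : τ D = Lab.B)
    (L : Finset α) (hL : ∀ x ∈ D, (x ∈ L ↔ τ {x} = Lab.B)) (hLl : L.card ≤ D.card) :
    ∀ π ∈ seqs D.card D, ∀ i ≤ kA τ π, (v1 τ D π i - on τ D π i) * lamn D.card ≤
      (pn τ π i : ℝ) * Lam (kN τ π) D.card - gg D.card (an τ D π i) +
        gg (kN τ π) (pn τ π i) + gL τ D L π := by
  intro π hπ i hi
  by_cases hle : τ (pre π (kN τ π)) = Lab.A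
  · rw [v1_le hle]
    exact hW_gain h0 hD L hL hLl π hπ i hi
  · rw [v1_lv hle]
    have h := level_lv h0 hD L hL hLl hπ i hle
    refine le_trans (le_of_eq ?_) h
    ring

/-- **one side**, exact vertex form: the charges and gains against the path bound `LB` -/
theorem one_side_v1 {τ : Finset α → Lab} {D : Finset α} (h0 : τ ∅ = Lab.A) (hD : τ D = Lab.B)
    (L : Finset α) (hL : ∀ x ∈ D, (x ∈ L ↔ τ {x} = Lab.B)) (hLl : L.card ≤ D.card) :
    lamn D.card * Av D (LB τ D (v1 τ D)) ≤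
      Av D (lowT0 τ D) + Av D (fun π => ((kA τ π : ℝ) + 1) * gL τ D L π) := by
  have h1 := one_side h0 hD (gL τ D L) (v1 τ D) (hW1 h0 hD L hL hLl)
  refine h1.trans (le_of_eq ?_)
  rw [← Av_add]
  refine Av_congr fun π _ => ?_
  rw [← TP_zero]
  unfold TP
  ring

end Two

end R5

end

section

/-!
# Averages over the paths whose last object is a vertex (helper3)

`CE`: the average of a function of `(V_K, prefix order)` over the paths whose last object is the
vertex `V_K`, as a sum over the vertices.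
-/

namespace R5

namespace J0

open Finset T7 Two

variable {α : Type} [DecidableEq α]

/-- all sets `V ∪ prefix` except `V` have label `B` -/
def goodB1 (τ : Finset α → Lab) (V : Finset α) (π : List α) : Prop :=
  ∀ i ∈ Icc 1 π.length, τ (V ∪ pre π i) = Lab.B

instance (τ : Finset α → Lab) (V : Finset α) (π : List α) : Decidable (goodB1 τ V π) := by
  unfold goodB1; infer_instance

theorem allB_append1 {τ : Finset α → Lab} {π1 π2 : List α} :
    allB τ (π1 ++ π2) (π1.length + 1) ↔ goodB1 τ π1.toFinset π2 := by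
  unfold allB goodB1
  constructor
  · intro h i hi
    rw [mem_Icc] at hi
    have := h (π1.length + i) (by rw [mem_Icc, List.length_append]; omega)
    rwa [pre_append_add] at this
  · intro h k hk
    rw [mem_Icc, List.length_append] at hk
    obtain ⟨i, rfl⟩ := Nat.exists_eq_add_of_le (show π1.length ≤ k by omega)
    rw [pre_append_add]
    exact h i (by rw [mem_Icc]; omega)

theorem goodB1_cons {τ : Finset α → Lab} {V : Finset α} {g : α} {π : List α} :
    goodB1 τ V (g :: π) ↔ goodB τ (insert g V) π := by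
  unfold goodB1 goodB
  rw [List.length_cons]
  constructor
  · intro h i hi
    rw [mem_range] at hi
    have := h (i + 1) (by rw [mem_Icc]; omega)
    rw [pre_cons_succ] at this
    rwa [insert_union, ← union_insert]
  · intro h i hi
    rw [mem_Icc] at hi
    obtain ⟨j, rfl⟩ : ∃ j, i = j + 1 := ⟨i - 1, by omega⟩
    rw [pre_cons_succ, union_insert, ← insert_union]
    exact h j (by rw [mem_range]; omega)

/-- `bwb` as an average -/
theorem bwb_eq_Av (τ : Finset α → Lab) {D V : Finset α} (hV : V ⊆ D) (hne : (D \ V).Nonempty) :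
    bwb τ D V = Av (D \ V) (fun π => if goodB1 τ V π then 1 else 0) := by
  rw [Av_cons hne]
  unfold bwb
  congr 1
  refine sum_congr rfl fun g hg => ?_
  rw [mem_sdiff] at hg
  rw [bw_eq_Av τ (insert g V) (insert_subset hg.1 hV), sdiff_erase_eq]
  refine Av_congr fun π _ => ?_
  rw [if_congr goodB1_cons rfl rfl]

/-- chains of `B`-sets, one level above the base -/
theorem chain_B1 (τ : Finset α → Lab) {D : Finset α} {j : ℕ} (hj : j < D.card)
    (h : Finset α → List α → ℝ) :
    ∑ V ∈ powersetCard j D, bwb τ D V / (D.card.choose j : ℝ) * Av V (h V) =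
      Av D (fun π => if allB τ π (j + 1) then h (pre π j) (π.take j) else 0) := by
  have e : Av D (fun π => if allB τ π (j + 1) then h (pre π j) (π.take j) else 0) =
      Av D (fun π => (fun (π1 π2 : List α) => if goodB1 τ π1.toFinset π2 then
        h π1.toFinset π1 else 0) (π.take j) (π.drop j)) := by
    refine Av_congr fun π hπ => ?_
    have hl : (π.take j).length = j := by
      rw [List.length_take, length_of_mem hπ, min_eq_left hj.le]
    have h1 := allB_append1 (τ := τ) (π1 := π.take j) (π2 := π.drop j)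
    rw [List.take_append_drop, hl] at h1
    simp only [h1]
    rfl
  rw [e, Av_take_drop hj.le (fun (π1 π2 : List α) => if goodB1 τ π1.toFinset π2 then
        h π1.toFinset π1 else 0), sum_div]
  refine sum_congr rfl fun V hV => ?_
  obtain ⟨hV1, hV2⟩ := mem_powersetCard.1 hV
  have hne : (D \ V).Nonempty := by
    rw [← card_pos, card_sdiff_of_subset hV1, hV2]
    omega
  rw [bwb_eq_Av τ hV1 hne, div_mul_eq_mul_div, ← Av_mul]
  congr 1
  refine Av_congr fun π1 h1 => ?_
  simp only [(mem_seqs_card.1 h1).2]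
  rw [← Av_mul_right]
  refine Av_congr fun π2 _ => ?_
  split_ifs <;> simp

/-- `V_K` is a vertex -/
theorem lx_one {τ : Finset α → Lab} {D : Finset α} {π : List α} (h0 : τ ∅ = Lab.A)
    (hD : τ D = Lab.B) (hπ : π ∈ seqs D.card D) :
    lx τ π = if τ (pre π (kN τ π)) = Lab.X then 1 else 0 := by
  have h0' : τ ∅ ≠ Lab.B := by rw [h0]; decide
  have h1 := lab_kN h0' hD hπ
  unfold lx
  rcases h2 : τ (pre π (kN τ π)) with _ | _ | _
  · simp
  · exact absurd h2 h1
  · simp

/-- a path functional of `V_K` and the prefix order, as a sum over the levels -/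
theorem lx_levels {τ : Finset α → Lab} {D : Finset α} {π : List α} (h0 : τ ∅ = Lab.A)
    (hD : τ D = Lab.B) (hπ : π ∈ seqs D.card D) (F : Finset α → List α → ℝ) :
    lx τ π * F (pre π (kN τ π)) (π.take (kN τ π)) = ∑ j ∈ range D.card,
      (if allB τ π (j + 1) then
        (fun (V : Finset α) (π1 : List α) => if τ V = Lab.X then F V π1 else 0)
          (pre π j) (π.take j) else 0) := by
  have h0' : τ ∅ ≠ Lab.B := by rw [h0]; decide
  have hN := kN_lt h0' hD hπ
  rw [lx_one h0 hD hπ, sum_eq_single (kN τ π)]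
  · rw [if_pos ((allB_iff h0' hD hπ _).2 (Nat.lt_succ_self _))]
    by_cases hX : τ (pre π (kN τ π)) = Lab.X
    · simp only [if_pos hX, one_mul]
    · simp only [if_neg hX, zero_mul]
  · intro j hj hne
    rw [mem_range] at hj
    by_cases hB : allB τ π (j + 1)
    · rw [if_pos hB]
      have h1 := (allB_iff h0' hD hπ _).1 hB
      have h2 : allB τ π j := (allB_iff h0' hD hπ _).2 (by omega)
      have h3 : τ (pre π j) = Lab.B := h2 j (by rw [mem_Icc, length_of_mem hπ]; omega)
      have h4 : τ (pre π j) ≠ Lab.X := by rw [h3]; decide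
      simp only [if_neg h4]
    · rw [if_neg hB]
  · intro h
    exact absurd (mem_range.2 hN) h

/-- **conditional expectations at the last vertex** -/
theorem CE {τ : Finset α → Lab} {D : Finset α} (h0 : τ ∅ = Lab.A) (hD : τ D = Lab.B)
    (F : Finset α → List α → ℝ) :
    Av D (fun π => lx τ π * F (pre π (kN τ π)) (π.take (kN τ π))) =
      ∑ V ∈ D.powerset, if τ V = Lab.X then
        bwb τ D V / (D.card.choose V.card : ℝ) * Av V (F V) else 0 := by
  rw [Av_congr fun π hπ => lx_levels h0 hD hπ F, Av_sum]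
  have e : ∑ V ∈ D.powerset, (if τ V = Lab.X then
        bwb τ D V / (D.card.choose V.card : ℝ) * Av V (F V) else 0) =
      ∑ j ∈ range D.card, ∑ V ∈ powersetCard j D, (if τ V = Lab.X then
        bwb τ D V / (D.card.choose V.card : ℝ) * Av V (F V) else 0) := by
    rw [sum_powerset, sum_range_succ]
    have : ∑ U ∈ powersetCard D.card D, (if τ U = Lab.X then
        bwb τ D U / (D.card.choose U.card : ℝ) * Av U (F U) else 0) = 0 := by
      refine sum_eq_zero fun U hU => ?_
      obtain ⟨h1, h2⟩ := mem_powersetCard.1 hU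
      have : U = D := eq_of_subset_of_card_le h1 (le_of_eq h2.symm)
      rw [this, hD, if_neg (by decide)]
    rw [this, add_zero]
  rw [e]
  refine sum_congr rfl fun j hj => ?_
  rw [mem_range] at hj
  rw [← chain_B1 τ hj (fun (V : Finset α) (π1 : List α) => if τ V = Lab.X then F V π1 else 0)]
  refine sum_congr rfl fun V hV => ?_
  obtain ⟨-, hc⟩ := mem_powersetCard.1 hV
  rw [hc]
  by_cases hX : τ V = Lab.X
  · simp only [if_pos hX]
  · simp only [if_neg hX, Av_zero, mul_zero]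

end J0

end R5

end

section

/-!
# The slack of the cut vertices: path form of `AN` (helper3)
-/

namespace R5

namespace J0

open Finset T7 Two COSTB

variable {α : Type} [DecidableEq α]

/-- `(k + 1) [the first exit is a vertex]` -/
noncomputable def bx (τ : Finset α → Lab) (π : List α) : ℝ :=
  if τ (pre π (kA τ π + 1)) = Lab.X then (kA τ π : ℝ) + 1 else 0

/-- the first element is a light -/
noncomputable def lt1 (τ : Finset α → Lab) (π : List α) : ℝ :=
  if τ (pre π 1) = Lab.B then 1 else 0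

/-- the lights of `V` -/
def LV (τ : Finset α → Lab) (V : Finset α) : Finset α := V.filter (fun x => τ {x} = Lab.B)

theorem aw_path {τ : Finset α → Lab} {V : Finset α} (h0 : τ ∅ = Lab.A) (hV : τ V ≠ Lab.A) :
    aw τ V = Av V (fun π => (kA τ π : ℝ) + 1) := by
  have e1 : Av V (fun π => (kA τ π : ℝ) + 1) =
      Av V (fun π => ∑ j ∈ range (V.card + 1), if allA τ π j then
        (fun (_ : Finset α) (_ : List α) => (1 : ℝ)) (pre π j) (π.drop j) else 0) := by
    refine Av_congr fun π hπ => ?_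
    have hk := kA_lt h0 hV hπ
    have h1 := sum_iA h0 hV hπ (j := V.card + 1) (by omega) (fun _ => (1 : ℝ))
    rw [sum_const, card_range, nsmul_eq_mul, mul_one] at h1
    push_cast at h1
    rw [← h1]
    refine sum_congr rfl fun j _ => ?_
    unfold iA
    rw [mul_one]
  rw [e1, Av_sum]
  unfold aw
  rw [sum_powerset]
  refine sum_congr rfl fun j hj => ?_
  rw [mem_range] at hj
  rw [← chain_A τ (by omega : j ≤ V.card) (fun (_ : Finset α) (_ : List α) => (1 : ℝ))]
  refine sum_congr rfl fun X hX => ?_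
  obtain ⟨-, hc⟩ := mem_powersetCard.1 hX
  rw [hc, Av_const, mul_one]

theorem AW_path {τ : Finset α → Lab} {V : Finset α} (h0 : τ ∅ = Lab.A) (hV : τ V ≠ Lab.A) :
    AW (xw τ) V = Av V (bx τ) := by
  rw [← C1.NV_eq, C1.NV_NL, NL_eq]
  refine Av_congr fun π hπ => ?_
  rw [sum_exL h0 hV hπ (by decide)]
  rfl

theorem AN_path {τ : Finset α → Lab} {D V : Finset α} (h0 : τ ∅ = Lab.A) (hV : τ V ≠ Lab.A) :
    C1.AN τ D V = Av V (fun π => (kA τ π : ℝ) + 1 + bx τ π / (D.card : ℝ)) := by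
  unfold C1.AN
  rw [A1_eq, aw_path h0 hV, AW_path h0 hV, ← Av_div, ← Av_add]

theorem Av_lt1 {τ : Finset α → Lab} {V : Finset α} (hV : V.Nonempty) :
    Av V (lt1 τ) = ((LV τ V).card : ℝ) / V.card := by
  rw [Av_cons hV]
  congr 1
  unfold LV
  rw [card_filter]
  push_cast
  refine sum_congr rfl fun x _ => ?_
  have : ∀ π : List α, lt1 τ (x :: π) = if τ {x} = Lab.B then 1 else 0 := by
    intro π
    unfold lt1
    rw [pre_cons_succ, pre_zero]
    rfl
  rw [Av_congr fun π _ => this π, Av_const]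

section path

variable {τ : Finset α → Lab} {V : Finset α} {π : List α}

theorem bx_nonneg (τ : Finset α → Lab) (π : List α) : 0 ≤ bx τ π := by
  unfold bx
  split_ifs
  · positivity
  · exact le_rfl

theorem bx_le (τ : Finset α → Lab) (π : List α) : bx τ π ≤ (kA τ π : ℝ) + 1 := by
  unfold bx
  split_ifs
  · exact le_rfl
  · positivity

theorem lt1_cases (τ : Finset α → Lab) (π : List α) : lt1 τ π = 0 ∨ lt1 τ π = 1 := by
  unfold lt1
  split_ifs
  · exact Or.inr rfl
  · exact Or.inl rfl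

theorem lt1_kA (h0 : τ ∅ = Lab.A) (hV : τ V ≠ Lab.A) (hπ : π ∈ seqs V.card V)
    (h : lt1 τ π = 1) : kA τ π = 0 ∧ bx τ π = 0 := by
  have h1 : τ (pre π 1) = Lab.B := by
    unfold lt1 at h
    by_contra hc
    rw [if_neg hc] at h
    exact zero_ne_one h
  have h2 : kA τ π = 0 := by
    by_contra hc
    have h3 : allA τ π 1 := (allA_iff h0 hV hπ 1).2 (by omega)
    have h4 := h3 1 (by simp)
    rw [h1] at h4
    exact absurd h4 (by decide)
  refine ⟨h2, ?_⟩
  unfold bx
  rw [h2, if_neg]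
  rw [h1]
  decide

end path

/-- `A ≥ 1` -/
theorem AN_ge_one {τ : Finset α → Lab} {D V : Finset α} (h0 : τ ∅ = Lab.A) (hV : τ V ≠ Lab.A) :
    1 ≤ C1.AN τ D V := by
  rw [AN_path h0 hV]
  refine le_trans (le_of_eq (Av_const V 1).symm) (Av_mono fun π _ => ?_)
  have h1 : (0 : ℝ) ≤ kA τ π := Nat.cast_nonneg _
  have h2 : 0 ≤ bx τ π / (D.card : ℝ) := div_nonneg (bx_nonneg τ π) (Nat.cast_nonneg _)
  linarith

/-- `A ≥ p / K + β` -/
theorem AN_ge {τ : Finset α → Lab} {D V : Finset α} (h0 : τ ∅ = Lab.A) (hV : τ V ≠ Lab.A)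
    (hne : V.Nonempty) :
    ((LV τ V).card : ℝ) / V.card + Av V (bx τ) ≤ C1.AN τ D V := by
  rw [AN_path h0 hV, ← Av_lt1 hne, ← Av_add]
  refine Av_mono fun π hπ => ?_
  have h1 : (0 : ℝ) ≤ kA τ π := Nat.cast_nonneg _
  have h2 : 0 ≤ bx τ π / (D.card : ℝ) := div_nonneg (bx_nonneg τ π) (Nat.cast_nonneg _)
  rcases lt1_cases τ π with h | h
  · rw [h]
    have := bx_le τ π
    linarith
  · obtain ⟨-, h4⟩ := lt1_kA h0 hV hπ h
    rw [h, h4]
    simp only [zero_div]
    linarith

/-- `β ≤ q` -/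
theorem bx_sum_le {τ : Finset α → Lab} {V : Finset α} (h0 : τ ∅ = Lab.A) (hV : τ V ≠ Lab.A)
    (hne : V.Nonempty) :
    Av V (bx τ) ≤ (V.card : ℝ) - (LV τ V).card := by
  have hc : (0 : ℝ) < V.card := by exact_mod_cast card_pos.2 hne
  have e : (V.card : ℝ) - (LV τ V).card = Av V (fun π => (V.card : ℝ) - V.card * lt1 τ π) := by
    rw [Av_sub, Av_const, Av_mul]
    change _ = (V.card : ℝ) - V.card * Av V (lt1 τ)
    rw [Av_lt1 hne]
    field_simp
  rw [e]
  refine Av_mono fun π hπ => ?_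
  rcases lt1_cases τ π with h | h
  · rw [h]
    have h1 := bx_le τ π
    have h2 := kA_lt h0 hV hπ
    have h3 : (kA τ π : ℝ) + 1 ≤ V.card := by exact_mod_cast h2
    linarith
  · obtain ⟨-, h4⟩ := lt1_kA h0 hV hπ h
    rw [h, h4]
    linarith

/-- `a_V - A ≥ (p / K) (a_V - 1)` -/
theorem AN_gap {τ : Finset α → Lab} {D V : Finset α} (h0 : τ ∅ = Lab.A) (hV : τ V ≠ Lab.A)
    (hne : V.Nonempty) :
    ((LV τ V).card : ℝ) / V.card * ((V.card : ℝ) + (V.card : ℝ) / D.card - 1) ≤
      (V.card : ℝ) + (V.card : ℝ) / D.card - C1.AN τ D V := by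
  have hl : (0 : ℝ) ≤ D.card := Nat.cast_nonneg _
  have e : (V.card : ℝ) + (V.card : ℝ) / D.card - C1.AN τ D V =
      Av V (fun π => (V.card : ℝ) + (V.card : ℝ) / D.card -
        ((kA τ π : ℝ) + 1 + bx τ π / (D.card : ℝ))) := by
    rw [AN_path h0 hV, Av_sub, Av_const]
  rw [e, ← Av_lt1 hne, ← Av_mul_right]
  refine Av_mono fun π hπ => ?_
  have h2 := kA_lt h0 hV hπ
  have h3 : (kA τ π : ℝ) + 1 ≤ V.card := by exact_mod_cast h2
  rcases lt1_cases τ π with h | h
  · rw [h, zero_mul]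
    have h1 := bx_le τ π
    have h4 : bx τ π / (D.card : ℝ) ≤ (V.card : ℝ) / D.card :=
      div_le_div_of_nonneg_right (h1.trans h3) hl
    linarith
  · obtain ⟨h5, h4⟩ := lt1_kA h0 hV hπ h
    rw [h, h4, h5]
    simp

end J0

end R5

end

section

/-!
# The inequality at a vertex `V_K`, and its average (helper3)
-/

namespace R5

namespace J0

open Finset T7 Two COSTB

variable {α : Type} [DecidableEq α]

/-- the lower bound of the surplus minus the cost on the paths with last vertex `V`, as a function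
of the prefix order -/
noncomputable def FF (τ : Finset α → Lab) (D V : Finset α) (π : List α) : ℝ :=
  lamn D.card * (lt1 τ π * ((((LV τ V).card : ℝ) - 1) * (((D.card : ℝ) - V.card) -
      (LV τ (D \ V)).card)) +
    (1 - lt1 τ π) * (((LV τ V).card : ℝ) * (((D.card : ℝ) - V.card) - (LV τ (D \ V)).card) +
      (LV τ (D \ V)).card)) -
  (((D.card : ℝ) - V.card) + bx τ π) / (D.card : ℝ) ^ 2

theorem Av_FF {τ : Finset α → Lab} {D V : Finset α} (hne : V.Nonempty) :
    Av V (FF τ D V) = lamn D.card * (((LV τ V).card : ℝ) / V.card *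
      ((((LV τ V).card : ℝ) - 1) * (((D.card : ℝ) - V.card) - (LV τ (D \ V)).card)) +
      (1 - ((LV τ V).card : ℝ) / V.card) * (((LV τ V).card : ℝ) *
        (((D.card : ℝ) - V.card) - (LV τ (D \ V)).card) + (LV τ (D \ V)).card)) -
      (((D.card : ℝ) - V.card) + Av V (bx τ)) / (D.card : ℝ) ^ 2 := by
  rw [← Av_lt1 hne]
  set P := (((LV τ V).card : ℝ) - 1) * (((D.card : ℝ) - V.card) - (LV τ (D \ V)).card)
  set Q := ((LV τ V).card : ℝ) * (((D.card : ℝ) - V.card) - (LV τ (D \ V)).card) +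
      (LV τ (D \ V)).card
  have e : ∀ π ∈ seqs V.card V, FF τ D V π = lamn D.card * (P - Q) * lt1 τ π -
      bx τ π / (D.card : ℝ) ^ 2 + (lamn D.card * Q - ((D.card : ℝ) - V.card) /
        (D.card : ℝ) ^ 2) := by
    intro π _
    unfold FF
    ring
  rw [Av_congr e, Av_add, Av_sub, Av_mul, Av_div, Av_const]
  change lamn D.card * (P - Q) * Av V (lt1 τ) - Av V (bx τ) / (D.card : ℝ) ^ 2 + _ = _
  ring

theorem LV_add {τ : Finset α → Lab} {D V : Finset α} (hV : V ⊆ D) :
    (LV τ V).card + (LV τ (D \ V)).card = (LV τ D).card := by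
  rw [← card_union_of_disjoint]
  · congr 1
    unfold LV
    rw [← filter_union, union_sdiff_of_subset hV]
  · unfold LV
    exact disjoint_filter_filter (disjoint_sdiff)

/-- **the inequality at a vertex** -/
theorem perV {τ : Finset α → Lab} {D V : Finset α} (h0 : τ ∅ = Lab.A) (hD : τ D = Lab.B)
    (hV : V ⊆ D) (hX : τ V = Lab.X) (hJ : 1 ≤ (LV τ D).card)
    (hJl : (LV τ D).card + 1 ≤ D.card) :
    0 ≤ Av V (FF τ D V) + (D.card : ℝ) / ((D.card : ℝ) + 1) *
      ((1 - (V.card : ℝ) / D.card) * ((V.card : ℝ) + (V.card : ℝ) / D.card - C1.AN τ D V) *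
        C1.AN τ D V / (((V.card : ℝ) + 1) * ((V.card : ℝ) + (V.card : ℝ) / D.card))) := by
  have hne : V.Nonempty := by
    rw [nonempty_iff_ne_empty]
    rintro rfl
    rw [h0] at hX
    exact absurd hX (by decide)
  have hVA : τ V ≠ Lab.A := by rw [hX]; decide
  have hVD : V ≠ D := by
    rintro rfl
    rw [hD] at hX
    exact absurd hX (by decide)
  have hK : 1 ≤ V.card := card_pos.2 hne
  have hKl : V.card + 1 ≤ D.card := card_lt_card (hV.ssubset_of_ne hVD)
  have hp : (LV τ V).card ≤ V.card := card_le_card (filter_subset _ _)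
  have ho : V.card + (LV τ (D \ V)).card ≤ D.card := by
    have h1 : (LV τ (D \ V)).card ≤ (D \ V).card := card_le_card (filter_subset _ _)
    rw [card_sdiff_of_subset hV] at h1
    omega
  have hadd := LV_add (τ := τ) hV
  have hK2 : 1 ≤ (LV τ V).card → 2 ≤ V.card := by
    intro h
    by_contra hc
    have h1 : V.card = 1 := by omega
    obtain ⟨x, rfl⟩ := card_eq_one.1 h1
    obtain ⟨y, hy⟩ := card_pos.1 (show 0 < (LV τ {x}).card by omega)
    unfold LV at hy
    rw [mem_filter, mem_singleton] at hy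
    rw [hy.1, hX] at hy
    exact absurd hy.2 (by decide)
  have h := scal (β := Av V (bx τ)) (A := C1.AN τ D V) (lam := lamn D.card) hK hKl hp
    (by omega : 1 ≤ (LV τ V).card + (LV τ (D \ V)).card) (by omega) ho hK2
    (Av_nonneg fun π _ => bx_nonneg τ π) (bx_sum_le h0 hVA hne) (AN_ge_one h0 hVA)
    (AN_ge h0 hVA hne) (AN_gap h0 hVA hne) (lam_lb (by omega))
  rw [Av_FF hne]
  linarith

/-- **the average of the inequality at the last vertex** -/
theorem sumV {τ : Finset α → Lab} {D : Finset α} (h0 : τ ∅ = Lab.A) (hD : τ D = Lab.B)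
    (hJ : 1 ≤ (LV τ D).card) (hJl : (LV τ D).card + 1 ≤ D.card) :
    0 ≤ Av D (fun π => lx τ π * FF τ D (pre π (kN τ π)) (π.take (kN τ π))) +
      (D.card : ℝ) / ((D.card : ℝ) + 1) * C1.SL τ D := by
  rw [CE h0 hD (FF τ D)]
  unfold C1.SL
  rw [mul_sum, ← sum_add_distrib]
  refine sum_nonneg fun V hV => ?_
  rw [mem_powerset] at hV
  by_cases hX : τ V = Lab.X
  · rw [if_pos hX, if_pos hX]
    have h := perV h0 hD hV hX hJ hJl
    have hb : 0 ≤ bwb τ D V / (D.card.choose V.card : ℝ) :=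
      div_nonneg (bwb_nonneg _ _ _) (Nat.cast_nonneg _)
    have := mul_nonneg hb h
    linarith
  · rw [if_neg hX, if_neg hX]
    simp

end J0

end R5

end

section

/-!
# The set kernel without light elements (helper77)

`S0K`: (S0') for the set kernel.  `J00`: the typewise inequality when no set of one element has
label `B` and no complement of one element has label `A`.
-/

namespace R5

namespace Z0

open Finset T7 Two

variable {α : Type} [DecidableEq α]

section rev

variable {σ : Finset α → Lab} {W : Finset α} {π : List α}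

/-- the min kernel in first exit form is at most the set kernel -/
theorem phiM_rev (hπ : π ∈ seqs W.card W) (ρ : α → ℝ) :
    psum (phiM (dual σ W) ρ (W.card : ℝ) (W \ W)) (W \ W) π.reverse ≤ K.cstK σ ρ W π := by
  have hW : W ⊆ W := Subset.rfl
  unfold K.cstK
  rw [bridge hW hπ]
  refine sum_le_sum fun k hk => ?_
  rw [mem_range, ← length_of_mem hπ] at hk
  rw [Th_take _ W hk]
  obtain ⟨h1, h2, h3, h4⟩ := path_facts (σ := σ) hW hπ hk
  have hnd := (mem_seqs_card.1 hπ).1
  have hkl : (π.take k).reverse.length = k := by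
    rw [List.length_reverse, List.length_take]; omega
  unfold phiM
  rw [h3, h4, nx_eq hnd hk, sum_singleton, hkl, sdiff_self, bot_eq_empty, sdiff_empty,
    sdiff_empty]
  have h5 := isE_rev (σ := σ) hW hπ hk
  have f1 : 0 ≤ -Real.log (fw σ (pre π k)) :=
    neg_nonneg.2 (Real.log_nonpos (fw_nonneg _ _) (fw_le_one _ _))
  have f2 : 0 ≤ -Real.log (fwb σ (pre π (k + 1))) :=
    neg_nonneg.2 (Real.log_nonpos (fwb_nonneg _ _) (fwb_le_one _ _))
  apply add_le_add
  · by_cases hE : exE σ π k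
    · rw [iE_pos hE, if_pos (h5.2 ⟨hE.2, hE.1 k (by simp)⟩), iA_pos hE.1]
      unfold Lf
      linarith
    · rw [iE_neg hE, zero_mul]
      by_cases h6 : isE (dual σ W) (W \ pre π (k + 1)) π[k]
      · rw [if_pos h6, iA_neg fun h => hE ⟨h, (h5.1 h6).1⟩, zero_mul]
      · rw [if_neg h6]
  · have h7 : dual σ W (W \ pre π (k + 1)) = Lab.X ↔ σ (pre π (k + 1)) = Lab.X := by
      rw [dual_sdiff σ h1, flip_eq_X]
    by_cases hE : exX σ π k
    · rw [iX_pos hE, if_pos (h7.2 hE.2), iA_pos hE.1]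
      unfold Lf
      linarith
    · rw [iX_neg hE, zero_mul]
      by_cases h6 : dual σ W (W \ pre π (k + 1)) = Lab.X
      · rw [if_pos h6, iA_neg fun h => hE ⟨h, h7.1 h6⟩, zero_mul]
      · rw [if_neg h6]

end rev

/-- (S0') for the set kernel -/
theorem S0K (σ : Finset α → Lab) (W : Finset α) (ρ : α → ℝ) (h0 : σ ∅ = Lab.A)
    (hB : σ W = Lab.B) (hρ : ∀ x ∈ W, 0 < ρ x ∧ ρ x ≤ 1) :
    lamn W.card * Av W (fun π => (∑ k ∈ range W.card, iE σ π k) *
      ((W.card : ℝ) - kN σ π - ((W.filter (fun x => σ {x} = Lab.B)).card : ℝ))) ≤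
      Av W (K.cstK σ ρ W) := by
  have hW : W ⊆ W := Subset.rfl
  have hWW : W \ (W \ W) = W := Finset.sdiff_sdiff_eq_self hW
  have hA : dual σ W (W \ W) = Lab.A := by rw [dual_sdiff σ hW, flip_eq_A]; exact hB
  have hD : dual σ W W = Lab.B := by
    rw [dual_flip, sdiff_self, bot_eq_empty, flip_eq_B]; exact h0
  have h0' : σ ∅ ≠ Lab.B := by rw [h0]; decide
  have e1 := S0 (dual σ W) W (W \ W) sdiff_subset hA hD ρ
    (by rw [hWW]; exact fun x hx => (hρ x hx).1) (by rw [hWW]; exact fun x hx => (hρ x hx).2)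
    W.card (by rw [hWW])
  have ea : (W \ (W \ W)).filter (fun x => dual σ W (W.erase x) = Lab.A) =
      W.filter (fun x => σ {x} = Lab.B) := by
    rw [hWW]
    refine filter_congr fun x hx => ?_
    rw [dual_flip, flip_eq_A]
    have : W \ W.erase x = {x} := by
      ext z
      simp only [mem_sdiff, mem_erase, mem_singleton]
      constructor
      · rintro ⟨h1, h2⟩
        by_contra h3
        exact h2 ⟨h3, h1⟩
      · rintro rfl
        exact ⟨hx, fun h => h.1 rfl⟩
    rw [this]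
  rw [ea] at e1
  simp only [hWW] at e1
  rw [← Eo_reverse W (leI _ _), ← Eo_reverse W (psum _ _),
    ← Eo_reverse W (fun π => leI (dual σ W) (W \ W) π * (arun (dual σ W) (W \ W) π : ℝ))] at e1
  have t2 : Eo W (fun π => leI (dual σ W) (W \ W) π.reverse) = Eo W (fun π =>
      ∑ k ∈ range W.card, iE σ π k) := Eo_congr fun π hπ => leI_rev hW hπ
  have t3 : Eo W (fun π => psum (phiM (dual σ W) ρ (W.card : ℝ) (W \ W)) (W \ W) π.reverse) ≤
      Eo W (K.cstK σ ρ W) := Eo_mono fun π hπ => phiM_rev hπ ρ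
  have t4 : Eo W (fun π => leI (dual σ W) (W \ W) π.reverse *
      (arun (dual σ W) (W \ W) π.reverse : ℝ)) = Eo W (fun π =>
      (∑ k ∈ range W.card, iE σ π k) * ((W.card : ℝ) - 1 - kN σ π)) := Eo_congr fun π hπ => by
    have hm := mem_seqs_card.1 hπ
    have h1 := arun_rev σ W h0' π hm.1 (fun x hx => by
      rw [← hm.2]; exact List.mem_toFinset.2 hx) (by rw [hm.2]; exact hB)
    rw [hm.2, length_of_mem hπ] at h1
    have h2 : (arun (dual σ W) (W \ W) π.reverse : ℝ) = (W.card : ℝ) - 1 - kN σ π := by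
      have : (arun (dual σ W) (W \ W) π.reverse : ℝ) + 1 + (kN σ π : ℝ) = (W.card : ℝ) := by
        exact_mod_cast h1
      linarith
    rw [leI_rev hW hπ, h2]
  rw [t2, t4] at e1
  have r1 : Av W (fun π => (∑ k ∈ range W.card, iE σ π k) *
      ((W.card : ℝ) - kN σ π - ((W.filter (fun x => σ {x} = Lab.B)).card : ℝ))) =
      Eo W (fun π => (∑ k ∈ range W.card, iE σ π k) * ((W.card : ℝ) - 1 - kN σ π)) +
      (1 - ((W.filter (fun x => σ {x} = Lab.B)).card : ℝ)) *
        Eo W (fun π => ∑ k ∈ range W.card, iE σ π k) := by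
    rw [← Eo_mul, ← Eo_add]
    refine Eo_congr fun π _ => ?_
    ring
  rw [r1]
  exact e1.trans t3

/-- the last level of a prefix -/
theorem kN_take_le {τ : Finset α → Lab} {D : Finset α} {π : List α} (h0 : τ ∅ ≠ Lab.B)
    (hD : τ D = Lab.B) (hπ : π ∈ seqs D.card D) {j : ℕ} (hj : kN τ π < j) (hjD : j ≤ D.card) :
    kN τ (π.take j) ≤ kN τ π := by
  have hB : ∀ i, kN τ π < i → i ≤ D.card → τ (pre π i) = Lab.B := fun i hi hiD =>
    ((allB_iff h0 hD hπ i).2 hi) i (by rw [mem_Icc, length_of_mem hπ]; exact ⟨le_rfl, hiD⟩)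
  have hc : (pre π j).card = j := card_pre_of_mem hπ hjD
  have hm : π.take j ∈ seqs (pre π j).card (pre π j) :=
    mem_seqs_card.2 ⟨(mem_seqs_card.1 hπ).1.sublist (List.take_sublist _ _), rfl⟩
  have h1 : allB τ (π.take j) (kN τ π + 1) := by
    intro i hi
    rw [mem_Icc, List.length_take, length_of_mem hπ] at hi
    rw [pre_take (by omega)]
    exact hB i (by omega) (by omega)
  have h2 := (allB_iff h0 (hB j hj hjD) hm (kN τ π + 1)).1 h1
  omega

/-- the sum of the `lamn` -/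
theorem Lam_ge {K l : ℕ} (hK : 1 ≤ K) (h : K ≤ l) : ((l : ℝ) - K) * lamn l ≤ Lam K l := by
  unfold Lam
  have h1 : ((l : ℝ) - K) * lamn l = ∑ j ∈ Ioc K l, lamn l := by
    rw [sum_const, Nat.card_Ioc, nsmul_eq_mul, Nat.cast_sub h]
  rw [h1]
  refine sum_le_sum fun j hj => ?_
  rw [mem_Ioc] at hj
  exact lamn_anti (by omega) hj.2

/-- **one side**, no light element -/
theorem side (τ : Finset α → Lab) (D : Finset α) (ρ : Finset α → α → ℝ)
    (mk : Finset α → Finset α) (h0 : τ ∅ = Lab.A) (hD : τ D = Lab.B)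
    (hJ : ∀ x ∈ D, τ {x} ≠ Lab.B) (hρ : ∀ X ⊆ D, ∀ g ∈ D \ X, 0 < ρ X g ∧ ρ X g ≤ 1)
    (hg : ∀ U, 0 ≤ gm mk D U) :
    lamn D.card * Av D (fun π => iE τ π (kA τ π) * ((D.card : ℝ) - kN τ π)) ≤
    ((D.card : ℝ) + 1) * (K.SGs (dual τ D) D ρ mk -
      Real.log (D.card : ℝ) * PEL (dual τ D) D) := by
  have hD' : τ D ≠ Lab.A := by rw [hD]; decide
  have h0' : τ ∅ ≠ Lab.B := by rw [h0]; decide
  refine le_trans ?_ (K.side_total_K τ D ρ (K.cset ρ mk D) h0 hD
    (fun W π => (∑ k ∈ range W.card, iE τ π k) * (Real.log (W.card : ℝ) -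
      Real.log (D.card : ℝ) + lamn W.card * ((W.card : ℝ) - kN τ π))) ?_)
  · rw [← Av_mul]
    refine Av_mono fun π hπ => ?_
    have hAN := kA_le_kN h0 hD hπ
    have hNl := kN_lt h0' hD hπ
    have hAl := kA_lt h0 hD' hπ
    have hK : 1 ≤ kN τ π := by
      by_contra hc
      have hk0 : kN τ π = 0 := by omega
      have h1 := ((allB_iff h0' hD hπ 1).2 (by omega)) 1 (by
        rw [mem_Icc, length_of_mem hπ]; omega)
      have hl0 : 0 < π.length := by rw [length_of_mem hπ]; omega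
      have hx := pre_succ_eq hl0
      rw [pre_zero] at hx
      have hxD : π[0] ∈ D := pre_subset_of_mem hπ 1 (by
        show π[0] ∈ pre π (0 + 1)
        rw [hx]
        exact mem_insert_self _ _)
      have h2 : pre π 1 = {π[0]} := hx
      rw [h2] at h1
      exact hJ _ hxD h1
    have h1 : ∀ j ∈ Ioc (kN τ π) D.card,
        iE τ π (kA τ π) * (Real.log (j : ℝ) - Real.log (D.card : ℝ) +
          lamn j * ((j : ℝ) - kN τ π)) ≤
        (∑ k ∈ range (pre π j).card, iE τ (π.take j) k) * (Real.log ((pre π j).card : ℝ) -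
          Real.log (D.card : ℝ) + lamn (pre π j).card *
            (((pre π j).card : ℝ) - kN τ (π.take j))) := by
      intro j hj
      rw [mem_Ioc] at hj
      have hc : (pre π j).card = j := card_pre_of_mem hπ hj.2
      rw [hc]
      have e1 : ∑ k ∈ range j, iE τ (π.take j) k = iE τ π (kA τ π) := by
        have e2 := sum_iE h0 hD' hπ (j := j) (by omega) (fun _ => 1)
        simp only [mul_one] at e2
        rw [← e2]
        refine sum_congr rfl fun k hk => ?_
        rw [mem_range] at hk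
        apply iE_congr
        unfold exE
        rw [allA_take hk.le, pre_take hk]
      rw [e1]
      apply mul_le_mul_of_nonneg_left _ (iE_nonneg _ _ _)
      have h3 := kN_take_le h0' hD hπ hj.1 hj.2
      have h4 : (kN τ (π.take j) : ℝ) ≤ kN τ π := by exact_mod_cast h3
      have h5 := mul_le_mul_of_nonneg_left (by linarith : (j : ℝ) - kN τ π ≤
        (j : ℝ) - kN τ (π.take j)) (Two.lamn_nonneg j)
      linarith
    refine le_trans ?_ (sum_le_sum h1)
    rw [← mul_sum]
    have h2 : ∑ j ∈ Ioc (kN τ π) D.card, (Real.log (j : ℝ) - Real.log (D.card : ℝ) +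
        lamn j * ((j : ℝ) - kN τ π)) = Lam (kN τ π) D.card := by
      rw [sum_add_distrib, sum_log_Ioc hNl.le, ← sum_neg_distrib, ← sum_add_distrib]
      unfold Lam
      refine sum_congr rfl fun j _ => ?_
      ring
    rw [h2]
    have h3 := mul_le_mul_of_nonneg_left (Lam_ge hK hNl.le) (iE_nonneg τ π (kA τ π))
    linarith
  · intro W hW hne hB
    have hne0 : W.filter (fun x => τ {x} = Lab.B) = ∅ := by
      rw [filter_eq_empty_iff]
      exact fun x hx => hJ x (hW hx)
    have h1 := S0K τ W (ρ (D \ W)) h0 hB (fun x hx => hρ (D \ W) sdiff_subset x (by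
      rw [Finset.sdiff_sdiff_eq_self hW]
      exact hx))
    rw [hne0, card_empty, Nat.cast_zero] at h1
    simp only [sub_zero] at h1
    have h2 : 0 ≤ Av W (K.gnK τ D mk W.card) := by
      refine Av_nonneg fun π _ => ?_
      unfold K.gnK
      refine sum_nonneg fun k _ => ?_
      exact add_nonneg (mul_nonneg (iE_nonneg _ _ _) (hg _)) (mul_nonneg (iX_nonneg _ _ _) (hg _))
    have h9 : Av W (fun π => K.TSx τ D ρ (K.cset ρ mk D) W π -
        Real.log (D.card : ℝ) * ∑ k ∈ range W.card, iE τ π k) =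
        (Real.log (W.card : ℝ) - Real.log (D.card : ℝ)) *
          Av W (fun π => ∑ k ∈ range W.card, iE τ π k) + Av W (K.cstK τ (ρ (D \ W)) W) +
          Av W (K.gnK τ D mk W.card) := by
      rw [← Av_mul, ← Av_add, ← Av_add]
      refine Av_congr fun π hπ => ?_
      rw [K.TSx_cset τ ρ mk hW hπ]
      ring
    have h10 : Av W (fun π => (∑ k ∈ range W.card, iE τ π k) * (Real.log (W.card : ℝ) -
        Real.log (D.card : ℝ) + lamn W.card * ((W.card : ℝ) - kN τ π))) =
        (Real.log (W.card : ℝ) - Real.log (D.card : ℝ)) *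
          Av W (fun π => ∑ k ∈ range W.card, iE τ π k) +
        lamn W.card * Av W (fun π => (∑ k ∈ range W.card, iE τ π k) *
          ((W.card : ℝ) - kN τ π)) := by
      rw [← Av_mul, ← Av_mul, ← Av_add]
      refine Av_congr fun π _ => ?_
      ring
    rw [h9, h10]
    linarith

/-- no gain for marks outside `D` -/
theorem gm_out {L D : Finset α} (h : Disjoint L D) (U : Finset α) :
    gm (fun U => L \ U) D U = 0 := by
  unfold gm
  have : (L \ U) ∩ (D \ U) = ∅ :=
    disjoint_iff_inter_eq_empty.1 (h.mono sdiff_subset sdiff_subset)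
  rw [this, card_empty]
  simp [gg]

/-- **the typewise inequality without light elements** -/
theorem J00 (τ : Finset α → Lab) (D L L' : Finset α) (ρ ρ' : Finset α → α → ℝ)
    (hl : 2 ≤ D.card) (h0 : τ ∅ = Lab.A) (hD : τ D = Lab.B)
    (hL : ∀ x ∈ D, (x ∈ L ↔ τ {x} = Lab.B)) (hA : ∀ x ∈ D, τ (D.erase x) ≠ Lab.A)
    (hL' : Disjoint L' D)
    (hρ : ∀ X ⊆ D, ∀ g ∈ D \ X, 0 < ρ X g ∧ ρ X g ≤ 1)
    (hρ' : ∀ X ⊆ D, ∀ g ∈ D \ X, 0 < ρ' X g ∧ ρ' X g ≤ 1)
    (hJ : ∀ x ∈ D, τ {x} ≠ Lab.B) :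
    0 ≤ K.VAL τ D (K.vset τ D ρ L) (K.vset (dual τ D) D ρ' L') := by
  have hD' : τ D ≠ Lab.A := by rw [hD]; decide
  have h0' : τ ∅ ≠ Lab.B := by rw [h0]; decide
  have d0 := dual_empty hD
  have dD := dual_top (D := D) h0
  have hLd : Disjoint L D := disjoint_left.2 fun x hx hxD => hJ x hxD ((hL x hxD).1 hx)
  have h1 := side τ D ρ' (fun U => L' \ U) h0 hD hJ hρ' (fun U => (gm_out hL' U).ge)
  have h2 := side (dual τ D) D ρ (fun U => L \ U) d0 dD (fun x hx => by
    rw [dual_flip, ne_eq, flip_eq_B, sdiff_singleton_eq_erase]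
    exact hA x hx) hρ (fun U => (gm_out hLd U).ge)
  rw [PEL_dual_dual] at h2
  unfold K.SGs at h1 h2
  rw [K.SGx_dual_dual] at h2
  have h3 := C1.cost1_E h0 hD
  have h4 := C1.SL_nonneg (τ := τ) (D := D) h0 (card_pos.1 (by omega))
  have h5 : Av D (fun π =>
      (((kA τ π : ℝ) + 1) * iE τ π (kA τ π) + ((D.card : ℝ) - kN τ π) * (1 - lx τ π)) /
        (D.card : ℝ) ^ 2) ≤
      lamn D.card * Av D (fun π => iE τ π (kA τ π) * ((D.card : ℝ) - kN τ π)) +
      lamn D.card * Av D (fun π => iE (dual τ D) π (kA (dual τ D) π) *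
        ((D.card : ℝ) - kN (dual τ D) π)) := by
    rw [← Av_reverse D (fun π => iE (dual τ D) π (kA (dual τ D) π) *
        ((D.card : ℝ) - kN (dual τ D) π)), ← Av_mul, ← Av_mul, ← Av_add]
    refine Av_mono fun π hπ => ?_
    have hk := kA_lt h0 hD' hπ
    have hN := kN_lt h0' hD hπ
    have hAN := kA_le_kN h0 hD hπ
    have hlR : (2 : ℝ) ≤ D.card := by exact_mod_cast hl
    have hlam := lamn_ge hl
    have hkR : (kA τ π : ℝ) + 1 ≤ D.card := by exact_mod_cast hk
    have hNR : (kN τ π : ℝ) + 1 ≤ D.card := by exact_mod_cast hN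
    have hk0 : (0 : ℝ) ≤ kA τ π := Nat.cast_nonneg _
    have hN0 : (0 : ℝ) ≤ kN τ π := Nat.cast_nonneg _
    have key : ∀ x y : ℝ, x ≤ D.card → 1 ≤ y → x / (D.card : ℝ) ^ 2 ≤ lamn D.card * y := by
      intro x y hx hy
      have e1 : x / (D.card : ℝ) ^ 2 ≤ 1 / D.card := by
        rw [div_le_div_iff₀ (by positivity) (by linarith)]
        nlinarith
      have e2 := mul_le_mul_of_nonneg_left hy (Two.lamn_nonneg D.card)
      linarith
    have e3 : iE (dual τ D) π.reverse (kA (dual τ D) π.reverse) = 1 - lx τ π := by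
      have hrev : π.reverse ∈ seqs D.card D := by
        rw [mem_seqs_card]
        have := mem_seqs_card.1 hπ
        exact ⟨List.nodup_reverse.2 this.1, by rw [List.toFinset_reverse]; exact this.2⟩
      have dD' : dual τ D D ≠ Lab.A := by rw [dD]; decide
      rw [(K.exit_kA d0 dD' hrev).1, kA_dual h0 hD hπ, pre_reverse hπ (by omega)]
      have e4 : D.card - (D.card - 1 - kN τ π + 1) = kN τ π := by omega
      rw [e4, dual_flip, Finset.sdiff_sdiff_eq_self (pre_subset_of_mem hπ _)]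
      unfold lx
      rw [if_congr flip_eq_B rfl rfl]
      split_ifs <;> norm_num
    have e5 : (D.card : ℝ) - kN (dual τ D) π.reverse = (kA τ π : ℝ) + 1 := by
      rw [kN_dual h0 hD hπ]
      have e : (D.card - 1 - kA τ π) + (kA τ π + 1) = D.card := by omega
      have e' : ((D.card - 1 - kA τ π : ℕ) : ℝ) + ((kA τ π : ℝ) + 1) = D.card := by
        exact_mod_cast e
      linarith
    rw [e3, e5]
    have i1 := iE_nonneg τ π (kA τ π)
    have i2 : 0 ≤ 1 - lx τ π := by
      rcases lx_cases τ π with h | h <;> rw [h] <;> norm_num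
    have k1 := mul_le_mul_of_nonneg_right (key ((kA τ π : ℝ) + 1) ((D.card : ℝ) - kN τ π)
      hkR (by linarith)) i1
    have k2 := mul_le_mul_of_nonneg_right (key ((D.card : ℝ) - kN τ π) ((kA τ π : ℝ) + 1)
      (by linarith) (by linarith)) i2
    have k3 : (((kA τ π : ℝ) + 1) * iE τ π (kA τ π) +
        ((D.card : ℝ) - kN τ π) * (1 - lx τ π)) / (D.card : ℝ) ^ 2 =
        ((kA τ π : ℝ) + 1) / (D.card : ℝ) ^ 2 * iE τ π (kA τ π) +
        ((D.card : ℝ) - kN τ π) / (D.card : ℝ) ^ 2 * (1 - lx τ π) := by ring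
    rw [k3]
    linarith
  have hp : (0 : ℝ) < (D.card : ℝ) + 1 := by positivity
  have h6 : 0 ≤ (D.card : ℝ) / ((D.card : ℝ) + 1) * C1.SL τ D := by positivity
  have h7 : ((D.card : ℝ) + 1) * COST1 τ D ≤ ((D.card : ℝ) + 1) *
      (K.vset τ D ρ L + K.vset (dual τ D) D ρ' L' -
        Real.log (D.card : ℝ) * (PEL τ D + PEL (dual τ D) D)) := by
    unfold K.vset K.SGs
    linarith
  have h8 := le_of_mul_le_mul_left h7 hp
  unfold K.VAL
  linarith

end Z0

end R5

end

section

/-!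
# No light element at the top: the assembly (helper3)
-/

namespace R5

namespace J0

open Finset T7 Two COSTB

variable {α : Type} [DecidableEq α]

section path

variable {τ : Finset α → Lab} {D : Finset α} {π : List α}

theorem kA_take (h0 : τ ∅ = Lab.A) (hD : τ D = Lab.B) (hπ : π ∈ seqs D.card D)
    (hx : τ (pre π (kN τ π)) ≠ Lab.A) : kA τ (π.take (kN τ π)) = kA τ π := by
  have hD' : τ D ≠ Lab.A := by rw [hD]; decide
  have h0' : τ ∅ ≠ Lab.B := by rw [h0]; decide
  have hN := kN_lt h0' hD hπ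
  have hkK := lt_of_lx h0 hD hπ hx
  have hm := take_mem hπ (kN τ π)
  have hc : (pre π (kN τ π)).card = kN τ π := card_pre_of_mem hπ hN.le
  have h1 := kA_lt h0 hx hm
  rw [hc] at h1
  apply le_antisymm
  · have h2 := (allA_iff h0 hx hm _).2 le_rfl
    rw [allA_take h1.le] at h2
    exact (allA_iff h0 hD' hπ _).1 h2
  · rw [← allA_iff h0 hx hm, allA_take hkK.le]
    exact (allA_iff h0 hD' hπ _).2 le_rfl

theorem bx_take (h0 : τ ∅ = Lab.A) (hD : τ D = Lab.B) (hπ : π ∈ seqs D.card D)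
    (hx : τ (pre π (kN τ π)) ≠ Lab.A) :
    bx τ (π.take (kN τ π)) = ((kA τ π : ℝ) + 1) * (1 - iE τ π (kA τ π)) := by
  have hD' : τ D ≠ Lab.A := by rw [hD]; decide
  have hkK := lt_of_lx h0 hD hπ hx
  have h1 := lab_kA h0 hD' hπ
  have h2 := (allA_iff h0 hD' hπ (kA τ π)).2 le_rfl
  unfold bx
  rw [kA_take h0 hD hπ hx, pre_take (by omega : kA τ π + 1 ≤ kN τ π)]
  rcases h3 : τ (pre π (kA τ π + 1)) with _ | _ | _
  · exact absurd h3 h1
  · rw [iE_pos ⟨h2, h3⟩]
    simp
  · rw [iE_neg]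
    · simp
    · intro h
      rw [h.2] at h3
      exact absurd h3 (by decide)

theorem lt1_take {j : ℕ} (hj : 1 ≤ j) : lt1 τ (π.take j) = lt1 τ π := by
  unfold lt1
  rw [pre_take hj]

theorem AL_empty (τ : Finset α → Lab) (V : Finset α) : AL τ V ∅ = LV τ V := by
  unfold AL LV
  ext x
  simp

theorem pn_zero (τ : Finset α → Lab) (π : List α) :
    pn τ π 0 = (LV τ (pre π (kN τ π))).card := by
  unfold pn
  rw [pre_zero, AL_empty]

theorem an_zero (τ : Finset α → Lab) (D : Finset α) (π : List α) :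
    an τ D π 0 = (LV τ D).card := by
  unfold an
  rw [pre_zero, AL_empty]

theorem on_zero (hπ : π ∈ seqs D.card D) :
    on τ D π 0 = ((LV τ (D \ pre π (kN τ π))).card : ℝ) := by
  unfold on
  rw [pn_zero, an_zero, ← LV_add (τ := τ) (pre_subset_of_mem hπ (kN τ π))]
  push_cast
  ring

/-- the lights outside `V_K` -/
theorem on_le (h0 : τ ∅ = Lab.A) (hD : τ D = Lab.B) (hπ : π ∈ seqs D.card D) (i : ℕ) :
    on τ D π i ≤ (D.card : ℝ) - kN τ π := by
  have h3 := out_le h0 hD hπ i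
  have h2 := pn_le_an (τ := τ) hπ i
  unfold on
  rw [← Nat.cast_sub h2]
  have : (kN τ π : ℝ) + ((an τ D π i - pn τ π i : ℕ) : ℝ) ≤ D.card := by exact_mod_cast h3
  linarith

theorem on_nonneg (hπ : π ∈ seqs D.card D) (i : ℕ) : 0 ≤ on τ D π i := by
  have h2 := pn_le_an (τ := τ) hπ i
  unfold on
  rw [sub_nonneg]
  exact_mod_cast h2

theorem v1_nonneg (h0 : τ ∅ = Lab.A) (hD : τ D = Lab.B) (hπ : π ∈ seqs D.card D) (i : ℕ) :
    0 ≤ v1 τ D π i := by
  unfold v1
  split_ifs
  · exact le_rfl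
  · exact zero_le_one
  · have h1 := on_le h0 hD hπ i
    have h2 := on_nonneg (τ := τ) hπ i
    have h3 : (0 : ℝ) ≤ pn τ π i := Nat.cast_nonneg _
    have := mul_nonneg h3 (sub_nonneg.2 h1)
    linarith

/-- the first exit is a light element: then the exit is a live light at level `0` -/
theorem lv_of_lt1 (h0 : τ ∅ = Lab.A) (hD : τ D = Lab.B) (hπ : π ∈ seqs D.card D)
    (h : lt1 τ π = 1) : kA τ π = 0 ∧ lv τ D π = 1 := by
  have hD' : τ D ≠ Lab.A := by rw [hD]; decide
  obtain ⟨h1, -⟩ := lt1_kA h0 hD' hπ h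
  have h2 : τ (pre π 1) = Lab.B := by
    unfold lt1 at h
    by_contra hc
    rw [if_neg hc] at h
    exact zero_ne_one h
  refine ⟨h1, ?_⟩
  have hk := kA_lt h0 hD' hπ
  obtain ⟨x, hx⟩ := Blk.nx_single hπ hk
  unfold lv
  rw [hx]
  rw [h1] at hx ⊢
  have hxm : x ∈ nx π 0 := by rw [hx]; exact mem_singleton_self x
  have h3 := Blk.insert_nx hπ (by omega : 0 < D.card) hxm
  rw [pre_zero] at h3
  have h4 : τ {x} = Lab.B := by
    rw [← h2, show (1 : ℕ) = 0 + 1 from rfl, ← h3]
    rfl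
  have h5 := Blk.mem_nx.1 hxm
  rw [pre_zero, AL_empty, singleton_inter_of_mem]
  · simp
  · unfold LV
    rw [mem_filter]
    exact ⟨pre_subset_of_mem hπ _ h5.1, h4⟩

/-- the surplus of the levels on the paths with a vertex at `V_K` -/
theorem sum_v1 (h0 : τ ∅ = Lab.A) (hD : τ D = Lab.B) (hπ : π ∈ seqs D.card D)
    (hx : τ (pre π (kN τ π)) ≠ Lab.A) (h : lt1 τ π = 0) :
    v1 τ D π 0 + ((D.card : ℝ) - kN τ π) * lv τ D π ≤
      ∑ i ∈ range (kA τ π + 1), v1 τ D π i := by
  have hD' : τ D ≠ Lab.A := by rw [hD]; decide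
  have hk := kA_lt h0 hD' hπ
  have hkK := lt_of_lx h0 hD hπ hx
  rcases nx_cases hπ hk (AL τ D (pre π (kA τ π))) with h1 | h1
  · have h2 : lv τ D π = 0 := h1
    rw [h2, mul_zero, add_zero]
    exact single_le_sum (fun i _ => v1_nonneg h0 hD hπ i) (mem_range.2 (Nat.succ_pos _))
  · have h2 : lv τ D π = 1 := h1
    -- the exit is a live light
    obtain ⟨x, hxx⟩ := Blk.nx_single hπ hk
    have hxA : x ∈ AL τ D (pre π (kA τ π)) := by
      by_contra hc
      unfold lv at h2
      rw [hxx, singleton_inter_of_notMem hc] at h2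
      simp at h2
    have hxm : x ∈ nx π (kA τ π) := by rw [hxx]; exact mem_singleton_self x
    have h5 := Blk.mem_nx.1 hxm
    have hk1 : 1 ≤ kA τ π := by
      by_contra hc
      have hk0 : kA τ π = 0 := by omega
      have hins := Blk.insert_nx hπ hk hxm
      rw [hk0] at hins
      rw [pre_zero] at hins
      have h6 : τ (pre π 1) = Lab.B := by
        rw [show (1 : ℕ) = 0 + 1 from rfl, ← hins]
        unfold AL at hxA
        exact (mem_filter.1 hxA).2.1
      unfold lt1 at h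
      rw [if_pos h6] at h
      exact one_ne_zero h
    have hpn : 1 ≤ pn τ π (kA τ π) := by
      rw [pn_eq hπ]
      apply card_pos.2
      refine ⟨x, ?_⟩
      rw [mem_inter, mem_sdiff]
      exact ⟨⟨pre_mono (by omega : kA τ π + 1 ≤ kN τ π) h5.1, h5.2⟩, hxA⟩
    have hv : (D.card : ℝ) - kN τ π ≤ v1 τ D π (kA τ π) := by
      rw [v1_lv hx]
      have h7 := on_le h0 hD hπ (kA τ π)
      have h8 : (1 : ℝ) ≤ pn τ π (kA τ π) := by exact_mod_cast hpn
      have h9 : 0 ≤ ((pn τ π (kA τ π) : ℝ) - 1) *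
          (((D.card : ℝ) - kN τ π) - on τ D π (kA τ π)) :=
        mul_nonneg (by linarith) (by linarith)
      linarith
    rw [h2, mul_one, sum_range_succ]
    have h10 : v1 τ D π 0 ≤ ∑ i ∈ range (kA τ π), v1 τ D π i :=
      single_le_sum (f := fun i => v1 τ D π i) (fun i _ => v1_nonneg h0 hD hπ i)
        (mem_range.2 hk1)
    linarith

/-- **the paths with a vertex at `V_K`** -/
theorem point_lv (h0 : τ ∅ = Lab.A) (hD : τ D = Lab.B) (hπ : π ∈ seqs D.card D)
    (hx : τ (pre π (kN τ π)) ≠ Lab.A) :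
    FF τ D (pre π (kN τ π)) (π.take (kN τ π)) ≤
      lamn D.card * (∑ i ∈ range (kA τ π + 1), v1 τ D π i -
        ((D.card : ℝ) - kN τ π) * lv τ D π) -
      (((kA τ π : ℝ) + 1) * (1 - iE τ π (kA τ π)) + ((D.card : ℝ) - kN τ π)) /
        (D.card : ℝ) ^ 2 := by
  have h0' : τ ∅ ≠ Lab.B := by rw [h0]; decide
  have hN := kN_lt h0' hD hπ
  have hkK := lt_of_lx h0 hD hπ hx
  have hc : (pre π (kN τ π)).card = kN τ π := card_pre_of_mem hπ hN.le
  have hlam := Two.lamn_nonneg D.card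
  have hv0 := v1_lv (D := D) hx 0
  unfold FF
  rw [hc, bx_take h0 hD hπ hx, lt1_take (by omega : 1 ≤ kN τ π), ← pn_zero,
    ← on_zero hπ]
  have key : lt1 τ π * (((pn τ π 0 : ℝ) - 1) * (((D.card : ℝ) - kN τ π) - on τ D π 0)) +
      (1 - lt1 τ π) * ((pn τ π 0 : ℝ) * (((D.card : ℝ) - kN τ π) - on τ D π 0) +
        on τ D π 0) ≤
      ∑ i ∈ range (kA τ π + 1), v1 τ D π i - ((D.card : ℝ) - kN τ π) * lv τ D π := by
    rcases lt1_cases τ π with h | h
    · have h1 := sum_v1 h0 hD hπ hx h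
      rw [h]
      linarith
    · obtain ⟨h2, h3⟩ := lv_of_lt1 h0 hD hπ h
      rw [h, h3, h2, zero_add, sum_range_one, hv0]
      linarith
  have := mul_le_mul_of_nonneg_left key hlam
  have e : (((D.card : ℝ) - kN τ π) + ((kA τ π : ℝ) + 1) * (1 - iE τ π (kA τ π))) /
      (D.card : ℝ) ^ 2 = (((kA τ π : ℝ) + 1) * (1 - iE τ π (kA τ π)) +
        ((D.card : ℝ) - kN τ π)) / (D.card : ℝ) ^ 2 := by ring
  rw [e]
  linarith

/-- the pointwise inequality of the assembly -/
theorem point_all (h0 : τ ∅ = Lab.A) (hD : τ D = Lab.B) (hl : 2 ≤ D.card)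
    (hJ : 1 ≤ (LV τ D).card) (hπ : π ∈ seqs D.card D) :
    lx τ π * FF τ D (pre π (kN τ π)) (π.take (kN τ π)) ≤
      lamn D.card * LB τ D (v1 τ D) π +
        lamn D.card * (((D.card : ℝ) - kN τ π - 1) * lv τ D π * (1 - lx τ π)) -
      (((kA τ π : ℝ) + 1) * (1 - iE τ π (kA τ π)) + ((D.card : ℝ) - kN τ π) * lx τ π) /
        (D.card : ℝ) ^ 2 := by
  have hD' : τ D ≠ Lab.A := by rw [hD]; decide
  have h0' : τ ∅ ≠ Lab.B := by rw [h0]; decide
  have hk := kA_lt h0 hD' hπ
  have hN := kN_lt h0' hD hπ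
  have hAN := kA_le_kN h0 hD hπ
  have hlam := Two.lamn_nonneg D.card
  have hlam1 := lamn_ge hl
  have hw : (1 : ℝ) ≤ (D.card : ℝ) - kN τ π := by
    have : (kN τ π : ℝ) + 1 ≤ D.card := by exact_mod_cast hN
    linarith
  have hr : (0 : ℝ) ≤ (kN τ π : ℝ) - kA τ π := by
    have : (kA τ π : ℝ) ≤ kN τ π := by exact_mod_cast hAN
    linarith
  have hnl := nl_nonneg τ D π
  have hn0 : (0 : ℝ) ≤ n00 τ D π := Nat.cast_nonneg _
  have hiE := iE_nonneg τ π (kA τ π)
  -- the extra terms of `LB`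
  have hLB : ∑ i ∈ range (kA τ π + 1), v1 τ D π i - ((D.card : ℝ) - kN τ π) * lv τ D π ≤
      LB τ D (v1 τ D) π := by
    unfold LB
    have h1 : 0 ≤ ((kN τ π : ℝ) - kA τ π) * ((D.card : ℝ) - kN τ π) * nl τ D π := by
      have : 0 ≤ (D.card : ℝ) - kN τ π := by linarith
      positivity
    have h2 : 0 ≤ ((D.card : ℝ) - kN τ π) * n00 τ D π * iE τ π (kA τ π) := by
      have : 0 ≤ (D.card : ℝ) - kN τ π := by linarith
      positivity
    linarith
  have hLB' := mul_le_mul_of_nonneg_left hLB hlam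
  by_cases hx : τ (pre π (kN τ π)) = Lab.A
  · -- the last object is an edge
    have hlx : lx τ π = 0 := by unfold lx; rw [if_pos hx]
    rw [hlx]
    have hS : 1 ≤ ∑ i ∈ range (kA τ π + 1), v1 τ D π i := by
      have h1 : v1 τ D π 0 = 1 := by
        unfold v1
        rw [if_pos hx, an_zero, if_neg (by omega)]
      rw [← h1]
      exact single_le_sum (fun i _ => v1_nonneg h0 hD hπ i) (mem_range.2 (Nat.succ_pos _))
    have h1 := iE_eq h0 hD hπ
    have hlv : lv τ D π = 0 ∨ lv τ D π = 1 := nx_cases hπ hk _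
    have hiE' : iE τ π (kA τ π) = 0 ∨ iE τ π (kA τ π) = 1 := by
      unfold iE
      split_ifs
      · exact Or.inr rfl
      · exact Or.inl rfl
    rcases hlv with hlv | hlv
    · rw [hlv] at hLB' ⊢
      have h2 : lamn D.card ≤ lamn D.card * ∑ i ∈ range (kA τ π + 1), v1 τ D π i :=
        le_mul_of_one_le_right hlam hS
      have h3 : (((kA τ π : ℝ) + 1) * (1 - iE τ π (kA τ π)) + ((D.card : ℝ) - kN τ π) * 0) /
          (D.card : ℝ) ^ 2 ≤ lamn D.card := by
        have hlR : (2 : ℝ) ≤ D.card := by exact_mod_cast hl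
        have h4 : 1 / (D.card : ℝ) = (D.card : ℝ) / (D.card : ℝ) ^ 2 := by field_simp
        refine le_trans ?_ hlam1
        rw [h4]
        apply div_le_div_of_nonneg_right _ (by positivity)
        have hkR : (kA τ π : ℝ) + 1 ≤ D.card := by exact_mod_cast hk
        have hk0 : (0 : ℝ) ≤ kA τ π := Nat.cast_nonneg _
        rcases hiE' with h5 | h5 <;> rw [h5]
        · linarith
        · linarith
      linarith
    · have hnl0 : iE τ π (kA τ π) = 1 := by
        rcases hiE' with h5 | h5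
        · rw [h5, hlv] at h1
          linarith
        · exact h5
      rw [hnl0]
      rw [hlv] at hLB' ⊢
      have h2 : lamn D.card ≤ lamn D.card * ∑ i ∈ range (kA τ π + 1), v1 τ D π i :=
        le_mul_of_one_le_right hlam hS
      simp only [sub_self, mul_zero, zero_mul, add_zero, zero_div, sub_zero, mul_one]
      linarith
  · -- the last object is a vertex
    have hlx : lx τ π = 1 := by unfold lx; rw [if_neg hx]
    rw [hlx]
    have h1 := point_lv h0 hD hπ hx
    simp only [sub_self, mul_zero, mul_one, one_mul, add_zero]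
    linarith

end path

/-- the gain of the S side is the gain of the level lemma -/
theorem gS0_eq (τ : Finset α → Lab) (D L : Finset α) (π : List α) :
    K.gS0 τ D (fun U => L \ U) π = ((kA τ π : ℝ) + 1) * gL τ D L π := by
  unfold K.gS0 gL U0
  congr 1
  split_ifs
  · rw [gm_sdiff, gm_lmk]
  · rw [gm_sdiff, gm_lmk]

theorem gm_disj {D L' : Finset α} (h : Disjoint L' D) (U : Finset α) :
    gm (fun U => L' \ U) D U = 0 := by
  rw [gm_sdiff, gm_lmk]
  have : (L' \ U) ∩ (D \ U) = ∅ := by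
    rw [← disjoint_iff_inter_eq_empty]
    exact disjoint_of_subset_left sdiff_subset (disjoint_of_subset_right sdiff_subset h)
  rw [this]
  simp [gg]

theorem gT_disj {D L' : Finset α} (h : Disjoint L' D) (τ : Finset α → Lab) (π : List α) :
    K.gT τ D (fun U => L' \ U) π = 0 := by
  unfold K.gT
  rw [gm_disj h, gm_disj h]
  simp

/-- **no light element at the top, light elements at the bottom** -/
theorem J0_pos {τ : Finset α → Lab} {D L L' : Finset α} {ρ ρ' : Finset α → α → ℝ}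
    (hl : 2 ≤ D.card) (h0 : τ ∅ = Lab.A) (hD : τ D = Lab.B)
    (hL : ∀ x ∈ D, (x ∈ L ↔ τ {x} = Lab.B)) (hA : ∀ x ∈ D, τ (D.erase x) ≠ Lab.A)
    (hL' : Disjoint L' D) (hLL : L.card + L'.card + 1 ≤ D.card)
    (hρ : ∀ X ⊆ D, ∀ g ∈ D \ X, 0 < ρ X g ∧ ρ X g ≤ 1)
    (hρ' : ∀ X ⊆ D, ∀ g ∈ D \ X, 0 < ρ' X g ∧ ρ' X g ≤ 1)
    (hJ : ∃ x ∈ D, τ {x} = Lab.B) :
    0 ≤ K.VAL τ D (K.vset τ D ρ L) (K.vset (dual τ D) D ρ' L') := by
  have hJ1 : 1 ≤ (LV τ D).card := by
    obtain ⟨x, hx, hB⟩ := hJ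
    exact card_pos.2 ⟨x, mem_filter.2 ⟨hx, hB⟩⟩
  have hJl : (LV τ D).card + 1 ≤ D.card := by
    have : (LV τ D).card ≤ L.card := by
      apply card_le_card
      intro x hx
      unfold LV at hx
      rw [mem_filter] at hx
      exact (hL x hx.1).2 hx.2
    omega
  -- the two sides
  have t1 := K.T_side0_K τ D ρ' (fun U => L' \ U) h0 hD (K.StateK_of τ D ρ' hρ')
  have e1 : Av D (fun π => lowT0 τ D π + K.gT τ D (fun U => L' \ U) π) = Av D (lowT0 τ D) :=
    Av_congr fun π _ => by rw [gT_disj hL', add_zero]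
  rw [e1] at t1
  have s1 := K.S1_side_l τ D ρ (fun U => L \ U) h0 hD hA hρ
  rw [Av_add, Av_congr fun π _ => gS0_eq τ D L π] at s1
  have o1 := one_side_v1 h0 hD L hL (by omega)
  -- the cost
  have c1 := C1.cost1_V h0 hD
  have v2 := sumV h0 hD hJ1 hJl
  have p1 := Av_mono (G := D) fun π hπ => point_all (τ := τ) h0 hD hl hJ1 hπ
  rw [Av_sub, Av_add, Av_mul, Av_mul] at p1
  rw [Av_mul] at s1
  change Av D (fun π => lx τ π * FF τ D (pre π (kN τ π)) (π.take (kN τ π))) ≤
    lamn D.card * Av D (LB τ D (v1 τ D)) + _ - _ at p1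
  have hp : (0 : ℝ) < (D.card : ℝ) + 1 := by positivity
  have h3 : ((D.card : ℝ) + 1) * COST1 τ D ≤ ((D.card : ℝ) + 1) *
      (K.vset τ D ρ L + K.vset (dual τ D) D ρ' L' -
        Real.log (D.card : ℝ) * (PEL τ D + PEL (dual τ D) D)) := by
    have e : ((D.card : ℝ) + 1) * (K.vset τ D ρ L + K.vset (dual τ D) D ρ' L' -
        Real.log (D.card : ℝ) * (PEL τ D + PEL (dual τ D) D)) =
        ((D.card : ℝ) + 1) * (K.SGs τ D ρ (fun U => L \ U) -
          Real.log (D.card : ℝ) * PEL τ D) +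
        ((D.card : ℝ) + 1) * (K.SGs (dual τ D) D ρ' (fun U => L' \ U) -
          Real.log (D.card : ℝ) * PEL (dual τ D) D) := by
      unfold K.vset
      ring
    rw [e]
    linarith
  have h4 := le_of_mul_le_mul_left h3 hp
  unfold K.VAL
  linarith

/-- **no light element at the top** -/
theorem stmt_J0 (α : Type) [DecidableEq α] : Stmt_J0 α := by
  intro τ D L L' ρ ρ' hl h0 hD hL hA hL' hLL hρ hρ'
  by_cases hJ : ∃ x ∈ D, τ {x} = Lab.B
  · exact J0_pos hl h0 hD hL hA hL' hLL hρ hρ' hJ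
  · push Not at hJ
    exact Z0.J00 τ D L L' ρ ρ' hl h0 hD hL hA hL' hρ hρ' hJ

end J0

end R5

end

section

/-!
# The typewise inequality for the set kernel (assembly of all pieces)
-/

namespace R5

namespace J0

open Finset T7 Two

theorem stmt_StateK (α : Type) [DecidableEq α] : Stmt_StateK α :=
  fun τ D ρ _ _ hρ => K.StateK_of τ D ρ hρ

theorem stmt_CostV (α : Type) [DecidableEq α] : Stmt_CostV α := by
  intro τ D _ h0 hD
  have hne : D.Nonempty := by
    by_contra h
    rw [not_nonempty_iff_eq_empty] at h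
    subst h
    rw [h0] at hD
    exact absurd hD (by decide)
  have h1 := (C1.cost1_bound τ D h0 hD hne).2
  have h2 := C1.SL_nonneg (τ := τ) h0 hne
  rw [C1.NV_NL, C1.NV_NL] at h1
  have h3 : 0 ≤ (D.card : ℝ) / ((D.card : ℝ) + 1) * C1.SL τ D := by positivity
  linarith

/-- **the typewise inequality for the set kernel** -/
theorem TIS (α : Type) [DecidableEq α] {l q : ℕ} (hl : 2 ≤ l) (hql : q ≤ l) :
    K.Stmt_TIS α l q :=
  TIS_of α (stmt_StateK α) (stmt_CostV α) (stmt_J0 α) hl hql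

end J0

end R5

end
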